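import Pool.Agent.Y718.Exc

/-!
# The exceptional sets
-/

set_option autoImplicit false
set_option linter.unusedSectionVars false
set_option linter.unusedSimpArgs false

open Set Filter Topology Pool.Agent.H581R2 Pool.Agent.TH729.SQ

namespace Pool.Agent.Y718

open SF

variable {n : ℕ}

/-- the form over the real numbers -/
noncomputable def FR (F : MvPolynomial (Fin (n + 1)) ℚ) : MvPolynomial (Fin (n + 1)) ℝ :=
  MvPolynomial.map (algebraMap ℚ ℝ) F

/-- the form over the complex numbers -/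
noncomputable def FC (F : MvPolynomial (Fin (n + 1)) ℚ) : MvPolynomial (Fin (n + 1)) ℂ :=
  MvPolynomial.map (algebraMap ℚ ℂ) F

lemma FC_eq (F : MvPolynomial (Fin (n + 1)) ℚ) : FC F = MvPolynomial.map Complex.ofRealHom (FR F) := by
  rw [FC, FR, MvPolynomial.map_map]
  congr 1

lemma FR_hom {F : MvPolynomial (Fin (n + 1)) ℚ} (hF : F.IsHomogeneous 4) : (FR F).IsHomogeneous 4 :=
  hF.map _

lemma FC_hom {F : MvPolynomial (Fin (n + 1)) ℚ} (hF : F.IsHomogeneous 4) : (FC F).IsHomogeneous 4 :=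
  hF.map _

/-- the first exceptional set -/
def Ex0 (F : MvPolynomial (Fin (n + 1)) ℚ) (p : Fin (n + 1)) : Set (Fin n → ℝ) :=
  {z | MvPolynomial.eval (ic p 1 z) (FR F) ≠ 0 ∧ ∀ U : Fin (n + 1) → ℝ, gB (lg (FR F) (ic p 1 z) U) = 0}

/-- the second exceptional set -/
def Ex1 (F : MvPolynomial (Fin (n + 1)) ℚ) (p : Fin (n + 1)) : Set (Fin n ⊕ Fin (n + 1) → ℝ) :=
  {w | MvPolynomial.eval (ic p 1 (fun j => w (Sum.inl j))) (FR F) ≠ 0 ∧
    (∃ U : Fin (n + 1) → ℝ, gB (lg (FR F) (ic p 1 (fun j => w (Sum.inl j))) U) ≠ 0) ∧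
    ∀ U : Fin (n + 1) → ℝ, gT (lg (FR F) (ic p 1 (fun j => w (Sum.inl j))) U) =
      (∑ i, w (Sum.inr i) * U i) * gB (lg (FR F) (ic p 1 (fun j => w (Sum.inl j))) U)}

lemma PF_ic {κ : Type} (p : Fin (n + 1)) {φ : (κ → ℝ) → Fin n → ℝ} (hφ : ∀ j, PF (fun w => φ w j))
    (i : Fin (n + 1)) : PF (fun w => ic p 1 (φ w) i) := by
  rcases Fin.eq_self_or_eq_succAbove p i with rfl | ⟨j, rfl⟩
  · exact PF.congr PF.one fun w => ic_same _ _ _
  · exact PF.congr (hφ j) fun w => ic_above _ _ _ _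

lemma PF_gB {κ : Type} (F : MvPolynomial (Fin (n + 1)) ℚ) {φ ψ : (κ → ℝ) → Fin (n + 1) → ℝ}
    (hφ : ∀ i, PF (fun w => φ w i)) (hψ : ∀ i, PF (fun w => ψ w i)) :
    PF (fun w => gB (lg (FR F) (φ w) (ψ w))) := by
  have h := fun k => PF_lg F k hφ hψ
  have c4 : PF (fun _ : κ → ℝ => (4 : ℝ)) := by simpa using PF.const (ι := κ) 4
  have c8 : PF (fun _ : κ → ℝ => (8 : ℝ)) := by simpa using PF.const (ι := κ) 8
  exact (((h 1).pow 3).sub (((c4.mul (h 0)).mul (h 1)).mul (h 2))).add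
    ((c8.mul ((h 0).pow 2)).mul (h 3))

lemma PF_gT {κ : Type} (F : MvPolynomial (Fin (n + 1)) ℚ) {φ ψ : (κ → ℝ) → Fin (n + 1) → ℝ}
    (hφ : ∀ i, PF (fun w => φ w i)) (hψ : ∀ i, PF (fun w => ψ w i)) :
    PF (fun w => gT (lg (FR F) (φ w) (ψ w))) := by
  have h := fun k => PF_lg F k hφ hψ
  have c4 : PF (fun _ : κ → ℝ => (4 : ℝ)) := by simpa using PF.const (ι := κ) 4
  have c64 : PF (fun _ : κ → ℝ => (64 : ℝ)) := by simpa using PF.const (ι := κ) 64
  exact ((((h 1).pow 2).sub ((c4.mul (h 0)).mul (h 2))).pow 2).sub ((c64.mul ((h 0).pow 3)).mul (h 4))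

lemma PF_e {κ : Type} (F : MvPolynomial (Fin (n + 1)) ℚ) {φ : (κ → ℝ) → Fin (n + 1) → ℝ}
    (hφ : ∀ i, PF (fun w => φ w i)) : PF (fun w => MvPolynomial.eval (φ w) (FR F)) := by
  have h := PF_lg F 0 hφ hφ
  exact PF.congr h fun w => (c0_eq _ _ _).symm

lemma Ex0_SA (F : MvPolynomial (Fin (n + 1)) ℚ) (p : Fin (n + 1)) : SA (Ex0 F p) := by
  refine SAP.and (p := fun z => MvPolynomial.eval (ic p 1 z) (FR F) ≠ 0)
    (q := fun z => ∀ U : Fin (n + 1) → ℝ, gB (lg (FR F) (ic p 1 z) U) = 0) ?_ ?_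
  · exact (SAP.eq_zero (PF_e F (PF_ic p fun j => PF.coord j))).not
  · have h1 := (SAP.exists_fun (Fin (n + 1)) (Fin n)
      (fun w => ¬ gB (lg (FR F) (ic p 1 (fun j => w (Sum.inr j))) (fun i => w (Sum.inl i))) = 0)
      (SAP.eq_zero (PF_gB F (PF_ic p fun j => PF.coord _) (fun i => PF.coord _))).not).not
    refine SAP.congr h1 fun z => ?_
    simp only [not_exists, not_not]
    rfl

lemma Ex1_SA (F : MvPolynomial (Fin (n + 1)) ℚ) (p : Fin (n + 1)) : SA (Ex1 F p) := by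
  refine SAP.and (p := fun w => MvPolynomial.eval (ic p 1 (fun j => w (Sum.inl j))) (FR F) ≠ 0)
    (q := fun w => (∃ U : Fin (n + 1) → ℝ, gB (lg (FR F) (ic p 1 (fun j => w (Sum.inl j))) U) ≠ 0) ∧
    ∀ U : Fin (n + 1) → ℝ, gT (lg (FR F) (ic p 1 (fun j => w (Sum.inl j))) U) =
      (∑ i, w (Sum.inr i) * U i) * gB (lg (FR F) (ic p 1 (fun j => w (Sum.inl j))) U)) ?_
    (SAP.and ?_ ?_)
  · exact (SAP.eq_zero (PF_e F (PF_ic p fun j => PF.coord _))).not
  · have h1 := (SAP.exists_fun (Fin (n + 1)) (Fin n ⊕ Fin (n + 1))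
      (fun w => ¬ gB (lg (FR F) (ic p 1 (fun j => w (Sum.inr (Sum.inl j)))) (fun i => w (Sum.inl i))) = 0)
      (SAP.eq_zero (PF_gB F (PF_ic p fun j => PF.coord _) (fun i => PF.coord _))).not)
    exact SAP.congr h1 fun z => Iff.rfl
  · have h1 := (SAP.exists_fun (Fin (n + 1)) (Fin n ⊕ Fin (n + 1))
      (fun w => ¬ gT (lg (FR F) (ic p 1 (fun j => w (Sum.inr (Sum.inl j)))) (fun i => w (Sum.inl i))) =
        (∑ i, w (Sum.inr (Sum.inr i)) * w (Sum.inl i)) *
        gB (lg (FR F) (ic p 1 (fun j => w (Sum.inr (Sum.inl j)))) (fun i => w (Sum.inl i))))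
      (SAP.eq (PF_gT F (PF_ic p fun j => PF.coord _) (fun i => PF.coord _))
        ((PF.sum _ fun i _ => (PF.coord _).mul (PF.coord _)).mul
          (PF_gB F (PF_ic p fun j => PF.coord _) (fun i => PF.coord _)))).not).not
    refine SAP.congr h1 fun z => ?_
    simp only [not_exists, not_not]
    rfl

lemma PK_ic {K κ : Type} [Field K] (p : Fin (n + 1)) {φ : Fin n → (κ → K) → K}
    (hφ : ∀ j, PK (φ j)) (i : Fin (n + 1)) : PK (fun w => ic p 1 (fun j => φ j w) i) := by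
  rcases Fin.eq_self_or_eq_succAbove p i with h | ⟨j, rfl⟩
  · rw [h]
    have : (fun w : κ → K => ic p 1 (fun j => φ j w) p) = fun _ => 1 := funext fun w => ic_same _ _ _
    rw [this]; exact PK.const 1
  · have : (fun w : κ → K => ic p 1 (fun j => φ j w) (p.succAbove j)) = fun w => φ j w :=
      funext fun w => ic_above _ _ _ _
    rw [this]; exact hφ j

/-- the covariants as functions of the point are differentiable -/
lemma PKw_coeff {κ : Type} (G : MvPolynomial (Fin (n + 1)) ℝ) (p : Fin (n + 1)) (U : Fin (n + 1) → ℝ)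
    (φ : Fin n → (κ → ℝ) → ℝ) (hφ : ∀ j, PK (φ j)) (k : ℕ) :
    PK (fun w : κ → ℝ => (lg G (ic p 1 (fun j => φ j w)) U).coeff k) := by
  have := (PKz_coeff G U k).comp (φ := fun (i : Fin (n + 1)) (w : κ → ℝ) => ic p 1 (fun j => φ j w) i)
    (fun i => PK_ic p hφ i)
  exact this

lemma PKw_gB {κ : Type} (G : MvPolynomial (Fin (n + 1)) ℝ) (p : Fin (n + 1)) (U : Fin (n + 1) → ℝ)
    (φ : Fin n → (κ → ℝ) → ℝ) (hφ : ∀ j, PK (φ j)) :
    PK (fun w : κ → ℝ => gB (lg G (ic p 1 (fun j => φ j w)) U)) := by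
  have h := PKw_coeff G p U φ hφ
  exact (((h 1).pow 3).sub ((((PK.const 4).mul (h 0)).mul (h 1)).mul (h 2))).add
    (((PK.const 8).mul ((h 0).pow 2)).mul (h 3))

lemma PKw_gT {κ : Type} (G : MvPolynomial (Fin (n + 1)) ℝ) (p : Fin (n + 1)) (U : Fin (n + 1) → ℝ)
    (φ : Fin n → (κ → ℝ) → ℝ) (hφ : ∀ j, PK (φ j)) :
    PK (fun w : κ → ℝ => gT (lg G (ic p 1 (fun j => φ j w)) U)) := by
  have h := PKw_coeff G p U φ hφ
  exact ((((h 1).pow 2).sub (((PK.const 4).mul (h 0)).mul (h 2))).pow 2).sub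
    (((PK.const 64).mul ((h 0).pow 3)).mul (h 4))

lemma cast_eval (G : MvPolynomial (Fin (n + 1)) ℝ) (Z : Fin (n + 1) → ℝ) :
    MvPolynomial.eval (fun i => (Z i : ℂ)) (MvPolynomial.map Complex.ofRealHom G) =
      ((MvPolynomial.eval Z G : ℝ) : ℂ) := by
  have := lgc G Z Z 0
  rw [c0_eq, c0_eq] at this
  exact this

lemma ne_cast {n : ℕ} {v : Fin n → ℝ} (hv : v ≠ 0) : (fun i => (v i : ℂ)) ≠ 0 := by
  intro h
  apply hv
  funext i
  have := congrFun h i
  simpa using this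

lemma cast_ic {n : ℕ} (p : Fin (n + 1)) (z : Fin n → ℝ) :
    (fun i => ((ic p 1 z i : ℝ) : ℂ)) = ic p 1 (fun j => (z j : ℂ)) := by
  have := ic_map Complex.ofRealHom p 1 z
  simpa using this

lemma cast_ic0 {n : ℕ} (p : Fin (n + 1)) (z : Fin n → ℝ) :
    (fun i => ((ic p 0 z i : ℝ) : ℂ)) = ic p 0 (fun j => (z j : ℂ)) := by
  have := ic_map Complex.ofRealHom p 0 z
  simpa using this

/-- **finiteness of the first exceptional set** -/
theorem Ex0_finite {F : MvPolynomial (Fin (n + 1)) ℚ} (hF : F.IsHomogeneous 4) (hsm : Smooth (FC F))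
    (p : Fin (n + 1)) : (Ex0 F p).Finite := by
  refine finite_of_isolated (Ex0_SA F p) ?_
  intro z hz hacc
  obtain ⟨v, hv, htan⟩ := exists_tangent hacc
  obtain ⟨he, hB⟩ := hz
  have hpz : ∀ U : Fin (n + 1) → ℝ, pz (FR F) (ic p 1 z) U (ic p 0 v) = 0 := by
    intro U
    have h1 := htan (fun z => gB (lg (FR F) (ic p 1 z) U))
      (PK_diff (PKw_gB (FR F) p U (fun j z => z j) fun j => PK.coord j) z) (fun y hy => hy.2 U) (hB U)
    have h2 := gB_derivZ (FR F) (ic p 1 z) U (ic p 0 v)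
    simp only [ic_add] at h2
    exact h2.unique h1
  -- over the complex numbers
  have hFC := FC_hom hF
  rw [FC_eq] at hsm hFC
  refine case_one (Z := fun i => ((ic p 1 z i : ℝ) : ℂ)) (H := fun i => ((ic p 0 v i : ℝ) : ℂ))
    hFC hsm ?_ ?_ ?_ ?_
  · rw [cast_eval]
    exact_mod_cast he
  · intro U
    refine real_to_complex (g := fun U => gB (lg (MvPolynomial.map Complex.ofRealHom (FR F))
      (fun i => ((ic p 1 z i : ℝ) : ℂ)) U)) (PKu_gB _ _) (fun U => ?_) U
    show gB _ = 0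
    rw [gBc, hB]; simp
  · intro U
    refine real_to_complex (g := fun U => pz (MvPolynomial.map Complex.ofRealHom (FR F))
      (fun i => ((ic p 1 z i : ℝ) : ℂ)) U (fun i => ((ic p 0 v i : ℝ) : ℂ))) (PKu_pz _ _ _) (fun U => ?_) U
    show pz _ _ _ _ = 0
    rw [pzc, hpz]; simp
  · intro l
    rw [cast_ic, cast_ic0]
    exact ic_out p (ne_cast hv) l

/-- the linear functional -/
noncomputable def lin {K : Type} [Field K] {m : ℕ} (l : Fin m → K) : (Fin m → K) →ₗ[K] K :=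
  ∑ i, l i • LinearMap.proj i

lemma lin_apply {K : Type} [Field K] {m : ℕ} (l U : Fin m → K) : lin l U = ∑ i, l i * U i := by
  simp [lin, LinearMap.sum_apply]

lemma PK_lin {K : Type} [Field K] {m : ℕ} (l : Fin m → K) : PK (fun U : Fin m → K => ∑ i, l i * U i) :=
  PK.sum _ fun i _ => (PK.const _).mul (PK.coord i)

/-- complexification of the linear relation -/
lemma T_complex {G : MvPolynomial (Fin (n + 1)) ℝ} {Z l : Fin (n + 1) → ℝ}
    (hT : ∀ U : Fin (n + 1) → ℝ, gT (lg G Z U) = (∑ i, l i * U i) * gB (lg G Z U))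
    (U : Fin (n + 1) → ℂ) : gT (lg (MvPolynomial.map Complex.ofRealHom G) (fun i => (Z i : ℂ)) U) =
      lin (fun i => (l i : ℂ)) U * gB (lg (MvPolynomial.map Complex.ofRealHom G) (fun i => (Z i : ℂ)) U) := by
  rw [lin_apply]
  have := real_to_complex (g := fun U => gT (lg (MvPolynomial.map Complex.ofRealHom G) (fun i => (Z i : ℂ)) U) -
      (∑ i, (l i : ℂ) * U i) * gB (lg (MvPolynomial.map Complex.ofRealHom G) (fun i => (Z i : ℂ)) U))
    ((PKu_gT _ _).sub ((PK_lin _).mul (PKu_gB _ _))) (fun U => by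
      show gT _ - (∑ i, (l i : ℂ) * (U i : ℂ)) * gB _ = 0
      rw [gTc, gBc, hT]
      push_cast
      ring) U
  exact sub_eq_zero.mp this

/-- **in at least four variables the second exceptional set is empty** -/
theorem Ex1_empty {F : MvPolynomial (Fin (n + 1)) ℚ} (hF : F.IsHomogeneous 4) (hsm : Smooth (FC F))
    (hn : 3 ≤ n) (p : Fin (n + 1)) : Ex1 F p = ∅ := by
  ext w
  simp only [Set.mem_empty_iff_false, iff_false]
  rintro ⟨he, -, hT⟩
  have hFC := FC_hom hF
  rw [FC_eq] at hsm hFC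
  refine no_linear_four hFC hsm (by omega)
    (Z := fun i => ((ic p 1 (fun j => w (Sum.inl j)) i : ℝ) : ℂ)) ?_
    (lin fun i => ((w (Sum.inr i) : ℝ) : ℂ)) (T_complex (l := fun i => w (Sum.inr i)) hT)
  rw [cast_eval]
  exact_mod_cast he

/-- **finiteness of the second exceptional set of plane curves** -/
theorem Ex1_finite {F : MvPolynomial (Fin 3) ℚ} (hF : F.IsHomogeneous 4) (hsm : Smooth (FC F))
    (p : Fin 3) : (Ex1 F p).Finite := by
  refine finite_of_isolated (Ex1_SA F p) ?_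
  intro w hw hacc
  obtain ⟨v, hv, htan⟩ := exists_tangent hacc
  obtain ⟨he, ⟨U1, hU1⟩, hT⟩ := hw
  set Z : Fin 3 → ℝ := ic p 1 (fun j => w (Sum.inl j)) with hZ
  set H : Fin 3 → ℝ := ic p 0 (fun j => v (Sum.inl j)) with hH
  set l : Fin 3 → ℝ := fun i => w (Sum.inr i) with hl
  set m : Fin 3 → ℝ := fun i => v (Sum.inr i) with hm
  have hrel : ∀ U : Fin 3 → ℝ, zt (FR F) Z U H =
      (∑ i, m i * U i) * gB (lg (FR F) Z U) + (∑ i, l i * U i) * pz (FR F) Z U H := by
    intro U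
    have h1 := htan (fun w => gT (lg (FR F) (ic p 1 (fun j => w (Sum.inl j))) U) -
      (∑ i, w (Sum.inr i) * U i) * gB (lg (FR F) (ic p 1 (fun j => w (Sum.inl j))) U))
      (PK_diff ((PKw_gT (FR F) p U (fun j w => w (Sum.inl j)) fun j => PK.coord _).sub
        ((PK.sum _ fun i _ => (PK.coord _).mul (PK.const _)).mul
        (PKw_gB (FR F) p U (fun j w => w (Sum.inl j)) fun j => PK.coord _))) w)
      (fun y hy => sub_eq_zero.mpr (hy.2.2 U)) (sub_eq_zero.mpr (hT U))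
    have h2 := gT_derivZ (FR F) Z U H
    have h3 := gB_derivZ (FR F) Z U H
    have h4 : HasDerivAt (fun t : ℝ => ∑ i, (l i + t * m i) * U i) (∑ i, m i * U i) 0 := by
      refine HasDerivAt.fun_sum fun i _ => ?_
      have := (((hasDerivAt_id (0 : ℝ)).mul_const (m i)).const_add (l i)).mul_const (U i)
      simpa using this
    have h5 := h2.sub (h4.mul h3)
    have h6 : (fun t : ℝ => gT (lg (FR F) (ic p 1 (fun j => (w + t • v) (Sum.inl j))) U) -
      (∑ i, (w + t • v) (Sum.inr i) * U i) * gB (lg (FR F) (ic p 1 (fun j => (w + t • v) (Sum.inl j))) U)) =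
      (fun t : ℝ => gT (lg (FR F) (Z + t • H) U)) -
        (fun t : ℝ => ∑ i, (l i + t * m i) * U i) * fun t : ℝ => gB (lg (FR F) (Z + t • H) U) := by
      funext t
      simp only [Pi.sub_apply, Pi.mul_apply]
      have e : ic p 1 (fun j => (w + t • v) (Sum.inl j)) = Z + t • H := by
        rw [hZ, hH, ic_add]
        rfl
      rw [e]
      rfl
    rw [h6] at h1
    have h7 := h5.unique h1
    simp only [zero_mul, add_zero, zero_smul] at h7
    linarith
  -- the direction is not vertical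
  have hvz : (fun j => v (Sum.inl j)) ≠ 0 := by
    intro h0
    have hH0 : H = 0 := by
      rw [hH, h0]
      apply ic_ext p
      · simp [ic_same]
      · intro j; simp [ic_above]
    have hdd : dd (0 : Fin 3 → ℝ) (FR F) = 0 := by
      have := dd_lin (0 : ℝ) 0 (0 : Fin 3 → ℝ) 0 (FR F)
      simpa using this
    have hlg0 : ∀ k, (lg (0 : MvPolynomial (Fin 3) ℝ) Z U1).coeff k = 0 := by
      intro k; simp [lg]
    have hprod : ∀ U : Fin 3 → ℝ, (∑ i, m i * U i) * gB (lg (FR F) Z U) = 0 := by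
      intro U
      have h1 := hrel U
      have hlgU : ∀ k, (lg (0 : MvPolynomial (Fin 3) ℝ) Z U).coeff k = 0 := by
        intro k; simp [lg]
      rw [hH0] at h1
      simp only [zt, pz, hdd, hlgU] at h1
      linarith
    have hm0 : ∀ i, m i = 0 := by
      intro i
      by_contra hne
      have hU1m : ∑ i, m i * U1 i = 0 := (mul_eq_zero.mp (hprod U1)).resolve_right hU1
      obtain ⟨P, hP⟩ := (PKu_gB (FR F) Z).poly U1 (Pi.single i 1)
      have hP0 : P = 0 := by
        apply Polynomial.eq_zero_of_infinite_isRoot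
        refine Set.Infinite.mono ?_ (Set.Finite.infinite_compl (Set.finite_singleton (0 : ℝ)))
        intro t ht
        have ht0 : t ≠ 0 := ht
        show P.eval t = 0
        rw [hP]
        refine (mul_eq_zero.mp (hprod _)).resolve_left ?_
        have : ∑ j, m j * (U1 + t • (Pi.single i 1 : Fin 3 → ℝ)) j = (∑ j, m j * U1 j) + t * m i := by
          simp only [Pi.add_apply, Pi.smul_apply, mul_add, Finset.sum_add_distrib]
          congr 1
          rw [Finset.sum_eq_single i]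
          · simp [mul_comm]
          · intro b _ hb; simp [hb]
          · simp
        rw [this, hU1m, zero_add]
        exact mul_ne_zero ht0 hne
      have := hP 0
      rw [hP0, Polynomial.eval_zero, zero_smul, add_zero] at this
      exact hU1 this.symm
    apply hv
    funext s
    rcases s with j | i
    · exact congrFun h0 j
    · exact hm0 i
  -- over the complex numbers
  have hFC := FC_hom hF
  rw [FC_eq] at hsm hFC
  refine case_two (Z := fun i => ((Z i : ℝ) : ℂ)) (H := fun i => ((H i : ℝ) : ℂ)) hFC hsm ?_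
    (lin fun i => ((l i : ℝ) : ℂ)) (T_complex (l := l) hT) ⟨fun i => ((U1 i : ℝ) : ℂ), ?_⟩ ?_ ?_
  · rw [cast_eval]
    exact_mod_cast he
  · rw [gBc]
    exact_mod_cast hU1
  · intro a
    rw [hZ, hH, cast_ic, cast_ic0]
    exact ic_out p (ne_cast hvz) a
  · intro U hU
    have h1 := real_to_complex (g := fun U => zt (MvPolynomial.map Complex.ofRealHom (FR F))
      (fun i => ((Z i : ℝ) : ℂ)) U (fun i => ((H i : ℝ) : ℂ)) -
      ((∑ i, ((m i : ℝ) : ℂ) * U i) * gB (lg (MvPolynomial.map Complex.ofRealHom (FR F))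
      (fun i => ((Z i : ℝ) : ℂ)) U) + (∑ i, ((l i : ℝ) : ℂ) * U i) * pz (MvPolynomial.map Complex.ofRealHom (FR F))
      (fun i => ((Z i : ℝ) : ℂ)) U (fun i => ((H i : ℝ) : ℂ))))
      ((PKu_zt _ _ _).sub (((PK_lin _).mul (PKu_gB _ _)).add ((PK_lin _).mul (PKu_pz _ _ _)))) (fun U => by
        show zt _ _ _ _ - ((∑ i, ((m i : ℝ) : ℂ) * (U i : ℂ)) * gB _ +
          (∑ i, ((l i : ℝ) : ℂ) * (U i : ℂ)) * pz _ _ _ _) = 0
        rw [ztc, pzc, gBc, hrel]
        push_cast
        ring) U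
    have h2 := sub_eq_zero.mp h1
    rw [hU, mul_zero, zero_add] at h2
    rw [lin_apply]
    exact h2

end Pool.Agent.Y718
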