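import Pool.Agent.Y718.GX
import Pool.Agent.Y720.MZ.Nor

/-!
# A criterion for points of infinite order, and the statement in terms of Mathlib's notions
-/

set_option autoImplicit false
set_option linter.unusedSectionVars false
set_option linter.unusedVariables false

open WeierstrassCurve Set Filter Topology Pool.Agent.Y720.MZ Pool.Agent.H581R2
  Pool.Agent.TH729.SQ

namespace Pool.Agent.Y718.X

section le1

variable {K : Type*} [Field K] {v : AbsoluteValue K ℝ}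

lemma le1_mul {x y : K} (hx : v x ≤ 1) (hy : v y ≤ 1) : v (x * y) ≤ 1 := by
  rw [map_mul]
  exact mul_le_one₀ hx (v.nonneg _) hy

lemma le1_sub (hv : IsNonarchimedean v) {x y : K} (hx : v x ≤ 1) (hy : v y ≤ 1) :
    v (x - y) ≤ 1 := by
  rw [sub_eq_add_neg]
  exact na_add hv hx (by rwa [v.map_neg])

lemma le1_nat (hv : IsNonarchimedean v) (k : ℕ) : v (k : K) ≤ 1 := by
  induction k with
  | zero => rw [Nat.cast_zero, map_zero]; exact zero_le_one
  | succ k ih => rw [Nat.cast_succ]; exact na_add hv ih (by rw [map_one])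

lemma le1_four (hv : IsNonarchimedean v) : v (4 : K) ≤ 1 := by
  exact_mod_cast le1_nat (K := K) hv 4

end le1

/-- **A criterion.** -/
theorem crit (p : ℕ) [Fact p.Prime] (h3 : 3 ≤ p) {q : Polynomial ℚ}
    (hint : ∀ k, vp p (q.coeff k) ≤ 1) (h1 : vp p (q.coeff 1) = 1) (h0 : vp p (q.coeff 0) < 1)
    {w : ℚ} (hw0 : w ≠ 0) (hw : w ^ 2 = q.coeff 0) (hD : Db q ≠ 0) : Inf q := by
  have hp := pl_padic p h3
  have h4 := le1_four (K := ℚ) hp.na
  have ha : vp p (Ab q) ≤ 1 := hint 2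
  have hb : vp p (Bb q) ≤ 1 :=
    le1_sub hp.na (le1_mul (hint 1) (hint 3)) (le1_mul (le1_mul h4 (hint 0)) (hint 4))
  have hc : vp p (Cb q) ≤ 1 := by
    refine le1_sub hp.na (na_add hp.na (le1_mul ?_ (hint 4)) (le1_mul (hint 0) ?_))
      (le1_mul (le1_mul (le1_mul h4 (hint 0)) (hint 2)) (hint 4))
    · rw [pow_two]; exact le1_mul (hint 1) (hint 1)
    · rw [pow_two]; exact le1_mul (hint 3) (hint 3)
  refine ⟨hD, w, hw0, hw, fun hns m hm => ?_⟩
  refine infinite_order hp.na ha hb hc h3 hp.unit hp.lt hns ?_ m hm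
  have hvw : vp p w < 1 := by
    rw [← hw, map_pow] at h0
    by_contra hcon
    push Not at hcon
    have := one_le_pow₀ hcon (n := 2)
    linarith
  have hvw0 : 0 < vp p w := (vp p).pos hw0
  have hu : 1 < vp p w⁻¹ := by
    rw [map_inv₀]
    exact (one_lt_inv₀ hvw0).2 hvw
  have hun := hp.un _ hu
  have h2 : vp p 2 = 1 := hp.two
  have h44 : vp p 4 = 1 := by
    have : (4 : ℚ) = 2 * 2 := by norm_num
    rw [this, map_mul, h2, one_mul]
  have e1 : vp p (q.coeff 1 ^ 2 / (4 * w ^ 2)) = vp p w⁻¹ ^ 2 := by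
    rw [map_div₀, map_mul, map_pow, map_pow, h1, h44, map_inv₀, one_pow, one_mul, one_div,
      inv_pow]
  have e2 : vp p (xs w (q.coeff 1) (q.coeff 2)) = vp p w⁻¹ ^ 2 := by
    rw [xs, sub_eq_add_neg, na_eq hp.na, e1]
    rw [e1, (vp p).map_neg]
    refine lt_of_le_of_lt (hint 2) ?_
    exact one_lt_pow₀ hu two_ne_zero
  rw [e2]
  exact hun

/-- the Jacobian of the curve `s² = q(t)` -/
def jac (q : Polynomial ℚ) : WeierstrassCurve ℚ where
  a₁ := 0
  a₂ := q.coeff 2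
  a₃ := 0
  a₄ := q.coeff 1 * q.coeff 3 - 4 * q.coeff 0 * q.coeff 4
  a₆ := q.coeff 1 ^ 2 * q.coeff 4 + q.coeff 0 * q.coeff 3 ^ 2 -
    4 * q.coeff 0 * q.coeff 2 * q.coeff 4

lemma jac_eq (q : Polynomial ℚ) : jac q = cv (Ab q) (Bb q) (Cb q) := rfl

/-- the difference of the two rational points over `t = 0` has infinite order -/
def InfO (q : Polynomial ℚ) : Prop :=
  (jac q).Δ ≠ 0 ∧ ∃ (w x y : ℚ) (h : (jac q).toAffine.Nonsingular x y),
    w ≠ 0 ∧ w ^ 2 = q.coeff 0 ∧ x = q.coeff 1 ^ 2 / (4 * w ^ 2) - q.coeff 2 ∧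
    y = (q.coeff 1 * x + 2 * w ^ 2 * q.coeff 3) / (2 * w) ∧
    ∀ m : ℕ, m ≠ 0 → m • Affine.Point.some x y h ≠ 0

lemma jac_Δ (q : Polynomial ℚ) : (jac q).Δ ≠ 0 ↔ Db q ≠ 0 := by
  rw [jac_eq, cv_Δ, Db]
  simp

theorem infO_iff (q : Polynomial ℚ) : InfO q ↔ Inf q := by
  constructor
  · rintro ⟨hΔ, w, x, y, h, hw0, hw, rfl, rfl, hm⟩
    exact ⟨(jac_Δ q).1 hΔ, w, hw0, hw, fun _ m hm0 => hm m hm0⟩
  · rintro ⟨hD, w, hw0, hw, hm⟩
    have hns := ns_of_dsc (x := xs w (q.coeff 1) (q.coeff 2)) (y := ys w (q.coeff 1)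
        (q.coeff 2) (q.coeff 3)) hD (by
      rw [bb_eq hw, cb_eq hw]
      exact s_eqn hw0)
    exact ⟨(jac_Δ q).2 hD, w, _, _, hns, hw0, hw, rfl, rfl, hm hns⟩

end Pool.Agent.Y718.X
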