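import Mathlib
import Pool.Agent.H468R3.Rigid16

/-!
# The four cyclic modules of the algebra `B R` over a commutative ring `R`

`B R` is the 16-dimensional algebra of the starting file, over any commutative ring `R`. The right
modules `B R / x_j B R` are syzygies of each other, with period four, and
`Ext^n (B R / x0 B R, B R / x0 B R) = 0` for all `n` congruent to 1 or 2 modulo 4.
-/

set_option autoImplicit false
set_option linter.unusedSimpArgs false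
set_option maxHeartbeats 4000000

universe u

open CategoryTheory Abelian MulOpposite

namespace Pool.Agent.Y718.RigidPer

open Pool.Agent.H468R3

section general

variable {A : Type u} [Ring A]

/-- **Criterion.** If `x z = 0`, `y w = 0` and every `b` with `y b z = 0` lies in `w A + A x` then
`Ext^1 (A / x A, A / w A) = 0`. -/
theorem ext_cyclic2 (x z w y : A) (hxz : x * z = 0) (hyw : y * w = 0)
    (H : ∀ b, y * b * z = 0 → ∃ u v, b = w * u + v * x) :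
    Subsingleton (Ext (ModuleCat.of Aᵐᵒᵖ (A ⧸ rid x)) (ModuleCat.of Aᵐᵒᵖ (A ⧸ rid w)) 1) := by
  have := right_proj (A := A)
  refine ext_one_of_extend A (A ⧸ rid x) (A ⧸ rid w) (rid x).mkQ (Submodule.mkQ_surjective _) ?_
  intro f
  have hx : x ∈ LinearMap.ker (rid x).mkQ := by
    rw [Submodule.ker_mkQ, mem_rid]
    exact ⟨1, (mul_one x).symm⟩
  obtain ⟨b, hb⟩ := Submodule.Quotient.mk_surjective _ (f ⟨x, hx⟩)
  have h1 : (op z) • f ⟨x, hx⟩ = 0 := by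
    rw [← map_smul]
    have : (op z) • (⟨x, hx⟩ : LinearMap.ker (rid x).mkQ) = 0 := by
      apply Subtype.ext
      exact hxz
    rw [this, map_zero]
  rw [← hb, mk_smul, Submodule.Quotient.mk_eq_zero, mem_rid] at h1
  obtain ⟨c, hc⟩ := h1
  obtain ⟨u, v, huv⟩ := H b (by rw [mul_assoc, hc, ← mul_assoc, hyw, zero_mul])
  refine ⟨(rid w).mkQ ∘ₗ lmul v, ?_⟩
  rintro ⟨t, ht⟩
  have ht' := ht
  rw [Submodule.ker_mkQ, mem_rid] at ht'
  obtain ⟨a, rfl⟩ := ht'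
  have h2 : f ⟨x * a, ht⟩ = (op a) • f ⟨x, hx⟩ := by
    rw [← map_smul]
    rfl
  rw [h2, ← hb, mk_smul, huv]
  change (Submodule.Quotient.mk (v * (x * a)) : A ⧸ rid w) = _
  rw [Submodule.Quotient.eq, mem_rid]
  exact ⟨-(u * a), by noncomm_ring⟩

/-- If the right annihilator of `x` is `z A`, the kernel of `A → A / x A` is `A / z A`. -/
noncomputable def syz (x z : A) (hz : ∀ b, x * b = 0 ↔ ∃ u, b = z * u) :
    (A ⧸ rid z) ≃ₗ[Aᵐᵒᵖ] LinearMap.ker (rid x).mkQ :=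
  (Submodule.quotEquivOfEq (rid z) (LinearMap.ker (lmul x)) (by
    ext b
    rw [mem_rid, LinearMap.mem_ker]
    exact (hz b).symm)) ≪≫ₗ (lmul x).quotKerEquivRange ≪≫ₗ
    LinearEquiv.ofEq _ _ (by
      ext b
      rw [Submodule.ker_mkQ, mem_rid, LinearMap.mem_range]
      constructor
      · rintro ⟨y, rfl⟩
        exact ⟨y, rfl⟩
      · rintro ⟨y, rfl⟩
        exact ⟨y, rfl⟩)

/-- Dimension shift. -/
theorem ext_shift (x z : A) (hz : ∀ b, x * b = 0 ↔ ∃ u, b = z * u) (N : ModuleCat.{u} Aᵐᵒᵖ)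
    (n : ℕ) (h : Subsingleton (Ext (ModuleCat.of Aᵐᵒᵖ (A ⧸ rid z)) N n)) :
    Subsingleton (Ext (ModuleCat.of Aᵐᵒᵖ (A ⧸ rid x)) N (n + 1)) := by
  have hproj := right_proj (A := A)
  refine subsingleton_of_forall_eq 0 fun t => ?_
  have hS := LinearMap.shortExact_shortComplexKer
    (f := (rid x).mkQ) (Submodule.mkQ_surjective (rid x))
  have hP : Projective ((rid x).mkQ.shortComplexKer).X₂ :=
    (IsProjective.iff_projective (R := Aᵐᵒᵖ) A).1 inferInstance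
  obtain ⟨t₁, ht₁⟩ := Ext.contravariant_sequence_exact₃ hS N t
    (Ext.eq_zero_of_projective _) (add_comm 1 n)
  have hi : t₁ = 0 := by
    let i : ModuleCat.of Aᵐᵒᵖ (A ⧸ rid z) ≅ ((rid x).mkQ.shortComplexKer).X₁ :=
      (syz x z hz).toModuleIso
    have h1 : t₁ = (Ext.mk₀ (i.inv ≫ i.hom)).comp t₁ (zero_add n) := by
      rw [i.inv_hom_id, Ext.mk₀_id_comp]
    rw [h1, ← Ext.mk₀_comp_mk₀_assoc, Subsingleton.elim ((Ext.mk₀ i.hom).comp t₁ (zero_add n)) 0,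
      Ext.comp_zero]
  rw [← ht₁, hi, Ext.comp_zero]

end general

section algebra

variable {R : Type u} [CommRing R]

/-- the generator `x0` -/
def X0 : B R := ⟨0, 1, 0, 0, 0, 0, 0, 0, 0, 0, 0, 0, 0, 0, 0, 0⟩

/-- the generator `x1` -/
def X1 : B R := ⟨0, 0, 1, 0, 0, 0, 0, 0, 0, 0, 0, 0, 0, 0, 0, 0⟩

/-- the generator `x2` -/
def X2 : B R := ⟨0, 0, 0, 1, 0, 0, 0, 0, 0, 0, 0, 0, 0, 0, 0, 0⟩

/-- the generator `x3` -/
def X3 : B R := ⟨0, 0, 0, 0, 1, 0, 0, 0, 0, 0, 0, 0, 0, 0, 0, 0⟩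


theorem ann0 (b : B R) : X0 * b = 0 ↔ ∃ u, b = X3 * u := by
  constructor
  · intro h
    have e1 := congrArg B.c1 h
    have e5 := congrArg B.c5 h
    have e6 := congrArg B.c6 h
    have e7 := congrArg B.c7 h
    have e11 := congrArg B.c11 h
    have e13 := congrArg B.c13 h
    have e14 := congrArg B.c14 h
    have e15 := congrArg B.c15 h
    simp only [X0, B.mul_c0, B.mul_c1, B.mul_c2, B.mul_c3, B.mul_c4, B.mul_c5, B.mul_c6, B.mul_c7,
      B.mul_c8, B.mul_c9, B.mul_c10, B.mul_c11, B.mul_c12, B.mul_c13, B.mul_c14, B.mul_c15, zero_mul,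
      one_mul, B.zero_c0, B.zero_c1, B.zero_c2, B.zero_c3, B.zero_c4, B.zero_c5, B.zero_c6, B.zero_c7,
      B.zero_c8, B.zero_c9, B.zero_c10, B.zero_c11, B.zero_c12, B.zero_c13, B.zero_c14, B.zero_c15,
      add_zero, zero_add, sub_zero, zero_sub] at e1 e5 e6 e7 e11 e13 e14 e15
    refine ⟨⟨b.c4, b.c9, -b.c8, 0, b.c9 + b.c10, -b.c12 - b.c13 - b.c14, b.c14, 0, b.c13 + b.c14, 0, 0, 0, 0, 0, b.c15, 0⟩, ?_⟩
    ext <;> simp [X3] <;> grind
  · rintro ⟨u, rfl⟩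
    rw [← mul_assoc]
    have : (X0 : B R) * X3 = 0 := by
      ext <;> simp [X0, X3]
    rw [this, zero_mul]

theorem ann1 (b : B R) : X1 * b = 0 ↔ ∃ u, b = X0 * u := by
  constructor
  · intro h
    have e2 := congrArg B.c2 h
    have e5 := congrArg B.c5 h
    have e6 := congrArg B.c6 h
    have e7 := congrArg B.c7 h
    have e8 := congrArg B.c8 h
    have e9 := congrArg B.c9 h
    have e10 := congrArg B.c10 h
    have e11 := congrArg B.c11 h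
    have e12 := congrArg B.c12 h
    have e14 := congrArg B.c14 h
    have e15 := congrArg B.c15 h
    simp only [X1, B.mul_c0, B.mul_c1, B.mul_c2, B.mul_c3, B.mul_c4, B.mul_c5, B.mul_c6, B.mul_c7,
      B.mul_c8, B.mul_c9, B.mul_c10, B.mul_c11, B.mul_c12, B.mul_c13, B.mul_c14, B.mul_c15, zero_mul,
      one_mul, B.zero_c0, B.zero_c1, B.zero_c2, B.zero_c3, B.zero_c4, B.zero_c5, B.zero_c6, B.zero_c7,
      B.zero_c8, B.zero_c9, B.zero_c10, B.zero_c11, B.zero_c12, B.zero_c13, B.zero_c14, B.zero_c15,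
      add_zero, zero_add, sub_zero, zero_sub] at e2 e5 e6 e7 e8 e9 e10 e11 e12 e14 e15
    refine ⟨⟨b.c1, b.c5, b.c6, b.c7, 0, -b.c13 - b.c14, -b.c14, -b.c11 - b.c13 - b.c14, 0, 0, 0, b.c15, 0, 0, 0, 0⟩, ?_⟩
    ext <;> simp [X0] <;> grind
  · rintro ⟨u, rfl⟩
    rw [← mul_assoc]
    have : (X1 : B R) * X0 = 0 := by
      ext <;> simp [X1, X0]
    rw [this, zero_mul]

theorem ann2 (b : B R) : X2 * b = 0 ↔ ∃ u, b = X1 * u := by
  constructor
  · intro h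
    have e3 := congrArg B.c3 h
    have e6 := congrArg B.c6 h
    have e7 := congrArg B.c7 h
    have e8 := congrArg B.c8 h
    have e9 := congrArg B.c9 h
    have e10 := congrArg B.c10 h
    have e11 := congrArg B.c11 h
    have e12 := congrArg B.c12 h
    have e13 := congrArg B.c13 h
    have e15 := congrArg B.c15 h
    simp only [X2, B.mul_c0, B.mul_c1, B.mul_c2, B.mul_c3, B.mul_c4, B.mul_c5, B.mul_c6, B.mul_c7,
      B.mul_c8, B.mul_c9, B.mul_c10, B.mul_c11, B.mul_c12, B.mul_c13, B.mul_c14, B.mul_c15, zero_mul,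
      one_mul, B.zero_c0, B.zero_c1, B.zero_c2, B.zero_c3, B.zero_c4, B.zero_c5, B.zero_c6, B.zero_c7,
      B.zero_c8, B.zero_c9, B.zero_c10, B.zero_c11, B.zero_c12, B.zero_c13, B.zero_c14, B.zero_c15,
      add_zero, zero_add, sub_zero, zero_sub] at e3 e6 e7 e8 e9 e10 e11 e12 e13 e15
    refine ⟨⟨b.c2, 0, b.c8 + b.c9, -b.c10, b.c9, 0, 0, 0, b.c12, -b.c11 - b.c12 - b.c14, b.c11, 0, b.c15, 0, 0, 0⟩, ?_⟩
    ext <;> simp [X1] <;> grind
  · rintro ⟨u, rfl⟩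
    rw [← mul_assoc]
    have : (X2 : B R) * X1 = 0 := by
      ext <;> simp [X2, X1]
    rw [this, zero_mul]

theorem ann3 (b : B R) : X3 * b = 0 ↔ ∃ u, b = X2 * u := by
  constructor
  · intro h
    have e4 := congrArg B.c4 h
    have e5 := congrArg B.c5 h
    have e6 := congrArg B.c6 h
    have e7 := congrArg B.c7 h
    have e8 := congrArg B.c8 h
    have e9 := congrArg B.c9 h
    have e10 := congrArg B.c10 h
    have e12 := congrArg B.c12 h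
    have e13 := congrArg B.c13 h
    have e14 := congrArg B.c14 h
    have e15 := congrArg B.c15 h
    simp only [X3, B.mul_c0, B.mul_c1, B.mul_c2, B.mul_c3, B.mul_c4, B.mul_c5, B.mul_c6, B.mul_c7,
      B.mul_c8, B.mul_c9, B.mul_c10, B.mul_c11, B.mul_c12, B.mul_c13, B.mul_c14, B.mul_c15, zero_mul,
      one_mul, B.zero_c0, B.zero_c1, B.zero_c2, B.zero_c3, B.zero_c4, B.zero_c5, B.zero_c6, B.zero_c7,
      B.zero_c8, B.zero_c9, B.zero_c10, B.zero_c11, B.zero_c12, B.zero_c13, B.zero_c14, B.zero_c15,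
      add_zero, zero_add, sub_zero, zero_sub] at e4 e5 e6 e7 e8 e9 e10 e12 e13 e14 e15
    refine ⟨⟨b.c3, b.c7, 0, b.c9, b.c7 - b.c10, -b.c11 - b.c13, -b.c11 - b.c12 - b.c13, -b.c13, 0, 0, 0, 0, 0, b.c15, 0, 0⟩, ?_⟩
    ext <;> simp [X2] <;> grind
  · rintro ⟨u, rfl⟩
    rw [← mul_assoc]
    have : (X3 : B R) * X2 = 0 := by
      ext <;> simp [X3, X2]
    rw [this, zero_mul]

theorem key0 (b : B R) (h : X1 * b * X3 = 0) : ∃ u v, b = X0 * u + v * X0 := by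
  have e7 := congrArg B.c7 h
  have e8 := congrArg B.c8 h
  have e9 := congrArg B.c9 h
  have e11 := congrArg B.c11 h
  have e12 := congrArg B.c12 h
  have e14 := congrArg B.c14 h
  have e15 := congrArg B.c15 h
  simp [X1, X3] at e7 e8 e9 e11 e12 e14 e15
  refine ⟨⟨b.c1, b.c5, b.c6 - b.c9, b.c7 - b.c9 - b.c10, 0, -b.c12 - b.c13 - b.c14, -b.c14, -b.c11 - b.c12 - b.c13 - b.c14, 0, 0, 0, b.c15, 0, 0, 0, 0⟩,
    ⟨0, 0, 0, b.c9 + b.c10, b.c9, 0, 0, 0, 0, 0, b.c12, 0, 0, 0, 0, 0⟩, ?_⟩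
  ext <;> simp [X0, X0] <;> grind

theorem key3 (b : B R) (h : X1 * b * X2 = 0) : ∃ u v, b = X0 * u + v * X3 := by
  have e5 := congrArg B.c5 h
  have e6 := congrArg B.c6 h
  have e10 := congrArg B.c10 h
  have e11 := congrArg B.c11 h
  have e14 := congrArg B.c14 h
  simp [X1, X2] at e5 e6 e10 e11 e14
  refine ⟨⟨b.c1, b.c5, b.c6 - b.c8 - b.c9, b.c7 - b.c9, 0, -b.c13 - b.c14, -b.c14, -b.c11 - b.c13 - b.c14, 0, 0, 0, b.c15, 0, 0, 0, 0⟩,
    ⟨b.c4, 0, b.c9, b.c8 + b.c9, b.c8 + b.c9 + b.c10, 0, 0, 0, -b.c12, 0, 0, 0, 0, 0, 0, 0⟩, ?_⟩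
  ext <;> simp [X0, X3] <;> grind

/-- the generators, in the order of the syzygies -/
def xs (n : ℕ) : B R :=
  if n % 4 = 0 then X0 else if n % 4 = 1 then X3 else if n % 4 = 2 then X2 else X1

theorem ann (n : ℕ) (b : B R) : xs n * b = 0 ↔ ∃ u, b = xs (n + 1) * u := by
  have h : n % 4 = 0 ∨ n % 4 = 1 ∨ n % 4 = 2 ∨ n % 4 = 3 := by omega
  rcases h with h | h | h | h
  · have h' : (n + 1) % 4 = 1 := by omega
    simpa [xs, h, h'] using ann0 b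
  · have h' : (n + 1) % 4 = 2 := by omega
    simpa [xs, h, h'] using ann3 b
  · have h' : (n + 1) % 4 = 3 := by omega
    simpa [xs, h, h'] using ann2 b
  · have h' : (n + 1) % 4 = 0 := by omega
    simpa [xs, h, h'] using ann1 b

theorem shift (N : ModuleCat.{u} (B R)ᵐᵒᵖ) (n : ℕ) : ∀ j : ℕ,
    Subsingleton (Ext (ModuleCat.of (B R)ᵐᵒᵖ (B R ⧸ rid (xs (j + n) : B R))) N 1) →
    Subsingleton (Ext (ModuleCat.of (B R)ᵐᵒᵖ (B R ⧸ rid (xs j : B R))) N (n + 1)) := by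
  induction n with
  | zero =>
    intro j h
    exact h
  | succ n ih =>
    intro j h
    apply ext_shift (xs j : B R) (xs (j + 1)) (ann j) N (n + 1)
    apply ih (j + 1)
    have e : j + 1 + n = j + (n + 1) := by omega
    rw [e]
    exact h

/-- `Ext^n (M, M) = 0` for `M = B R / x0 B R` and all `n` congruent to 1 or 2 modulo 4. -/
theorem ext_vanish (n : ℕ) (hn : n % 4 = 1 ∨ n % 4 = 2) :
    Subsingleton (Ext (ModuleCat.of (B R)ᵐᵒᵖ (B R ⧸ rid (X0 : B R)))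
      (ModuleCat.of (B R)ᵐᵒᵖ (B R ⧸ rid (X0 : B R))) n) := by
  obtain ⟨m, rfl⟩ : ∃ m, n = m + 1 := ⟨n - 1, by omega⟩
  have h0 : (xs 0 : B R) = X0 := by simp [xs]
  have main := shift (R := R) (ModuleCat.of (B R)ᵐᵒᵖ (B R ⧸ rid (X0 : B R))) m 0
  rw [h0] at main
  apply main
  rw [zero_add]
  rcases hn with hn | hn
  · have hm : m % 4 = 0 := by omega
    have e : (xs m : B R) = X0 := by simp [xs, hm]
    rw [e]
    exact ext_cyclic2 X0 X3 X0 X1 (by ext <;> simp [X0, X3]) (by ext <;> simp [X0, X1]) key0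
  · have hm : m % 4 = 1 := by omega
    have e : (xs m : B R) = X3 := by simp [xs, hm]
    rw [e]
    exact ext_cyclic2 X3 X2 X0 X1 (by ext <;> simp [X2, X3]) (by ext <;> simp [X0, X1]) key3

theorem pow5 (a : B R) (h : a.c0 = 0) : a ^ 5 = 0 := by
  have h2 : (a * a).c0 = 0 ∧ (a * a).c1 = 0 ∧ (a * a).c2 = 0 ∧ (a * a).c3 = 0 ∧
      (a * a).c4 = 0 := by
    simp [h]
  obtain ⟨p0, p1, p2, p3, p4⟩ := h2
  set b := a * a with hb
  have h4 : (b * b).c0 = 0 ∧ (b * b).c1 = 0 ∧ (b * b).c2 = 0 ∧ (b * b).c3 = 0 ∧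
      (b * b).c4 = 0 ∧ (b * b).c5 = 0 ∧ (b * b).c6 = 0 ∧ (b * b).c7 = 0 ∧ (b * b).c8 = 0 ∧
      (b * b).c9 = 0 ∧ (b * b).c10 = 0 ∧ (b * b).c11 = 0 ∧ (b * b).c12 = 0 ∧ (b * b).c13 = 0 ∧
      (b * b).c14 = 0 := by
    simp [p0, p1, p2, p3, p4]
  obtain ⟨q0, q1, q2, q3, q4, q5, q6, q7, q8, q9, q10, q11, q12, q13, q14⟩ := h4
  set c := b * b with hc
  have h5 : c * a = 0 := by
    ext <;> simp [h, q0, q1, q2, q3, q4, q5, q6, q7, q8, q9, q10, q11, q12, q13, q14]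
  have : a ^ 5 = c * a := by
    rw [hc, hb]
    simp only [pow_succ, pow_zero, one_mul, mul_assoc]
  rw [this, h5]

theorem isUnit_one_add (a : B R) (h : a.c0 = 0) : IsUnit (1 + a) :=
  IsNilpotent.isUnit_one_add ⟨5, pow5 a h⟩

theorem isUnit_of (a : B R) (h : IsUnit a.c0) : IsUnit a := by
  obtain ⟨r, hr⟩ := h.exists_left_inv
  have h1 : IsUnit (1 + (r • a - 1) : B R) := by
    apply isUnit_one_add
    rw [sub_eq_add_neg]
    simp [hr]
  have h2 : a = algebraMap R (B R) a.c0 * (1 + (r • a - 1)) := by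
    rw [add_sub_cancel, ← Algebra.smul_def, smul_smul, mul_comm a.c0, hr, one_smul]
  rw [h2]
  exact (h.map (algebraMap R (B R))).mul h1

instance [Nontrivial R] : Nontrivial (B R) := ⟨⟨0, 1, fun h => by
  have := congrArg B.c0 h
  simp at this⟩⟩

theorem isLocal [IsLocalRing R] : IsLocalRing (B R) where
  isUnit_or_isUnit_of_add_one {a b} h := by
    have h0 := congrArg B.c0 h
    simp only [B.add_c0, B.one_c0] at h0
    rcases IsLocalRing.isUnit_or_isUnit_of_add_one h0 with h1 | h1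
    · exact Or.inl (isUnit_of a h1)
    · exact Or.inr (isUnit_of b h1)

/-- `B R / x0 B R` is not projective. -/
theorem not_projective [Nontrivial R] :
    ¬ Module.Projective (B R)ᵐᵒᵖ (B R ⧸ rid (X0 : B R)) := by
  refine not_proj _ ?_ fun c => isUnit_one_add _ ?_
  · intro h
    have := congrArg B.c1 h
    simp [X0] at this
  · simp [X0]

theorem finite_cyclic (x : B R) : Module.Finite (B R)ᵐᵒᵖ (B R ⧸ rid x) := by
  have : Module.Finite (B R)ᵐᵒᵖ (B R) := by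
    refine ⟨⟨{1}, ?_⟩⟩
    rw [Finset.coe_singleton, eq_top_iff]
    intro x _
    rw [Submodule.mem_span_singleton]
    exact ⟨op x, one_mul x⟩
  infer_instance

/-- coordinates -/
def coord : B R ≃ₗ[R] (Fin 16 → R) where
  toFun b := ![b.c0, b.c1, b.c2, b.c3, b.c4, b.c5, b.c6, b.c7, b.c8, b.c9, b.c10, b.c11, b.c12,
    b.c13, b.c14, b.c15]
  invFun f := ⟨f 0, f 1, f 2, f 3, f 4, f 5, f 6, f 7, f 8, f 9, f 10, f 11, f 12, f 13, f 14, f 15⟩
  left_inv b := rfl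
  right_inv f := by
    funext i
    fin_cases i <;> rfl
  map_add' a b := by
    funext i
    fin_cases i <;> rfl
  map_smul' a b := by
    funext i
    fin_cases i <;> rfl

theorem form_symm (b x : B R) : (b * x).c15 = (x * b).c15 := by
  simp only [B.mul_c15]
  ring

theorem form_nondeg (b : B R) (h : ∀ x : B R, (b * x).c15 = 0) : b = 0 := by
  have e0 := h ⟨0, 0, 0, 0, 0, 0, 0, 0, 0, 0, 0, 0, 0, 0, 0, 1⟩
  have e1 := h ⟨0, 0, 0, 0, 0, 0, 0, 0, 0, 0, 0, 1, 0, 0, 0, 0⟩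
  have e2 := h ⟨0, 0, 0, 0, 0, 0, 0, 0, 0, 0, 0, 0, 1, 0, 0, 0⟩
  have e3 := h ⟨0, 0, 0, 0, 0, 0, 0, 0, 0, 0, 0, 0, 0, 1, 0, 0⟩
  have e4 := h ⟨0, 0, 0, 0, 0, 0, 0, 0, 0, 0, 0, 0, 0, 0, 1, 0⟩
  have e5 := h ⟨0, 0, 0, 0, 0, 1, 0, 0, 0, 0, 0, 0, 0, 0, 0, 0⟩
  have e6 := h ⟨0, 0, 0, 0, 0, 0, 1, 0, 0, 0, 0, 0, 0, 0, 0, 0⟩
  have e7 := h ⟨0, 0, 0, 0, 0, 0, 0, 1, 0, 0, 0, 0, 0, 0, 0, 0⟩
  have e8 := h ⟨0, 0, 0, 0, 0, 0, 0, 0, 1, 0, 0, 0, 0, 0, 0, 0⟩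
  have e9 := h ⟨0, 0, 0, 0, 0, 0, 0, 0, 0, 1, 0, 0, 0, 0, 0, 0⟩
  have e10 := h ⟨0, 0, 0, 0, 0, 0, 0, 0, 0, 0, 1, 0, 0, 0, 0, 0⟩
  have e11 := h ⟨0, 1, 0, 0, 0, 0, 0, 0, 0, 0, 0, 0, 0, 0, 0, 0⟩
  have e12 := h ⟨0, 0, 1, 0, 0, 0, 0, 0, 0, 0, 0, 0, 0, 0, 0, 0⟩
  have e13 := h ⟨0, 0, 0, 1, 0, 0, 0, 0, 0, 0, 0, 0, 0, 0, 0, 0⟩
  have e14 := h ⟨0, 0, 0, 0, 1, 0, 0, 0, 0, 0, 0, 0, 0, 0, 0, 0⟩
  have e15 := h ⟨1, 0, 0, 0, 0, 0, 0, 0, 0, 0, 0, 0, 0, 0, 0, 0⟩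
  simp only [B.mul_c15, mul_zero, mul_one, add_zero, zero_add, sub_zero, zero_sub] at *
  ext <;> simp only [B.zero_c0, B.zero_c1, B.zero_c2, B.zero_c3, B.zero_c4, B.zero_c5, B.zero_c6,
    B.zero_c7, B.zero_c8, B.zero_c9, B.zero_c10, B.zero_c11, B.zero_c12, B.zero_c13, B.zero_c14,
    B.zero_c15] <;> grind

end algebra

end Pool.Agent.Y718.RigidPer
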