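import Pool.Agent.Y718.Quart

/-!
# Quartic double covers: the branch divisor, and the elementary formulation
-/

set_option autoImplicit false
set_option linter.unusedSectionVars false
set_option linter.unusedSimpArgs false

open Set Filter Topology Pool.Agent.H581R2 Pool.Agent.TH729.SQ

namespace Pool.Agent.Y718

open SF

variable {n : ℕ}

/-- from the elementary form of semialgebraic sets -/
lemma SA_of_frozen {n : ℕ} {S : Set (Fin n → ℝ)}
    (h : ∃ (m : ℕ) (P : Fin m → MvPolynomial (Fin n) ℚ) (G : Fin m → Finset (MvPolynomial (Fin n) ℚ)),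
      S = {x : Fin n → ℝ | ∃ j : Fin m, (MvPolynomial.aeval x (P j) : ℝ) = 0 ∧
        ∀ g ∈ G j, (0 : ℝ) < MvPolynomial.aeval x g}) : SA S := by
  obtain ⟨m, P, G, rfl⟩ := h
  refine SAP.exists_fin (p := fun j x => (MvPolynomial.aeval x (P j) : ℝ) = 0 ∧
        ∀ g ∈ G j, (0 : ℝ) < MvPolynomial.aeval x g) fun j => ?_
  refine (SAP.eq_zero (PF.aeval _)).and (SAP.forall_mem _ fun g _ => SAP.pos (PF.aeval g))

/-- all rational points of a double cover, from the points off and on the branch divisor -/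
lemma full_SA {n : ℕ} (f : MvPolynomial (Fin n) ℚ) (h : SA (closure (rl (X0 f))))
    (hb : SA (closure (rl {z : Fin n → ℚ | MvPolynomial.eval z f = 0}))) :
    SA (closure (rl {u : Fin (n + 1) → ℚ | u 0 ^ 2 = MvPolynomial.eval (fun k => u k.succ) f})) := by
  have h1 : {u : Fin (n + 1) → ℚ | u 0 ^ 2 = MvPolynomial.eval (fun k => u k.succ) f} =
      X0 f ∪ {u | u 0 = 0 ∧ MvPolynomial.eval (fun k => u k.succ) f = 0} := by
    ext u
    simp only [Set.mem_ofPred_eq, Set.mem_union, X0]
    constructor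
    · intro hu
      by_cases h0 : u 0 = 0
      · right
        refine ⟨h0, ?_⟩
        rw [← hu, h0]; ring
      · exact Or.inl ⟨h0, hu⟩
    · rintro (⟨-, h2⟩ | ⟨h2, h3⟩)
      · exact h2
      · rw [h2, h3]; ring
  rw [h1]
  refine union_SA h ?_
  refine img_SA (κ := Empty) hb (q := fun _ => 1) (PQ.const 1)
    (p := fun k v => (Fin.cons 0 (fun i => v (Sum.inl i)) : Fin (n + 1) → ℚ) k) (fun k => ?_) fun y => ?_
  · refine Fin.cases ?_ (fun i => ?_) k
    · simp only [Fin.cons_zero]; exact PQ.const 0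
    · simp only [Fin.cons_succ]; exact PQ.coord _
  · constructor
    · rintro ⟨h2, h3⟩
      refine ⟨_, h3, fun x => x.elim, one_ne_zero, fun k => ?_⟩
      refine Fin.cases ?_ (fun i => ?_) k
      · simp [h2]
      · simp
    · rintro ⟨x, hx, u, -, hy⟩
      have h4 : (fun k : Fin n => y k.succ) = x := by
        funext k
        rw [hy]; simp
      refine ⟨?_, ?_⟩
      · rw [hy]; simp
      · rw [h4]; exact hx

lemma ic_eq {K : Type*} [Field K] (p : Fin (n + 1)) (x : K) (z : Fin n → K) :
    ic p x z = p.insertNth (α := fun _ => K) x z := rfl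

lemma deh_aeval (F : MvPolynomial (Fin (n + 1)) ℚ) (p : Fin (n + 1)) (z : Fin n → ℝ) :
    (MvPolynomial.aeval z (deh F p) : ℝ) = MvPolynomial.aeval (ic p 1 z) F := by
  unfold deh
  induction F using MvPolynomial.induction_on with
  | C c => simp
  | add p q hp hq => simp only [map_add, hp, hq]
  | mul_X q i hq =>
    simp only [map_mul, hq, MvPolynomial.aeval_X]
    congr 1
    rcases Fin.eq_self_or_eq_succAbove p i with h | ⟨j, rfl⟩
    · rw [h, ic_same, Fin.insertNth_apply_same, map_one]
    · rw [ic_above, Fin.insertNth_apply_succAbove, MvPolynomial.aeval_X]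

lemma smooth_of {F : MvPolynomial (Fin (n + 1)) ℚ}
    (h : ∀ y : Fin (n + 1) → ℂ, (∀ i, MvPolynomial.aeval y (MvPolynomial.pderiv i F) = 0) → y = 0) :
    Smooth (FC F) := by
  intro y hy
  apply h y
  intro i
  have h1 := hy i
  rw [FC, MvPolynomial.pderiv_map, MvPolynomial.eval_map] at h1
  rw [MvPolynomial.aeval_def]
  exact h1

end Pool.Agent.Y718
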