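import Pool.Agent.Y718.KeyP
import Pool.Agent.TH729.SQ.Values

/-!
# From local density to semialgebraicity
-/

set_option autoImplicit false
set_option linter.unusedSectionVars false
set_option linter.unusedSimpArgs false

open Set Filter Topology Polynomial Pool.Agent.H581R2 Pool.Agent.TH729.SQ

namespace Pool.Agent.Y718

section pattern

variable {ι : Type} [Finite ι]

/-- real points of a set of rational points together with square roots of a function -/
def lift (φ : (ι → ℚ) → ℚ) (S : Set (ι → ℚ)) : Set (Option ι → ℝ) :=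
  {u | ∃ z ∈ S, ∃ w : ℚ, w ^ 2 = φ z ∧ u = ext (w : ℝ) (fun i => (z i : ℝ))}

/-- **Pattern.** -/
theorem base_SA {φ : (ι → ℝ) → ℝ} (hφ : PF φ) {φq : (ι → ℚ) → ℚ}
    (hc : ∀ z : ι → ℚ, φ (fun i => (z i : ℝ)) = ((φq z : ℚ) : ℝ)) {S : Set (ι → ℚ)}
    (hS : ∀ z ∈ S, ∃ w : ℚ, w ≠ 0 ∧ w ^ 2 = φq z)
    (hopen : ∀ x ∈ closure (rl S), 0 < φ x → closure (rl S) ∈ 𝓝 x) : SA (closure (rl S)) := by
  set V : Set (ι → ℝ) := {x | 0 < φ x} with hV
  set W : Set (ι → ℝ) := V ∩ closure (rl S) with hW
  have hVs : SA V := SAP.pos hφ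
  have hLC : LC V W := by
    refine LC.of_clopen (O := interior (closure (rl S))) (C := closure (rl S)) isOpen_interior
      isClosed_closure ?_ ?_
    · intro x hx
      constructor
      · rintro ⟨-, h⟩
        exact mem_interior_iff_mem_nhds.mpr (hopen x h hx)
      · intro h
        exact ⟨hx, interior_subset h⟩
    · intro x hx
      exact ⟨fun h => h.2, fun h => ⟨hx, h⟩⟩
  have hWs : SA W := sa_of_lc ι V W hVs inter_subset_left hLC
  have heq : closure (rl S) = closure W := by
    apply Subset.antisymm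
    · apply closure_mono
      rintro x ⟨z, hz, rfl⟩
      refine ⟨?_, subset_closure ⟨z, hz, rfl⟩⟩
      obtain ⟨w, hw0, hw⟩ := hS z hz
      simp only [hV, Set.mem_ofPred_eq]
      rw [hc, ← hw]
      have : (w : ℝ) ≠ 0 := by exact_mod_cast hw0
      push_cast
      positivity
    · exact closure_minimal inter_subset_right isClosed_closure
  rw [heq]
  exact SA.closure hWs

/-- adding the square root -/
theorem lift_SA {φ : (ι → ℝ) → ℝ} (hφ : PF φ) {φq : (ι → ℚ) → ℚ}
    (hc : ∀ z : ι → ℚ, φ (fun i => (z i : ℝ)) = ((φq z : ℚ) : ℝ)) {S : Set (ι → ℚ)}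
    (hS : ∀ z ∈ S, ∃ w : ℚ, w ^ 2 = φq z)
    (h : SA (closure (rl S))) : SA (closure (lift φq S)) := by
  have hφc : Continuous φ := PF.continuous hφ
  have hsome : Continuous fun u : Option ι → ℝ => fun i => u (some i) := by fun_prop
  have hnone : Continuous fun u : Option ι → ℝ => u none := by fun_prop
  have heq : closure (lift φq S) = {u : Option ι → ℝ | (fun i => u (some i)) ∈ closure (rl S) ∧
      u none ^ 2 = φ (fun i => u (some i))} := by
    apply Subset.antisymm
    · refine closure_minimal ?_ ?_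
      · rintro _ ⟨z, hz, w, hw, rfl⟩
        refine ⟨subset_closure ⟨z, hz, rfl⟩, ?_⟩
        simp only [ext_none, ext_some]
        rw [hc, ← hw]
        push_cast
        rfl
      · exact (isClosed_closure.preimage hsome).inter
          (isClosed_eq (hnone.pow 2) (hφc.comp hsome))
    · rintro u ⟨hu1, hu2⟩
      obtain ⟨x, hx, hx'⟩ := mem_closure_iff_seq_limit.1 hu1
      choose z hz hzx using hx
      choose w hw using fun n => hS (z n) (hz n)
      have hφx : ∀ n, φ (x n) = (w n : ℝ) ^ 2 := by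
        intro n
        rw [hzx n, hc, ← hw n]
        push_cast
        rfl
      have hsq : ∀ n, Real.sqrt (φ (x n)) = |(w n : ℝ)| := by
        intro n
        rw [hφx, Real.sqrt_sq_eq_abs]
      have hlim : Tendsto (fun n => Real.sqrt (φ (x n))) atTop (𝓝 (Real.sqrt (φ (fun i => u (some i))))) :=
        ((Real.continuous_sqrt.comp hφc).tendsto _).comp hx'
      have hu2' : Real.sqrt (φ (fun i => u (some i))) = |u none| := by
        rw [← hu2, Real.sqrt_sq_eq_abs]
      rw [hu2'] at hlim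
      have hpi : ∀ s : ℕ → ℝ, Tendsto s atTop (𝓝 (u none)) →
          Tendsto (fun n => ext (s n) (x n)) atTop (𝓝 u) := by
        intro s hs
        rw [tendsto_pi_nhds]
        intro o
        rcases o with _ | i
        · exact hs
        · exact (tendsto_pi_nhds.1 hx') i
      rcases le_total 0 (u none) with h0 | h0
      · have h1 : Tendsto (fun n => ext (Real.sqrt (φ (x n))) (x n)) atTop (𝓝 u) := by
          refine hpi _ ?_
          rwa [abs_of_nonneg h0] at hlim
        refine mem_closure_of_tendsto h1 (Eventually.of_forall fun n => ?_)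
        refine ⟨z n, hz n, |w n|, by rw [sq_abs]; exact hw n, ?_⟩
        rw [hsq, hzx n]
        push_cast
        rfl
      · have h1 : Tendsto (fun n => ext (-Real.sqrt (φ (x n))) (x n)) atTop (𝓝 u) := by
          refine hpi _ ?_
          have := hlim.neg
          rwa [abs_of_nonpos h0, neg_neg] at this
        refine mem_closure_of_tendsto h1 (Eventually.of_forall fun n => ?_)
        refine ⟨z n, hz n, -|w n|, by rw [neg_sq, sq_abs]; exact hw n, ?_⟩
        rw [hsq, hzx n]
        push_cast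
        rfl
  rw [heq]
  refine SAP.and ?_ (SAP.eq ((PF.coord none).pow 2) ?_)
  · exact SAP.preimage (p := fun v => v ∈ closure (rl S)) h (fun i => PF.coord (some i))
  · exact PF.comp hφ (fun i => PF.coord (some i))

end pattern

namespace Fam

variable {m r : ℕ}

/-- rational points in the base of the double cover -/
def S (F : Fam m r) : Set (Fin m ⊕ Fin r → ℚ) :=
  {z | F.Good (fun i => z (Sum.inl i)) ∧ ∃ w : ℚ, w ≠ 0 ∧
    w ^ 2 = F.val (fun i => z (Sum.inl i)) (fun j => z (Sum.inr j))}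

lemma rval_PF (F : Fam m r) :
    PF (fun z : Fin m ⊕ Fin r → ℝ => F.rval (fun i => z (Sum.inl i)) (fun j => z (Sum.inr j))) := by
  have hc : ∀ P : MvPolynomial (Fin m) ℚ, PF (fun z : Fin m ⊕ Fin r → ℝ =>
      (MvPolynomial.aeval (fun i => z (Sum.inl i)) P : ℝ)) := fun P =>
    (PF.aeval P).comp (φ := fun (z : Fin m ⊕ Fin r → ℝ) i => z (Sum.inl i)) (fun i => PF.coord _)
  unfold Fam.rval qf
  refine PF.add (PF.add ?_ ?_) (hc _)
  · refine PF.sum _ fun j _ => PF.sum _ fun k _ => ?_
    exact ((hc _).mul (PF.coord _)).mul (PF.coord _)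
  · refine PF.sum _ fun j _ => ?_
    exact (hc _).mul (PF.coord _)

lemma sp_aeval (a : Fin m → ℚ) (i : Fin m) (P : MvPolynomial (Fin m) ℚ) (t : ℝ) :
    aeval t (sp a i P) = MvPolynomial.aeval (Function.update (fun i => (a i : ℝ)) i t) P := by
  classical
  induction P using MvPolynomial.induction_on with
  | C c => simp [sp]
  | add p q hp hq =>
    simp only [sp, map_add] at hp hq ⊢
    rw [hp, hq]
  | mul_X p j hp =>
    simp only [sp, map_mul, MvPolynomial.aeval_X] at hp ⊢
    rw [hp]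
    congr 1
    by_cases h : j = i
    · subst h; simp
    · simp [Function.update_of_ne h]

lemma ga_aeval (F : Fam m r) (a : Fin m → ℚ) (i : Fin m) (y : Fin r → ℚ) (t : ℝ) :
    aeval t (F.ga a i y) = F.rval (Function.update (fun i => (a i : ℝ)) i t) (fun j => (y j : ℝ)) := by
  have := qf_map (aeval t : ℚ[X] →ₐ[ℚ] ℝ).toRingHom (fun j k => sp a i (F.Q j k)) (fun j => sp a i (F.L j))
    (sp a i F.C) (fun j => Polynomial.C (y j))
  simp only [AlgHom.toRingHom_eq_coe, RingHom.coe_coe, aeval_C, eq_ratCast, sp_aeval] at this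
  exact this

lemma good_cofinite (F : Fam m r) {a : Fin m → ℚ} (ha : F.Good a) (i : Fin m) :
    {t : ℚ | ¬ F.Good (Function.update a i t)}.Finite := by
  -- for each direction, one line works for all but finitely many parameters
  have hL : ∀ k, {t : ℚ | ¬ ∃ y v, F.GoodLine (Function.update a i t) k y v}.Finite := by
    intro k
    obtain ⟨y, v, hl⟩ := ha k
    rw [goodLine_iff] at hl
    -- the discriminating expression as a polynomial in `x`
    let P : MvPolynomial (Fin m) ℚ := lineP F.Q (F.d k).Q F.L (F.d k).L F.C (F.d k).C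
      (fun j => MvPolynomial.C (y j)) (fun j => MvPolynomial.C (v j))
    have hP : ∀ x : Fin m → ℚ, MvPolynomial.eval x P =
        lineP (F.q x) ((F.d k).q x) (F.l x) ((F.d k).l x) (F.c x) ((F.d k).c x) y v := by
      intro x
      have := lineP_map (MvPolynomial.eval x) F.Q (F.d k).Q F.L (F.d k).L F.C (F.d k).C
        (fun j => MvPolynomial.C (y j)) (fun j => MvPolynomial.C (v j))
      simp only [MvPolynomial.eval_C] at this
      exact this
    refine (sp_finite i (a := a) (P := P) (by rw [hP]; exact hl)).subset ?_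
    intro t ht
    simp only [Set.mem_ofPred_eq] at ht ⊢
    by_contra hne
    apply ht
    refine ⟨y, v, ?_⟩
    rw [goodLine_iff, ← hP]
    exact hne
  refine (Set.Finite.biUnion (Set.finite_univ (α := Fin m)) fun k _ => hL k).subset ?_
  intro t ht
  simp only [Set.mem_ofPred_eq, Good, not_forall] at ht
  obtain ⟨k, hk⟩ := ht
  simp only [Set.mem_iUnion]
  exact ⟨k, mem_univ _, hk⟩

/-- an interval inside the closure contains good parameters near each of its points -/
lemma pick {q : ℚ[X]} {J : Set ℝ} (hJo : IsOpen J) (hJ : J ⊆ rc (Sq q)) {E : Set ℚ} (hE : E.Finite)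
    {x : ℝ} (hx : x ∈ J) {ε : ℝ} (hε : 0 < ε) : ∃ t ∈ Sq q, (t : ℝ) ∈ J ∧ |(t : ℝ) - x| < ε ∧ t ∉ E := by
  have hE' : ((fun t : ℚ => (t : ℝ)) '' E).Finite := hE.image _
  have h1 : IsOpen (J ∩ Metric.ball x ε) := hJo.inter Metric.isOpen_ball
  have h2 : (J ∩ Metric.ball x ε).Nonempty := ⟨x, hx, Metric.mem_ball_self hε⟩
  have h3 : ((J ∩ Metric.ball x ε) \ ((fun t : ℚ => (t : ℝ)) '' E)).Nonempty := by
    have hd : Dense (((fun t : ℚ => (t : ℝ)) '' E)ᶜ) := hE'.countable.dense_compl ℝ
    obtain ⟨y, hy1, hy2⟩ := hd.inter_open_nonempty _ h1 h2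
    exact ⟨y, hy1, hy2⟩
  obtain ⟨y, hy1, hy2⟩ := h3
  have h4 : IsOpen ((J ∩ Metric.ball x ε) ∩ ((fun t : ℚ => (t : ℝ)) '' E)ᶜ) :=
    h1.inter hE'.isClosed.isOpen_compl
  obtain ⟨_, ⟨⟨h5, h6⟩, h7⟩, t, ht, rfl⟩ := mem_closure_iff.mp (hJ hy1.1) _ h4 ⟨hy1, hy2⟩
  refine ⟨t, ht, h5, ?_, ?_⟩
  · rwa [Metric.mem_ball, Real.dist_eq] at h6
  · intro h
    exact h7 ⟨t, h, rfl⟩

lemma isOpen_box {n : ℕ} (x : Fin n → ℝ) (δ : ℝ) : IsOpen {y : Fin n → ℝ | ∀ j, |y j - x j| < δ} := by
  have : {y : Fin n → ℝ | ∀ j, |y j - x j| < δ} = ⋂ j, {y : Fin n → ℝ | |y j - x j| < δ} := by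
    ext y; simp
  rw [this]
  refine isOpen_iInter_of_finite fun j => ?_
  exact isOpen_lt (by fun_prop) continuous_const

/-- moving one coordinate -/
lemma move_one {F : Fam m r} (hF : F.Deg4) {x1 : Fin m → ℝ} {x2 : Fin r → ℝ} {δ : ℝ}
    (hbox : ∀ (b : Fin m → ℝ) (y : Fin r → ℝ), (∀ i, |b i - x1 i| < δ) → (∀ j, |y j - x2 j| < δ) →
      0 < F.rval b y) {a : Fin m → ℚ} {y : Fin r → ℚ} (hG : F.Good a)
    (hv : ∃ w : ℚ, w ≠ 0 ∧ w ^ 2 = F.val a y) (ha : ∀ i, |(a i : ℝ) - x1 i| < δ)
    (hy : ∀ j, |(y j : ℝ) - x2 j| < δ) (i : Fin m) {s : ℝ} (hs : |s - x1 i| < δ) {ε : ℝ} (hε : 0 < ε) :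
    ∃ (t : ℚ) (y' : Fin r → ℚ), |(t : ℝ) - x1 i| < δ ∧ |(t : ℝ) - s| < ε ∧
      F.Good (Function.update a i t) ∧ (∃ w : ℚ, w ≠ 0 ∧ w ^ 2 = F.val (Function.update a i t) y') ∧
      ∀ j, |(y' j : ℝ) - x2 j| < δ := by
  classical
  obtain ⟨w, hw, hwz⟩ := hv
  obtain ⟨y', hyU, ⟨w1, hw1, hw1'⟩, hinf⟩ := key hF (hG i) hw hwz (isOpen_box x2 δ) hy (hbox _ _ ha hy)
  have hqd : (F.ga a i y').natDegree ≤ 4 := ga_deg hF a i y'
  have hSq : {t : ℚ | ∃ w : ℚ, w ^ 2 = F.val (Function.update a i t) y'} = Sq (F.ga a i y') := by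
    ext t
    simp only [Sq, Set.mem_ofPred_eq, ga_eval]
  rw [hSq] at hinf
  have hin : ∀ t : ℝ, t ∈ Ioo (x1 i - δ) (x1 i + δ) →
      ∀ k, |Function.update (fun i => (a i : ℝ)) i t k - x1 k| < δ := by
    intro t ht k
    by_cases hk : k = i
    · subst hk
      rw [Function.update_self, abs_lt]
      constructor <;> linarith [ht.1, ht.2]
    · rw [Function.update_of_ne hk]
      exact ha k
  have hJ0 : ∀ t ∈ Ioo (x1 i - δ) (x1 i + δ), aeval t (F.ga a i y') ≠ 0 := by
    intro t ht
    rw [ga_aeval]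
    exact (hbox _ _ (hin t ht) hyU).ne'
  have hai : (a i : ℝ) ∈ Ioo (x1 i - δ) (x1 i + δ) := by
    have := abs_lt.mp (ha i)
    constructor <;> linarith [this.1, this.2]
  have hai' : a i ∈ Sq (F.ga a i y') := by
    refine ⟨w1, ?_⟩
    rw [ga_eval, Function.update_eq_self, hw1']
  have hJrc : Ioo (x1 i - δ) (x1 i + δ) ⊆ rc (Sq (F.ga a i y')) :=
    den_conn hqd hinf isPreconnected_Ioo hJ0 hai (mem_rc hai')
  have hsJ : s ∈ Ioo (x1 i - δ) (x1 i + δ) := by
    have := abs_lt.mp hs
    constructor <;> linarith [this.1, this.2]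
  obtain ⟨t, ⟨wt, hwt⟩, htJ, htε, htE⟩ := pick isOpen_Ioo hJrc (F.good_cofinite hG i) hsJ hε
  have htG : F.Good (Function.update a i t) := by
    by_contra h
    exact htE h
  refine ⟨t, y', ?_, htε, htG, ⟨wt, ?_, ?_⟩, hyU⟩
  · rw [abs_lt]
    constructor <;> linarith [htJ.1, htJ.2]
  · rintro rfl
    have h1 := hbox _ _ (hin t htJ) hyU
    rw [← ga_aeval, aeval_cast, ← hwt] at h1
    norm_num at h1
  · rw [hwt, ga_eval]

/-- moving all coordinates -/
lemma move_all {F : Fam m r} (hF : F.Deg4) {x1 : Fin m → ℝ} {x2 : Fin r → ℝ} {δ : ℝ}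
    (hbox : ∀ (b : Fin m → ℝ) (y : Fin r → ℝ), (∀ i, |b i - x1 i| < δ) → (∀ j, |y j - x2 j| < δ) →
      0 < F.rval b y) {a : Fin m → ℚ} {y : Fin r → ℚ} (hG : F.Good a)
    (hv : ∃ w : ℚ, w ≠ 0 ∧ w ^ 2 = F.val a y) (ha : ∀ i, |(a i : ℝ) - x1 i| < δ)
    (hy : ∀ j, |(y j : ℝ) - x2 j| < δ) {s : Fin m → ℝ} (hs : ∀ i, |s i - x1 i| < δ) {ε : ℝ}
    (hε : 0 < ε) (J : Finset (Fin m)) :
    ∃ (b : Fin m → ℚ) (y' : Fin r → ℚ), F.Good b ∧ (∃ w : ℚ, w ≠ 0 ∧ w ^ 2 = F.val b y') ∧
      (∀ i, |(b i : ℝ) - x1 i| < δ) ∧ (∀ j, |(y' j : ℝ) - x2 j| < δ) ∧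
      ∀ i ∈ J, |(b i : ℝ) - s i| < ε := by
  classical
  induction J using Finset.induction_on with
  | empty => exact ⟨a, y, hG, hv, ha, hy, fun i hi => by simp at hi⟩
  | insert i J hiJ ih =>
    obtain ⟨b, y', h1, h2, h3, h4, h5⟩ := ih
    obtain ⟨t, y'', k1, k2, k3, k4, k5⟩ := move_one hF hbox h1 h2 h3 h4 i (hs i) hε
    refine ⟨Function.update b i t, y'', k3, k4, ?_, k5, ?_⟩
    · intro k
      by_cases hk : k = i
      · subst hk; rw [Function.update_self]; exact k1
      · rw [Function.update_of_ne hk]; exact h3 k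
    · intro k hk
      rw [Finset.mem_insert] at hk
      by_cases hki : k = i
      · subst hki; rw [Function.update_self]; exact k2
      · rw [Function.update_of_ne hki]; exact h5 k (hk.resolve_left hki)

/-- **Local openness of the closure.** -/
theorem S_open {F : Fam m r} (hF : F.Deg4) {x : Fin m ⊕ Fin r → ℝ} (hx : x ∈ closure (rl F.S))
    (hpos : 0 < F.rval (fun i => x (Sum.inl i)) (fun j => x (Sum.inr j))) :
    closure (rl F.S) ∈ 𝓝 x := by
  classical
  have hφc : Continuous (fun z : Fin m ⊕ Fin r → ℝ => F.rval (fun i => z (Sum.inl i)) (fun j => z (Sum.inr j))) :=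
    PF.continuous (F.rval_PF)
  -- a box
  obtain ⟨δ, hδ, hball⟩ := Metric.isOpen_iff.mp (isOpen_lt continuous_const hφc) x hpos
  have hbox : ∀ (b : Fin m → ℝ) (y : Fin r → ℝ), (∀ i, |b i - x (Sum.inl i)| < δ) →
      (∀ j, |y j - x (Sum.inr j)| < δ) → 0 < F.rval b y := by
    intro b y hb hy
    have h1 : Sum.elim b y ∈ Metric.ball x δ := by
      rw [Metric.mem_ball, dist_pi_lt_iff hδ]
      intro k
      rw [Real.dist_eq]
      rcases k with k | k
      · exact hb k
      · exact hy k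
    have h2 := hball h1
    simp only [Set.mem_ofPred_eq, Sum.elim_inl, Sum.elim_inr] at h2
    exact h2
  -- the starting point
  obtain ⟨_, ⟨z0, ⟨hz0G, hz0v⟩, rfl⟩, hz0d⟩ := Metric.mem_closure_iff.mp hx δ hδ
  have hz0b : ∀ k, |(z0 k : ℝ) - x k| < δ := by
    intro k
    rw [dist_comm, dist_pi_lt_iff hδ] at hz0d
    have := hz0d k
    rwa [Real.dist_eq] at this
  -- the box is contained in the closure
  refine Filter.mem_of_superset (Metric.ball_mem_nhds x hδ) ?_
  intro xs hxs
  have hxsb : ∀ k, |xs k - x k| < δ := by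
    intro k
    rw [Metric.mem_ball, dist_pi_lt_iff hδ] at hxs
    have := hxs k
    rwa [Real.dist_eq] at this
  rw [Metric.mem_closure_iff]
  intro ε hε
  obtain ⟨b, y, h1, ⟨w, hw, hwz⟩, h3, h4, h5⟩ := move_all hF hbox hz0G hz0v
    (fun i => hz0b (Sum.inl i)) (fun j => hz0b (Sum.inr j)) (s := fun i => xs (Sum.inl i))
    (fun i => hxsb (Sum.inl i)) hε Finset.univ
  have hu : (fun j => xs (Sum.inr j)) ∈ {y : Fin r → ℝ | ∀ j, |y j - xs (Sum.inr j)| < ε} :=
    fun j => by simp [hε]
  have hposa : 0 < qf (fun j k => (F.q b j k : ℝ)) (fun j => (F.l b j : ℝ)) (F.c b : ℝ)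
      (fun j => xs (Sum.inr j)) := by
    have h6 := hbox (fun i => (b i : ℝ)) (fun j => xs (Sum.inr j)) h3 (fun j => hxsb (Sum.inr j))
    have hc : ∀ P : MvPolynomial (Fin m) ℚ, (MvPolynomial.aeval (fun i => (b i : ℝ)) P : ℝ) =
        ((MvPolynomial.eval b P : ℚ) : ℝ) := fun P => Pool.Agent.TH729.SQ.aeval_cast b P
    simp only [Fam.rval, hc] at h6
    exact h6
  obtain ⟨y', hyU, w', hw', hw''⟩ := qdens hw hwz (isOpen_box (fun j => xs (Sum.inr j)) ε) hu hposa
  refine ⟨fun k => ((Sum.elim b y' k : ℚ) : ℝ), ⟨Sum.elim b y', ⟨h1, w', hw', hw''⟩, rfl⟩, ?_⟩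
  rw [dist_comm, dist_pi_lt_iff hε]
  intro k
  rw [Real.dist_eq]
  rcases k with k | k
  · exact h5 k (Finset.mem_univ k)
  · exact hyU k

/-- the closure of the parameters is semialgebraic -/
theorem S_SA {F : Fam m r} (hF : F.Deg4) : SA (closure (rl F.S)) := by
  refine base_SA (F.rval_PF) (φq := fun z => F.val (fun i => z (Sum.inl i)) (fun j => z (Sum.inr j)))
    (fun z => F.rval_cast _ _) (fun z hz => hz.2) (fun x hx hpos => S_open hF hx hpos)

/-- the rational points over the nondegenerate parameters, smooth in their fibre -/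
def pts (F : Fam m r) : Set (Option (Fin m ⊕ Fin r) → ℚ) :=
  {u | F.Good (fun i => u (some (Sum.inl i))) ∧
    u none ^ 2 = F.val (fun i => u (some (Sum.inl i))) (fun j => u (some (Sum.inr j))) ∧
    (u none ≠ 0 ∨ ∃ v, qb (F.q fun i => u (some (Sum.inl i))) (F.l fun i => u (some (Sum.inl i)))
      (fun j => u (some (Sum.inr j))) v ≠ 0)}

lemma pts_lift (F : Fam m r) : closure (rl F.pts) = closure (lift
    (fun z => F.val (fun i => z (Sum.inl i)) (fun j => z (Sum.inr j))) F.S) := by
  apply Subset.antisymm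
  · refine closure_minimal ?_ isClosed_closure
    rintro _ ⟨u, ⟨hG, hu, hor⟩, rfl⟩
    by_cases h0 : u none = 0
    · -- a limit of points with nonzero last coordinate
      have hor' := hor.resolve_left (by simpa using h0)
      obtain ⟨v, hv⟩ := hor'
      set a : Fin m → ℚ := fun i => u (some (Sum.inl i)) with ha
      set y : Fin r → ℚ := fun j => u (some (Sum.inr j)) with hy
      set A := qa (F.q a) v with hA
      set B := qb (F.q a) (F.l a) y v with hB
      have hval : ∀ s : ℚ, F.val a (fun j => y j + s * v j) = A * s ^ 2 + B * s := by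
        intro s
        rw [Fam.val, qf_line]
        have : qf (F.q a) (F.l a) (F.c a) y = 0 := by
          have := hu
          rw [h0] at this
          rw [Fam.val] at this
          linarith
        rw [this]
        ring
      -- the parametrization by the slope
      let s : ℕ → ℚ := fun n => B / ((n : ℚ) ^ 2 - A)
      have hden : ∀ᶠ n : ℕ in atTop, ((n : ℝ) ^ 2 - A) ≠ 0 ∧ (n : ℝ) ≠ 0 := by
        have h1 : Tendsto (fun n : ℕ => (n : ℝ) ^ 2) atTop atTop :=
          (tendsto_pow_atTop (by norm_num)).comp tendsto_natCast_atTop_atTop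
        filter_upwards [h1.eventually (eventually_gt_atTop (A : ℝ)), eventually_ge_atTop 1] with n hn hn1
        refine ⟨by linarith, ?_⟩
        have : (1 : ℝ) ≤ n := by exact_mod_cast hn1
        linarith
      have hs0 : Tendsto (fun n : ℕ => ((s n : ℚ) : ℝ)) atTop (𝓝 0) := by
        have h1 : Tendsto (fun n : ℕ => (n : ℝ) ^ 2 - A) atTop atTop :=
          tendsto_atTop_add_const_right _ _
            ((tendsto_pow_atTop (by norm_num)).comp tendsto_natCast_atTop_atTop)
        have h2 : Tendsto (fun n : ℕ => (B : ℝ) / ((n : ℝ) ^ 2 - A)) atTop (𝓝 0) :=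
          tendsto_const_nhds.div_atTop h1
        refine h2.congr fun n => ?_
        simp only [s]
        push_cast
        rfl
      have hns0 : Tendsto (fun n : ℕ => ((n * s n : ℚ) : ℝ)) atTop (𝓝 0) := by
        have h1 : Tendsto (fun n : ℕ => (n : ℝ) - A / n) atTop atTop := by
          have h2 : Tendsto (fun n : ℕ => (A : ℝ) / n) atTop (𝓝 0) :=
            tendsto_const_nhds.div_atTop tendsto_natCast_atTop_atTop
          have h3 := tendsto_natCast_atTop_atTop (R := ℝ)
          have := h3.atTop_add h2.neg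
          refine this.congr fun n => ?_
          ring
        have h2 : Tendsto (fun n : ℕ => (B : ℝ) / ((n : ℝ) - A / n)) atTop (𝓝 0) :=
          tendsto_const_nhds.div_atTop h1
        refine h2.congr' ?_
        filter_upwards [hden, eventually_ge_atTop 1] with n hn hn1
        simp only [s]
        push_cast
        have h4 : (n : ℝ) ≠ 0 := hn.2
        have h5 := hn.1
        field_simp
      have hlim : Tendsto (fun n : ℕ => (ext ((n * s n : ℚ) : ℝ) (fun k : Fin m ⊕ Fin r =>
          ((Sum.elim a (fun j => y j + s n * v j) k : ℚ) : ℝ)) : Option (Fin m ⊕ Fin r) → ℝ)) atTop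
          (𝓝 (fun o => (u o : ℝ))) := by
        rw [tendsto_pi_nhds]
        intro o
        rcases o with _ | (i | j)
        · simp only [ext_none]
          rw [h0]
          simpa using hns0
        · simp only [ext_some, Sum.elim_inl]
          exact tendsto_const_nhds
        · simp only [ext_some, Sum.elim_inr]
          have h1 : Tendsto (fun n : ℕ => (y j : ℝ) + (s n : ℝ) * (v j : ℝ)) atTop
              (𝓝 ((y j : ℝ) + 0 * (v j : ℝ))) :=
            tendsto_const_nhds.add (hs0.mul tendsto_const_nhds)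
          rw [zero_mul, add_zero] at h1
          refine h1.congr fun n => ?_
          push_cast
          rfl
      refine mem_closure_of_tendsto hlim ?_
      filter_upwards [hden] with n hn
      have hn1 : ((n : ℚ) ^ 2 - A) ≠ 0 := by
        intro h
        apply hn.1
        exact_mod_cast h
      have hn2 : (n : ℚ) ≠ 0 := by
        intro h
        apply hn.2
        exact_mod_cast h
      have hs : s n ≠ 0 := div_ne_zero hv hn1
      have hsq : ((n : ℚ) * s n) ^ 2 = F.val a (fun j => y j + s n * v j) := by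
        rw [hval]
        simp only [s]
        field_simp
        ring
      refine ⟨Sum.elim a (fun j => y j + s n * v j), ⟨?_, n * s n, mul_ne_zero hn2 hs, ?_⟩,
        n * s n, ?_, rfl⟩
      · simpa using hG
      · simpa using hsq
      · simpa using hsq
    · apply subset_closure
      refine ⟨fun k => u (some k), ⟨hG, u none, h0, hu⟩, u none, hu, ?_⟩
      funext o
      rcases o with _ | k <;> rfl
  · apply closure_mono
    rintro _ ⟨z, ⟨hG, w0, hw0, hw0'⟩, w, hw, rfl⟩
    refine ⟨fun o => o.elim w z, ⟨hG, hw, Or.inl ?_⟩, ?_⟩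
    · intro h
      have h : w = 0 := h
      have hw2 : w ^ 2 = w0 ^ 2 := hw.trans hw0'.symm
      apply hw0
      rw [h] at hw2
      have : w0 ^ 2 = 0 := by linarith
      exact pow_eq_zero_iff (two_ne_zero) |>.mp this
    · funext o
      rcases o with _ | k <;> rfl

/-- **The closure of the rational points over the nondegenerate parameters is semialgebraic.** -/
theorem pts_SA {F : Fam m r} (hF : F.Deg4) : SA (closure (rl F.pts)) := by
  rw [pts_lift]
  exact lift_SA (F.rval_PF) (fun z => F.rval_cast _ _)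
    (fun z hz => by obtain ⟨w, -, hw⟩ := hz.2; exact ⟨w, hw⟩) (S_SA hF)

end Fam

end Pool.Agent.Y718
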