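import Pool.Agent.Y718.QD

/-!
# Square values of a quadratic polynomial, dense in the reals and close to `0` for another place
-/

set_option autoImplicit false
set_option linter.unusedSectionVars false
set_option linter.unusedVariables false

open Filter Topology Pool.Agent.Y720.MZ

namespace Pool.Agent.Y718.X

variable {K : Type*} [Field K] {v : AbsoluteValue K ℝ}

/-- weak approximation for the real embedding and the absolute value -/
def WA (σ : K →+* ℝ) (v : AbsoluteValue K ℝ) : Prop :=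
  ∀ (x ε R : ℝ), 0 < ε → ∃ s : K, |σ s - x| < ε ∧ R < v s

lemma WA.seq {σ : K →+* ℝ} (h : WA σ v) (x : ℝ) : ∃ s : ℕ → K,
    Tendsto (fun k => σ (s k)) atTop (𝓝 x) ∧ ∀ k, 1 < v (s k) := by
  have h1 : ∀ k : ℕ, ∃ s : K, |σ s - x| < 1 / ((k : ℝ) + 1) ∧ 1 < v s := fun k =>
    h x _ 1 (by positivity)
  choose s hs1 hs2 using h1
  refine ⟨s, ?_, hs2⟩
  rw [tendsto_iff_dist_tendsto_zero]
  exact squeeze_zero (fun _ => dist_nonneg) (fun k => (hs1 k).le) tendsto_one_div_add_atTop_nhds_zero_nat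

/-- **Density for conics.** -/
theorem cd (σ : K →+* ℝ) (hv : IsNonarchimedean v) (hwa : WA σ v) {w q₁ q₂ : K}
    (h2 : v (2 : K) = 1) (hw : v w = 1) (h1' : v q₁ ≤ 1) (h2' : v q₂ ≤ 1) {t : ℝ}
    (hQ : 0 < σ w ^ 2 + σ q₁ * t + σ q₂ * t ^ 2)
    {ε : ℝ} (hε : 0 < ε) : ∃ r Y : K, v r < 1 ∧ |σ r - t| < ε ∧ Y ≠ 0 ∧
      Y ^ 2 = w ^ 2 + q₁ * r + q₂ * r ^ 2 := by
  have hw0 : w ≠ 0 := by
    intro h0; rw [h0, map_zero] at hw; exact zero_ne_one hw
  have hσw : σ w ≠ 0 := (map_ne_zero σ).2 hw0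
  by_cases ht : t = 0
  · subst ht
    exact ⟨0, w, by rw [map_zero]; exact one_pos, by simpa using hε, hw0, by ring⟩
  have hs := Real.sq_sqrt hQ.le
  have hY0 := Real.sqrt_pos.2 hQ
  set Y := Real.sqrt (σ w ^ 2 + σ q₁ * t + σ q₂ * t ^ 2) with hY
  set s := (Y - σ w) / t with hsdef
  have hst : s * t = Y - σ w := div_mul_cancel₀ _ ht
  have hrel : s ^ 2 * t - σ q₂ * t = σ q₁ - 2 * σ w * s := by
    apply mul_left_cancel₀ ht
    linear_combination (s * t + Y + σ w) * hst + hs
  by_cases hs2 : s ^ 2 - σ q₂ = 0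
  · -- the perfect square
    have h1 : σ q₁ = 2 * σ w * s := by linear_combination -hrel + t * hs2
    set s0 : K := q₁ / (2 * w) with hs0
    have hch : CharZero K := σ.charZero
    have hσs0 : σ s0 = s := by
      rw [hs0, map_div₀, map_mul, map_ofNat, h1]
      field_simp
    have e1 : q₁ = 2 * w * s0 := by
      rw [hs0]; field_simp
    have e2 : q₂ = s0 ^ 2 := by
      apply σ.injective
      rw [map_pow, hσs0]
      linear_combination -hs2
    obtain ⟨u, hu, hu1⟩ := hwa.seq (1 / t)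
    have hr : Tendsto (fun k => σ (u k)⁻¹) atTop (𝓝 t) := by
      have := hu.inv₀ (one_div_ne_zero ht)
      rw [one_div, inv_inv] at this
      refine this.congr fun k => ?_
      rw [map_inv₀]
    have hYl : Tendsto (fun k => σ (w + s0 * (u k)⁻¹)) atTop (𝓝 Y) := by
      have := (hr.const_mul (σ s0)).const_add (σ w)
      have e : σ w + σ s0 * t = Y := by rw [hσs0]; linear_combination hst
      rw [e] at this
      refine this.congr fun k => ?_
      rw [map_add, map_mul]
    have hε' := (Metric.tendsto_nhds.1 hr) ε hε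
    obtain ⟨k, k1, k2⟩ := (hε'.and (hYl.eventually_ne hY0.ne')).exists
    refine ⟨(u k)⁻¹, w + s0 * (u k)⁻¹, ?_, ?_, ?_, ?_⟩
    · rw [map_inv₀]
      exact inv_lt_one_of_one_lt₀ (hu1 k)
    · rwa [Real.dist_eq] at k1
    · intro h0
      rw [h0, map_zero] at k2
      exact k2 rfl
    · rw [e1, e2]; ring
  · obtain ⟨u, hu, hu1⟩ := hwa.seq s
    have hden : Tendsto (fun k => σ (u k) ^ 2 - σ q₂) atTop (𝓝 (s ^ 2 - σ q₂)) :=
      (hu.pow 2).sub_const _
    have hr : Tendsto (fun k => σ ((q₁ - 2 * w * u k) / (u k ^ 2 - q₂))) atTop (𝓝 t) := by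
      have := ((hu.const_mul (2 * σ w)).const_sub (σ q₁)).div hden hs2
      have e : (σ q₁ - 2 * σ w * s) / (s ^ 2 - σ q₂) = t := by
        rw [div_eq_iff hs2]
        linear_combination -hrel
      rw [e] at this
      refine this.congr fun k => ?_
      simp only [map_div₀, map_sub, map_mul, map_pow, map_ofNat]
      rfl
    have hYl : Tendsto (fun k => σ (w + u k * ((q₁ - 2 * w * u k) / (u k ^ 2 - q₂)))) atTop (𝓝 Y) := by
      have := (hu.mul hr).const_add (σ w)
      have e : σ w + s * t = Y := by linear_combination hst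
      rw [e] at this
      refine this.congr fun k => ?_
      rw [map_add, map_mul]
    have hε' := (Metric.tendsto_nhds.1 hr) ε hε
    have hd1 : ∀ᶠ k in atTop, u k ^ 2 - q₂ ≠ 0 := by
      filter_upwards [hden.eventually_ne hs2] with k hk h0
      apply hk
      have := congrArg σ h0
      simpa only [map_sub, map_pow, map_zero] using this
    obtain ⟨k, k1, k2, k3⟩ := (hε'.and ((hYl.eventually_ne hY0.ne').and hd1)).exists
    have hu0 : 0 < v (u k) := one_pos.trans (hu1 k)
    refine ⟨(q₁ - 2 * w * u k) / (u k ^ 2 - q₂), w + u k * ((q₁ - 2 * w * u k) / (u k ^ 2 - q₂)),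
      ?_, ?_, ?_, ?_⟩
    · have e1 : v (q₁ - 2 * w * u k) = v (u k) := by
        have e : q₁ - 2 * w * u k = -(2 * w * u k) + q₁ := by ring
        have e3 : v (-(2 * w * u k)) = v (u k) := by
          rw [v.map_neg, map_mul, map_mul, h2, hw, one_mul, one_mul]
        rw [e, na_eq hv, e3]
        rw [e3]
        exact h1'.trans_lt (hu1 k)
      have e2 : v (u k ^ 2 - q₂) = v (u k) ^ 2 := by
        have h3 : 1 < v (u k) ^ 2 := one_lt_pow₀ (hu1 k) two_ne_zero
        rw [sub_eq_add_neg, na_eq hv, map_pow]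
        rw [v.map_neg, map_pow]
        exact h2'.trans_lt h3
      rw [map_div₀, e1, e2, div_lt_one (by positivity)]
      nlinarith [hu1 k]
    · rwa [Real.dist_eq] at k1
    · intro h0
      rw [h0, map_zero] at k2
      exact k2 rfl
    · field_simp
      ring

end Pool.Agent.Y718.X
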