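import Pool.Agent.Y718.MVX

/-!
# Chains of moves: points which become nondegenerate after some moves
-/

set_option autoImplicit false
set_option linter.unusedSectionVars false
set_option linter.unusedVariables false

open WeierstrassCurve Filter Topology Pool.Agent.Y720.MZ

namespace Pool.Agent.Y718.X

variable {K : Type*} [Field K] [DecidableEq K] {v : AbsoluteValue K ℝ} {p n : ℕ}

/-- the value is a nonzero square -/
def Sqf (f : MvPolynomial (Fin n) K) (z : Fin n → K) : Prop :=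
  ∃ w : K, w ≠ 0 ∧ w ^ 2 = MvPolynomial.eval z f

/-- vanishes where the order is small -/
noncomputable def GN (f : MvPolynomial (Fin n) K) (N : ℕ) (j : Fin n) (y : Fin n → K) : K :=
  Gd (Ab (lk f y (Pi.single j 1))) (Bb (lk f y (Pi.single j 1))) (Cb (lk f y (Pi.single j 1)))
    (XB (lk f y (Pi.single j 1))) (ZB (lk f y (Pi.single j 1))) N

lemma GN_line (f : MvPolynomial (Fin n) K) (N : ℕ) (j i : Fin n) (y : Fin n → K) {τ : K}
    (h : GN f N j (y + τ • Pi.single i 1) ≠ 0) :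
    {r : K | GN f N j (y + r • Pi.single i 1) = 0}.Finite := by
  set Q : Polynomial (Polynomial K) := lkk f y (Pi.single i 1) (Pi.single j 1) with hQ
  have hQr : ∀ r : K, Q.map (Polynomial.evalRingHom r) =
      lk f (y + r • Pi.single i 1) (Pi.single j 1) := fun r => lkk_map _ _ _ _ _
  set G : Polynomial K := Gd (Ab Q) (Bb Q) (Cb Q) (XB Q) (ZB Q) N with hG
  have hGr : ∀ r : K, G.eval r = GN f N j (y + r • Pi.single i 1) := by
    intro r
    rw [GN, ← hQr r, map_Ab, map_Bb, map_Cb, map_XB, map_ZB, map_Gd]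
    rfl
  have hG0 : G ≠ 0 := by
    intro h0
    apply h
    rw [← hGr, h0, Polynomial.eval_zero]
  refine (Polynomial.finite_setOfPred_isRoot hG0).subset ?_
  intro r hr
  have hr' : GN f N j (y + r • Pi.single i 1) = 0 := hr
  rw [← hGr] at hr'
  exact hr'

lemma xs_ZB [CharZero K] (q : Polynomial K) (w : K) (hw0 : w ≠ 0) (hw : w ^ 2 = q.coeff 0) :
    xs w (q.coeff 1) (q.coeff 2) * ZB q = XB q ∧ ZB q ≠ 0 := by
  unfold xs ZB XB
  rw [← hw]
  refine ⟨by field_simp, mul_ne_zero (by norm_num) (pow_ne_zero 2 hw0)⟩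

lemma GN_of_Inf [CharZero K] {f : MvPolynomial (Fin n) K} {j : Fin n} {y : Fin n → K}
    (h : Inf (lk f y (Pi.single j 1))) (N : ℕ) : GN f N j y ≠ 0 := by
  obtain ⟨hD0, w, hw0, hw, hinf⟩ := h
  have hns := ns_of_dsc (x := xs w ((lk f y (Pi.single j 1)).coeff 1)
      ((lk f y (Pi.single j 1)).coeff 2)) (y := ys w ((lk f y (Pi.single j 1)).coeff 1)
      ((lk f y (Pi.single j 1)).coeff 2) ((lk f y (Pi.single j 1)).coeff 3)) hD0 (by
    rw [bb_eq hw, cb_eq hw]
    exact s_eqn hw0)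
  exact Gd_ne hns (xs_ZB _ w hw0 hw).1 (xs_ZB _ w hw0 hw).2 (hinf hns) N

/-- functions which vanish at finitely many points of each line parallel to the axes, or on the
whole line -/
def LP (Φ : (Fin n → K) → K) : Prop :=
  ∀ (i : Fin n) (z : Fin n → K) (τ : K), Φ (z + τ • Pi.single i 1) ≠ 0 →
    {r : K | Φ (z + r • Pi.single i 1) = 0}.Finite

lemma LP_GN (f : MvPolynomial (Fin n) K) (N : ℕ) (j : Fin n) : LP (GN f N j) :=
  fun i z _ h => GN_line f N j i z h

lemma LP_Db (f : MvPolynomial (Fin n) K) (j : Fin n) :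
    LP (fun z => Db (lk f z (Pi.single j 1))) := by
  intro i y τ h
  set Q : Polynomial (Polynomial K) := lkk f y (Pi.single i 1) (Pi.single j 1) with hQ
  have hQr : ∀ r : K, Q.map (Polynomial.evalRingHom r) =
      lk f (y + r • Pi.single i 1) (Pi.single j 1) := fun r => lkk_map _ _ _ _ _
  set G : Polynomial K := Db Q with hG
  have hGr : ∀ r : K, G.eval r = Db (lk f (y + r • Pi.single i 1) (Pi.single j 1)) := by
    intro r
    rw [← hQr r, Db, map_Ab, map_Bb, map_Cb, hG, Db, ← Polynomial.coe_evalRingHom]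
    simp only [dsc, map_sub, map_add, map_mul, map_pow, map_ofNat]
  have hG0 : G ≠ 0 := by
    intro h0
    apply h
    simp only
    rw [← hGr, h0, Polynomial.eval_zero]
  refine (Polynomial.finite_setOfPred_isRoot hG0).subset ?_
  intro r hr
  have hr' : Db (lk f (y + r • Pi.single i 1) (Pi.single j 1)) = 0 := hr
  rw [← hGr] at hr'
  exact hr'

/-- a bound for the orders which suits all points with good reduction -/
def TB (v : AbsoluteValue K ℝ) (N : ℕ) : Prop := ∀ (a b c : K), v a ≤ 1 → v b ≤ 1 → v c ≤ 1 →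
    v (dsc a b c) = 1 → ∀ (P : Pt a b c) (n : ℕ), n ≠ 0 → n • P = 0 →
      ∃ M : ℕ, M ≠ 0 ∧ M ≤ N ∧ M • P = 0

/-- good reduction in some directions -/
def GJ (v : AbsoluteValue K ℝ) (f : MvPolynomial (Fin n) K) (J : Finset (Fin n))
    (z : Fin n → K) : Prop :=
  (∀ l, v (z l) ≤ 1) ∧ v (MvPolynomial.eval z f) = 1 ∧
    ∀ i ∈ J, Dg f i 2 ∨ v (Db (lk f z (Pi.single i 1))) = 1

lemma GJ.move (hp : Pl v p) {f : MvPolynomial (Fin n) K} (hf : ∀ d, v (f.coeff d) ≤ 1)
    {J : Finset (Fin n)}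
    {z : Fin n → K} (hz : GJ v f J z) (i : Fin n) {r : K} (hr : v r < 1) :
    GJ v f J (z + r • Pi.single i 1) := by
  have h1 : ∀ l, v ((z + r • (Pi.single i 1 : Fin n → K)) l - z l) < 1 := by
    intro l
    have : (z + r • (Pi.single i 1 : Fin n → K)) l - z l = (Pi.single i 1 : Fin n → K) l * r := by
      simp only [Pi.add_apply, Pi.smul_apply, smul_eq_mul]
      ring
    rw [this]
    exact na_mul_lt (single_le i l) hr
  have h2 : ∀ l, v ((z + r • (Pi.single i 1 : Fin n → K)) l) ≤ 1 := by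
    intro l
    have : (z + r • (Pi.single i 1 : Fin n → K)) l = z l +
      ((z + r • (Pi.single i 1 : Fin n → K)) l - z l) := by ring
    rw [this]
    exact na_add hp.na (hz.1 l) (h1 l).le
  refine ⟨h2, unit_of_close hp.na hz.2.1 ((IC_eval hp.na hf).2 _ _ h2 hz.1 h1), fun j hj => ?_⟩
  rcases hz.2.2 j hj with h | h
  · exact Or.inl h
  · exact Or.inr (unit_of_close hp.na h ((IC_Db hp.na hf j).2 _ _ h2 hz.1 h1))

lemma Inf_of_GN [CharZero K] (hv : IsNonarchimedean v) {N : ℕ} (hN : TB v N)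
    {f : MvPolynomial (Fin n) K} (hf : ∀ d, v (f.coeff d) ≤ 1) {J : Finset (Fin n)} {j : Fin n}
    (hjJ : j ∈ J) {y : Fin n → K}
    (hz : GJ v f J y) (hj : ¬ Dg f j 2) (hs : Sqf f y) (h : GN f N j y ≠ 0) :
    Inf (lk f y (Pi.single j 1)) := by
  obtain ⟨w', hw0', hw'⟩ := hs
  have hw0c : w' ^ 2 = (lk f y (Pi.single j 1)).coeff 0 := by rw [lk_zero, hw']
  have hDq := (hz.2.2 j hjJ).resolve_left hj
  have hDq0 : Db (lk f y (Pi.single j 1)) ≠ 0 := by
    intro h0
    rw [h0, map_zero] at hDq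
    exact zero_ne_one hDq
  refine ⟨hDq0, w', hw0', hw0c, fun hns m hm hm0 => ?_⟩
  obtain ⟨M, hM0, hMN, hM⟩ := hN _ _ _ ((IC_Ab hv hf j).1 _ hz.1)
    ((IC_Bb hv hf j).1 _ hz.1) ((IC_Cb hv hf j).1 _ hz.1) hDq _ m hm hm0
  exact h (Gd_zero hns (xs_ZB _ w' hw0' hw0c).1 (xs_ZB _ w' hw0' hw0c).2 hM0 hMN hM)

attribute [irreducible] GN

/-- moves which avoid finitely many parameters -/
theorem move_avoid [CharZero K] (σ : K →+* ℝ) (hp : Pl v p) (hwa : WA σ v)
    {f : MvPolynomial (Fin n) K}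
    (hf : ∀ d, v (f.coeff d) ≤ 1) (h4 : ∀ i, Dg f i 4) {J : Finset (Fin n)}
    {z : Fin n → K} (hz : GJ v f J z) (hsq : Sqf f z) (i : Fin n) (hiJ : i ∈ J)
    (hND : NDx f i z)
    {E : Set K} (hE : E.Finite) {ε : ℝ} (hε : 0 < ε) :
    ∃ r : K, r ∉ E ∧ v r < 1 ∧ |σ r| < ε ∧ Sqf f (z + r • Pi.single i 1) := by
  classical
  obtain ⟨w, hw0, hw⟩ := hsq
  have hvw : v w = 1 := by
    have h1 := hz.2.1
    rw [← hw, map_pow] at h1
    exact (pow_eq_one_iff_of_nonneg (v.nonneg _) two_ne_zero).1 h1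
  -- positivity near the base point
  obtain ⟨δ₀, hδ₀, hpos⟩ : ∃ δ₀ : ℝ, 0 < δ₀ ∧ ∀ s : ℝ, |s| < δ₀ → 0 < Qr (σ w)
      (σ ((lk f z (Pi.single i 1)).coeff 1))
      (σ ((lk f z (Pi.single i 1)).coeff 2)) (σ ((lk f z (Pi.single i 1)).coeff 3))
      (σ ((lk f z (Pi.single i 1)).coeff 4)) s := by
    have hc := Qr_cont (σ w) (σ ((lk f z (Pi.single i 1)).coeff 1))
      (σ ((lk f z (Pi.single i 1)).coeff 2)) (σ ((lk f z (Pi.single i 1)).coeff 3))
      (σ ((lk f z (Pi.single i 1)).coeff 4))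
    have h0 : 0 < Qr (σ w) (σ ((lk f z (Pi.single i 1)).coeff 1))
      (σ ((lk f z (Pi.single i 1)).coeff 2)) (σ ((lk f z (Pi.single i 1)).coeff 3))
      (σ ((lk f z (Pi.single i 1)).coeff 4)) 0 := by
      unfold Qr
      have : σ w ≠ 0 := (map_ne_zero σ).2 hw0
      simp only [mul_zero, zero_pow two_ne_zero, zero_pow three_ne_zero, zero_pow four_ne_zero,
        add_zero]
      positivity
    obtain ⟨δ₀, hδ₀, h⟩ := Metric.isOpen_iff.1 (isOpen_lt continuous_const hc) 0 h0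
    refine ⟨δ₀, hδ₀, fun s hs => h (by rw [Metric.mem_ball, Real.dist_eq, sub_zero]; exact hs)⟩
  set η := min δ₀ ε with hη
  have hη0 : 0 < η := lt_min hδ₀ hε
  -- a target outside the exceptional set
  obtain ⟨t, ht0, ht1, htE⟩ : ∃ t : ℝ, 0 < t ∧ t < η / 2 ∧ t ∉ σ '' E := by
    by_contra hcon
    push Not at hcon
    refine (Set.Ioo_infinite (half_pos hη0)) ((hE.image σ).subset ?_)
    rintro t ⟨h1, h2⟩
    exact hcon t h1 h2
  obtain ⟨δ, hδ, hδE⟩ : ∃ δ : ℝ, 0 < δ ∧ ∀ r ∈ E, δ ≤ |σ r - t| := by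
    have hcl : IsClosed (σ '' E) := (hE.image σ).isClosed
    obtain ⟨δ, hδ, hδ'⟩ := Metric.isOpen_iff.1 hcl.isOpen_compl _ htE
    refine ⟨δ, hδ, fun r hr => ?_⟩
    by_contra hc
    push Not at hc
    exact hδ' (Metric.mem_ball.2 (by rw [Real.dist_eq]; exact hc)) ⟨r, hr, rfl⟩
  have hη1 : η ≤ δ₀ := min_le_left _ _
  have hη2 : η ≤ ε := min_le_right _ _
  have hseg : ∀ s' : ℝ, 0 ≤ s' → s' ≤ 1 → |s' * t| < δ₀ := by
    intro s' h0 h1
    rw [abs_of_nonneg (by positivity)]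
    have : s' * t ≤ 1 * t := mul_le_mul_of_nonneg_right h1 ht0.le
    linarith
  have c := fun k => (coeff_IC hp.na hf i k).1 z hz.1
  obtain ⟨r, Y, hvr, hr, hY, hYQ⟩ : ∃ r Y : K, v r < 1 ∧ |σ r - t| < min (η / 2) δ ∧ Y ≠ 0 ∧
      Y ^ 2 = w ^ 2 + (lk f z (Pi.single i 1)).coeff 1 * r + (lk f z (Pi.single i 1)).coeff 2 * r ^ 2 +
      (lk f z (Pi.single i 1)).coeff 3 * r ^ 3 + (lk f z (Pi.single i 1)).coeff 4 * r ^ 4 := by
    by_cases hi : Dg f i 2
    · have hd := hi z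
      have h3 : (lk f z (Pi.single i 1)).coeff 3 = 0 :=
        Polynomial.coeff_eq_zero_of_natDegree_lt (by omega)
      have h4' : (lk f z (Pi.single i 1)).coeff 4 = 0 :=
        Polynomial.coeff_eq_zero_of_natDegree_lt (by omega)
      have hQ := hpos (1 * t) (hseg 1 zero_le_one le_rfl)
      rw [h3, h4', one_mul] at hQ
      unfold Qr at hQ
      rw [map_zero, zero_mul, zero_mul, add_zero, add_zero] at hQ
      obtain ⟨r, Y, a1, a2, a3, a4⟩ := cd σ hp.na hwa hp.two hvw (c 1) (c 2) hQ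
        (lt_min (half_pos hη0) hδ)
      refine ⟨r, Y, a1, a2, a3, ?_⟩
      rw [h3, h4', a4]
      ring
    · obtain ⟨hD0, w1, hw10, hw1, hinf⟩ := hND.resolve_left hi
      have hDz := (hz.2.2 i hiJ).resolve_left hi
      have hw1' : w1 ^ 2 = MvPolynomial.eval z f := by rw [hw1, lk_zero]
      have hvw1 : v w1 = 1 := by
        have h1 := hz.2.1
        rw [← hw1', map_pow] at h1
        exact (pow_eq_one_iff_of_nonneg (v.nonneg _) two_ne_zero).1 h1
      obtain ⟨F, _, ρ, hρ⟩ := hp.res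
      have hseg1 : ∀ s' : ℝ, 0 ≤ s' → s' ≤ 1 → 0 < Qr (σ w1)
          (σ ((lk f z (Pi.single i 1)).coeff 1))
          (σ ((lk f z (Pi.single i 1)).coeff 2)) (σ ((lk f z (Pi.single i 1)).coeff 3))
          (σ ((lk f z (Pi.single i 1)).coeff 4)) (s' * t) := by
        intro s' h0 h1
        have := hpos (s' * t) (hseg s' h0 h1)
        rw [line_Qr σ (h4 i) z hw] at this
        rw [line_Qr σ (h4 i) z hw1']
        exact this
      obtain ⟨r, Y, a1, a2, a3, a4⟩ := qd σ hp.na hp.two hvw1 (c 1) (c 2) (c 3) (c 4)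
        (by rw [← bb_eq hw1, ← cb_eq hw1]; exact hDz) ρ hρ
        (by rw [← bb_eq hw1, ← cb_eq hw1]; exact hinf) hseg1 (lt_min (half_pos hη0) hδ)
      refine ⟨r, Y, a1, a2, a3, ?_⟩
      rw [a4, hw1', ← hw]
  rw [line_four (h4 i) z hw] at hYQ
  refine ⟨r, ?_, hvr, ?_, ⟨Y, hY, hYQ⟩⟩
  · intro hrE
    have h1 := hδE r hrE
    have h2 := hr.trans_le (min_le_right _ _)
    linarith
  · have h2 := hr.trans_le (min_le_left _ _)
    rw [abs_lt] at h2 ⊢
    constructor
    · linarith [h2.1]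
    · linarith [h2.2]

/-- nondegeneracy persists in the directions of a set -/
theorem persistJ [CharZero K] (hp : Pl v p) {f : MvPolynomial (Fin n) K}
    (hf : ∀ d, v (f.coeff d) ≤ 1) {J J' : Finset (Fin n)} (hJ : J ⊆ J')
    {z : Fin n → K} (hz : GJ v f J' z) (hT : ∀ j ∈ J, NDx f j z) (i : Fin n) :
    ∃ E : Set K, E.Finite ∧ ∀ r : K, r ∉ E → v r < 1 → Sqf f (z + r • Pi.single i 1) →
      ∀ j ∈ J, NDx f j (z + r • Pi.single i 1) := by
  classical
  obtain ⟨N, hN⟩ := hp.torsion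
  have hE1 : ∀ j : Fin n, ∃ E : Set K, E.Finite ∧ (j ∈ J → ¬ Dg f j 2 → ∀ r ∉ E,
      GN f N j (z + r • Pi.single i 1) ≠ 0) := by
    intro j
    by_cases hj : j ∈ J ∧ ¬ Dg f j 2
    · have h1 : GN f N j z ≠ 0 := GN_of_Inf ((hT j hj.1).resolve_left hj.2) N
      refine ⟨{r : K | GN f N j (z + r • Pi.single i 1) = 0},
        GN_line f N j i z (τ := 0) (by rwa [zero_smul, add_zero]), fun _ _ r hr => hr⟩
    · exact ⟨∅, Set.finite_empty, fun h h' => absurd ⟨h, h'⟩ hj⟩
  choose E hE1 hE2 using hE1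
  refine ⟨⋃ j, E j, Set.finite_iUnion hE1, fun r hr hvr hs j hj => ?_⟩
  by_cases hd : Dg f j 2
  · exact Or.inl hd
  · exact Or.inr (Inf_of_GN hp.na hN hf (hJ hj) (hz.move hp hf i hvr) hd hs
      (hE2 j hj hd r (fun h => hr (Set.mem_iUnion.2 ⟨j, h⟩))))

/-- **Generic moves** -/
theorem generic [CharZero K] (σ : K →+* ℝ) (hp : Pl v p) (hwa : WA σ v)
    {f : MvPolynomial (Fin n) K}
    (hf : ∀ d, v (f.coeff d) ≤ 1) (h4 : ∀ i, Dg f i 4) {J J' : Finset (Fin n)} (hJ : J ⊆ J')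
    {Φ : (Fin n → K) → K} (hΦ : LP Φ) (L : List (Fin n)) :
    (∀ i ∈ L, i ∈ J) → ∀ (z : Fin n → K), GJ v f J' z → Sqf f z → (∀ j ∈ J, NDx f j z) →
    (∃ y : Fin n → K, (∀ l, l ∉ L → y l = z l) ∧ Φ y ≠ 0) → ∀ ε : ℝ, 0 < ε →
    ∃ z' : Fin n → K, (∀ l, l ∉ J → z' l = z l) ∧ GJ v f J' z' ∧ Sqf f z' ∧
      (∀ j ∈ J, NDx f j z') ∧ (∀ l, |σ (z' l) - σ (z l)| < ε) ∧ Φ z' ≠ 0 := by
  classical
  induction L with
  | nil =>
    rintro - z hz hs hT ⟨y, hy, hΦy⟩ ε hε
    have : y = z := funext fun l => hy l (by simp)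
    subst this
    exact ⟨y, fun _ _ => rfl, hz, hs, hT, fun l => by simpa using hε, hΦy⟩
  | cons i L ih =>
    rintro hL z hz hs hT ⟨y, hy, hΦy⟩ ε hε
    have hiJ : i ∈ J := hL i (by simp)
    set y0 : Fin n → K := Function.update y i (z i) with hy0
    have hyr : y0 + (y i - z i) • (Pi.single i 1 : Fin n → K) = y := by
      funext l
      by_cases hli : l = i
      · subst hli
        simp only [hy0, Pi.add_apply, Pi.smul_apply, Pi.single_eq_same, smul_eq_mul, mul_one,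
          Function.update_self]
        ring
      · simp only [hy0, Pi.add_apply, Pi.smul_apply, Pi.single_eq_of_ne hli, smul_eq_mul,
          mul_zero, add_zero, Function.update_of_ne hli]
    have hE1 := hΦ i y0 (y i - z i) (by rw [hyr]; exact hΦy)
    obtain ⟨E2, hE2, hE2'⟩ := persistJ hp hf hJ hz hT i
    obtain ⟨r, hrE, hvr, hr, hs1⟩ := move_avoid σ hp hwa hf h4 hz hs i (hJ hiJ) (hT i hiJ)
      (E := {r : K | Φ (y0 + r • Pi.single i 1) = 0} ∪ E2) (hE1.union hE2) (half_pos hε)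
    have hr1 : Φ (y0 + r • Pi.single i 1) ≠ 0 := fun h => hrE (Or.inl h)
    have hr2 : r ∉ E2 := fun h => hrE (Or.inr h)
    obtain ⟨z', k0, k1, k2, k3, k4, k5⟩ := ih (fun j hj => hL j (by simp [hj]))
      (z + r • Pi.single i 1) (hz.move hp hf i hvr) hs1 (hE2' r hr2 hvr hs1)
      ⟨y0 + r • Pi.single i 1, fun l hl => by
        by_cases hli : l = i
        · subst hli
          simp only [hy0, Pi.add_apply, Function.update_self]
        · simp only [hy0, Pi.add_apply, Function.update_of_ne hli]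
          rw [hy l (by simp only [List.mem_cons, not_or]; exact ⟨hli, hl⟩)], hr1⟩
      (ε / 2) (half_pos hε)
    refine ⟨z', fun l hl => ?_, k1, k2, k3, fun l => ?_, k5⟩
    · rw [k0 l hl]
      have hli : l ≠ i := fun h => hl (h ▸ hiJ)
      simp only [Pi.add_apply, Pi.smul_apply, Pi.single_eq_of_ne hli, smul_eq_mul, mul_zero,
        add_zero]
    · have h1 := k4 l
      have h2 : |σ ((z + r • (Pi.single i 1 : Fin n → K)) l) - σ (z l)| < ε / 2 := by
        simp only [Pi.add_apply, Pi.smul_apply, smul_eq_mul, map_add, map_mul]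
        by_cases hli : l = i
        · subst hli
          rw [Pi.single_eq_same, map_one, mul_one]
          have : σ (z l) + σ r - σ (z l) = σ r := by ring
          rw [this]
          exact hr
        · rw [Pi.single_eq_of_ne hli, map_zero, mul_zero, add_zero, sub_self, abs_zero]
          exact half_pos hε
      have := abs_sub_le (σ (z' l)) (σ ((z + r • (Pi.single i 1 : Fin n → K)) l)) (σ (z l))
      linarith

/-- there are enough good places -/
def GoodPlaces (σ : K →+* ℝ) : Prop :=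
  ∀ s : Finset K, ∃ (v : AbsoluteValue K ℝ) (p : ℕ), Pl v p ∧ WA σ v ∧
    ∀ x ∈ s, v x ≤ 1 ∧ (x ≠ 0 → v x = 1)

lemma exists_GJ {σ : K →+* ℝ} (hG : GoodPlaces σ) {f : MvPolynomial (Fin n) K}
    {z : Fin n → K} (hs : Sqf f z) {J : Finset (Fin n)}
    (hD : ∀ j ∈ J, Dg f j 2 ∨ Db (lk f z (Pi.single j 1)) ≠ 0) :
    ∃ (v : AbsoluteValue K ℝ) (p : ℕ), Pl v p ∧ WA σ v ∧ (∀ d, v (f.coeff d) ≤ 1) ∧
      GJ v f J z := by
  classical
  obtain ⟨w, hw0, hw⟩ := hs
  obtain ⟨v, p, hp, hwa, h⟩ := hG ((f.support.image fun d => f.coeff d) ∪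
    (Finset.univ.image z) ∪ {MvPolynomial.eval z f} ∪
    (Finset.univ.image fun i => Db (lk f z (Pi.single i 1))))
  refine ⟨v, p, hp, hwa, ?_, ?_, ?_, ?_⟩
  · intro d
    by_cases hd : d ∈ f.support
    · exact (h _ (by simp only [Finset.mem_union]; exact Or.inl (Or.inl (Or.inl
        (Finset.mem_image_of_mem _ hd))))).1
    · rw [MvPolynomial.notMem_support_iff.1 hd, map_zero]
      exact zero_le_one
  · intro l
    exact (h _ (by simp only [Finset.mem_union]; exact Or.inl (Or.inl (Or.inr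
        (Finset.mem_image_of_mem _ (Finset.mem_univ l)))))).1
  · refine (h _ (by simp only [Finset.mem_union]; exact Or.inl (Or.inr
        (Finset.mem_singleton_self _)))).2 ?_
    rw [← hw]
    exact pow_ne_zero 2 hw0
  · intro i hi
    rcases hD i hi with h1 | h1
    · exact Or.inl h1
    · right
      have hm := Finset.mem_image_of_mem (fun i => Db (lk f z (Pi.single i 1))) (Finset.mem_univ i)
      exact (h _ (Finset.mem_union_right _ hm)).2 h1

/-- **Activating one more direction** -/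
theorem chain_step [CharZero K] {σ : K →+* ℝ} (hG : GoodPlaces σ)
    {f : MvPolynomial (Fin n) K} (h4 : ∀ i, Dg f i 4) {J : Finset (Fin n)} {k : Fin n}
    {z : Fin n → K} (hs : Sqf f z) (hT : ∀ j ∈ J, NDx f j z)
    (hk : Dg f k 2 ∨ ∃ y : Fin n → K, (∀ l, l ∉ J → y l = z l) ∧
      Inf (lk f y (Pi.single k 1))) {ε : ℝ} (hε : 0 < ε) :
    ∃ z' : Fin n → K, (∀ l, l ∉ J → z' l = z l) ∧ Sqf f z' ∧
      (∀ j ∈ insert k J, NDx f j z') ∧ ∀ l, |σ (z' l) - σ (z l)| < ε := by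
  classical
  by_cases hk2 : Dg f k 2
  · refine ⟨z, fun _ _ => rfl, hs, fun j hj => ?_, fun l => by simpa using hε⟩
    rcases Finset.mem_insert.1 hj with rfl | hj
    · exact Or.inl hk2
    · exact hT j hj
  obtain ⟨y, hy, hinf⟩ := hk.resolve_left hk2
  -- first stage: the discriminant
  obtain ⟨v, p, hp, hwa, hf, hgj⟩ := exists_GJ hG hs (J := J) (fun j hj => by
    rcases hT j hj with h | h
    · exact Or.inl h
    · exact Or.inr h.1)
  obtain ⟨z1, a0, -, a2, a3, a4, a5⟩ := generic σ hp hwa hf h4 (Finset.Subset.refl J)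
    (LP_Db f k) J.toList (fun i hi => Finset.mem_toList.1 hi) z hgj hs hT
    ⟨y, fun l hl => hy l (fun h => hl (Finset.mem_toList.2 h)), hinf.1⟩ (ε / 2) (half_pos hε)
  -- second stage: the orders
  obtain ⟨v', p', hp', hwa', hf', hgj'⟩ := exists_GJ hG a2 (J := insert k J) (fun j hj => by
    rcases Finset.mem_insert.1 hj with rfl | hj
    · exact Or.inr a5
    · rcases a3 j hj with h | h
      · exact Or.inl h
      · exact Or.inr h.1)
  obtain ⟨N, hN⟩ := hp'.torsion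
  obtain ⟨z2, b0, b1, b2, b3, b4, b5⟩ := generic σ hp' hwa' hf' h4 (Finset.subset_insert k J)
    (LP_GN f N k) J.toList (fun i hi => Finset.mem_toList.1 hi) z1 hgj' a2 a3
    ⟨y, fun l hl => by
      have hl' : l ∉ J := fun h => hl (Finset.mem_toList.2 h)
      rw [hy l hl', a0 l hl'], GN_of_Inf hinf N⟩ (ε / 2) (half_pos hε)
  refine ⟨z2, fun l hl => by rw [b0 l hl, a0 l hl], b2, fun j hj => ?_, fun l => ?_⟩
  · rcases Finset.mem_insert.1 hj with rfl | hj
    · exact Or.inr (Inf_of_GN hp'.na hN hf' (Finset.mem_insert_self _ _) b1 hk2 b2 b5)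
    · exact b3 j hj
  · have h1 := a4 l
    have h2 := b4 l
    have := abs_sub_le (σ (z2 l)) (σ (z1 l)) (σ (z l))
    linarith

/-- nondegenerate after moves in the preceding directions -/
def Chn (f : MvPolynomial (Fin n) K) (z : Fin n → K) : Prop :=
  ∀ k : Fin n, Dg f k 2 ∨ ∃ y : Fin n → K, (∀ l, k ≤ l → y l = z l) ∧
    Inf (lk f y (Pi.single k 1))

/-- **Points with chains are limits of nondegenerate points.** -/
theorem chain_limit [CharZero K] {σ : K →+* ℝ} (hG : GoodPlaces σ)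
    {f : MvPolynomial (Fin n) K} (h4 : ∀ i, Dg f i 4)
    {z : Fin n → K} (hs : Sqf f z) (hC : Chn f z) {ε : ℝ} (hε : 0 < ε) :
    ∃ z' ∈ TX f, ∀ l, |σ (z' l) - σ (z l)| < ε := by
  classical
  have key : ∀ m : ℕ, m ≤ n → ∀ ε : ℝ, 0 < ε → ∃ z' : Fin n → K,
      (∀ l : Fin n, m ≤ (l : ℕ) → z' l = z l) ∧ Sqf f z' ∧
      (∀ j : Fin n, (j : ℕ) < m → NDx f j z') ∧ ∀ l, |σ (z' l) - σ (z l)| < ε := by
    intro m
    induction m with
    | zero =>
      intro _ ε hε
      exact ⟨z, fun _ _ => rfl, hs, fun j hj => absurd hj (Nat.not_lt_zero _),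
        fun l => by simpa using hε⟩
    | succ m ih =>
      intro hm ε hε
      obtain ⟨z1, a1, a2, a3, a4⟩ := ih (Nat.le_of_succ_le hm) (ε / 2) (half_pos hε)
      obtain ⟨z2, b1, b2, b3, b4⟩ := chain_step hG h4 (J := Finset.univ.filter fun j : Fin n =>
        (j : ℕ) < m) (k := ⟨m, hm⟩) a2 (fun j hj => a3 j (by simpa using hj)) (by
          rcases hC ⟨m, hm⟩ with h | ⟨y, hy, h⟩
          · exact Or.inl h
          · refine Or.inr ⟨y, fun l hl => ?_, h⟩
            have hl' : m ≤ (l : ℕ) := by simpa using hl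
            rw [hy l hl', a1 l hl']) (half_pos hε)
      refine ⟨z2, fun l hl => ?_, b2, fun j hj => b3 j ?_, fun l => ?_⟩
      · rw [b1 l (by simp; omega), a1 l (by omega)]
      · rcases Nat.lt_succ_iff_lt_or_eq.1 hj with h | h
        · exact Finset.mem_insert_of_mem (by simpa using h)
        · exact Finset.mem_insert.2 (Or.inl (Fin.ext h))
      · have h1 := a4 l
        have h2 := b4 l
        have := abs_sub_le (σ (z2 l)) (σ (z1 l)) (σ (z l))
        linarith
  obtain ⟨z', h1, h2, h3, h4'⟩ := key n le_rfl ε hε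
  exact ⟨z', ⟨h2, fun j => h3 j j.2⟩, h4'⟩

end Pool.Agent.Y718.X
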