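import Pool.Agent.Y718.Zero

/-!
# Restrictions of forms of degree four to lines, over a general field
-/

set_option autoImplicit false
set_option linter.unusedSectionVars false
set_option linter.unusedSimpArgs false

open MvPolynomial

namespace Pool.Agent.Y718.SF

section ring

variable {R S : Type*} [CommRing R] [CommRing S] {σ : Type*}

/-- restriction to a line -/
noncomputable def lg (F : MvPolynomial σ R) (Z U : σ → R) : Polynomial R :=
  aeval (fun i => Polynomial.C (Z i) + Polynomial.C (U i) * Polynomial.X) F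

lemma lg_eval (F : MvPolynomial σ R) (Z U : σ → R) (t : R) :
    (lg F Z U).eval t = eval (Z + t • U) F := by
  unfold lg
  induction F using MvPolynomial.induction_on with
  | C c => simp
  | add p q hp hq => simp [hp, hq]
  | mul_X p j hp =>
    simp only [map_mul, aeval_X, Polynomial.eval_mul, hp, Polynomial.eval_add, Polynomial.eval_C,
      Polynomial.eval_X, eval_X, Pi.add_apply, Pi.smul_apply, smul_eq_mul]
    ring

lemma lg_map (φ : R →+* S) (F : MvPolynomial σ R) (Z U : σ → R) :
    lg (map φ F) (fun i => φ (Z i)) (fun i => φ (U i)) = (lg F Z U).map φ := by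
  unfold lg
  induction F using MvPolynomial.induction_on with
  | C c => simp
  | add p q hp hq => simp [hp, hq]
  | mul_X p j hp => simp [hp]

lemma lg_mul_X (F : MvPolynomial σ R) (i : σ) (Z U : σ → R) :
    lg (F * X i) Z U = lg F Z U * (Polynomial.C (Z i) + Polynomial.C (U i) * Polynomial.X) := by
  simp [lg]

lemma lg_add (F G : MvPolynomial σ R) (Z U : σ → R) : lg (F + G) Z U = lg F Z U + lg G Z U := by
  simp [lg]

lemma lg_C (c : R) (Z U : σ → R) : lg (C c : MvPolynomial σ R) Z U = Polynomial.C c := by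
  simp [lg]

lemma lg_natDegree [Nontrivial R] (F : MvPolynomial σ R) (Z U : σ → R) :
    (lg F Z U).natDegree ≤ F.totalDegree := by
  classical
  rw [lg, aeval_def, eval₂_eq]
  refine Polynomial.natDegree_sum_le_of_forall_le _ _ fun d hd => ?_
  refine (Polynomial.natDegree_C_mul_le _ _).trans ?_
  refine (Polynomial.natDegree_prod_le _ _).trans ?_
  have h1 : ∀ i ∈ d.support, ((Polynomial.C (Z i) + Polynomial.C (U i) * Polynomial.X : Polynomial R) ^ d i).natDegree
      ≤ d i := by
    intro i _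
    refine Polynomial.natDegree_pow_le.trans ?_
    have : (Polynomial.C (Z i) + Polynomial.C (U i) * Polynomial.X : Polynomial R).natDegree ≤ 1 := by
      rw [add_comm]
      exact Polynomial.natDegree_linear_le
    calc d i * _ ≤ d i * 1 := Nat.mul_le_mul_left _ this
      _ = d i := mul_one _
  refine (Finset.sum_le_sum h1).trans ?_
  exact le_totalDegree hd

/-- the cubic covariant -/
def gB (q : Polynomial R) : R :=
  q.coeff 1 ^ 3 - 4 * q.coeff 0 * q.coeff 1 * q.coeff 2 + 8 * q.coeff 0 ^ 2 * q.coeff 3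

/-- the quartic covariant -/
def gT (q : Polynomial R) : R :=
  (q.coeff 1 ^ 2 - 4 * q.coeff 0 * q.coeff 2) ^ 2 - 64 * q.coeff 0 ^ 3 * q.coeff 4

/-- the quadratic covariant -/
def gQ (q : Polynomial R) : R := 4 * q.coeff 0 * q.coeff 2 - q.coeff 1 ^ 2

lemma gB_map (φ : R →+* S) (q : Polynomial R) : gB (q.map φ) = φ (gB q) := by
  simp only [gB, Polynomial.coeff_map, map_add, map_sub, map_mul, map_pow, map_ofNat]

lemma gT_map (φ : R →+* S) (q : Polynomial R) : gT (q.map φ) = φ (gT q) := by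
  simp only [gT, Polynomial.coeff_map, map_add, map_sub, map_mul, map_pow, map_ofNat]

end ring

section field

variable {K : Type*} [Field K] [CharZero K] {σ : Type*}

lemma coeff_of_eval {P : Polynomial K} {c0 c1 c2 c3 c4 : K}
    (h : ∀ s : K, P.eval s = c0 + c1 * s + c2 * s ^ 2 + c3 * s ^ 3 + c4 * s ^ 4) :
    P.coeff 0 = c0 ∧ P.coeff 1 = c1 ∧ P.coeff 2 = c2 ∧ P.coeff 3 = c3 ∧ P.coeff 4 = c4 := by
  have hP : P = Polynomial.C c0 + Polynomial.C c1 * Polynomial.X + Polynomial.C c2 * Polynomial.X ^ 2 +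
      Polynomial.C c3 * Polynomial.X ^ 3 + Polynomial.C c4 * Polynomial.X ^ 4 := by
    apply Polynomial.funext
    intro s
    rw [h]
    simp
  rw [hP]
  refine ⟨?_, ?_, ?_, ?_, ?_⟩ <;>
    simp [Polynomial.coeff_X, Polynomial.coeff_C, Polynomial.coeff_X_pow]

lemma eval_of_deg {P : Polynomial K} (hP : P.natDegree ≤ 4) (s : K) :
    P.eval s = P.coeff 0 + P.coeff 1 * s + P.coeff 2 * s ^ 2 + P.coeff 3 * s ^ 3 + P.coeff 4 * s ^ 4 := by
  rw [Polynomial.eval_eq_sum_range' (n := 5) (by omega)]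
  simp [Finset.sum_range_succ]

lemma lg_deg {F : MvPolynomial σ K} (hF : F.IsHomogeneous 4) (Z U : σ → K) :
    (lg F Z U).natDegree ≤ 4 := by
  refine (lg_natDegree F Z U).trans ?_
  exact hF.totalDegree_le

lemma hom_smul {F : MvPolynomial σ K} (hF : F.IsHomogeneous 4) (x : K) (Z : σ → K) :
    eval (x • Z) F = x ^ 4 * eval Z F := by
  classical
  rw [eval_eq, eval_eq, Finset.mul_sum]
  refine Finset.sum_congr rfl fun d hd => ?_
  have h1 : ∑ i ∈ d.support, d i = 4 := by
    have := hF (mem_support_iff.mp hd)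
    simpa [Finsupp.weight_apply, Finsupp.sum] using this
  have h2 : ∏ i ∈ d.support, (x • Z) i ^ d i = x ^ 4 * ∏ i ∈ d.support, Z i ^ d i := by
    rw [← h1, ← Finset.prod_pow_eq_pow_sum, ← Finset.prod_mul_distrib]
    refine Finset.prod_congr rfl fun i _ => ?_
    rw [Pi.smul_apply, smul_eq_mul, mul_pow]
  rw [h2]
  ring

/-- the binary form -/
lemma bin {F : MvPolynomial σ K} (hF : F.IsHomogeneous 4) (Z U : σ → K) (x s : K) :
    eval (x • Z + s • U) F = (lg F Z U).coeff 0 * x ^ 4 + (lg F Z U).coeff 1 * x ^ 3 * s +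
      (lg F Z U).coeff 2 * x ^ 2 * s ^ 2 + (lg F Z U).coeff 3 * x * s ^ 3 + (lg F Z U).coeff 4 * s ^ 4 := by
  have h1 : ∀ x : K, x ≠ 0 → eval (x • Z + s • U) F = (lg F Z U).coeff 0 * x ^ 4 +
      (lg F Z U).coeff 1 * x ^ 3 * s + (lg F Z U).coeff 2 * x ^ 2 * s ^ 2 +
      (lg F Z U).coeff 3 * x * s ^ 3 + (lg F Z U).coeff 4 * s ^ 4 := by
    intro x hx
    have e : x • Z + s • U = x • (Z + (s / x) • U) := by
      rw [smul_add, smul_smul, mul_div_cancel₀ _ hx]
    rw [e, hom_smul hF, ← lg_eval, eval_of_deg (lg_deg hF Z U)]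
    field_simp
  have h2 : (lg F (s • U) Z) = Polynomial.C ((lg F Z U).coeff 0) * Polynomial.X ^ 4 +
      Polynomial.C ((lg F Z U).coeff 1 * s) * Polynomial.X ^ 3 +
      Polynomial.C ((lg F Z U).coeff 2 * s ^ 2) * Polynomial.X ^ 2 +
      Polynomial.C ((lg F Z U).coeff 3 * s ^ 3) * Polynomial.X + Polynomial.C ((lg F Z U).coeff 4 * s ^ 4) := by
    apply Polynomial.eq_of_infinite_eval_eq
    refine Set.Infinite.mono ?_ (Set.Finite.infinite_compl (Set.finite_singleton (0 : K)))
    intro x hx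
    simp only [Set.mem_ofPred_eq]
    rw [lg_eval, add_comm, h1 x hx]
    simp
    ring
  have h3 := congrArg (Polynomial.eval x) h2
  rw [lg_eval, add_comm] at h3
  rw [h3]
  simp
  ring

lemma coeff_four {F : MvPolynomial σ K} (hF : F.IsHomogeneous 4) (Z U : σ → K) :
    (lg F Z U).coeff 4 = eval U F := by
  have := bin hF Z U 0 1
  rw [zero_smul, one_smul, zero_add] at this
  rw [this]
  ring

/-- the basic identity -/
lemma basic {F : MvPolynomial σ K} (hF : F.IsHomogeneous 4) (Z U : σ → K) :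
    64 * eval Z F ^ 3 * eval U F = gQ (lg F Z U) ^ 2 - gT (lg F Z U) := by
  have h0 : (lg F Z U).coeff 0 = eval Z F := by
    rw [Polynomial.coeff_zero_eq_eval_zero, lg_eval, zero_smul, add_zero]
  rw [← coeff_four hF Z U, ← h0, gQ, gT]
  ring

/-- the coefficients after a shift along `Z` -/
lemma shift_coeff {F : MvPolynomial σ K} (hF : F.IsHomogeneous 4) (Z U : σ → K) (l : K) :
    (lg F Z (U + l • Z)).coeff 0 = (lg F Z U).coeff 0 ∧
    (lg F Z (U + l • Z)).coeff 1 = (lg F Z U).coeff 1 + 4 * l * (lg F Z U).coeff 0 ∧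
    (lg F Z (U + l • Z)).coeff 2 = (lg F Z U).coeff 2 + 3 * l * (lg F Z U).coeff 1 +
      6 * l ^ 2 * (lg F Z U).coeff 0 ∧
    (lg F Z (U + l • Z)).coeff 3 = (lg F Z U).coeff 3 + 2 * l * (lg F Z U).coeff 2 +
      3 * l ^ 2 * (lg F Z U).coeff 1 + 4 * l ^ 3 * (lg F Z U).coeff 0 ∧
    (lg F Z (U + l • Z)).coeff 4 = (lg F Z U).coeff 4 + l * (lg F Z U).coeff 3 +
      l ^ 2 * (lg F Z U).coeff 2 + l ^ 3 * (lg F Z U).coeff 1 + l ^ 4 * (lg F Z U).coeff 0 := by
  apply coeff_of_eval
  intro s
  rw [lg_eval]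
  have e : Z + s • (U + l • Z) = (1 + l * s) • Z + s • U := by
    rw [smul_add, smul_smul, add_smul, one_smul, mul_comm s l]
    abel
  rw [e, bin hF]
  ring

lemma gB_shift {F : MvPolynomial σ K} (hF : F.IsHomogeneous 4) (Z U : σ → K) (l : K) :
    gB (lg F Z (U + l • Z)) = gB (lg F Z U) := by
  obtain ⟨h0, h1, h2, h3, -⟩ := shift_coeff hF Z U l
  rw [gB, gB, h0, h1, h2, h3]
  ring

lemma gT_shift {F : MvPolynomial σ K} (hF : F.IsHomogeneous 4) (Z U : σ → K) (l : K) :
    gT (lg F Z (U + l • Z)) = gT (lg F Z U) - 8 * l * (lg F Z U).coeff 0 * gB (lg F Z U) := by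
  obtain ⟨h0, h1, h2, h3, h4⟩ := shift_coeff hF Z U l
  rw [gT, gT, gB, h0, h1, h2, h4]
  ring

lemma gQ_shift {F : MvPolynomial σ K} (hF : F.IsHomogeneous 4) (Z U : σ → K) (l : K) :
    gQ (lg F Z (U + l • Z)) = gQ (lg F Z U) + 4 * l * (lg F Z U).coeff 0 * (lg F Z U).coeff 1 +
      8 * l ^ 2 * (lg F Z U).coeff 0 ^ 2 := by
  obtain ⟨h0, h1, h2, h3, h4⟩ := shift_coeff hF Z U l
  rw [gQ, gQ, h0, h1, h2]
  ring

lemma smul_coeff (F : MvPolynomial σ K) (Z U : σ → K) (c : K) (k : ℕ) :
    (lg F Z (c • U)).coeff k = (lg F Z U).coeff k * c ^ k := by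
  have : lg F Z (c • U) = (lg F Z U).comp (Polynomial.C c * Polynomial.X) := by
    induction F using MvPolynomial.induction_on with
    | C c => simp [lg]
    | add p q hp hq => rw [lg_add, lg_add, hp, hq, Polynomial.add_comp]
    | mul_X p j hp =>
      rw [lg_mul_X, lg_mul_X, hp, Polynomial.mul_comp]
      congr 1
      simp
      ring
  rw [this, Polynomial.comp_C_mul_X_coeff]

lemma gB_smul (F : MvPolynomial σ K) (Z U : σ → K) (c : K) :
    gB (lg F Z (c • U)) = c ^ 3 * gB (lg F Z U) := by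
  simp only [gB, smul_coeff]
  ring

lemma gT_smul (F : MvPolynomial σ K) (Z U : σ → K) (c : K) :
    gT (lg F Z (c • U)) = c ^ 4 * gT (lg F Z U) := by
  simp only [gT, smul_coeff]
  ring

lemma gQ_smul (F : MvPolynomial σ K) (Z U : σ → K) (c : K) :
    gQ (lg F Z (c • U)) = c ^ 2 * gQ (lg F Z U) := by
  simp only [gQ, smul_coeff]
  ring

end field

/-! ### polynomial functions -/

section poly

variable {K : Type*} [Field K] {ι κ : Type*}

/-- polynomial functions -/
def PK (f : (ι → K) → K) : Prop := ∃ p : MvPolynomial ι K, ∀ v, f v = eval v p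

namespace PK

lemma const (c : K) : PK (fun _ : ι → K => c) := ⟨C c, fun v => by simp⟩
lemma coord (i : ι) : PK (fun v : ι → K => v i) := ⟨X i, fun v => by simp⟩
lemma add {f g : (ι → K) → K} (hf : PK f) (hg : PK g) : PK (fun v => f v + g v) := by
  obtain ⟨p, hp⟩ := hf
  obtain ⟨q, hq⟩ := hg
  exact ⟨p + q, fun v => by simp [hp, hq]⟩
lemma sub {f g : (ι → K) → K} (hf : PK f) (hg : PK g) : PK (fun v => f v - g v) := by
  obtain ⟨p, hp⟩ := hf
  obtain ⟨q, hq⟩ := hg
  exact ⟨p - q, fun v => by simp [hp, hq]⟩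
lemma mul {f g : (ι → K) → K} (hf : PK f) (hg : PK g) : PK (fun v => f v * g v) := by
  obtain ⟨p, hp⟩ := hf
  obtain ⟨q, hq⟩ := hg
  exact ⟨p * q, fun v => by simp [hp, hq]⟩
lemma pow {f : (ι → K) → K} (hf : PK f) (n : ℕ) : PK (fun v => f v ^ n) := by
  obtain ⟨p, hp⟩ := hf
  exact ⟨p ^ n, fun v => by simp [hp]⟩
lemma sum {α : Type*} (s : Finset α) {f : α → (ι → K) → K} (hf : ∀ a ∈ s, PK (f a)) :
    PK (fun v => ∑ a ∈ s, f a v) := by
  classical
  induction s using Finset.induction_on with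
  | empty => simpa using PK.const 0
  | insert a s ha ih =>
    have : (fun v => ∑ b ∈ insert a s, f b v) = fun v => f a v + ∑ b ∈ s, f b v := by
      funext v; rw [Finset.sum_insert ha]
    rw [this]
    exact (hf a (by simp)).add (ih fun b hb => hf b (by simp [hb]))
lemma comp {f : (κ → K) → K} (hf : PK f) {φ : κ → (ι → K) → K} (hφ : ∀ k, PK (φ k)) :
    PK (fun v => f fun k => φ k v) := by
  choose p hp using hφ
  obtain ⟨P, hP⟩ := hf
  refine ⟨bind₁ p P, fun v => ?_⟩
  have : eval v (bind₁ p P) = eval (fun k => eval v (p k)) P := by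
    rw [← aeval_eq_eval, ← aeval_eq_eval, aeval_bind₁]
  have h2 : (fun k => φ k v) = fun k => eval v (p k) := funext fun k => hp k v
  show f (fun k => φ k v) = _
  rw [this, hP, h2]

end PK

/-- the coefficients of the restrictions are polynomial functions of the pair -/
lemma PK_coeff (F : MvPolynomial ι K) (k : ℕ) :
    PK (fun y : ι ⊕ ι → K => (lg F (fun i => y (Sum.inl i)) (fun i => y (Sum.inr i))).coeff k) := by
  induction F using MvPolynomial.induction_on generalizing k with
  | C c =>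
    have : (fun y : ι ⊕ ι → K => (lg (C c) (fun i => y (Sum.inl i))
        (fun i => y (Sum.inr i))).coeff k) = fun _ => if k = 0 then c else 0 := by
      funext y
      simp [lg, Polynomial.coeff_C]
    rw [this]
    exact PK.const _
  | add p q hp hq =>
    obtain ⟨P, hP⟩ := (hp k).add (hq k)
    refine ⟨P, fun y => ?_⟩
    rw [← hP]
    show (lg (p + q) _ _).coeff k = _
    rw [lg_add, Polynomial.coeff_add]
  | mul_X p j hp =>
    have h1 : ∀ y : ι ⊕ ι → K, (lg (p * X j) (fun i => y (Sum.inl i))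
        (fun i => y (Sum.inr i))).coeff k =
        (lg p (fun i => y (Sum.inl i)) (fun i => y (Sum.inr i))).coeff k * y (Sum.inl j) +
        (if k = 0 then 0 else (lg p (fun i => y (Sum.inl i)) (fun i => y (Sum.inr i))).coeff (k - 1)) *
          y (Sum.inr j) := by
      intro y
      have h2 : lg (p * X j) (fun i => y (Sum.inl i)) (fun i => y (Sum.inr i)) =
          lg p (fun i => y (Sum.inl i)) (fun i => y (Sum.inr i)) * Polynomial.C (y (Sum.inl j)) +
          (lg p (fun i => y (Sum.inl i)) (fun i => y (Sum.inr i)) * Polynomial.X) *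
            Polynomial.C (y (Sum.inr j)) := by
        rw [lg_mul_X]
        ring
      rw [h2, Polynomial.coeff_add, Polynomial.coeff_mul_C, Polynomial.coeff_mul_C]
      congr 2
      rcases k with _ | k
      · simp
      · simp
    obtain ⟨P, hP⟩ : PK (fun y : ι ⊕ ι → K => (lg p (fun i => y (Sum.inl i)) (fun i => y (Sum.inr i))).coeff k * y (Sum.inl j) +
        (if k = 0 then 0 else (lg p (fun i => y (Sum.inl i)) (fun i => y (Sum.inr i))).coeff (k - 1)) *
          y (Sum.inr j)) := by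
      refine ((hp k).mul (PK.coord _)).add (PK.mul ?_ (PK.coord _))
      by_cases h : k = 0
      · simp only [h, if_true]; exact PK.const 0
      · simp only [if_neg h]; exact hp (k - 1)
    exact ⟨P, fun y => (h1 y).trans (hP y)⟩

lemma PKz_coeff (F : MvPolynomial ι K) (U : ι → K) (k : ℕ) : PK (fun Z : ι → K => (lg F Z U).coeff k) := by
  have := (PK_coeff F k).comp (φ := fun (i : ι ⊕ ι) (Z : ι → K) => Sum.elim Z U i) (fun i => by
    rcases i with i | i
    · exact PK.coord i
    · exact PK.const _)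
  exact this

lemma PKu_coeff (F : MvPolynomial ι K) (Z : ι → K) (k : ℕ) : PK (fun U : ι → K => (lg F Z U).coeff k) := by
  have := (PK_coeff F k).comp (φ := fun (i : ι ⊕ ι) (U : ι → K) => Sum.elim Z U i) (fun i => by
    rcases i with i | i
    · exact PK.const _
    · exact PK.coord i)
  exact this

end poly

/-- a polynomial function over the complex numbers which vanishes at all real points vanishes -/
lemma real_to_complex {ι : Type*} {g : (ι → ℂ) → ℂ} (hg : PK g)
    (h : ∀ U : ι → ℝ, g (fun i => (U i : ℂ)) = 0) (U : ι → ℂ) : g U = 0 := by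
  obtain ⟨p, hp⟩ := hg
  have h0 : p = 0 := by
    refine funext_set (fun _ => Set.range ((↑) : ℝ → ℂ)) (fun _ =>
      Set.infinite_range_of_injective Complex.ofReal_injective) fun x hx => ?_
    choose y hy using fun i => hx i (Set.mem_univ i)
    have : x = fun i => (y i : ℂ) := funext fun i => (hy i).symm
    rw [this, ← hp, h, map_zero]
  rw [hp, h0, map_zero]

end Pool.Agent.Y718.SF
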