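import Pool.Agent.Y720.MZ.EC

/-!
# Iterated duplication on the abscissas, and torsion points
-/

set_option autoImplicit false
set_option linter.unusedSectionVars false
set_option linter.unusedVariables false

open WeierstrassCurve Pool.Agent.Y720.MZ

namespace Pool.Agent.Y718.X

section ring

variable {R : Type*} [CommRing R]

/-- the iterated duplication in homogeneous coordinates -/
def it (a b c X Z : R) : ℕ → R × R
  | 0 => (X, Z)
  | k + 1 => ((it a b c X Z k).1 ^ 4 - 2 * b * (it a b c X Z k).1 ^ 2 * (it a b c X Z k).2 ^ 2 -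
      8 * c * (it a b c X Z k).1 * (it a b c X Z k).2 ^ 3 +
      (b ^ 2 - 4 * a * c) * (it a b c X Z k).2 ^ 4,
      4 * (it a b c X Z k).2 * ((it a b c X Z k).1 ^ 3 +
        a * (it a b c X Z k).1 ^ 2 * (it a b c X Z k).2 +
        b * (it a b c X Z k).1 * (it a b c X Z k).2 ^ 2 + c * (it a b c X Z k).2 ^ 3))

/-- vanishes at the points of small order -/
def Gd (a b c X Z : R) (N : ℕ) : R :=
  (∏ k ∈ Finset.range (N + 1), (it a b c X Z k).2) *
    ∏ i ∈ Finset.range (N + 1), ∏ j ∈ Finset.range i,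
      ((it a b c X Z i).1 * (it a b c X Z j).2 - (it a b c X Z j).1 * (it a b c X Z i).2)

lemma map_it {S : Type*} [CommRing S] (φ : R →+* S) (a b c X Z : R) (k : ℕ) :
    it (φ a) (φ b) (φ c) (φ X) (φ Z) k = (φ (it a b c X Z k).1, φ (it a b c X Z k).2) := by
  induction k with
  | zero => rfl
  | succ k ih =>
    simp only [it, ih, map_add, map_sub, map_mul, map_pow, map_ofNat]

lemma map_Gd {S : Type*} [CommRing S] (φ : R →+* S) (a b c X Z : R) (N : ℕ) :
    Gd (φ a) (φ b) (φ c) (φ X) (φ Z) N = φ (Gd a b c X Z N) := by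
  simp only [Gd, map_it, map_mul, map_prod, map_sub]

end ring

variable {K : Type*} [Field K] [DecidableEq K] [CharZero K]

/-- one duplication -/
lemma it_step {a b c x y X Z : K} (h : (cv a b c).toAffine.Nonsingular x y) (hxZ : x * Z = X)
    (hZ : Z ≠ 0) (k : ℕ) :
    (4 * Z * (X ^ 3 + a * X ^ 2 * Z + b * X * Z ^ 2 + c * Z ^ 3) = Z ^ 4 * (2 * y) ^ 2) := by
  have heq := (cv_ns.1 h).1
  rw [← hxZ]
  linear_combination (-4 * Z ^ 4) * heq

lemma it_all {a b c x y X Z : K} (h : (cv a b c).toAffine.Nonsingular x y) (hxZ : x * Z = X)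
    (hZ : Z ≠ 0) (k : ℕ) (hk : (∀ j, j ≤ k → (it a b c X Z j).2 ≠ 0) ∨
      ∀ j, j ≤ k → 2 ^ j • (.some x y h : Pt a b c) ≠ 0) :
    ∃ x' y' h', 2 ^ k • (.some x y h : Pt a b c) = .some x' y' h' ∧
      x' * (it a b c X Z k).2 = (it a b c X Z k).1 ∧ (it a b c X Z k).2 ≠ 0 := by
  induction k with
  | zero => exact ⟨x, y, h, by rw [pow_zero, one_smul], hxZ, hZ⟩
  | succ k ih =>
    obtain ⟨x', y', h', he, hx', hZ'⟩ := ih (by
      rcases hk with hk | hk
      · exact Or.inl fun j hj => hk j (by omega)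
      · exact Or.inr fun j hj => hk j (by omega))
    set X' := (it a b c X Z k).1 with hX'
    set Z' := (it a b c X Z k).2 with hZ''
    have e1 : (it a b c X Z (k + 1)).2 = 4 * Z' * (X' ^ 3 + a * X' ^ 2 * Z' + b * X' * Z' ^ 2 +
      c * Z' ^ 3) := rfl
    have e2 : (it a b c X Z (k + 1)).1 = X' ^ 4 - 2 * b * X' ^ 2 * Z' ^ 2 - 8 * c * X' * Z' ^ 3 +
      (b ^ 2 - 4 * a * c) * Z' ^ 4 := rfl
    have e3 := it_step h' hx' hZ' k
    have hy : 2 * y' ≠ 0 := by
      intro h0
      rcases hk with hk | hk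
      · apply hk (k + 1) le_rfl
        rw [e1, e3, h0]
        ring
      · apply hk (k + 1) le_rfl
        rw [pow_succ, mul_comm, mul_smul, he, two_smul, dbl_zero h' h0]
    obtain ⟨h'', hd⟩ := dbl_mk h' hy (ℓ := (3 * x' ^ 2 + 2 * a * x' + b) / (2 * y'))
      (div_mul_cancel₀ _ hy)
    refine ⟨_, _, h'', ?_, ?_, ?_⟩
    · rw [pow_succ, mul_comm, mul_smul, he, two_smul, hd]
    · rw [e1, e3, e2]
      have heq := (cv_ns.1 h').1
      have hy' : y' ≠ 0 := right_ne_zero_of_mul hy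
      rw [← hx']
      field_simp
      linear_combination (-4 * (2 * x' + a)) * heq
    · rw [e1, e3]
      exact mul_ne_zero (pow_ne_zero 4 hZ') (pow_ne_zero 2 hy)

/-- at a point of infinite order -/
theorem Gd_ne {a b c x y X Z : K} (h : (cv a b c).toAffine.Nonsingular x y) (hxZ : x * Z = X)
    (hZ : Z ≠ 0) (hP : ∀ n : ℕ, n ≠ 0 → n • (.some x y h : Pt a b c) ≠ 0) (N : ℕ) :
    Gd a b c X Z N ≠ 0 := by
  have key := fun k => it_all h hxZ hZ k (Or.inr fun j _ => hP _ (by positivity))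
  unfold Gd
  refine mul_ne_zero (Finset.prod_ne_zero_iff.2 fun k _ => ?_) (Finset.prod_ne_zero_iff.2
    fun i _ => Finset.prod_ne_zero_iff.2 fun j hj => ?_)
  · obtain ⟨x', y', h', he, hx', hZ'⟩ := key k
    exact hZ'
  · rw [Finset.mem_range] at hj
    obtain ⟨x1, y1, h1, he1, hx1, hZ1⟩ := key i
    obtain ⟨x2, y2, h2, he2, hx2, hZ2⟩ := key j
    intro h0
    have hx : x1 = x2 := by
      rw [← hx1, ← hx2] at h0
      have : (x1 - x2) * ((it a b c X Z i).2 * (it a b c X Z j).2) = 0 := by linear_combination h0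
      rcases mul_eq_zero.1 this with h3 | h3
      · exact sub_eq_zero.1 h3
      · exact absurd h3 (mul_ne_zero hZ1 hZ2)
    subst hx
    have hlt : 2 ^ j < 2 ^ i := Nat.pow_lt_pow_right (by norm_num) hj
    rcases eq_or_neg h1 h2 with h3 | h3
    · rw [← he1, ← he2] at h3
      apply hP (2 ^ i - 2 ^ j) (by omega)
      have : 2 ^ i • (.some x y h : Pt a b c) = (2 ^ i - 2 ^ j) • (.some x y h : Pt a b c) +
          2 ^ j • (.some x y h : Pt a b c) := by
        rw [← add_smul]; congr 1; omega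
      rw [this] at h3
      exact add_eq_right.mp h3
    · rw [← he1, ← he2] at h3
      apply hP (2 ^ i + 2 ^ j) (by positivity)
      rw [add_smul, h3, neg_add_cancel]

/-- at a point of small order -/
theorem Gd_zero {a b c x y X Z : K} (h : (cv a b c).toAffine.Nonsingular x y) (hxZ : x * Z = X)
    (hZ : Z ≠ 0) {m N : ℕ} (hm : m ≠ 0) (hmN : m ≤ N) (hP : m • (.some x y h : Pt a b c) = 0) :
    Gd a b c X Z N = 0 := by
  by_contra hne
  unfold Gd at hne
  have hne1 := left_ne_zero_of_mul hne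
  have hne2 := right_ne_zero_of_mul hne
  rw [Finset.prod_ne_zero_iff] at hne1 hne2
  have : NeZero m := ⟨hm⟩
  obtain ⟨i, j, hij, he⟩ := Fintype.exists_ne_map_eq_of_card_lt
    (fun k : Fin (N + 1) => ((2 ^ (k : ℕ) : ℕ) : ZMod m)) (by
      rw [Fintype.card_fin, ZMod.card]; omega)
  wlog hlt : j < i generalizing i j with H
  · exact H j i hij.symm he.symm (lt_of_le_of_ne (not_lt.1 hlt) hij)
  have hlt' : (j : ℕ) < (i : ℕ) := hlt
  have hi := i.2
  have hj := j.2
  have hall : ∀ k, k ≤ N → ∃ x' y' h', 2 ^ k • (.some x y h : Pt a b c) = .some x' y' h' ∧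
      x' * (it a b c X Z k).2 = (it a b c X Z k).1 ∧ (it a b c X Z k).2 ≠ 0 := fun k hk =>
    it_all h hxZ hZ k (Or.inl fun j hj => hne1 j (Finset.mem_range.2 (by omega)))
  obtain ⟨x1, y1, h1, he1, hx1, hZ1⟩ := hall i (by omega)
  obtain ⟨x2, y2, h2, he2, hx2, hZ2⟩ := hall j (by omega)
  have hsm : ∀ l : ℕ, l • (.some x y h : Pt a b c) = (l % m) • (.some x y h : Pt a b c) := by
    intro l
    conv_lhs => rw [← Nat.div_add_mod l m, add_smul, mul_comm, mul_smul, hP, smul_zero, zero_add]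
  have hPP : 2 ^ (i : ℕ) • (.some x y h : Pt a b c) = 2 ^ (j : ℕ) • (.some x y h : Pt a b c) := by
    rw [hsm, hsm (2 ^ (j : ℕ)), (ZMod.natCast_eq_natCast_iff' _ _ _).1 he]
  rw [he1, he2, Affine.Point.some.injEq] at hPP
  have h5 := hne2 i (Finset.mem_range.2 hi)
  rw [Finset.prod_ne_zero_iff] at h5
  apply h5 j (Finset.mem_range.2 hlt')
  rw [← hx1, ← hx2, hPP.1]
  ring

end Pool.Agent.Y718.X
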