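import Pool.Agent.Y718.RealDen

/-!
# The density lemma for square values of polynomials of degree at most four
-/

set_option autoImplicit false
set_option linter.unusedSectionVars false
set_option linter.unusedSimpArgs false

open Set Filter Topology Polynomial

namespace Pool.Agent.Y718

/-- rational parameters with square value -/
def Sq (q : ℚ[X]) : Set ℚ := {t : ℚ | ∃ w : ℚ, w ^ 2 = q.eval t}

/-- real closure of a set of rational numbers -/
def rc (S : Set ℚ) : Set ℝ := closure ((fun t : ℚ => (t : ℝ)) '' S)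

lemma rc_mono {S T : Set ℚ} (h : S ⊆ T) : rc S ⊆ rc T := closure_mono (image_mono h)

lemma mem_rc {S : Set ℚ} {t : ℚ} (h : t ∈ S) : (t : ℝ) ∈ rc S := subset_closure ⟨t, h, rfl⟩

lemma rc_univ : rc Set.univ = Set.univ := by
  rw [rc, image_univ]
  exact Rat.denseRange_cast.closure_range

lemma mem_rc_of_seq {S : Set ℚ} {x : ℝ} {u : ℕ → ℚ} (hu : ∀ᶠ n in atTop, u n ∈ S)
    (h : Tendsto (fun n => (u n : ℝ)) atTop (𝓝 x)) : x ∈ rc S :=
  mem_closure_of_tendsto h (hu.mono fun n hn => ⟨u n, hn, rfl⟩)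

lemma seq_rat (x : ℝ) : ∃ u : ℕ → ℚ, Tendsto (fun n => (u n : ℝ)) atTop (𝓝 x) := by
  have : x ∈ closure (Set.range (fun t : ℚ => (t : ℝ))) := Rat.denseRange_cast x
  obtain ⟨v, hv, hv'⟩ := mem_closure_iff_seq_limit.1 this
  choose u hu using hv
  exact ⟨u, hv'.congr fun n => (hu n).symm⟩

/-- conics -/
lemma conic_den {f1 f2 w0 : ℚ} (hw0 : w0 ≠ 0) {x : ℝ} (hx0 : x ≠ 0)
    (hx : 0 < (w0 : ℝ) ^ 2 + f1 * x + f2 * x ^ 2) :
    x ∈ rc {t : ℚ | ∃ w : ℚ, w ^ 2 = w0 ^ 2 + f1 * t + f2 * t ^ 2} := by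
  set W := Real.sqrt ((w0 : ℝ) ^ 2 + f1 * x + f2 * x ^ 2) with hW
  have hW2 : W ^ 2 = (w0 : ℝ) ^ 2 + f1 * x + f2 * x ^ 2 := Real.sq_sqrt hx.le
  set s1 : ℝ := (W - w0) / x with hs1
  have hs : W = w0 + s1 * x := by rw [hs1]; field_simp; ring
  have key : x * (s1 ^ 2 - f2) = f1 - 2 * w0 * s1 := by
    apply mul_left_cancel₀ hx0
    rw [hs] at hW2
    linear_combination hW2
  by_cases h : s1 ^ 2 - f2 = 0
  · have hw0R : (w0 : ℝ) ≠ 0 := by exact_mod_cast hw0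
    have h1 : s1 = ((f1 / (2 * w0) : ℚ) : ℝ) := by
      push_cast
      field_simp
      rw [h, mul_zero] at key
      linear_combination key
    have h2 : f2 = (f1 / (2 * w0)) ^ 2 := by
      have : (f2 : ℝ) = (((f1 / (2 * w0)) ^ 2 : ℚ) : ℝ) := by
        push_cast at h1 ⊢
        rw [← h1]
        linear_combination -h
      exact_mod_cast this
    have h3 : {t : ℚ | ∃ w : ℚ, w ^ 2 = w0 ^ 2 + f1 * t + f2 * t ^ 2} = Set.univ := by
      rw [Set.eq_univ_iff_forall]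
      intro t
      refine ⟨w0 + f1 / (2 * w0) * t, ?_⟩
      rw [h2]
      field_simp
      ring
    rw [h3, rc_univ]
    exact mem_univ _
  · obtain ⟨s, hs'⟩ := seq_rat s1
    have hlim : Tendsto (fun n => (((f1 - 2 * w0 * s n) / ((s n) ^ 2 - f2) : ℚ) : ℝ)) atTop (𝓝 x) := by
      have h1 : x = (f1 - 2 * w0 * s1) / (s1 ^ 2 - f2) := by
        rw [← key]
        field_simp
      rw [h1]
      push_cast
      exact (tendsto_const_nhds.sub (tendsto_const_nhds.mul hs')).div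
        ((hs'.pow 2).sub tendsto_const_nhds) h
    have hne : ∀ᶠ n in atTop, (s n) ^ 2 - f2 ≠ 0 := by
      have := ((hs'.pow 2).sub (tendsto_const_nhds (x := (f2 : ℝ)))).eventually_ne h
      filter_upwards [this] with n hn h0
      apply hn
      exact_mod_cast h0
    refine mem_rc_of_seq ?_ hlim
    filter_upwards [hne] with n hn
    refine ⟨w0 + s n * ((f1 - 2 * w0 * s n) / ((s n) ^ 2 - f2)), ?_⟩
    field_simp
    ring

/-- the degenerate quartics -/
lemma deg_den {f1 f2 f3 f4 w0 : ℚ} (hw0 : w0 ≠ 0) (hn : ¬ NDg f1 f2 f3 f4 w0) {x : ℝ} (hx0 : x ≠ 0)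
    (hx : 0 < (w0 : ℝ) ^ 2 + f1 * x + f2 * x ^ 2 + f3 * x ^ 3 + f4 * x ^ 4) :
    x ∈ rc (sv f1 f2 f3 f4 w0) := by
  by_cases hdeg : f3 ≠ 0 ∨ f4 ≠ 0
  swap
  · push Not at hdeg
    obtain ⟨rfl, rfl⟩ := hdeg
    have := conic_den (f1 := f1) (f2 := f2) hw0 hx0 (by simpa using hx)
    simpa [sv] using this
  by_cases hsq : ∀ α β : ℚ, ¬ (f1 = 2 * w0 * β ∧ f2 = β ^ 2 + 2 * w0 * α ∧ f3 = 2 * α * β ∧ f4 = α ^ 2)
  swap
  · push Not at hsq
    obtain ⟨α, β, rfl, rfl, rfl, rfl⟩ := hsq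
    have h3 : sv (2 * w0 * β) (β ^ 2 + 2 * w0 * α) (2 * α * β) (α ^ 2) w0 = Set.univ := by
      rw [Set.eq_univ_iff_forall]
      intro t
      refine ⟨w0 + β * t + α * t ^ 2, ?_⟩
      ring
    rw [h3, rc_univ]
    exact mem_univ _
  by_cases hdbl : ∀ x : ℚ, ¬ (w0 ^ 2 + f1 * x + f2 * x ^ 2 + f3 * x ^ 3 + f4 * x ^ 4 = 0 ∧
    f1 + 2 * f2 * x + 3 * f3 * x ^ 2 + 4 * f4 * x ^ 3 = 0)
  · exact absurd ⟨hw0, hdeg, hsq, hdbl⟩ hn
  · push Not at hdbl
    obtain ⟨r, h1, h2⟩ := hdbl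
    have hr : r ≠ 0 := by
      rintro rfl
      apply hw0
      have : w0 ^ 2 = 0 := by linear_combination h1
      exact pow_eq_zero_iff (by norm_num) |>.mp this
    have h3 : (w0 / r) ^ 2 = f2 + 2 * r * f3 + 3 * r ^ 2 * f4 := by
      field_simp
      linear_combination h1 - r * h2
    have hid : ∀ u : ℚ, w0 ^ 2 + f1 * u + f2 * u ^ 2 + f3 * u ^ 3 + f4 * u ^ 4 =
        (u - r) ^ 2 * ((w0 / r) ^ 2 + (f3 + 2 * r * f4) * u + f4 * u ^ 2) := by
      intro u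
      rw [h3]
      linear_combination h1 + (u - r) * h2
    have h1R : (w0 : ℝ) ^ 2 + f1 * r + f2 * r ^ 2 + f3 * r ^ 3 + f4 * r ^ 4 = 0 := by
      exact_mod_cast h1
    have h2R : (f1 : ℝ) + 2 * f2 * r + 3 * f3 * r ^ 2 + 4 * f4 * r ^ 3 = 0 := by
      exact_mod_cast h2
    have h3R : ((w0 / r : ℚ) : ℝ) ^ 2 = f2 + 2 * r * f3 + 3 * r ^ 2 * f4 := by
      exact_mod_cast h3
    have hidR : (w0 : ℝ) ^ 2 + f1 * x + f2 * x ^ 2 + f3 * x ^ 3 + f4 * x ^ 4 =
        (x - r) ^ 2 * (((w0 / r : ℚ) : ℝ) ^ 2 + ((f3 + 2 * r * f4 : ℚ) : ℝ) * x + f4 * x ^ 2) := by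
      rw [h3R]
      push_cast
      linear_combination h1R + (x - r) * h2R
    have hpos : 0 < ((w0 / r : ℚ) : ℝ) ^ 2 + ((f3 + 2 * r * f4 : ℚ) : ℝ) * x + f4 * x ^ 2 := by
      rw [hidR] at hx
      by_contra hc
      push Not at hc
      nlinarith [sq_nonneg (x - (r : ℝ)), mul_nonneg (sq_nonneg (x - (r : ℝ))) (neg_nonneg.mpr hc)]
    refine rc_mono ?_ (conic_den (div_ne_zero hw0 hr) hx0 hpos)
    rintro t ⟨w, hw⟩
    refine ⟨(t - r) * w, ?_⟩
    rw [hid t, mul_pow, hw]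

/-- coefficients -/
lemma eval_four {q : ℚ[X]} (hq : q.natDegree ≤ 4) (u : ℚ) :
    q.eval u = q.coeff 0 + q.coeff 1 * u + q.coeff 2 * u ^ 2 + q.coeff 3 * u ^ 3 +
      q.coeff 4 * u ^ 4 := by
  rw [Polynomial.eval_eq_sum_range' (Nat.lt_succ_of_le hq)]
  simp [Finset.sum_range_succ]

lemma aeval_four {q : ℚ[X]} (hq : q.natDegree ≤ 4) (u : ℝ) :
    aeval u q = q.coeff 0 + q.coeff 1 * u + q.coeff 2 * u ^ 2 + q.coeff 3 * u ^ 3 +
      q.coeff 4 * u ^ 4 := by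
  rw [Polynomial.aeval_eq_sum_range' (Nat.lt_succ_of_le hq)]
  simp [Finset.sum_range_succ, Rat.smul_def]

lemma aeval_cast (q : ℚ[X]) (u : ℚ) : aeval (u : ℝ) q = ((q.eval u : ℚ) : ℝ) := by
  have := Polynomial.aeval_algebraMap_apply_eq_algebraMap_eval (A := ℝ) u q
  simpa using this

/-- translation -/
lemma rc_shift {S T : Set ℚ} (b : ℚ) (h : ∀ t, t ∈ S ↔ t + b ∈ T) {x : ℝ} :
    x ∈ rc S ↔ x + b ∈ rc T := by
  have : rc T = (Homeomorph.addRight (b : ℝ)) '' rc S := by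
    rw [rc, rc, Homeomorph.image_closure, ← image_comp]
    congr 1
    ext y
    constructor
    · rintro ⟨t, ht, rfl⟩
      refine ⟨t - b, ?_, by simp⟩
      rw [h]
      simpa using ht
    · rintro ⟨t, ht, rfl⟩
      exact ⟨t + b, (h t).mp ht, by simp⟩
  rw [this]
  constructor
  · intro hx
    exact ⟨x, hx, rfl⟩
  · rintro ⟨y, hy, hxy⟩
    have : y = x := by simpa using hxy
    rwa [← this]

/-- **Local density of square values.** -/
theorem rc_open {q : ℚ[X]} (hq : q.natDegree ≤ 4) (hinf : (Sq q).Infinite) {x : ℝ}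
    (hx : x ∈ rc (Sq q)) (hxp : 0 < aeval x q) : rc (Sq q) ∈ 𝓝 x := by
  have hq0 : q ≠ 0 := by
    rintro rfl
    simp at hxp
  -- a base point
  obtain ⟨b, hb, hbx, hb0⟩ : ∃ b ∈ Sq q, (b : ℝ) ≠ x ∧ q.eval b ≠ 0 := by
    by_contra hcon
    push Not at hcon
    apply hinf
    have hf : {b : ℚ | (b : ℝ) = x}.Finite := by
      refine Set.Subsingleton.finite ?_
      intro b hb c hc
      simp only [Set.mem_ofPred_eq] at hb hc
      exact_mod_cast hb.trans hc.symm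
    have hr : {b : ℚ | q.eval b = 0}.Finite := by
      have := Polynomial.eq_zero_of_infinite_isRoot q
      by_contra hc
      exact hq0 (this hc)
    refine (hf.union hr).subset ?_
    intro b hb
    by_cases h : (b : ℝ) = x
    · left; exact h
    · right; exact hcon b hb h
  obtain ⟨w0, hw0⟩ := hb
  set p : ℚ[X] := q.comp (X + C b) with hp
  have hpd : p.natDegree ≤ 4 := by
    rw [hp, Polynomial.natDegree_comp]
    simpa using hq
  have hpe : ∀ u, p.eval u = q.eval (u + b) := by intro u; simp [hp]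
  have hpa : ∀ u : ℝ, aeval u p = aeval (u + b) q := by
    intro u
    rw [hp, Polynomial.aeval_comp]
    simp
  have hp0 : p.coeff 0 = w0 ^ 2 := by
    rw [Polynomial.coeff_zero_eq_eval_zero, hpe, zero_add, hw0]
  have hw00 : w0 ≠ 0 := by
    rintro rfl
    apply hb0
    rw [← hw0]
    norm_num
  have hsv : ∀ t, t ∈ sv (p.coeff 1) (p.coeff 2) (p.coeff 3) (p.coeff 4) w0 ↔ t + b ∈ Sq q := by
    intro t
    simp only [sv, Sq, Set.mem_ofPred_eq]
    rw [← hpe, eval_four hpd, hp0]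
  have hval : ∀ u : ℝ, (w0 : ℝ) ^ 2 + p.coeff 1 * u + p.coeff 2 * u ^ 2 + p.coeff 3 * u ^ 3 +
      p.coeff 4 * u ^ 4 = aeval (u + b) q := by
    intro u
    rw [← hpa, aeval_four hpd, hp0]
    push_cast
    ring
  have hx' : x - b ≠ 0 := by
    intro h
    apply hbx
    linarith
  have hshift : ∀ y : ℝ, y - b ∈ rc (sv (p.coeff 1) (p.coeff 2) (p.coeff 3) (p.coeff 4) w0) ↔
      y ∈ rc (Sq q) := by
    intro y
    rw [rc_shift b hsv]
    simp
  by_cases hN : NDg (p.coeff 1) (p.coeff 2) (p.coeff 3) (p.coeff 4) w0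
  · have hinf' : (sv (p.coeff 1) (p.coeff 2) (p.coeff 3) (p.coeff 4) w0).Infinite := by
      intro hf
      apply hinf
      refine (hf.image (fun t => t + b)).subset ?_
      intro t ht
      refine ⟨t - b, ?_, by simp⟩
      rw [hsv]
      simpa using ht
    have h1 := sv_open hN hinf' ((hshift x).mpr hx) hx' (by rw [hval]; simpa using hxp)
    have hc2 : Continuous fun y : ℝ => y - (b : ℝ) := by fun_prop
    have h2 : Tendsto (fun y : ℝ => y - (b : ℝ)) (𝓝 x) (𝓝 (x - b)) := hc2.tendsto x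
    have h3 := h2 h1
    filter_upwards [h3] with y hy
    exact (hshift y).mp hy
  · have hc : Continuous fun y : ℝ => aeval y q := by fun_prop
    have h1 : ∀ᶠ y in 𝓝 x, 0 < aeval y q := hc.continuousAt.eventually (lt_mem_nhds hxp)
    have h2 : ∀ᶠ y : ℝ in 𝓝 x, y - (b : ℝ) ≠ 0 := by
      have : Continuous fun y : ℝ => y - (b : ℝ) := by fun_prop
      exact this.continuousAt.eventually_ne hx'
    filter_upwards [h1, h2] with y hy1 hy2
    rw [← hshift]
    exact deg_den hw00 hN hy2 (by rw [hval]; simpa using hy1)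

lemma rc_nonneg {q : ℚ[X]} {x : ℝ} (hx : x ∈ rc (Sq q)) : 0 ≤ aeval x q := by
  have hc : IsClosed {y : ℝ | 0 ≤ aeval y q} := by
    have : Continuous fun y : ℝ => aeval y q := by fun_prop
    exact isClosed_le continuous_const this
  refine closure_minimal ?_ hc hx
  rintro _ ⟨t, ⟨w, hw⟩, rfl⟩
  simp only [Set.mem_ofPred_eq]
  rw [aeval_cast, ← hw]
  positivity

/-- **Density lemma.** -/
theorem den_conn {q : ℚ[X]} (hq : q.natDegree ≤ 4) (hinf : (Sq q).Infinite) {J : Set ℝ}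
    (hJ : IsPreconnected J) (hJ0 : ∀ x ∈ J, aeval x q ≠ 0) {x0 : ℝ} (hx0 : x0 ∈ J)
    (hb : x0 ∈ rc (Sq q)) : J ⊆ rc (Sq q) := by
  have hcl : IsClosed (rc (Sq q)) := isClosed_closure
  have hopen : ∀ x ∈ J, x ∈ rc (Sq q) → x ∈ interior (rc (Sq q)) := by
    intro x hx hx'
    rw [mem_interior_iff_mem_nhds]
    exact rc_open hq hinf hx' (lt_of_le_of_ne (rc_nonneg hx') (Ne.symm (hJ0 x hx)))
  refine (hJ.subset_of_closure_inter_subset isOpen_interior ⟨x0, hx0, hopen x0 hx0 hb⟩ ?_).trans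
    interior_subset
  rintro x ⟨h1, h2⟩
  refine hopen x h2 ?_
  exact closure_minimal interior_subset hcl h1

end Pool.Agent.Y718
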