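import Pool.Agent.Y718.Gen

/-!
# Final forms
-/

set_option autoImplicit false
set_option linter.unusedSectionVars false
set_option linter.unusedSimpArgs false

open Set Filter Topology Pool.Agent.H581R2 Pool.Agent.TH729.SQ

namespace Pool.Agent.Y718

/-- the double cover `w² = f(z)`, the coordinate `0` is `w` -/
def dcov {n : ℕ} (f : MvPolynomial (Fin n) ℚ) : Set (Fin (n + 1) → ℚ) :=
  {u | u 0 ^ 2 = MvPolynomial.eval (fun k => u k.succ) f}

lemma equiv_SA {ι κ : Type} [Finite ι] [Finite κ] (e : ι ≃ κ) {D : Set (ι → ℚ)}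
    (hD : SA (closure (rl D))) {T : Set (κ → ℚ)} (hT : ∀ y, y ∈ T ↔ (fun i => y (e i)) ∈ D) :
    SA (closure (rl T)) := by
  refine img_SA (κ := Empty) hD (q := fun _ => 1) (PQ.const 1)
    (p := fun k v => v (Sum.inl (e.symm k))) (fun k => PQ.coord _) fun y => ?_
  rw [hT]
  constructor
  · intro h
    refine ⟨_, h, fun x => x.elim, one_ne_zero, fun k => ?_⟩
    simp
  · rintro ⟨x, hx, u, -, hy⟩
    have : (fun i => y (e i)) = x := by
      funext i
      rw [hy (e i)]
      simp
    rw [this]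
    exact hx

section rep

variable {r : ℕ}

/-- sums of families -/
noncomputable def Fam.add (F G : Fam 1 r) : Fam 1 r where
  Q := fun j k => F.Q j k + G.Q j k
  L := fun j => F.L j + G.L j
  C := F.C + G.C

lemma Fam.add_val (F G : Fam 1 r) (x : Fin 1 → ℚ) (y : Fin r → ℚ) :
    (F.add G).val x y = F.val x y + G.val x y := by
  simp only [Fam.val, qf, Fam.q, Fam.l, Fam.c, Fam.add, map_add, add_mul, Finset.sum_add_distrib]
  ring

lemma Fam.add_deg {F G : Fam 1 r} (hF : F.Deg4) (hG : G.Deg4) : (F.add G).Deg4 := by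
  intro i
  refine ⟨fun j k => ?_, fun j => ?_, ?_⟩
  · exact (MvPolynomial.degreeOf_add_le i _ _).trans (max_le ((hF i).1 j k) ((hG i).1 j k))
  · exact (MvPolynomial.degreeOf_add_le i _ _).trans (max_le ((hF i).2.1 j) ((hG i).2.1 j))
  · exact (MvPolynomial.degreeOf_add_le i _ _).trans (max_le (hF i).2.2 (hG i).2.2)

/-- the value is represented by a family -/
def RepF (g : ℚ → (Fin r → ℚ) → ℚ) : Prop := ∃ F : Fam 1 r, F.Deg4 ∧ ∀ x y, F.val (Fam.par x) y = g x y

lemma deg_mon (c : ℚ) {a : ℕ} (ha : a ≤ 4) (i : Fin 1) :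
    (MvPolynomial.C c * MvPolynomial.X 0 ^ a : MvPolynomial (Fin 1) ℚ).degreeOf i ≤ 4 := by
  refine (MvPolynomial.degreeOf_C_mul_le _ _ _).trans ?_
  refine (MvPolynomial.degreeOf_pow_le _ _ _).trans ?_
  rw [Subsingleton.elim i 0, MvPolynomial.degreeOf_X]
  simpa using ha

lemma RepF.mon (c : ℚ) {a : ℕ} (ha : a ≤ 4) {s : Multiset (Fin r)} (hs : s.card ≤ 2) :
    RepF (fun x y => c * (x ^ a * (s.map y).prod)) := by
  classical
  set P : MvPolynomial (Fin 1) ℚ := MvPolynomial.C c * MvPolynomial.X 0 ^ a with hP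
  have hPe : ∀ x : ℚ, MvPolynomial.eval (Fam.par x) P = c * x ^ a := by
    intro x
    simp [hP]
  have hd := deg_mon c ha
  have h0 : s.card = 0 ∨ s.card = 1 ∨ s.card = 2 := by omega
  rcases h0 with h | h | h
  · rw [Multiset.card_eq_zero] at h
    refine ⟨⟨fun _ _ => 0, fun _ => 0, P⟩, ?_, fun x y => ?_⟩
    · intro i
      refine ⟨fun j k => by simp, fun j => by simp, hd i⟩
    · simp [Fam.val, qf, Fam.q, Fam.l, Fam.c, hPe, h]
  · obtain ⟨j, hj⟩ := Multiset.card_eq_one.1 h
    refine ⟨⟨fun _ _ => 0, fun k => if k = j then P else 0, 0⟩, ?_, fun x y => ?_⟩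
    · intro i
      refine ⟨fun j k => by simp, fun k => ?_, by simp⟩
      show (if k = j then P else 0).degreeOf i ≤ 4
      split_ifs
      · exact hd i
      · simp
    · simp only [Fam.val, qf, Fam.q, Fam.l, Fam.c, map_zero, zero_mul, Finset.sum_const_zero, zero_add,
        add_zero]
      rw [Finset.sum_eq_single j]
      · rw [if_pos rfl, hPe, hj]
        simp
        ring
      · intro k _ hk
        rw [if_neg hk]
        simp
      · simp
  · obtain ⟨j, k, hj⟩ := Multiset.card_eq_two.1 h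
    refine ⟨⟨fun j' k' => if j' = j ∧ k' = k then P else 0, fun _ => 0, 0⟩, ?_, fun x y => ?_⟩
    · intro i
      refine ⟨fun j' k' => ?_, fun k => by simp, by simp⟩
      show (if j' = j ∧ k' = k then P else 0).degreeOf i ≤ 4
      split_ifs
      · exact hd i
      · simp
    · simp only [Fam.val, qf, Fam.q, Fam.l, Fam.c, map_zero, zero_mul, Finset.sum_const_zero, zero_add,
        add_zero]
      rw [Finset.sum_eq_single j]
      · rw [Finset.sum_eq_single k]
        · rw [if_pos ⟨rfl, rfl⟩, hPe, hj]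
          simp
          ring
        · intro k' _ hk
          rw [if_neg (fun h => hk h.2)]
          simp
        · simp
      · intro j' _ hj'
        refine Finset.sum_eq_zero fun k' _ => ?_
        rw [if_neg (fun h => hj' h.1)]
        simp
      · simp

lemma RepF.sum {α : Type*} (s : Finset α) {g : α → ℚ → (Fin r → ℚ) → ℚ} (hg : ∀ a ∈ s, RepF (g a)) :
    RepF (fun x y => ∑ a ∈ s, g a x y) := by
  classical
  induction s using Finset.induction_on with
  | empty =>
    refine ⟨⟨fun _ _ => 0, fun _ => 0, 0⟩, ?_, fun x y => ?_⟩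
    · intro i
      exact ⟨fun j k => by simp, fun j => by simp, by simp⟩
    · simp [Fam.val, qf, Fam.q, Fam.l, Fam.c]
  | insert a s ha ih =>
    obtain ⟨F, hF, hF'⟩ := hg a (by simp)
    obtain ⟨G, hG, hG'⟩ := ih fun b hb => hg b (by simp [hb])
    refine ⟨F.add G, Fam.add_deg hF hG, fun x y => ?_⟩
    show _ = ∑ a ∈ insert a s, g a x y
    rw [Fam.add_val, hF', hG', Finset.sum_insert ha]

theorem rep_line (f : MvPolynomial (Fin (r + 1)) ℚ) (h0 : f.degreeOf 0 ≤ 4)
    (hy : ∀ d ∈ f.support, ∑ j : Fin r, d j.succ ≤ 2) :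
    RepF (fun x y => MvPolynomial.eval (Fin.cons x y : Fin (r + 1) → ℚ) f) := by
  classical
  have heq : (fun (x : ℚ) (y : Fin r → ℚ) => MvPolynomial.eval (Fin.cons x y : Fin (r + 1) → ℚ) f) =
      fun x y => ∑ d ∈ f.support, f.coeff d * (x ^ (d 0) *
        (((Finsupp.equivFunOnFinite.symm (fun j : Fin r => d j.succ) : Fin r →₀ ℕ)).toMultiset.map y).prod) := by
    funext x y
    rw [MvPolynomial.eval_eq']
    refine Finset.sum_congr rfl fun d _ => ?_
    rw [Pool.Agent.TH729.CC.prod_map_toMultiset, Fin.prod_univ_succ, Finsupp.prod_fintype _ _ (by simp)]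
    simp
  rw [heq]
  refine RepF.sum _ fun d hd => RepF.mon _ ((MvPolynomial.monomial_le_degreeOf 0 hd).trans h0) ?_
  rw [Finsupp.card_toMultiset, Finsupp.sum_fintype _ _ (by simp)]
  simpa using hy d hd

end rep

/-- **Double covers, quadratic in all but one variable.** -/
theorem line_final {r : ℕ} (f : MvPolynomial (Fin (r + 1)) ℚ) (h0 : f.degreeOf 0 ≤ 4)
    (hy : ∀ d ∈ f.support, ∑ j : Fin r, d j.succ ≤ 2) : SA (closure (rl (dcov f))) := by
  obtain ⟨F, hF, hF'⟩ := rep_line f h0 hy
  have h := Fam.line_SA hF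
  let e : Option (Fin 1 ⊕ Fin r) ≃ Fin (r + 2) :=
    { toFun := fun o => match o with
        | none => 0
        | some (Sum.inl _) => 1
        | some (Sum.inr j) => j.succ.succ
      invFun := fun k => Fin.cases none (fun k => Fin.cases (some (Sum.inl 0)) (fun j => some (Sum.inr j)) k) k
      left_inv := by
        rintro (_ | (i | j))
        · rfl
        · rw [Subsingleton.elim i 0]; rfl
        · rfl
      right_inv := by
        intro k
        refine Fin.cases rfl (fun k => ?_) k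
        refine Fin.cases rfl (fun j => rfl) k }
  refine equiv_SA e h fun y => ?_
  have h1 : (fun k : Fin (r + 1) => y k.succ) = Fin.cons (y 1) (fun j : Fin r => y j.succ.succ) := by
    funext k
    refine Fin.cases rfl (fun j => rfl) k
  have h2 : MvPolynomial.eval (fun k : Fin (r + 1) => y k.succ) f =
      F.val (Fam.par (y 1)) (fun j : Fin r => y j.succ.succ) := by
    rw [h1]
    exact (hF' _ _).symm
  show (y 0 ^ 2 = MvPolynomial.eval (fun k : Fin (r + 1) => y k.succ) f) ↔ _
  rw [h2]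
  exact Iff.rfl

/-- the nondegenerate part of the double cover, the coordinate `0` is `w` -/
def dcovG {n : ℕ} (f : MvPolynomial (Fin n) ℚ) : Set (Fin (n + 1) → ℚ) :=
  {u | u ∈ dcov f ∧ (∀ i, Nondeg f i fun k => u k.succ) ∧
    (u 0 ≠ 0 ∨ ∃ (v : Fin n → ℚ) (A B : ℚ), B ≠ 0 ∧ ∀ s : ℚ,
      MvPolynomial.eval ((fun k => u k.succ) + s • v) f = A * s ^ 2 + B * s)}

theorem gen_final {n : ℕ} (f : MvPolynomial (Fin n) ℚ) (hf : ∀ i, f.degreeOf i ≤ 4) :
    SA (closure (rl (dcovG f))) := by
  have h := coverG_SA hf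
  let e : Option (Fin n) ≃ Fin (n + 1) := (finSuccEquiv n).symm
  refine equiv_SA e h fun y => ?_
  have e0 : e none = 0 := finSuccEquiv_symm_none
  have e1 : ∀ k, e (some k) = k.succ := fun k => finSuccEquiv_symm_some k
  simp only [dcovG, dcov, coverG, Set.mem_ofPred_eq, e0, e1]
  tauto

end Pool.Agent.Y718
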