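import Pool.Agent.Y718.GoodDir
import Pool.Agent.Y718.FinE

/-!
# Double covers, with quartic subspaces of directions
-/

set_option autoImplicit false
set_option linter.unusedSectionVars false
set_option linter.unusedSimpArgs false

open Set Filter Topology Pool.Agent.H581R2 Pool.Agent.TH729.SQ

namespace Pool.Agent.Y718

variable {n : ℕ}

/-- the second type of nondegeneracy: a nondegenerate plane in a subspace of directions along which
`f` is quartic -/
def QNondeg (f : MvPolynomial (Fin n) ℚ) (i : Fin n) (z : Fin n → ℚ) : Prop :=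
  ∃ V : Submodule ℚ (Fin n → ℚ), Pi.single i 1 ∈ V ∧ QuarticAlong f V ∧
    ∃ v ∈ V, ∃ u ∈ V, NDP f z v u

/-- nondegeneracy of one of the two types -/
def Nondeg2 (f : MvPolynomial (Fin n) ℚ) (i : Fin n) (z : Fin n → ℚ) : Prop :=
  Nondeg f i z ∨ QNondeg f i z

lemma nondeg2_line {f : MvPolynomial (Fin n) ℚ} {i : Fin n} {z : Fin n → ℚ} (h : Nondeg2 f i z)
    (u : Fin n → ℚ) : {τ : ℚ | ¬ Nondeg2 f i (z + τ • u)}.Finite := by
  rcases h with h | ⟨V, hi, hV, v, hv, u', hu', h⟩
  · refine (nondeg_line h u).subset ?_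
    intro τ hτ hN
    exact hτ (Or.inl hN)
  · refine (NDP_line h u).subset ?_
    intro τ hτ hN
    exact hτ (Or.inr ⟨V, hi, hV, v, hv, u', hu', hN⟩)

lemma nondeg2_all_line {f : MvPolynomial (Fin n) ℚ} {z : Fin n → ℚ} (h : ∀ i, Nondeg2 f i z)
    (u : Fin n → ℚ) : {τ : ℚ | ¬ ∀ i, Nondeg2 f i (z + τ • u)}.Finite := by
  refine (Set.Finite.biUnion (Set.finite_univ (α := Fin n)) fun i _ => nondeg2_line (h i) u).subset ?_
  intro τ hτ
  simp only [Set.mem_ofPred_eq, not_forall] at hτ
  obtain ⟨i, hi⟩ := hτ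
  simp only [Set.mem_iUnion]
  exact ⟨i, mem_univ _, hi⟩

lemma nondeg2_all_upd {f : MvPolynomial (Fin n) ℚ} {z : Fin n → ℚ} (h : ∀ i, Nondeg2 f i z)
    (k : Fin n) : {t : ℚ | ¬ ∀ i, Nondeg2 f i (Function.update z k t)}.Finite := by
  have h1 := nondeg2_all_line h (Pi.single k 1)
  refine (h1.image (fun τ => z k + τ)).subset ?_
  intro t ht
  refine ⟨t - z k, ?_, by ring⟩
  simp only [Set.mem_ofPred_eq] at ht ⊢
  have : z + (t - z k) • (Pi.single k 1 : Fin n → ℚ) = Function.update z k t := by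
    funext j
    by_cases hj : j = k
    · subst hj; simp
    · simp [Function.update_of_ne hj, Pi.single_eq_of_ne hj]
  rw [this]
  exact ht

/-- the rational parameters -/
def SG2 (f : MvPolynomial (Fin n) ℚ) : Set (Fin n → ℚ) :=
  {z | (∀ i, Nondeg2 f i z) ∧ ∃ w : ℚ, w ≠ 0 ∧ w ^ 2 = MvPolynomial.eval z f}

/-- moving one coordinate -/
lemma g2move_one {f : MvPolynomial (Fin n) ℚ} (hf : ∀ i, f.degreeOf i ≤ 4) {x : Fin n → ℝ} {δ : ℝ}
    (hbox : ∀ b : Fin n → ℝ, (∀ i, |b i - x i| < δ) → (0 : ℝ) < MvPolynomial.aeval b f)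
    {z : Fin n → ℚ} (hz : z ∈ SG2 f) (hzb : ∀ i, |(z i : ℝ) - x i| < δ) (i : Fin n) {s : ℝ}
    (hs : |s - x i| < δ) {ε : ℝ} (hε : 0 < ε) {O : Set (Fin n → ℝ)} (hO : IsOpen O)
    (hzO : (fun i => (z i : ℝ)) ∈ O) :
    ∃ (z1 : Fin n → ℚ) (t : ℚ), (fun i => (z1 i : ℝ)) ∈ O ∧ Function.update z1 i t ∈ SG2 f ∧
      |(t : ℝ) - s| < ε ∧ ∀ k, |(Function.update z1 i t k : ℝ) - x k| < δ := by
  classical
  obtain ⟨hzN, w, hw, hwz⟩ := hz
  -- it suffices to find a nearby point with dense square values on the coordinate line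
  have suff : ∀ z1 : Fin n → ℚ, (fun i => (z1 i : ℝ)) ∈ O → (∀ k, |(z1 k : ℝ) - x k| < δ) →
      (∀ i, Nondeg2 f i z1) → (∀ t : ℝ, |t - x i| < δ → t ∈ rc (Sq (sp z1 i f))) →
      ∃ (z1 : Fin n → ℚ) (t : ℚ), (fun i => (z1 i : ℝ)) ∈ O ∧ Function.update z1 i t ∈ SG2 f ∧
      |(t : ℝ) - s| < ε ∧ ∀ k, |(Function.update z1 i t k : ℝ) - x k| < δ := by
    intro z1 h1 h2 h3 h4
    have hsJ : s ∈ Ioo (x i - δ) (x i + δ) := by
      have := abs_lt.mp hs
      constructor <;> linarith [this.1, this.2]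
    have hJ : Ioo (x i - δ) (x i + δ) ⊆ rc (Sq (sp z1 i f)) := by
      intro t ht
      apply h4
      rw [abs_lt]
      constructor <;> linarith [ht.1, ht.2]
    obtain ⟨t, ⟨wt, hwt⟩, htJ, htε, htE⟩ := Fam.pick isOpen_Ioo hJ (nondeg2_all_upd h3 i) hsJ hε
    have hin : ∀ k, |(Function.update z1 i t k : ℝ) - x k| < δ := by
      intro k
      by_cases hk : k = i
      · subst hk
        rw [Function.update_self, abs_lt]
        constructor <;> linarith [htJ.1, htJ.2]
      · rw [Function.update_of_ne hk]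
        exact h2 k
    refine ⟨z1, t, h1, ⟨?_, wt, ?_, ?_⟩, htε, hin⟩
    · by_contra h
      exact htE h
    · rintro rfl
      have h5 := hbox (fun k => (Function.update z1 i t k : ℝ)) hin
      rw [Pool.Agent.TH729.SQ.aeval_cast, ← sp_eval, ← hwt] at h5
      norm_num at h5
    · rw [hwt, sp_eval]
  -- values on the coordinate line through a nearby point
  have hline : ∀ z1 : Fin n → ℚ, (∀ k, |(z1 k : ℝ) - x k| < δ) → ∀ t : ℝ, |t - x i| < δ →
      (0 : ℝ) < Polynomial.aeval t (sp z1 i f) := by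
    intro z1 h1 t ht
    rw [Fam.sp_aeval]
    apply hbox
    intro k
    by_cases hk : k = i
    · subst hk
      rw [Function.update_self]; exact ht
    · rw [Function.update_of_ne hk]
      exact h1 k
  have hself : ∀ z1 : Fin n → ℚ, (sp z1 i f).eval (z1 i) = MvPolynomial.eval z1 f := by
    intro z1
    rw [sp_eval, Function.update_eq_self]
  rcases hzN i with (hlow | ⟨v, hv, hq, hgood⟩) | ⟨V, hiV, hV, v1, hv1, u1, hu1, hND⟩
  · -- low degree: conics
    refine suff z hzO hzb hzN fun t ht => ?_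
    refine den_two ((sp_natDegree z i f).trans hlow) (b := z i) ⟨w, by rw [hself, hwz]⟩ ?_ (hline z hzb t ht)
    rw [hself, ← hwz]
    exact pow_ne_zero 2 hw
  · -- the key lemma
    rw [nondeg_iff hv hq] at hgood
    -- the open set of the line parameters
    have hcl : Continuous fun τ : ℝ => (fun j => (z j : ℝ) + τ * (v j : ℝ)) := by fun_prop
    have hOo : IsOpen ((fun τ : ℝ => (fun j => (z j : ℝ) + τ * (v j : ℝ))) ⁻¹'
        (O ∩ {b | ∀ k, |b k - x k| < δ})) := (hO.inter (Fam.isOpen_box x δ)).preimage hcl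
    have h0O : (0 : ℝ) ∈ (fun τ : ℝ => (fun j => (z j : ℝ) + τ * (v j : ℝ))) ⁻¹'
        (O ∩ {b | ∀ k, |b k - x k| < δ}) := by
      simp only [mem_preimage, zero_mul, add_zero]
      exact ⟨hzO, hzb⟩
    have hE : ((fun τ : ℚ => (τ : ℝ)) '' {τ : ℚ | ¬ ∀ i, Nondeg2 f i (z + τ • v)}).Finite :=
      (nondeg2_all_line hzN v).image _
    -- a target parameter
    obtain ⟨c, hcO, hcE⟩ : ∃ c ∈ (fun τ : ℝ => (fun j => (z j : ℝ) + τ * (v j : ℝ))) ⁻¹'
        (O ∩ {b | ∀ k, |b k - x k| < δ}), c ∉ ((fun τ : ℚ => (τ : ℝ)) '' {τ : ℚ | ¬ ∀ i, Nondeg2 f i (z + τ • v)}) := by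
      have hd : Dense (((fun τ : ℚ => (τ : ℝ)) '' {τ : ℚ | ¬ ∀ i, Nondeg2 f i (z + τ • v)})ᶜ) :=
        hE.countable.dense_compl ℝ
      obtain ⟨c, h1, h2⟩ := hd.inter_open_nonempty _ hOo ⟨0, h0O⟩
      exact ⟨c, h1, h2⟩
    obtain ⟨ρ, hρ, hball⟩ := Metric.isOpen_iff.mp (hOo.inter hE.isClosed.isOpen_compl) c ⟨hcO, hcE⟩
    -- the polynomials
    have hA : (pA f i v z).eval (z i) ≠ 0 := by
      rw [pA_eval hv, Function.update_eq_self]
      intro h0; apply hgood; rw [NP, h0]; ring
    have hD : (pB f i v z).eval (z i) ^ 2 - 4 * (pA f i v z).eval (z i) * (sp z i f).eval (z i) ≠ 0 := by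
      rw [pA_eval hv, pB_eval hv, hself, Function.update_eq_self]
      intro h0; apply hgood; rw [NP, h0]; ring
    have hrk : ¬ ((pA f i v z).eval (z i) * (Polynomial.derivative (pB f i v z)).eval (z i) =
        (Polynomial.derivative (pA f i v z)).eval (z i) * (pB f i v z).eval (z i) ∧
        (pA f i v z).eval (z i) * (Polynomial.derivative (sp z i f)).eval (z i) =
        (Polynomial.derivative (pA f i v z)).eval (z i) * (sp z i f).eval (z i)) := by
      rw [pA_deriv, pB_deriv, sp_deriv, pA_eval hv, pB_eval hv, pA_eval hv, pB_eval hv, sp_eval, hself,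
        Function.update_eq_self]
      rintro ⟨e1, e2⟩
      apply hgood
      rw [NP, e1, e2]
      ring
    have hval0 : w ^ 2 = (pA f i v z).eval (z i) * 0 ^ 2 + (pB f i v z).eval (z i) * 0 +
        (sp z i f).eval (z i) := by
      rw [hself, hwz]; ring
    have hposc : 0 < (((pA f i v z).eval (z i) : ℚ) : ℝ) * c ^ 2 + (((pB f i v z).eval (z i) : ℚ) : ℝ) * c +
        (((sp z i f).eval (z i) : ℚ) : ℝ) := by
      -- by density of the rational parameters
      have hpos1 := hbox _ hcO.2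
      -- the real polynomial identity
      have hid : ∀ τ : ℝ, (MvPolynomial.aeval (fun j => (z j : ℝ) + τ * (v j : ℝ)) f : ℝ) =
          (((pA f i v z).eval (z i) : ℚ) : ℝ) * τ ^ 2 + (((pB f i v z).eval (z i) : ℚ) : ℝ) * τ +
          (((sp z i f).eval (z i) : ℚ) : ℝ) := by
        have hc1 : Continuous fun τ : ℝ => (MvPolynomial.aeval (fun j => (z j : ℝ) + τ * (v j : ℝ)) f : ℝ) :=
          (continuous_aeval f).comp hcl
        have hc2 : Continuous fun τ : ℝ => (((pA f i v z).eval (z i) : ℚ) : ℝ) * τ ^ 2 +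
          (((pB f i v z).eval (z i) : ℚ) : ℝ) * τ + (((sp z i f).eval (z i) : ℚ) : ℝ) := by fun_prop
        have heq : (fun τ : ℝ => (MvPolynomial.aeval (fun j => (z j : ℝ) + τ * (v j : ℝ)) f : ℝ)) =
            fun τ : ℝ => (((pA f i v z).eval (z i) : ℚ) : ℝ) * τ ^ 2 +
          (((pB f i v z).eval (z i) : ℚ) : ℝ) * τ + (((sp z i f).eval (z i) : ℚ) : ℝ) := by
          apply hc1.ext_on Rat.denseRange_cast hc2
          rintro _ ⟨τ, rfl⟩
          have h1 : (fun j => (z j : ℝ) + (τ : ℝ) * (v j : ℝ)) = fun j => (((z + τ • v) j : ℚ) : ℝ) := by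
            funext j; simp
          simp only [h1, Pool.Agent.TH729.SQ.aeval_cast]
          rw [hq.eq, pA_eval hv, pB_eval hv, hself, Function.update_eq_self]
          push_cast
          ring
        exact fun τ => congrFun heq τ
      rw [hid] at hpos1
      exact hpos1
    obtain ⟨s1, hs1, ⟨w1, hw1, hw1'⟩, hinf⟩ := keyP (pA_deg (hf i)) (pB_deg (hf i))
      ((sp_natDegree z i f).trans (hf i)) hA hD hrk hw hval0 hposc hρ
    have hs1b := hball (show (s1 : ℝ) ∈ Metric.ball c ρ by rw [Metric.mem_ball, Real.dist_eq]; exact hs1)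
    have hz1c : (fun j => ((z + s1 • v) j : ℝ)) = fun j => (z j : ℝ) + (s1 : ℝ) * (v j : ℝ) := by
      funext j; simp
    have hz1O : (fun j => ((z + s1 • v) j : ℝ)) ∈ O := by rw [hz1c]; exact hs1b.1.1
    have hz1b : ∀ k, |((z + s1 • v) k : ℝ) - x k| < δ := by
      have := hs1b.1.2
      intro k
      have h1 := this k
      simpa using h1
    have hz1N : ∀ i, Nondeg2 f i (z + s1 • v) := by
      by_contra h
      exact hs1b.2 ⟨s1, h, rfl⟩
    refine suff (z + s1 • v) hz1O hz1b hz1N fun t ht => ?_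
    have hqe : ∀ t, (sp (z + s1 • v) i f).eval t = (pA f i v z).eval t * s1 ^ 2 + (pB f i v z).eval t * s1 +
        (sp z i f).eval t := by
      intro t
      rw [sp_eval, plane_eval hv hq]
    have hinf' : (Sq (sp (z + s1 • v) i f)).Infinite := by
      refine hinf.mono ?_
      rintro t ⟨w2, hw2⟩
      exact ⟨w2, by rw [hqe, hw2]⟩
    have hmem : z i ∈ Sq (sp (z + s1 • v) i f) := ⟨w1, by rw [hqe, hw1']⟩
    refine den_conn ((sp_natDegree _ i f).trans (hf i)) hinf' (J := Ioo (x i - δ) (x i + δ))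
      isPreconnected_Ioo ?_ (x0 := (z i : ℝ)) ?_ (mem_rc hmem) ?_
    · intro t ht
      refine (hline _ hz1b t ?_).ne'
      rw [abs_lt]
      constructor <;> linarith [ht.1, ht.2]
    · have := abs_lt.mp (hzb i)
      constructor <;> linarith [this.1, this.2]
    · have := abs_lt.mp ht
      constructor <;> linarith [this.1, this.2]
  · -- quartic directions
    -- margins
    obtain ⟨m, hm0, hmz, hms⟩ : ∃ m : ℝ, 0 < m ∧ (∀ k, |(z k : ℝ) - x k| + m < δ) ∧ |s - x i| + m < δ := by
      obtain ⟨k0, hk0⟩ := @Finite.exists_min (Fin n) ℝ _ ⟨i⟩ _ (fun k => δ - |(z k : ℝ) - x k|)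
      refine ⟨min ((δ - |(z k0 : ℝ) - x k0|) / 2) ((δ - |s - x i|) / 2), ?_, ?_, ?_⟩
      · exact lt_min (by have := hzb k0; linarith) (by linarith)
      · intro k
        have h1 := hk0 k
        have h2 := hzb k0
        have h3 : min ((δ - |(z k0 : ℝ) - x k0|) / 2) ((δ - |s - x i|) / 2) ≤ (δ - |(z k0 : ℝ) - x k0|) / 2 :=
          min_le_left _ _
        linarith
      · have h3 : min ((δ - |(z k0 : ℝ) - x k0|) / 2) ((δ - |s - x i|) / 2) ≤ (δ - |s - x i|) / 2 :=
          min_le_right _ _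
        linarith
    obtain ⟨r, hr0, hrO⟩ := Metric.isOpen_iff.mp hO _ hzO
    set Λ : ℝ := |s - z i| + m / 4 + 1 with hΛ
    have hΛ0 : 0 < Λ := by
      have := abs_nonneg (s - z i)
      linarith
    set η : ℝ := min (m / (4 * Λ)) (min (r / (2 * Λ)) (ε / (4 * Λ))) with hη
    have hη0 : 0 < η := lt_min (by positivity) (lt_min (by positivity) (by positivity))
    have hη1 : Λ * η ≤ m / 4 := by
      have : η ≤ m / (4 * Λ) := min_le_left _ _
      calc Λ * η ≤ Λ * (m / (4 * Λ)) := by gcongr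
        _ = m / 4 := by field_simp
    have hη2 : Λ * η ≤ r / 2 := by
      have : η ≤ r / (2 * Λ) := (min_le_right _ _).trans (min_le_left _ _)
      calc Λ * η ≤ Λ * (r / (2 * Λ)) := by gcongr
        _ = r / 2 := by field_simp
    have hη3 : Λ * η ≤ ε / 4 := by
      have : η ≤ ε / (4 * Λ) := (min_le_right _ _).trans (min_le_right _ _)
      calc Λ * η ≤ Λ * (ε / (4 * Λ)) := by gcongr
        _ = ε / 4 := by field_simp
    obtain ⟨v, hvV, hvη, hinf⟩ := dir_approx hV hv1 hu1 hiV hND hw hwz hη0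
    have hvk : ∀ k, k ≠ i → |(v k : ℝ)| < η := by
      intro k hk
      have := hvη k
      rw [Pi.single_eq_of_ne hk] at this
      simpa using this
    have hvi : |(v i : ℝ) - 1| < η := by
      have := hvη i
      rw [Pi.single_eq_same] at this
      simpa using this
    set J : Set ℝ := Ioo (min 0 (s - z i) - m / 4) (max 0 (s - z i) + m / 4) with hJ
    have hJabs : ∀ τ ∈ J, |τ| < Λ := by
      intro τ hτ
      have h1 : max 0 (s - (z i : ℝ)) ≤ |s - z i| := max_le (abs_nonneg _) (le_abs_self _)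
      have h2 : -|s - z i| ≤ min 0 (s - (z i : ℝ)) :=
        le_min (by have := abs_nonneg (s - (z i : ℝ)); linarith) (neg_abs_le _)
      rw [abs_lt]
      constructor
      · have := hτ.1; linarith
      · have := hτ.2; linarith
    have hmul : ∀ τ : ℝ, |τ| < Λ → ∀ y : ℝ, |y| < η → |τ * y| < m / 4 ∧ |τ * y| < r ∧ |τ * y| < ε / 2 := by
      intro τ hτ y hy
      have h1 : |τ * y| ≤ Λ * η := by
        rw [abs_mul]
        gcongr
      have h2 : |τ * y| < Λ * η := by
        rw [abs_mul]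
        calc |τ| * |y| ≤ |τ| * η := by gcongr
          _ < Λ * η := by gcongr
      refine ⟨by linarith, by linarith, by linarith⟩
    have hbx : ∀ τ ∈ J, ∀ k, |((z k : ℝ) + τ * (v k : ℝ)) - x k| < δ := by
      intro τ hτ k
      by_cases hk : k = i
      · subst hk
        have h1 := (hmul τ (hJabs τ hτ) _ hvi).1
        have h2 : (z k : ℝ) + τ * (v k : ℝ) - x k = ((z k : ℝ) + τ - x k) + τ * ((v k : ℝ) - 1) := by ring
        have h3 : |(z k : ℝ) + τ - x k| < δ - m + m / 4 := by
          have a1 := abs_lt.mp (show |(z k : ℝ) - x k| < δ - m by have := hmz k; linarith)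
          have a2 := abs_lt.mp (show |s - x k| < δ - m by linarith)
          have b1 := hτ.1
          have b2 := hτ.2
          rw [abs_lt]
          constructor
          · rcases le_total 0 (s - (z k : ℝ)) with h | h
            · rw [min_eq_left h] at b1; linarith [a1.1]
            · rw [min_eq_right h] at b1; linarith [a2.1]
          · rcases le_total 0 (s - (z k : ℝ)) with h | h
            · rw [max_eq_right h] at b2; linarith [a2.2]
            · rw [max_eq_left h] at b2; linarith [a1.2]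
        rw [h2]
        refine (abs_add_le _ _).trans_lt ?_
        linarith
      · have h1 := (hmul τ (hJabs τ hτ) _ (hvk k hk)).1
        have h2 : (z k : ℝ) + τ * (v k : ℝ) - x k = ((z k : ℝ) - x k) + τ * (v k : ℝ) := by ring
        rw [h2]
        refine (abs_add_le _ _).trans_lt ?_
        have := hmz k
        linarith
    have hpos : ∀ τ ∈ J, 0 < Polynomial.aeval τ (lp f z v) := by
      intro τ hτ
      rw [lp_aeval]
      exact hbox _ (hbx τ hτ)
    have h0J : (0 : ℝ) ∈ J := by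
      constructor
      · have := min_le_left 0 (s - (z i : ℝ)); linarith
      · have := le_max_left 0 (s - (z i : ℝ)); linarith
    have hsJ : s - z i ∈ J := by
      constructor
      · have := min_le_right 0 (s - (z i : ℝ)); linarith
      · have := le_max_right 0 (s - (z i : ℝ)); linarith
    have h0S : (0 : ℚ) ∈ Sq (lp f z v) := ⟨w, by rw [lp_eval, zero_smul, add_zero, hwz]⟩
    have h0rc : (0 : ℝ) ∈ rc (Sq (lp f z v)) := by
      have := mem_rc h0S
      simpa using this
    have hJrc : J ⊆ rc (Sq (lp f z v)) :=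
      den_conn (hV z v hvV) hinf isPreconnected_Ioo (fun τ hτ => (hpos τ hτ).ne') h0J h0rc
    obtain ⟨τ, ⟨w2, hw2⟩, hτJ, hτε, hτE⟩ := Fam.pick isOpen_Ioo hJrc (nondeg2_all_line hzN v) hsJ
      (show 0 < ε / 2 by linarith)
    have hz'c : ∀ k, ((z + τ • v) k : ℝ) = (z k : ℝ) + (τ : ℝ) * (v k : ℝ) := by
      intro k; simp
    have hupd : Function.update (Function.update (z + τ • v) i (z i)) i ((z + τ • v) i) = z + τ • v := by
      rw [Function.update_idem, Function.update_eq_self]
    refine ⟨Function.update (z + τ • v) i (z i), (z + τ • v) i, ?_, ?_, ?_, ?_⟩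
    · apply hrO
      rw [Metric.mem_ball, dist_pi_lt_iff hr0]
      intro k
      rw [Real.dist_eq]
      by_cases hk : k = i
      · subst hk
        rw [Function.update_self, sub_self, abs_zero]
        exact hr0
      · rw [Function.update_of_ne hk, hz'c]
        have := (hmul τ (hJabs _ hτJ) _ (hvk k hk)).2.1
        have h2 : (z k : ℝ) + (τ : ℝ) * (v k : ℝ) - z k = τ * (v k : ℝ) := by ring
        rwa [h2]
    · rw [hupd]
      refine ⟨?_, w2, ?_, ?_⟩
      · by_contra h
        exact hτE h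
      · rintro rfl
        have h5 := hpos τ hτJ
        rw [Pool.Agent.Y718.aeval_cast, ← hw2] at h5
        norm_num at h5
      · rw [hw2, lp_eval]
    · have h2 : (((z + τ • v) i : ℚ) : ℝ) - s = ((τ : ℝ) - (s - z i)) + τ * ((v i : ℝ) - 1) := by
        rw [hz'c]; ring
      rw [h2]
      refine (abs_add_le _ _).trans_lt ?_
      have := (hmul τ (hJabs _ hτJ) _ hvi).2.2
      linarith
    · intro k
      rw [hupd, hz'c]
      exact hbx τ hτJ k

/-- moving all coordinates -/
lemma g2move_all {f : MvPolynomial (Fin n) ℚ} (hf : ∀ i, f.degreeOf i ≤ 4) {x : Fin n → ℝ} {δ : ℝ}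
    (hbox : ∀ b : Fin n → ℝ, (∀ i, |b i - x i| < δ) → (0 : ℝ) < MvPolynomial.aeval b f)
    {z : Fin n → ℚ} (hz : z ∈ SG2 f) (hzb : ∀ i, |(z i : ℝ) - x i| < δ) {s : Fin n → ℝ}
    (hs : ∀ i, |s i - x i| < δ) {ε : ℝ} (hε : 0 < ε) (J : Finset (Fin n)) :
    ∃ z' ∈ SG2 f, (∀ i, |(z' i : ℝ) - x i| < δ) ∧ ∀ i ∈ J, |(z' i : ℝ) - s i| < ε := by
  classical
  induction J using Finset.induction_on with
  | empty => exact ⟨z, hz, hzb, fun i hi => by simp at hi⟩
  | insert i J hiJ ih =>
    obtain ⟨z', h1, h2, h3⟩ := ih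
    have hOo : IsOpen {b : Fin n → ℝ | ∀ k ∈ J, |b k - s k| < ε} := by
      have : {b : Fin n → ℝ | ∀ k ∈ J, |b k - s k| < ε} = ⋂ k ∈ J, {b | |b k - s k| < ε} := by
        ext b; simp
      rw [this]
      refine isOpen_biInter_finset fun k _ => ?_
      exact isOpen_lt (by fun_prop) continuous_const
    obtain ⟨z1, t, k1, k2, k3, k4⟩ := g2move_one hf hbox h1 h2 i (hs i) hε hOo h3
    refine ⟨_, k2, k4, ?_⟩
    intro k hk
    rw [Finset.mem_insert] at hk
    by_cases hki : k = i
    · subst hki; rw [Function.update_self]; exact k3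
    · rw [Function.update_of_ne hki]
      exact k1 k (hk.resolve_left hki)

/-- **Local openness.** -/
theorem SG2_open {f : MvPolynomial (Fin n) ℚ} (hf : ∀ i, f.degreeOf i ≤ 4) {x : Fin n → ℝ}
    (hx : x ∈ closure (rl (SG2 f))) (hpos : (0 : ℝ) < MvPolynomial.aeval x f) :
    closure (rl (SG2 f)) ∈ 𝓝 x := by
  obtain ⟨δ, hδ, hball⟩ := Metric.isOpen_iff.mp (isOpen_lt continuous_const (continuous_aeval f)) x hpos
  have hbox : ∀ b : Fin n → ℝ, (∀ i, |b i - x i| < δ) → (0 : ℝ) < MvPolynomial.aeval b f := by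
    intro b hb
    have h1 : b ∈ Metric.ball x δ := by
      rw [Metric.mem_ball, dist_pi_lt_iff hδ]
      intro k
      rw [Real.dist_eq]
      exact hb k
    exact hball h1
  obtain ⟨_, ⟨z0, hz0, rfl⟩, hz0d⟩ := Metric.mem_closure_iff.mp hx δ hδ
  have hz0b : ∀ k, |(z0 k : ℝ) - x k| < δ := by
    intro k
    rw [dist_comm, dist_pi_lt_iff hδ] at hz0d
    have := hz0d k
    rwa [Real.dist_eq] at this
  refine Filter.mem_of_superset (Metric.ball_mem_nhds x hδ) ?_
  intro xs hxs
  have hxsb : ∀ k, |xs k - x k| < δ := by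
    intro k
    rw [Metric.mem_ball, dist_pi_lt_iff hδ] at hxs
    have := hxs k
    rwa [Real.dist_eq] at this
  rw [Metric.mem_closure_iff]
  intro ε hε
  obtain ⟨z, h1, -, h3⟩ := g2move_all hf hbox hz0 hz0b hxsb hε Finset.univ
  refine ⟨_, ⟨z, h1, rfl⟩, ?_⟩
  rw [dist_comm, dist_pi_lt_iff hε]
  intro k
  rw [Real.dist_eq]
  exact h3 k (Finset.mem_univ k)

theorem SG2_SA {f : MvPolynomial (Fin n) ℚ} (hf : ∀ i, f.degreeOf i ≤ 4) : SA (closure (rl (SG2 f))) :=
  base_SA (PF.aeval f) (φq := fun z => MvPolynomial.eval z f)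
    (fun z => Pool.Agent.TH729.SQ.aeval_cast z f) (fun _ hz => hz.2) (fun _ hx hpos => SG2_open hf hx hpos)

/-- the rational points of the double cover over the nondegenerate parameters -/
def coverG2 (f : MvPolynomial (Fin n) ℚ) : Set (Option (Fin n) → ℚ) :=
  {u | (∀ i, Nondeg2 f i fun k => u (some k)) ∧ u none ^ 2 = MvPolynomial.eval (fun k => u (some k)) f ∧
    (u none ≠ 0 ∨ ∃ (v : Fin n → ℚ) (A B : ℚ), B ≠ 0 ∧ ∀ s : ℚ,
      MvPolynomial.eval ((fun k => u (some k)) + s • v) f = A * s ^ 2 + B * s)}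

lemma coverG2_lift (f : MvPolynomial (Fin n) ℚ) :
    closure (rl (coverG2 f)) = closure (lift (fun z => MvPolynomial.eval z f) (SG2 f)) := by
  apply Subset.antisymm
  · refine closure_minimal ?_ isClosed_closure
    rintro _ ⟨u, ⟨hN, hu, hor⟩, rfl⟩
    by_cases h0 : u none = 0
    · obtain ⟨v, A, B, hB, hval⟩ := hor.resolve_left (by simpa using h0)
      set z : Fin n → ℚ := fun k => u (some k) with hz
      let s : ℕ → ℚ := fun n => B / ((n : ℚ) ^ 2 - A)
      have hden : ∀ᶠ n : ℕ in atTop, ((n : ℝ) ^ 2 - A) ≠ 0 ∧ (n : ℝ) ≠ 0 := by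
        have h1 : Tendsto (fun n : ℕ => (n : ℝ) ^ 2) atTop atTop :=
          (tendsto_pow_atTop (by norm_num)).comp tendsto_natCast_atTop_atTop
        filter_upwards [h1.eventually (eventually_gt_atTop (A : ℝ)), eventually_ge_atTop 1] with n hn hn1
        refine ⟨by linarith, ?_⟩
        have : (1 : ℝ) ≤ n := by exact_mod_cast hn1
        linarith
      have hs0 : Tendsto (fun n : ℕ => ((s n : ℚ) : ℝ)) atTop (𝓝 0) := by
        have h1 : Tendsto (fun n : ℕ => (n : ℝ) ^ 2 - A) atTop atTop :=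
          tendsto_atTop_add_const_right _ _
            ((tendsto_pow_atTop (by norm_num)).comp tendsto_natCast_atTop_atTop)
        have h2 : Tendsto (fun n : ℕ => (B : ℝ) / ((n : ℝ) ^ 2 - A)) atTop (𝓝 0) :=
          tendsto_const_nhds.div_atTop h1
        refine h2.congr fun n => ?_
        simp only [s]
        push_cast
        rfl
      have hns0 : Tendsto (fun n : ℕ => ((n * s n : ℚ) : ℝ)) atTop (𝓝 0) := by
        have h1 : Tendsto (fun n : ℕ => (n : ℝ) - A / n) atTop atTop := by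
          have h2 : Tendsto (fun n : ℕ => (A : ℝ) / n) atTop (𝓝 0) :=
            tendsto_const_nhds.div_atTop tendsto_natCast_atTop_atTop
          have h3 := tendsto_natCast_atTop_atTop (R := ℝ)
          have := h3.atTop_add h2.neg
          refine this.congr fun n => ?_
          ring
        have h2 : Tendsto (fun n : ℕ => (B : ℝ) / ((n : ℝ) - A / n)) atTop (𝓝 0) :=
          tendsto_const_nhds.div_atTop h1
        refine h2.congr' ?_
        filter_upwards [hden, eventually_ge_atTop 1] with n hn hn1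
        simp only [s]
        push_cast
        have h4 : (n : ℝ) ≠ 0 := hn.2
        have h5 := hn.1
        field_simp
      have hlim : Tendsto (fun n : ℕ => (ext ((n * s n : ℚ) : ℝ) (fun k : Fin _ =>
          (((z + s n • v) k : ℚ) : ℝ)) : Option (Fin _) → ℝ)) atTop (𝓝 (fun o => (u o : ℝ))) := by
        rw [tendsto_pi_nhds]
        intro o
        rcases o with _ | k
        · simp only [ext_none]
          rw [h0]
          simpa using hns0
        · simp only [ext_some]
          have h1 : Tendsto (fun n : ℕ => (z k : ℝ) + (s n : ℝ) * (v k : ℝ)) atTop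
              (𝓝 ((z k : ℝ) + 0 * (v k : ℝ))) :=
            tendsto_const_nhds.add (hs0.mul tendsto_const_nhds)
          rw [zero_mul, add_zero] at h1
          refine h1.congr fun n => ?_
          simp
      refine mem_closure_of_tendsto hlim ?_
      -- the parameters are eventually nondegenerate
      have hNs : ∀ᶠ n : ℕ in atTop, s n ≠ 0 := by
        filter_upwards [hden] with n hn
        refine div_ne_zero hB ?_
        intro h
        apply hn.1
        exact_mod_cast h
      have hNd : ∀ᶠ n : ℕ in atTop, ∀ i, Nondeg2 f i (z + s n • v) := by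
        have hE : ((fun τ : ℚ => (τ : ℝ)) '' ({τ : ℚ | ¬ ∀ i, Nondeg2 f i (z + τ • v)} \ {0})).Finite :=
          ((nondeg2_all_line hN v).subset sdiff_subset).image _
        have h1 : (((fun τ : ℚ => (τ : ℝ)) '' ({τ : ℚ | ¬ ∀ i, Nondeg2 f i (z + τ • v)} \ {0})))ᶜ ∈ 𝓝 (0 : ℝ) := by
          apply hE.isClosed.isOpen_compl.mem_nhds
          rintro ⟨τ, ⟨-, hτ⟩, hτ0⟩
          apply hτ
          have hτ1 : (τ : ℝ) = 0 := hτ0
          rw [Set.mem_singleton_iff]
          exact_mod_cast hτ1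
        filter_upwards [hs0 h1, hNs] with n hn hn2
        by_contra hc
        exact hn ⟨s n, ⟨hc, hn2⟩, rfl⟩
      filter_upwards [hden, hNs, hNd] with n hn hn2 hn3
      have hn1 : ((n : ℚ) ^ 2 - A) ≠ 0 := by
        intro h
        apply hn.1
        exact_mod_cast h
      have hnn : (n : ℚ) ≠ 0 := by
        intro h
        apply hn.2
        exact_mod_cast h
      have hsq : ((n : ℚ) * s n) ^ 2 = MvPolynomial.eval (z + s n • v) f := by
        rw [hval]
        simp only [s]
        field_simp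
        ring
      exact ⟨z + s n • v, ⟨hn3, n * s n, mul_ne_zero hnn hn2, hsq⟩, n * s n, hsq, rfl⟩
    · apply subset_closure
      refine ⟨fun k => u (some k), ⟨hN, u none, h0, hu⟩, u none, hu, ?_⟩
      funext o
      rcases o with _ | k <;> rfl
  · apply closure_mono
    rintro _ ⟨z, ⟨hN, w0, hw0, hw0'⟩, w, hw, rfl⟩
    refine ⟨fun o => o.elim w z, ⟨hN, hw, Or.inl ?_⟩, ?_⟩
    · intro h
      have h : w = 0 := h
      have hw2 : w ^ 2 = w0 ^ 2 := hw.trans hw0'.symm
      apply hw0
      rw [h] at hw2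
      have : w0 ^ 2 = 0 := by linarith
      exact pow_eq_zero_iff (two_ne_zero) |>.mp this
    · funext o
      rcases o with _ | k <;> rfl

/-- the nondegenerate part of the double cover, the coordinate `0` is `w` -/
def dcovG2 {n : ℕ} (f : MvPolynomial (Fin n) ℚ) : Set (Fin (n + 1) → ℚ) :=
  {u | u ∈ dcov f ∧ (∀ i, Nondeg2 f i fun k => u k.succ) ∧
    (u 0 ≠ 0 ∨ ∃ (v : Fin n → ℚ) (A B : ℚ), B ≠ 0 ∧ ∀ s : ℚ,
      MvPolynomial.eval ((fun k => u k.succ) + s • v) f = A * s ^ 2 + B * s)}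

/-- **The general theorem.** -/
theorem coverG2_SA {f : MvPolynomial (Fin n) ℚ} (hf : ∀ i, f.degreeOf i ≤ 4) :
    SA (closure (rl (coverG2 f))) := by
  rw [coverG2_lift]
  exact lift_SA (PF.aeval f) (fun z => Pool.Agent.TH729.SQ.aeval_cast z f)
    (fun z hz => by obtain ⟨w, -, hw⟩ := hz.2; exact ⟨w, hw⟩) (SG2_SA hf)

theorem gen2_final {n : ℕ} (f : MvPolynomial (Fin n) ℚ) (hf : ∀ i, f.degreeOf i ≤ 4) :
    SA (closure (rl (dcovG2 f))) := by
  have h := coverG2_SA hf
  let e : Option (Fin n) ≃ Fin (n + 1) := (finSuccEquiv n).symm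
  refine equiv_SA e h fun y => ?_
  have e0 : e none = 0 := finSuccEquiv_symm_none
  have e1 : ∀ k, e (some k) = k.succ := fun k => finSuccEquiv_symm_some k
  simp only [dcovG2, dcov, coverG2, Set.mem_ofPred_eq, e0, e1]
  tauto

end Pool.Agent.Y718
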