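import Pool.Agent.Y718.Sing2
import Pool.Agent.Y718.Gen2
import Pool.Agent.TH729.SQ.Comp

/-!
# The exceptional points of double covers branched along smooth quartics are finite in number
-/

set_option autoImplicit false
set_option linter.unusedSectionVars false
set_option linter.unusedSimpArgs false

open Set Filter Topology Pool.Agent.H581R2 Pool.Agent.TH729.SQ

namespace Pool.Agent.Y718

/-- a semialgebraic set without accumulation points of itself is finite -/
theorem finite_of_isolated {ι : Type} [Finite ι] {S : Set (ι → ℝ)} (hS : SA S)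
    (h : ∀ x ∈ S, ¬ AccPt x (𝓟 S)) : S.Finite := by
  have hd : DiscreteTopology S := by
    rw [discreteTopology_subtype_iff]
    intro x hx
    exact not_neBot.mp (h x hx)
  have hfin := sa_comp hS
  have hinj : Function.Injective (fun x : S => (x : ConnectedComponents S)) := by
    intro x y hxy
    have h1 := ConnectedComponents.coe_eq_coe.mp hxy
    rw [connectedComponent_eq_singleton, connectedComponent_eq_singleton] at h1
    exact Set.singleton_injective h1
  have := Finite.of_injective _ hinj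
  exact Set.toFinite S

/-- a direction of accumulation -/
theorem exists_tangent {ι : Type} [Finite ι] {S : Set (ι → ℝ)} {x : ι → ℝ} (hx : AccPt x (𝓟 S)) :
    ∃ v : ι → ℝ, v ≠ 0 ∧ ∀ φ : (ι → ℝ) → ℝ, DifferentiableAt ℝ φ x → (∀ y ∈ S, φ y = 0) → φ x = 0 →
      HasDerivAt (fun t : ℝ => φ (x + t • v)) 0 0 := by
  have := Fintype.ofFinite ι
  obtain ⟨v, hv, hv0⟩ := tangentConeAt_nonempty_of_properSpace (𝕜 := ℝ) hx
  refine ⟨v, hv0, fun φ hφ h0 hx0 => ?_⟩
  have h1 : HasFDerivWithinAt φ (0 : (ι → ℝ) →L[ℝ] ℝ) S x :=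
    (hasFDerivWithinAt_const (0 : ℝ) x S).congr (fun y hy => h0 y hy) hx0
  have h2 : HasFDerivWithinAt φ (fderiv ℝ φ x) S x := hφ.hasFDerivAt.hasFDerivWithinAt
  have h3 : fderiv ℝ φ x v = 0 := h2.unique_on h1 hv
  have h4 : HasDerivAt (fun t : ℝ => x + t • v) v 0 := by
    simpa using ((hasDerivAt_id (0 : ℝ)).smul_const v).const_add x
  have h5 : HasFDerivAt φ (fderiv ℝ φ x) (x + (0 : ℝ) • v) := by
    rw [zero_smul, add_zero]; exact hφ.hasFDerivAt
  have h6 := h5.comp_hasDerivAt (0 : ℝ) h4
  rw [h3] at h6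
  exact h6

/-! ### inserting a coordinate -/

section ins

variable {K : Type*} [Field K] {n : ℕ}

/-- insertion of a coordinate -/
def ic (p : Fin (n + 1)) (x : K) (z : Fin n → K) : Fin (n + 1) → K :=
  Fin.insertNth (α := fun _ => K) p x z

lemma ic_same (p : Fin (n + 1)) (x : K) (z : Fin n → K) : ic p x z p = x :=
  Fin.insertNth_apply_same _ _ _
lemma ic_above (p : Fin (n + 1)) (x : K) (z : Fin n → K) (j : Fin n) :
    ic p x z (p.succAbove j) = z j :=
  Fin.insertNth_apply_succAbove _ _ _ _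

lemma ic_ext (p : Fin (n + 1)) {U V : Fin (n + 1) → K} (h0 : U p = V p)
    (h : ∀ j, U (p.succAbove j) = V (p.succAbove j)) : U = V := by
  funext i
  rcases Fin.eq_self_or_eq_succAbove p i with rfl | ⟨j, rfl⟩
  · exact h0
  · exact h j

lemma ic_add (p : Fin (n + 1)) (x : K) (z v : Fin n → K) (t : K) :
    ic p x z + t • ic p 0 v = ic p x (z + t • v) := by
  apply ic_ext p
  · simp [ic_same]
  · intro j; simp [ic_above]

lemma ic_map {L : Type*} [Field L] (φ : K →+* L) (p : Fin (n + 1)) (x : K) (z : Fin n → K) :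
    (fun i => φ (ic p x z i)) = ic p (φ x) (fun i => φ (z i)) := by
  apply ic_ext p
  · simp [ic_same]
  · intro j; simp [ic_above]

lemma ic_split (p : Fin (n + 1)) (z : Fin n → K) (U : Fin (n + 1) → K) :
    U = ic p 0 (fun j => U (p.succAbove j) - U p * z j) + U p • ic p 1 z := by
  apply ic_ext p
  · simp [ic_same]
  · intro j; simp [ic_above]

lemma ic_out (p : Fin (n + 1)) {z v : Fin n → K} (hv : v ≠ 0) (l : K) :
    ic p 0 v + l • ic p 1 z ≠ 0 := by
  intro h
  have h0 := congrFun h p
  simp only [Pi.add_apply, Pi.smul_apply, ic_same, smul_eq_mul, mul_one, zero_add, Pi.zero_apply] at h0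
  apply hv
  funext j
  have h1 := congrFun h (p.succAbove j)
  simp only [Pi.add_apply, Pi.smul_apply, ic_above, h0, zero_smul, add_zero, Pi.zero_apply] at h1
  exact h1

end ins

open SF in
lemma dd_map {R L : Type*} [Field R] [CharZero R] [Field L] [CharZero L] {σ : Type*} (φ : R →+* L)
    (F : MvPolynomial σ R) (V : σ → R) :
    MvPolynomial.map φ (dd V F) = dd (fun i => φ (V i)) (MvPolynomial.map φ F) := by
  induction F using MvPolynomial.induction_on with
  | C c => rw [dd_C, MvPolynomial.map_C, dd_C, map_zero]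
  | add p q hp hq => simp only [map_add, hp, hq]
  | mul_X p i hp => rw [dd_mul_X]; simp only [map_add, map_mul, hp, MvPolynomial.map_X, dd_mul_X, MvPolynomial.map_C]

section maps

open SF

variable {σ : Type*} (F : MvPolynomial σ ℝ) (Z U H : σ → ℝ)

lemma lgc (k : ℕ) : (lg (MvPolynomial.map Complex.ofRealHom F) (fun i => (Z i : ℂ)) (fun i => (U i : ℂ))).coeff k =
    (((lg F Z U).coeff k : ℝ) : ℂ) := by
  have := lg_map Complex.ofRealHom F Z U
  have h2 := congrArg (fun q => Polynomial.coeff q k) this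
  simp only [Polynomial.coeff_map] at h2
  exact h2

lemma lgd (k : ℕ) : (lg (dd (fun i => (H i : ℂ)) (MvPolynomial.map Complex.ofRealHom F)) (fun i => (Z i : ℂ))
    (fun i => (U i : ℂ))).coeff k = (((lg (dd H F) Z U).coeff k : ℝ) : ℂ) := by
  have h1 := dd_map Complex.ofRealHom F H
  have h2 : (fun i => Complex.ofRealHom (H i)) = fun i => (H i : ℂ) := rfl
  rw [h2] at h1
  rw [← h1]
  exact lgc (dd H F) Z U k

lemma gBc : gB (lg (MvPolynomial.map Complex.ofRealHom F) (fun i => (Z i : ℂ)) (fun i => (U i : ℂ))) =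
    ((gB (lg F Z U) : ℝ) : ℂ) := by
  simp only [gB, lgc]
  push_cast
  ring

lemma gTc : gT (lg (MvPolynomial.map Complex.ofRealHom F) (fun i => (Z i : ℂ)) (fun i => (U i : ℂ))) =
    ((gT (lg F Z U) : ℝ) : ℂ) := by
  simp only [gT, lgc]
  push_cast
  ring

lemma pzc : pz (MvPolynomial.map Complex.ofRealHom F) (fun i => (Z i : ℂ)) (fun i => (U i : ℂ))
    (fun i => (H i : ℂ)) = ((pz F Z U H : ℝ) : ℂ) := by
  simp only [pz, lgc, lgd]
  push_cast
  ring

lemma ztc : zt (MvPolynomial.map Complex.ofRealHom F) (fun i => (Z i : ℂ)) (fun i => (U i : ℂ))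
    (fun i => (H i : ℂ)) = ((zt F Z U H : ℝ) : ℂ) := by
  simp only [zt, lgc, lgd]
  push_cast
  ring

end maps

section pk

open SF

variable {K : Type*} [Field K] [CharZero K] {σ : Type*} (F : MvPolynomial σ K) (Z H : σ → K)

lemma PKu_gT : PK (fun U : σ → K => gT (lg F Z U)) := by
  have h := PKu_coeff F Z
  exact ((((h 1).pow 2).sub (((PK.const 4).mul (h 0)).mul (h 2))).pow 2).sub
    (((PK.const 64).mul ((h 0).pow 3)).mul (h 4))

lemma PKu_pz : PK (fun U : σ → K => pz F Z U H) := by
  have h := PKu_coeff F Z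
  have g := PKu_coeff (dd H F) Z
  exact ((((PK.const 3).mul ((h 1).pow 2)).mul (g 1)).sub ((PK.const 4).mul
    (((((g 0).mul (h 1)).mul (h 2)).add (((h 0).mul (g 1)).mul (h 2))).add (((h 0).mul (h 1)).mul (g 2))))).add
    ((PK.const 8).mul (((((PK.const 2).mul (h 0)).mul (g 0)).mul (h 3)).add (((h 0).pow 2).mul (g 3))))

lemma PKu_zt : PK (fun U : σ → K => zt F Z U H) := by
  have h := PKu_coeff F Z
  have g := PKu_coeff (dd H F) Z
  exact ((((PK.const 2).mul (((h 1).pow 2).sub (((PK.const 4).mul (h 0)).mul (h 2)))).mul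
    (((((PK.const 2).mul (h 1)).mul (g 1)).sub (((PK.const 4).mul (g 0)).mul (h 2))).sub
      (((PK.const 4).mul (h 0)).mul (g 2)))).sub
    ((PK.const 64).mul (((((PK.const 3).mul ((h 0).pow 2)).mul (g 0)).mul (h 4)).add
      (((h 0).pow 3).mul (g 4)))))

end pk

/-- polynomial functions are differentiable -/
lemma PK_diff {ι : Type} [Finite ι] {g : (ι → ℝ) → ℝ} (hg : SF.PK g) : Differentiable ℝ g := by
  have := Fintype.ofFinite ι
  obtain ⟨p, hp⟩ := hg
  have : g = fun v => MvPolynomial.eval v p := funext hp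
  rw [this]
  clear hp this
  induction p using MvPolynomial.induction_on with
  | C c => simp only [MvPolynomial.eval_C]; exact differentiable_const c
  | add p q hp hq => simp only [map_add]; exact hp.add hq
  | mul_X p i hp => simp only [map_mul, MvPolynomial.eval_X]; exact hp.mul (differentiable_apply i)

/-- the coefficients as polynomial functions with rational coefficients -/
lemma PF_lg {σ κ : Type} (F : MvPolynomial σ ℚ) (k : ℕ) {φ ψ : (κ → ℝ) → σ → ℝ}
    (hφ : ∀ i, PF (fun w => φ w i)) (hψ : ∀ i, PF (fun w => ψ w i)) :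
    PF (fun w => (SF.lg (MvPolynomial.map (algebraMap ℚ ℝ) F) (φ w) (ψ w)).coeff k) := by
  induction F using MvPolynomial.induction_on generalizing k with
  | C c =>
    have : (fun w : κ → ℝ => (SF.lg (MvPolynomial.map (algebraMap ℚ ℝ) (MvPolynomial.C c)) (φ w) (ψ w)).coeff k) =
        fun _ => (((if k = 0 then c else 0 : ℚ)) : ℝ) := by
      funext y
      rw [MvPolynomial.map_C, SF.lg_C, Polynomial.coeff_C]
      split_ifs <;> simp
    rw [this]
    exact PF.const _
  | add p q hp hq =>
    obtain ⟨P, hP⟩ := (hp k).add (hq k)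
    refine ⟨P, fun y => ?_⟩
    rw [← hP]
    show (SF.lg (MvPolynomial.map _ (p + q)) _ _).coeff k = _
    rw [map_add, SF.lg_add, Polynomial.coeff_add]
  | mul_X p j hp =>
    have h1 : ∀ w, (SF.lg (MvPolynomial.map (algebraMap ℚ ℝ) (p * MvPolynomial.X j)) (φ w) (ψ w)).coeff k =
        (SF.lg (MvPolynomial.map (algebraMap ℚ ℝ) p) (φ w) (ψ w)).coeff k * φ w j +
        (if k = 0 then 0 else (SF.lg (MvPolynomial.map (algebraMap ℚ ℝ) p) (φ w) (ψ w)).coeff (k - 1)) *
          ψ w j := by
      intro w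
      have h2 : SF.lg (MvPolynomial.map (algebraMap ℚ ℝ) (p * MvPolynomial.X j)) (φ w) (ψ w) =
          SF.lg (MvPolynomial.map (algebraMap ℚ ℝ) p) (φ w) (ψ w) * Polynomial.C (φ w j) +
          (SF.lg (MvPolynomial.map (algebraMap ℚ ℝ) p) (φ w) (ψ w) * Polynomial.X) *
            Polynomial.C (ψ w j) := by
        rw [map_mul, MvPolynomial.map_X, SF.lg_mul_X]
        ring
      rw [h2, Polynomial.coeff_add, Polynomial.coeff_mul_C, Polynomial.coeff_mul_C]
      congr 2
      rcases k with _ | k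
      · simp
      · simp
    refine PF.congr (f := fun w => (SF.lg (MvPolynomial.map (algebraMap ℚ ℝ) p) (φ w) (ψ w)).coeff k * φ w j +
        (if k = 0 then 0 else (SF.lg (MvPolynomial.map (algebraMap ℚ ℝ) p) (φ w) (ψ w)).coeff (k - 1)) *
          ψ w j) ?_ h1
    refine ((hp k).mul (hφ _)).add (PF.mul ?_ (hψ _))
    by_cases h : k = 0
    · simp only [h, if_true]; exact PF.zero
    · simp only [if_neg h]; exact hp (k - 1)

end Pool.Agent.Y718
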