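import Pool.Agent.Y720.MZ.Tors2

/-!
# Multiples of a point reaching the kernel of reduction
-/

set_option autoImplicit false
set_option linter.unusedSectionVars false
set_option linter.unusedVariables false

open WeierstrassCurve Filter Topology Pool.Agent.Y720.MZ

namespace Pool.Agent.Y718.X

variable {K : Type*} [Field K] {v : AbsoluteValue K ℝ}

/-- the point is in the kernel of reduction -/
def Fm (v : AbsoluteValue K ℝ) {a b c : K} (P : Pt a b c) : Prop :=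
  ∀ x y h, P = .some x y h → 1 < v x

lemma fm_zero {a b c : K} : Fm v (0 : Pt a b c) := by
  intro x y h he
  exact absurd he.symm (Affine.Point.some_ne_zero h)

lemma fm_some {a b c x y : K} {h : (cv a b c).toAffine.Nonsingular x y} :
    Fm v (.some x y h : Pt a b c) ↔ 1 < v x := by
  constructor
  · intro H
    exact H x y h rfl
  · intro H x' y' h' he
    rw [Affine.Point.some.injEq] at he
    rw [← he.1]
    exact H

lemma fm_neg {a b c : K} {P : Pt a b c} (hP : Fm v P) : Fm v (-P) := by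
  rcases P with _ | ⟨x, y, h⟩
  · exact fm_zero
  · obtain ⟨h', he⟩ := neg_mk h
    rw [he, fm_some]
    exact fm_some.1 hP

lemma ts_inj (hv : IsNonarchimedean v) {a b c x₁ x₂ y₁ y₂ : K} (ha : v a ≤ 1)
    (hb : v b ≤ 1) (hc : v c ≤ 1) (hx1 : 1 < v x₁) (hx2 : 1 < v x₂)
    (h1 : y₁ ^ 2 = x₁ ^ 3 + a * x₁ ^ 2 + b * x₁ + c)
    (h2 : y₂ ^ 2 = x₂ ^ 3 + a * x₂ ^ 2 + b * x₂ + c) (ht : x₁ / y₁ = x₂ / y₂) :
    x₁ = x₂ := by
  obtain ⟨hy1', h11, h12, h13, h14⟩ := val_ts hv ha hb hc hx1 h1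
  obtain ⟨hy2', h21, h22, h23, h24⟩ := val_ts hv ha hb hc hx2 h2
  have q1 := ts_eqn hy1' h1
  have q2 := ts_eqn hy2' h2
  rw [← ht] at q2 h22 h24
  have hs1 : v (1 / y₁) < 1 := by rw [h14]; exact pow_lt_one₀ (v.nonneg _) h12 three_ne_zero
  have hs2 : v (1 / y₂) < 1 := by rw [h24]; exact pow_lt_one₀ (v.nonneg _) h22 three_ne_zero
  have e1 : x₁ / y₁ * y₁ = x₁ := div_mul_cancel₀ _ hy1'
  have e2 : x₂ / y₂ * y₂ = x₂ := div_mul_cancel₀ _ hy2'
  rw [← ht] at e2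
  have e1' : (1 / y₁) * y₁ = 1 := one_div_mul_cancel hy1'
  have e2' : (1 / y₂) * y₂ = 1 := one_div_mul_cancel hy2'
  set t := x₁ / y₁
  set s₁ := 1 / y₁
  set s₂ := 1 / y₂
  have p1 := v.nonneg t
  have p3 := v.nonneg s₁
  have p4 := v.nonneg s₂
  have hid : (s₁ - s₂) * (1 + (-(a * t ^ 2) - b * t * (s₁ + s₂) -
      c * (s₁ ^ 2 + s₁ * s₂ + s₂ ^ 2))) = 0 := by
    linear_combination q1 - q2
  have hU : v (1 + (-(a * t ^ 2) - b * t * (s₁ + s₂) - c * (s₁ ^ 2 + s₁ * s₂ + s₂ ^ 2))) = 1 := by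
    apply na_one_add hv
    have l1 : v (a * t ^ 2) < 1 := by
      rw [map_mul, map_pow]
      calc v a * v t ^ 2 ≤ 1 * v t ^ 2 := by gcongr
        _ < 1 := by rw [one_mul]; exact pow_lt_one₀ p1 h12 two_ne_zero
    have l2 : v (b * t * (s₁ + s₂)) < 1 := by
      have : v (s₁ + s₂) < 1 := na_lt hv hs1 hs2
      rw [map_mul, map_mul]
      calc v b * v t * v (s₁ + s₂) ≤ 1 * 1 * v (s₁ + s₂) := by gcongr
        _ < 1 := by rw [one_mul, one_mul]; exact this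
    have l3 : v (c * (s₁ ^ 2 + s₁ * s₂ + s₂ ^ 2)) < 1 := by
      have : v (s₁ ^ 2 + s₁ * s₂ + s₂ ^ 2) < 1 := by
        refine na_lt hv (na_lt hv ?_ ?_) ?_
        · rw [map_pow]; exact pow_lt_one₀ p3 hs1 two_ne_zero
        · rw [map_mul]
          calc v s₁ * v s₂ ≤ 1 * v s₂ := by gcongr
            _ < 1 := by rw [one_mul]; exact hs2
        · rw [map_pow]; exact pow_lt_one₀ p4 hs2 two_ne_zero
      rw [map_mul]
      calc v c * v (s₁ ^ 2 + s₁ * s₂ + s₂ ^ 2) ≤ 1 * v (s₁ ^ 2 + s₁ * s₂ + s₂ ^ 2) := by gcongr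
        _ < 1 := by rw [one_mul]; exact this
    have e : -(a * t ^ 2) - b * t * (s₁ + s₂) - c * (s₁ ^ 2 + s₁ * s₂ + s₂ ^ 2) =
        -(a * t ^ 2) + (-(b * t * (s₁ + s₂)) + -(c * (s₁ ^ 2 + s₁ * s₂ + s₂ ^ 2))) := by ring
    rw [e]
    exact na_lt hv (by rwa [v.map_neg]) (na_lt hv (by rwa [v.map_neg]) (by rwa [v.map_neg]))
  have hs : s₁ = s₂ := by
    rcases mul_eq_zero.1 hid with h | h
    · exact sub_eq_zero.1 h
    · rw [h, map_zero] at hU
      exact absurd hU zero_ne_one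
  have hyy : y₁ = y₂ := by
    have hs0 : s₁ ≠ 0 := left_ne_zero_of_mul (b := y₁) (by rw [e1']; exact one_ne_zero)
    apply mul_left_cancel₀ hs0
    rw [e1', hs, e2']
  rw [← e1, ← e2, hyy]

section

variable [DecidableEq K]

/-- the kernel of reduction is closed under addition -/
theorem fm_add (hv : IsNonarchimedean v) {a b c : K} (ha : v a ≤ 1) (hb : v b ≤ 1)
    (hc : v c ≤ 1) (h2 : v (2 : K) = 1) {P Q : Pt a b c} (hP : Fm v P) (hQ : Fm v Q) :
    Fm v (P + Q) := by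
  rcases P with _ | ⟨x₁, y₁, n₁⟩
  · have : (Affine.Point.zero : Pt a b c) + Q = Q := zero_add Q
    rw [this]; exact hQ
  rcases Q with _ | ⟨x₂, y₂, n₂⟩
  · have : (Affine.Point.some x₁ y₁ n₁ : Pt a b c) + .zero = .some x₁ y₁ n₁ := add_zero _
    rw [this]; exact hP
  rw [fm_some] at hP hQ
  have heq1 := (cv_ns.1 n₁).1
  have heq2 := (cv_ns.1 n₂).1
  obtain ⟨hy1, h11, h12, h13, h14⟩ := val_ts hv ha hb hc hP heq1
  obtain ⟨hy2, h21, h22, h23, h24⟩ := val_ts hv ha hb hc hQ heq2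
  have h20 : (2 : K) ≠ 0 := by
    intro h0; rw [h0, map_zero] at h2; exact zero_ne_one h2
  by_cases hx : x₁ = x₂
  · subst hx
    rcases eq_or_neg n₁ n₂ with h | h
    · rw [← h]
      have hy2' : 2 * y₁ ≠ 0 := mul_ne_zero h20 hy1
      set ℓ := (3 * x₁ ^ 2 + 2 * a * x₁ + b) / (2 * y₁) with hℓ
      have hℓ' : ℓ * (2 * y₁) = 3 * x₁ ^ 2 + 2 * a * x₁ + b := div_mul_cancel₀ _ hy2'
      set ν := y₁ - ℓ * x₁ with hν
      have hy1' : y₁ = ℓ * x₁ + ν := by rw [hν]; ring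
      obtain ⟨hν0, b1, b2⟩ := tangent_bound hv ha hb hc h2 hP heq1 hy1' hℓ' (le_refl (v (x₁ / y₁)))
      obtain ⟨v1, v2⟩ := vieta_tangent heq1 hy1' hℓ'
      obtain ⟨w1, w2, w3⟩ := third_close hv ha hb hc (x₁ := x₁) (x₂ := x₁)
        (x₃ := ℓ ^ 2 - a - x₁ - x₁) (ℓ := ℓ) (ν := ν) (by ring) v1 v2 h13 h12 hν0 b1 b2
        (by rw [← hy1']; exact hy1) (by rw [← hy1']; exact hy1) (by rw [← hy1'])
        (by rw [← hy1'])
      obtain ⟨hns, hadd⟩ := dbl_mk n₁ hy2' hℓ'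
      have e3 : -(ℓ * (ℓ ^ 2 - a - x₁ - x₁ - x₁) + y₁) = -(ℓ * (ℓ ^ 2 - a - x₁ - x₁) + ν) := by
        rw [hν]; ring
      rw [hadd, fm_some]
      refine one_lt_of_y hv ha hb hc ?_ (cv_ns.1 hns).1
      rw [e3, v.map_neg]
      exact w2
    · rw [h, neg_add_cancel]
      exact fm_zero
  · have hxx' : x₁ - x₂ ≠ 0 := sub_ne_zero.2 hx
    have htt : x₁ / y₁ ≠ x₂ / y₂ := fun h => hx (ts_inj hv ha hb hc hP hQ heq1 heq2 h)
    set ℓ := (y₁ - y₂) / (x₁ - x₂) with hℓ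
    have hℓ' : ℓ * (x₁ - x₂) = y₁ - y₂ := div_mul_cancel₀ _ hxx'
    set ν := y₁ - ℓ * x₁ with hν
    have hy1' : y₁ = ℓ * x₁ + ν := by rw [hν]; ring
    have hy2' : y₂ = ℓ * x₂ + ν := by rw [hν]; linear_combination hℓ'
    set r := max (v (x₁ / y₁)) (v (x₂ / y₂)) with hr
    have hr0 : 0 < r := lt_max_of_lt_left h13
    have hr1 : r < 1 := max_lt h12 h22
    obtain ⟨hν0, b1, b2⟩ := chord_bound hv ha hb hc hr0 hr1 hP hQ hx heq1 heq2 hy1' hy2'
      (le_max_left _ _) (le_max_right _ _) htt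
    obtain ⟨v1, v2⟩ := vieta_chord hx heq1 heq2 hy1' hy2'
    obtain ⟨w1, w2, w3⟩ := third_close hv ha hb hc (x₁ := x₁) (x₂ := x₂)
      (x₃ := ℓ ^ 2 - a - x₁ - x₂) (ℓ := ℓ) (ν := ν) (by ring) v1 v2 hr0 hr1 hν0 b1 b2
      (by rw [← hy1']; exact hy1) (by rw [← hy2']; exact hy2)
      (by rw [← hy1']; exact le_max_left _ _) (by rw [← hy2']; exact le_max_right _ _)
    obtain ⟨hns, hadd⟩ := add_mk n₁ n₂ hx hℓ'
    have e3 : -(ℓ * (ℓ ^ 2 - a - x₁ - x₂ - x₁) + y₁) = -(ℓ * (ℓ ^ 2 - a - x₁ - x₂) + ν) := by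
      rw [hν]; ring
    rw [hadd, fm_some]
    refine one_lt_of_y hv ha hb hc ?_ (cv_ns.1 hns).1
    rw [e3, v.map_neg]
    exact w2

theorem fm_nsmul (hv : IsNonarchimedean v) {a b c : K} (ha : v a ≤ 1) (hb : v b ≤ 1)
    (hc : v c ≤ 1) (h2 : v (2 : K) = 1) {P : Pt a b c} (hP : Fm v P) (n : ℕ) :
    Fm v (n • P) := by
  induction n with
  | zero => rw [zero_smul]; exact fm_zero
  | succ n ih =>
    rw [succ_nsmul]
    exact fm_add hv ha hb hc h2 ih hP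

theorem fm_zsmul (hv : IsNonarchimedean v) {a b c : K} (ha : v a ≤ 1) (hb : v b ≤ 1)
    (hc : v c ≤ 1) (h2 : v (2 : K) = 1) {P : Pt a b c} (hP : Fm v P) (n : ℤ) :
    Fm v (n • P) := by
  obtain ⟨m, rfl | rfl⟩ := n.eq_nat_or_neg
  · rw [natCast_zsmul]; exact fm_nsmul hv ha hb hc h2 hP m
  · rw [neg_smul, natCast_zsmul]; exact fm_neg (fm_nsmul hv ha hb hc h2 hP m)

lemma dsc_bezout {R : Type*} [CommRing R] (a b c x : R) : dsc a b c =
    ((18 * b - 6 * a ^ 2) * x + (15 * a * b - 4 * a ^ 3 - 27 * c)) *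
      (x ^ 3 + a * x ^ 2 + b * x + c) +
    ((2 * a ^ 2 - 6 * b) * x ^ 2 + (2 * a ^ 3 - 7 * a * b + 9 * c) * x +
      (a ^ 2 * b + 3 * a * c - 4 * b ^ 2)) * (3 * x ^ 2 + 2 * a * x + b) := by
  unfold dsc
  ring

lemma na_mul_le {x y : K} (hx : v x ≤ 1) (hy : v y ≤ 1) : v (x * y) ≤ 1 := by
  rw [map_mul]; exact mul_le_one₀ hx (v.nonneg _) hy

lemma na_mul_lt {x y : K} (hx : v x ≤ 1) (hy : v y < 1) : v (x * y) < 1 := by
  rw [map_mul]
  calc v x * v y ≤ 1 * v y := by gcongr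
    _ < 1 := by rw [one_mul]; exact hy

lemma na_pow_le {x : K} (hx : v x ≤ 1) (n : ℕ) : v (x ^ n) ≤ 1 := by
  rw [map_pow]; exact pow_le_one₀ (v.nonneg _) hx

/-- the derivative of the cubic is a unit where the ordinate is small -/
lemma deriv_unit (hv : IsNonarchimedean v) {a b c : K} (ha : v a ≤ 1) (hb : v b ≤ 1)
    (hc : v c ≤ 1) (hd : v (dsc a b c) = 1) {x y : K} (hx : v x ≤ 1)
    (hy : v y < 1) (h : y ^ 2 = x ^ 3 + a * x ^ 2 + b * x + c) :
    v (3 * x ^ 2 + 2 * a * x + b) = 1 := by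
  have n (k : ℕ) : v (k : K) ≤ 1 := na_nat hv k
  have hle : v (3 * x ^ 2 + 2 * a * x + b) ≤ 1 := by
    have n3 : v (3 : K) ≤ 1 := by exact_mod_cast n 3
    have n2 : v (2 : K) ≤ 1 := by exact_mod_cast n 2
    exact na_add hv (na_add hv (na_mul_le n3 (na_pow_le hx 2))
      (na_mul_le (na_mul_le n2 ha) hx)) hb
  refine le_antisymm hle ?_
  by_contra hcon
  push Not at hcon
  have hz := dsc_bezout a b c x
  rw [← h] at hz
  have n18 : v (18 : K) ≤ 1 := by exact_mod_cast n 18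
  have n6 : v (6 : K) ≤ 1 := by exact_mod_cast n 6
  have n15 : v (15 : K) ≤ 1 := by exact_mod_cast n 15
  have n4 : v (4 : K) ≤ 1 := by exact_mod_cast n 4
  have n27 : v (27 : K) ≤ 1 := by exact_mod_cast n 27
  have n2 : v (2 : K) ≤ 1 := by exact_mod_cast n 2
  have n7 : v (7 : K) ≤ 1 := by exact_mod_cast n 7
  have n9 : v (9 : K) ≤ 1 := by exact_mod_cast n 9
  have n3 : v (3 : K) ≤ 1 := by exact_mod_cast n 3
  have hlt : v (dsc a b c) < 1 := by
    rw [hz]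
    refine na_lt hv (na_mul_lt ?_ ?_) (na_mul_lt ?_ hcon)
    · refine na_add hv (na_mul_le (na_sub hv (na_mul_le n18 hb) (na_mul_le n6 (na_pow_le ha 2))) hx)
        (na_sub hv (na_sub hv (na_mul_le (na_mul_le n15 ha) hb) (na_mul_le n4 (na_pow_le ha 3)))
          (na_mul_le n27 hc))
    · rw [map_pow]; exact pow_lt_one₀ (v.nonneg _) hy two_ne_zero
    · refine na_add hv (na_add hv (na_mul_le (na_sub hv (na_mul_le n2 (na_pow_le ha 2))
        (na_mul_le n6 hb)) (na_pow_le hx 2)) (na_mul_le (na_add hv (na_sub hv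
        (na_mul_le n2 (na_pow_le ha 3)) (na_mul_le (na_mul_le n7 ha) hb)) (na_mul_le n9 hc)) hx))
        (na_sub hv (na_add hv (na_mul_le (na_pow_le ha 2) hb)
          (na_mul_le (na_mul_le n3 ha) hc)) (na_mul_le n4 (na_pow_le hb 2)))
  rw [hd] at hlt
  exact lt_irrefl _ hlt

lemma y_le (hv : IsNonarchimedean v) {a b c : K} (ha : v a ≤ 1) (hb : v b ≤ 1)
    (hc : v c ≤ 1) {x y : K} (hx : v x ≤ 1)
    (h : y ^ 2 = x ^ 3 + a * x ^ 2 + b * x + c) : v y ≤ 1 := by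
  by_contra hcon
  push Not at hcon
  have := one_lt_of_y hv ha hb hc hcon h
  linarith

lemma big_l (hv : IsNonarchimedean v) {a x₁ x₂ ℓ : K} (ha : v a ≤ 1) (hx1 : v x₁ ≤ 1)
    (hx2 : v x₂ ≤ 1) (hℓ : 1 < v ℓ) : 1 < v (ℓ ^ 2 - a - x₁ - x₂) := by
  have h1 : 1 < v (ℓ ^ 2) := by rw [map_pow]; exact one_lt_pow₀ hℓ two_ne_zero
  have e : ℓ ^ 2 - a - x₁ - x₂ = ℓ ^ 2 + (-a - x₁ - x₂) := by ring
  rw [e, na_eq hv]
  · exact h1
  · refine lt_of_le_of_lt (b := 1) ?_ h1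
    exact na_sub hv (na_sub hv (by rwa [v.map_neg]) hx1) hx2

/-- **The difference of two points with the same reduction.** -/
theorem fm_diff (hv : IsNonarchimedean v) {a b c : K} (ha : v a ≤ 1) (hb : v b ≤ 1)
    (hc : v c ≤ 1) (h2 : v (2 : K) = 1) (hd : v (dsc a b c) = 1) {x₁ y₁ x₂ y₂ : K}
    (n₁ : (cv a b c).toAffine.Nonsingular x₁ y₁) (n₂ : (cv a b c).toAffine.Nonsingular x₂ y₂)
    (hx1 : v x₁ ≤ 1) (hx2 : v x₂ ≤ 1) (hx : v (x₁ - x₂) < 1) (hy : v (y₁ - y₂) < 1) :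
    Fm v ((.some x₁ y₁ n₁ : Pt a b c) - .some x₂ y₂ n₂) := by
  have heq1 := (cv_ns.1 n₁).1
  have heq2 := (cv_ns.1 n₂).1
  have hy1 := y_le hv ha hb hc hx1 heq1
  have hy2 := y_le hv ha hb hc hx2 heq2
  have h20 : (2 : K) ≠ 0 := by
    intro h0; rw [h0, map_zero] at h2; exact zero_ne_one h2
  have n (k : ℕ) : v (k : K) ≤ 1 := na_nat hv k
  have n3 : v (3 : K) ≤ 1 := by exact_mod_cast n 3
  obtain ⟨n₂', hneg⟩ := neg_mk n₂
  rw [sub_eq_add_neg, hneg]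
  by_cases hxx : x₁ = x₂
  · subst hxx
    rcases eq_or_neg n₁ n₂ with h | h
    · rw [← hneg, h, add_neg_cancel]
      exact fm_zero
    · rw [← hneg, ← h]
      rw [hneg, Affine.Point.some.injEq] at h
      have hyy : y₁ = -y₂ := h.2
      have h2y : v (2 * y₁) < 1 := by
        have : 2 * y₁ = y₁ - y₂ := by rw [hyy]; ring
        rw [this]; exact hy
      have hy1' : v y₁ < 1 := by
        rw [map_mul, h2, one_mul] at h2y
        exact h2y
      by_cases h0 : 2 * y₁ = 0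
      · rw [dbl_zero n₁ h0]; exact fm_zero
      · have hder := deriv_unit hv ha hb hc hd hx1 hy1' heq1
        obtain ⟨hns, hadd⟩ := dbl_mk n₁ h0 (ℓ := (3 * x₁ ^ 2 + 2 * a * x₁ + b) / (2 * y₁))
          (div_mul_cancel₀ _ h0)
        rw [hadd, fm_some]
        refine big_l hv ha hx1 hx1 ?_
        rw [map_div₀, hder, one_div]
        exact (one_lt_inv₀ (v.pos h0)).2 h2y
  · have hxx' : x₁ - x₂ ≠ 0 := sub_ne_zero.2 hxx
    obtain ⟨hns, hadd⟩ := add_mk n₁ n₂' hxx (ℓ := (y₁ - -y₂) / (x₁ - x₂))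
      (div_mul_cancel₀ _ hxx')
    rw [hadd, fm_some]
    refine big_l hv ha hx1 hx2 ?_
    rcases hy1.lt_or_eq with hy1' | hy1'
    · -- the ordinates are small
      have hder := deriv_unit hv ha hb hc hd hx1 hy1' heq1
      have hpr : (y₁ - y₂) * (y₁ - -y₂) = (x₁ - x₂) * ((3 * x₁ ^ 2 + 2 * a * x₁ + b) +
          (x₂ - x₁) * (x₂ + 2 * x₁ + a)) := by
        linear_combination heq1 - heq2
      have hunit : v ((3 * x₁ ^ 2 + 2 * a * x₁ + b) + (x₂ - x₁) * (x₂ + 2 * x₁ + a)) = 1 := by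
        rw [na_eq hv, hder]
        rw [hder, mul_comm]
        refine na_mul_lt ?_ ?_
        · exact na_add hv (na_add hv hx2 (na_mul_le h2.le hx1)) ha
        · rw [v.map_sub]; exact hx
      have h1 := congrArg v hpr
      rw [map_mul, map_mul, hunit, mul_one] at h1
      have hyy0 : 0 < v (y₁ - y₂) := by
        rcases (v.nonneg (y₁ - y₂)).lt_or_eq with h | h
        · exact h
        · rw [← h, zero_mul] at h1
          exact absurd h1.symm (v.pos hxx').ne'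
      have hyy1 : 0 < v (y₁ - -y₂) := by
        rcases (v.nonneg (y₁ - -y₂)).lt_or_eq with h | h
        · exact h
        · rw [← h, mul_zero] at h1
          exact absurd h1.symm (v.pos hxx').ne'
      rw [map_div₀, ← h1, lt_div_iff₀ (mul_pos hyy0 hyy1), one_mul]
      calc v (y₁ - y₂) * v (y₁ - -y₂) < 1 * v (y₁ - -y₂) := by gcongr
        _ = v (y₁ - -y₂) := one_mul _
    · -- the ordinates are units
      have h1 : v (y₁ - -y₂) = 1 := by
        have e : y₁ - -y₂ = 2 * y₁ + (y₂ - y₁) := by ring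
        rw [e, na_eq hv, map_mul, h2, hy1', one_mul]
        rw [map_mul, h2, hy1', one_mul, v.map_sub]
        exact hy
      rw [map_div₀, h1, one_div]
      exact (one_lt_inv₀ (v.pos hxx')).2 hx

/-- **Some small multiple of a point is in the kernel of reduction.** -/
theorem exists_mult (hv : IsNonarchimedean v) {a b c : K} (ha : v a ≤ 1) (hb : v b ≤ 1)
    (hc : v c ≤ 1) (h2 : v (2 : K) = 1) (hd : v (dsc a b c) = 1) {F : Type} [Fintype F]
    (ρ : K → F) (hρ : ∀ x y, v x ≤ 1 → v y ≤ 1 → ρ x = ρ y → v (x - y) < 1) (P : Pt a b c) :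
    ∃ M : ℕ, 1 ≤ M ∧ M ≤ Fintype.card F ^ 2 + 1 ∧ Fm v (M • P) := by
  classical
  by_contra hcon
  push Not at hcon
  set N := Fintype.card F ^ 2 + 1 with hN
  have h1 : ∀ k : Fin N, ∃ x y h, ((k : ℕ) + 1) • P = .some x y h ∧ v x ≤ 1 := by
    intro k
    have h3 := hcon ((k : ℕ) + 1) (by omega) (by omega)
    unfold Fm at h3
    push Not at h3
    exact h3
  choose x y h hxy hx using h1
  obtain ⟨i, j, hij, he⟩ := Fintype.exists_ne_map_eq_of_card_lt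
    (fun k : Fin N => (ρ (x k), ρ (y k))) (by
      rw [Fintype.card_prod, Fintype.card_fin, hN]
      nlinarith)
  wlog hlt : j < i generalizing i j with H
  · exact H j i hij.symm he.symm (lt_of_le_of_ne (not_lt.1 hlt) hij)
  rw [Prod.mk.injEq] at he
  have hyi := y_le hv ha hb hc (hx i) (cv_ns.1 (h i)).1
  have hyj := y_le hv ha hb hc (hx j) (cv_ns.1 (h j)).1
  have hfm := fm_diff hv ha hb hc h2 hd (h i) (h j) (hx i) (hx j)
    (hρ _ _ (hx i) (hx j) he.1) (hρ _ _ hyi hyj he.2)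
  rw [← hxy i, ← hxy j] at hfm
  have hsub : ((i : ℕ) + 1) • P - ((j : ℕ) + 1) • P = ((i : ℕ) - (j : ℕ)) • P := by
    have hlt' : (j : ℕ) < (i : ℕ) := hlt
    rw [show (i : ℕ) + 1 = ((i : ℕ) - (j : ℕ)) + ((j : ℕ) + 1) by omega, add_smul,
      add_sub_cancel_right]
  rw [hsub] at hfm
  have hlt' : (j : ℕ) < (i : ℕ) := hlt
  exact hcon _ (by omega) (by have := i.2; omega) hfm

end

end Pool.Agent.Y718.X
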