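import Pool.Agent.Y718.MVX
import Pool.Agent.Y718.Gen2

/-!
# Calabi-Yau double covers over `ℚ`: the closure of the set of nondegenerate rational points
-/

set_option autoImplicit false
set_option linter.unusedSectionVars false
set_option linter.unusedVariables false

open WeierstrassCurve Set Filter Topology Pool.Agent.Y720.MZ Pool.Agent.H581R2
  Pool.Agent.TH729.SQ

namespace Pool.Agent.Y718.X

/-- the `p`-adic absolute value -/
noncomputable abbrev vp (p : ℕ) [Fact p.Prime] : AbsoluteValue ℚ ℝ := Rat.AbsoluteValue.padic p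

lemma vp_eq (p : ℕ) [Fact p.Prime] (x : ℚ) : vp p x = ‖(x : ℚ_[p])‖ := by
  rw [Rat.AbsoluteValue.padic_eq_padicNorm, ← Padic.eq_padicNorm]

lemma vp_one_lt {p : ℕ} [hp : Fact p.Prime] {u : ℚ} (hu : 1 < vp p u) : (p : ℝ) ≤ vp p u := by
  have h0 : u ≠ 0 := by
    rintro rfl
    rw [map_zero] at hu
    linarith
  rw [Rat.AbsoluteValue.padic_eq_padicNorm] at hu ⊢
  obtain ⟨z, hz⟩ := padicNorm.values_discrete (p := p) h0
  rw [hz] at hu ⊢
  push_cast at hu ⊢
  have hp1 : (1 : ℝ) < p := by exact_mod_cast hp.out.one_lt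
  have h1 : 0 < -z := by
    by_contra hc
    push Not at hc
    have := zpow_le_one_of_nonpos₀ hp1.le hc
    linarith
  calc (p : ℝ) = (p : ℝ) ^ (1 : ℤ) := (zpow_one _).symm
    _ ≤ (p : ℝ) ^ (-z) := zpow_le_zpow_right₀ hp1.le (by omega)

/-- the prime number `p ≥ 3` is a good place -/
theorem pl_padic (p : ℕ) [hp : Fact p.Prime] (h3 : 3 ≤ p) : Pl (vp p) p where
  na := by
    intro x y
    rw [Rat.AbsoluteValue.padic_eq_padicNorm, Rat.AbsoluteValue.padic_eq_padicNorm,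
      Rat.AbsoluteValue.padic_eq_padicNorm]
    exact_mod_cast padicNorm.nonarchimedean
  p3 := h3
  unit := by
    intro k hk1 hk
    rw [vp_eq]
    have : ‖((k : ℤ) : ℚ_[p])‖ = 1 := by
      apply norm_int_one
      intro hd
      have := Int.le_of_dvd (by omega) hd
      omega
    have h2 : (((k : ℕ) : ℚ) : ℚ_[p]) = ((k : ℤ) : ℚ_[p]) := by push_cast; rfl
    rw [h2]
    exact this
  lt := by
    rw [vp_eq]
    have h2 : (((p : ℕ) : ℚ) : ℚ_[p]) = (p : ℚ_[p]) := by push_cast; rfl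
    rw [h2, Padic.norm_p]
    exact inv_lt_one_of_one_lt₀ (by exact_mod_cast hp.out.one_lt)
  un := by
    intro u hu
    have h1 := vp_one_lt hu
    have h2 : vp p (p : ℚ) = (p : ℝ)⁻¹ := by
      rw [vp_eq]
      have h2 : (((p : ℕ) : ℚ) : ℚ_[p]) = (p : ℚ_[p]) := by push_cast; rfl
      rw [h2, Padic.norm_p]
    rw [h2]
    have hp1 : (1 : ℝ) < p := by exact_mod_cast hp.out.one_lt
    have hp0 : (0 : ℝ) < p := by linarith
    rw [← div_eq_mul_inv, lt_div_iff₀ hp0, one_mul]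
    nlinarith
  res := by
    classical
    refine ⟨ZMod p, inferInstance, fun x => if h : ‖(x : ℚ_[p])‖ ≤ 1 then
      PadicInt.toZMod (⟨(x : ℚ_[p]), h⟩ : ℤ_[p]) else 0, fun x y hx hy hxy => ?_⟩
    rw [vp_eq] at hx hy ⊢
    simp only [dif_pos hx, dif_pos hy] at hxy
    have key : ∀ X Y : ℤ_[p], PadicInt.toZMod X = PadicInt.toZMod Y → ‖X - Y‖ < 1 := by
      intro X Y hXY
      have h1 : X - Y ∈ RingHom.ker (PadicInt.toZMod : ℤ_[p] →+* ZMod p) := by
        rw [RingHom.mem_ker, map_sub, hXY, sub_self]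
      rw [PadicInt.ker_toZMod, PadicInt.maximalIdeal_eq_span_p, Ideal.mem_span_singleton,
        ← PadicInt.norm_lt_one_iff_dvd] at h1
      exact h1
    have h2 := key _ _ hxy
    rw [PadicInt.norm_def] at h2
    push_cast at h2 ⊢
    exact h2

/-- weak approximation for the real and the `p`-adic absolute values -/
theorem wa_padic (p : ℕ) [hp : Fact p.Prime] : WA (algebraMap ℚ ℝ) (vp p) := by
  intro x ε R hε
  obtain ⟨s0, hs0⟩ := exists_rat_near x (half_pos hε)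
  have hp1 : (1 : ℝ) < p := by exact_mod_cast hp.out.one_lt
  have hp0 : (0 : ℝ) < p := by linarith
  have h1 : Tendsto (fun k : ℕ => ((p : ℝ)⁻¹) ^ k) atTop (𝓝 0) :=
    tendsto_pow_atTop_nhds_zero_of_lt_one (by positivity) (inv_lt_one_of_one_lt₀ hp1)
  have h2 : Tendsto (fun k : ℕ => (p : ℝ) ^ k) atTop atTop := tendsto_pow_atTop_atTop_of_one_lt hp1
  obtain ⟨k, k1, k2⟩ := ((h1.eventually_lt_const (half_pos hε)).and
    (h2.eventually_gt_atTop (max R (vp p s0)))).exists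
  refine ⟨s0 + ((p : ℚ)⁻¹) ^ k, ?_, ?_⟩
  · rw [eq_ratCast]
    push_cast
    have h3 : |(s0 : ℝ) - x| < ε / 2 := by rw [abs_sub_comm]; exact hs0
    have h4 : |((p : ℝ)⁻¹) ^ k| < ε / 2 := by rw [abs_of_nonneg (by positivity)]; exact k1
    have h5 := abs_add_le ((s0 : ℝ) - x) (((p : ℝ)⁻¹) ^ k)
    have e : (s0 : ℝ) + ((p : ℝ)⁻¹) ^ k - x = (s0 : ℝ) - x + ((p : ℝ)⁻¹) ^ k := by ring
    rw [e]
    linarith
  · have h2p : vp p (p : ℚ) = (p : ℝ)⁻¹ := by
      rw [vp_eq]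
      have h2 : (((p : ℕ) : ℚ) : ℚ_[p]) = (p : ℚ_[p]) := by push_cast; rfl
      rw [h2, Padic.norm_p]
    have h3 : vp p (((p : ℚ)⁻¹) ^ k) = (p : ℝ) ^ k := by
      rw [map_pow, map_inv₀, h2p, inv_inv]
    have hna : IsNonarchimedean (vp p) := by
      intro x y
      rw [Rat.AbsoluteValue.padic_eq_padicNorm, Rat.AbsoluteValue.padic_eq_padicNorm,
        Rat.AbsoluteValue.padic_eq_padicNorm]
      exact_mod_cast padicNorm.nonarchimedean
    rw [add_comm, na_eq hna, h3]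
    · exact (le_max_left _ _).trans_lt k2
    · rw [h3]
      exact (le_max_right _ _).trans_lt k2

variable {n : ℕ}

/-- a good place for a nondegenerate point -/
theorem exists_good {f : MvPolynomial (Fin n) ℚ} {z : Fin n → ℚ} (hz : z ∈ TX f) :
    ∃ (p : ℕ) (_ : Fact p.Prime), 3 ≤ p ∧ (∀ d, vp p (f.coeff d) ≤ 1) ∧ GP (vp p) f z := by
  classical
  obtain ⟨⟨w, hw0, hw⟩, hN⟩ := hz
  obtain ⟨M, hM⟩ := good_fin ((f.support.image fun d => f.coeff d) ∪ (Finset.univ.image z) ∪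
    {MvPolynomial.eval z f} ∪ (Finset.univ.image fun i => Db (lk f z (Pi.single i 1))))
  obtain ⟨p, hp, hpp⟩ := Nat.exists_infinite_primes (max M 3 + 1)
  have : Fact p.Prime := ⟨hpp⟩
  have hpM : M < p := lt_of_le_of_lt (le_max_left _ _) (Nat.lt_of_succ_le hp)
  have hp3 : 3 ≤ p := (le_max_right M 3).trans (Nat.le_of_succ_le hp)
  have h := hM p hpM
  refine ⟨p, inferInstance, hp3, ?_, ?_, ?_, ?_⟩
  · intro d
    by_cases hd : d ∈ f.support
    · rw [vp_eq]
      exact (h _ (by simp only [Finset.mem_union]; exact Or.inl (Or.inl (Or.inl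
        (Finset.mem_image_of_mem _ hd))))).1
    · rw [MvPolynomial.notMem_support_iff.1 hd, map_zero]
      exact zero_le_one
  · intro l
    rw [vp_eq]
    exact (h _ (by simp only [Finset.mem_union]; exact Or.inl (Or.inl (Or.inr
        (Finset.mem_image_of_mem _ (Finset.mem_univ l)))))).1
  · rw [vp_eq]
    refine (h _ (by simp only [Finset.mem_union]; exact Or.inl (Or.inr
        (Finset.mem_singleton_self _)))).2 ?_
    rw [← hw]
    exact pow_ne_zero 2 hw0
  · intro i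
    rcases hN i with h1 | h1
    · exact Or.inl h1
    · right
      rw [vp_eq]
      have hm := Finset.mem_image_of_mem (fun i => Db (lk f z (Pi.single i 1))) (Finset.mem_univ i)
      exact (h _ (Finset.mem_union_right _ hm)).2 h1.1

lemma eval₂_aeval (f : MvPolynomial (Fin n) ℚ) (y : Fin n → ℝ) :
    MvPolynomial.eval₂ (algebraMap ℚ ℝ) y f = MvPolynomial.aeval y f := rfl

/-- **Boxes.** -/
theorem box_TX {f : MvPolynomial (Fin n) ℚ} (h4 : ∀ i, Dg f i 4) {x : Fin n → ℝ} {δ : ℝ}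
    (hbox : ∀ y : Fin n → ℝ, (∀ j, |y j - x j| < δ) → (0 : ℝ) < MvPolynomial.aeval y f)
    {z : Fin n → ℚ} (hT : z ∈ TX f) (hzx : ∀ j, |(z j : ℝ) - x j| < δ)
    {y : Fin n → ℝ} (hy : ∀ j, |y j - x j| < δ) {ε : ℝ} (hε : 0 < ε) :
    ∃ z' ∈ TX f, ∀ j, |(z' j : ℝ) - y j| < ε := by
  obtain ⟨p, hp, h3, hf, hgp⟩ := exists_good hT
  obtain ⟨z', -, h1, -, h2⟩ := move_all (algebraMap ℚ ℝ) (pl_padic p h3) (wa_padic p) hf h4
    (x := x) (δ := δ) hbox hgp hT (fun j => by rw [eq_ratCast]; exact hzx j) hy hε Finset.univ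
  exact ⟨z', h1, fun j => by have := h2 j (Finset.mem_univ j); rwa [eq_ratCast] at this⟩

/-- **Local openness.** -/
theorem TX_open {f : MvPolynomial (Fin n) ℚ} (hf : ∀ i, Dg f i 4) {x : Fin n → ℝ}
    (hx : x ∈ closure (rl (TX f))) (hpos : (0 : ℝ) < MvPolynomial.aeval x f) :
    closure (rl (TX f)) ∈ 𝓝 x := by
  obtain ⟨δ, hδ, hball⟩ := Metric.isOpen_iff.mp (isOpen_lt continuous_const (continuous_aeval f)) x hpos
  have hbox : ∀ b : Fin n → ℝ, (∀ i, |b i - x i| < δ) → (0 : ℝ) < MvPolynomial.aeval b f := by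
    intro b hb
    have h1 : b ∈ Metric.ball x δ := by
      rw [Metric.mem_ball, dist_pi_lt_iff hδ]
      intro k
      rw [Real.dist_eq]
      exact hb k
    exact hball h1
  obtain ⟨_, ⟨z0, hz0, rfl⟩, hz0d⟩ := Metric.mem_closure_iff.mp hx δ hδ
  have hz0b : ∀ k, |(z0 k : ℝ) - x k| < δ := by
    intro k
    rw [dist_comm, dist_pi_lt_iff hδ] at hz0d
    have := hz0d k
    rwa [Real.dist_eq] at this
  refine Filter.mem_of_superset (Metric.ball_mem_nhds x hδ) ?_
  intro y hy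
  have hyb : ∀ k, |y k - x k| < δ := by
    intro k
    rw [Metric.mem_ball, dist_pi_lt_iff hδ] at hy
    have := hy k
    rwa [Real.dist_eq] at this
  rw [Metric.mem_closure_iff]
  intro ε hε
  obtain ⟨z, h1, h3⟩ := box_TX hf hbox hz0 hz0b hyb hε
  refine ⟨_, ⟨z, h1, rfl⟩, ?_⟩
  rw [dist_comm, dist_pi_lt_iff hε]
  intro k
  rw [Real.dist_eq]
  exact h3 k

theorem TX_SA {f : MvPolynomial (Fin n) ℚ} (hf : ∀ i, Dg f i 4) :
    SA (closure (rl (TX f))) :=
  base_SA (PF.aeval f) (φq := fun z => MvPolynomial.eval z f)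
    (fun z => Pool.Agent.TH729.SQ.aeval_cast z f) (fun _ hz => hz.1)
    (fun _ hx hpos => TX_open hf hx hpos)

/-- the nondegenerate rational points -/
def coverX (f : MvPolynomial (Fin n) ℚ) : Set (Option (Fin n) → ℚ) :=
  {u | u none ≠ 0 ∧ u none ^ 2 = MvPolynomial.eval (fun k => u (some k)) f ∧
    ∀ i, NDx f i fun k => u (some k)}

lemma coverX_lift (f : MvPolynomial (Fin n) ℚ) :
    rl (coverX f) = lift (fun z => MvPolynomial.eval z f) (TX f) := by
  apply Subset.antisymm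
  · rintro _ ⟨u, ⟨h0, hu, hN⟩, rfl⟩
    refine ⟨fun k => u (some k), ⟨⟨u none, h0, hu⟩, hN⟩, u none, hu, ?_⟩
    funext o
    rcases o with _ | k <;> rfl
  · rintro _ ⟨z, ⟨⟨w0, hw0, hw0'⟩, hN⟩, w, hw, rfl⟩
    refine ⟨fun o => o.elim w z, ⟨?_, hw, hN⟩, ?_⟩
    · intro h
      have h : w = 0 := h
      have hw2 : w ^ 2 = w0 ^ 2 := hw.trans hw0'.symm
      apply hw0
      rw [h] at hw2
      have : w0 ^ 2 = 0 := by linarith
      exact pow_eq_zero_iff (two_ne_zero) |>.mp this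
    · funext o
      rcases o with _ | k <;> rfl

theorem coverX_SA {f : MvPolynomial (Fin n) ℚ} (hf : ∀ i, Dg f i 4) :
    SA (closure (rl (coverX f))) := by
  rw [coverX_lift]
  exact lift_SA (PF.aeval f) (fun z => Pool.Agent.TH729.SQ.aeval_cast z f)
    (fun z hz => by obtain ⟨w, -, hw⟩ := hz.1; exact ⟨w, hw⟩) (TX_SA hf)

/-- the nondegenerate part of the double cover, the coordinate `0` is `w` -/
def dcX (f : MvPolynomial (Fin n) ℚ) : Set (Fin (n + 1) → ℚ) :=
  {u | u 0 ≠ 0 ∧ u 0 ^ 2 = MvPolynomial.eval (fun k => u k.succ) f ∧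
    ∀ i, NDx f i fun k => u k.succ}

theorem dcX_SA (f : MvPolynomial (Fin n) ℚ) (hf : ∀ i, Dg f i 4) :
    SA (closure (rl (dcX f))) := by
  have h := coverX_SA hf
  let e : Option (Fin n) ≃ Fin (n + 1) := (finSuccEquiv n).symm
  refine equiv_SA e h fun y => ?_
  have e0 : e none = 0 := finSuccEquiv_symm_none
  have e1 : ∀ k, e (some k) = k.succ := fun k => finSuccEquiv_symm_some k
  simp only [dcX, coverX, Set.mem_ofPred_eq, e0, e1]

end Pool.Agent.Y718.X
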