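import Pool.Agent.Y718.Forms

/-!
# Derivatives of the covariants, and singular points
-/

set_option autoImplicit false
set_option linter.unusedSectionVars false
set_option linter.unusedSimpArgs false

open MvPolynomial

namespace Pool.Agent.Y718.SF

section alg

variable {K : Type*} [Field K] [CharZero K] {σ : Type*}

/-- the directional derivative -/
noncomputable def dd (V : σ → K) : Derivation K (MvPolynomial σ K) (MvPolynomial σ K) :=
  mkDerivation K (fun i => C (V i))

lemma dd_X (V : σ → K) (i : σ) : dd V (X i) = C (V i) := mkDerivation_X _ _ _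
lemma dd_C (V : σ → K) (c : K) : dd V (C c) = 0 := by
  rw [← algebraMap_eq]
  exact (dd V).map_algebraMap c

lemma dd_mul_X (V : σ → K) (F : MvPolynomial σ K) (i : σ) :
    dd V (F * X i) = F * C (V i) + dd V F * X i := by
  rw [Derivation.leibniz, dd_X, smul_eq_mul, smul_eq_mul, mul_comm (X i)]

lemma dd_lin (a b : K) (V W : σ → K) (F : MvPolynomial σ K) :
    dd (a • V + b • W) F = C a * dd V F + C b * dd W F := by
  induction F using MvPolynomial.induction_on with
  | C c => simp [dd_C]
  | add p q hp hq => rw [map_add, hp, hq, map_add, map_add]; ring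
  | mul_X p i hp =>
    rw [dd_mul_X, hp, dd_mul_X, dd_mul_X]
    simp only [Pi.add_apply, Pi.smul_apply, smul_eq_mul, map_add, map_mul]
    ring

lemma dd_single [DecidableEq σ] (i : σ) (F : MvPolynomial σ K) : dd (Pi.single i 1) F = pderiv i F := by
  have : dd (Pi.single i (1 : K)) = pderiv (R := K) i := by
    apply derivation_ext
    intro j
    rw [dd_X, pderiv_X]
    by_cases h : j = i
    · subst h; simp
    · simp [Pi.single_apply, h]
  rw [this]

variable (F : MvPolynomial σ K) (Z U V : σ → K)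

/-- the derivative of the cubic covariant in the direction `V` -/
noncomputable def pd : K :=
  3 * (lg F Z U).coeff 1 ^ 2 * (lg (dd V F) Z U).coeff 0 - 4 * (lg F Z U).coeff 0 *
    ((lg (dd V F) Z U).coeff 0 * (lg F Z U).coeff 2 + (lg F Z U).coeff 1 * (lg (dd V F) Z U).coeff 1) +
    8 * (lg F Z U).coeff 0 ^ 2 * (lg (dd V F) Z U).coeff 2

/-- the derivative of the cubic covariant if the base point moves in the direction `V` -/
noncomputable def pz : K :=
  3 * (lg F Z U).coeff 1 ^ 2 * (lg (dd V F) Z U).coeff 1 -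
    4 * ((lg (dd V F) Z U).coeff 0 * (lg F Z U).coeff 1 * (lg F Z U).coeff 2 +
      (lg F Z U).coeff 0 * (lg (dd V F) Z U).coeff 1 * (lg F Z U).coeff 2 +
      (lg F Z U).coeff 0 * (lg F Z U).coeff 1 * (lg (dd V F) Z U).coeff 2) +
    8 * (2 * (lg F Z U).coeff 0 * (lg (dd V F) Z U).coeff 0 * (lg F Z U).coeff 3 +
      (lg F Z U).coeff 0 ^ 2 * (lg (dd V F) Z U).coeff 3)

/-- the derivative of the quartic covariant in the direction `V` -/
noncomputable def pt : K :=
  2 * ((lg F Z U).coeff 1 ^ 2 - 4 * (lg F Z U).coeff 0 * (lg F Z U).coeff 2) *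
    (2 * (lg F Z U).coeff 1 * (lg (dd V F) Z U).coeff 0 -
      4 * (lg F Z U).coeff 0 * (lg (dd V F) Z U).coeff 1) -
    64 * (lg F Z U).coeff 0 ^ 3 * (lg (dd V F) Z U).coeff 3

/-- the derivative of the quartic covariant if the base point moves in the direction `V` -/
noncomputable def zt : K :=
  2 * ((lg F Z U).coeff 1 ^ 2 - 4 * (lg F Z U).coeff 0 * (lg F Z U).coeff 2) *
    (2 * (lg F Z U).coeff 1 * (lg (dd V F) Z U).coeff 1 -
      4 * (lg (dd V F) Z U).coeff 0 * (lg F Z U).coeff 2 -
      4 * (lg F Z U).coeff 0 * (lg (dd V F) Z U).coeff 2) -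
    64 * (3 * (lg F Z U).coeff 0 ^ 2 * (lg (dd V F) Z U).coeff 0 * (lg F Z U).coeff 4 +
      (lg F Z U).coeff 0 ^ 3 * (lg (dd V F) Z U).coeff 4)

lemma rel3 : pt F Z U V = 16 * (lg (dd V F) Z U).coeff 0 * gB (lg F Z U) -
    8 * (lg F Z U).coeff 0 * pz F Z U V - 4 * (lg F Z U).coeff 1 * pd F Z U V := by
  simp only [pt, pz, pd, gB]
  ring

lemma rel4 (h4 : (lg (dd V F) Z U).coeff 4 = 0) : (lg F Z U).coeff 0 * zt F Z U V =
    3 * (lg (dd V F) Z U).coeff 0 * gT (lg F Z U) + gQ (lg F Z U) * pd F Z U V := by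
  simp only [zt, pd, gT, gQ, h4]
  ring

lemma pd_lin (a b : K) (W : σ → K) :
    pd F Z U (a • V + b • W) = a * pd F Z U V + b * pd F Z U W := by
  have h : ∀ k, (lg (dd (a • V + b • W) F) Z U).coeff k =
      a * (lg (dd V F) Z U).coeff k + b * (lg (dd W F) Z U).coeff k := by
    intro k
    rw [dd_lin, lg_add, Polynomial.coeff_add]
    have h1 : ∀ (c : K) (G : MvPolynomial σ K), lg (C c * G) Z U = Polynomial.C c * lg G Z U := by
      intro c G
      simp [lg]
    rw [h1, h1, Polynomial.coeff_C_mul, Polynomial.coeff_C_mul]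
  simp only [pd, h]
  ring

end alg

section deriv

variable {𝕜 : Type*} [NontriviallyNormedField 𝕜] [CharZero 𝕜] {σ : Type*}

lemma deriv_U (F : MvPolynomial σ 𝕜) (Z U V : σ → 𝕜) (a : 𝕜) (k : ℕ) :
    HasDerivAt (fun t : 𝕜 => (lg F Z (U + t • V)).coeff k)
      (if k = 0 then 0 else (lg (dd V F) Z (U + a • V)).coeff (k - 1)) a := by
  induction F using MvPolynomial.induction_on generalizing k with
  | C c =>
    have h1 : (fun t : 𝕜 => (lg (C c) Z (U + t • V)).coeff k) = fun _ => (Polynomial.C c).coeff k := by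
      funext t; rw [lg_C]
    rw [h1]
    have h2 : (if k = 0 then (0 : 𝕜) else (lg (dd V (C c)) Z (U + a • V)).coeff (k - 1)) = 0 := by
      rw [dd_C]
      split_ifs
      · rfl
      · simp [lg]
    rw [h2]
    exact hasDerivAt_const _ _
  | add p q hp hq =>
    have h1 : (fun t : 𝕜 => (lg (p + q) Z (U + t • V)).coeff k) =
        fun t => (lg p Z (U + t • V)).coeff k + (lg q Z (U + t • V)).coeff k := by
      funext t; rw [lg_add, Polynomial.coeff_add]
    rw [h1]
    refine ((hp k).add (hq k)).congr_deriv ?_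
    split_ifs
    · ring
    · rw [map_add, lg_add, Polynomial.coeff_add]
  | mul_X p i hp =>
    have hc : ∀ (G : MvPolynomial σ 𝕜) (W : σ → 𝕜) (k : ℕ), (lg (G * X i) Z W).coeff k =
        (lg G Z W).coeff k * Z i + (if k = 0 then 0 else (lg G Z W).coeff (k - 1)) * W i := by
      intro G W k
      have h2 : lg (G * X i) Z W = lg G Z W * Polynomial.C (Z i) +
          (lg G Z W * Polynomial.X) * Polynomial.C (W i) := by
        rw [lg_mul_X]
        ring
      rw [h2, Polynomial.coeff_add, Polynomial.coeff_mul_C, Polynomial.coeff_mul_C]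
      congr 2
      rcases k with _ | k
      · simp
      · simp
    have hlin : HasDerivAt (fun t : 𝕜 => (U + t • V) i) (V i) a := by
      have : (fun t : 𝕜 => (U + t • V) i) = fun t => U i + t * V i := by
        funext t; simp
      rw [this]
      simpa using ((hasDerivAt_id a).mul_const (V i)).const_add (U i)
    have h1 : (fun t : 𝕜 => (lg (p * X i) Z (U + t • V)).coeff k) = fun t =>
        (lg p Z (U + t • V)).coeff k * Z i +
        (if k = 0 then 0 else (lg p Z (U + t • V)).coeff (k - 1)) * (U + t • V) i := by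
      funext t; rw [hc]
    rw [h1]
    rcases k with _ | k
    · simp only [if_true, zero_mul, add_zero]
      have := (hp 0).mul_const (Z i)
      simpa using this
    · simp only [Nat.succ_ne_zero, if_false, Nat.add_sub_cancel]
      refine (((hp (k + 1)).mul_const (Z i)).add ((hp k).mul hlin)).congr_deriv ?_
      simp only [Nat.succ_ne_zero, if_false, Nat.add_sub_cancel]
      rw [dd_mul_X, lg_add, Polynomial.coeff_add, hc]
      have h3 : lg (p * C (V i)) Z (U + a • V) = lg p Z (U + a • V) * Polynomial.C (V i) := by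
        simp [lg]
      rw [h3, Polynomial.coeff_mul_C]
      ring

lemma deriv_Z (F : MvPolynomial σ 𝕜) (Z U V : σ → 𝕜) (a : 𝕜) (k : ℕ) :
    HasDerivAt (fun t : 𝕜 => (lg F (Z + t • V) U).coeff k) ((lg (dd V F) (Z + a • V) U).coeff k) a := by
  induction F using MvPolynomial.induction_on generalizing k with
  | C c =>
    have h1 : (fun t : 𝕜 => (lg (C c) (Z + t • V) U).coeff k) = fun _ => (Polynomial.C c).coeff k := by
      funext t; rw [lg_C]
    rw [h1]
    have h2 : (lg (dd V (C c)) (Z + a • V) U).coeff k = 0 := by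
      rw [dd_C]
      simp [lg]
    rw [h2]
    exact hasDerivAt_const _ _
  | add p q hp hq =>
    have h1 : (fun t : 𝕜 => (lg (p + q) (Z + t • V) U).coeff k) =
        fun t => (lg p (Z + t • V) U).coeff k + (lg q (Z + t • V) U).coeff k := by
      funext t; rw [lg_add, Polynomial.coeff_add]
    rw [h1]
    refine ((hp k).add (hq k)).congr_deriv ?_
    rw [map_add, lg_add, Polynomial.coeff_add]
  | mul_X p i hp =>
    have hc : ∀ (G : MvPolynomial σ 𝕜) (W : σ → 𝕜) (k : ℕ), (lg (G * X i) W U).coeff k =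
        (lg G W U).coeff k * W i + (if k = 0 then 0 else (lg G W U).coeff (k - 1)) * U i := by
      intro G W k
      have h2 : lg (G * X i) W U = lg G W U * Polynomial.C (W i) +
          (lg G W U * Polynomial.X) * Polynomial.C (U i) := by
        rw [lg_mul_X]
        ring
      rw [h2, Polynomial.coeff_add, Polynomial.coeff_mul_C, Polynomial.coeff_mul_C]
      congr 2
      rcases k with _ | k
      · simp
      · simp
    have hlin : HasDerivAt (fun t : 𝕜 => (Z + t • V) i) (V i) a := by
      have : (fun t : 𝕜 => (Z + t • V) i) = fun t => Z i + t * V i := by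
        funext t; simp
      rw [this]
      simpa using ((hasDerivAt_id a).mul_const (V i)).const_add (Z i)
    have h1 : (fun t : 𝕜 => (lg (p * X i) (Z + t • V) U).coeff k) = fun t =>
        (lg p (Z + t • V) U).coeff k * (Z + t • V) i +
        (if k = 0 then 0 else (lg p (Z + t • V) U).coeff (k - 1)) * U i := by
      funext t; rw [hc]
    rw [h1]
    have h3 : lg (p * C (V i)) (Z + a • V) U = lg p (Z + a • V) U * Polynomial.C (V i) := by
      simp [lg]
    rcases k with _ | k
    · simp only [if_true, zero_mul, add_zero]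
      refine ((hp 0).mul hlin).congr_deriv ?_
      rw [dd_mul_X, lg_add, Polynomial.coeff_add, hc, h3, Polynomial.coeff_mul_C]
      simp only [if_true]
      ring
    · simp only [Nat.succ_ne_zero, if_false, Nat.add_sub_cancel]
      refine (((hp (k + 1)).mul hlin).add ((hp k).mul_const (U i))).congr_deriv ?_
      rw [dd_mul_X, lg_add, Polynomial.coeff_add, hc, h3, Polynomial.coeff_mul_C]
      simp only [Nat.succ_ne_zero, if_false, Nat.add_sub_cancel]
      ring

lemma gB_deriv (F : MvPolynomial σ 𝕜) (Z U V : σ → 𝕜) (a : 𝕜) :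
    HasDerivAt (fun t : 𝕜 => gB (lg F Z (U + t • V))) (pd F Z (U + a • V) V) a := by
  have h0 := deriv_U F Z U V a 0
  have h1 := deriv_U F Z U V a 1
  have h2 := deriv_U F Z U V a 2
  have h3 := deriv_U F Z U V a 3
  simp only [if_true, Nat.succ_ne_zero, if_false, one_ne_zero, OfNat.ofNat_ne_zero, Nat.sub_self] at h0 h1 h2 h3
  have := ((h1.pow 3).sub (((h0.const_mul 4).mul h1).mul h2)).add (((h0.pow 2).const_mul 8).mul h3)
  refine this.congr_deriv ?_
  simp only [pd, Pi.mul_apply, Pi.pow_apply, Pi.sub_apply, Pi.add_apply, Nat.reduceSub]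
  push_cast
  ring

lemma gT_deriv (F : MvPolynomial σ 𝕜) (Z U V : σ → 𝕜) (a : 𝕜) :
    HasDerivAt (fun t : 𝕜 => gT (lg F Z (U + t • V))) (pt F Z (U + a • V) V) a := by
  have h0 := deriv_U F Z U V a 0
  have h1 := deriv_U F Z U V a 1
  have h2 := deriv_U F Z U V a 2
  have h4 := deriv_U F Z U V a 4
  simp only [if_true, Nat.succ_ne_zero, if_false, one_ne_zero, OfNat.ofNat_ne_zero, Nat.sub_self] at h0 h1 h2 h4
  have := (((h1.pow 2).sub ((h0.const_mul 4).mul h2)).pow 2).sub (((h0.pow 3).const_mul 64).mul h4)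
  refine this.congr_deriv ?_
  simp only [pt, Pi.mul_apply, Pi.pow_apply, Pi.sub_apply, Pi.add_apply, Nat.reduceSub]
  push_cast
  ring

lemma gB_derivZ (F : MvPolynomial σ 𝕜) (Z U V : σ → 𝕜) :
    HasDerivAt (fun t : 𝕜 => gB (lg F (Z + t • V) U)) (pz F Z U V) 0 := by
  have h0 := deriv_Z F Z U V 0 0
  have h1 := deriv_Z F Z U V 0 1
  have h2 := deriv_Z F Z U V 0 2
  have h3 := deriv_Z F Z U V 0 3
  have := ((h1.pow 3).sub (((h0.const_mul 4).mul h1).mul h2)).add (((h0.pow 2).const_mul 8).mul h3)
  refine this.congr_deriv ?_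
  simp only [zero_smul, add_zero, pz, Pi.mul_apply, Pi.pow_apply, Pi.sub_apply, Pi.add_apply, Nat.reduceSub]
  push_cast
  ring

lemma gT_derivZ (F : MvPolynomial σ 𝕜) (Z U V : σ → 𝕜) :
    HasDerivAt (fun t : 𝕜 => gT (lg F (Z + t • V) U)) (zt F Z U V) 0 := by
  have h0 := deriv_Z F Z U V 0 0
  have h1 := deriv_Z F Z U V 0 1
  have h2 := deriv_Z F Z U V 0 2
  have h4 := deriv_Z F Z U V 0 4
  have := (((h1.pow 2).sub ((h0.const_mul 4).mul h2)).pow 2).sub (((h0.pow 3).const_mul 64).mul h4)
  refine this.congr_deriv ?_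
  simp only [zero_smul, add_zero, zt, Pi.mul_apply, Pi.pow_apply, Pi.sub_apply, Pi.add_apply, Nat.reduceSub]
  push_cast
  ring

lemma eval_deriv (F : MvPolynomial σ 𝕜) (y V : σ → 𝕜) :
    HasDerivAt (fun t : 𝕜 => eval (y + t • V) F) (eval y (dd V F)) 0 := by
  have h := deriv_Z F y 0 V 0 0
  have e : ∀ (G : MvPolynomial σ 𝕜) (W : σ → 𝕜), (lg G W 0).coeff 0 = eval W G := by
    intro G W
    rw [Polynomial.coeff_zero_eq_eval_zero, lg_eval, smul_zero, add_zero]
  simp only [e, zero_smul, add_zero] at h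
  exact h

lemma gQ_diff (F : MvPolynomial σ 𝕜) (Z U V : σ → 𝕜) :
    DifferentiableAt 𝕜 (fun t : 𝕜 => gQ (lg F Z (U + t • V))) 0 := by
  have h0 := (deriv_U F Z U V 0 0).differentiableAt
  have h1 := (deriv_U F Z U V 0 1).differentiableAt
  have h2 := (deriv_U F Z U V 0 2).differentiableAt
  exact ((h0.const_mul 4).mul h2).sub (h1.pow 2)

end deriv

end Pool.Agent.Y718.SF
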