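import Pool.Agent.Y718.RatPt

/-!
# Double covers of projective space branched along smooth quartic hypersurfaces
-/

set_option autoImplicit false
set_option linter.unusedSectionVars false
set_option linter.unusedSimpArgs false

open Set Filter Topology Pool.Agent.H581R2 Pool.Agent.TH729.SQ

namespace Pool.Agent.Y718

open SF

variable {n : ℕ}

/-- finite sets of rational points -/
lemma fin_SA {ι : Type} [Finite ι] {S : Set (ι → ℚ)} (hS : S.Finite) : SA (closure (rl S)) := by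
  have h1 : ∀ a ∈ S, SA (closure (rl ({a} : Set (ι → ℚ)))) := by
    intro a _
    have h2 : rl ({a} : Set (ι → ℚ)) = {fun i => (a i : ℝ)} := by
      ext x
      constructor
      · rintro ⟨r, hr, rfl⟩
        rw [Set.mem_singleton_iff] at hr
        rw [hr]; rfl
      · rintro rfl
        exact ⟨a, rfl, rfl⟩
    rw [h2, closure_singleton]
    have h3 : SAP (fun v : ι → ℝ => ∀ i, v i = ((a i : ℚ) : ℝ)) :=
      SAP.forall_fin fun i => SAP.eq (PF.coord i) (PF.const (a i))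
    refine SAP.congr (q := fun v => v ∈ ({fun i => (a i : ℝ)} : Set (ι → ℝ))) h3 fun v => ?_
    rw [Set.mem_singleton_iff, funext_iff]
  have h2 := biUnion_SA hS h1
  have h3 : (⋃ a ∈ S, ({a} : Set (ι → ℚ))) = S := by simp
  rwa [h3] at h2

lemma rl_finite {ι : Type} {S : Set (ι → ℚ)} (hS : S.Finite) : (rl S).Finite := by
  refine (hS.image (fun r i => (r i : ℝ))).subset ?_
  rintro _ ⟨r, hr, rfl⟩
  exact ⟨r, hr, rfl⟩

/-- the points of the double cover over a set of parameters -/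
def up (f : MvPolynomial (Fin n) ℚ) (S : Set (Fin n → ℚ)) : Set (Fin (n + 1) → ℚ) :=
  {u | (fun k => u k.succ) ∈ S ∧ u 0 ^ 2 = MvPolynomial.eval (fun k => u k.succ) f}

theorem up_closure (f : MvPolynomial (Fin n) ℚ) {S : Set (Fin n → ℚ)}
    (hS : ∀ z ∈ S, ∃ w : ℚ, w ^ 2 = MvPolynomial.eval z f) :
    closure (rl (up f S)) = {x : Fin (n + 1) → ℝ | (fun k => x k.succ) ∈ closure (rl S) ∧
      x 0 ^ 2 = MvPolynomial.aeval (fun k => x k.succ) f} := by
  have hφc : Continuous fun z : Fin n → ℝ => (MvPolynomial.aeval z f : ℝ) := continuous_aeval f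
  have hsome : Continuous fun u : Fin (n + 1) → ℝ => fun i : Fin n => u i.succ := by fun_prop
  have hnone : Continuous fun u : Fin (n + 1) → ℝ => u 0 := by fun_prop
  apply Subset.antisymm
  · refine closure_minimal ?_ ?_
    · rintro _ ⟨u, ⟨hu, hw⟩, rfl⟩
      refine ⟨subset_closure ⟨_, hu, rfl⟩, ?_⟩
      have h1 := Pool.Agent.TH729.SQ.aeval_cast (fun k => u k.succ) f
      show ((u 0 : ℚ) : ℝ) ^ 2 = MvPolynomial.aeval (fun k : Fin n => ((u k.succ : ℚ) : ℝ)) f
      rw [h1, ← hw]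
      push_cast
      rfl
    · exact (isClosed_closure.preimage hsome).inter (isClosed_eq (hnone.pow 2) (hφc.comp hsome))
  · rintro u ⟨hu1, hu2⟩
    obtain ⟨x, hx, hx'⟩ := mem_closure_iff_seq_limit.1 hu1
    choose z hz hzx using hx
    choose w hw using fun n => hS (z n) (hz n)
    have hφx : ∀ n, (MvPolynomial.aeval (x n) f : ℝ) = (w n : ℝ) ^ 2 := by
      intro n
      rw [hzx n, Pool.Agent.TH729.SQ.aeval_cast, ← hw n]
      push_cast
      rfl
    have hsq : ∀ n, Real.sqrt (MvPolynomial.aeval (x n) f) = |(w n : ℝ)| := by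
      intro n
      rw [hφx, Real.sqrt_sq_eq_abs]
    have hlim : Tendsto (fun n => Real.sqrt (MvPolynomial.aeval (x n) f)) atTop
        (𝓝 (Real.sqrt (MvPolynomial.aeval (fun i => u i.succ) f))) :=
      ((Real.continuous_sqrt.comp hφc).tendsto _).comp hx'
    have hu2' : Real.sqrt (MvPolynomial.aeval (fun i => u i.succ) f) = |u 0| := by
      rw [← hu2, Real.sqrt_sq_eq_abs]
    rw [hu2'] at hlim
    have hpi : ∀ s : ℕ → ℝ, Tendsto s atTop (𝓝 (u 0)) →
        Tendsto (fun n => (Fin.cons (s n) (x n) : Fin (_ + 1) → ℝ)) atTop (𝓝 u) := by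
      intro s hs
      rw [tendsto_pi_nhds]
      intro o
      refine Fin.cases ?_ (fun i => ?_) o
      · simpa using hs
      · simpa using (tendsto_pi_nhds.1 hx') i
    rcases le_total 0 (u 0) with h0 | h0
    · have h1 := hpi (fun n => Real.sqrt (MvPolynomial.aeval (x n) f)) (by
        rwa [abs_of_nonneg h0] at hlim)
      refine mem_closure_of_tendsto h1 (Eventually.of_forall fun n => ?_)
      refine ⟨Fin.cons |w n| (z n), ⟨?_, ?_⟩, ?_⟩
      · simpa using hz n
      · simpa using hw n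
      · funext o
        refine Fin.cases ?_ (fun i => ?_) o
        · simp [hsq]
        · simp [hzx n]
    · have h1 := hpi (fun n => -Real.sqrt (MvPolynomial.aeval (x n) f)) (by
        have := hlim.neg
        rwa [abs_of_nonpos h0, neg_neg] at this)
      refine mem_closure_of_tendsto h1 (Eventually.of_forall fun n => ?_)
      refine ⟨Fin.cons (-|w n|) (z n), ⟨?_, ?_⟩, ?_⟩
      · simpa using hz n
      · simpa using hw n
      · funext o
        refine Fin.cases ?_ (fun i => ?_) o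
        · simp [hsq]
        · simp [hzx n]

/-- the rational points of the double cover which are not on the ramification divisor -/
def X0 (f : MvPolynomial (Fin n) ℚ) : Set (Fin (n + 1) → ℚ) :=
  {u | u 0 ≠ 0 ∧ u 0 ^ 2 = MvPolynomial.eval (fun k => u k.succ) f}

/-- the exceptional part -/
def XE (f : MvPolynomial (Fin n) ℚ) (E : Set (Fin n → ℚ)) : Set (Fin (n + 1) → ℚ) :=
  {u | u ∈ X0 f ∧ (fun k => u k.succ) ∈ E}

lemma XE_finite (f : MvPolynomial (Fin n) ℚ) {E : Set (Fin n → ℚ)} (hE : E.Finite) : (XE f E).Finite := by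
  have h1 : XE f E ⊆ ⋃ z ∈ E, (fun w : ℚ => (Fin.cons w z : Fin (n + 1) → ℚ)) ''
      {w | w ^ 2 = MvPolynomial.eval z f} := by
    rintro u ⟨⟨-, hu⟩, hE⟩
    simp only [Set.mem_iUnion]
    refine ⟨_, hE, u 0, hu, ?_⟩
    funext o
    refine Fin.cases ?_ (fun i => ?_) o
    · simp
    · simp
  refine (hE.biUnion fun z _ => Set.Finite.image _ ?_).subset h1
  by_cases hne : ∃ w0 : ℚ, w0 ^ 2 = MvPolynomial.eval z f
  · obtain ⟨w0, hw0⟩ := hne
    refine ((Set.finite_singleton w0).union (Set.finite_singleton (-w0))).subset ?_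
    intro w hw
    have hw : w ^ 2 = MvPolynomial.eval z f := hw
    rw [← hw0] at hw
    rcases sq_eq_sq_iff_eq_or_eq_neg.mp hw with h | h
    · exact Or.inl h
    · exact Or.inr h
  · refine Set.finite_empty.subset ?_
    intro w hw
    exact absurd ⟨w, hw⟩ hne

section gen

variable {f : MvPolynomial (Fin n) ℚ} {E : Set (Fin n → ℚ)}

lemma X0_eq (h : ∀ z, (∃ w : ℚ, w ≠ 0 ∧ w ^ 2 = MvPolynomial.eval z f) → z ∈ E ∨ ∀ i, Nondeg2 f i z) :
    X0 f = up f (SG2 f) ∪ XE f E := by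
  ext u
  constructor
  · rintro ⟨h0, hu⟩
    rcases h (fun k => u k.succ) ⟨u 0, h0, hu⟩ with h1 | h1
    · exact Or.inr ⟨⟨h0, hu⟩, h1⟩
    · exact Or.inl ⟨⟨h1, u 0, h0, hu⟩, hu⟩
  · rintro (⟨⟨h1, w, hw0, hw⟩, hu⟩ | ⟨h1, -⟩)
    · refine ⟨?_, hu⟩
      intro h0
      rw [h0] at hu
      apply hw0
      have : w ^ 2 = 0 := by rw [hw, ← hu]; ring
      exact pow_eq_zero_iff (two_ne_zero) |>.mp this
    · exact h1

theorem X0_SA (hf : ∀ i, f.degreeOf i ≤ 4) (hE : E.Finite)
    (h : ∀ z, (∃ w : ℚ, w ≠ 0 ∧ w ^ 2 = MvPolynomial.eval z f) → z ∈ E ∨ ∀ i, Nondeg2 f i z) :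
    SA (closure (rl (X0 f))) := by
  rw [X0_eq h]
  refine union_SA ?_ (fin_SA (XE_finite f hE))
  rw [up_closure f (fun z hz => by obtain ⟨w, -, hw⟩ := hz.2; exact ⟨w, hw⟩)]
  refine SAP.and ?_ (SAP.eq ((PF.coord 0).pow 2) ?_)
  · exact SAP.preimage (p := fun v => v ∈ closure (rl (SG2 f))) (SG2_SA hf) (fun i => PF.coord i.succ)
  · exact PF.comp (PF.aeval f) (fun i => PF.coord i.succ)

/-- **the dichotomy for connected sets** -/
theorem X0_mazur (hf : ∀ i, f.degreeOf i ≤ 4) (hE : E.Finite)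
    (h : ∀ z, (∃ w : ℚ, w ≠ 0 ∧ w ^ 2 = MvPolynomial.eval z f) → z ∈ E ∨ ∀ i, Nondeg2 f i z) :
    ∃ E' : Set (Fin (n + 1) → ℝ), E'.Finite ∧ ∀ U : Set (Fin (n + 1) → ℝ),
      (∀ x ∈ U, x 0 ≠ 0 ∧ x 0 ^ 2 = MvPolynomial.aeval (fun k => x k.succ) f) → IsPreconnected U →
      U ⊆ closure (rl (X0 f)) ∨ U ∩ closure (rl (X0 f)) ⊆ E' := by
  refine ⟨rl (XE f E), rl_finite (XE_finite f hE), fun U hU hUc => ?_⟩
  have hcl : closure (rl (X0 f)) = {x : Fin (n + 1) → ℝ | (fun k => x k.succ) ∈ closure (rl (SG2 f)) ∧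
      x 0 ^ 2 = MvPolynomial.aeval (fun k => x k.succ) f} ∪ rl (XE f E) := by
    rw [X0_eq h, rl_union, closure_union,
      up_closure f (fun z hz => by obtain ⟨w, -, hw⟩ := hz.2; exact ⟨w, hw⟩),
      (rl_finite (XE_finite f hE)).isClosed.closure_eq]
  rw [hcl]
  have hπ : Continuous fun u : Fin (n + 1) → ℝ => fun i : Fin n => u i.succ := by fun_prop
  have hUπ : IsPreconnected ((fun u : Fin (n + 1) → ℝ => fun i : Fin n => u i.succ) '' U) :=
    hUc.image _ hπ.continuousOn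
  have hpos : ∀ x ∈ U, (0 : ℝ) < MvPolynomial.aeval (fun k => x k.succ) f := by
    intro x hx
    obtain ⟨h0, h1⟩ := hU x hx
    rw [← h1]; positivity
  have hcov : ((fun u : Fin (n + 1) → ℝ => fun i : Fin n => u i.succ) '' U) ⊆
      interior (closure (rl (SG2 f))) ∪ (closure (rl (SG2 f)))ᶜ := by
    rintro _ ⟨x, hx, rfl⟩
    by_cases hxW : (fun i : Fin n => x i.succ) ∈ closure (rl (SG2 f))
    · exact Or.inl (mem_interior_iff_mem_nhds.mpr (SG2_open hf hxW (hpos x hx)))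
    · exact Or.inr hxW
  rcases hUπ.subset_or_subset isOpen_interior isClosed_closure.isOpen_compl
    (Set.disjoint_compl_right_iff_subset.mpr interior_subset) hcov with h1 | h1
  · left
    intro x hx
    exact Or.inl ⟨interior_subset (h1 ⟨x, hx, rfl⟩), (hU x hx).2⟩
  · right
    rintro x ⟨hx, hx1 | hx1⟩
    · exact absurd hx1.1 (h1 ⟨x, hx, rfl⟩)
    · exact hx1

end gen

/-- the exceptional rational points of the chart -/
def Exc (F : MvPolynomial (Fin (n + 1)) ℚ) (p : Fin (n + 1)) : Set (Fin n → ℚ) :=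
  {z | (fun i => (z i : ℝ)) ∈ Ex0 F p ∨ ∃ l : Fin (n + 1) → ℝ, Sum.elim (fun i => (z i : ℝ)) l ∈ Ex1 F p}

theorem Ex1_fin {F : MvPolynomial (Fin (n + 1)) ℚ} (hF : F.IsHomogeneous 4) (hsm : Smooth (FC F))
    (hn : 2 ≤ n) (p : Fin (n + 1)) : (Ex1 F p).Finite := by
  rcases hn.eq_or_lt with rfl | h
  · exact Ex1_finite hF hsm p
  · rw [Ex1_empty hF hsm h p]; exact Set.finite_empty

theorem Exc_finite {F : MvPolynomial (Fin (n + 1)) ℚ} (hF : F.IsHomogeneous 4) (hsm : Smooth (FC F))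
    (hn : 2 ≤ n) (p : Fin (n + 1)) : (Exc F p).Finite := by
  have hinj : Function.Injective (fun (z : Fin n → ℚ) (i : Fin n) => (z i : ℝ)) := by
    intro a b hab
    funext i
    have := congrFun hab i
    exact Rat.cast_injective this
  have h1 : ((fun (z : Fin n → ℚ) (i : Fin n) => (z i : ℝ)) ⁻¹' (Ex0 F p ∪
      (fun w : Fin n ⊕ Fin (n + 1) → ℝ => fun j => w (Sum.inl j)) '' Ex1 F p)).Finite :=
    (((Ex0_finite hF hsm p).union ((Ex1_fin hF hsm hn p).image _))).preimage hinj.injOn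
  refine h1.subset ?_
  rintro z (h | ⟨l, h⟩)
  · exact Or.inl h
  · exact Or.inr ⟨_, h, rfl⟩

theorem chart_cond {F : MvPolynomial (Fin (n + 1)) ℚ} (hF : F.IsHomogeneous 4) (p : Fin (n + 1))
    (z : Fin n → ℚ) (h : ∃ w : ℚ, w ≠ 0 ∧ w ^ 2 = MvPolynomial.eval z (deh F p)) :
    z ∈ Exc F p ∨ ∀ i, Nondeg2 (deh F p) i z := by
  obtain ⟨w, hw0, hw⟩ := h
  rw [deh_eval] at hw
  have he : MvPolynomial.eval (ic p 1 z) F ≠ 0 := by
    rw [← hw]; exact pow_ne_zero _ hw0
  by_cases hN : ∀ v u, ¬ NDP (deh F p) z v u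
  · exact Or.inl (exceptional hF p he hN)
  · right
    push Not at hN
    obtain ⟨v, u, hN⟩ := hN
    intro i
    exact Or.inr ⟨⊤, trivial, deh_quartic hF p, v, trivial, u, trivial, hN⟩

/-- **The charts.** -/
theorem chart_SA {F : MvPolynomial (Fin (n + 1)) ℚ} (hF : F.IsHomogeneous 4) (hsm : Smooth (FC F))
    (hn : 2 ≤ n) (p : Fin (n + 1)) : SA (closure (rl (X0 (deh F p)))) :=
  X0_SA (deh_degree hF p) (Exc_finite hF hsm hn p) (chart_cond hF p)

theorem chart_mazur {F : MvPolynomial (Fin (n + 1)) ℚ} (hF : F.IsHomogeneous 4) (hsm : Smooth (FC F))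
    (hn : 2 ≤ n) (p : Fin (n + 1)) :
    ∃ E' : Set (Fin (n + 1) → ℝ), E'.Finite ∧ ∀ U : Set (Fin (n + 1) → ℝ),
      (∀ x ∈ U, x 0 ≠ 0 ∧ x 0 ^ 2 = MvPolynomial.aeval (fun k => x k.succ) (deh F p)) → IsPreconnected U →
      U ⊆ closure (rl (X0 (deh F p))) ∨ U ∩ closure (rl (X0 (deh F p))) ⊆ E' :=
  X0_mazur (deh_degree hF p) (Exc_finite hF hsm hn p) (chart_cond hF p)

/-- the rational points of the cone with nonzero `w` -/
def Cone (F : MvPolynomial (Fin (n + 1)) ℚ) : Set (Fin (n + 2) → ℚ) :=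
  {u | u 0 ≠ 0 ∧ u 0 ^ 2 = MvPolynomial.eval (fun k => u k.succ) F}

/-- the part of the cone over a chart -/
def ConeP (F : MvPolynomial (Fin (n + 1)) ℚ) (p : Fin (n + 1)) : Set (Fin (n + 2) → ℚ) :=
  {u | u ∈ Cone F ∧ u p.succ ≠ 0}

lemma PQ_ic {K : Type} (p : Fin (n + 1)) {g : (K → ℚ) → ℚ} (hg : PQ g) {φ : Fin n → (K → ℚ) → ℚ}
    (hφ : ∀ j, PQ (φ j)) (i : Fin (n + 1)) : PQ (fun w => ic p (g w) (fun j => φ j w) i) := by
  rcases Fin.eq_self_or_eq_succAbove p i with h | ⟨j, rfl⟩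
  · rw [h]
    have : (fun w : K → ℚ => ic p (g w) (fun j => φ j w) p) = g := funext fun w => ic_same _ _ _
    rw [this]; exact hg
  · have : (fun w : K → ℚ => ic p (g w) (fun j => φ j w) (p.succAbove j)) = fun w => φ j w :=
      funext fun w => ic_above _ _ _ _
    rw [this]; exact hφ j

theorem ConeP_SA {F : MvPolynomial (Fin (n + 1)) ℚ} (hF : F.IsHomogeneous 4) (hsm : Smooth (FC F))
    (hn : 2 ≤ n) (p : Fin (n + 1)) : SA (closure (rl (ConeP F p))) := by
  -- the parametrization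
  let P : Fin (n + 2) → (Fin (n + 1) ⊕ Unit → ℚ) → ℚ := fun k v =>
    v (Sum.inr ()) * (Fin.cons (v (Sum.inr ()) ^ 2 * v (Sum.inl 0))
      (fun i => v (Sum.inr ()) * ic p 1 (fun j => v (Sum.inl j.succ)) i) : Fin (n + 2) → ℚ) k
  have hP : ∀ k, PQ (P k) := by
    intro k
    refine PQ.mul (PQ.coord _) ?_
    refine Fin.cases ?_ (fun i => ?_) k
    · simp only [Fin.cons_zero]
      exact ((PQ.coord _).pow 2).mul (PQ.coord _)
    · simp only [Fin.cons_succ]
      exact (PQ.coord _).mul (PQ_ic p (PQ.const 1) (fun j => PQ.coord _) i)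
  refine img_SA (κ := Unit) (chart_SA hF hsm hn p) (q := fun v => v (Sum.inr ())) (PQ.coord _)
    hP fun y => ?_
  constructor
  · rintro ⟨⟨h0, hy⟩, hp⟩
    set l := y p.succ with hl
    set z : Fin n → ℚ := fun j => y (p.succAbove j).succ / l with hz
    have hZ : (fun k : Fin (n + 1) => y k.succ) = l • ic p 1 z := by
      apply ic_ext p
      · simp [ic_same, hl]
      · intro j
        simp only [Pi.smul_apply, ic_above, smul_eq_mul, hz]
        field_simp
    refine ⟨Fin.cons (y 0 / l ^ 2) z, ⟨?_, ?_⟩, fun _ => l, hp, fun k => ?_⟩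
    · simp only [Fin.cons_zero]
      exact div_ne_zero h0 (pow_ne_zero _ hp)
    · simp only [Fin.cons_zero, Fin.cons_succ]
      rw [deh_eval]
      rw [hZ, hom_smul hF] at hy
      rw [div_pow, hy]
      field_simp
    · simp only [P, Sum.elim_inr, Sum.elim_inl]
      rw [mul_div_cancel_left₀ _ hp]
      refine Fin.cases ?_ (fun i => ?_) k
      · simp only [Fin.cons_zero]
        field_simp
      · simp only [Fin.cons_succ]
        exact congrFun hZ i
  · rintro ⟨x, ⟨hx0, hx⟩, u, hu, hy⟩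
    have hu' : u () ≠ 0 := hu
    have hk : ∀ k, y k = (Fin.cons (u () ^ 2 * x 0)
        (fun i => u () * ic p 1 (fun j => x j.succ) i) : Fin (n + 2) → ℚ) k := by
      intro k
      rw [hy k]
      simp only [P, Sum.elim_inr, Sum.elim_inl]
      rw [mul_div_cancel_left₀ _ hu']
    have hy0 : y 0 = u () ^ 2 * x 0 := by rw [hk 0, Fin.cons_zero]
    have hZ : (fun k : Fin (n + 1) => y k.succ) = u () • ic p 1 (fun j => x j.succ) := by
      funext i
      rw [hk i.succ, Fin.cons_succ]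
      rfl
    refine ⟨⟨?_, ?_⟩, ?_⟩
    · rw [hy0]; exact mul_ne_zero (pow_ne_zero _ hu') hx0
    · rw [hZ, hom_smul hF, hy0, mul_pow, hx, deh_eval]
      ring
    · have := congrFun hZ p
      simp only [Pi.smul_apply, ic_same, smul_eq_mul, mul_one] at this
      rw [this]; exact hu'

/-- **The cone.** -/
theorem Cone_SA {F : MvPolynomial (Fin (n + 1)) ℚ} (hF : F.IsHomogeneous 4) (hsm : Smooth (FC F))
    (hn : 2 ≤ n) : SA (closure (rl (Cone F))) := by
  have h1 : Cone F = ⋃ p ∈ (Set.univ : Set (Fin (n + 1))), ConeP F p := by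
    ext u
    simp only [Set.mem_iUnion, Set.mem_univ, exists_true_left]
    constructor
    · intro hu
      by_contra hcon
      push Not at hcon
      have h0 : (fun k : Fin (n + 1) => u k.succ) = 0 := by
        funext k
        by_contra hne
        exact hcon k ⟨hu, hne⟩
      obtain ⟨hu0, hu1⟩ := hu
      rw [h0] at hu1
      have h2 := hom_smul hF 0 (0 : Fin (n + 1) → ℚ)
      rw [zero_smul, zero_pow (by norm_num), zero_mul] at h2
      rw [h2] at hu1
      exact hu0 (pow_eq_zero_iff (two_ne_zero) |>.mp hu1)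
    · rintro ⟨p, hp⟩
      exact hp.1
  rw [h1]
  exact biUnion_SA Set.finite_univ fun p _ => ConeP_SA hF hsm hn p

end Pool.Agent.Y718
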