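import Pool.Agent.Y718.CH
import Pool.Agent.Y718.FX
import Pool.Agent.Y718.Quart

/-!
# Double covers with several families of parallel lines, over `ℚ`
-/

set_option autoImplicit false
set_option linter.unusedSectionVars false
set_option linter.unusedVariables false

open WeierstrassCurve Set Filter Topology Pool.Agent.Y720.MZ Pool.Agent.H581R2
  Pool.Agent.TH729.SQ

namespace Pool.Agent.Y718.X

theorem good_places_rat : GoodPlaces (algebraMap ℚ ℝ) := by
  intro s
  obtain ⟨M, hM⟩ := good_fin s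
  obtain ⟨p, hp, hpp⟩ := Nat.exists_infinite_primes (max M 3 + 1)
  have : Fact p.Prime := ⟨hpp⟩
  have hpM : M < p := lt_of_le_of_lt (le_max_left _ _) (Nat.lt_of_succ_le hp)
  have hp3 : 3 ≤ p := (le_max_right M 3).trans (Nat.le_of_succ_le hp)
  refine ⟨vp p, p, pl_padic p hp3, wa_padic p, fun x hx => ?_⟩
  rw [vp_eq]
  exact hM p hpM x hx

variable {n : ℕ}

/-- the degree is at most `d` on all lines with the direction `u` -/
def DegLe (f : MvPolynomial (Fin n) ℚ) (u : Fin n → ℚ) (d : ℕ) : Prop :=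
  ∀ z, (lk f z u).natDegree ≤ d

/-- nondegenerate points -/
def NX (f : MvPolynomial (Fin n) ℚ) (z : Fin n → ℚ) : Prop :=
  ∃ b : Fin n → Fin n → ℚ, LinearIndependent ℚ b ∧ ∀ k, DegLe f (b k) 4 ∧
    (DegLe f (b k) 2 ∨ ∃ c : Fin n → ℚ, (∀ l, k ≤ l → c l = 0) ∧
      Inf (lk f (z + ∑ j, c j • b j) (b k)))

/-- the base points -/
def TN (f : MvPolynomial (Fin n) ℚ) : Set (Fin n → ℚ) := {z | Sqf f z ∧ NX f z}

section lin

variable (b : Fin n → Fin n → ℚ)

/-- the linear change of coordinates -/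
noncomputable def lc (x : Fin n → ℚ) : Fin n → ℚ := ∑ j, x j • b j

/-- the same over the real numbers -/
noncomputable def lr (x : Fin n → ℝ) : Fin n → ℝ := fun i => ∑ j, x j * (b j i : ℝ)

lemma lc_apply (x : Fin n → ℚ) (i : Fin n) : lc b x i = ∑ j, x j * b j i := by
  simp [lc, Finset.sum_apply]

lemma lc_add (x y : Fin n → ℚ) : lc b (x + y) = lc b x + lc b y := by
  simp only [lc, Pi.add_apply, add_smul, Finset.sum_add_distrib]

lemma lr_cast (x : Fin n → ℚ) : lr b (fun i => (x i : ℝ)) = fun i => ((lc b x i : ℚ) : ℝ) := by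
  funext i
  rw [lc_apply]
  simp [lr]

lemma lr_cont : Continuous (lr b) := by unfold lr; fun_prop

/-- the polynomial in the new coordinates -/
noncomputable def cf (f : MvPolynomial (Fin n) ℚ) : MvPolynomial (Fin n) ℚ :=
  MvPolynomial.aeval (fun i => ∑ j, MvPolynomial.C (b j i) * MvPolynomial.X j) f

lemma cf_eval (f : MvPolynomial (Fin n) ℚ) (x : Fin n → ℚ) :
    MvPolynomial.eval x (cf b f) = MvPolynomial.eval (lc b x) f := by
  unfold cf
  induction f using MvPolynomial.induction_on with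
  | C c => simp
  | add p q hp hq => simp only [map_add, hp, hq]
  | mul_X p j hp =>
    simp only [map_mul, hp, MvPolynomial.aeval_X, MvPolynomial.eval_X, map_sum,
      MvPolynomial.eval_C, lc_apply]
    congr 1
    exact Finset.sum_congr rfl fun k _ => mul_comm _ _

lemma cf_aeval (f : MvPolynomial (Fin n) ℚ) (x : Fin n → ℝ) :
    (MvPolynomial.aeval x (cf b f) : ℝ) = MvPolynomial.aeval (lr b x) f := by
  unfold cf
  induction f using MvPolynomial.induction_on with
  | C c => simp
  | add p q hp hq => simp only [map_add, hp, hq]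
  | mul_X p j hp =>
    simp only [map_mul, hp, MvPolynomial.aeval_X, map_sum, MvPolynomial.aeval_C, lr]
    congr 1
    exact Finset.sum_congr rfl fun k _ => mul_comm _ _

lemma lk_cf (f : MvPolynomial (Fin n) ℚ) (x : Fin n → ℚ) (k : Fin n) :
    lk (cf b f) x (Pi.single k 1) = lk f (lc b x) (b k) := by
  unfold cf lk
  induction f using MvPolynomial.induction_on with
  | C c => simp
  | add p q hp hq => simp only [map_add, hp, hq]
  | mul_X p j hp =>
    simp only [map_mul, hp, MvPolynomial.aeval_X, map_sum, MvPolynomial.aeval_C, lc_apply,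
      MvPolynomial.algHom_C]
    congr 1
    simp only [Polynomial.algebraMap_eq, mul_add, Finset.sum_add_distrib]
    congr 1
    · exact Finset.sum_congr rfl fun i _ => mul_comm _ _
    · rw [Finset.sum_eq_single k]
      · rw [Pi.single_eq_same]; simp
      · intro i _ hi
        rw [Pi.single_eq_of_ne hi]; simp
      · simp

variable {b}

lemma exists_inv (hb : LinearIndependent ℚ b) : ∃ b' : Fin n → Fin n → ℚ,
    (∀ z, lc b (lc b' z) = z) ∧ (∀ x, lr b' (lr b x) = x) ∧ ∀ x, lr b (lr b' x) = x := by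
  set B : Matrix (Fin n) (Fin n) ℚ := Matrix.of b with hB
  have hU : IsUnit B := by
    rw [← Matrix.linearIndependent_rows_iff_isUnit]
    exact hb
  obtain ⟨u, hu⟩ := hU
  set B' : Matrix (Fin n) (Fin n) ℚ := Units.val (u⁻¹) with hB'
  have h1 : B * B' = 1 := by rw [← hu]; exact u.mul_inv
  have h2 : B' * B = 1 := by rw [← hu]; exact u.inv_mul
  have e1 : ∀ i k, ∑ j, B i j * B' j k = if i = k then 1 else 0 := by
    intro i k
    have := congrFun (congrFun h1 i) k
    rwa [Matrix.mul_apply, Matrix.one_apply] at this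
  have e2 : ∀ i k, ∑ j, B' i j * B j k = if i = k then 1 else 0 := by
    intro i k
    have := congrFun (congrFun h2 i) k
    rwa [Matrix.mul_apply, Matrix.one_apply] at this
  have key : ∀ (A C : Fin n → Fin n → ℚ), (∀ i k, ∑ j, A i j * C j k = if i = k then 1 else 0) →
      (∀ z, lc C (lc A z) = z) ∧ ∀ x, lr C (lr A x) = x := by
    intro A C h
    constructor
    · intro z
      funext i
      rw [lc_apply]
      simp only [lc_apply, Finset.sum_mul]
      rw [Finset.sum_comm]
      simp only [mul_assoc, ← Finset.mul_sum, h]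
      simp
    · intro x
      funext i
      simp only [lr, Finset.sum_mul]
      rw [Finset.sum_comm]
      have h' : ∀ i k, ∑ j, (A i j : ℝ) * (C j k : ℝ) = if i = k then 1 else 0 := by
        intro i k
        have := congrArg (fun r : ℚ => (r : ℝ)) (h i k)
        push_cast at this
        rw [this]
        split_ifs <;> simp
      simp only [mul_assoc, ← Finset.mul_sum, h']
      simp
  exact ⟨B', (key B' b e2).1, (key b B' e1).2, (key B' b e2).2⟩

end lin

/-- **Connected sets.** -/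
theorem TN_conn {f : MvPolynomial (Fin n) ℚ} {z : Fin n → ℚ} (hz : z ∈ TN f)
    {S : Set (Fin n → ℝ)} (hS : IsPreconnected S)
    (hpos : ∀ x ∈ S, (0 : ℝ) < MvPolynomial.aeval x f) (hzS : (fun i => (z i : ℝ)) ∈ S) :
    S ⊆ closure (rl (TN f)) := by
  obtain ⟨hs, b, hb, hbd⟩ := hz
  obtain ⟨b', h1, h2, h3⟩ := exists_inv hb
  have hdeg : ∀ k d, DegLe f (b k) d → Dg (cf b f) k d := by
    intro k d h x
    rw [lk_cf]
    exact h _
  have hdeg' : ∀ k d, Dg (cf b f) k d → DegLe f (b k) d := by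
    intro k d h y
    have := h (lc b' y)
    rwa [lk_cf, h1] at this
  have h4 : ∀ i, Dg (cf b f) i 4 := fun i => hdeg i 4 (hbd i).1
  set x0 : Fin n → ℚ := lc b' z with hx0
  have hx0z : lc b x0 = z := h1 z
  have hs' : Sqf (cf b f) x0 := by
    obtain ⟨w, hw0, hw⟩ := hs
    exact ⟨w, hw0, by rw [cf_eval, hx0z]; exact hw⟩
  have hC : Chn (cf b f) x0 := by
    intro k
    rcases (hbd k).2 with h | ⟨c, hc, h⟩
    · exact Or.inl (hdeg k 2 h)
    · refine Or.inr ⟨x0 + c, fun l hl => by rw [Pi.add_apply, hc l hl, add_zero], ?_⟩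
      rw [lk_cf, lc_add, hx0z]
      exact h
  set C := closure (rl (TX (cf b f))) with hCdef
  have hx0C : (fun i => (x0 i : ℝ)) ∈ C := by
    rw [hCdef, Metric.mem_closure_iff]
    intro ε hε
    obtain ⟨z', hz', h⟩ := chain_limit good_places_rat h4 hs' hC hε
    refine ⟨_, ⟨z', hz', rfl⟩, ?_⟩
    rw [dist_comm, dist_pi_lt_iff hε]
    intro k
    rw [Real.dist_eq]
    have := h k
    rwa [eq_ratCast, eq_ratCast] at this
  have hS' : IsPreconnected (lr b' '' S) := hS.image _ (lr_cont b').continuousOn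
  have hcov : lr b' '' S ⊆ interior C ∪ Cᶜ := by
    rintro _ ⟨x, hx, rfl⟩
    by_cases hxC : lr b' x ∈ C
    · refine Or.inl (mem_interior_iff_mem_nhds.mpr (TX_open h4 hxC ?_))
      rw [cf_aeval, h3]
      exact hpos x hx
    · exact Or.inr hxC
  have hsub : lr b' '' S ⊆ interior C := by
    rcases hS'.subset_or_subset isOpen_interior isClosed_closure.isOpen_compl
      (Set.disjoint_compl_right_iff_subset.mpr interior_subset) hcov with h | h
    · exact h
    · exfalso
      refine h ⟨_, hzS, ?_⟩ hx0C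
      rw [lr_cast]
  intro x hx
  have hxC : lr b' x ∈ C := interior_subset (hsub ⟨x, hx, rfl⟩)
  have h5 : lr b (lr b' x) ∈ closure (lr b '' rl (TX (cf b f))) :=
    image_closure_subset_closure_image (lr_cont b) ⟨_, hxC, rfl⟩
  rw [h3] at h5
  refine closure_mono ?_ h5
  rintro _ ⟨_, ⟨y, hy, rfl⟩, rfl⟩
  refine ⟨lc b y, ⟨?_, b, hb, fun k => ⟨(hbd k).1, ?_⟩⟩, lr_cast b y⟩
  · obtain ⟨w, hw0, hw⟩ := hy.1
    exact ⟨w, hw0, by rw [hw, cf_eval]⟩
  · rcases hy.2 k with h | h
    · exact Or.inl (hdeg' k 2 h)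
    · refine Or.inr ⟨0, fun _ _ => rfl, ?_⟩
      rw [lk_cf] at h
      simpa using h

/-- **Local openness.** -/
theorem TN_open {f : MvPolynomial (Fin n) ℚ} {x : Fin n → ℝ}
    (hx : x ∈ closure (rl (TN f))) (hpos : (0 : ℝ) < MvPolynomial.aeval x f) :
    closure (rl (TN f)) ∈ 𝓝 x := by
  obtain ⟨δ, hδ, hball⟩ := Metric.isOpen_iff.mp (isOpen_lt continuous_const (continuous_aeval f)) x hpos
  obtain ⟨_, ⟨z0, hz0, rfl⟩, hz0d⟩ := Metric.mem_closure_iff.mp hx δ hδ
  refine Filter.mem_of_superset (Metric.ball_mem_nhds x hδ) ?_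
  refine TN_conn hz0 (convex_ball x δ).isPreconnected (fun y hy => hball hy) ?_
  rw [Metric.mem_ball, dist_comm]
  exact hz0d

theorem TN_SA (f : MvPolynomial (Fin n) ℚ) : SA (closure (rl (TN f))) :=
  base_SA (PF.aeval f) (φq := fun z => MvPolynomial.eval z f)
    (fun z => Pool.Agent.TH729.SQ.aeval_cast z f) (fun _ hz => hz.1)
    (fun _ hx hpos => TN_open hx hpos)

/-- the nondegenerate rational points of the double cover; the coordinate `0` is `w` -/
def dcN (f : MvPolynomial (Fin n) ℚ) : Set (Fin (n + 1) → ℚ) :=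
  {u | u 0 ≠ 0 ∧ u 0 ^ 2 = MvPolynomial.eval (fun k => u k.succ) f ∧ NX f fun k => u k.succ}

lemma dcN_up (f : MvPolynomial (Fin n) ℚ) : dcN f = up f (TN f) := by
  ext u
  constructor
  · rintro ⟨h0, hu, hN⟩
    exact ⟨⟨⟨u 0, h0, hu⟩, hN⟩, hu⟩
  · rintro ⟨⟨⟨w, hw0, hw⟩, hN⟩, hu⟩
    refine ⟨?_, hu, hN⟩
    intro h0
    rw [h0] at hu
    apply hw0
    have : w ^ 2 = 0 := by rw [hw, ← hu]; ring
    exact pow_eq_zero_iff (two_ne_zero) |>.mp this

theorem dcN_closure (f : MvPolynomial (Fin n) ℚ) : closure (rl (dcN f)) =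
    {x : Fin (n + 1) → ℝ | (fun k => x k.succ) ∈ closure (rl (TN f)) ∧
      x 0 ^ 2 = MvPolynomial.aeval (fun k => x k.succ) f} := by
  rw [dcN_up, up_closure f (fun z hz => by obtain ⟨w, -, hw⟩ := hz.1; exact ⟨w, hw⟩)]

theorem dcN_SA (f : MvPolynomial (Fin n) ℚ) : SA (closure (rl (dcN f))) := by
  rw [dcN_closure]
  refine SAP.and ?_ (SAP.eq ((PF.coord 0).pow 2) ?_)
  · exact SAP.preimage (p := fun v => v ∈ closure (rl (TN f))) (TN_SA f) (fun i => PF.coord i.succ)
  · exact PF.comp (PF.aeval f) (fun i => PF.coord i.succ)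

/-- **The dichotomy for connected sets.** -/
theorem dcN_mazur (f : MvPolynomial (Fin n) ℚ) (U : Set (Fin (n + 1) → ℝ))
    (hU : ∀ x ∈ U, x 0 ≠ 0 ∧ x 0 ^ 2 = MvPolynomial.aeval (fun k => x k.succ) f)
    (hUc : IsPreconnected U) :
    U ⊆ closure (rl (dcN f)) ∨ Disjoint U (closure (rl (dcN f))) := by
  rw [dcN_closure]
  have hπ : Continuous fun u : Fin (n + 1) → ℝ => fun i : Fin n => u i.succ := by fun_prop
  have hUπ : IsPreconnected ((fun u : Fin (n + 1) → ℝ => fun i : Fin n => u i.succ) '' U) :=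
    hUc.image _ hπ.continuousOn
  have hpos : ∀ x ∈ U, (0 : ℝ) < MvPolynomial.aeval (fun k => x k.succ) f := by
    intro x hx
    obtain ⟨h0, h1⟩ := hU x hx
    rw [← h1]; positivity
  have hcov : ((fun u : Fin (n + 1) → ℝ => fun i : Fin n => u i.succ) '' U) ⊆
      interior (closure (rl (TN f))) ∪ (closure (rl (TN f)))ᶜ := by
    rintro _ ⟨x, hx, rfl⟩
    by_cases hxW : (fun i : Fin n => x i.succ) ∈ closure (rl (TN f))
    · exact Or.inl (mem_interior_iff_mem_nhds.mpr (TN_open hxW (hpos x hx)))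
    · exact Or.inr hxW
  rcases hUπ.subset_or_subset isOpen_interior isClosed_closure.isOpen_compl
    (Set.disjoint_compl_right_iff_subset.mpr interior_subset) hcov with h1 | h1
  · left
    intro x hx
    exact ⟨interior_subset (h1 ⟨x, hx, rfl⟩), (hU x hx).2⟩
  · right
    rw [Set.disjoint_left]
    rintro x hx ⟨hx1, -⟩
    exact h1 ⟨x, hx, rfl⟩ hx1

end Pool.Agent.Y718.X
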