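import Pool.Agent.Y718.Line

/-!
# Double covers of affine space, of degree at most four in each variable

The general local theorem: every variable of degree three or four is accompanied by a direction in
which the polynomial is quadratic.
-/

set_option autoImplicit false
set_option linter.unusedSectionVars false
set_option linter.unusedSimpArgs false

open Set Filter Topology Pool.Agent.H581R2 Pool.Agent.TH729.SQ

namespace Pool.Agent.Y718

variable {n : ℕ}

/-- `f` is quadratic in the direction `v` -/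
def QuadDir (f : MvPolynomial (Fin n) ℚ) (v : Fin n → ℚ) : Prop :=
  ∀ z : Fin n → ℚ, ∃ A B : ℚ, ∀ s : ℚ,
    MvPolynomial.eval (z + s • v) f = A * s ^ 2 + B * s + MvPolynomial.eval z f

/-- nondegeneracy of `f` at `z` in the `i`-th variable -/
def Nondeg (f : MvPolynomial (Fin n) ℚ) (i : Fin n) (z : Fin n → ℚ) : Prop :=
  f.degreeOf i ≤ 2 ∨ ∃ v : Fin n → ℚ, v i = 0 ∧ QuadDir f v ∧
    (∃ A B : ℚ, A ≠ 0 ∧ B ^ 2 - 4 * A * MvPolynomial.eval z f ≠ 0 ∧ ∀ s : ℚ,
      MvPolynomial.eval (z + s • v) f = A * s ^ 2 + B * s + MvPolynomial.eval z f) ∧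
    ¬ ∃ c : ℚ, ∀ s : ℚ, MvPolynomial.eval (z + s • v) (MvPolynomial.pderiv i f) =
      c * MvPolynomial.eval (z + s • v) f

/-- second difference -/
noncomputable def dA (g : MvPolynomial (Fin n) ℚ) (v z : Fin n → ℚ) : ℚ :=
  (MvPolynomial.eval (z + v) g + MvPolynomial.eval (z - v) g - 2 * MvPolynomial.eval z g) / 2

/-- first difference -/
noncomputable def dB (g : MvPolynomial (Fin n) ℚ) (v z : Fin n → ℚ) : ℚ :=
  (MvPolynomial.eval (z + v) g - MvPolynomial.eval (z - v) g) / 2

lemma QuadDir.eq {f : MvPolynomial (Fin n) ℚ} {v : Fin n → ℚ} (h : QuadDir f v) (z : Fin n → ℚ) (s : ℚ) :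
    MvPolynomial.eval (z + s • v) f = dA f v z * s ^ 2 + dB f v z * s + MvPolynomial.eval z f := by
  obtain ⟨A, B, hAB⟩ := h z
  have h1 := hAB 1
  have h2 := hAB (-1)
  rw [one_smul] at h1
  rw [neg_smul, one_smul, ← sub_eq_add_neg] at h2
  rw [hAB, dA, dB, h1, h2]
  ring

lemma coef_unique {A B A' B' c : ℚ} (h : ∀ s : ℚ, A * s ^ 2 + B * s + c = A' * s ^ 2 + B' * s + c) :
    A = A' ∧ B = B' := by
  have h1 := h 1
  have h2 := h (-1)
  constructor <;> linarith

section line

variable (f : MvPolynomial (Fin n) ℚ) (i : Fin n) (v z : Fin n → ℚ)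

/-- the polynomials along the `i`-th coordinate line -/
noncomputable def pA : Polynomial ℚ :=
  Polynomial.C (1 / 2) * (sp (z + v) i f + sp (z - v) i f - 2 * sp z i f)
noncomputable def pB : Polynomial ℚ :=
  Polynomial.C (1 / 2) * (sp (z + v) i f - sp (z - v) i f)

variable {f i v z}

lemma upd_add (hv : v i = 0) (t s : ℚ) :
    Function.update (z + s • v) i t = Function.update z i t + s • v := by
  funext j
  by_cases hj : j = i
  · subst hj; simp [hv]
  · simp [Function.update_of_ne hj]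

lemma upd_add1 (hv : v i = 0) (t : ℚ) :
    Function.update (z + v) i t = Function.update z i t + v := by
  have := upd_add (z := z) hv t 1
  simpa using this

lemma upd_sub1 (hv : v i = 0) (t : ℚ) :
    Function.update (z - v) i t = Function.update z i t - v := by
  have := upd_add (z := z) hv t (-1)
  simpa [sub_eq_add_neg] using this

lemma pA_eval (hv : v i = 0) (t : ℚ) : (pA f i v z).eval t = dA f v (Function.update z i t) := by
  simp only [pA, Polynomial.eval_mul, Polynomial.eval_C, Polynomial.eval_sub, Polynomial.eval_add,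
    sp_eval, Polynomial.eval_ofNat, dA, upd_add1 hv, upd_sub1 hv]
  ring

lemma pB_eval (hv : v i = 0) (t : ℚ) : (pB f i v z).eval t = dB f v (Function.update z i t) := by
  simp only [pB, Polynomial.eval_mul, Polynomial.eval_C, Polynomial.eval_sub, Polynomial.eval_add,
    sp_eval, dB, upd_add1 hv, upd_sub1 hv]
  ring

lemma pA_deriv : Polynomial.derivative (pA f i v z) = pA (MvPolynomial.pderiv i f) i v z := by
  simp only [pA, Polynomial.derivative_mul, Polynomial.derivative_C, zero_mul, zero_add,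
    Polynomial.derivative_sub, Polynomial.derivative_add, sp_deriv, Polynomial.derivative_ofNat]

lemma pB_deriv : Polynomial.derivative (pB f i v z) = pB (MvPolynomial.pderiv i f) i v z := by
  simp only [pB, Polynomial.derivative_mul, Polynomial.derivative_C, zero_mul, zero_add,
    Polynomial.derivative_sub, sp_deriv]

lemma pA_deg (hf : f.degreeOf i ≤ 4) : (pA f i v z).natDegree ≤ 4 := by
  unfold pA
  refine (Polynomial.natDegree_C_mul_le _ _).trans ?_
  refine (Polynomial.natDegree_sub_le _ _).trans (max_le ?_ ?_)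
  · refine Polynomial.natDegree_add_le_of_degree_le ?_ ?_
    · exact (sp_natDegree _ _ _).trans hf
    · exact (sp_natDegree _ _ _).trans hf
  · have : (2 : Polynomial ℚ) = Polynomial.C 2 := rfl
    rw [this]
    exact (Polynomial.natDegree_C_mul_le _ _).trans ((sp_natDegree _ _ _).trans hf)

lemma pB_deg (hf : f.degreeOf i ≤ 4) : (pB f i v z).natDegree ≤ 4 := by
  refine (Polynomial.natDegree_C_mul_le _ _).trans ?_
  exact (Polynomial.natDegree_sub_le _ _).trans (max_le ((sp_natDegree _ _ _).trans hf)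
    ((sp_natDegree _ _ _).trans hf))

/-- `f` on the plane spanned by the two directions -/
lemma plane_eval (hv : v i = 0) (hq : QuadDir f v) (t s : ℚ) :
    MvPolynomial.eval (Function.update (z + s • v) i t) f =
      (pA f i v z).eval t * s ^ 2 + (pB f i v z).eval t * s + (sp z i f).eval t := by
  rw [upd_add hv, hq.eq, pA_eval hv, pB_eval hv, sp_eval]

lemma plane_poly (hv : v i = 0) (hq : QuadDir f v) (s : ℚ) :
    sp (z + s • v) i f = pA f i v z * Polynomial.C (s ^ 2) + pB f i v z * Polynomial.C s + sp z i f := by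
  apply Polynomial.funext
  intro t
  rw [sp_eval, plane_eval hv hq]
  simp

/-- the derivative is quadratic, too -/
lemma QuadDir.pderiv_eq (hv : v i = 0) (hq : QuadDir f v) (z : Fin n → ℚ) (s : ℚ) :
    MvPolynomial.eval (z + s • v) (MvPolynomial.pderiv i f) =
      dA (MvPolynomial.pderiv i f) v z * s ^ 2 + dB (MvPolynomial.pderiv i f) v z * s +
        MvPolynomial.eval z (MvPolynomial.pderiv i f) := by
  have h1 := congrArg Polynomial.derivative (plane_poly (z := z) hv hq s)
  simp only [Polynomial.derivative_add, Polynomial.derivative_mul, Polynomial.derivative_C, mul_zero,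
    add_zero, sp_deriv, pA_deriv, pB_deriv] at h1
  have h2 := congrArg (Polynomial.eval (z i)) h1
  simp only [Polynomial.eval_add, Polynomial.eval_mul, Polynomial.eval_C, sp_eval] at h2
  rw [pA_eval hv, pB_eval hv] at h2
  have h3 : Function.update (z + s • v) i (z i) = z + s • v := by
    rw [upd_add hv, Function.update_eq_self]
  rw [h3, Function.update_eq_self] at h2
  exact h2

end line

/-- the discriminating expression -/
noncomputable def NP (f : MvPolynomial (Fin n) ℚ) (i : Fin n) (v z : Fin n → ℚ) : ℚ :=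
  dA f v z * (dB f v z ^ 2 - 4 * dA f v z * MvPolynomial.eval z f) *
    ((dA f v z * dB (MvPolynomial.pderiv i f) v z - dA (MvPolynomial.pderiv i f) v z * dB f v z) ^ 2 +
      (dA f v z * MvPolynomial.eval z (MvPolynomial.pderiv i f) -
        dA (MvPolynomial.pderiv i f) v z * MvPolynomial.eval z f) ^ 2)

lemma nondeg_iff {f : MvPolynomial (Fin n) ℚ} {i : Fin n} {v z : Fin n → ℚ} (hv : v i = 0)
    (hq : QuadDir f v) : ((∃ A B : ℚ, A ≠ 0 ∧ B ^ 2 - 4 * A * MvPolynomial.eval z f ≠ 0 ∧ ∀ s : ℚ,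
      MvPolynomial.eval (z + s • v) f = A * s ^ 2 + B * s + MvPolynomial.eval z f) ∧
    ¬ ∃ c : ℚ, ∀ s : ℚ, MvPolynomial.eval (z + s • v) (MvPolynomial.pderiv i f) =
      c * MvPolynomial.eval (z + s • v) f) ↔ NP f i v z ≠ 0 := by
  have hd := QuadDir.pderiv_eq hv hq z
  constructor
  · rintro ⟨⟨A, B, hA, hD, hAB⟩, hc⟩
    have h1 : ∀ s : ℚ, A * s ^ 2 + B * s + MvPolynomial.eval z f =
        dA f v z * s ^ 2 + dB f v z * s + MvPolynomial.eval z f := by
      intro s
      rw [← hAB, hq.eq]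
    obtain ⟨rfl, rfl⟩ := coef_unique h1
    unfold NP
    refine mul_ne_zero (mul_ne_zero hA hD) ?_
    intro h0
    apply hc
    have h5 := sq_nonneg (dA f v z * dB (MvPolynomial.pderiv i f) v z - dA (MvPolynomial.pderiv i f) v z * dB f v z)
    have h6 := sq_nonneg (dA f v z * MvPolynomial.eval z (MvPolynomial.pderiv i f) -
      dA (MvPolynomial.pderiv i f) v z * MvPolynomial.eval z f)
    have e1 : dA f v z * dB (MvPolynomial.pderiv i f) v z - dA (MvPolynomial.pderiv i f) v z * dB f v z = 0 :=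
      pow_eq_zero_iff (two_ne_zero) |>.mp (by linarith)
    have e2 : dA f v z * MvPolynomial.eval z (MvPolynomial.pderiv i f) -
        dA (MvPolynomial.pderiv i f) v z * MvPolynomial.eval z f = 0 :=
      pow_eq_zero_iff (two_ne_zero) |>.mp (by linarith)
    refine ⟨dA (MvPolynomial.pderiv i f) v z / dA f v z, fun s => ?_⟩
    rw [hd, hq.eq]
    field_simp
    linear_combination s * e1 + e2
  · intro h
    have hA : dA f v z ≠ 0 := by
      intro h0; apply h; rw [NP, h0]; ring
    have hD : dB f v z ^ 2 - 4 * dA f v z * MvPolynomial.eval z f ≠ 0 := by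
      intro h0; apply h; rw [NP, h0]; ring
    refine ⟨⟨dA f v z, dB f v z, hA, hD, hq.eq z⟩, ?_⟩
    rintro ⟨c, hc⟩
    apply h
    have h1 : ∀ s : ℚ, dA (MvPolynomial.pderiv i f) v z * s ^ 2 + dB (MvPolynomial.pderiv i f) v z * s +
        MvPolynomial.eval z (MvPolynomial.pderiv i f) =
        c * (dA f v z * s ^ 2 + dB f v z * s + MvPolynomial.eval z f) := by
      intro s
      rw [← hd, ← hq.eq]
      exact hc s
    have g0 := h1 0
    have g1 := h1 1
    have g2 := h1 (-1)
    have k0 : MvPolynomial.eval z (MvPolynomial.pderiv i f) = c * MvPolynomial.eval z f := by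
      linarith
    have k1 : dA (MvPolynomial.pderiv i f) v z = c * dA f v z := by linarith
    have k2 : dB (MvPolynomial.pderiv i f) v z = c * dB f v z := by linarith
    rw [NP, k0, k1, k2]
    ring

lemma PQ_shift (g : MvPolynomial (Fin n) ℚ) (v : Fin n → ℚ) :
    PQ (fun z : Fin n → ℚ => MvPolynomial.eval (z + v) g) := by
  have h := PQ.eval (ι := Fin n) (f := fun k z => z k + v k) (fun k => (PQ.coord k).add (PQ.const (v k))) g
  obtain ⟨p, hp⟩ := h
  refine ⟨p, fun z => ?_⟩
  rw [← hp z]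
  rfl

lemma PQ_NP (f : MvPolynomial (Fin n) ℚ) (i : Fin n) (v : Fin n → ℚ) : PQ (NP f i v) := by
  have h0 : ∀ g : MvPolynomial (Fin n) ℚ, PQ (fun z : Fin n → ℚ => MvPolynomial.eval z g) :=
    fun g => ⟨g, fun z => rfl⟩
  have hm : ∀ g : MvPolynomial (Fin n) ℚ, PQ (fun z : Fin n → ℚ => MvPolynomial.eval (z - v) g) := by
    intro g
    have := PQ_shift g (-v)
    simpa [sub_eq_add_neg] using this
  have hA : ∀ g : MvPolynomial (Fin n) ℚ, PQ (dA g v) := by
    intro g
    have := (PQ.const (1 / 2)).mul (((PQ_shift g v).add (hm g)).sub ((PQ.const 2).mul (h0 g)))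
    refine cast ?_ this
    congr 1
    funext z
    simp only [dA]
    ring
  have hB : ∀ g : MvPolynomial (Fin n) ℚ, PQ (dB g v) := by
    intro g
    have := (PQ.const (1 / 2)).mul ((PQ_shift g v).sub (hm g))
    refine cast ?_ this
    congr 1
    funext z
    simp only [dB]
    ring
  have hD := ((hB f).pow 2).sub (((PQ.const 4).mul (hA f)).mul (h0 f))
  have hM1 := ((hA f).mul (hB (MvPolynomial.pderiv i f))).sub ((hA (MvPolynomial.pderiv i f)).mul (hB f))
  have hM2 := ((hA f).mul (h0 (MvPolynomial.pderiv i f))).sub ((hA (MvPolynomial.pderiv i f)).mul (h0 f))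
  exact ((hA f).mul hD).mul ((hM1.pow 2).add (hM2.pow 2))

lemma line_eval (z u : Fin n → ℚ) (p : MvPolynomial (Fin n) ℚ) (τ : ℚ) :
    (MvPolynomial.aeval (fun j => Polynomial.C (z j) + Polynomial.C (u j) * Polynomial.X) p :
      Polynomial ℚ).eval τ = MvPolynomial.eval (z + τ • u) p := by
  induction p using MvPolynomial.induction_on with
  | C c => simp
  | add p q hp hq => simp [hp, hq]
  | mul_X p j hp =>
    simp [hp]
    left
    ring

/-- polynomial functions on lines -/
lemma PQ_line {g : (Fin n → ℚ) → ℚ} (hg : PQ g) {z : Fin n → ℚ} (hz : g z ≠ 0) (u : Fin n → ℚ) :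
    {τ : ℚ | g (z + τ • u) = 0}.Finite := by
  obtain ⟨p, hp⟩ := hg
  set P : Polynomial ℚ := MvPolynomial.aeval (fun j => Polynomial.C (z j) + Polynomial.C (u j) * Polynomial.X) p
    with hP
  have hPe : ∀ τ, P.eval τ = g (z + τ • u) := by
    intro τ
    rw [hp, hP, line_eval]
  have hP0 : P ≠ 0 := by
    intro h0
    apply hz
    have := hPe 0
    rw [h0, Polynomial.eval_zero, zero_smul, add_zero] at this
    exact this.symm
  refine (Fam.roots_fin hP0).subset ?_
  intro τ hτ
  simp only [Set.mem_ofPred_eq] at hτ ⊢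
  rw [hPe]
  exact hτ

/-- nondegeneracy is kept at all but finitely many points of each rational line -/
lemma nondeg_line {f : MvPolynomial (Fin n) ℚ} {i : Fin n} {z : Fin n → ℚ} (h : Nondeg f i z)
    (u : Fin n → ℚ) : {τ : ℚ | ¬ Nondeg f i (z + τ • u)}.Finite := by
  rcases h with h | ⟨v, hv, hq, h⟩
  · have : {τ : ℚ | ¬ Nondeg f i (z + τ • u)} = ∅ := by
      rw [Set.eq_empty_iff_forall_notMem]
      intro τ hτ
      exact hτ (Or.inl h)
    rw [this]
    exact Set.finite_empty
  · rw [nondeg_iff hv hq] at h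
    refine (PQ_line (PQ_NP f i v) h u).subset ?_
    intro τ hτ
    simp only [Set.mem_ofPred_eq] at hτ ⊢
    by_contra hne
    exact hτ (Or.inr ⟨v, hv, hq, (nondeg_iff hv hq).mpr hne⟩)

lemma nondeg_all_line {f : MvPolynomial (Fin n) ℚ} {z : Fin n → ℚ} (h : ∀ i, Nondeg f i z)
    (u : Fin n → ℚ) : {τ : ℚ | ¬ ∀ i, Nondeg f i (z + τ • u)}.Finite := by
  refine (Set.Finite.biUnion (Set.finite_univ (α := Fin n)) fun i _ => nondeg_line (h i) u).subset ?_
  intro τ hτ
  simp only [Set.mem_ofPred_eq, not_forall] at hτ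
  obtain ⟨i, hi⟩ := hτ
  simp only [Set.mem_iUnion]
  exact ⟨i, mem_univ _, hi⟩

lemma nondeg_all_upd {f : MvPolynomial (Fin n) ℚ} {z : Fin n → ℚ} (h : ∀ i, Nondeg f i z)
    (k : Fin n) : {t : ℚ | ¬ ∀ i, Nondeg f i (Function.update z k t)}.Finite := by
  have h1 := nondeg_all_line h (Pi.single k 1)
  refine (h1.image (fun τ => z k + τ)).subset ?_
  intro t ht
  refine ⟨t - z k, ?_, by ring⟩
  simp only [Set.mem_ofPred_eq] at ht ⊢
  have : z + (t - z k) • (Pi.single k 1 : Fin n → ℚ) = Function.update z k t := by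
    funext j
    by_cases hj : j = k
    · subst hj; simp
    · simp [Function.update_of_ne hj, Pi.single_eq_of_ne hj]
  rw [this]
  exact ht

/-- density for polynomials of degree at most two with a rational point -/
lemma den_two {q : Polynomial ℚ} (hq : q.natDegree ≤ 2) {b : ℚ} (hb : b ∈ Sq q) (hb0 : q.eval b ≠ 0)
    {x : ℝ} (hx : 0 < Polynomial.aeval x q) : x ∈ rc (Sq q) := by
  by_cases hxb : x = b
  · rw [hxb]; exact mem_rc hb
  obtain ⟨w0, hw0⟩ := hb
  have hw00 : w0 ≠ 0 := by
    rintro rfl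
    apply hb0
    rw [← hw0]
    norm_num
  set p : Polynomial ℚ := q.comp (Polynomial.X + Polynomial.C b) with hp
  have hpd : p.natDegree ≤ 2 := by
    rw [hp, Polynomial.natDegree_comp]
    simpa using hq
  have hpe : ∀ u, p.eval u = q.eval (u + b) := by intro u; simp [hp]
  have hpa : ∀ u : ℝ, Polynomial.aeval u p = Polynomial.aeval (u + b) q := by
    intro u
    rw [hp, Polynomial.aeval_comp]
    simp
  have hp0 : p.coeff 0 = w0 ^ 2 := by
    rw [Polynomial.coeff_zero_eq_eval_zero, hpe, zero_add, hw0]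
  have c3 : p.coeff 3 = 0 := Polynomial.coeff_eq_zero_of_natDegree_lt (by omega)
  have c4 : p.coeff 4 = 0 := Polynomial.coeff_eq_zero_of_natDegree_lt (by omega)
  have hx' : x - b ≠ 0 := sub_ne_zero.mpr hxb
  have h1 : x - b ∈ rc {t : ℚ | ∃ w : ℚ, w ^ 2 = w0 ^ 2 + p.coeff 1 * t + p.coeff 2 * t ^ 2} := by
    refine conic_den hw00 hx' ?_
    have := hpa (x - b)
    rw [aeval_four (hpd.trans (by norm_num)), hp0, c3, c4, sub_add_cancel] at this
    push_cast at this
    rw [← this] at hx
    linarith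
  have h2 : ∀ t, t ∈ {t : ℚ | ∃ w : ℚ, w ^ 2 = w0 ^ 2 + p.coeff 1 * t + p.coeff 2 * t ^ 2} ↔ t + b ∈ Sq q := by
    intro t
    simp only [Sq, Set.mem_ofPred_eq]
    rw [← hpe, eval_four (hpd.trans (by norm_num)), hp0, c3, c4]
    simp
  have h3 := (rc_shift b h2 (x := x - b)).mp h1
  simpa using h3

/-- the rational parameters -/
def SG (f : MvPolynomial (Fin n) ℚ) : Set (Fin n → ℚ) :=
  {z | (∀ i, Nondeg f i z) ∧ ∃ w : ℚ, w ≠ 0 ∧ w ^ 2 = MvPolynomial.eval z f}

/-- moving one coordinate -/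
lemma gmove_one {f : MvPolynomial (Fin n) ℚ} (hf : ∀ i, f.degreeOf i ≤ 4) {x : Fin n → ℝ} {δ : ℝ}
    (hbox : ∀ b : Fin n → ℝ, (∀ i, |b i - x i| < δ) → (0 : ℝ) < MvPolynomial.aeval b f)
    {z : Fin n → ℚ} (hz : z ∈ SG f) (hzb : ∀ i, |(z i : ℝ) - x i| < δ) (i : Fin n) {s : ℝ}
    (hs : |s - x i| < δ) {ε : ℝ} (hε : 0 < ε) {O : Set (Fin n → ℝ)} (hO : IsOpen O)
    (hzO : (fun i => (z i : ℝ)) ∈ O) :
    ∃ (z1 : Fin n → ℚ) (t : ℚ), (fun i => (z1 i : ℝ)) ∈ O ∧ Function.update z1 i t ∈ SG f ∧
      |(t : ℝ) - s| < ε ∧ ∀ k, |(Function.update z1 i t k : ℝ) - x k| < δ := by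
  classical
  obtain ⟨hzN, w, hw, hwz⟩ := hz
  -- it suffices to find a nearby point with dense square values on the coordinate line
  have suff : ∀ z1 : Fin n → ℚ, (fun i => (z1 i : ℝ)) ∈ O → (∀ k, |(z1 k : ℝ) - x k| < δ) →
      (∀ i, Nondeg f i z1) → (∀ t : ℝ, |t - x i| < δ → t ∈ rc (Sq (sp z1 i f))) →
      ∃ (z1 : Fin n → ℚ) (t : ℚ), (fun i => (z1 i : ℝ)) ∈ O ∧ Function.update z1 i t ∈ SG f ∧
      |(t : ℝ) - s| < ε ∧ ∀ k, |(Function.update z1 i t k : ℝ) - x k| < δ := by
    intro z1 h1 h2 h3 h4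
    have hsJ : s ∈ Ioo (x i - δ) (x i + δ) := by
      have := abs_lt.mp hs
      constructor <;> linarith [this.1, this.2]
    have hJ : Ioo (x i - δ) (x i + δ) ⊆ rc (Sq (sp z1 i f)) := by
      intro t ht
      apply h4
      rw [abs_lt]
      constructor <;> linarith [ht.1, ht.2]
    obtain ⟨t, ⟨wt, hwt⟩, htJ, htε, htE⟩ := Fam.pick isOpen_Ioo hJ (nondeg_all_upd h3 i) hsJ hε
    have hin : ∀ k, |(Function.update z1 i t k : ℝ) - x k| < δ := by
      intro k
      by_cases hk : k = i
      · subst hk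
        rw [Function.update_self, abs_lt]
        constructor <;> linarith [htJ.1, htJ.2]
      · rw [Function.update_of_ne hk]
        exact h2 k
    refine ⟨z1, t, h1, ⟨?_, wt, ?_, ?_⟩, htε, hin⟩
    · by_contra h
      exact htE h
    · rintro rfl
      have h5 := hbox (fun k => (Function.update z1 i t k : ℝ)) hin
      rw [Pool.Agent.TH729.SQ.aeval_cast, ← sp_eval, ← hwt] at h5
      norm_num at h5
    · rw [hwt, sp_eval]
  -- values on the coordinate line through a nearby point
  have hline : ∀ z1 : Fin n → ℚ, (∀ k, |(z1 k : ℝ) - x k| < δ) → ∀ t : ℝ, |t - x i| < δ →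
      (0 : ℝ) < Polynomial.aeval t (sp z1 i f) := by
    intro z1 h1 t ht
    rw [Fam.sp_aeval]
    apply hbox
    intro k
    by_cases hk : k = i
    · subst hk
      rw [Function.update_self]; exact ht
    · rw [Function.update_of_ne hk]
      exact h1 k
  have hself : ∀ z1 : Fin n → ℚ, (sp z1 i f).eval (z1 i) = MvPolynomial.eval z1 f := by
    intro z1
    rw [sp_eval, Function.update_eq_self]
  rcases hzN i with hlow | ⟨v, hv, hq, hgood⟩
  · -- low degree: conics
    refine suff z hzO hzb hzN fun t ht => ?_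
    refine den_two ((sp_natDegree z i f).trans hlow) (b := z i) ⟨w, by rw [hself, hwz]⟩ ?_ (hline z hzb t ht)
    rw [hself, ← hwz]
    exact pow_ne_zero 2 hw
  · -- the key lemma
    rw [nondeg_iff hv hq] at hgood
    -- the open set of the line parameters
    have hcl : Continuous fun τ : ℝ => (fun j => (z j : ℝ) + τ * (v j : ℝ)) := by fun_prop
    have hOo : IsOpen ((fun τ : ℝ => (fun j => (z j : ℝ) + τ * (v j : ℝ))) ⁻¹'
        (O ∩ {b | ∀ k, |b k - x k| < δ})) := (hO.inter (Fam.isOpen_box x δ)).preimage hcl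
    have h0O : (0 : ℝ) ∈ (fun τ : ℝ => (fun j => (z j : ℝ) + τ * (v j : ℝ))) ⁻¹'
        (O ∩ {b | ∀ k, |b k - x k| < δ}) := by
      simp only [mem_preimage, zero_mul, add_zero]
      exact ⟨hzO, hzb⟩
    have hE : ((fun τ : ℚ => (τ : ℝ)) '' {τ : ℚ | ¬ ∀ i, Nondeg f i (z + τ • v)}).Finite :=
      (nondeg_all_line hzN v).image _
    -- a target parameter
    obtain ⟨c, hcO, hcE⟩ : ∃ c ∈ (fun τ : ℝ => (fun j => (z j : ℝ) + τ * (v j : ℝ))) ⁻¹'
        (O ∩ {b | ∀ k, |b k - x k| < δ}), c ∉ ((fun τ : ℚ => (τ : ℝ)) '' {τ : ℚ | ¬ ∀ i, Nondeg f i (z + τ • v)}) := by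
      have hd : Dense (((fun τ : ℚ => (τ : ℝ)) '' {τ : ℚ | ¬ ∀ i, Nondeg f i (z + τ • v)})ᶜ) :=
        hE.countable.dense_compl ℝ
      obtain ⟨c, h1, h2⟩ := hd.inter_open_nonempty _ hOo ⟨0, h0O⟩
      exact ⟨c, h1, h2⟩
    obtain ⟨ρ, hρ, hball⟩ := Metric.isOpen_iff.mp (hOo.inter hE.isClosed.isOpen_compl) c ⟨hcO, hcE⟩
    -- the polynomials
    have hA : (pA f i v z).eval (z i) ≠ 0 := by
      rw [pA_eval hv, Function.update_eq_self]
      intro h0; apply hgood; rw [NP, h0]; ring
    have hD : (pB f i v z).eval (z i) ^ 2 - 4 * (pA f i v z).eval (z i) * (sp z i f).eval (z i) ≠ 0 := by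
      rw [pA_eval hv, pB_eval hv, hself, Function.update_eq_self]
      intro h0; apply hgood; rw [NP, h0]; ring
    have hrk : ¬ ((pA f i v z).eval (z i) * (Polynomial.derivative (pB f i v z)).eval (z i) =
        (Polynomial.derivative (pA f i v z)).eval (z i) * (pB f i v z).eval (z i) ∧
        (pA f i v z).eval (z i) * (Polynomial.derivative (sp z i f)).eval (z i) =
        (Polynomial.derivative (pA f i v z)).eval (z i) * (sp z i f).eval (z i)) := by
      rw [pA_deriv, pB_deriv, sp_deriv, pA_eval hv, pB_eval hv, pA_eval hv, pB_eval hv, sp_eval, hself,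
        Function.update_eq_self]
      rintro ⟨e1, e2⟩
      apply hgood
      rw [NP, e1, e2]
      ring
    have hval0 : w ^ 2 = (pA f i v z).eval (z i) * 0 ^ 2 + (pB f i v z).eval (z i) * 0 +
        (sp z i f).eval (z i) := by
      rw [hself, hwz]; ring
    have hposc : 0 < (((pA f i v z).eval (z i) : ℚ) : ℝ) * c ^ 2 + (((pB f i v z).eval (z i) : ℚ) : ℝ) * c +
        (((sp z i f).eval (z i) : ℚ) : ℝ) := by
      -- by density of the rational parameters
      have hpos1 := hbox _ hcO.2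
      -- the real polynomial identity
      have hid : ∀ τ : ℝ, (MvPolynomial.aeval (fun j => (z j : ℝ) + τ * (v j : ℝ)) f : ℝ) =
          (((pA f i v z).eval (z i) : ℚ) : ℝ) * τ ^ 2 + (((pB f i v z).eval (z i) : ℚ) : ℝ) * τ +
          (((sp z i f).eval (z i) : ℚ) : ℝ) := by
        have hc1 : Continuous fun τ : ℝ => (MvPolynomial.aeval (fun j => (z j : ℝ) + τ * (v j : ℝ)) f : ℝ) :=
          (continuous_aeval f).comp hcl
        have hc2 : Continuous fun τ : ℝ => (((pA f i v z).eval (z i) : ℚ) : ℝ) * τ ^ 2 +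
          (((pB f i v z).eval (z i) : ℚ) : ℝ) * τ + (((sp z i f).eval (z i) : ℚ) : ℝ) := by fun_prop
        have heq : (fun τ : ℝ => (MvPolynomial.aeval (fun j => (z j : ℝ) + τ * (v j : ℝ)) f : ℝ)) =
            fun τ : ℝ => (((pA f i v z).eval (z i) : ℚ) : ℝ) * τ ^ 2 +
          (((pB f i v z).eval (z i) : ℚ) : ℝ) * τ + (((sp z i f).eval (z i) : ℚ) : ℝ) := by
          apply hc1.ext_on Rat.denseRange_cast hc2
          rintro _ ⟨τ, rfl⟩
          have h1 : (fun j => (z j : ℝ) + (τ : ℝ) * (v j : ℝ)) = fun j => (((z + τ • v) j : ℚ) : ℝ) := by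
            funext j; simp
          simp only [h1, Pool.Agent.TH729.SQ.aeval_cast]
          rw [hq.eq, pA_eval hv, pB_eval hv, hself, Function.update_eq_self]
          push_cast
          ring
        exact fun τ => congrFun heq τ
      rw [hid] at hpos1
      exact hpos1
    obtain ⟨s1, hs1, ⟨w1, hw1, hw1'⟩, hinf⟩ := keyP (pA_deg (hf i)) (pB_deg (hf i))
      ((sp_natDegree z i f).trans (hf i)) hA hD hrk hw hval0 hposc hρ
    have hs1b := hball (show (s1 : ℝ) ∈ Metric.ball c ρ by rw [Metric.mem_ball, Real.dist_eq]; exact hs1)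
    have hz1c : (fun j => ((z + s1 • v) j : ℝ)) = fun j => (z j : ℝ) + (s1 : ℝ) * (v j : ℝ) := by
      funext j; simp
    have hz1O : (fun j => ((z + s1 • v) j : ℝ)) ∈ O := by rw [hz1c]; exact hs1b.1.1
    have hz1b : ∀ k, |((z + s1 • v) k : ℝ) - x k| < δ := by
      have := hs1b.1.2
      intro k
      have h1 := this k
      simpa using h1
    have hz1N : ∀ i, Nondeg f i (z + s1 • v) := by
      by_contra h
      exact hs1b.2 ⟨s1, h, rfl⟩
    refine suff (z + s1 • v) hz1O hz1b hz1N fun t ht => ?_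
    have hqe : ∀ t, (sp (z + s1 • v) i f).eval t = (pA f i v z).eval t * s1 ^ 2 + (pB f i v z).eval t * s1 +
        (sp z i f).eval t := by
      intro t
      rw [sp_eval, plane_eval hv hq]
    have hinf' : (Sq (sp (z + s1 • v) i f)).Infinite := by
      refine hinf.mono ?_
      rintro t ⟨w2, hw2⟩
      exact ⟨w2, by rw [hqe, hw2]⟩
    have hmem : z i ∈ Sq (sp (z + s1 • v) i f) := ⟨w1, by rw [hqe, hw1']⟩
    refine den_conn ((sp_natDegree _ i f).trans (hf i)) hinf' (J := Ioo (x i - δ) (x i + δ))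
      isPreconnected_Ioo ?_ (x0 := (z i : ℝ)) ?_ (mem_rc hmem) ?_
    · intro t ht
      refine (hline _ hz1b t ?_).ne'
      rw [abs_lt]
      constructor <;> linarith [ht.1, ht.2]
    · have := abs_lt.mp (hzb i)
      constructor <;> linarith [this.1, this.2]
    · have := abs_lt.mp ht
      constructor <;> linarith [this.1, this.2]

/-- moving all coordinates -/
lemma gmove_all {f : MvPolynomial (Fin n) ℚ} (hf : ∀ i, f.degreeOf i ≤ 4) {x : Fin n → ℝ} {δ : ℝ}
    (hbox : ∀ b : Fin n → ℝ, (∀ i, |b i - x i| < δ) → (0 : ℝ) < MvPolynomial.aeval b f)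
    {z : Fin n → ℚ} (hz : z ∈ SG f) (hzb : ∀ i, |(z i : ℝ) - x i| < δ) {s : Fin n → ℝ}
    (hs : ∀ i, |s i - x i| < δ) {ε : ℝ} (hε : 0 < ε) (J : Finset (Fin n)) :
    ∃ z' ∈ SG f, (∀ i, |(z' i : ℝ) - x i| < δ) ∧ ∀ i ∈ J, |(z' i : ℝ) - s i| < ε := by
  classical
  induction J using Finset.induction_on with
  | empty => exact ⟨z, hz, hzb, fun i hi => by simp at hi⟩
  | insert i J hiJ ih =>
    obtain ⟨z', h1, h2, h3⟩ := ih
    have hOo : IsOpen {b : Fin n → ℝ | ∀ k ∈ J, |b k - s k| < ε} := by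
      have : {b : Fin n → ℝ | ∀ k ∈ J, |b k - s k| < ε} = ⋂ k ∈ J, {b | |b k - s k| < ε} := by
        ext b; simp
      rw [this]
      refine isOpen_biInter_finset fun k _ => ?_
      exact isOpen_lt (by fun_prop) continuous_const
    obtain ⟨z1, t, k1, k2, k3, k4⟩ := gmove_one hf hbox h1 h2 i (hs i) hε hOo h3
    refine ⟨_, k2, k4, ?_⟩
    intro k hk
    rw [Finset.mem_insert] at hk
    by_cases hki : k = i
    · subst hki; rw [Function.update_self]; exact k3
    · rw [Function.update_of_ne hki]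
      exact k1 k (hk.resolve_left hki)

/-- **Local openness.** -/
theorem SG_open {f : MvPolynomial (Fin n) ℚ} (hf : ∀ i, f.degreeOf i ≤ 4) {x : Fin n → ℝ}
    (hx : x ∈ closure (rl (SG f))) (hpos : (0 : ℝ) < MvPolynomial.aeval x f) :
    closure (rl (SG f)) ∈ 𝓝 x := by
  obtain ⟨δ, hδ, hball⟩ := Metric.isOpen_iff.mp (isOpen_lt continuous_const (continuous_aeval f)) x hpos
  have hbox : ∀ b : Fin n → ℝ, (∀ i, |b i - x i| < δ) → (0 : ℝ) < MvPolynomial.aeval b f := by
    intro b hb
    have h1 : b ∈ Metric.ball x δ := by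
      rw [Metric.mem_ball, dist_pi_lt_iff hδ]
      intro k
      rw [Real.dist_eq]
      exact hb k
    exact hball h1
  obtain ⟨_, ⟨z0, hz0, rfl⟩, hz0d⟩ := Metric.mem_closure_iff.mp hx δ hδ
  have hz0b : ∀ k, |(z0 k : ℝ) - x k| < δ := by
    intro k
    rw [dist_comm, dist_pi_lt_iff hδ] at hz0d
    have := hz0d k
    rwa [Real.dist_eq] at this
  refine Filter.mem_of_superset (Metric.ball_mem_nhds x hδ) ?_
  intro xs hxs
  have hxsb : ∀ k, |xs k - x k| < δ := by
    intro k
    rw [Metric.mem_ball, dist_pi_lt_iff hδ] at hxs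
    have := hxs k
    rwa [Real.dist_eq] at this
  rw [Metric.mem_closure_iff]
  intro ε hε
  obtain ⟨z, h1, -, h3⟩ := gmove_all hf hbox hz0 hz0b hxsb hε Finset.univ
  refine ⟨_, ⟨z, h1, rfl⟩, ?_⟩
  rw [dist_comm, dist_pi_lt_iff hε]
  intro k
  rw [Real.dist_eq]
  exact h3 k (Finset.mem_univ k)

theorem SG_SA {f : MvPolynomial (Fin n) ℚ} (hf : ∀ i, f.degreeOf i ≤ 4) : SA (closure (rl (SG f))) :=
  base_SA (PF.aeval f) (φq := fun z => MvPolynomial.eval z f)
    (fun z => Pool.Agent.TH729.SQ.aeval_cast z f) (fun _ hz => hz.2) (fun _ hx hpos => SG_open hf hx hpos)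

/-- the rational points of the double cover over the nondegenerate parameters -/
def coverG (f : MvPolynomial (Fin n) ℚ) : Set (Option (Fin n) → ℚ) :=
  {u | (∀ i, Nondeg f i fun k => u (some k)) ∧ u none ^ 2 = MvPolynomial.eval (fun k => u (some k)) f ∧
    (u none ≠ 0 ∨ ∃ (v : Fin n → ℚ) (A B : ℚ), B ≠ 0 ∧ ∀ s : ℚ,
      MvPolynomial.eval ((fun k => u (some k)) + s • v) f = A * s ^ 2 + B * s)}

lemma coverG_lift (f : MvPolynomial (Fin n) ℚ) :
    closure (rl (coverG f)) = closure (lift (fun z => MvPolynomial.eval z f) (SG f)) := by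
  apply Subset.antisymm
  · refine closure_minimal ?_ isClosed_closure
    rintro _ ⟨u, ⟨hN, hu, hor⟩, rfl⟩
    by_cases h0 : u none = 0
    · obtain ⟨v, A, B, hB, hval⟩ := hor.resolve_left (by simpa using h0)
      set z : Fin n → ℚ := fun k => u (some k) with hz
      let s : ℕ → ℚ := fun n => B / ((n : ℚ) ^ 2 - A)
      have hden : ∀ᶠ n : ℕ in atTop, ((n : ℝ) ^ 2 - A) ≠ 0 ∧ (n : ℝ) ≠ 0 := by
        have h1 : Tendsto (fun n : ℕ => (n : ℝ) ^ 2) atTop atTop :=
          (tendsto_pow_atTop (by norm_num)).comp tendsto_natCast_atTop_atTop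
        filter_upwards [h1.eventually (eventually_gt_atTop (A : ℝ)), eventually_ge_atTop 1] with n hn hn1
        refine ⟨by linarith, ?_⟩
        have : (1 : ℝ) ≤ n := by exact_mod_cast hn1
        linarith
      have hs0 : Tendsto (fun n : ℕ => ((s n : ℚ) : ℝ)) atTop (𝓝 0) := by
        have h1 : Tendsto (fun n : ℕ => (n : ℝ) ^ 2 - A) atTop atTop :=
          tendsto_atTop_add_const_right _ _
            ((tendsto_pow_atTop (by norm_num)).comp tendsto_natCast_atTop_atTop)
        have h2 : Tendsto (fun n : ℕ => (B : ℝ) / ((n : ℝ) ^ 2 - A)) atTop (𝓝 0) :=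
          tendsto_const_nhds.div_atTop h1
        refine h2.congr fun n => ?_
        simp only [s]
        push_cast
        rfl
      have hns0 : Tendsto (fun n : ℕ => ((n * s n : ℚ) : ℝ)) atTop (𝓝 0) := by
        have h1 : Tendsto (fun n : ℕ => (n : ℝ) - A / n) atTop atTop := by
          have h2 : Tendsto (fun n : ℕ => (A : ℝ) / n) atTop (𝓝 0) :=
            tendsto_const_nhds.div_atTop tendsto_natCast_atTop_atTop
          have h3 := tendsto_natCast_atTop_atTop (R := ℝ)
          have := h3.atTop_add h2.neg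
          refine this.congr fun n => ?_
          ring
        have h2 : Tendsto (fun n : ℕ => (B : ℝ) / ((n : ℝ) - A / n)) atTop (𝓝 0) :=
          tendsto_const_nhds.div_atTop h1
        refine h2.congr' ?_
        filter_upwards [hden, eventually_ge_atTop 1] with n hn hn1
        simp only [s]
        push_cast
        have h4 : (n : ℝ) ≠ 0 := hn.2
        have h5 := hn.1
        field_simp
      have hlim : Tendsto (fun n : ℕ => (ext ((n * s n : ℚ) : ℝ) (fun k : Fin _ =>
          (((z + s n • v) k : ℚ) : ℝ)) : Option (Fin _) → ℝ)) atTop (𝓝 (fun o => (u o : ℝ))) := by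
        rw [tendsto_pi_nhds]
        intro o
        rcases o with _ | k
        · simp only [ext_none]
          rw [h0]
          simpa using hns0
        · simp only [ext_some]
          have h1 : Tendsto (fun n : ℕ => (z k : ℝ) + (s n : ℝ) * (v k : ℝ)) atTop
              (𝓝 ((z k : ℝ) + 0 * (v k : ℝ))) :=
            tendsto_const_nhds.add (hs0.mul tendsto_const_nhds)
          rw [zero_mul, add_zero] at h1
          refine h1.congr fun n => ?_
          simp
      refine mem_closure_of_tendsto hlim ?_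
      -- the parameters are eventually nondegenerate
      have hNs : ∀ᶠ n : ℕ in atTop, s n ≠ 0 := by
        filter_upwards [hden] with n hn
        refine div_ne_zero hB ?_
        intro h
        apply hn.1
        exact_mod_cast h
      have hNd : ∀ᶠ n : ℕ in atTop, ∀ i, Nondeg f i (z + s n • v) := by
        have hE : ((fun τ : ℚ => (τ : ℝ)) '' ({τ : ℚ | ¬ ∀ i, Nondeg f i (z + τ • v)} \ {0})).Finite :=
          ((nondeg_all_line hN v).subset sdiff_subset).image _
        have h1 : (((fun τ : ℚ => (τ : ℝ)) '' ({τ : ℚ | ¬ ∀ i, Nondeg f i (z + τ • v)} \ {0})))ᶜ ∈ 𝓝 (0 : ℝ) := by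
          apply hE.isClosed.isOpen_compl.mem_nhds
          rintro ⟨τ, ⟨-, hτ⟩, hτ0⟩
          apply hτ
          have hτ1 : (τ : ℝ) = 0 := hτ0
          rw [Set.mem_singleton_iff]
          exact_mod_cast hτ1
        filter_upwards [hs0 h1, hNs] with n hn hn2
        by_contra hc
        exact hn ⟨s n, ⟨hc, hn2⟩, rfl⟩
      filter_upwards [hden, hNs, hNd] with n hn hn2 hn3
      have hn1 : ((n : ℚ) ^ 2 - A) ≠ 0 := by
        intro h
        apply hn.1
        exact_mod_cast h
      have hnn : (n : ℚ) ≠ 0 := by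
        intro h
        apply hn.2
        exact_mod_cast h
      have hsq : ((n : ℚ) * s n) ^ 2 = MvPolynomial.eval (z + s n • v) f := by
        rw [hval]
        simp only [s]
        field_simp
        ring
      exact ⟨z + s n • v, ⟨hn3, n * s n, mul_ne_zero hnn hn2, hsq⟩, n * s n, hsq, rfl⟩
    · apply subset_closure
      refine ⟨fun k => u (some k), ⟨hN, u none, h0, hu⟩, u none, hu, ?_⟩
      funext o
      rcases o with _ | k <;> rfl
  · apply closure_mono
    rintro _ ⟨z, ⟨hN, w0, hw0, hw0'⟩, w, hw, rfl⟩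
    refine ⟨fun o => o.elim w z, ⟨hN, hw, Or.inl ?_⟩, ?_⟩
    · intro h
      have h : w = 0 := h
      have hw2 : w ^ 2 = w0 ^ 2 := hw.trans hw0'.symm
      apply hw0
      rw [h] at hw2
      have : w0 ^ 2 = 0 := by linarith
      exact pow_eq_zero_iff (two_ne_zero) |>.mp this
    · funext o
      rcases o with _ | k <;> rfl

/-- **The general theorem.** -/
theorem coverG_SA {f : MvPolynomial (Fin n) ℚ} (hf : ∀ i, f.degreeOf i ≤ 4) :
    SA (closure (rl (coverG f))) := by
  rw [coverG_lift]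
  exact lift_SA (PF.aeval f) (fun z => Pool.Agent.TH729.SQ.aeval_cast z f)
    (fun z hz => by obtain ⟨w, -, hw⟩ := hz.2; exact ⟨w, hw⟩) (SG_SA hf)

end Pool.Agent.Y718
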