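import Pool.Agent.Y718.Plane

/-!
# Good directions at a prime
-/

set_option autoImplicit false
set_option linter.unusedSectionVars false
set_option linter.unusedSimpArgs false

open Set Filter Topology Pool.Agent.H581R2 Pool.Agent.TH729.SQ Pool.Agent.TH954

namespace Pool.Agent.Y718

variable {n : ℕ}

/-- the conditions at the prime `p` -/
structure PG (p : ℕ) [Fact p.Prime] (q : Polynomial ℚ) (w0 : ℚ) : Prop where
  c1 : ‖((q.coeff 1 : ℚ) : ℚ_[p])‖ ≤ 1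
  c2 : ‖((q.coeff 2 : ℚ) : ℚ_[p])‖ ≤ 1
  c3 : ‖((q.coeff 3 : ℚ) : ℚ_[p])‖ ≤ 1
  c4 : ‖((q.coeff 4 : ℚ) : ℚ_[p])‖ ≤ 1
  w : ‖(w0 : ℚ_[p])‖ = 1
  B0 : covB q ≠ 0
  BT : ‖((covB q : ℚ) : ℚ_[p])‖ < ‖((covT q : ℚ) : ℚ_[p])‖

lemma PG.inf {p : ℕ} [Fact p.Prime] (h5 : 5 ≤ p) {q : Polynomial ℚ} {w0 : ℚ} (h : PG p q w0)
    (h0 : q.coeff 0 = w0 ^ 2) (hq : q.natDegree ≤ 4) : (Sq q).Infinite := by
  have hB0 := h.B0
  have hBT := h.BT
  rw [covB, h0] at hB0 hBT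
  rw [covT, h0] at hBT
  have h1 := inf_quartic2 h5 (q.coeff 1) (q.coeff 2) (q.coeff 3) (q.coeff 4) w0 h.c1 h.c2 h.c3 h.c4 h.w
    hB0 hBT
  refine h1.mono ?_
  rintro t ⟨w, hw⟩
  refine ⟨w, ?_⟩
  rw [hw, eval_four hq, h0]
  rfl

/-- a good direction on a line of directions -/
lemma half_dir {f : MvPolynomial (Fin n) ℚ} {z a b : Fin n → ℚ} {PB PT : Polynomial ℚ}
    (hPB : ∀ t, PB.eval t = covB (lp f z (a + t • b))) (hPT : ∀ t, PT.eval t = covT (lp f z (a + t • b)))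
    (h0 : PB ≠ 0) (hnd : ¬ PB ∣ PT) {w0 : ℚ} (hw0 : w0 ≠ 0) :
    ∃ (p : ℕ) (_ : Fact p.Prime), 5 ≤ p ∧ ∃ t : ℚ, PG p (lp f z (a + t • b)) w0 := by
  have hk : ∀ k, ∃ P : Polynomial ℚ, ∀ t, P.eval t = (lp f z (a + t • b)).coeff k := fun k =>
    (PQv_coeff f z k).poly a b
  choose P hP using hk
  obtain ⟨M1, hM1⟩ := exists_PInt (P 1)
  obtain ⟨M2, hM2⟩ := exists_PInt (P 2)
  obtain ⟨M3, hM3⟩ := exists_PInt (P 3)
  obtain ⟨M4, hM4⟩ := exists_PInt (P 4)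
  obtain ⟨M5, hM5⟩ := good_one w0
  obtain ⟨p, hp, hMp, t0, ht0⟩ := prime_ndvd h0 hnd (5 + M1 + M2 + M3 + M4 + M5)
  refine ⟨p, hp, by omega, ?_⟩
  -- an integer congruent to `t0` with nonzero value
  have hinj : Function.Injective fun k : ℕ => ((t0 : ℚ) + p * k) := by
    intro i j hij
    simp only [add_right_inj] at hij
    have hp0 : (p : ℚ) ≠ 0 := by exact_mod_cast hp.out.ne_zero
    exact_mod_cast mul_left_cancel₀ hp0 hij
  have hfin : {k : ℕ | PB.eval ((t0 : ℚ) + p * k) = 0}.Finite := by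
    have : {t : ℚ | PB.eval t = 0}.Finite := Fam.roots_fin h0
    exact this.preimage hinj.injOn
  obtain ⟨k, hk⟩ := hfin.exists_notMem
  simp only [Set.mem_ofPred_eq] at hk
  set t : ℚ := (t0 : ℚ) + p * k with ht
  have htt0 : ‖((t - t0 : ℚ) : ℚ_[p])‖ < 1 := by
    have : (t - t0 : ℚ) = p * k := by rw [ht]; ring
    rw [this]
    push_cast
    rw [norm_mul]
    have h3 : ‖(p : ℚ_[p])‖ < 1 := Padic.norm_p_lt_one
    have h4 : ‖(k : ℚ_[p])‖ ≤ 1 := unat k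
    calc ‖(p : ℚ_[p])‖ * ‖(k : ℚ_[p])‖ ≤ ‖(p : ℚ_[p])‖ * 1 := by gcongr
      _ < 1 := by rw [mul_one]; exact h3
  have htn : ‖(t : ℚ_[p])‖ ≤ 1 := by
    have h1 : (t : ℚ_[p]) = ((t - t0 : ℚ) : ℚ_[p]) + ((t0 : ℤ) : ℚ_[p]) := by push_cast; ring
    rw [h1]
    exact uadd htt0.le (Padic.norm_int_le_one _)
  refine ⟨t, ?_, ?_, ?_, ?_, (hM5 p (by omega)).2 hw0, ?_, ?_⟩
  · rw [← hP]; exact (hM1 p (by omega)).le_one htn
  · rw [← hP]; exact (hM2 p (by omega)).le_one htn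
  · rw [← hP]; exact (hM3 p (by omega)).le_one htn
  · rw [← hP]; exact (hM4 p (by omega)).le_one htn
  · rw [← hPB]; exact hk
  · rw [← hPB, ← hPT]
    exact ht0 t htt0 hk

lemma NDP.symm {f : MvPolynomial (Fin n) ℚ} {z v u : Fin n → ℚ} (h : NDP f z v u) : NDP f z u v := by
  intro α β γ hc
  obtain ⟨h1, h2, h3⟩ := h β α γ fun s t => by
    have := hc t s
    rw [add_comm (t • u)] at this
    linear_combination this
  exact ⟨h2, h1, h3⟩

/-- an identity on the affine part of the plane of directions extends to the whole plane -/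
lemma plane_ext {f : MvPolynomial (Fin n) ℚ} {z v u : Fin n → ℚ} {α β γ : ℚ}
    (h : ∀ t : ℚ, (α + β * t) * covB (lp f z (v + t • u)) = γ * covT (lp f z (v + t • u))) :
    ∀ s t : ℚ, (α * s + β * t) * covB (lp f z (s • v + t • u)) = γ * covT (lp f z (s • v + t • u)) := by
  have h1 : ∀ s t : ℚ, s ≠ 0 → (α * s + β * t) * covB (lp f z (s • v + t • u)) =
      γ * covT (lp f z (s • v + t • u)) := by
    intro s t hs
    have e : s • v + t • u = s • (v + (t / s) • u) := by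
      rw [smul_add, smul_smul, mul_div_cancel₀ _ hs]
    rw [e, covB_smul, covT_smul]
    have h2 := h (t / s)
    have h3 : α * s + β * t = s * (α + β * (t / s)) := by field_simp
    rw [h3]
    linear_combination (s ^ 4) * h2
  intro s t
  by_cases hs : s = 0
  · subst hs
    obtain ⟨P, hP⟩ := (PQv_covB f z).poly (t • u) v
    obtain ⟨Q, hQ⟩ := (PQv_covT f z).poly (t • u) v
    have h4 : (Polynomial.C α * Polynomial.X + Polynomial.C (β * t)) * P = Polynomial.C γ * Q := by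
      apply poly_eq_of_inf (inf_ne {0} (Set.finite_singleton 0))
      intro x hx
      simp only [Polynomial.eval_mul, Polynomial.eval_add, Polynomial.eval_C, Polynomial.eval_X, hP, hQ]
      have := h1 x t hx
      rw [add_comm (x • v)] at this
      linear_combination this
    have h5 := congrArg (Polynomial.eval 0) h4
    simp only [Polynomial.eval_mul, Polynomial.eval_add, Polynomial.eval_C, Polynomial.eval_X, hP, hQ] at h5
    rw [add_comm (0 • v)]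
    linear_combination h5
  · exact h1 s t hs

lemma NDP.PB_ne {f : MvPolynomial (Fin n) ℚ} {z v u : Fin n → ℚ} (h : NDP f z v u)
    {PB : Polynomial ℚ} (hPB : ∀ t, PB.eval t = covB (lp f z (v + t • u))) : PB ≠ 0 := by
  rintro rfl
  obtain ⟨h1, -, -⟩ := h 1 0 0 (plane_ext fun t => by rw [← hPB]; simp)
  exact one_ne_zero h1

/-- **a good direction in a nondegenerate plane** -/
theorem good_dir {f : MvPolynomial (Fin n) ℚ} {z v u : Fin n → ℚ} (h : NDP f z v u) {w0 : ℚ}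
    (hw0 : w0 ≠ 0) : ∃ (p : ℕ) (_ : Fact p.Prime), 5 ≤ p ∧ ∃ a b : ℚ, PG p (lp f z (a • v + b • u)) w0 := by
  obtain ⟨PB, hPB⟩ := (PQv_covB f z).poly v u
  obtain ⟨PT, hPT⟩ := (PQv_covT f z).poly v u
  obtain ⟨QB, hQB⟩ := (PQv_covB f z).poly u v
  obtain ⟨QT, hQT⟩ := (PQv_covT f z).poly u v
  have hPB0 := h.PB_ne hPB
  have hQB0 := h.symm.PB_ne hQB
  by_cases h1 : PB ∣ PT
  · by_cases h2 : QB ∣ QT
    · exfalso
      obtain ⟨PR, hPR⟩ := h1
      obtain ⟨QR, hQR⟩ := h2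
      have hdeg : PR.natDegree ≤ 1 := by
        have hE : {t : ℚ | t = 0 ∨ PB.eval t = 0}.Finite := by
          have h3 : {t : ℚ | PB.eval t = 0}.Finite := Fam.roots_fin hPB0
          exact (Set.finite_singleton (0 : ℚ)).union h3
        refine deg_le_one (Q := QR) (inf_ne _ hE) fun t ht => ?_
        simp only [Set.mem_compl_iff, Set.mem_ofPred_eq, not_or] at ht
        obtain ⟨ht0, ht1⟩ := ht
        refine ⟨ht0, ?_⟩
        have e : u + t⁻¹ • v = t⁻¹ • (v + t • u) := by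
          rw [smul_add, smul_smul, inv_mul_cancel₀ ht0, one_smul, add_comm]
        have e1 : QB.eval t⁻¹ = (t⁻¹) ^ 3 * PB.eval t := by rw [hQB, hPB, e, covB_smul]
        have e2 : QT.eval t⁻¹ = (t⁻¹) ^ 4 * PT.eval t := by rw [hQT, hPT, e, covT_smul]
        have e3 : PT.eval t = PB.eval t * PR.eval t := by rw [hPR, Polynomial.eval_mul]
        have e4 : QT.eval t⁻¹ = QB.eval t⁻¹ * QR.eval t⁻¹ := by rw [hQR, Polynomial.eval_mul]
        rw [e1, e2, e3] at e4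
        apply mul_left_cancel₀ ht1
        have h6 : (t⁻¹) ^ 4 * (PB.eval t * PR.eval t) * t ^ 4 = (t⁻¹) ^ 3 * PB.eval t * QR.eval t⁻¹ * t ^ 4 := by
          rw [e4]
        have h7 : (t⁻¹) ^ 4 * t ^ 4 = 1 := by rw [← mul_pow, inv_mul_cancel₀ ht0, one_pow]
        have h8 : (t⁻¹) ^ 3 * t ^ 4 = t := by
          have : (t⁻¹) ^ 3 * t ^ 4 = (t⁻¹ * t) ^ 3 * t := by ring
          rw [this, inv_mul_cancel₀ ht0, one_pow, one_mul]
        calc PB.eval t * PR.eval t = ((t⁻¹) ^ 4 * t ^ 4) * (PB.eval t * PR.eval t) := by rw [h7, one_mul]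
          _ = (t⁻¹) ^ 4 * (PB.eval t * PR.eval t) * t ^ 4 := by ring
          _ = ((t⁻¹) ^ 3 * t ^ 4) * (PB.eval t * QR.eval t⁻¹) := by rw [h6]; ring
          _ = PB.eval t * (t * QR.eval t⁻¹) := by rw [h8]; ring
      have hPRe : ∀ t, PR.eval t = PR.coeff 0 + PR.coeff 1 * t := by
        intro t
        rw [Polynomial.eval_eq_sum_range' (n := 2) (by omega), Finset.sum_range_succ, Finset.sum_range_one]
        simp
      obtain ⟨-, -, h3⟩ := h (PR.coeff 0) (PR.coeff 1) 1 (plane_ext fun t => by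
        rw [← hPRe, ← hPB, ← hPT, hPR, Polynomial.eval_mul]
        ring)
      exact one_ne_zero h3
    · obtain ⟨p, hp, h5, t, ht⟩ := half_dir hQB hQT hQB0 h2 hw0
      refine ⟨p, hp, h5, t, 1, ?_⟩
      rw [one_smul, add_comm]
      exact ht
  · obtain ⟨p, hp, h5, t, ht⟩ := half_dir hPB hPT hPB0 h1 hw0
    refine ⟨p, hp, h5, 1, t, ?_⟩
    rw [one_smul]
    exact ht

/-- rational numbers close to `0` in the real numbers and close to `1` at `p` -/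
lemma real_padic {p : ℕ} [hp : Fact p.Prime] {η δ : ℝ} (hη : 0 < η) (hδ : 0 < δ) :
    ∃ t : ℚ, |(t : ℝ)| < η ∧ ‖((t - 1 : ℚ) : ℚ_[p])‖ < δ := by
  have hp1 : (1 : ℝ) < p := by exact_mod_cast hp.out.one_lt
  obtain ⟨N1, h1⟩ := pow_unbounded_of_one_lt (1 / η) hp1
  obtain ⟨N2, h2⟩ := pow_unbounded_of_one_lt (1 / δ) hp1
  set N := N1 + N2 + 1 with hN
  have hpN1 : (p : ℝ) ^ N1 ≤ p ^ N := pow_le_pow_right₀ hp1.le (by omega)
  have hpN2 : (p : ℝ) ^ N2 ≤ p ^ N := pow_le_pow_right₀ hp1.le (by omega)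
  have hpos : (0 : ℝ) < p ^ N := by positivity
  refine ⟨1 / (1 + p ^ N), ?_, ?_⟩
  · push_cast
    rw [abs_of_pos (by positivity), div_lt_iff₀ (by positivity)]
    rw [div_lt_iff₀ hη] at h1
    have : (p : ℝ) ^ N1 * η ≤ p ^ N * η := by gcongr
    nlinarith
  · have hne : (1 : ℚ) + (p : ℚ) ^ N ≠ 0 := by positivity
    have h3 : (1 / (1 + (p : ℚ) ^ N) - 1 : ℚ) = -((p : ℚ) ^ N) / (1 + (p : ℚ) ^ N) := by
      field_simp
      ring
    rw [h3]
    push_cast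
    have h4 : ‖(1 : ℚ_[p]) + (p : ℚ_[p]) ^ N‖ = 1 := by
      rw [uadd_eq, norm_one]
      rw [norm_one, norm_pow]
      exact pow_lt_one₀ (norm_nonneg _) Padic.norm_p_lt_one (by omega)
    rw [norm_div, norm_neg, h4, div_one, norm_pow, Padic.norm_p, inv_pow, inv_lt_comm₀ hpos hδ]
    rw [one_div] at h2
    linarith

/-- polynomial functions are continuous at `p` -/
lemma padic_cont {p : ℕ} [hp : Fact p.Prime] (q : Polynomial ℚ) {ε : ℝ} (hε : 0 < ε) :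
    ∃ δ : ℝ, 0 < δ ∧ ∀ t : ℚ, ‖((t - 1 : ℚ) : ℚ_[p])‖ < δ → ‖((q.eval t - q.eval 1 : ℚ) : ℚ_[p])‖ < ε := by
  have hc : Continuous fun x : ℚ_[p] => (q.map (algebraMap ℚ ℚ_[p])).eval x := Polynomial.continuous _
  obtain ⟨δ, hδ, h⟩ := Metric.continuousAt_iff.mp (hc.continuousAt (x := 1)) ε hε
  refine ⟨δ, hδ, fun t ht => ?_⟩
  have h1 := h (x := (t : ℚ_[p])) (by
    rw [dist_eq_norm]
    push_cast at ht
    exact ht)
  rw [dist_eq_norm] at h1
  have h2 : ∀ x : ℚ, (q.map (algebraMap ℚ ℚ_[p])).eval (x : ℚ_[p]) = ((q.eval x : ℚ) : ℚ_[p]) := by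
    intro x
    rw [Polynomial.eval_map, ← Polynomial.aeval_def]
    have h3 := Polynomial.aeval_algebraMap_apply ℚ_[p] x q
    simpa using h3
  have h3 : (1 : ℚ_[p]) = ((1 : ℚ) : ℚ_[p]) := by push_cast; rfl
  rw [h2, h3, h2] at h1
  push_cast
  exact h1

/-- **directions close to a given one, with infinitely many square values** -/
theorem dir_approx {f : MvPolynomial (Fin n) ℚ} {z v u vs : Fin n → ℚ} {V : Submodule ℚ (Fin n → ℚ)}
    (hV : QuarticAlong f V) (hv : v ∈ V) (hu : u ∈ V) (hvs : vs ∈ V) (h : NDP f z v u) {w0 : ℚ}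
    (hw0 : w0 ≠ 0) (hw : w0 ^ 2 = MvPolynomial.eval z f) {η : ℝ} (hη : 0 < η) :
    ∃ v' ∈ V, (∀ k, |(v' k : ℝ) - vs k| < η) ∧ (Sq (lp f z v')).Infinite := by
  obtain ⟨p, hp, h5, a, b, hPG⟩ := good_dir h hw0
  set v0 := a • v + b • u with hv0
  have hv0V : v0 ∈ V := V.add_mem (V.smul_mem _ hv) (V.smul_mem _ hu)
  have hk : ∀ k, ∃ P : Polynomial ℚ, ∀ t, P.eval t = (lp f z (vs + t • (v0 - vs))).coeff k := fun k =>
    (PQv_coeff f z k).poly vs (v0 - vs)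
  choose P hP using hk
  obtain ⟨PB, hPB⟩ := (PQv_covB f z).poly vs (v0 - vs)
  obtain ⟨PT, hPT⟩ := (PQv_covT f z).poly vs (v0 - vs)
  have e1 : vs + (1 : ℚ) • (v0 - vs) = v0 := by rw [one_smul]; abel
  have hB1 : PB.eval 1 = covB (lp f z v0) := by rw [hPB, e1]
  have hT1 : PT.eval 1 = covT (lp f z v0) := by rw [hPT, e1]
  have hBpos : 0 < ‖((PB.eval 1 : ℚ) : ℚ_[p])‖ := by
    rw [hB1]
    exact norm_pos_iff.mpr (by exact_mod_cast hPG.B0)
  have hTpos : 0 < ‖((PT.eval 1 : ℚ) : ℚ_[p])‖ := by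
    rw [hT1]
    rw [hB1] at hBpos
    exact hBpos.trans hPG.BT
  obtain ⟨δ1, hδ1, k1⟩ := padic_cont (p := p) (P 1) one_pos
  obtain ⟨δ2, hδ2, k2⟩ := padic_cont (p := p) (P 2) one_pos
  obtain ⟨δ3, hδ3, k3⟩ := padic_cont (p := p) (P 3) one_pos
  obtain ⟨δ4, hδ4, k4⟩ := padic_cont (p := p) (P 4) one_pos
  obtain ⟨δ5, hδ5, k5⟩ := padic_cont (p := p) PB hBpos
  obtain ⟨δ6, hδ6, k6⟩ := padic_cont (p := p) PT hTpos
  set D : ℝ := 1 + ∑ k, |((v0 k : ℝ) - vs k)| with hD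
  have hD0 : 0 < D := by
    have : 0 ≤ ∑ k, |((v0 k : ℝ) - vs k)| := Finset.sum_nonneg fun _ _ => abs_nonneg _
    linarith
  obtain ⟨t, ht1, ht2⟩ := real_padic (p := p) (η := η / D)
    (δ := min (min (min δ1 δ2) (min δ3 δ4)) (min δ5 δ6)) (by positivity)
    (lt_min (lt_min (lt_min hδ1 hδ2) (lt_min hδ3 hδ4)) (lt_min hδ5 hδ6))
  have m1 := k1 t (ht2.trans_le ((min_le_left _ _).trans ((min_le_left _ _).trans (min_le_left _ _))))
  have m2 := k2 t (ht2.trans_le ((min_le_left _ _).trans ((min_le_left _ _).trans (min_le_right _ _))))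
  have m3 := k3 t (ht2.trans_le ((min_le_left _ _).trans ((min_le_right _ _).trans (min_le_left _ _))))
  have m4 := k4 t (ht2.trans_le ((min_le_left _ _).trans ((min_le_right _ _).trans (min_le_right _ _))))
  have m5 := k5 t (ht2.trans_le ((min_le_right _ _).trans (min_le_left _ _)))
  have m6 := k6 t (ht2.trans_le ((min_le_right _ _).trans (min_le_right _ _)))
  have hle : ∀ (q : Polynomial ℚ), ‖((q.eval t - q.eval 1 : ℚ) : ℚ_[p])‖ < 1 →
      ‖((q.eval 1 : ℚ) : ℚ_[p])‖ ≤ 1 → ‖((q.eval t : ℚ) : ℚ_[p])‖ ≤ 1 := by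
    intro q h1 h2
    have : ((q.eval t : ℚ) : ℚ_[p]) = ((q.eval t - q.eval 1 : ℚ) : ℚ_[p]) + ((q.eval 1 : ℚ) : ℚ_[p]) := by
      push_cast; ring
    rw [this]
    exact uadd h1.le h2
  have heq : ∀ (q : Polynomial ℚ), ‖((q.eval t - q.eval 1 : ℚ) : ℚ_[p])‖ < ‖((q.eval 1 : ℚ) : ℚ_[p])‖ →
      ‖((q.eval t : ℚ) : ℚ_[p])‖ = ‖((q.eval 1 : ℚ) : ℚ_[p])‖ := by
    intro q h1
    have : ((q.eval t : ℚ) : ℚ_[p]) = ((q.eval 1 : ℚ) : ℚ_[p]) + ((q.eval t - q.eval 1 : ℚ) : ℚ_[p]) := by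
      push_cast; ring
    rw [this, uadd_eq h1]
  have hvV : vs + t • (v0 - vs) ∈ V := V.add_mem hvs (V.smul_mem _ (V.sub_mem hv0V hvs))
  refine ⟨vs + t • (v0 - vs), hvV, ?_, ?_⟩
  · intro k
    have e2 : (((vs + t • (v0 - vs)) k : ℚ) : ℝ) - vs k = t * ((v0 k : ℝ) - vs k) := by
      simp
    rw [e2, abs_mul]
    have h3 : |((v0 k : ℝ) - vs k)| < D := by
      have : |((v0 k : ℝ) - vs k)| ≤ ∑ k, |((v0 k : ℝ) - vs k)| :=
        Finset.single_le_sum (f := fun k => |((v0 k : ℝ) - vs k)|) (fun _ _ => abs_nonneg _) (Finset.mem_univ k)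
      linarith
    calc |(t : ℝ)| * |((v0 k : ℝ) - vs k)| ≤ |(t : ℝ)| * D := by gcongr
      _ < η / D * D := by gcongr
      _ = η := by field_simp
  · refine PG.inf (p := p) h5 (w0 := w0) ⟨?_, ?_, ?_, ?_, hPG.w, ?_, ?_⟩ ?_ (hV _ _ hvV)
    · rw [← hP]; exact hle _ m1 (by rw [hP, e1]; exact hPG.c1)
    · rw [← hP]; exact hle _ m2 (by rw [hP, e1]; exact hPG.c2)
    · rw [← hP]; exact hle _ m3 (by rw [hP, e1]; exact hPG.c3)
    · rw [← hP]; exact hle _ m4 (by rw [hP, e1]; exact hPG.c4)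
    · rw [← hPB]
      intro h0
      have h1 := heq _ m5
      rw [h0] at h1
      simp only [Rat.cast_zero, norm_zero] at h1
      linarith
    · rw [← hPB, ← hPT, heq _ m5, heq _ m6, hB1, hT1]
      exact hPG.BT
    · rw [lp_zero, hw]

end Pool.Agent.Y718
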