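import Pool.Agent.TH729.SQ.Values
import Pool.Agent.TH729.CC.TQ

/-!
# Images, quadrics, and linear systems
-/

set_option autoImplicit false
set_option linter.unusedSectionVars false
set_option linter.unusedSimpArgs false

open Set Filter Topology Pool.Agent.H581R2 Pool.Agent.TH729.SQ

namespace Pool.Agent.Y718

/-- polynomial functions over the rational numbers -/
def PQ {ι : Type} (f : (ι → ℚ) → ℚ) : Prop := ∃ p : MvPolynomial ι ℚ, ∀ v, f v = MvPolynomial.eval v p

namespace PQ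

variable {ι κ : Type}

lemma const (c : ℚ) : PQ (fun _ : ι → ℚ => c) := ⟨MvPolynomial.C c, fun v => by simp⟩
lemma coord (i : ι) : PQ (fun v : ι → ℚ => v i) := ⟨MvPolynomial.X i, fun v => by simp⟩
lemma add {f g : (ι → ℚ) → ℚ} (hf : PQ f) (hg : PQ g) : PQ (fun v => f v + g v) := by
  obtain ⟨p, hp⟩ := hf
  obtain ⟨q, hq⟩ := hg
  exact ⟨p + q, fun v => by simp [hp, hq]⟩
lemma sub {f g : (ι → ℚ) → ℚ} (hf : PQ f) (hg : PQ g) : PQ (fun v => f v - g v) := by
  obtain ⟨p, hp⟩ := hf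
  obtain ⟨q, hq⟩ := hg
  exact ⟨p - q, fun v => by simp [hp, hq]⟩
lemma mul {f g : (ι → ℚ) → ℚ} (hf : PQ f) (hg : PQ g) : PQ (fun v => f v * g v) := by
  obtain ⟨p, hp⟩ := hf
  obtain ⟨q, hq⟩ := hg
  exact ⟨p * q, fun v => by simp [hp, hq]⟩
lemma pow {f : (ι → ℚ) → ℚ} (hf : PQ f) (n : ℕ) : PQ (fun v => f v ^ n) := by
  obtain ⟨p, hp⟩ := hf
  exact ⟨p ^ n, fun v => by simp [hp]⟩
lemma sum {α : Type*} (s : Finset α) {f : α → (ι → ℚ) → ℚ} (hf : ∀ a ∈ s, PQ (f a)) :
    PQ (fun v => ∑ a ∈ s, f a v) := by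
  classical
  induction s using Finset.induction_on with
  | empty => simpa using PQ.const 0
  | insert a s ha ih =>
    have : (fun v => ∑ b ∈ insert a s, f b v) = fun v => f a v + ∑ b ∈ s, f b v := by
      funext v; rw [Finset.sum_insert ha]
    rw [this]
    exact (hf a (by simp)).add (ih fun b hb => hf b (by simp [hb]))
lemma eval {f : κ → (ι → ℚ) → ℚ} (hf : ∀ k, PQ (f k)) (P : MvPolynomial κ ℚ) :
    PQ (fun v => MvPolynomial.eval (fun k => f k v) P) := by
  choose p hp using hf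
  refine ⟨MvPolynomial.bind₁ p P, fun v => ?_⟩
  have : MvPolynomial.eval v (MvPolynomial.bind₁ p P) =
      MvPolynomial.eval (fun k => MvPolynomial.eval v (p k)) P := by
    rw [← MvPolynomial.aeval_eq_eval, ← MvPolynomial.aeval_eq_eval, MvPolynomial.aeval_bind₁]
  rw [this]
  have h2 : (fun k => f k v) = fun k => MvPolynomial.eval v (p k) := funext fun k => hp k v
  show MvPolynomial.eval (fun k => f k v) P = _
  rw [h2]
lemma peval {f : (ι → ℚ) → ℚ} (hf : PQ f) (P : Polynomial ℚ) : PQ (fun v => P.eval (f v)) := by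
  obtain ⟨p, hp⟩ := hf
  refine ⟨Polynomial.aeval p P, fun v => ?_⟩
  show Polynomial.eval (f v) P = _
  rw [hp v]
  have := Polynomial.aeval_algHom_apply (MvPolynomial.aeval v : MvPolynomial ι ℚ →ₐ[ℚ] ℚ) p P
  rw [← MvPolynomial.aeval_eq_eval, ← this]
  simp [Polynomial.aeval_def, Polynomial.eval₂_eq_eval_map]

/-- a product of polynomial functions vanishes only if one of them does -/
lemma mul_eq_zero {f g : (ι → ℚ) → ℚ} (hf : PQ f) (hg : PQ g) (h : ∀ v, f v * g v = 0) :
    (∀ v, f v = 0) ∨ ∀ v, g v = 0 := by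
  obtain ⟨p, hp⟩ := hf
  obtain ⟨q, hq⟩ := hg
  have : p * q = 0 := by
    apply MvPolynomial.funext
    intro v
    rw [map_mul, ← hp, ← hq, h, map_zero]
  rcases _root_.mul_eq_zero.mp this with h | h
  · left; intro v; rw [hp, h, map_zero]
  · right; intro v; rw [hq, h, map_zero]

end PQ

/-- **images under rational maps** -/
lemma img_SA {n κ μ : Type} [Finite n] [Finite κ] [Finite μ] {D : Set (n → ℚ)}
    (hD : SA (closure (rl D))) {q : (n ⊕ κ → ℚ) → ℚ} (hq : PQ q) {p : μ → (n ⊕ κ → ℚ) → ℚ}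
    (hp : ∀ k, PQ (p k)) {T : Set (μ → ℚ)}
    (hT : ∀ y, y ∈ T ↔ ∃ x ∈ D, ∃ u : κ → ℚ, q (Sum.elim x u) ≠ 0 ∧
      ∀ k, y k = p k (Sum.elim x u) / q (Sum.elim x u)) : SA (closure (rl T)) := by
  obtain ⟨q', hq'⟩ := hq
  choose p' hp' using hp
  let ρ : n ⊕ κ → (Unit × n) ⊕ κ := Sum.map (fun i => ((), i)) id
  have key := values_main (ι := Unit) (κ := κ) (n := n) (fun _ => D) (fun _ => hD)
    (fun k => MvPolynomial.rename ρ (p' k)) (MvPolynomial.rename ρ q')
  have hev : ∀ (x : Unit → n → ℚ) (u : κ → ℚ) (P : MvPolynomial (n ⊕ κ) ℚ),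
      MvPolynomial.eval (Sum.elim (fun r => x r.1 r.2) u) (MvPolynomial.rename ρ P) =
      MvPolynomial.eval (Sum.elim (x ()) u) P := by
    intro x u P
    rw [MvPolynomial.eval_rename]
    congr 2
    funext s
    rcases s with s | s <;> rfl
  have heq : rl T = {y : μ → ℝ | ∃ (x : Unit → n → ℚ) (u : κ → ℚ), (∀ j, x j ∈ D) ∧
      MvPolynomial.eval (Sum.elim (fun r => x r.1 r.2) u) (MvPolynomial.rename ρ q') ≠ 0 ∧
      ∀ k, y k = ((MvPolynomial.eval (Sum.elim (fun r => x r.1 r.2) u) (MvPolynomial.rename ρ (p' k)) /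
        MvPolynomial.eval (Sum.elim (fun r => x r.1 r.2) u) (MvPolynomial.rename ρ q') : ℚ) : ℝ)} := by
    ext y
    constructor
    · rintro ⟨z, hz, rfl⟩
      obtain ⟨x, hx, u, hqu, hy⟩ := (hT z).mp hz
      refine ⟨fun _ => x, u, fun _ => hx, ?_, fun k => ?_⟩
      · have e1 := hev (fun _ => x) u q'
        simp only at e1 ⊢
        rw [e1, ← hq']
        exact hqu
      · have e1 := hev (fun _ => x) u q'
        have e2 := hev (fun _ => x) u (p' k)
        simp only at e1 e2 ⊢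
        rw [e1, e2, ← hq', ← hp', ← hy k]
    · rintro ⟨x, u, hx, hqu, hy⟩
      refine ⟨fun k => p' k |> MvPolynomial.eval (Sum.elim (x ()) u) |> (· / MvPolynomial.eval (Sum.elim (x ()) u) q'), ?_, ?_⟩
      · rw [hT]
        refine ⟨x (), hx (), u, ?_, fun k => ?_⟩
        · rw [hq', ← hev]; exact hqu
        · rw [hq', hp']
      · funext k
        rw [hy k, hev, hev]
  rw [heq]
  exact key

lemma univ_SA {n : Type} [Finite n] : SA (closure (rl (Set.univ : Set (n → ℚ)))) := by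
  have : closure (rl (Set.univ : Set (n → ℚ))) = Set.univ := by
    have h1 : DenseRange (Pi.map fun _ : n => ((↑) : ℚ → ℝ)) :=
      DenseRange.piMap fun _ => Rat.denseRange_cast
    rw [Set.eq_univ_iff_forall]
    intro x
    refine closure_mono ?_ (h1 x)
    rintro _ ⟨u, rfl⟩
    exact ⟨u, mem_univ _, rfl⟩
  rw [this]
  exact SA.univ

lemma rl_union {n : Type} (S T : Set (n → ℚ)) : rl (S ∪ T) = rl S ∪ rl T := by
  ext x
  constructor
  · rintro ⟨r, hr | hr, rfl⟩
    · exact Or.inl ⟨r, hr, rfl⟩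
    · exact Or.inr ⟨r, hr, rfl⟩
  · rintro (⟨r, hr, rfl⟩ | ⟨r, hr, rfl⟩)
    · exact ⟨r, Or.inl hr, rfl⟩
    · exact ⟨r, Or.inr hr, rfl⟩

lemma union_SA {n : Type} {S T : Set (n → ℚ)} (hS : SA (closure (rl S))) (hT : SA (closure (rl T))) :
    SA (closure (rl (S ∪ T))) := by
  rw [rl_union, closure_union]
  exact hS.union hT

lemma empty_SA {n : Type} : SA (closure (rl (∅ : Set (n → ℚ)))) := by
  have : rl (∅ : Set (n → ℚ)) = ∅ := by
    ext x
    constructor
    · rintro ⟨r, hr, -⟩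
      exact hr
    · intro h; exact absurd h (Set.notMem_empty x)
  rw [this, closure_empty]
  exact SA.empty

lemma biUnion_SA {n α : Type} {E : Set α} (hE : E.Finite) {S : α → Set (n → ℚ)}
    (hS : ∀ a ∈ E, SA (closure (rl (S a)))) : SA (closure (rl (⋃ a ∈ E, S a))) := by
  induction E, hE using Set.Finite.induction_on with
  | empty => simpa using empty_SA
  | insert ha hs ih =>
    rw [Set.biUnion_insert]
    exact union_SA (hS _ (by simp)) (ih fun b hb => hS b (by simp [hb]))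

/-- the closure of the rational zeros of a polynomial of degree at most three -/
lemma poly_SA {n : ℕ} (f : MvPolynomial (Fin n) ℚ) (hf : f.totalDegree ≤ 3) :
    SA (closure (rl {x : Fin n → ℚ | MvPolynomial.eval x f = 0})) := by
  have h1 := Pool.Agent.TH729.CC.affine_SA (Rat.castHom ℝ) (fun r => by
    simpa using (isAlgebraic_algebraMap (R := ℚ) (A := ℝ) r)) f hf
  have h2 : rl {x : Fin n → ℚ | MvPolynomial.eval x f = 0} =
      {x : Fin n → ℝ | ∃ r : Fin n → ℚ, MvPolynomial.eval r f = 0 ∧ x = fun i => (Rat.castHom ℝ) (r i)} := by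
    ext x
    constructor
    · rintro ⟨r, hr, rfl⟩; exact ⟨r, hr, rfl⟩
    · rintro ⟨r, hr, rfl⟩; exact ⟨r, hr, rfl⟩
  rw [h2]
  exact h1

/-- a set of rational solutions of one equation of degree at most three, reindexed -/
lemma reindex_SA {n : ℕ} {ι : Type} [Finite ι] (e : Fin n ≃ ι) {D : Set (Fin n → ℚ)}
    (hD : SA (closure (rl D))) {T : Set (ι → ℚ)} (hT : ∀ y, y ∈ T ↔ (fun i => y (e i)) ∈ D) :
    SA (closure (rl T)) := by
  refine img_SA (κ := Empty) hD (q := fun _ => 1) (PQ.const 1)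
    (p := fun k v => v (Sum.inl (e.symm k))) (fun k => PQ.coord _) fun y => ?_
  rw [hT]
  constructor
  · intro h
    refine ⟨_, h, fun x => x.elim, one_ne_zero, fun k => ?_⟩
    simp
  · rintro ⟨x, hx, u, -, hy⟩
    have : (fun i => y (e i)) = x := by
      funext i
      rw [hy (e i)]
      simp
    rw [this]
    exact hx

end Pool.Agent.Y718
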