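import Pool.Agent.Y718.SupL
import Pool.Agent.TH729.CV.Iso

/-!
# Isolated values on sets of rational points with semialgebraic closure
-/

set_option autoImplicit false
set_option linter.unusedVariables false

open MvPolynomial Pool.Agent.TH729.SQ Pool.Agent.H581R2 Topology Filter

namespace Pool.Agent.Y718.IsoR

/-- a countable semialgebraic subset of the line is finite -/
lemma countable_finite {T : Set (Fin 1 → ℝ)} (hT : SA T) (hc : T.Countable) :
    {t : ℝ | (fun _ => t) ∈ T}.Finite := by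
  have h1 := (Pool.Agent.TH729.CC.line_SA hT).1
  refine h1.subset fun t ht => ⟨subset_closure ht, fun h2 => ?_⟩
  have hc' : {t : ℝ | (fun _ => t) ∈ T}.Countable := by
    refine hc.preimage (f := fun (t : ℝ) (_ : Fin 1) => t) ?_
    intro a b h
    exact congrFun h 0
  have h3 : interior {t : ℝ | (fun _ => t) ∈ T} = ∅ := by
    rw [interior_eq_empty_iff_dense_compl]
    exact hc'.dense_compl ℝ
  rw [h3] at h2
  exact h2

variable {τ : Type} [Finite τ]

/-- the points of a set at which the functions are locally constant -/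
def LC {m : ℕ} (X : Set (τ → ℝ)) (p : Fin m → MvPolynomial τ ℚ) (q : MvPolynomial τ ℚ) :
    Set (τ → ℝ) :=
  {x | x ∈ X ∧ (aeval x q : ℝ) ≠ 0 ∧ ∃ ε : ℝ, 0 < ε ∧ ∀ y : τ → ℝ, (∀ i, (y i - x i) ^ 2 < ε) →
    y ∈ X → ∀ k, (aeval y (p k) : ℝ) * aeval x q = aeval x (p k) * aeval y q}

lemma LC_SA {m : ℕ} {X : Set (τ → ℝ)} (hX : SA X) (p : Fin m → MvPolynomial τ ℚ)
    (q : MvPolynomial τ ℚ) : SA (LC X p q) := by
  have hpf : ∀ {κ : Type} (r : MvPolynomial τ ℚ) (φ : (κ → ℝ) → τ → ℝ), (∀ i, PF fun v => φ v i) →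
      PF (fun v => (aeval (φ v) r : ℝ)) := by
    intro κ r φ hφ
    exact PF.comp (PF.aeval r) hφ
  refine SAP.and hX (SAP.and (SAP.eq_zero (PF.aeval q)).not ?_)
  refine SAP.exists' (p := fun (x : τ → ℝ) ε => 0 < ε ∧ ∀ y : τ → ℝ, (∀ i, (y i - x i) ^ 2 < ε) →
    y ∈ X → ∀ k, (aeval y (p k) : ℝ) * aeval x q = aeval x (p k) * aeval y q)
    ((SAP.pos (PF.coord _)).and ?_)
  have h1 := SAP.exists_fun τ (Option τ) (fun w => (∀ i, (w (Sum.inl i) - w (Sum.inr (some i))) ^ 2 <
      w (Sum.inr none)) ∧ (fun i => w (Sum.inl i)) ∈ X ∧ ¬ ∀ k,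
      (aeval (fun i => w (Sum.inl i)) (p k) : ℝ) * aeval (fun i => w (Sum.inr (some i))) q =
      aeval (fun i => w (Sum.inr (some i))) (p k) * aeval (fun i => w (Sum.inl i)) q) (by
    refine SAP.and (SAP.forall_fin fun i => SAP.lt (((PF.coord _).sub (PF.coord _)).pow 2)
      (PF.coord _)) (SAP.and ?_ (SAP.not (SAP.forall_fin fun k => SAP.eq ?_ ?_)))
    · exact SAP.preimage (p := fun v => v ∈ X) hX (fun i => PF.coord _)
    · exact (hpf _ _ fun i => PF.coord _).mul (hpf _ _ fun i => PF.coord _)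
    · exact (hpf _ _ fun i => PF.coord _).mul (hpf _ _ fun i => PF.coord _))
  refine SAP.congr h1.not fun v => ?_
  push Not
  refine forall_congr' fun y => ?_
  constructor
  · intro h h2 h3
    exact h h2 h3
  · intro h h2 h3
    exact h h2 h3

/-- the values at the points at which the functions are locally constant are finite in number -/
theorem LC_values {m : ℕ} {X : Set (τ → ℝ)} (hX : SA X) (p : Fin m → MvPolynomial τ ℚ)
    (q : MvPolynomial τ ℚ) (k : Fin m) :
    {t : ℝ | ∃ x ∈ LC X p q, t * aeval x q = aeval x (p k)}.Finite := by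
  classical
  have := Fintype.ofFinite τ
  have hS : SA {v : Fin 1 → ℝ | ∃ x ∈ LC X p q, v 0 * aeval x q = aeval x (p k)} := by
    have h1 := SAP.exists_fun τ (Fin 1) (fun w => (fun i => w (Sum.inl i)) ∈ LC X p q ∧
      w (Sum.inr 0) * (aeval (fun i => w (Sum.inl i)) q : ℝ) = aeval (fun i => w (Sum.inl i)) (p k)) (by
      refine SAP.and ?_ (SAP.eq ?_ ?_)
      · exact SAP.preimage (p := fun v => v ∈ LC X p q) (LC_SA hX p q) (fun i => PF.coord _)
      · exact (PF.coord _).mul (PF.comp (PF.aeval q) fun i => PF.coord _)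
      · exact PF.comp (PF.aeval (p k)) fun i => PF.coord _)
    exact h1
  refine countable_finite (T := {v : Fin 1 → ℝ | ∃ x ∈ LC X p q, v 0 * aeval x q = aeval x (p k)})
    hS ?_
  -- countability
  set 𝓑 := TopologicalSpace.countableBasis (τ → ℝ) with h𝓑
  have hbc : 𝓑.Countable := TopologicalSpace.countable_countableBasis _
  have hbb := TopologicalSpace.isBasis_countableBasis (τ → ℝ)
  -- each value is attached to a basic open set
  set R : Set (Set (τ → ℝ) × (Fin 1 → ℝ)) := {e | e.1 ∈ 𝓑 ∧ ∃ x ∈ e.1, x ∈ X ∧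
    (aeval x q : ℝ) ≠ 0 ∧ e.2 0 * aeval x q = aeval x (p k) ∧
    ∀ y ∈ e.1, y ∈ X → (aeval y q : ℝ) ≠ 0 → e.2 0 * aeval y q = aeval y (p k)} with hR
  have hRc : R.Countable := by
    have hinj : Set.InjOn Prod.fst R := by
      rintro ⟨B, v⟩ ⟨hB, x, hxB, hxX, hxq, hxv, hv⟩ ⟨B', v'⟩ ⟨hB', x', hxB', hxX', hxq', hxv', hv'⟩ h
      simp only at h
      subst h
      congr 1
      funext i
      rw [Subsingleton.elim i 0]
      have h2 : v' 0 * aeval x q = aeval x (p k) := hv' x hxB hxX hxq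
      have h3 : v 0 * aeval x q = aeval x (p k) := hxv
      exact mul_right_cancel₀ hxq (h3.trans h2.symm)
    refine Set.MapsTo.countable_of_injOn (t := 𝓑) (fun e he => he.1) hinj hbc
  refine (hRc.image Prod.snd).mono ?_
  rintro v ⟨x, ⟨hxX, hxq, ε, hε, hx⟩, hv⟩
  have hcq : Continuous fun y : τ → ℝ => (aeval y q : ℝ) := by
    have : (fun y : τ → ℝ => (aeval y q : ℝ)) = fun y => eval y (MvPolynomial.map (algebraMap ℚ ℝ) q) := by
      funext y
      rw [eval_map, aeval_def]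
    rw [this]
    exact MvPolynomial.continuous_eval _
  have hnb : {y : τ → ℝ | (∀ i, (y i - x i) ^ 2 < ε) ∧ (aeval y q : ℝ) ≠ 0} ∈ 𝓝 x := by
    refine Filter.inter_mem ?_ (hcq.continuousAt.eventually_ne hxq)
    have h3 : ∀ i, ∀ᶠ y : τ → ℝ in 𝓝 x, (y i - x i) ^ 2 < ε := by
      intro i
      have h4 : Continuous fun y : τ → ℝ => (y i - x i) ^ 2 := by fun_prop
      have h5 := h4.continuousAt (x := x)
      have h6 : (fun y : τ → ℝ => (y i - x i) ^ 2) x < ε := by simpa using hε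
      exact h5.eventually_lt continuousAt_const h6
    exact Filter.eventually_all.2 h3
  obtain ⟨B, hB, hxB, hBs⟩ := hbb.mem_nhds_iff.1 hnb
  refine ⟨(B, v), ⟨hB, x, hxB, hxX, hxq, hv, fun y hyB hyX hyq => ?_⟩, rfl⟩
  have h4 := hx y (hBs hyB).1 hyX k
  have h5 : (v 0 * aeval y q - aeval y (p k)) * aeval x q = 0 := by
    linear_combination (aeval y q : ℝ) * hv - h4
  exact sub_eq_zero.1 ((mul_eq_zero.1 h5).resolve_right hxq)

/-- **isolated values** -/
theorem isolated {S : Set (τ → ℚ)} (hS : SA (closure (rl S))) {Ω : Set (τ → ℝ)}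
    (hΩ : IsOpen Ω) {m : ℕ} (p : Fin m → MvPolynomial τ ℚ) (q : MvPolynomial τ ℚ)
    {D : Set (Fin m → ℚ)}
    (hD : D = {t | ∃ x : τ → ℚ, x ∈ S ∧ (fun s => (x s : ℝ)) ∈ Ω ∧ eval x q ≠ 0 ∧
      ∀ k, t k = eval x (p k) / eval x q}) :
    {t ∈ D | ∃ U ∈ 𝓝 (fun k => (t k : ℝ)), ∀ s ∈ D, (fun k => (s k : ℝ)) ∈ U → s = t}.Finite := by
  classical
  have := Fintype.ofFinite τ
  have hfin := fun k => LC_values hS p q k
  have h1 : (Set.pi Set.univ fun k : Fin m => {t : ℚ | (t : ℝ) ∈ {t : ℝ | ∃ x ∈ LC (closure (rl S)) p q,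
      t * aeval x q = aeval x (p k)}}).Finite := by
    refine Set.Finite.pi fun k => ?_
    exact (hfin k).preimage (Rat.cast_injective.injOn)
  refine h1.subset ?_
  rintro t ⟨htD, U, hU, hUt⟩ k -
  rw [hD] at htD
  obtain ⟨x, hxS, hxΩ, hxq, hxt⟩ := htD
  have hq0 : (aeval (fun s => (x s : ℝ)) q : ℝ) ≠ 0 := by
    rw [Pool.Agent.TH729.SQ.aeval_cast]
    exact_mod_cast hxq
  have hcont : ∀ r : MvPolynomial τ ℚ, Continuous fun y : τ → ℝ => (aeval y r : ℝ) := by
    intro r
    have : (fun y : τ → ℝ => (aeval y r : ℝ)) = fun y => eval y (MvPolynomial.map (algebraMap ℚ ℝ) r) := by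
      funext y
      rw [eval_map, aeval_def]
    rw [this]
    exact MvPolynomial.continuous_eval _
  refine ⟨fun s => (x s : ℝ), ⟨subset_closure ⟨x, hxS, rfl⟩, hq0, ?_⟩, ?_⟩
  · -- locally constant
    set g : (τ → ℝ) → Fin m → ℝ := fun y k => aeval y (p k) / aeval y q with hg
    have hgc : ContinuousAt g (fun s => (x s : ℝ)) := by
      refine continuousAt_pi.2 fun k => ?_
      exact ((hcont (p k)).continuousAt).div ((hcont q).continuousAt) hq0
    have hgx : g (fun s => (x s : ℝ)) = fun k => (t k : ℝ) := by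
      funext k
      rw [hg]
      simp only
      rw [Pool.Agent.TH729.SQ.aeval_cast, Pool.Agent.TH729.SQ.aeval_cast, hxt k]
      push_cast
      rfl
    have hnb : ∀ᶠ y in 𝓝 (fun s => (x s : ℝ)), y ∈ Ω ∧ (aeval y q : ℝ) ≠ 0 ∧ g y ∈ U := by
      have h2 : U ∈ 𝓝 (g (fun s => (x s : ℝ))) := by rw [hgx]; exact hU
      have h3 : ∀ᶠ y in 𝓝 (fun s => (x s : ℝ)), y ∈ Ω := hΩ.mem_nhds hxΩ
      exact h3.and (((hcont q).continuousAt.eventually_ne hq0).and (hgc h2))
    obtain ⟨r, hr, hrb⟩ := Metric.eventually_nhds_iff_ball.1 hnb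
    refine ⟨r ^ 2, by positivity, fun y hy hyX k => ?_⟩
    have hyb : y ∈ Metric.ball (fun s => (x s : ℝ)) r := by
      rw [Metric.mem_ball, dist_pi_lt_iff hr]
      intro i
      rw [Real.dist_eq]
      exact abs_lt_of_sq_lt_sq (hy i) hr.le
    -- the identity on the closure
    have hcl : y ∈ closure (rl S ∩ Metric.ball (fun s => (x s : ℝ)) r) := by
      rw [Set.inter_comm]
      exact Metric.isOpen_ball.inter_closure ⟨hyb, hyX⟩
    have hzero : closure (rl S ∩ Metric.ball (fun s => (x s : ℝ)) r) ⊆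
        {y | (aeval y (p k) : ℝ) * aeval (fun s => (x s : ℝ)) q =
          aeval (fun s => (x s : ℝ)) (p k) * aeval y q} := by
      refine closure_minimal ?_ (isClosed_eq ((hcont (p k)).mul continuous_const)
        (continuous_const.mul (hcont q)))
      rintro _ ⟨⟨z, hz, rfl⟩, hzb⟩
      obtain ⟨hzΩ, hzq, hzU⟩ := hrb _ hzb
      have hzq' : eval z q ≠ 0 := by
        intro h0
        apply hzq
        rw [Pool.Agent.TH729.SQ.aeval_cast, h0, Rat.cast_zero]
      have h5 : (fun k => eval z (p k) / eval z q) = t := by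
        apply hUt
        · rw [hD]
          exact ⟨z, hz, hzΩ, hzq', fun k => rfl⟩
        · convert hzU using 1
          funext k
          rw [hg]
          simp only
          rw [Pool.Agent.TH729.SQ.aeval_cast, Pool.Agent.TH729.SQ.aeval_cast]
          push_cast
          rfl
      have h6 : eval z (p k) / eval z q = eval x (p k) / eval x q := by
        rw [← hxt k]
        exact congrFun h5 k
      rw [div_eq_div_iff hzq' hxq] at h6
      show (aeval (fun s => (z s : ℝ)) (p k) : ℝ) * _ = _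
      rw [Pool.Agent.TH729.SQ.aeval_cast, Pool.Agent.TH729.SQ.aeval_cast, Pool.Agent.TH729.SQ.aeval_cast, Pool.Agent.TH729.SQ.aeval_cast]
      exact_mod_cast h6
    exact hzero hcl
  · rw [Pool.Agent.TH729.SQ.aeval_cast, Pool.Agent.TH729.SQ.aeval_cast, hxt k]
    push_cast
    have : ((eval x q : ℚ) : ℝ) ≠ 0 := by exact_mod_cast hxq
    field_simp

/-- products -/
lemma prod_SA {b : ℕ} {n : Type} [Finite n] {S : Fin b → Set (n → ℚ)}
    (hS : ∀ j, SA (closure (rl (S j)))) :
    SA (closure (rl {x : Fin b × n → ℚ | ∀ j, (fun r => x (j, r)) ∈ S j})) := by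
  have h1 := values_main (κ := Empty) S hS (m := Fin b × n) (fun k => X (Sum.inl k)) 1
  have h2 : rl {x : Fin b × n → ℚ | ∀ j, (fun r => x (j, r)) ∈ S j} =
      {y : Fin b × n → ℝ | ∃ (x : Fin b → n → ℚ) (u : Empty → ℚ), (∀ j, x j ∈ S j) ∧
      MvPolynomial.eval (Sum.elim (fun r : Fin b × n => x r.1 r.2) u)
        (1 : MvPolynomial ((Fin b × n) ⊕ Empty) ℚ) ≠ 0 ∧
      ∀ k, y k = ((MvPolynomial.eval (Sum.elim (fun r : Fin b × n => x r.1 r.2) u) (X (Sum.inl k)) /
        MvPolynomial.eval (Sum.elim (fun r : Fin b × n => x r.1 r.2) u)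
          (1 : MvPolynomial ((Fin b × n) ⊕ Empty) ℚ) : ℚ) : ℝ)} := by
    ext y
    constructor
    · rintro ⟨x, hx, rfl⟩
      exact ⟨fun j r => x (j, r), fun e => e.elim, hx, by simp, fun k => by simp⟩
    · rintro ⟨x, u, hx, -, hy⟩
      refine ⟨fun k => x k.1 k.2, hx, ?_⟩
      funext k
      rw [hy k]
      simp
  rw [h2]
  exact h1

end Pool.Agent.Y718.IsoR
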