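import Pool.Agent.Y718.IsoR
import Pool.Agent.Results.MP_28f2cb_lc.CubicEquations

/-!
# Sets of integers given by sets of rational points with semialgebraic closure
-/

set_option autoImplicit false
set_option linter.unusedVariables false

open MvPolynomial Pool.Agent.TH729.SQ Pool.Agent.H581R2 Topology Filter
open Pool.Agent.Results.MP_28f2cb_lc

namespace Pool.Agent.Y718.IsoR

theorem iso_union {a b N m : ℕ} {S : Fin a → Fin b → Set (Fin N → ℚ)}
    (hS : ∀ i j, SA (closure (rl (S i j)))) {Ω : Fin a → Set (Fin b × Fin N → ℝ)}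
    (hΩ : ∀ i, IsOpen (Ω i)) (p : Fin a → Fin m → MvPolynomial (Fin b × Fin N) ℚ)
    (q : Fin a → MvPolynomial (Fin b × Fin N) ℚ) {D : Set (Fin m → ℚ)}
    (hD : D = ⋃ i, CubicEquations.values (algebraMap ℚ ℝ) (S i) (Ω i) (p i) (q i)) :
    {t ∈ D | ∃ U ∈ 𝓝 (fun k => (t k : ℝ)), ∀ s ∈ D, (fun k => (s k : ℝ)) ∈ U → s = t}.Finite := by
  subst hD
  refine Pool.Agent.TH729.CV.isolated_union (fun (t : Fin m → ℚ) k => (t k : ℝ)) _ fun i => ?_
  exact isolated (prod_SA (hS i)) (hΩ i) (p i) (q i) rfl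

theorem ints {a b N : ℕ} {S : Fin a → Fin b → Set (Fin N → ℚ)}
    (hS : ∀ i j, SA (closure (rl (S i j)))) {Ω : Fin a → Set (Fin b × Fin N → ℝ)}
    (hΩ : ∀ i, IsOpen (Ω i)) (p q : Fin a → MvPolynomial (Fin b × Fin N) ℚ) {D : Set ℚ}
    (hD : D = {t | ∃ i, ∃ x : Fin b × Fin N → ℚ, (∀ j, (fun r => x (j, r)) ∈ S i j) ∧
          (fun s => ((x s : ℚ) : ℝ)) ∈ Ω i ∧ eval x (q i) ≠ 0 ∧
          t = eval x (p i) / eval x (q i)})
    (hDZ : D ⊆ Set.range ((↑) : ℤ → ℚ)) : D.Finite := by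
  have h3 := iso_union hS hΩ (m := 1) (fun i _ => p i) q rfl
  have hval : ∀ t : Fin 1 → ℚ, t ∈ (⋃ i, CubicEquations.values (algebraMap ℚ ℝ) (S i) (Ω i)
      (fun _ : Fin 1 => p i) (q i)) ↔ t 0 ∈ D := by
    intro t
    rw [hD, Set.mem_iUnion]
    constructor
    · rintro ⟨i, x, hx1, hx2, hx3, hx4⟩
      exact ⟨i, x, hx1, hx2, hx3, hx4 0⟩
    · rintro ⟨i, x, hx1, hx2, hx3, hx4⟩
      refine ⟨i, x, hx1, hx2, hx3, fun k => ?_⟩
      rw [Subsingleton.elim k 0]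
      exact hx4
  refine (h3.image fun t : Fin 1 → ℚ => t 0).subset ?_
  intro t ht
  refine ⟨fun _ => t, ⟨(hval _).2 ht, {z | z 0 ∈ Metric.ball ((t : ℚ) : ℝ) 1}, ?_, ?_⟩, rfl⟩
  · exact (continuous_apply (0 : Fin 1)).continuousAt.preimage_mem_nhds
      (Metric.ball_mem_nhds _ one_pos)
  · intro s hs hsU
    have hs' := (hval s).1 hs
    obtain ⟨u, hu⟩ := hDZ ht
    obtain ⟨v, hv⟩ := hDZ hs'
    have h5 : ((s 0 : ℚ) : ℝ) ∈ Metric.ball ((t : ℚ) : ℝ) 1 := hsU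
    rw [← hv, ← hu] at h5
    simp only [Metric.mem_ball, Rat.cast_intCast, Real.dist_eq] at h5
    have h6 : |v - u| < 1 := by exact_mod_cast h5
    have h7 : v - u = 0 := Int.abs_lt_one_iff.1 h6
    have h8 : v = u := by omega
    funext k
    rw [Subsingleton.elim k 0, ← hv, ← hu, h8]

theorem one {n : ℕ} {S : Set (Fin n → ℚ)} (hS : SA (closure (rl S)))
    (p q : MvPolynomial (Fin n) ℚ) :
    {t : ℚ | ∃ y ∈ S, eval y q ≠ 0 ∧ t = eval y p / eval y q} ≠ Set.range ((↑) : ℤ → ℚ) := by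
  intro heq
  have hr : ∀ (P : MvPolynomial (Fin n) ℚ) (x : Fin 1 × Fin n → ℚ),
      eval x (rename (fun i : Fin n => ((0 : Fin 1), i)) P) = eval (fun i => x (0, i)) P := by
    intro P x
    rw [eval_rename]
    rfl
  refine Set.infinite_range_of_injective (f := ((↑) : ℤ → ℚ)) Int.cast_injective ?_
  refine ints (a := 1) (b := 1) (S := fun _ _ => S) (fun _ _ => hS) (Ω := fun _ => Set.univ)
    (fun _ => isOpen_univ) (fun _ => rename (fun i : Fin n => ((0 : Fin 1), i)) p)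
    (fun _ => rename (fun i : Fin n => ((0 : Fin 1), i)) q) ?_ subset_rfl
  rw [← heq]
  ext t
  constructor
  · rintro ⟨y, hy1, hy2, hy3⟩
    exact ⟨0, fun s => y s.2, fun _ => hy1, Set.mem_univ _, by rw [hr]; exact hy2, by
      rw [hr, hr]; exact hy3⟩
  · rintro ⟨-, x, hx1, -, hx3, hx4⟩
    rw [hr] at hx3
    rw [hr, hr] at hx4
    exact ⟨fun r => x (0, r), hx1 0, hx3, hx4⟩

/-- the blocks of the file CubicEquations at the real place -/
lemma cubic_SA {N : ℕ} {S : Set (Fin N → ℚ)} (hS : CubicEquations.Block S) :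
    SA (closure (rl S)) := by
  rw [Pool.Agent.TH729.BQ.rl_eq]
  rcases hS with ⟨f, g, hfg, rfl⟩ | ⟨n, e, S₀, he, ⟨hn, A, B, C, hA, hB, hC, hind, hdet, hS₀⟩, rfl⟩
  · exact Pool.Agent.TH729.CC.block_SA ℚ (Rat.castHom ℝ) N f g hfg
  · exact Pool.Agent.TH729.BQ.cyl_SA (Rat.castHom ℝ)
      (Pool.Agent.TH729.BQ.twoTwo_SA (Rat.castHom ℝ) hn hA hB hC hind hdet hS₀) he

end Pool.Agent.Y718.IsoR
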