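import Pool.Agent.Y718.TorFree

/-!
# Quartics with infinitely many square values
-/

set_option autoImplicit false
set_option linter.unusedSectionVars false

open WeierstrassCurve Pool.Agent.TH954

namespace Pool.Agent.Y718

/-- infinitely many rational points on a short Weierstrass cubic -/
lemma inf_short {p : ℕ} [Fact p.Prime] (a b X Y : ℚ) (ha : ‖(a : ℚ_[p])‖ ≤ 1)
    (hb : ‖(b : ℚ_[p])‖ ≤ 1) (hXY : Y ^ 2 = X ^ 3 + a * X + b) (hX : 1 < ‖(X : ℚ_[p])‖) :
    {z : ℚ × ℚ | z.2 ^ 2 = z.1 ^ 3 + a * z.1 + b}.Infinite := by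
  classical
  set W' : WeierstrassCurve ℚ := ⟨0, 0, 0, a, b⟩ with hW'
  have hXYp : (Y : ℚ_[p]) ^ 2 = (X : ℚ_[p]) ^ 3 + a * X + b := by exact_mod_cast hXY
  have hY0 : Y ≠ 0 := by
    rintro rfl
    have h1 : ‖(X : ℚ_[p]) ^ 3‖ = ‖(a : ℚ_[p]) * X + b‖ := by
      have : (X : ℚ_[p]) ^ 3 = -((a : ℚ_[p]) * X + b) := by
        push_cast at hXYp
        linear_combination -hXYp
      rw [this, norm_neg]
    have h3 : ‖(X : ℚ_[p])‖ < ‖(X : ℚ_[p])‖ ^ 3 := by
      nlinarith [mul_pos (by linarith : (0:ℝ) < ‖(X : ℚ_[p])‖) (by nlinarith : (0:ℝ) < ‖(X : ℚ_[p])‖ ^ 2 - 1)]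
    have h2 : ‖(a : ℚ_[p]) * X + b‖ ≤ ‖(X : ℚ_[p])‖ :=
      uadd (umul ha le_rfl) (hb.trans hX.le)
    rw [norm_pow] at h1
    linarith
  have hn : (W'⁄ℚ).toAffine.Nonsingular X Y := by
    rw [Affine.nonsingular_iff, Affine.equation_iff]
    refine ⟨?_, Or.inr ?_⟩
    · simp [hW', WeierstrassCurve.baseChange, WeierstrassCurve.map]
      linear_combination hXY
    · simp [hW', WeierstrassCurve.baseChange, WeierstrassCurve.map]
      intro h
      apply hY0
      linarith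
  set T : (W'⁄ℚ).toAffine.Point := Affine.Point.some X Y hn with hT
  have hSI : SI (W'⁄ℚ_[p]) := by
    refine ⟨⟨?_, ?_, ?_⟩, ?_, ?_⟩
    · simp [hW', WeierstrassCurve.baseChange, WeierstrassCurve.map]
    · simp [hW', WeierstrassCurve.baseChange, WeierstrassCurve.map]
    · simp [hW', WeierstrassCurve.baseChange, WeierstrassCurve.map]
    · simpa [hW', WeierstrassCurve.baseChange, WeierstrassCurve.map] using ha
    · simpa [hW', WeierstrassCurve.baseChange, WeierstrassCurve.map] using hb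
  have hinj : Function.Injective (fun n : ℕ => n • T) := by
    have hno : ∀ n : ℕ, n ≠ 0 → n • T ≠ 0 := by
      intro n hn0 h0
      have h1 := congrArg (Affine.Point.baseChange (W' := W') ℚ ℚ_[p]) h0
      rw [map_nsmul, map_zero, hT, Affine.Point.map_some] at h1
      refine no_torsion hSI _ ?_ hn0 h1
      have : (Algebra.ofId ℚ ℚ_[p]) X = (X : ℚ_[p]) := by
        simp
      rw [this]
      exact hX
    intro m n hmn
    simp only at hmn
    rcases lt_trichotomy m n with h | h | h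
    · exfalso
      apply hno (n - m) (by omega)
      have : n • T = (n - m) • T + m • T := by rw [← add_smul]; congr 1; omega
      rw [this] at hmn
      exact right_eq_add.mp hmn
    · exact h
    · exfalso
      apply hno (m - n) (by omega)
      have : m • T = (m - n) • T + n • T := by rw [← add_smul]; congr 1; omega
      rw [this] at hmn
      exact add_eq_right.mp hmn
  have hinf : (Set.univ : Set (W'⁄ℚ).toAffine.Point).Infinite := by
    have := Set.infinite_range_of_injective hinj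
    exact this.mono (Set.subset_univ _)
  intro hfin
  apply hinf
  let g : (W'⁄ℚ).toAffine.Point → Option (ℚ × ℚ) := fun P => match P with
    | .zero => none
    | .some x y _ => some (x, y)
  have hg : Function.Injective g := by
    intro P Q hPQ
    match P, Q with
    | .zero, .zero => rfl
    | .zero, .some x y h => simp [g] at hPQ
    | .some x y h, .zero => simp [g] at hPQ
    | .some x y h, .some x' y' h' =>
      simp only [g, Option.some.injEq, Prod.mk.injEq] at hPQ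
      obtain ⟨rfl, rfl⟩ := hPQ
      rfl
  refine Set.Finite.of_finite_image (f := g) ?_ hg.injOn
  refine ((hfin.image some).insert none).subset ?_
  rintro _ ⟨P, -, rfl⟩
  match P with
  | .zero => exact Set.mem_insert _ _
  | .some x y h =>
    refine Set.mem_insert_of_mem _ ⟨(x, y), ?_, rfl⟩
    have h1 := h.1
    rw [Affine.equation_iff] at h1
    simp [hW', WeierstrassCurve.baseChange, WeierstrassCurve.map] at h1
    simp only [Set.mem_ofPred_eq]
    linear_combination h1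

/-- the quartic polynomial function -/
def qv (f0 f1 f2 f3 f4 t : ℚ) : ℚ := f0 + f1 * t + f2 * t ^ 2 + f3 * t ^ 3 + f4 * t ^ 4

/-- infinitely many points on the resolvent cubic give infinitely many square values -/
lemma inf_sq (f1 f2 f3 f4 w0 : ℚ) (hw0 : w0 ≠ 0)
    (h : {z : ℚ × ℚ | z.2 ^ 2 = z.1 ^ 3 + f2 * z.1 ^ 2 + (f1 * f3 - 4 * w0 ^ 2 * f4) * z.1 +
      (w0 ^ 2 * f3 ^ 2 + f1 ^ 2 * f4 - 4 * w0 ^ 2 * f2 * f4)}.Infinite) :
    {t : ℚ | ∃ w : ℚ, w ^ 2 = qv (w0 ^ 2) f1 f2 f3 f4 t}.Infinite := by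
  classical
  set A := {z : ℚ × ℚ | z.2 ^ 2 = z.1 ^ 3 + f2 * z.1 ^ 2 + (f1 * f3 - 4 * w0 ^ 2 * f4) * z.1 +
      (w0 ^ 2 * f3 ^ 2 + f1 ^ 2 * f4 - 4 * w0 ^ 2 * f2 * f4)} with hA
  -- finitely many points above each abscissa
  have hfib : ∀ x : ℚ, (A ∩ {z | z.1 = x}).Finite := by
    intro x
    by_contra hinf
    obtain ⟨z0, hz0⟩ := (Set.not_finite.mp hinf : (A ∩ {z | z.1 = x}).Infinite).nonempty
    refine hinf ((Set.Finite.insert (z0.1, z0.2) (Set.finite_singleton (z0.1, -z0.2))).subset ?_)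
    rintro ⟨x1, y1⟩ ⟨h1, h2⟩
    obtain ⟨h3, h4⟩ := hz0
    simp only [Set.mem_ofPred_eq, hA] at h1 h2 h3 h4
    subst h2
    rw [h4] at h3
    have : y1 ^ 2 = z0.2 ^ 2 := by rw [h1, h3]
    rcases sq_eq_sq_iff_eq_or_eq_neg.mp this with h5 | h5
    · left; rw [h5, h4]
    · right; rw [h5, h4]; rfl
  -- remove the points with x² = 4 f0 f4
  set B := {z ∈ A | z.1 ^ 2 - 4 * w0 ^ 2 * f4 ≠ 0} with hB
  have hBinf : B.Infinite := by
    intro hBf
    apply h
    have hroot : {x : ℚ | x ^ 2 - 4 * w0 ^ 2 * f4 = 0}.Finite := by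
      by_contra hinf
      obtain ⟨x0, hx0⟩ := (Set.not_finite.mp hinf : {x : ℚ | x ^ 2 - 4 * w0 ^ 2 * f4 = 0}.Infinite).nonempty
      refine hinf ((Set.Finite.insert x0 (Set.finite_singleton (-x0))).subset ?_)
      intro x hx
      simp only [Set.mem_ofPred_eq] at hx hx0
      have : x ^ 2 = x0 ^ 2 := by linear_combination hx - hx0
      rcases sq_eq_sq_iff_eq_or_eq_neg.mp this with h5 | h5
      · left; exact h5
      · right; exact h5
    refine (hBf.union (Set.Finite.biUnion hroot (fun x _ => hfib x))).subset ?_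
    intro z hz
    by_cases h0 : z.1 ^ 2 - 4 * w0 ^ 2 * f4 = 0
    · right
      simp only [Set.mem_iUnion]
      exact ⟨z.1, h0, hz, rfl⟩
    · left
      exact ⟨hz, h0⟩
  intro hfin
  apply hBinf
  let τ : ℚ × ℚ → ℚ := fun z => (2 * w0 * z.2 + f1 * z.1 + 2 * w0 ^ 2 * f3) /
    (z.1 ^ 2 - 4 * w0 ^ 2 * f4)
  have hquad : ∀ z ∈ B, (τ z) ^ 2 * (z.1 ^ 2 - 4 * w0 ^ 2 * f4) -
      (τ z) * (2 * f1 * z.1 + 4 * w0 ^ 2 * f3) + (f1 ^ 2 - 4 * w0 ^ 2 * f2 - 4 * w0 ^ 2 * z.1) = 0 := by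
    rintro ⟨x, y⟩ ⟨hz, hz0⟩
    simp only [Set.mem_ofPred_eq, hA] at hz hz0
    have hτ : τ (x, y) * (x ^ 2 - 4 * w0 ^ 2 * f4) = 2 * w0 * y + f1 * x + 2 * w0 ^ 2 * f3 := by
      simp only [τ]
      rw [div_mul_cancel₀ _ hz0]
    simp only
    generalize τ (x, y) = t at hτ
    apply mul_left_cancel₀ hz0
    rw [mul_zero]
    linear_combination (t * (x ^ 2 - 4 * w0 ^ 2 * f4) - 2 * (f1 * x + 2 * w0 ^ 2 * f3) + (2 * w0 * y + f1 * x + 2 * w0 ^ 2 * f3)) * hτ + 4 * w0 ^ 2 * hz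
  refine Set.Finite.of_finite_fibers τ (hfin.subset ?_) ?_
  · rintro _ ⟨z, hz, rfl⟩
    have hq := hquad z hz
    simp only [Set.mem_ofPred_eq]
    refine ⟨-w0 + τ z * (τ z * z.1 - f1) / (2 * w0), ?_⟩
    generalize τ z = t at hq
    unfold qv
    field_simp
    linear_combination (t ^ 2) * hq
  · intro t ht
    -- the abscissae satisfy a nonzero quadratic equation
    have hxs : {x : ℚ | t ^ 2 * (x ^ 2 - 4 * w0 ^ 2 * f4) -
      t * (2 * f1 * x + 4 * w0 ^ 2 * f3) + (f1 ^ 2 - 4 * w0 ^ 2 * f2 - 4 * w0 ^ 2 * x) = 0}.Finite := by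
      by_cases ht0 : t = 0
      · subst ht0
        refine (Set.finite_singleton ((f1 ^ 2 - 4 * w0 ^ 2 * f2) / (4 * w0 ^ 2))).subset ?_
        intro x hx
        simp only [Set.mem_ofPred_eq] at hx
        simp only [Set.mem_singleton_iff]
        field_simp
        linear_combination -hx
      · by_contra hinf
        obtain ⟨x0, hx0⟩ := (Set.not_finite.mp hinf : {x : ℚ | t ^ 2 * (x ^ 2 - 4 * w0 ^ 2 * f4) -
          t * (2 * f1 * x + 4 * w0 ^ 2 * f3) + (f1 ^ 2 - 4 * w0 ^ 2 * f2 - 4 * w0 ^ 2 * x) = 0}.Infinite).nonempty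
        refine hinf ((Set.Finite.insert x0 (Set.finite_singleton
          ((2 * f1 * t + 4 * w0 ^ 2) / t ^ 2 - x0))).subset ?_)
        intro x hx
        simp only [Set.mem_ofPred_eq] at hx hx0
        have : (x - x0) * (t ^ 2 * (x + x0) - (2 * f1 * t + 4 * w0 ^ 2)) = 0 := by
          linear_combination hx - hx0
        rcases mul_eq_zero.mp this with h5 | h5
        · left; linarith
        · right
          simp only [Set.mem_singleton_iff]
          field_simp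
          linear_combination h5
    refine (Set.Finite.biUnion hxs (fun x _ => hfib x)).subset ?_
    rintro z ⟨hz, hzt⟩
    simp only [Set.mem_preimage, Set.mem_singleton_iff] at hzt
    simp only [Set.mem_iUnion]
    refine ⟨z.1, ?_, hz.1, rfl⟩
    simp only [Set.mem_ofPred_eq]
    rw [← hzt]
    exact hquad z hz

/-- **Infinitely many square values.** A quartic with `p`-integral coefficients, unit linear
coefficient and constant coefficient a square divisible by `p`, takes infinitely many square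
values. -/
theorem inf_quartic {p : ℕ} [Fact p.Prime] (h5 : 5 ≤ p) (f1 f2 f3 f4 w0 : ℚ)
    (h1 : ‖(f1 : ℚ_[p])‖ = 1) (h2 : ‖(f2 : ℚ_[p])‖ ≤ 1) (h3 : ‖(f3 : ℚ_[p])‖ ≤ 1)
    (h4 : ‖(f4 : ℚ_[p])‖ ≤ 1) (hw : ‖(w0 : ℚ_[p])‖ < 1) (hw0 : w0 ≠ 0) :
    {t : ℚ | ∃ w : ℚ, w ^ 2 = qv (w0 ^ 2) f1 f2 f3 f4 t}.Infinite := by
  have hp : p.Prime := Fact.out
  have hn : ∀ n : ℕ, ¬ p ∣ n → ‖(n : ℚ_[p])‖ = 1 := by
    intro n hnd
    have h7 : ¬ ‖((n : ℤ) : ℚ_[p])‖ < 1 := by
      rw [Padic.norm_intCast_lt_one_iff]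
      exact_mod_cast hnd
    have h8 := Padic.norm_int_le_one (p := p) (n : ℤ)
    have : ((n : ℤ) : ℚ_[p]) = (n : ℚ_[p]) := by push_cast; rfl
    rw [this] at h7 h8
    exact le_antisymm h8 (not_lt.mp h7)
  have n2 : ‖(2 : ℚ_[p])‖ = 1 := by
    have := hn 2 (fun h => by have := Nat.le_of_dvd (by norm_num) h; omega)
    exact_mod_cast this
  have n3 : ‖(3 : ℚ_[p])‖ = 1 := by
    have := hn 3 (fun h => by have := Nat.le_of_dvd (by norm_num) h; omega)
    exact_mod_cast this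
  set c : ℚ := f1 * f3 - 4 * w0 ^ 2 * f4 with hc
  set d : ℚ := w0 ^ 2 * f3 ^ 2 + f1 ^ 2 * f4 - 4 * w0 ^ 2 * f2 * f4 with hd
  have hwl := hw.le
  have hcn : ‖(c : ℚ_[p])‖ ≤ 1 := by
    rw [hc]; push_cast
    refine usub (umul h1.le h3) (umul (umul u4 ?_) h4)
    rw [norm_pow]; exact pow_le_one₀ (norm_nonneg _) hwl
  have hdn : ‖(d : ℚ_[p])‖ ≤ 1 := by
    rw [hd]; push_cast
    have hw2 : ‖(w0 : ℚ_[p]) ^ 2‖ ≤ 1 := by
      rw [norm_pow]; exact pow_le_one₀ (norm_nonneg _) hwl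
    refine usub (uadd (umul hw2 ?_) (umul ?_ h4)) (umul (umul (umul u4 hw2) h2) h4)
    · rw [norm_pow]; exact pow_le_one₀ (norm_nonneg _) h3
    · rw [norm_pow]; exact pow_le_one₀ (norm_nonneg _) h1.le
  apply inf_sq f1 f2 f3 f4 w0 hw0
  -- the shifted cubic
  have hthird : ‖((3 : ℚ_[p]))⁻¹‖ = 1 := by rw [norm_inv, n3, inv_one]
  have key := inf_short (p := p) (c - f2 ^ 2 / 3) (2 * f2 ^ 3 / 27 - c * f2 / 3 + d)
    (f1 ^ 2 / (4 * w0 ^ 2) - 2 / 3 * f2)
    (f1 * (f1 ^ 2 / (4 * w0 ^ 2) - f2) / (2 * w0) + w0 * f3) ?_ ?_ ?_ ?_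
  · intro hfin
    apply key
    refine Set.Finite.of_finite_image (f := fun z : ℚ × ℚ => (z.1 - f2 / 3, z.2)) (hfin.subset ?_) ?_
    · rintro _ ⟨⟨x, y⟩, hz, rfl⟩
      simp only [Set.mem_ofPred_eq] at hz ⊢
      rw [hz]
      ring
    · rintro ⟨x, y⟩ - ⟨x', y'⟩ - h
      simp only [Prod.mk.injEq] at h ⊢
      exact ⟨by linarith [h.1], h.2⟩
  · push_cast
    refine usub hcn ?_
    rw [div_eq_mul_inv, mul_comm]
    refine umul hthird.le ?_
    rw [norm_pow]; exact pow_le_one₀ (norm_nonneg _) h2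
  · push_cast
    refine uadd (usub ?_ ?_) hdn
    · have : (2 : ℚ_[p]) * (f2 : ℚ_[p]) ^ 3 / 27 = (2 : ℚ_[p]) * (3⁻¹ ^ 3 * (f2 : ℚ_[p]) ^ 3) := by
        field_simp; norm_num
      rw [this]
      refine umul n2.le (umul ?_ ?_)
      · rw [norm_pow, hthird, one_pow]
      · rw [norm_pow]; exact pow_le_one₀ (norm_nonneg _) h2
    · have : (c : ℚ_[p]) * f2 / 3 = 3⁻¹ * (c * f2) := by field_simp
      rw [this]
      exact umul hthird.le (umul hcn h2)
  · rw [hc, hd]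
    field_simp
    ring
  · push_cast
    have e1 : ‖(f1 : ℚ_[p]) ^ 2 / (4 * w0 ^ 2)‖ = (‖(w0 : ℚ_[p])‖ ^ 2)⁻¹ := by
      have n4 : ‖(4 : ℚ_[p])‖ = 1 := by
        have : (4 : ℚ_[p]) = 2 * 2 := by norm_num
        rw [this, norm_mul, n2, one_mul]
      rw [norm_div, norm_pow, norm_mul, norm_pow, h1, n4, one_pow, one_mul, one_div]
    have hwp : 0 < ‖(w0 : ℚ_[p])‖ := norm_pos_iff.mpr (by exact_mod_cast hw0)
    have e2 : 1 < (‖(w0 : ℚ_[p])‖ ^ 2)⁻¹ := by
      apply (one_lt_inv₀ (by positivity)).mpr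
      exact pow_lt_one₀ (norm_nonneg _) hw (by norm_num)
    rw [usub_eq, e1]
    · exact e2
    · rw [e1]
      refine lt_of_le_of_lt ?_ e2
      have : (2 : ℚ_[p]) / 3 * f2 = 2 * (3⁻¹ * f2) := by ring
      rw [this]
      exact umul n2.le (umul hthird.le h2)

end Pool.Agent.Y718
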