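import Pool.Agent.Y718.Den
import Pool.Agent.Y718.Quartic

/-!
# The key lemma: moving a point of a conic bundle into a fibre of positive rank
-/

set_option autoImplicit false
set_option linter.unusedSectionVars false
set_option linter.unusedSimpArgs false

open Set Filter Topology Pool.Agent.TH954

namespace Pool.Agent.Y718

/-- integers prime to `p` are units -/
lemma norm_nat_one {p : ℕ} [hp : Fact p.Prime] {n : ℕ} (hnd : ¬ p ∣ n) : ‖(n : ℚ_[p])‖ = 1 := by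
  have h7 : ¬ ‖((n : ℤ) : ℚ_[p])‖ < 1 := by
    rw [Padic.norm_intCast_lt_one_iff]
    exact_mod_cast hnd
  have h8 := Padic.norm_int_le_one (p := p) (n : ℤ)
  have : ((n : ℤ) : ℚ_[p]) = (n : ℚ_[p]) := by push_cast; rfl
  rw [this] at h7 h8
  exact le_antisymm h8 (not_lt.mp h7)

lemma norm_int_one {p : ℕ} [hp : Fact p.Prime] {n : ℤ} (hnd : ¬ (p : ℤ) ∣ n) :
    ‖(n : ℚ_[p])‖ = 1 := by
  have h7 : ¬ ‖(n : ℚ_[p])‖ < 1 := by
    rwa [Padic.norm_intCast_lt_one_iff]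
  exact le_antisymm (Padic.norm_int_le_one n) (not_lt.mp h7)

/-- all but finitely many primes are harmless for a rational number -/
lemma good_one (x : ℚ) : ∃ M : ℕ, ∀ (p : ℕ) [Fact p.Prime], M < p →
    ‖(x : ℚ_[p])‖ ≤ 1 ∧ (x ≠ 0 → ‖(x : ℚ_[p])‖ = 1) := by
  refine ⟨max x.den x.num.natAbs, fun p hp hM => ?_⟩
  have h1 : x.den < p := (le_max_left _ _).trans_lt hM
  have h2 : x.num.natAbs < p := (le_max_right _ _).trans_lt hM
  have hd : ‖(x.den : ℚ_[p])‖ = 1 := by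
    apply norm_nat_one
    intro h
    have := Nat.le_of_dvd x.den_pos h
    omega
  have hx : (x : ℚ_[p]) = (x.num : ℚ_[p]) / (x.den : ℚ_[p]) := Rat.cast_def x
  have hn : ‖(x : ℚ_[p])‖ = ‖(x.num : ℚ_[p])‖ := by rw [hx, norm_div, hd, div_one]
  refine ⟨?_, ?_⟩
  · rw [hn]; exact Padic.norm_int_le_one _
  · intro hx0
    rw [hn]
    apply norm_int_one
    intro h
    have h3 : x.num ≠ 0 := Rat.num_ne_zero.mpr hx0
    have h4 := Int.natAbs_dvd_natAbs.mpr h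
    rw [Int.natAbs_natCast] at h4
    have := Nat.le_of_dvd (Int.natAbs_pos.mpr h3) h4
    omega

lemma good_fin (S : Finset ℚ) : ∃ M : ℕ, ∀ (p : ℕ) [Fact p.Prime], M < p → ∀ x ∈ S,
    ‖(x : ℚ_[p])‖ ≤ 1 ∧ (x ≠ 0 → ‖(x : ℚ_[p])‖ = 1) := by
  classical
  induction S using Finset.induction_on with
  | empty => exact ⟨0, fun p _ _ x hx => by simp at hx⟩
  | insert a S ha ih =>
    obtain ⟨M1, h1⟩ := ih
    obtain ⟨M2, h2⟩ := good_one a
    refine ⟨max M1 M2, fun p _ hM x hx => ?_⟩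
    rw [Finset.mem_insert] at hx
    rcases hx with rfl | hx
    · exact h2 p ((le_max_right _ _).trans_lt hM)
    · exact h1 p ((le_max_left _ _).trans_lt hM) x hx

/-- a nonzero rational is, up to a small error, a square at arbitrarily large primes -/
lemma exists_prime_sq {D : ℚ} (hD : D ≠ 0) (M0 : ℕ) : ∃ (p : ℕ) (_ : Fact p.Prime), M0 < p ∧ 5 ≤ p ∧
    ∃ θ : ℚ, ‖(θ : ℚ_[p])‖ = 1 ∧ ‖((θ ^ 2 - D : ℚ) : ℚ_[p])‖ < 1 := by
  set M := max (max M0 5) D.den with hM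
  set x : ℕ := M.factorial with hx
  set n : ℤ := D.num * D.den with hn
  have hn0 : n ≠ 0 := mul_ne_zero (Rat.num_ne_zero.mpr hD) (by exact_mod_cast D.den_ne_zero)
  have hM5 : 5 ≤ M := (le_max_right _ _).trans (le_max_left _ _)
  have hx5 : 5 ≤ x := hM5.trans (Nat.self_le_factorial M)
  set v : ℤ := n * x ^ 2 - 1 with hv
  have hv1 : v.natAbs ≠ 1 := by
    intro h
    have hx25 : (25 : ℤ) ≤ (x : ℤ) ^ 2 := by
      have : (5 : ℤ) ≤ x := by exact_mod_cast hx5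
      nlinarith
    rcases Int.natAbs_eq_iff.mp h with h1 | h1
    · have h2 : n * (x : ℤ) ^ 2 = 2 := by rw [hv] at h1; push_cast at h1; linarith
      rcases lt_or_gt_of_ne hn0 with h3 | h3
      · nlinarith
      · nlinarith
    · have h2 : n * (x : ℤ) ^ 2 = 0 := by rw [hv] at h1; push_cast at h1; linarith
      rcases mul_eq_zero.mp h2 with h3 | h3
      · exact hn0 h3
      · have : (x : ℤ) ^ 2 ≠ 0 := by linarith
        exact this h3
  obtain ⟨p, hp, hpv⟩ := Nat.exists_prime_and_dvd hv1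
  have : Fact p.Prime := ⟨hp⟩
  have hpv' : (p : ℤ) ∣ v := Int.natCast_dvd.mpr hpv
  have hpx : ¬ p ∣ x := by
    intro h
    have h1 : (p : ℤ) ∣ n * x ^ 2 := Dvd.dvd.mul_left (dvd_pow (by exact_mod_cast h) (by norm_num)) _
    have h2 : (p : ℤ) ∣ 1 := by
      have : (1 : ℤ) = n * x ^ 2 - v := by rw [hv]; ring
      rw [this]
      exact dvd_sub h1 hpv'
    have h3 : p ∣ 1 := by exact_mod_cast h2
    exact hp.one_lt.ne' (Nat.dvd_one.mp h3)
  have hMp : M < p := by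
    by_contra h
    push Not at h
    exact hpx ((Nat.Prime.dvd_factorial hp).mpr h)
  have hxu : ‖(x : ℚ_[p])‖ = 1 := norm_nat_one hpx
  have hdu : ‖(D.den : ℚ_[p])‖ = 1 := by
    apply norm_nat_one
    intro h
    have := Nat.le_of_dvd D.den_pos h
    have h3 : D.den ≤ M := le_max_right _ _
    omega
  refine ⟨p, inferInstance, ?_, ?_, 1 / (x * D.den), ?_, ?_⟩
  · exact ((le_max_left _ _).trans (le_max_left _ _)).trans_lt hMp
  · omega
  · push_cast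
    rw [norm_div, norm_one, norm_mul, hxu, hdu]
    norm_num
  · have hx0 : (x : ℚ) ≠ 0 := by exact_mod_cast (by omega : x ≠ 0)
    have hd0 : (D.den : ℚ) ≠ 0 := by exact_mod_cast D.den_ne_zero
    have h1 : (1 / ((x : ℚ) * D.den)) ^ 2 - D = -(v : ℚ) / ((x : ℚ) ^ 2 * (D.den : ℚ) ^ 2) := by
      have hDD : D * D.den = (D.num : ℚ) := Rat.mul_den_eq_num D
      have hnum : (n : ℚ) = D * (D.den : ℚ) ^ 2 := by
        rw [hn]; push_cast
        rw [← hDD]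
        ring
      have hvq : (v : ℚ) = n * (x : ℚ) ^ 2 - 1 := by rw [hv]; push_cast; ring
      rw [hvq, hnum]
      field_simp
      ring
    rw [h1]
    push_cast
    rw [norm_div, norm_neg, norm_mul, norm_pow, norm_pow, hxu, hdu, one_pow, mul_one, div_one,
      Padic.norm_intCast_lt_one_iff]
    exact hpv'

/-- weak approximation at the real place and at an odd prime -/
lemma weak_approx {p : ℕ} [hp : Fact p.Prime] (h5 : 5 ≤ p) (sp : ℚ) (sR : ℝ) (η : ℝ) (hη : 0 < η) :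
    ∃ s : ℚ, |(s : ℝ) - sR| < η ∧ ‖((s - sp : ℚ) : ℚ_[p])‖ < 1 := by
  have hp0 : (0 : ℝ) < p := by exact_mod_cast hp.out.pos
  obtain ⟨M, hM⟩ := pow_unbounded_of_one_lt ((p : ℝ) / η) (by norm_num : (1 : ℝ) < 2)
  have h2M : (0 : ℝ) < 2 ^ M := by positivity
  set k : ℤ := ⌊((sR - sp) / p) * 2 ^ M⌋ with hk
  refine ⟨sp + p * (k / 2 ^ M), ?_, ?_⟩
  · push_cast
    have h1 : (k : ℝ) ≤ ((sR - sp) / p) * 2 ^ M := Int.floor_le _
    have h2 : ((sR - sp) / p) * 2 ^ M < k + 1 := Int.lt_floor_add_one _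
    have h3 : (k : ℝ) / 2 ^ M ≤ (sR - sp) / p := by rw [div_le_iff₀ h2M]; exact h1
    have h4 : (sR - sp) / p < (k : ℝ) / 2 ^ M + 1 / 2 ^ M := by
      rw [← add_div, lt_div_iff₀ h2M]; exact h2
    have h5 : (p : ℝ) * ((k : ℝ) / 2 ^ M) ≤ sR - sp := by
      calc (p : ℝ) * ((k : ℝ) / 2 ^ M) ≤ p * ((sR - sp) / p) := by gcongr
        _ = sR - sp := by field_simp
    have h6 : sR - sp < (p : ℝ) * ((k : ℝ) / 2 ^ M) + η := by
      have h7 : (p : ℝ) * (1 / 2 ^ M) < η := by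
        rw [mul_one_div, div_lt_iff₀ h2M]
        rw [div_lt_iff₀ hη] at hM
        linarith
      calc sR - sp = p * ((sR - sp) / p) := by field_simp
        _ < p * ((k : ℝ) / 2 ^ M + 1 / 2 ^ M) := by gcongr
        _ = p * ((k : ℝ) / 2 ^ M) + p * (1 / 2 ^ M) := by ring
        _ < _ := by linarith
    rw [abs_lt]
    constructor <;> linarith
  · have h1 : (sp + p * (k / 2 ^ M) - sp : ℚ) = p * (k / 2 ^ M) := by ring
    rw [h1]
    push_cast
    have h2 : ‖(2 : ℚ_[p])‖ = 1 := by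
      have := norm_nat_one (p := p) (n := 2) (fun h => by have := Nat.le_of_dvd (by norm_num) h; omega)
      exact_mod_cast this
    rw [norm_mul, norm_div, norm_pow, h2, one_pow, div_one]
    have h3 : ‖(p : ℚ_[p])‖ < 1 := Padic.norm_p_lt_one
    have h4 : ‖(k : ℚ_[p])‖ ≤ 1 := Padic.norm_int_le_one k
    calc ‖(p : ℚ_[p])‖ * ‖(k : ℚ_[p])‖ ≤ ‖(p : ℚ_[p])‖ * 1 := by gcongr
      _ < 1 := by rw [mul_one]; exact h3

section

variable {p : ℕ} [hp : Fact p.Prime]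

lemma ulin {x y : ℚ} {a b c : ℚ} (ha : ‖(a : ℚ_[p])‖ ≤ 1) (hb : ‖(b : ℚ_[p])‖ ≤ 1)
    (hx : ‖(x : ℚ_[p])‖ ≤ 1) (hy : ‖(y : ℚ_[p])‖ ≤ 1)
    (hxy : ‖((x - y : ℚ) : ℚ_[p])‖ < 1) :
    ‖(((a * x ^ 2 + b * x + c) - (a * y ^ 2 + b * y + c) : ℚ) : ℚ_[p])‖ < 1 := by
  have h1 : (a * x ^ 2 + b * x + c) - (a * y ^ 2 + b * y + c) = (a * (x + y) + b) * (x - y) := by ring
  rw [h1, Rat.cast_mul, norm_mul]
  have h2 : ‖((a * (x + y) + b : ℚ) : ℚ_[p])‖ ≤ 1 := by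
    push_cast
    exact uadd (umul ha (uadd hx hy)) hb
  calc _ ≤ 1 * ‖((x - y : ℚ) : ℚ_[p])‖ := by gcongr
    _ < 1 := by rw [one_mul]; exact hxy

lemma uquad {y : ℚ} {a b c : ℚ} (ha : ‖(a : ℚ_[p])‖ ≤ 1) (hb : ‖(b : ℚ_[p])‖ ≤ 1)
    (hc : ‖(c : ℚ_[p])‖ ≤ 1) (hy : ‖(y : ℚ_[p])‖ ≤ 1) :
    ‖((a * y ^ 2 + b * y + c : ℚ) : ℚ_[p])‖ ≤ 1 := by
  push_cast
  refine uadd (uadd (umul ha ?_) (umul hb hy)) hc
  rw [norm_pow]; exact pow_le_one₀ (norm_nonneg _) hy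

end

/-- **Key lemma** at the base point zero: `a k`, `b k`, `c k` are the coefficients of `tᵏ` in the
quadratic polynomial in `y`. -/
theorem key0 (a b c : ℕ → ℚ) (hA : a 0 ≠ 0) (hD : b 0 ^ 2 - 4 * a 0 * c 0 ≠ 0)
    (hrk : ¬ (a 0 * b 1 = a 1 * b 0 ∧ a 0 * c 1 = a 1 * c 0)) {y0 w0 : ℚ} (hw0 : w0 ≠ 0)
    (h0 : w0 ^ 2 = a 0 * y0 ^ 2 + b 0 * y0 + c 0) {yR : ℝ}
    (hR : 0 < (a 0 : ℝ) * yR ^ 2 + b 0 * yR + c 0) {ε : ℝ} (hε : 0 < ε) :
    ∃ y1 : ℚ, |(y1 : ℝ) - yR| < ε ∧ (∃ w1 : ℚ, w1 ≠ 0 ∧ w1 ^ 2 = a 0 * y1 ^ 2 + b 0 * y1 + c 0 ∧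
      {t : ℚ | ∃ w : ℚ, w ^ 2 = qv (w1 ^ 2) (a 1 * y1 ^ 2 + b 1 * y1 + c 1)
        (a 2 * y1 ^ 2 + b 2 * y1 + c 2) (a 3 * y1 ^ 2 + b 3 * y1 + c 3)
        (a 4 * y1 ^ 2 + b 4 * y1 + c 4) t}.Infinite) := by
  classical
  -- the prime
  set A := a 0 with hAd
  set B := b 0 with hBd
  set C := c 0 with hCd
  set D := B ^ 2 - 4 * A * C with hDd
  set U := a 1 * (B ^ 2 + D) - 2 * A * B * b 1 + 4 * A ^ 2 * c 1 with hU
  set V := 2 * (A * b 1 - a 1 * B) with hV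
  have hUV : U ≠ 0 ∨ V ≠ 0 := by
    by_contra hcon
    push Not at hcon
    obtain ⟨hU0, hV0⟩ := hcon
    apply hrk
    have h1 : A * b 1 = a 1 * B := by
      rw [hV] at hV0
      linarith
    refine ⟨h1, ?_⟩
    have h2 : 4 * A * (A * c 1 - a 1 * C) = 0 := by
      rw [hU, hDd] at hU0
      linear_combination hU0 + 2 * B * h1
    have h3 : A * c 1 - a 1 * C = 0 := by
      rcases mul_eq_zero.mp h2 with h | h
      · exact absurd h (mul_ne_zero (by norm_num) hA)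
      · exact h
    linarith
  obtain ⟨M0, hM0⟩ := good_fin ({A, B, C, D, U, V, y0, w0, 2, 3} ∪
    (Finset.range 5).image a ∪ (Finset.range 5).image b ∪ (Finset.range 5).image c)
  obtain ⟨p, hp, hMp, hp5, θ, hθ, hθD⟩ := exists_prime_sq hD M0
  have hgood := hM0 p hMp
  have gA := hgood A (by simp)
  have gB := hgood B (by simp)
  have gC := hgood C (by simp)
  have gU := hgood U (by simp)
  have gV := hgood V (by simp)
  have gy0 := hgood y0 (by simp)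
  have gw0 := hgood w0 (by simp)
  have g2 := hgood 2 (by simp)
  have ga : ∀ k < 5, ‖(a k : ℚ_[p])‖ ≤ 1 := fun k hk => (hgood (a k) (by
    simp only [Finset.mem_union, Finset.mem_image, Finset.mem_range]
    exact Or.inl (Or.inl (Or.inr ⟨k, hk, rfl⟩)))).1
  have gb : ∀ k < 5, ‖(b k : ℚ_[p])‖ ≤ 1 := fun k hk => (hgood (b k) (by
    simp only [Finset.mem_union, Finset.mem_image, Finset.mem_range]
    exact Or.inl (Or.inr ⟨k, hk, rfl⟩))).1
  have gc : ∀ k < 5, ‖(c k : ℚ_[p])‖ ≤ 1 := fun k hk => (hgood (c k) (by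
    simp only [Finset.mem_union, Finset.mem_image, Finset.mem_range]
    exact Or.inr ⟨k, hk, rfl⟩)).1
  clear hgood
  have nA : ‖(A : ℚ_[p])‖ = 1 := gA.2 hA
  have n2 : ‖((2 : ℚ) : ℚ_[p])‖ = 1 := g2.2 (by norm_num)
  have n2' : ‖(2 : ℚ_[p])‖ = 1 := by exact_mod_cast n2
  have nw0 : ‖(w0 : ℚ_[p])‖ = 1 := gw0.2 hw0
  -- the root modulo p
  have hroot : ∃ e : ℚ, ‖(e : ℚ_[p])‖ ≤ 1 ∧ ‖((A * e ^ 2 + B * e + C : ℚ) : ℚ_[p])‖ < 1 ∧
      ‖((2 * A * e + B : ℚ) : ℚ_[p])‖ = 1 ∧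
      ‖((a 1 * e ^ 2 + b 1 * e + c 1 : ℚ) : ℚ_[p])‖ = 1 := by
    have main : ∀ σ : ℚ, σ ^ 2 = 1 → ‖((U + σ * θ * V : ℚ) : ℚ_[p])‖ = 1 →
        ∃ e : ℚ, ‖(e : ℚ_[p])‖ ≤ 1 ∧ ‖((A * e ^ 2 + B * e + C : ℚ) : ℚ_[p])‖ < 1 ∧
      ‖((2 * A * e + B : ℚ) : ℚ_[p])‖ = 1 ∧
      ‖((a 1 * e ^ 2 + b 1 * e + c 1 : ℚ) : ℚ_[p])‖ = 1 := by
      intro σ hσ hnU
      have nσ : ‖(σ : ℚ_[p])‖ = 1 := by
        have h1 : ‖(σ : ℚ_[p])‖ ^ 2 = 1 := by
          rw [← norm_pow]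
          have : (σ : ℚ_[p]) ^ 2 = 1 := by exact_mod_cast hσ
          rw [this, norm_one]
        exact (pow_eq_one_iff_of_nonneg (norm_nonneg _) (by norm_num)).mp h1
      have hA2 : (2 * A) ≠ 0 := mul_ne_zero (by norm_num) hA
      set e : ℚ := (-B + σ * θ) / (2 * A) with he
      have he2 : 2 * A * e + B = σ * θ := by
        rw [he]
        field_simp
        ring
      have hel : ‖(e : ℚ_[p])‖ ≤ 1 := by
        rw [he]
        push_cast
        rw [norm_div, norm_mul (2 : ℚ_[p]), n2', nA, one_mul, div_one]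
        refine uadd (by rw [norm_neg]; exact gB.1) ?_
        rw [norm_mul, nσ, hθ, one_mul]
      refine ⟨e, hel, ?_, ?_, ?_⟩
      · have h1 : A * e ^ 2 + B * e + C = (θ ^ 2 - D) / (4 * A) := by
          have : 4 * A * (A * e ^ 2 + B * e + C) = (2 * A * e + B) ^ 2 - D := by rw [hDd]; ring
          rw [eq_div_iff (mul_ne_zero (by norm_num) hA), mul_comm, this, he2, mul_pow, hσ, one_mul]
        rw [h1]
        push_cast
        rw [norm_div]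
        have : ‖(4 : ℚ_[p]) * (A : ℚ_[p])‖ = 1 := by
          have h4 : (4 : ℚ_[p]) = 2 * 2 := by norm_num
          rw [h4, norm_mul, norm_mul, n2', nA]
          norm_num
        rw [this, div_one]
        push_cast at hθD
        exact hθD
      · rw [he2]
        push_cast
        rw [norm_mul, nσ, hθ, one_mul]
      · have h1 : 4 * A ^ 2 * (a 1 * e ^ 2 + b 1 * e + c 1) = (U + σ * θ * V) + a 1 * (θ ^ 2 - D) := by
          have h2 : 2 * A * e = σ * θ - B := by linarith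
          have h3 : 4 * A ^ 2 * (a 1 * e ^ 2 + b 1 * e + c 1) =
            a 1 * (2 * A * e) ^ 2 + 2 * A * b 1 * (2 * A * e) + 4 * A ^ 2 * c 1 := by ring
          rw [h3, h2, hU, hV]
          linear_combination a 1 * θ ^ 2 * hσ
        have h2 : ‖((4 * A ^ 2 * (a 1 * e ^ 2 + b 1 * e + c 1) : ℚ) : ℚ_[p])‖ = 1 := by
          rw [h1, Rat.cast_add, uadd_eq, hnU]
          rw [hnU, Rat.cast_mul, norm_mul]
          calc _ ≤ 1 * ‖((θ ^ 2 - D : ℚ) : ℚ_[p])‖ := by gcongr; exact ga 1 (by norm_num)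
            _ < 1 := by rw [one_mul]; exact hθD
        have h3 : ‖((4 * A ^ 2 : ℚ) : ℚ_[p])‖ = 1 := by
          push_cast
          have h4 : (4 : ℚ_[p]) = 2 * 2 := by norm_num
          rw [h4, norm_mul, norm_mul, norm_pow, n2', nA]
          norm_num
        rw [Rat.cast_mul, norm_mul, h3, one_mul] at h2
        exact h2
    -- one of the two signs works
    by_contra hcon
    have hp1 : ¬ ‖((U + 1 * θ * V : ℚ) : ℚ_[p])‖ = 1 := fun h => hcon (main 1 (by norm_num) h)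
    have hm1 : ¬ ‖((U + (-1) * θ * V : ℚ) : ℚ_[p])‖ = 1 := fun h => hcon (main (-1) (by norm_num) h)
    have hle : ∀ σ : ℚ, ‖(σ : ℚ_[p])‖ = 1 → ‖((U + σ * θ * V : ℚ) : ℚ_[p])‖ ≤ 1 := by
      intro σ hσ
      push_cast
      refine uadd gU.1 ?_
      rw [mul_assoc]
      refine umul hσ.le (umul hθ.le gV.1)
    have n1 : ‖((1 : ℚ) : ℚ_[p])‖ = 1 := by simp
    have nm1 : ‖((-1 : ℚ) : ℚ_[p])‖ = 1 := by simp
    have l1 := lt_of_le_of_ne (hle 1 n1) hp1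
    have l2 := lt_of_le_of_ne (hle (-1) nm1) hm1
    have e1 : ‖((2 * U : ℚ) : ℚ_[p])‖ < 1 := by
      have : (2 * U : ℚ) = (U + 1 * θ * V) + (U + (-1) * θ * V) := by ring
      rw [this, Rat.cast_add]
      exact uadd_lt l1 l2
    have e2 : ‖((2 * θ * V : ℚ) : ℚ_[p])‖ < 1 := by
      have : (2 * θ * V : ℚ) = (U + 1 * θ * V) - (U + (-1) * θ * V) := by ring
      rw [this, Rat.cast_sub]
      exact usub_lt l1 l2
    rw [Rat.cast_mul, norm_mul, n2, one_mul] at e1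
    rw [Rat.cast_mul, Rat.cast_mul, norm_mul, norm_mul, n2, hθ, one_mul, one_mul] at e2
    rcases hUV with h | h
    · rw [gU.2 h] at e1
      exact lt_irrefl _ e1
    · rw [gV.2 h] at e2
      exact lt_irrefl _ e2
  obtain ⟨e, he1, heQ, heD, heL⟩ := hroot
  -- the difference with y0 is a unit
  set δ : ℚ := e - y0 with hδ
  have hδ1 : ‖(δ : ℚ_[p])‖ ≤ 1 := by
    rw [hδ]; push_cast; exact usub he1 gy0.1
  have hQy0 : ‖((A * e ^ 2 + B * e + C : ℚ) : ℚ_[p]) - ((w0 ^ 2 : ℚ) : ℚ_[p])‖ = 1 := by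
    rw [← norm_neg, neg_sub, usub_eq]
    · push_cast; rw [norm_pow, nw0, one_pow]
    · push_cast; rw [norm_pow, nw0, one_pow]
      push_cast at heQ; exact heQ
  have hδn : ‖(δ : ℚ_[p])‖ = 1 := by
    have h1 : ((A * e ^ 2 + B * e + C : ℚ) : ℚ_[p]) - ((w0 ^ 2 : ℚ) : ℚ_[p]) =
        ((δ * (A * (e + y0) + B) : ℚ) : ℚ_[p]) := by
      rw [← Rat.cast_sub]
      congr 1
      rw [h0, hδ]
      ring
    rw [h1, Rat.cast_mul, norm_mul] at hQy0
    have h2 : ‖((A * (e + y0) + B : ℚ) : ℚ_[p])‖ ≤ 1 := by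
      push_cast
      exact uadd (umul gA.1 (uadd he1 gy0.1)) gB.1
    apply le_antisymm hδ1
    calc (1 : ℝ) = ‖(δ : ℚ_[p])‖ * ‖((A * (e + y0) + B : ℚ) : ℚ_[p])‖ := hQy0.symm
      _ ≤ ‖(δ : ℚ_[p])‖ * 1 := by gcongr
      _ = ‖(δ : ℚ_[p])‖ := mul_one _
  have hδ0 : δ ≠ 0 := by
    rintro h
    rw [h] at hδn
    simp at hδn
  set g : ℚ := B + 2 * A * y0 with hg
  have hgn : ‖(g : ℚ_[p])‖ ≤ 1 := by
    rw [hg]; push_cast
    refine uadd gB.1 ?_
    rw [mul_assoc]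
    exact umul n2'.le (umul gA.1 gy0.1)
  set sp : ℚ := -w0 / δ with hsp
  have hspn : ‖(sp : ℚ_[p])‖ ≤ 1 := by
    rw [hsp]; push_cast
    rw [norm_div, norm_neg, nw0, hδn, div_one]
  -- the real side
  obtain ⟨yR', hyR', hy0', hRp⟩ : ∃ yR' : ℝ, |yR' - yR| < ε / 2 ∧ yR' ≠ y0 ∧
      0 < (A : ℝ) * yR' ^ 2 + B * yR' + C := by
    have hc : Continuous fun y : ℝ => (A : ℝ) * y ^ 2 + B * y + C := by fun_prop
    have h1 : ∀ᶠ y in 𝓝 yR, 0 < (A : ℝ) * y ^ 2 + B * y + C :=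
      hc.continuousAt.eventually (lt_mem_nhds hR)
    have h2 : ∀ᶠ y in 𝓝 yR, |y - yR| < ε / 2 := by
      have := Metric.ball_mem_nhds yR (half_pos hε)
      filter_upwards [this] with y hy
      rwa [Metric.mem_ball, Real.dist_eq] at hy
    have h3 : ∃ᶠ y in 𝓝 yR, y ≠ (y0 : ℝ) := by
      by_cases h : yR = y0
      · rw [h]
        have : (𝓝[≠] (y0 : ℝ)).NeBot := inferInstance
        exact (frequently_iff_neBot.mpr this)
      · exact (continuousAt_id.eventually_ne h).frequently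
    obtain ⟨y, hy3, hy1, hy2⟩ := (h3.and_eventually (h1.and h2)).exists
    exact ⟨y, hy2, hy3, hy1⟩
  set WR : ℝ := Real.sqrt ((A : ℝ) * yR' ^ 2 + B * yR' + C) with hWR
  have hWR2 : WR ^ 2 = (A : ℝ) * yR' ^ 2 + B * yR' + C := Real.sq_sqrt hRp.le
  have hyd : yR' - y0 ≠ 0 := sub_ne_zero.mpr hy0'
  obtain ⟨sR, hsR⟩ : ∃ sR : ℝ, sR * (yR' - y0) = WR - w0 := ⟨(WR - w0) / (yR' - y0), by field_simp⟩
  have h0R : (w0 : ℝ) ^ 2 = (A : ℝ) * y0 ^ 2 + B * y0 + C := by exact_mod_cast h0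
  have hsR2 : (sR ^ 2 - A) * (yR' - y0) = g - 2 * w0 * sR := by
    apply mul_right_cancel₀ hyd
    rw [hg]
    push_cast
    have : WR = w0 + sR * (yR' - y0) := by linarith
    rw [this] at hWR2
    linear_combination hWR2 - h0R
  have hsRA : sR ^ 2 - A ≠ 0 := by
    intro h
    apply hD
    rw [h, zero_mul] at hsR2
    have : ((B ^ 2 - 4 * A * C : ℚ) : ℝ) = 0 := by
      have hgR : (g : ℝ) = B + 2 * A * y0 := by rw [hg]; push_cast; ring
      have h1 : (g : ℝ) ^ 2 = 4 * w0 ^ 2 * A := by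
        have : (g : ℝ) = 2 * w0 * sR := by linarith
        rw [this]
        linear_combination 4 * (w0 : ℝ) ^ 2 * h
      rw [hgR] at h1
      push_cast
      linear_combination h1 + 4 * A * h0R
    exact_mod_cast this
  -- the parametrization is continuous
  have hcont : ∀ᶠ s in 𝓝 sR, |(y0 + (g - 2 * w0 * s) / (s ^ 2 - A) : ℝ) - yR'| < ε / 2 ∧
      s ^ 2 - A ≠ 0 ∧ 0 < (A : ℝ) * (y0 + (g - 2 * w0 * s) / (s ^ 2 - A) : ℝ) ^ 2 +
        B * (y0 + (g - 2 * w0 * s) / (s ^ 2 - A) : ℝ) + C := by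
    have hc : ContinuousAt (fun s : ℝ => (y0 + (g - 2 * w0 * s) / (s ^ 2 - A) : ℝ)) sR := by
      refine continuousAt_const.add (ContinuousAt.div (by fun_prop) (by fun_prop) hsRA)
    have hv : (y0 + (g - 2 * w0 * sR) / (sR ^ 2 - A) : ℝ) = yR' := by
      rw [← hsR2]
      field_simp
      ring
    have h1 : Tendsto (fun s : ℝ => (y0 + (g - 2 * w0 * s) / (s ^ 2 - A) : ℝ)) (𝓝 sR) (𝓝 yR') := by
      have := hc.tendsto
      rwa [hv] at this
    have h2 : ∀ᶠ y in 𝓝 yR', |y - yR'| < ε / 2 := by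
      have := Metric.ball_mem_nhds yR' (half_pos hε)
      filter_upwards [this] with y hy
      rwa [Metric.mem_ball, Real.dist_eq] at hy
    have hcq : Continuous fun y : ℝ => (A : ℝ) * y ^ 2 + B * y + C := by fun_prop
    have h3 : ∀ᶠ y in 𝓝 yR', 0 < (A : ℝ) * y ^ 2 + B * y + C :=
      hcq.continuousAt.eventually (lt_mem_nhds hRp)
    have h4 : ∀ᶠ s in 𝓝 sR, s ^ 2 - (A : ℝ) ≠ 0 := by
      have : Continuous fun s : ℝ => s ^ 2 - (A : ℝ) := by fun_prop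
      exact this.continuousAt.eventually_ne hsRA
    filter_upwards [h1.eventually h2, h1.eventually h3, h4] with s a1 a2 a3
    exact ⟨a1, a3, a2⟩
  obtain ⟨η, hη, hηs⟩ := Metric.eventually_nhds_iff.mp hcont
  obtain ⟨s, hs1, hs2⟩ := weak_approx hp5 sp sR η hη
  obtain ⟨c1, c2, c3⟩ := hηs (by rw [Real.dist_eq]; exact hs1)
  have hsA : s ^ 2 - A ≠ 0 := by
    intro h
    apply c2
    exact_mod_cast h
  set y1 : ℚ := y0 + (g - 2 * w0 * s) / (s ^ 2 - A) with hy1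
  have hy1R : (y1 : ℝ) = y0 + (g - 2 * w0 * s) / (s ^ 2 - A) := by rw [hy1]; push_cast; ring
  rw [← hy1R] at c1 c3
  have hy1m : (y1 - y0) * (s ^ 2 - A) = g - 2 * w0 * s := by
    rw [hy1]
    field_simp
    ring
  set w1 : ℚ := w0 + s * (y1 - y0) with hw1
  have hw1Q : w1 ^ 2 = A * y1 ^ 2 + B * y1 + C := by
    rw [hw1]
    linear_combination (y1 - y0) * hy1m + h0 + (y1 - y0) * hg
  have hw10 : w1 ≠ 0 := by
    intro h
    rw [h] at hw1Q
    have : ((A * y1 ^ 2 + B * y1 + C : ℚ) : ℝ) = 0 := by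
      rw [← hw1Q]; push_cast; ring
    push_cast at this
    linarith
  -- the p-adic side
  have hsn : ‖(s : ℚ_[p])‖ ≤ 1 := by
    have : (s : ℚ_[p]) = ((s - sp : ℚ) : ℚ_[p]) + (sp : ℚ_[p]) := by push_cast; ring
    rw [this]
    exact uadd hs2.le hspn
  have hsAn : ‖((s ^ 2 - A : ℚ) : ℚ_[p])‖ = 1 := by
    have h1 : sp ^ 2 - A = (-(2 * A * e + B) * δ + (A * e ^ 2 + B * e + C)) / δ ^ 2 := by
      rw [hsp]
      have : e = δ + y0 := by rw [hδ]; ring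
      rw [this]
      field_simp
      linear_combination h0
    have h2 : ‖((sp ^ 2 - A : ℚ) : ℚ_[p])‖ = 1 := by
      rw [h1, Rat.cast_div, norm_div, Rat.cast_pow, norm_pow, hδn, one_pow, div_one, Rat.cast_add,
        uadd_eq]
      · rw [Rat.cast_mul, norm_mul, Rat.cast_neg, norm_neg, heD, hδn, one_mul]
      · rw [Rat.cast_mul, norm_mul, Rat.cast_neg, norm_neg, heD, hδn, one_mul]
        exact heQ
    have h3 : (s ^ 2 - A : ℚ) = (sp ^ 2 - A) + (s + sp) * (s - sp) := by ring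
    rw [h3, Rat.cast_add, uadd_eq, h2]
    rw [h2, Rat.cast_mul, norm_mul]
    have h4 : ‖((s + sp : ℚ) : ℚ_[p])‖ ≤ 1 := by push_cast; exact uadd hsn hspn
    calc _ ≤ 1 * ‖((s - sp : ℚ) : ℚ_[p])‖ := by gcongr
      _ < 1 := by rw [one_mul]; exact hs2
  have hye : ‖((y1 - e : ℚ) : ℚ_[p])‖ < 1 := by
    have h1 : (y1 - e) * (s ^ 2 - A) = (A * e ^ 2 + B * e + C) / δ -
        (s - sp) * (2 * w0 + δ * (s + sp)) := by
      have h2 : (y1 - e) * (s ^ 2 - A) = g - 2 * w0 * s - δ * (s ^ 2 - A) := by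
        rw [← hy1m, hδ]; ring
      rw [h2, hsp]
      have : e = δ + y0 := by rw [hδ]; ring
      rw [this, hg]
      field_simp
      linear_combination h0
    have h3 : ‖(((y1 - e) * (s ^ 2 - A) : ℚ) : ℚ_[p])‖ < 1 := by
      rw [h1, Rat.cast_sub]
      refine usub_lt ?_ ?_
      · rw [Rat.cast_div, norm_div, hδn, div_one]
        exact heQ
      · rw [Rat.cast_mul, norm_mul]
        have h4 : ‖((2 * w0 + δ * (s + sp) : ℚ) : ℚ_[p])‖ ≤ 1 := by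
          push_cast
          exact uadd (umul n2'.le gw0.1) (umul hδ1 (uadd hsn hspn))
        calc _ ≤ ‖((s - sp : ℚ) : ℚ_[p])‖ * 1 := by gcongr
          _ < 1 := by rw [mul_one]; exact hs2
    rw [Rat.cast_mul, norm_mul, hsAn, mul_one] at h3
    exact h3
  have hy1n : ‖(y1 : ℚ_[p])‖ ≤ 1 := by
    have : (y1 : ℚ_[p]) = ((y1 - e : ℚ) : ℚ_[p]) + (e : ℚ_[p]) := by push_cast; ring
    rw [this]
    exact uadd hye.le he1
  have hw1n : ‖(w1 : ℚ_[p])‖ < 1 := by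
    have h1 := ulin (p := p) (c := C) gA.1 gB.1 hy1n he1 hye
    rw [← hw1Q] at h1
    have h2 : ‖((w1 ^ 2 : ℚ) : ℚ_[p])‖ < 1 := by
      have : ((w1 ^ 2 : ℚ) : ℚ_[p]) = ((w1 ^ 2 - (A * e ^ 2 + B * e + C) : ℚ) : ℚ_[p]) +
        ((A * e ^ 2 + B * e + C : ℚ) : ℚ_[p]) := by push_cast; ring
      rw [this]
      exact uadd_lt h1 heQ
    push_cast at h2
    rw [norm_pow] at h2
    by_contra hc
    push Not at hc
    exact absurd h2 (not_lt.mpr (one_le_pow₀ hc))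
  have hf1 : ‖((a 1 * y1 ^ 2 + b 1 * y1 + c 1 : ℚ) : ℚ_[p])‖ = 1 := by
    have h1 := ulin (p := p) (c := c 1) (ga 1 (by norm_num)) (gb 1 (by norm_num)) hy1n he1 hye
    have : ((a 1 * y1 ^ 2 + b 1 * y1 + c 1 : ℚ) : ℚ_[p]) =
        ((a 1 * e ^ 2 + b 1 * e + c 1 : ℚ) : ℚ_[p]) +
        (((a 1 * y1 ^ 2 + b 1 * y1 + c 1) - (a 1 * e ^ 2 + b 1 * e + c 1) : ℚ) : ℚ_[p]) := by
      push_cast; ring
    rw [this, uadd_eq, heL]
    rw [heL]
    exact h1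
  refine ⟨y1, ?_, w1, hw10, hw1Q, ?_⟩
  · calc |(y1 : ℝ) - yR| = |((y1 : ℝ) - yR') + (yR' - yR)| := by ring_nf
      _ ≤ |(y1 : ℝ) - yR'| + |yR' - yR| := abs_add_le _ _
      _ < ε := by linarith
  · exact inf_quartic hp5 _ _ _ _ w1 hf1
      (uquad (ga 2 (by norm_num)) (gb 2 (by norm_num)) (gc 2 (by norm_num)) hy1n)
      (uquad (ga 3 (by norm_num)) (gb 3 (by norm_num)) (gc 3 (by norm_num)) hy1n)
      (uquad (ga 4 (by norm_num)) (gb 4 (by norm_num)) (gc 4 (by norm_num)) hy1n) hw1n hw10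

end Pool.Agent.Y718
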