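import Mathlib

/-!
# Specialization of polynomials in all variables but one
-/

set_option autoImplicit false

open Polynomial

namespace Pool.Agent.Y718

variable {m : ℕ}

/-- specialization of all variables except the `i`-th one -/
noncomputable def sp (a : Fin m → ℚ) (i : Fin m) (P : MvPolynomial (Fin m) ℚ) : ℚ[X] :=
  MvPolynomial.aeval (Function.update (fun j => C (a j)) i X) P

lemma sp_eval (a : Fin m → ℚ) (i : Fin m) (P : MvPolynomial (Fin m) ℚ) (t : ℚ) :
    (sp a i P).eval t = MvPolynomial.eval (Function.update a i t) P := by
  classical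
  induction P using MvPolynomial.induction_on with
  | C c => simp [sp]
  | add p q hp hq =>
    simp only [sp, map_add, Polynomial.eval_add] at hp hq ⊢
    rw [hp, hq]
  | mul_X p j hp =>
    simp only [sp, map_mul, Polynomial.eval_mul, MvPolynomial.aeval_X, MvPolynomial.eval_X] at hp ⊢
    rw [hp]
    congr 1
    by_cases h : j = i
    · subst h; simp
    · simp [Function.update_of_ne h]

lemma sp_natDegree (a : Fin m → ℚ) (i : Fin m) (P : MvPolynomial (Fin m) ℚ) :
    (sp a i P).natDegree ≤ P.degreeOf i := by
  classical
  rw [sp, MvPolynomial.aeval_def, MvPolynomial.eval₂_eq']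
  refine Polynomial.natDegree_sum_le_of_forall_le _ _ fun d hd => ?_
  refine (Polynomial.natDegree_C_mul_le _ _).trans ?_
  refine (Polynomial.natDegree_prod_le _ _).trans ?_
  have h1 : ∀ j ∈ (Finset.univ : Finset (Fin m)), ((Function.update (fun j => C (a j)) i X : Fin m → ℚ[X]) j ^ d j).natDegree
      ≤ if j = i then d i else 0 := by
    intro j _
    by_cases h : j = i
    · subst h; simp
    · rw [Function.update_of_ne h, if_neg h, ← C_pow]
      simp
  refine (Finset.sum_le_sum h1).trans ?_
  rw [Finset.sum_ite_eq' Finset.univ i]
  simp only [Finset.mem_univ, if_true]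
  exact MvPolynomial.monomial_le_degreeOf i hd

lemma sp_deriv (a : Fin m → ℚ) (i : Fin m) (P : MvPolynomial (Fin m) ℚ) :
    derivative (sp a i P) = sp a i (MvPolynomial.pderiv i P) := by
  classical
  induction P using MvPolynomial.induction_on with
  | C c => simp [sp]
  | add p q hp hq =>
    simp only [sp, map_add] at hp hq ⊢
    rw [hp, hq]
  | mul_X p j hp =>
    have e1 : sp a i (p * MvPolynomial.X j) = sp a i p * (Function.update (fun j => C (a j)) i X : Fin m → ℚ[X]) j := by
      simp [sp]
    rw [e1, derivative_mul, hp, MvPolynomial.pderiv_mul]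
    have e2 : derivative ((Function.update (fun j => C (a j)) i X : Fin m → ℚ[X]) j) =
        sp a i (MvPolynomial.pderiv i (MvPolynomial.X j)) := by
      by_cases h : j = i
      · subst h; simp [sp]
      · rw [Function.update_of_ne h, MvPolynomial.pderiv_X_of_ne h]
        simp [sp]
    rw [e2]
    simp [sp]

/-- a polynomial nonzero at a point is nonzero at all but finitely many points of each coordinate
line through the point -/
lemma sp_finite {a : Fin m → ℚ} (i : Fin m) {P : MvPolynomial (Fin m) ℚ}
    (h : MvPolynomial.eval a P ≠ 0) : {t : ℚ | MvPolynomial.eval (Function.update a i t) P = 0}.Finite := by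
  have h0 : sp a i P ≠ 0 := by
    intro h0
    apply h
    have := sp_eval a i P (a i)
    rw [h0, Function.update_eq_self] at this
    simpa using this.symm
  by_contra hc
  apply h0
  apply Polynomial.eq_zero_of_infinite_isRoot
  refine Set.Infinite.mono ?_ hc
  intro t ht
  simp only [Set.mem_ofPred_eq, Polynomial.IsRoot.def]
  rw [sp_eval]
  exact ht

end Pool.Agent.Y718
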