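import Pool.Agent.Y718.Key
import Pool.Agent.Y718.Spec

/-!
# The key lemma for families of quadratic polynomials
-/

set_option autoImplicit false
set_option linter.unusedSectionVars false
set_option linter.unusedSimpArgs false

open Set Filter Topology Polynomial

namespace Pool.Agent.Y718

/-- the key lemma for three polynomials in one variable -/
theorem keyP {al be ga : ℚ[X]} (hal : al.natDegree ≤ 4) (hbe : be.natDegree ≤ 4)
    (hga : ga.natDegree ≤ 4) {x0 : ℚ} (hA : al.eval x0 ≠ 0)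
    (hD : be.eval x0 ^ 2 - 4 * al.eval x0 * ga.eval x0 ≠ 0)
    (hrk : ¬ (al.eval x0 * (derivative be).eval x0 = (derivative al).eval x0 * be.eval x0 ∧
      al.eval x0 * (derivative ga).eval x0 = (derivative al).eval x0 * ga.eval x0))
    {y0 w0 : ℚ} (hw0 : w0 ≠ 0) (h0 : w0 ^ 2 = al.eval x0 * y0 ^ 2 + be.eval x0 * y0 + ga.eval x0)
    {yR : ℝ} (hR : 0 < ((al.eval x0 : ℚ) : ℝ) * yR ^ 2 + ((be.eval x0 : ℚ) : ℝ) * yR +
      ((ga.eval x0 : ℚ) : ℝ)) {ε : ℝ}
    (hε : 0 < ε) :
    ∃ y1 : ℚ, |(y1 : ℝ) - yR| < ε ∧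
      (∃ w1 : ℚ, w1 ≠ 0 ∧ w1 ^ 2 = al.eval x0 * y1 ^ 2 + be.eval x0 * y1 + ga.eval x0) ∧
      {t : ℚ | ∃ w : ℚ, w ^ 2 = al.eval t * y1 ^ 2 + be.eval t * y1 + ga.eval t}.Infinite := by
  have c0 : ∀ P : ℚ[X], (taylor x0 P).coeff 0 = P.eval x0 := fun P => taylor_coeff_zero x0 P
  have c1 : ∀ P : ℚ[X], (taylor x0 P).coeff 1 = (derivative P).eval x0 := fun P => taylor_coeff_one x0 P
  have hnd : ∀ P : ℚ[X], P.natDegree ≤ 4 → (taylor x0 P).natDegree ≤ 4 := by
    intro P hP
    rwa [natDegree_taylor]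
  have hev : ∀ (P : ℚ[X]) (t : ℚ), (taylor x0 P).eval t = P.eval (t + x0) := fun P t => taylor_eval x0 P t
  obtain ⟨y1, h1, w1, hw1, hw1', hinf⟩ := key0 (fun k => (taylor x0 al).coeff k)
    (fun k => (taylor x0 be).coeff k) (fun k => (taylor x0 ga).coeff k)
    (by simpa only [c0] using hA) (by simpa only [c0] using hD)
    (by simpa only [c0, c1] using hrk) hw0 (by simpa only [c0] using h0)
    (by simpa only [c0] using hR) hε
  refine ⟨y1, h1, ⟨w1, hw1, by simpa only [c0] using hw1'⟩, ?_⟩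
  intro hfin
  apply hinf
  refine Set.Finite.of_finite_image (f := fun t => t + x0) (hfin.subset ?_) (add_left_injective x0).injOn
  rintro _ ⟨t, ⟨w, hw⟩, rfl⟩
  refine ⟨w, ?_⟩
  rw [hw, ← hev, ← hev, ← hev, eval_four (hnd al hal), eval_four (hnd be hbe), eval_four (hnd ga hga),
    hw1']
  unfold qv
  ring

section quad

variable {K K' : Type*} [CommRing K] [CommRing K'] {r : ℕ}

/-- the quadratic part -/
def qa (q : Fin r → Fin r → K) (v : Fin r → K) : K := ∑ j, ∑ k, q j k * v j * v k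

/-- the mixed part -/
def qb (q : Fin r → Fin r → K) (l : Fin r → K) (y v : Fin r → K) : K :=
  ∑ j, ∑ k, q j k * (y j * v k + v j * y k) + ∑ j, l j * v j

/-- the quadratic polynomial -/
def qf (q : Fin r → Fin r → K) (l : Fin r → K) (c : K) (y : Fin r → K) : K :=
  ∑ j, ∑ k, q j k * y j * y k + ∑ j, l j * y j + c

lemma qf_line (q : Fin r → Fin r → K) (l : Fin r → K) (c : K) (y v : Fin r → K) (s : K) :
    qf q l c (fun j => y j + s * v j) = qa q v * s ^ 2 + qb q l y v * s + qf q l c y := by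
  have h1 : ∀ j, l j * (y j + s * v j) = l j * y j + s * (l j * v j) := fun j => by ring
  have h2 : ∀ j k, q j k * (y j + s * v j) * (y k + s * v k) =
      q j k * y j * y k + s * (q j k * (y j * v k + v j * y k)) + s ^ 2 * (q j k * v j * v k) :=
    fun j k => by ring
  simp only [qf, qa, qb, h1, h2, Finset.sum_add_distrib, ← Finset.mul_sum]
  ring

lemma qa_map (φ : K →+* K') (q : Fin r → Fin r → K) (v : Fin r → K) :
    φ (qa q v) = qa (fun j k => φ (q j k)) (fun j => φ (v j)) := by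
  simp [qa, map_sum, map_mul]

lemma qb_map (φ : K →+* K') (q : Fin r → Fin r → K) (l : Fin r → K) (y v : Fin r → K) :
    φ (qb q l y v) = qb (fun j k => φ (q j k)) (fun j => φ (l j)) (fun j => φ (y j))
      (fun j => φ (v j)) := by
  simp [qb, map_sum, map_mul, map_add]

lemma qf_map (φ : K →+* K') (q : Fin r → Fin r → K) (l : Fin r → K) (c : K) (y : Fin r → K) :
    φ (qf q l c y) = qf (fun j k => φ (q j k)) (fun j => φ (l j)) (φ c) (fun j => φ (y j)) := by
  simp [qf, map_sum, map_mul, map_add]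

end quad

section dens

variable {r : ℕ}

lemma qf_cast (q : Fin r → Fin r → ℚ) (l : Fin r → ℚ) (c : ℚ) (y : Fin r → ℚ) :
    ((qf q l c y : ℚ) : ℝ) = qf (fun j k => (q j k : ℝ)) (fun j => (l j : ℝ)) (c : ℝ)
      (fun j => (y j : ℝ)) := by
  have := qf_map (Rat.castHom ℝ) q l c y
  simpa using this

lemma qa_cast (q : Fin r → Fin r → ℚ) (y : Fin r → ℚ) :
    ((qa q y : ℚ) : ℝ) = qa (fun j k => (q j k : ℝ)) (fun j => (y j : ℝ)) := by
  have := qa_map (Rat.castHom ℝ) q y
  simpa using this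

lemma qb_cast (q : Fin r → Fin r → ℚ) (l : Fin r → ℚ) (y v : Fin r → ℚ) :
    ((qb q l y v : ℚ) : ℝ) = qb (fun j k => (q j k : ℝ)) (fun j => (l j : ℝ))
      (fun j => (y j : ℝ)) (fun j => (v j : ℝ)) := by
  have := qb_map (Rat.castHom ℝ) q l y v
  simpa using this

lemma qf_cont (q : Fin r → Fin r → ℝ) (l : Fin r → ℝ) (c : ℝ) : Continuous (qf q l c) := by
  unfold qf; fun_prop

lemma qa_cont (q : Fin r → Fin r → ℝ) : Continuous (qa q) := by
  unfold qa; fun_prop

lemma qb_cont (q : Fin r → Fin r → ℝ) (l : Fin r → ℝ) :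
    Continuous (fun p : (Fin r → ℝ) × (Fin r → ℝ) => qb q l p.1 p.2) := by
  unfold qb; fun_prop

/-- a nonempty open set of real vectors contains a rational vector -/
lemma exists_ratvec {U : Set (Fin r → ℝ)} (hU : IsOpen U) (hne : U.Nonempty) :
    ∃ v : Fin r → ℚ, (fun j => (v j : ℝ)) ∈ U := by
  have h1 : DenseRange (Pi.map fun _ : Fin r => ((↑) : ℚ → ℝ)) :=
    DenseRange.piMap fun _ => Rat.denseRange_cast
  obtain ⟨x, hx, v, rfl⟩ := (h1.inter_open_nonempty U hU hne)
  exact ⟨v, hx⟩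

/-- rational points of quadrics are dense in one half -/
lemma qdens {q : Fin r → Fin r → ℚ} {l : Fin r → ℚ} {c : ℚ} {y0 : Fin r → ℚ} {w0 : ℚ} (hw0 : w0 ≠ 0)
    (h0 : w0 ^ 2 = qf q l c y0) {U : Set (Fin r → ℝ)} (hU : IsOpen U) {u : Fin r → ℝ} (hu : u ∈ U)
    (hpos : 0 < qf (fun j k => (q j k : ℝ)) (fun j => (l j : ℝ)) (c : ℝ) u) :
    ∃ y : Fin r → ℚ, (fun j => (y j : ℝ)) ∈ U ∧ ∃ w : ℚ, w ≠ 0 ∧ w ^ 2 = qf q l c y := by
  set f := qf (fun j k => (q j k : ℝ)) (fun j => (l j : ℝ)) (c : ℝ) with hf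
  have hfc : Continuous f := qf_cont _ _ _
  have hU' : IsOpen (U ∩ {y | 0 < f y}) := hU.inter (isOpen_lt continuous_const hfc)
  obtain ⟨z, hz⟩ := exists_ratvec hU' ⟨u, hu, hpos⟩
  set v : Fin r → ℚ := fun j => z j - y0 j with hv
  have hline : ∀ s : ℚ, qf q l c (fun j => y0 j + s * v j) = w0 ^ 2 + qb q l y0 v * s + qa q v * s ^ 2 := by
    intro s
    rw [qf_line, ← h0]
    ring
  have h1z : (fun j => y0 j + 1 * v j) = z := by funext j; simp [hv]
  have hx1 : (1 : ℝ) ∈ rc {t : ℚ | ∃ w : ℚ, w ^ 2 = w0 ^ 2 + qb q l y0 v * t + qa q v * t ^ 2} := by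
    refine conic_den hw0 one_ne_zero ?_
    have h2 := hline 1
    rw [h1z] at h2
    have h3 : 0 < ((qf q l c z : ℚ) : ℝ) := by rw [qf_cast]; exact hz.2
    rw [h2] at h3
    push_cast at h3
    simpa using h3
  -- the preimage of the open set under the line
  have hcl : Continuous fun s : ℝ => (fun j => (y0 j : ℝ) + s * (v j : ℝ)) := by fun_prop
  have hO : IsOpen ((fun s : ℝ => (fun j => (y0 j : ℝ) + s * (v j : ℝ))) ⁻¹' (U ∩ {y | 0 < f y})) :=
    hU'.preimage hcl
  have h1O : (1 : ℝ) ∈ ((fun s : ℝ => (fun j => (y0 j : ℝ) + s * (v j : ℝ))) ⁻¹' (U ∩ {y | 0 < f y})) := by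
    have : (fun j => (y0 j : ℝ) + 1 * (v j : ℝ)) = fun j => (z j : ℝ) := by
      funext j; simp [hv]
    rw [mem_preimage, this]
    exact hz
  obtain ⟨_, hs, s, ⟨w, hw⟩, rfl⟩ := mem_closure_iff.mp hx1 _ hO h1O
  refine ⟨fun j => y0 j + s * v j, ?_, w, ?_, ?_⟩
  · have := hs.1
    simpa using this
  · rintro rfl
    have h4 : 0 < f (fun j => ((y0 j + s * v j : ℚ) : ℝ)) := by
      have := hs.2
      simpa using this
    rw [hf, ← qf_cast, hline, ← hw] at h4
    norm_num at h4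
  · rw [hline, hw]

end dens

/-- Families of quadratic polynomials in `y₁, …, y_r`, with coefficients polynomials in
`x₁, …, x_m`: `∑ Q_{jk}(x) y_j y_k + ∑ L_j(x) y_j + C(x)`. -/
structure Fam (m r : ℕ) where
  Q : Fin r → Fin r → MvPolynomial (Fin m) ℚ
  L : Fin r → MvPolynomial (Fin m) ℚ
  C : MvPolynomial (Fin m) ℚ

namespace Fam

variable {m r : ℕ}

/-- specialized quadratic coefficients -/
noncomputable def q (F : Fam m r) (x : Fin m → ℚ) : Fin r → Fin r → ℚ := fun j k => MvPolynomial.eval x (F.Q j k)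
noncomputable def l (F : Fam m r) (x : Fin m → ℚ) : Fin r → ℚ := fun j => MvPolynomial.eval x (F.L j)
noncomputable def c (F : Fam m r) (x : Fin m → ℚ) : ℚ := MvPolynomial.eval x F.C

/-- partial derivatives -/
noncomputable def d (F : Fam m r) (i : Fin m) : Fam m r where
  Q := fun j k => MvPolynomial.pderiv i (F.Q j k)
  L := fun j => MvPolynomial.pderiv i (F.L j)
  C := MvPolynomial.pderiv i F.C

/-- the value -/
noncomputable def val (F : Fam m r) (x : Fin m → ℚ) (y : Fin r → ℚ) : ℚ := qf (F.q x) (F.l x) (F.c x) y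

/-- the real value -/
noncomputable def rval (F : Fam m r) (x : Fin m → ℝ) (y : Fin r → ℝ) : ℝ :=
  qf (fun j k => MvPolynomial.aeval x (F.Q j k)) (fun j => MvPolynomial.aeval x (F.L j))
    (MvPolynomial.aeval x F.C) y

/-- degree at most four in each variable -/
def Deg4 (F : Fam m r) : Prop := ∀ i, (∀ j k, (F.Q j k).degreeOf i ≤ 4) ∧ (∀ j, (F.L j).degreeOf i ≤ 4) ∧
  F.C.degreeOf i ≤ 4

/-- nondegeneracy at a point, in a coordinate direction, on a line -/
def GoodLine (F : Fam m r) (a : Fin m → ℚ) (i : Fin m) (y v : Fin r → ℚ) : Prop :=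
  qa (F.q a) v ≠ 0 ∧ qb (F.q a) (F.l a) y v ^ 2 - 4 * qa (F.q a) v * F.val a y ≠ 0 ∧
    ¬ (qa (F.q a) v * qb ((F.d i).q a) ((F.d i).l a) y v =
        qa ((F.d i).q a) v * qb (F.q a) (F.l a) y v ∧
      qa (F.q a) v * (F.d i).val a y = qa ((F.d i).q a) v * F.val a y)

/-- nondegenerate parameters -/
def Good (F : Fam m r) (a : Fin m → ℚ) : Prop := ∀ i, ∃ y v, F.GoodLine a i y v

lemma rval_cast (F : Fam m r) (x : Fin m → ℚ) (y : Fin r → ℚ) :
    F.rval (fun i => (x i : ℝ)) (fun j => (y j : ℝ)) = ((F.val x y : ℚ) : ℝ) := by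
  have hc : ∀ P : MvPolynomial (Fin m) ℚ, (MvPolynomial.aeval (fun i => (x i : ℝ)) P : ℝ) =
      ((MvPolynomial.eval x P : ℚ) : ℝ) := by
    intro p
    induction p using MvPolynomial.induction_on with
    | C a => simp
    | add p q hp hq => simp [hp, hq]
    | mul_X p i hp => simp [hp]
  rw [Fam.val, qf_cast, Fam.rval]
  simp only [hc]
  rfl

/-- the restriction to a line, as polynomials in one parameter -/
noncomputable def al (F : Fam m r) (a : Fin m → ℚ) (i : Fin m) (v : Fin r → ℚ) : ℚ[X] :=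
  qa (fun j k => sp a i (F.Q j k)) (fun j => Polynomial.C (v j))
noncomputable def be (F : Fam m r) (a : Fin m → ℚ) (i : Fin m) (y v : Fin r → ℚ) : ℚ[X] :=
  qb (fun j k => sp a i (F.Q j k)) (fun j => sp a i (F.L j)) (fun j => Polynomial.C (y j))
    (fun j => Polynomial.C (v j))
noncomputable def ga (F : Fam m r) (a : Fin m → ℚ) (i : Fin m) (y : Fin r → ℚ) : ℚ[X] :=
  qf (fun j k => sp a i (F.Q j k)) (fun j => sp a i (F.L j)) (sp a i F.C) (fun j => Polynomial.C (y j))

lemma al_eval (F : Fam m r) (a : Fin m → ℚ) (i : Fin m) (v : Fin r → ℚ) (t : ℚ) :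
    (F.al a i v).eval t = qa (F.q (Function.update a i t)) v := by
  have := qa_map (Polynomial.evalRingHom t) (fun j k => sp a i (F.Q j k)) (fun j => Polynomial.C (v j))
  simp only [coe_evalRingHom, eval_C, sp_eval] at this
  exact this

lemma be_eval (F : Fam m r) (a : Fin m → ℚ) (i : Fin m) (y v : Fin r → ℚ) (t : ℚ) :
    (F.be a i y v).eval t = qb (F.q (Function.update a i t)) (F.l (Function.update a i t)) y v := by
  have := qb_map (Polynomial.evalRingHom t) (fun j k => sp a i (F.Q j k)) (fun j => sp a i (F.L j))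
    (fun j => Polynomial.C (y j)) (fun j => Polynomial.C (v j))
  simp only [coe_evalRingHom, eval_C, sp_eval] at this
  exact this

lemma ga_eval (F : Fam m r) (a : Fin m → ℚ) (i : Fin m) (y : Fin r → ℚ) (t : ℚ) :
    (F.ga a i y).eval t = F.val (Function.update a i t) y := by
  have := qf_map (Polynomial.evalRingHom t) (fun j k => sp a i (F.Q j k)) (fun j => sp a i (F.L j))
    (sp a i F.C) (fun j => Polynomial.C (y j))
  simp only [coe_evalRingHom, eval_C, sp_eval] at this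
  exact this

lemma val_line (F : Fam m r) (a : Fin m → ℚ) (i : Fin m) (y v : Fin r → ℚ) (t s : ℚ) :
    F.val (Function.update a i t) (fun j => y j + s * v j) =
      (F.al a i v).eval t * s ^ 2 + (F.be a i y v).eval t * s + (F.ga a i y).eval t := by
  rw [Fam.val, qf_line, al_eval, be_eval, ga_eval]
  rfl

lemma al_deriv (F : Fam m r) (a : Fin m → ℚ) (i : Fin m) (v : Fin r → ℚ) :
    derivative (F.al a i v) = (F.d i).al a i v := by
  simp only [al, qa, derivative_sum, derivative_mul, derivative_C, mul_zero, add_zero, sp_deriv]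
  rfl

lemma be_deriv (F : Fam m r) (a : Fin m → ℚ) (i : Fin m) (y v : Fin r → ℚ) :
    derivative (F.be a i y v) = (F.d i).be a i y v := by
  simp only [be, qb, derivative_add, derivative_sum, derivative_mul, derivative_C, mul_zero,
    add_zero, zero_mul, sp_deriv]
  rfl

lemma ga_deriv (F : Fam m r) (a : Fin m → ℚ) (i : Fin m) (y : Fin r → ℚ) :
    derivative (F.ga a i y) = (F.d i).ga a i y := by
  simp only [ga, qf, derivative_add, derivative_sum, derivative_mul, derivative_C, mul_zero,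
    add_zero, sp_deriv]
  rfl

lemma natDegree_bd {P : ℚ[X]} (hP : P.natDegree ≤ 4) (u : ℚ) : (P * Polynomial.C u).natDegree ≤ 4 :=
  (natDegree_mul_C_le _ _).trans hP

lemma al_deg {F : Fam m r} (hF : F.Deg4) (a : Fin m → ℚ) (i : Fin m) (v : Fin r → ℚ) :
    (F.al a i v).natDegree ≤ 4 := by
  unfold al qa
  refine natDegree_sum_le_of_forall_le _ _ fun j _ => natDegree_sum_le_of_forall_le _ _ fun k _ => ?_
  exact natDegree_bd (natDegree_bd ((sp_natDegree a i _).trans ((hF i).1 j k)) _) _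

lemma be_deg {F : Fam m r} (hF : F.Deg4) (a : Fin m → ℚ) (i : Fin m) (y v : Fin r → ℚ) :
    (F.be a i y v).natDegree ≤ 4 := by
  unfold be qb
  refine natDegree_add_le_of_degree_le ?_ ?_
  · refine natDegree_sum_le_of_forall_le _ _ fun j _ => natDegree_sum_le_of_forall_le _ _ fun k _ => ?_
    rw [← C_mul, ← C_mul, ← C_add]
    exact natDegree_bd ((sp_natDegree a i _).trans ((hF i).1 j k)) _
  · refine natDegree_sum_le_of_forall_le _ _ fun j _ => ?_
    exact natDegree_bd ((sp_natDegree a i _).trans ((hF i).2.1 j)) _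

lemma ga_deg {F : Fam m r} (hF : F.Deg4) (a : Fin m → ℚ) (i : Fin m) (y : Fin r → ℚ) :
    (F.ga a i y).natDegree ≤ 4 := by
  unfold ga qf
  refine natDegree_add_le_of_degree_le (natDegree_add_le_of_degree_le ?_ ?_) ?_
  · refine natDegree_sum_le_of_forall_le _ _ fun j _ => natDegree_sum_le_of_forall_le _ _ fun k _ => ?_
    exact natDegree_bd (natDegree_bd ((sp_natDegree a i _).trans ((hF i).1 j k)) _) _
  · refine natDegree_sum_le_of_forall_le _ _ fun j _ => ?_
    exact natDegree_bd ((sp_natDegree a i _).trans ((hF i).2.1 j)) _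
  · exact (sp_natDegree a i _).trans (hF i).2.2

/-- the discriminating expression of a line -/
def lineP {K : Type*} [CommRing K] (q q' : Fin r → Fin r → K) (l l' : Fin r → K) (c c' : K)
    (y v : Fin r → K) : K :=
  qa q v * (qb q l y v ^ 2 - 4 * qa q v * qf q l c y) *
    ((qa q v * qb q' l' y v - qa q' v * qb q l y v) ^ 2 +
      (qa q v * qf q' l' c' y - qa q' v * qf q l c y) ^ 2)

lemma lineP_map {K K' : Type*} [CommRing K] [CommRing K'] (φ : K →+* K') (q q' : Fin r → Fin r → K)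
    (l l' : Fin r → K) (c c' : K) (y v : Fin r → K) :
    φ (lineP q q' l l' c c' y v) = lineP (fun j k => φ (q j k)) (fun j k => φ (q' j k))
      (fun j => φ (l j)) (fun j => φ (l' j)) (φ c) (φ c') (fun j => φ (y j)) (fun j => φ (v j)) := by
  simp only [lineP, map_mul, map_add, map_sub, map_pow, qa_map, qb_map, qf_map, map_ofNat]

lemma goodLine_iff {F : Fam m r} {a : Fin m → ℚ} {i : Fin m} {y v : Fin r → ℚ} :
    F.GoodLine a i y v ↔ lineP (F.q a) ((F.d i).q a) (F.l a) ((F.d i).l a) (F.c a) ((F.d i).c a) y v ≠ 0 := by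
  unfold GoodLine lineP Fam.val
  constructor
  · rintro ⟨h1, h2, h3⟩
    refine mul_ne_zero (mul_ne_zero h1 h2) ?_
    intro h4
    apply h3
    have h5 := sq_nonneg (qa (F.q a) v * qb ((F.d i).q a) ((F.d i).l a) y v -
      qa ((F.d i).q a) v * qb (F.q a) (F.l a) y v)
    have h6 := sq_nonneg (qa (F.q a) v * qf ((F.d i).q a) ((F.d i).l a) ((F.d i).c a) y -
      qa ((F.d i).q a) v * qf (F.q a) (F.l a) (F.c a) y)
    constructor
    · have : qa (F.q a) v * qb ((F.d i).q a) ((F.d i).l a) y v -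
        qa ((F.d i).q a) v * qb (F.q a) (F.l a) y v = 0 :=
        pow_eq_zero_iff (two_ne_zero) |>.mp (by linarith)
      linarith
    · have : qa (F.q a) v * qf ((F.d i).q a) ((F.d i).l a) ((F.d i).c a) y -
        qa ((F.d i).q a) v * qf (F.q a) (F.l a) (F.c a) y = 0 :=
        pow_eq_zero_iff (two_ne_zero) |>.mp (by linarith)
      linarith
  · intro h
    refine ⟨?_, ?_, ?_⟩
    · intro h0; apply h; rw [h0]; ring
    · intro h0; apply h; rw [h0]; ring
    · rintro ⟨h1, h2⟩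
      apply h
      rw [h1, h2]
      ring

/-- **Key lemma for families.** -/
theorem key {F : Fam m r} (hF : F.Deg4) {a : Fin m → ℚ} {i : Fin m} (hG : ∃ y v, F.GoodLine a i y v)
    {y0 : Fin r → ℚ} {w0 : ℚ} (hw0 : w0 ≠ 0) (h0 : w0 ^ 2 = F.val a y0) {U : Set (Fin r → ℝ)}
    (hU : IsOpen U) {u : Fin r → ℝ} (hu : u ∈ U) (hpos : 0 < F.rval (fun i => (a i : ℝ)) u) :
    ∃ y : Fin r → ℚ, (fun j => (y j : ℝ)) ∈ U ∧ (∃ w : ℚ, w ≠ 0 ∧ w ^ 2 = F.val a y) ∧
      {t : ℚ | ∃ w : ℚ, w ^ 2 = F.val (Function.update a i t) y}.Infinite := by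
  obtain ⟨yg, vg, hg⟩ := hG
  rw [goodLine_iff] at hg
  set qR : Fin r → Fin r → ℝ := fun j k => (F.q a j k : ℝ) with hqR
  set lR : Fin r → ℝ := fun j => (F.l a j : ℝ) with hlR
  set cR : ℝ := (F.c a : ℝ) with hcR
  set qR' : Fin r → Fin r → ℝ := fun j k => ((F.d i).q a j k : ℝ) with hqR'
  set lR' : Fin r → ℝ := fun j => ((F.d i).l a j : ℝ) with hlR'
  set cR' : ℝ := ((F.d i).c a : ℝ) with hcR'
  have hrv : ∀ y : Fin r → ℝ, F.rval (fun i => (a i : ℝ)) y = qf qR lR cR y := by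
    intro y
    have hc : ∀ P : MvPolynomial (Fin m) ℚ, (MvPolynomial.aeval (fun i => (a i : ℝ)) P : ℝ) =
      ((MvPolynomial.eval a P : ℚ) : ℝ) := by
      intro p
      induction p using MvPolynomial.induction_on with
      | C a => simp
      | add p q hp hq => simp [hp, hq]
      | mul_X p i hp => simp [hp]
    simp only [Fam.rval, hc]
    rfl
  rw [hrv] at hpos
  have hfc : Continuous (qf qR lR cR) := qf_cont _ _ _
  have hU' : IsOpen (U ∩ {y | 0 < qf qR lR cR y}) := hU.inter (isOpen_lt continuous_const hfc)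
  -- the set of good pairs
  set G : Set ((Fin r → ℝ) × (Fin r → ℝ)) :=
    {p | lineP qR qR' lR lR' cR cR' p.1 (fun j => p.2 j - p.1 j) ≠ 0} with hGdef
  have hGo : IsOpen G := by
    have : Continuous fun p : (Fin r → ℝ) × (Fin r → ℝ) =>
        lineP qR qR' lR lR' cR cR' p.1 (fun j => p.2 j - p.1 j) := by
      unfold lineP qa qb qf
      fun_prop
    exact isOpen_ne_fun this continuous_const
  -- a polynomial along a segment
  let d1 : Fin r → ℝ := fun j => (yg j : ℝ) - u j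
  let d2 : Fin r → ℝ := fun j => (yg j : ℝ) + (vg j : ℝ) - u j
  let P : ℝ[X] := lineP (fun j k => Polynomial.C (qR j k)) (fun j k => Polynomial.C (qR' j k))
    (fun j => Polynomial.C (lR j)) (fun j => Polynomial.C (lR' j)) (Polynomial.C cR) (Polynomial.C cR')
    (fun j => Polynomial.C (u j) + X * Polynomial.C (d1 j))
    (fun j => (Polynomial.C (u j) + X * Polynomial.C (d2 j)) - (Polynomial.C (u j) + X * Polynomial.C (d1 j)))
  have hPe : ∀ τ : ℝ, P.eval τ = lineP qR qR' lR lR' cR cR' (fun j => u j + τ * d1 j)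
      (fun j => (u j + τ * d2 j) - (u j + τ * d1 j)) := by
    intro τ
    have := lineP_map (Polynomial.evalRingHom τ) (fun j k => Polynomial.C (qR j k)) (fun j k => Polynomial.C (qR' j k))
      (fun j => Polynomial.C (lR j)) (fun j => Polynomial.C (lR' j)) (Polynomial.C cR) (Polynomial.C cR')
      (fun j => Polynomial.C (u j) + X * Polynomial.C (d1 j))
      (fun j => (Polynomial.C (u j) + X * Polynomial.C (d2 j)) - (Polynomial.C (u j) + X * Polynomial.C (d1 j)))
    simp only [coe_evalRingHom, eval_C, eval_add, eval_sub, eval_mul, eval_X] at this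
    exact this
  have hP1 : P.eval 1 ≠ 0 := by
    rw [hPe]
    have e1 : (fun j => u j + 1 * d1 j) = fun j => (yg j : ℝ) := by funext j; simp [d1]
    have e2 : (fun j => (u j + 1 * d2 j) - (u j + 1 * d1 j)) = fun j => (vg j : ℝ) := by
      funext j; simp only [d1, d2]; ring
    rw [e1, e2]
    have := lineP_map (Rat.castHom ℝ) (F.q a) ((F.d i).q a) (F.l a) ((F.d i).l a) (F.c a) ((F.d i).c a) yg vg
    simp only [eq_ratCast] at this
    rw [hqR, hqR', hlR, hlR', hcR, hcR', ← this]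
    exact_mod_cast hg
  have hP0 : P ≠ 0 := by
    intro h
    rw [h] at hP1
    simp at hP1
  have hev : ∀ᶠ τ in 𝓝[≠] (0 : ℝ), P.eval τ ≠ 0 := by
    have hf : {τ : ℝ | P.eval τ = 0}.Finite := by
      by_contra hc
      exact hP0 (Polynomial.eq_zero_of_infinite_isRoot P hc)
    have h1 := (hf.subset (t := {τ : ℝ | P.eval τ = 0} \ {0}) sdiff_subset).isClosed.isOpen_compl
    have h2 : (0 : ℝ) ∈ ({τ : ℝ | P.eval τ = 0} \ {0})ᶜ := by simp
    have h3 := h1.mem_nhds h2
    filter_upwards [nhdsWithin_le_nhds h3, self_mem_nhdsWithin] with τ h4 h5 h6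
    exact h4 ⟨h6, h5⟩
  have hcu : ∀ d : Fin r → ℝ, ∀ᶠ τ in 𝓝 (0 : ℝ), (fun j => u j + τ * d j) ∈ U ∩ {y | 0 < qf qR lR cR y} := by
    intro d
    have hc : Continuous fun τ : ℝ => (fun j => u j + τ * d j) := by fun_prop
    have : Tendsto (fun τ : ℝ => (fun j => u j + τ * d j)) (𝓝 0) (𝓝 u) := by
      have := hc.tendsto 0
      simpa using this
    exact this (hU'.mem_nhds ⟨hu, hpos⟩)
  obtain ⟨τ, hτ0, hτ1, hτ2⟩ := (hev.and (((hcu d1).and (hcu d2)).filter_mono nhdsWithin_le_nhds)).exists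
  -- rational approximation of the pair
  set p1 : Fin r → ℝ := fun j => u j + τ * d1 j with hp1
  set p2 : Fin r → ℝ := fun j => u j + τ * d2 j with hp2
  have hpG : (p1, p2) ∈ G := by
    rw [hGdef, Set.mem_ofPred_eq, ← hPe τ]
    exact hτ0
  have hnG := hGo.mem_nhds hpG
  rw [nhds_prod_eq, Filter.mem_prod_iff] at hnG
  obtain ⟨N1, hN1, N2, hN2, hN⟩ := hnG
  obtain ⟨O1, hO1, hO1o, hp1O⟩ := mem_nhds_iff.mp hN1
  obtain ⟨O2, hO2, hO2o, hp2O⟩ := mem_nhds_iff.mp hN2
  obtain ⟨ya, hya, wa, hwa, hwa'⟩ := qdens hw0 h0 (hO1o.inter hU') (u := p1) ⟨hp1O, hτ1⟩ hτ1.2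
  obtain ⟨z, hz⟩ := exists_ratvec (hO2o.inter hU') ⟨p2, hp2O, hτ2⟩
  set v : Fin r → ℚ := fun j => z j - ya j with hv
  have hline : F.GoodLine a i ya v := by
    rw [goodLine_iff]
    have h1 : ((fun j => (ya j : ℝ)), (fun j => (z j : ℝ))) ∈ G := hN ⟨hO1 hya.1, hO2 hz.1⟩
    rw [hGdef, Set.mem_ofPred_eq] at h1
    intro h2
    apply h1
    have := lineP_map (Rat.castHom ℝ) (F.q a) ((F.d i).q a) (F.l a) ((F.d i).l a) (F.c a) ((F.d i).c a) ya v
    simp only [eq_ratCast, hv] at this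
    push_cast at this
    rw [← this]
    rw [hv] at h2
    rw [h2]
    simp
  -- apply the one-parameter lemma
  obtain ⟨g1, g2, g3⟩ := hline
  have hup : Function.update a i (a i) = a := Function.update_eq_self i a
  have hA : (F.al a i v).eval (a i) ≠ 0 := by rw [al_eval, hup]; exact g1
  have hD : (F.be a i ya v).eval (a i) ^ 2 - 4 * (F.al a i v).eval (a i) * (F.ga a i ya).eval (a i) ≠ 0 := by
    rw [al_eval, be_eval, ga_eval, hup]; exact g2
  have hrk : ¬ ((F.al a i v).eval (a i) * (derivative (F.be a i ya v)).eval (a i) =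
        (derivative (F.al a i v)).eval (a i) * (F.be a i ya v).eval (a i) ∧
      (F.al a i v).eval (a i) * (derivative (F.ga a i ya)).eval (a i) =
        (derivative (F.al a i v)).eval (a i) * (F.ga a i ya).eval (a i)) := by
    rw [al_deriv, be_deriv, ga_deriv, al_eval, be_eval, ga_eval, al_eval, be_eval, ga_eval, hup]
    exact g3
  have hval0 : wa ^ 2 = (F.al a i v).eval (a i) * 0 ^ 2 + (F.be a i ya v).eval (a i) * 0 +
      (F.ga a i ya).eval (a i) := by
    rw [ga_eval, hup]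
    rw [hwa']
    simp [Fam.val]
  have hvalR : ∀ s : ℚ, F.val a (fun j => ya j + s * v j) = (F.al a i v).eval (a i) * s ^ 2 +
      (F.be a i ya v).eval (a i) * s + (F.ga a i ya).eval (a i) := by
    intro s
    have := F.val_line a i ya v (a i) s
    rw [hup] at this
    exact this
  have hpos1 : 0 < (((F.al a i v).eval (a i) : ℚ) : ℝ) * 1 ^ 2 +
      (((F.be a i ya v).eval (a i) : ℚ) : ℝ) * 1 + (((F.ga a i ya).eval (a i) : ℚ) : ℝ) := by
    have h1 := hvalR 1
    have h2 : (fun j => ya j + 1 * v j) = z := by funext j; simp [hv]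
    rw [h2] at h1
    have h3 : 0 < ((F.val a z : ℚ) : ℝ) := by
      rw [← rval_cast, hrv]; exact hz.2.2
    rw [h1] at h3
    push_cast at h3
    simpa using h3
  -- the open set of the line parameters
  have hcl : Continuous fun s : ℝ => (fun j => (ya j : ℝ) + s * (v j : ℝ)) := by fun_prop
  have hO : IsOpen ((fun s : ℝ => (fun j => (ya j : ℝ) + s * (v j : ℝ))) ⁻¹' U) := hU.preimage hcl
  have h1O : (1 : ℝ) ∈ ((fun s : ℝ => (fun j => (ya j : ℝ) + s * (v j : ℝ))) ⁻¹' U) := by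
    have : (fun j => (ya j : ℝ) + 1 * (v j : ℝ)) = fun j => (z j : ℝ) := by
      funext j; simp [hv]
    rw [mem_preimage, this]
    exact hz.2.1
  obtain ⟨ε, hε, hball⟩ := Metric.isOpen_iff.mp hO 1 h1O
  obtain ⟨s, hs, ⟨w1, hw1, hw1'⟩, hinf⟩ := keyP (al_deg hF a i v) (be_deg hF a i ya v) (ga_deg hF a i ya)
    hA hD hrk hwa hval0 (yR := 1) hpos1 hε
  refine ⟨fun j => ya j + s * v j, ?_, ⟨w1, hw1, ?_⟩, ?_⟩
  · have : (s : ℝ) ∈ Metric.ball (1 : ℝ) ε := by rw [Metric.mem_ball, Real.dist_eq]; exact hs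
    have := hball this
    simpa using this
  · rw [hvalR, hw1']
  · refine hinf.mono ?_
    rintro t ⟨w, hw⟩
    exact ⟨w, by rw [val_line, hw]⟩

end Fam

end Pool.Agent.Y718
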