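import Pool.Agent.Y718.CD

/-!
# Restrictions of polynomials to lines parallel to the axes: degrees, integrality
-/

set_option autoImplicit false
set_option linter.unusedSectionVars false
set_option linter.unusedVariables false

open Filter Topology Pool.Agent.Y720.MZ

namespace Pool.Agent.Y718.X

section alg

variable {K : Type*} [Field K] {n : ℕ}

/-- the restriction of `f` to the line through `z` with direction `u` -/
noncomputable def lk (f : MvPolynomial (Fin n) K) (z u : Fin n → K) : Polynomial K :=
  MvPolynomial.aeval (fun k => Polynomial.C (z k) + Polynomial.C (u k) * Polynomial.X) f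

lemma lk_eval (f : MvPolynomial (Fin n) K) (z u : Fin n → K) (t : K) :
    (lk f z u).eval t = MvPolynomial.eval (z + t • u) f := by
  unfold lk
  induction f using MvPolynomial.induction_on with
  | C c => simp
  | add p q hp hq => simp only [map_add, Polynomial.eval_add, hp, hq]
  | mul_X p j hp =>
    simp only [map_mul, Polynomial.eval_mul, hp, MvPolynomial.aeval_X, MvPolynomial.eval_X,
      Polynomial.eval_add, Polynomial.eval_C, Polynomial.eval_X, Pi.add_apply, Pi.smul_apply,
      smul_eq_mul]
    ring

lemma lk_zero (f : MvPolynomial (Fin n) K) (z u : Fin n → K) :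
    (lk f z u).coeff 0 = MvPolynomial.eval z f := by
  rw [Polynomial.coeff_zero_eq_eval_zero, lk_eval, zero_smul, add_zero]

lemma lk_eval₂ (σ : K →+* ℝ) (f : MvPolynomial (Fin n) K) (z u : Fin n → K) (t : ℝ) :
    (lk f z u).eval₂ σ t = MvPolynomial.eval₂ σ (fun k => σ (z k) + t * σ (u k)) f := by
  unfold lk
  induction f using MvPolynomial.induction_on with
  | C c => simp
  | add p q hp hq => simp only [map_add, Polynomial.eval₂_add, MvPolynomial.eval₂_add, hp, hq]
  | mul_X p j hp =>
    simp only [map_mul, Polynomial.eval₂_mul, hp, MvPolynomial.aeval_X, MvPolynomial.eval₂_X,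
      MvPolynomial.eval₂_mul, Polynomial.eval₂_add, Polynomial.eval₂_C, Polynomial.eval₂_X]
    ring

/-- the restriction to a line, with a moving base point -/
noncomputable def lkk (f : MvPolynomial (Fin n) K) (z u u' : Fin n → K) :
    Polynomial (Polynomial K) :=
  MvPolynomial.aeval (fun k => Polynomial.C (Polynomial.C (z k) + Polynomial.C (u k) * Polynomial.X)
    + Polynomial.C (Polynomial.C (u' k)) * Polynomial.X) f

lemma lkk_map (f : MvPolynomial (Fin n) K) (z u u' : Fin n → K) (r : K) :
    (lkk f z u u').map (Polynomial.evalRingHom r) = lk f (z + r • u) u' := by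
  unfold lkk lk
  induction f using MvPolynomial.induction_on with
  | C c => simp
  | add p q hp hq => rw [map_add, Polynomial.map_add, hp, hq, map_add]
  | mul_X p j hp =>
    rw [map_mul, Polynomial.map_mul, hp, map_mul, MvPolynomial.aeval_X, MvPolynomial.aeval_X]
    congr 1
    simp only [Polynomial.map_add, Polynomial.map_mul,
      Polynomial.map_C, Polynomial.map_X, Pi.add_apply, Pi.smul_apply, smul_eq_mul,
      Polynomial.coe_evalRingHom, Polynomial.eval_add, Polynomial.eval_C, Polynomial.eval_mul,
      Polynomial.eval_X, map_add]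
    ring_nf

lemma lkk_coeff (f : MvPolynomial (Fin n) K) (z u u' : Fin n → K) (r : K) (k : ℕ) :
    ((lkk f z u u').coeff k).eval r = (lk f (z + r • u) u').coeff k := by
  rw [← lkk_map, Polynomial.coeff_map, Polynomial.coe_evalRingHom]

lemma lk_natDegree (f : MvPolynomial (Fin n) K) (z : Fin n → K) (i : Fin n) :
    (lk f z (Pi.single i 1)).natDegree ≤ f.degreeOf i := by
  classical
  unfold lk
  rw [MvPolynomial.aeval_def, MvPolynomial.eval₂_eq']
  refine Polynomial.natDegree_sum_le_of_forall_le _ _ fun d hd => ?_
  refine (Polynomial.natDegree_C_mul_le _ _).trans ?_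
  refine (Polynomial.natDegree_prod_le _ _).trans ?_
  have h1 : ∀ l ∈ (Finset.univ : Finset (Fin n)), ((Polynomial.C (z l) +
      Polynomial.C ((Pi.single i 1 : Fin n → K) l) * Polynomial.X) ^ d l).natDegree ≤
      if l = i then d i else 0 := by
    intro l _
    refine Polynomial.natDegree_pow_le.trans ?_
    by_cases h : l = i
    · subst h
      rw [if_pos rfl]
      calc d l * _ ≤ d l * 1 := by
            gcongr
            rw [Pi.single_eq_same, map_one, one_mul]
            rw [add_comm]
            exact Polynomial.natDegree_X_add_C (z l) |>.le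
        _ = d l := mul_one _
    · rw [if_neg h, Pi.single_eq_of_ne h, map_zero, zero_mul, add_zero, Polynomial.natDegree_C,
        mul_zero]
  refine (Finset.sum_le_sum h1).trans ?_
  rw [Finset.sum_ite_eq' Finset.univ i (fun _ => d i), if_pos (Finset.mem_univ _)]
  rw [MvPolynomial.degreeOf_eq_sup]
  exact Finset.le_sup (f := fun m : Fin n →₀ ℕ => m i) hd

end alg

section int

variable {K : Type*} [Field K] [DecidableEq K] {v : AbsoluteValue K ℝ} {n : ℕ}

/-- functions which respect integrality and congruences -/
def IC (v : AbsoluteValue K ℝ) (F : (Fin n → K) → K) : Prop :=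
  (∀ z, (∀ i, v (z i) ≤ 1) → v (F z) ≤ 1) ∧
  ∀ z z', (∀ i, v (z i) ≤ 1) → (∀ i, v (z' i) ≤ 1) → (∀ i, v (z i - z' i) < 1) →
    v (F z - F z') < 1

lemma IC.const (c : K) (hc : v c ≤ 1) : IC v (fun _ : Fin n → K => c) :=
  ⟨fun _ _ => hc, fun _ _ _ _ _ => by rw [sub_self, map_zero]; exact one_pos⟩

lemma IC.coord (i : Fin n) : IC v (fun z : Fin n → K => z i) :=
  ⟨fun z hz => hz i, fun z z' _ _ h => h i⟩

lemma IC.add (hv : IsNonarchimedean v) {F G : (Fin n → K) → K} (hF : IC v F) (hG : IC v G) :
    IC v (fun z => F z + G z) := by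
  refine ⟨fun z hz => na_add hv (hF.1 z hz) (hG.1 z hz), fun z z' hz hz' h => ?_⟩
  have : F z + G z - (F z' + G z') = (F z - F z') + (G z - G z') := by ring
  rw [this]
  exact na_lt hv (hF.2 z z' hz hz' h) (hG.2 z z' hz hz' h)

lemma IC.mul (hv : IsNonarchimedean v) {F G : (Fin n → K) → K} (hF : IC v F) (hG : IC v G) :
    IC v (fun z => F z * G z) := by
  refine ⟨fun z hz => na_mul_le (hF.1 z hz) (hG.1 z hz), fun z z' hz hz' h => ?_⟩
  have : F z * G z - F z' * G z' = F z * (G z - G z') + G z' * (F z - F z') := by ring
  rw [this]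
  exact na_lt hv (na_mul_lt (hF.1 z hz) (hG.2 z z' hz hz' h))
    (na_mul_lt (hG.1 z' hz') (hF.2 z z' hz hz' h))

lemma IC.sub (hv : IsNonarchimedean v) {F G : (Fin n → K) → K} (hF : IC v F) (hG : IC v G) :
    IC v (fun z => F z - G z) := by
  have h := hF.add hv ((IC.const (-1) (by rw [v.map_neg, map_one])).mul hv hG)
  refine cast ?_ h
  congr 1
  funext z
  ring

lemma IC.pow (hv : IsNonarchimedean v) {F : (Fin n → K) → K} (hF : IC v F) (m : ℕ) :
    IC v (fun z => F z ^ m) := by
  induction m with
  | zero =>
    simp only [pow_zero]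
    exact IC.const 1 (by rw [map_one])
  | succ m ih =>
    simp only [pow_succ]
    exact ih.mul hv hF

lemma IC.nat (hv : IsNonarchimedean v) (m : ℕ) : IC v (fun _ : Fin n → K => (m : K)) :=
  IC.const _ (na_nat hv m)

lemma IC.sum (hv : IsNonarchimedean v) {α : Type*} (s : Finset α) {F : α → (Fin n → K) → K}
    (hF : ∀ a ∈ s, IC v (F a)) : IC v (fun z => ∑ a ∈ s, F a z) := by
  classical
  induction s using Finset.induction_on with
  | empty =>
    simp only [Finset.sum_empty]
    exact IC.const 0 (by rw [map_zero]; exact zero_le_one)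
  | insert a s ha ih =>
    simp only [Finset.sum_insert ha]
    exact (hF a (Finset.mem_insert_self _ _)).add hv
      (ih fun b hb => hF b (Finset.mem_insert_of_mem hb))

/-- the same for polynomial valued functions -/
def ICP (v : AbsoluteValue K ℝ) (F : (Fin n → K) → Polynomial K) : Prop :=
  ∀ k, IC v (fun z => (F z).coeff k)

lemma ICP.mul (hv : IsNonarchimedean v) {F G : (Fin n → K) → Polynomial K} (hF : ICP v F)
    (hG : ICP v G) : ICP v (fun z => F z * G z) := by
  intro k
  simp only [Polynomial.coeff_mul]
  exact IC.sum hv _ fun a _ => (hF a.1).mul hv (hG a.2)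

lemma ICP.add (hv : IsNonarchimedean v) {F G : (Fin n → K) → Polynomial K} (hF : ICP v F)
    (hG : ICP v G) : ICP v (fun z => F z + G z) := by
  intro k
  simp only [Polynomial.coeff_add]
  exact (hF k).add hv (hG k)

lemma ICP.C {F : (Fin n → K) → K} (hF : IC v F) : ICP v (fun z => Polynomial.C (F z)) := by
  intro k
  simp only [Polynomial.coeff_C]
  by_cases h : k = 0
  · simp only [if_pos h]; exact hF
  · simp only [if_neg h]; exact IC.const 0 (by rw [map_zero]; exact zero_le_one)

lemma ICP.XX : ICP v (fun _ : Fin n → K => Polynomial.X) := by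
  intro k
  simp only [Polynomial.coeff_X]
  by_cases h : 1 = k
  · simp only [if_pos h]; exact IC.const 1 (by rw [map_one])
  · simp only [if_neg h]; exact IC.const 0 (by rw [map_zero]; exact zero_le_one)

lemma ICP.pow (hv : IsNonarchimedean v) {F : (Fin n → K) → Polynomial K} (hF : ICP v F) (m : ℕ) :
    ICP v (fun z => F z ^ m) := by
  induction m with
  | zero =>
    simp only [pow_zero]
    have := ICP.C (IC.const (n := n) (v := v) 1 (by rw [map_one]))
    simpa only [map_one] using this
  | succ m ih =>
    simp only [pow_succ]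
    exact ih.mul hv hF

lemma ICP.prod (hv : IsNonarchimedean v) {α : Type*} (s : Finset α)
    {F : α → (Fin n → K) → Polynomial K} (hF : ∀ a ∈ s, ICP v (F a)) :
    ICP v (fun z => ∏ a ∈ s, F a z) := by
  classical
  induction s using Finset.induction_on with
  | empty =>
    simp only [Finset.prod_empty]
    have := ICP.C (IC.const (n := n) (v := v) 1 (by rw [map_one]))
    simpa only [map_one] using this
  | insert a s ha ih =>
    simp only [Finset.prod_insert ha]
    exact (hF a (Finset.mem_insert_self _ _)).mul hv
      (ih fun b hb => hF b (Finset.mem_insert_of_mem hb))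

lemma ICP.sum (hv : IsNonarchimedean v) {α : Type*} (s : Finset α)
    {F : α → (Fin n → K) → Polynomial K} (hF : ∀ a ∈ s, ICP v (F a)) :
    ICP v (fun z => ∑ a ∈ s, F a z) := by
  classical
  induction s using Finset.induction_on with
  | empty =>
    simp only [Finset.sum_empty]
    have := ICP.C (IC.const (n := n) (v := v) 0 (by rw [map_zero]; exact zero_le_one))
    simpa only [map_zero] using this
  | insert a s ha ih =>
    simp only [Finset.sum_insert ha]
    exact (hF a (Finset.mem_insert_self _ _)).add hv
      (ih fun b hb => hF b (Finset.mem_insert_of_mem hb))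

/-- the coefficients of the restrictions to the lines of a fixed integral direction -/
theorem lk_ICP (hv : IsNonarchimedean v) {f : MvPolynomial (Fin n) K}
    (hf : ∀ d, v (f.coeff d) ≤ 1) {u : Fin n → K} (hu : ∀ i, v (u i) ≤ 1) :
    ICP v (fun z => lk f z u) := by
  classical
  unfold lk
  simp only [MvPolynomial.aeval_def, MvPolynomial.eval₂_eq']
  refine ICP.sum hv _ fun d _ => ICP.mul hv ?_ (ICP.prod hv _ fun l _ => ICP.pow hv ?_ _)
  · exact ICP.C (IC.const _ (hf d))
  · exact (ICP.C (IC.coord l)).add hv ((ICP.C (IC.const _ (hu l))).mul hv ICP.XX)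

end int

end Pool.Agent.Y718.X
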