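import Pool.Agent.Y718.Quad

/-!
# Linear systems over the line
-/

set_option autoImplicit false
set_option linter.unusedSectionVars false
set_option linter.unusedSimpArgs false

open Set Filter Topology Pool.Agent.H581R2 Pool.Agent.TH729.SQ

namespace Pool.Agent.Y718

/-- rational solutions of a linear system over the line -/
def LinQ {E : Type*} {r : ℕ} (N : E → Fin r → Polynomial ℚ) (c : E → Polynomial ℚ) (a : ℚ)
    (b : Fin r → ℚ) : Prop := ∀ e, ∑ k, (N e k).eval a * b k = (c e).eval a

/-- real solutions of a linear system over the line -/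
def LinR {E : Type*} {r : ℕ} (N : E → Fin r → Polynomial ℚ) (c : E → Polynomial ℚ) (x : ℝ)
    (y : Fin r → ℝ) : Prop := ∀ e, ∑ k, Polynomial.aeval x (N e k) * y k = Polynomial.aeval x (c e)

lemma linR_cast {E : Type*} {r : ℕ} (N : E → Fin r → Polynomial ℚ) (c : E → Polynomial ℚ) (a : ℚ)
    (b : Fin r → ℚ) : LinR N c (a : ℝ) (fun k => (b k : ℝ)) ↔ LinQ N c a b := by
  refine forall_congr' fun e => ?_
  simp only [Pool.Agent.Y718.aeval_cast]
  constructor
  · intro h
    exact_mod_cast h
  · intro h
    exact_mod_cast h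

/-- rational solutions are dense -/
theorem lin_dens {E : Type*} : ∀ (r : ℕ) (N : E → Fin r → Polynomial ℚ) (c : E → Polynomial ℚ),
    ∃ δ : Polynomial ℚ, δ ≠ 0 ∧ ∀ (x : ℝ) (y : Fin r → ℝ), Polynomial.aeval x δ ≠ 0 → LinR N c x y →
      ∃ (a : ℕ → ℚ) (b : ℕ → Fin r → ℚ), Tendsto (fun n => (a n : ℝ)) atTop (𝓝 x) ∧
        Tendsto (fun n => (fun k => (b n k : ℝ))) atTop (𝓝 y) ∧
        ∀ᶠ n in atTop, δ.eval (a n) ≠ 0 ∧ LinQ N c (a n) (b n) := by
  intro r
  induction r with
  | zero =>
    intro N c
    by_cases h : ∀ e, c e = 0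
    · refine ⟨1, one_ne_zero, fun x y _ _ => ?_⟩
      obtain ⟨a, ha⟩ := seq_rat x
      refine ⟨a, fun _ => Fin.elim0, ha, ?_, Eventually.of_forall fun n => ⟨by simp, fun e => ?_⟩⟩
      · rw [tendsto_pi_nhds]
        intro k
        exact k.elim0
      · simp [h e]
    · push Not at h
      obtain ⟨e, he⟩ := h
      refine ⟨c e, he, fun x y hx hxy => ?_⟩
      exfalso
      apply hx
      have := hxy e
      simpa using this.symm
  | succ r ih =>
    intro N c
    by_cases h : ∀ e, N e 0 = 0
    · obtain ⟨δ, hδ, hd⟩ := ih (fun e k => N e k.succ) c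
      refine ⟨δ, hδ, fun x y hx hxy => ?_⟩
      obtain ⟨a, b, ha, hb, hab⟩ := hd x (fun k => y k.succ) hx (by
        intro e
        have := hxy e
        rw [Fin.sum_univ_succ, h e] at this
        simpa using this)
      obtain ⟨u, hu⟩ := seq_rat (y 0)
      refine ⟨a, fun n => Fin.cons (u n) (b n), ha, ?_, ?_⟩
      · rw [tendsto_pi_nhds]
        intro k
        refine Fin.cases ?_ (fun k => ?_) k
        · simpa using hu
        · simpa using (tendsto_pi_nhds.1 hb) k
      · filter_upwards [hab] with n hn
        refine ⟨hn.1, fun e => ?_⟩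
        rw [Fin.sum_univ_succ, h e]
        simpa using hn.2 e
    · push Not at h
      obtain ⟨e0, he0⟩ := h
      set p := N e0 0 with hp
      obtain ⟨δ, hδ, hd⟩ := ih (fun e k => p * N e k.succ - N e 0 * N e0 k.succ)
        (fun e => p * c e - N e 0 * c e0)
      refine ⟨p * δ, mul_ne_zero he0 hδ, fun x y hx hxy => ?_⟩
      rw [map_mul] at hx
      have hx1 : Polynomial.aeval x p ≠ 0 := left_ne_zero_of_mul hx
      have hx2 : Polynomial.aeval x δ ≠ 0 := right_ne_zero_of_mul hx
      obtain ⟨a, b, ha, hb, hab⟩ := hd x (fun k => y k.succ) hx2 (by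
        intro e
        have h1 := hxy e
        have h2 := hxy e0
        rw [Fin.sum_univ_succ] at h1 h2
        have h3 : ∑ k : Fin r, Polynomial.aeval x (p * N e k.succ - N e 0 * N e0 k.succ) * y k.succ =
            Polynomial.aeval x p * (∑ k : Fin r, Polynomial.aeval x (N e k.succ) * y k.succ) -
            Polynomial.aeval x (N e 0) * (∑ k : Fin r, Polynomial.aeval x (N e0 k.succ) * y k.succ) := by
          rw [Finset.mul_sum, Finset.mul_sum, ← Finset.sum_sub_distrib]
          refine Finset.sum_congr rfl fun k _ => ?_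
          rw [map_sub, map_mul, map_mul]
          ring
        simp only
        rw [h3, map_sub, map_mul, map_mul, ← h1, ← h2, ← hp]
        ring)
      -- the first unknown
      let u : ℕ → ℚ := fun n => ((c e0).eval (a n) - ∑ k : Fin r, (N e0 k.succ).eval (a n) * b n k) /
        p.eval (a n)
      have hpa : Tendsto (fun n => ((p.eval (a n) : ℚ) : ℝ)) atTop (𝓝 (Polynomial.aeval x p)) := by
        have hc : Continuous fun y : ℝ => Polynomial.aeval y p := by fun_prop
        refine ((hc.tendsto x).comp ha).congr fun n => ?_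
        simp [Pool.Agent.Y718.aeval_cast]
      have hpol : ∀ P : Polynomial ℚ, Tendsto (fun n => ((P.eval (a n) : ℚ) : ℝ)) atTop
          (𝓝 (Polynomial.aeval x P)) := by
        intro P
        have hc : Continuous fun y : ℝ => Polynomial.aeval y P := by fun_prop
        refine ((hc.tendsto x).comp ha).congr fun n => ?_
        simp [Pool.Agent.Y718.aeval_cast]
      have hu : Tendsto (fun n => ((u n : ℚ) : ℝ)) atTop (𝓝 (y 0)) := by
        have h2 := hxy e0
        rw [Fin.sum_univ_succ, ← hp] at h2
        have h3 : y 0 = (Polynomial.aeval x (c e0) - ∑ k : Fin r, Polynomial.aeval x (N e0 k.succ) * y k.succ) /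
            Polynomial.aeval x p := by
          rw [← h2]
          field_simp
          ring
        rw [h3]
        simp only [u]
        push_cast
        refine Tendsto.div (Tendsto.sub (hpol _) ?_) (hpol _) hx1
        refine tendsto_finsetSum _ fun k _ => ?_
        exact (hpol _).mul ((tendsto_pi_nhds.1 hb) k)
      refine ⟨a, fun n => Fin.cons (u n) (b n), ha, ?_, ?_⟩
      · rw [tendsto_pi_nhds]
        intro k
        refine Fin.cases ?_ (fun k => ?_) k
        · simpa using hu
        · simpa using (tendsto_pi_nhds.1 hb) k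
      · filter_upwards [hab, hpa.eventually_ne hx1] with n hn hn1
        have hpn : p.eval (a n) ≠ 0 := by
          intro h0
          apply hn1
          rw [h0, Rat.cast_zero]
        refine ⟨by rw [Polynomial.eval_mul]; exact mul_ne_zero hpn hn.1, fun e => ?_⟩
        rw [Fin.sum_univ_succ]
        simp only [Fin.cons_zero, Fin.cons_succ]
        have h1 : ∑ k : Fin r, (p * N e k.succ - N e 0 * N e0 k.succ).eval (a n) * b n k =
            (p * c e - N e 0 * c e0).eval (a n) := hn.2 e
        have h3 : ∑ k : Fin r, (p * N e k.succ - N e 0 * N e0 k.succ).eval (a n) * b n k =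
            p.eval (a n) * (∑ k : Fin r, (N e k.succ).eval (a n) * b n k) -
            (N e 0).eval (a n) * (∑ k : Fin r, (N e0 k.succ).eval (a n) * b n k) := by
          rw [Finset.mul_sum, Finset.mul_sum, ← Finset.sum_sub_distrib]
          refine Finset.sum_congr rfl fun k _ => ?_
          rw [Polynomial.eval_sub, Polynomial.eval_mul, Polynomial.eval_mul]
          ring
        rw [h3, Polynomial.eval_sub, Polynomial.eval_mul, Polynomial.eval_mul] at h1
        apply mul_left_cancel₀ hpn
        have hun : p.eval (a n) * u n = (c e0).eval (a n) - ∑ k : Fin r, (N e0 k.succ).eval (a n) * b n k := by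
          simp only [u]
          field_simp
        linear_combination h1 + (N e 0).eval (a n) * hun

/-- one linear system over the rational numbers -/
lemma lin_one_SA {E : Type} [Finite E] {ι : Type} [Finite ι] (f : E → (ι → ℚ) → ℚ) (hf : ∀ e, PD 1 (f e)) :
    SA (closure (rl {v : ι → ℚ | ∀ e, f e v = 0})) := by
  classical
  have := Fintype.ofFinite E
  have h := one_SA (f := fun v => ∑ e : E, f e v ^ 2) (PD.sum _ fun e _ => (hf e).sq)
  have heq : {v : ι → ℚ | ∀ e, f e v = 0} = {v : ι → ℚ | ∑ e : E, f e v ^ 2 = 0} := by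
    ext v
    simp only [Set.mem_ofPred_eq]
    rw [Finset.sum_eq_zero_iff_of_nonneg (fun e _ => sq_nonneg _)]
    constructor
    · intro h e _
      rw [h e]; norm_num
    · intro h e
      exact pow_eq_zero_iff (two_ne_zero) |>.mp (h e (Finset.mem_univ e))
  rw [heq]
  exact h

/-- **Linear systems over the line.** -/
theorem lin_SA {E : Type} [Finite E] {r : ℕ} (N : E → Fin r → Polynomial ℚ) (c : E → Polynomial ℚ)
    {X0 : Set ℚ} (hX0 : X0.Finite) :
    SA (closure (rl {v : Option (Fin r) → ℚ | v none ∉ X0 ∧ LinQ N c (v none) (fun k => v (some k))})) := by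
  classical
  obtain ⟨δ, hδ, hd⟩ := lin_dens r N c
  set T : Set (Option (Fin r) → ℚ) := {v | v none ∉ X0 ∧ LinQ N c (v none) (fun k => v (some k))} with hT
  set R : Set (Option (Fin r) → ℝ) := {u | Polynomial.aeval (u none) δ ≠ 0 ∧
    (∀ b ∈ hX0.toFinset, u none ≠ (b : ℝ)) ∧ LinR N c (u none) (fun k => u (some k))} with hR
  have hPF : ∀ P : Polynomial ℚ, PF (fun u : Option (Fin r) → ℝ => Polynomial.aeval (u none) P) := by
    intro P
    refine ⟨Polynomial.aeval (MvPolynomial.X none) P, fun v => ?_⟩
    rw [← Polynomial.aeval_algHom_apply]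
    simp
  have hRs : SA R := by
    refine SAP.and (SAP.eq_zero (hPF δ)).not (SAP.and ?_ ?_)
    · exact SAP.forall_mem _ fun b _ => (SAP.eq (PF.coord none) (PF.const b)).not
    · refine SAP.forall_fin fun e => SAP.eq ?_ (hPF _)
      exact PF.sum _ fun k _ => (hPF _).mul (PF.coord _)
  have hroots : {b : ℚ | δ.eval b = 0}.Finite := by
    by_contra hc
    exact hδ (Polynomial.eq_zero_of_infinite_isRoot δ hc)
  have hB : {b : ℚ | δ.eval b = 0 ∧ b ∉ X0}.Finite := hroots.subset fun b hb => hb.1
  have hTb : SA (closure (rl (⋃ b ∈ {b : ℚ | δ.eval b = 0 ∧ b ∉ X0},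
      {v : Option (Fin r) → ℚ | v none = b ∧ LinQ N c b (fun k => v (some k))}))) := by
    refine biUnion_SA hB fun b _ => ?_
    have h := lin_one_SA (E := Option E) (ι := Option (Fin r)) (fun o v => match o with
      | none => v none - b
      | some e => ∑ k, (N e k).eval b * v (some k) - (c e).eval b) (fun o => by
        rcases o with _ | e
        · exact (PD.coord none).sub (PD.const _ _)
        · exact PD.sub (PD.sum _ fun k _ => (PD.coord (some k)).cmul _) (PD.const _ _))
    have heq : {v : Option (Fin r) → ℚ | v none = b ∧ LinQ N c b (fun k => v (some k))} =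
        {v : Option (Fin r) → ℚ | ∀ o : Option E, (match o with
      | none => v none - b
      | some e => ∑ k, (N e k).eval b * v (some k) - (c e).eval b) = 0} := by
      ext v
      simp only [Set.mem_ofPred_eq, Option.forall]
      refine and_congr ?_ (forall_congr' fun e => ?_)
      · exact sub_eq_zero.symm
      · exact sub_eq_zero.symm
    rw [heq]
    exact h
  have heq : closure (rl T) = closure R ∪ closure (rl (⋃ b ∈ {b : ℚ | δ.eval b = 0 ∧ b ∉ X0},
      {v : Option (Fin r) → ℚ | v none = b ∧ LinQ N c b (fun k => v (some k))})) := by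
    apply Subset.antisymm
    · refine closure_minimal ?_ (isClosed_closure.union isClosed_closure)
      rintro _ ⟨v, ⟨hv1, hv2⟩, rfl⟩
      by_cases h0 : δ.eval (v none) = 0
      · right
        apply subset_closure
        refine ⟨v, ?_, rfl⟩
        simp only [Set.mem_iUnion]
        exact ⟨v none, ⟨h0, hv1⟩, rfl, hv2⟩
      · left
        apply subset_closure
        refine ⟨?_, ?_, ?_⟩
        · rw [Pool.Agent.Y718.aeval_cast]
          exact_mod_cast h0
        · intro b hb h
          apply hv1
          have h' : ((v none : ℚ) : ℝ) = (b : ℝ) := h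
          have : v none = b := by exact_mod_cast h'
          rw [this]
          exact hX0.mem_toFinset.mp hb
        · exact (linR_cast N c _ _).mpr hv2
    · apply union_subset
      · refine closure_minimal ?_ isClosed_closure
        rintro u ⟨h1, h2, h3⟩
        obtain ⟨a, b, ha, hb, hab⟩ := hd (u none) (fun k => u (some k)) h1 h3
        have hlim : Tendsto (fun n => (fun o : Option (Fin r) => ((o.elim (a n) (b n) : ℚ) : ℝ))) atTop (𝓝 u) := by
          rw [tendsto_pi_nhds]
          intro o
          rcases o with _ | k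
          · exact ha
          · exact (tendsto_pi_nhds.1 hb) k
        refine mem_closure_of_tendsto hlim ?_
        have h4 : ∀ᶠ n in atTop, ∀ b ∈ hX0.toFinset, (a n : ℝ) ≠ (b : ℝ) := by
          rw [Filter.eventually_all_finset]
          intro b hb
          exact ha.eventually_ne (h2 b hb)
        filter_upwards [hab, h4] with n hn hn4
        refine ⟨fun o => o.elim (a n) (b n), ⟨?_, hn.2⟩, rfl⟩
        intro hmem
        exact hn4 (a n) (hX0.mem_toFinset.mpr hmem) rfl
      · apply closure_mono
        rintro _ ⟨v, hv, rfl⟩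
        simp only [Set.mem_iUnion] at hv
        obtain ⟨b, ⟨hb1, hb2⟩, hv1, hv2⟩ := hv
        refine ⟨v, ⟨?_, ?_⟩, rfl⟩
        · rw [hv1]; exact hb2
        · rw [hv1]; exact hv2
  rw [heq]
  exact (SA.closure hRs).union hTb

end Pool.Agent.Y718
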