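import Pool.Agent.Y718.Lin
import Pool.Agent.Y718.Box

/-!
# Families over the line: the unconditional theorem
-/

set_option autoImplicit false
set_option linter.unusedSectionVars false
set_option linter.unusedSimpArgs false

open Set Filter Topology Pool.Agent.H581R2 Pool.Agent.TH729.SQ

namespace Pool.Agent.Y718

namespace Fam

section tri

variable {m r : ℕ}

lemma PQ_coef {ι : Type} (e : Fin m → ι) (P : MvPolynomial (Fin m) ℚ) :
    PQ (fun z : ι → ℚ => MvPolynomial.eval (fun i => z (e i)) P) :=
  PQ.eval (fun i => PQ.coord (e i)) P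

lemma PQ_qa {ι : Type} (F : Fam m r) (e : Fin m → ι) (g : Fin r → ι) :
    PQ (fun z : ι → ℚ => qa (F.q fun i => z (e i)) (fun j => z (g j))) := by
  unfold qa Fam.q
  exact PQ.sum _ fun j _ => PQ.sum _ fun k _ => ((PQ_coef e _).mul (PQ.coord _)).mul (PQ.coord _)

lemma PQ_qb {ι : Type} (F : Fam m r) (e : Fin m → ι) (g h : Fin r → ι) :
    PQ (fun z : ι → ℚ => qb (F.q fun i => z (e i)) (F.l fun i => z (e i)) (fun j => z (g j))
      (fun j => z (h j))) := by
  unfold qb Fam.q Fam.l
  refine PQ.add (PQ.sum _ fun j _ => PQ.sum _ fun k _ => ?_) (PQ.sum _ fun j _ => ?_)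
  · exact (PQ_coef e _).mul (((PQ.coord _).mul (PQ.coord _)).add ((PQ.coord _).mul (PQ.coord _)))
  · exact (PQ_coef e _).mul (PQ.coord _)

lemma PQ_val {ι : Type} (F : Fam m r) (e : Fin m → ι) (g : Fin r → ι) :
    PQ (fun z : ι → ℚ => F.val (fun i => z (e i)) (fun j => z (g j))) := by
  unfold Fam.val qf Fam.q Fam.l Fam.c
  refine PQ.add (PQ.add (PQ.sum _ fun j _ => PQ.sum _ fun k _ => ?_) (PQ.sum _ fun j _ => ?_)) (PQ_coef e _)
  · exact ((PQ_coef e _).mul (PQ.coord _)).mul (PQ.coord _)
  · exact (PQ_coef e _).mul (PQ.coord _)

/-- the four cases -/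
lemma cases4 (F : Fam m r) (i : Fin m) :
    (∃ a y v, F.GoodLine a i y v) ∨ (∀ a v, qa (F.q a) v = 0) ∨
    (∀ a y v, qb (F.q a) (F.l a) y v ^ 2 - 4 * qa (F.q a) v * F.val a y = 0) ∨
    (∀ a y v, qa (F.q a) v * (F.d i).val a y = qa ((F.d i).q a) v * F.val a y) := by
  by_cases hgood : ∃ a y v, F.GoodLine a i y v
  · exact Or.inl hgood
  right
  push Not at hgood
  let ex : Fin m → Fin m ⊕ (Fin r ⊕ Fin r) := Sum.inl
  let ey : Fin r → Fin m ⊕ (Fin r ⊕ Fin r) := fun j => Sum.inr (Sum.inl j)
  let ev : Fin r → Fin m ⊕ (Fin r ⊕ Fin r) := fun j => Sum.inr (Sum.inr j)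
  have pA := PQ_qa F ex ev
  have pA' := PQ_qa (F.d i) ex ev
  have pB := PQ_qb F ex ey ev
  have pB' := PQ_qb (F.d i) ex ey ev
  have pV := PQ_val F ex ey
  have pV' := PQ_val (F.d i) ex ey
  have pD := (pB.pow 2).sub (((PQ.const 4).mul pA).mul pV)
  have pM1 := (pA.mul pB').sub (pA'.mul pB)
  have pM2 := (pA.mul pV').sub (pA'.mul pV)
  have pM := (pM1.pow 2).add (pM2.pow 2)
  have key : ∀ z : Fin m ⊕ (Fin r ⊕ Fin r) → ℚ, lineP (F.q fun i => z (ex i)) ((F.d i).q fun i => z (ex i))
      (F.l fun i => z (ex i)) ((F.d i).l fun i => z (ex i)) (F.c fun i => z (ex i))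
      ((F.d i).c fun i => z (ex i)) (fun j => z (ey j)) (fun j => z (ev j)) = 0 := by
    intro z
    by_contra h
    exact hgood _ _ _ (goodLine_iff.mpr h)
  rcases PQ.mul_eq_zero (pA.mul pD) pM key with h | h
  · rcases PQ.mul_eq_zero pA pD h with h | h
    · left
      intro a v
      have := h (Sum.elim a (Sum.elim 0 v))
      simpa [ex, ev] using this
    · right; left
      intro a y v
      have := h (Sum.elim a (Sum.elim y v))
      simpa [ex, ey, ev] using this
  · right; right
    intro a y v
    have := h (Sum.elim a (Sum.elim y v))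
    simp only [ex, ey, ev, Sum.elim_inl, Sum.elim_inr] at this
    have h2 : (qa (F.q a) v * (F.d i).val a y - qa ((F.d i).q a) v * F.val a y) ^ 2 = 0 := by
      have h5 := sq_nonneg (qa (F.q a) v * qb ((F.d i).q a) ((F.d i).l a) y v -
        qa ((F.d i).q a) v * qb (F.q a) (F.l a) y v)
      have h6 := sq_nonneg (qa (F.q a) v * (F.d i).val a y - qa ((F.d i).q a) v * F.val a y)
      linarith
    have h3 := pow_eq_zero_iff (two_ne_zero) |>.mp h2
    linarith

end tri

variable {r : ℕ}

/-- all rational points -/
def allPts (F : Fam 1 r) : Set (Option (Fin 1 ⊕ Fin r) → ℚ) :=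
  {u | u none ^ 2 = F.val (fun i => u (some (Sum.inl i))) (fun j => u (some (Sum.inr j)))}

/-- the parameter -/
abbrev par (t : ℚ) : Fin 1 → ℚ := fun _ => t

lemma par_eq (x : Fin 1 → ℚ) : x = par (x 0) := by
  funext i
  rw [Subsingleton.elim i 0]

lemma upd_par (a : Fin 1 → ℚ) (t : ℚ) : Function.update a 0 t = par t := by
  funext i
  rw [Subsingleton.elim i 0]
  simp

/-- univariate polynomials -/
noncomputable def uP (P : MvPolynomial (Fin 1) ℚ) : Polynomial ℚ := sp (par 0) 0 P

lemma uP_eval (P : MvPolynomial (Fin 1) ℚ) (t : ℚ) : (uP P).eval t = MvPolynomial.eval (par t) P := by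
  rw [uP, sp_eval, upd_par]

lemma uP_deg (P : MvPolynomial (Fin 1) ℚ) : (uP P).natDegree ≤ P.degreeOf 0 := sp_natDegree _ _ _

/-- a fibre -/
def fib (F : Fam 1 r) (b : ℚ) : Set (Option (Fin 1 ⊕ Fin r) → ℚ) :=
  {u | u ∈ F.allPts ∧ u (some (Sum.inl 0)) = b}

lemma fib_SA (F : Fam 1 r) (b : ℚ) : SA (closure (rl (F.fib b))) := by
  have h := one_SA (ι := Option (Fin r)) (f := fun v => v none ^ 2 -
    qf (F.q (par b)) (F.l (par b)) (F.c (par b)) (fun j => v (some j)))
    ((PD.coord none).sq.sub (qf_PD _ _ _ _))
  refine img_SA (κ := Empty) h (q := fun _ => 1) (PQ.const 1)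
    (p := fun o v => match o with
      | none => v (Sum.inl none)
      | some (Sum.inl _) => b
      | some (Sum.inr j) => v (Sum.inl (some j))) (fun o => ?_) fun u => ?_
  · rcases o with _ | (i | j)
    · exact PQ.coord _
    · exact PQ.const _
    · exact PQ.coord _
  · constructor
    · rintro ⟨h1, h2⟩
      have h1 : u none ^ 2 = F.val (fun i => u (some (Sum.inl i))) (fun j => u (some (Sum.inr j))) := h1
      rw [par_eq (fun i => u (some (Sum.inl i)))] at h1
      simp only [h2] at h1
      refine ⟨fun o => o.elim (u none) (fun j => u (some (Sum.inr j))), ?_, fun x => x.elim,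
        one_ne_zero, fun o => ?_⟩
      · simp only [Set.mem_ofPred_eq, Option.elim_none, Option.elim_some]
        rw [h1]
        exact sub_self _
      · rcases o with _ | (i | j)
        · simp
        · rw [Subsingleton.elim i 0]; simp [h2]
        · simp
    · rintro ⟨v, hv, x, -, hu⟩
      have e1 : u none = v none := by simpa using hu none
      have e2 : ∀ i, u (some (Sum.inl i)) = b := fun i => by simpa using hu (some (Sum.inl i))
      have e3 : ∀ j, u (some (Sum.inr j)) = v (some j) := fun j => by simpa using hu (some (Sum.inr j))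
      refine ⟨?_, e2 0⟩
      have hv : v none ^ 2 - qf (F.q (par b)) (F.l (par b)) (F.c (par b)) (fun j => v (some j)) = 0 := hv
      show u none ^ 2 = F.val (fun i => u (some (Sum.inl i))) (fun j => u (some (Sum.inr j)))
      simp only [e1, e2, e3]
      exact sub_eq_zero.mp hv

lemma fibs_SA (F : Fam 1 r) {E : Set ℚ} (hE : E.Finite) : SA (closure (rl (⋃ b ∈ E, F.fib b))) :=
  biUnion_SA hE fun b _ => F.fib_SA b

/-- the mixed form is linear in the direction -/
lemma qb_lin (q : Fin r → Fin r → ℚ) (l : Fin r → ℚ) (y v : Fin r → ℚ) :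
    qb q l y v = ∑ j, v j * (∑ k, (q j k + q k j) * y k + l j) := by
  have h1 : ∑ j, ∑ k, q j k * (y j * v k + v j * y k) =
      ∑ j, v j * ∑ k, (q j k + q k j) * y k := by
    have h2 : ∀ j k, q j k * (y j * v k + v j * y k) = q j k * y j * v k + q j k * v j * y k :=
      fun j k => by ring
    simp only [h2, Finset.sum_add_distrib]
    rw [Finset.sum_comm]
    rw [← Finset.sum_add_distrib]
    refine Finset.sum_congr rfl fun j _ => ?_
    rw [← Finset.sum_add_distrib, Finset.mul_sum]
    refine Finset.sum_congr rfl fun k _ => ?_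
    ring
  rw [qb, h1, ← Finset.sum_add_distrib]
  refine Finset.sum_congr rfl fun j _ => ?_
  ring

lemma qb_self (q : Fin r → Fin r → ℚ) (l : Fin r → ℚ) (c : ℚ) (y : Fin r → ℚ) :
    2 * qf q l c y = qb q l y y + (∑ j, l j * y j + 2 * c) := by
  have h1 : ∑ j, ∑ k, q j k * (y j * y k + y j * y k) = 2 * ∑ j, ∑ k, q j k * y j * y k := by
    rw [Finset.mul_sum]
    refine Finset.sum_congr rfl fun j _ => ?_
    rw [Finset.mul_sum]
    refine Finset.sum_congr rfl fun k _ => ?_
    ring
  rw [qf, qb, h1]
  ring

lemma qb_all (q : Fin r → Fin r → ℚ) (l : Fin r → ℚ) (y : Fin r → ℚ) :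
    (∀ v, qb q l y v = 0) ↔ ∀ j, ∑ k, (q j k + q k j) * y k + l j = 0 := by
  constructor
  · intro h j
    have := h (Pi.single j 1)
    rw [qb_lin, Finset.sum_eq_single j] at this
    · simpa using this
    · intro k _ hk
      simp [Pi.single_eq_of_ne hk]
    · simp
  · intro h v
    rw [qb_lin]
    refine Finset.sum_eq_zero fun j _ => ?_
    rw [h j, mul_zero]

/-- from solutions `(x, y)` to points `(x, y, 0)` -/
lemma zero_SA {D : Set (Option (Fin r) → ℚ)} (hD : SA (closure (rl D)))
    {T : Set (Option (Fin 1 ⊕ Fin r) → ℚ)}
    (hT : ∀ u, u ∈ T ↔ u none = 0 ∧ (fun o : Option (Fin r) => o.elim (u (some (Sum.inl 0)))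
      (fun j => u (some (Sum.inr j)))) ∈ D) : SA (closure (rl T)) := by
  refine img_SA (κ := Empty) hD (q := fun _ => 1) (PQ.const 1)
    (p := fun o v => match o with
      | none => 0
      | some (Sum.inl _) => v (Sum.inl none)
      | some (Sum.inr j) => v (Sum.inl (some j))) (fun o => ?_) fun u => ?_
  · rcases o with _ | (i | j)
    · exact PQ.const 0
    · exact PQ.coord _
    · exact PQ.coord _
  · rw [hT]
    constructor
    · rintro ⟨h0, h1⟩
      refine ⟨_, h1, fun x => x.elim, one_ne_zero, fun o => ?_⟩
      rcases o with _ | (i | j)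
      · simpa using h0
      · rw [Subsingleton.elim i 0]; simp
      · simp
    · rintro ⟨v, hv, x, -, hu⟩
      have e1 : u none = 0 := by simpa using hu none
      have e2 : ∀ i, u (some (Sum.inl i)) = v none := fun i => by simpa using hu (some (Sum.inl i))
      have e3 : ∀ j, u (some (Sum.inr j)) = v (some j) := fun j => by simpa using hu (some (Sum.inr j))
      refine ⟨e1, ?_⟩
      have : (fun o : Option (Fin r) => o.elim (u (some (Sum.inl 0))) (fun j => u (some (Sum.inr j)))) = v := by
        funext o
        rcases o with _ | j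
        · exact e2 0
        · exact e3 j
      rw [this]
      exact hv

/-- the vertices of the fibres -/
def vert (F : Fam 1 r) : Set (Option (Fin 1 ⊕ Fin r) → ℚ) :=
  {u | u none = 0 ∧ F.val (fun i => u (some (Sum.inl i))) (fun j => u (some (Sum.inr j))) = 0 ∧
    ∀ v, qb (F.q fun i => u (some (Sum.inl i))) (F.l fun i => u (some (Sum.inl i)))
      (fun j => u (some (Sum.inr j))) v = 0}

lemma vert_SA (F : Fam 1 r) : SA (closure (rl F.vert)) := by
  have h := lin_SA (E := Option (Fin r)) (r := r)
    (fun o k => match o with
      | none => uP (F.L k)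
      | some j => uP (F.Q j k) + uP (F.Q k j))
    (fun o => match o with
      | none => -(2 * uP F.C)
      | some j => -uP (F.L j)) (X0 := ∅) Set.finite_empty
  refine zero_SA h fun u => ?_
  simp only [vert, Set.mem_ofPred_eq, Option.elim_none, Option.elim_some, Set.mem_empty_iff_false,
    not_false_eq_true, true_and, LinQ, Option.forall]
  refine and_congr_right fun _ => ?_
  rw [par_eq (fun i => u (some (Sum.inl i)))]
  simp only [Polynomial.eval_add, Polynomial.eval_neg, Polynomial.eval_mul, uP_eval,
    Polynomial.eval_ofNat]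
  rw [qb_all]
  set y : Fin r → ℚ := fun j => u (some (Sum.inr j)) with hy
  set t : ℚ := u (some (Sum.inl 0)) with ht
  have hs := qb_self (F.q (par t)) (F.l (par t)) (F.c (par t)) y
  constructor
  · rintro ⟨h1, h2⟩
    have h3 := (qb_all (F.q (par t)) (F.l (par t)) y).mpr h2 y
    refine ⟨?_, fun j => ?_⟩
    · have h1' : qf (F.q (par t)) (F.l (par t)) (F.c (par t)) y = 0 := h1
      rw [h1', h3] at hs
      have : ∑ j, F.l (par t) j * y j = -(2 * F.c (par t)) := by linarith
      exact this
    · have := h2 j
      exact eq_neg_of_add_eq_zero_left this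
  · rintro ⟨h1, h2⟩
    have h2' : ∀ j, ∑ k, (F.q (par t) j k + F.q (par t) k j) * y k + F.l (par t) j = 0 :=
      fun j => add_eq_zero_iff_eq_neg.mpr (h2 j)
    have h3 := (qb_all (F.q (par t)) (F.l (par t)) y).mpr h2' y
    refine ⟨?_, h2'⟩
    have h1' : ∑ j, F.l (par t) j * y j = -(2 * F.c (par t)) := h1
    rw [h3, h1'] at hs
    have : qf (F.q (par t)) (F.l (par t)) (F.c (par t)) y = 0 := by linarith
    exact this

/-- Case I: a good line exists -/
lemma case1 {F : Fam 1 r} (hF : F.Deg4) (h : ∃ a y v, F.GoodLine a 0 y v) :
    SA (closure (rl F.allPts)) := by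
  obtain ⟨a, y, v, hl⟩ := h
  have hG : F.Good a := by
    intro i
    rw [Subsingleton.elim i 0]
    exact ⟨y, v, hl⟩
  have hbad := F.good_cofinite hG 0
  simp only [upd_par] at hbad
  have heq : F.allPts = (F.pts ∪ F.vert) ∪ ⋃ b ∈ {t : ℚ | ¬ F.Good (par t)}, F.fib b := by
    apply Subset.antisymm
    · intro u hu
      by_cases hg : F.Good (par (u (some (Sum.inl 0))))
      · left
        have hg' : F.Good (fun i => u (some (Sum.inl i))) := by
          rw [par_eq (fun i => u (some (Sum.inl i)))]; exact hg
        by_cases h0 : u none = 0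
        · by_cases hv : ∃ v, qb (F.q fun i => u (some (Sum.inl i))) (F.l fun i => u (some (Sum.inl i)))
            (fun j => u (some (Sum.inr j))) v ≠ 0
          · left
            exact ⟨hg', hu, Or.inr hv⟩
          · right
            push Not at hv
            refine ⟨h0, ?_, hv⟩
            have hu : u none ^ 2 = F.val (fun i => u (some (Sum.inl i))) (fun j => u (some (Sum.inr j))) := hu
            rw [← hu, h0]
            norm_num
        · left
          exact ⟨hg', hu, Or.inl h0⟩
      · right
        simp only [Set.mem_iUnion]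
        exact ⟨_, hg, hu, rfl⟩
    · rintro u ((⟨-, hu, -⟩ | ⟨h0, h1, -⟩) | hu)
      · exact hu
      · show u none ^ 2 = _
        rw [h0, h1]
        norm_num
      · simp only [Set.mem_iUnion] at hu
        obtain ⟨b, -, hu, -⟩ := hu
        exact hu
  rw [heq]
  exact union_SA (union_SA (pts_SA hF) F.vert_SA) (F.fibs_SA hbad)

/-- roots of a nonzero polynomial -/
lemma roots_fin {P : Polynomial ℚ} (hP : P ≠ 0) : {b : ℚ | P.eval b = 0}.Finite := by
  by_contra hc
  exact hP (Polynomial.eq_zero_of_infinite_isRoot P hc)

/-- Case II: no quadratic part -/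
lemma case2 {F : Fam 1 r} (hF : F.Deg4) (h : ∀ a v, qa (F.q a) v = 0) :
    SA (closure (rl F.allPts)) := by
  classical
  have hval : ∀ x y, F.val x y = ∑ j, F.l x j * y j + F.c x := by
    intro x y
    have h1 : F.val x y = qa (F.q x) y + (∑ j, F.l x j * y j + F.c x) := by
      simp only [Fam.val, qf, qa]
      ring
    rw [h1, h, zero_add]
  by_cases hL : ∃ j, uP (F.L j) ≠ 0
  · obtain ⟨j, hj⟩ := hL
    -- the main part is rational
    have h1 : SA (closure (rl {u : Option (Fin 1 ⊕ Fin r) → ℚ | u ∈ F.allPts ∧
        (uP (F.L j)).eval (u (some (Sum.inl 0))) ≠ 0})) := by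
      refine img_SA (n := Empty) (κ := Option (Fin 1 ⊕ Fin r)) (D := Set.univ) univ_SA
        (q := fun v => (uP (F.L j)).eval (v (Sum.inr (some (Sum.inl 0)))))
        (PQ.peval (PQ.coord _) _)
        (p := fun o v => if o = some (Sum.inr j) then
            v (Sum.inr none) ^ 2 - MvPolynomial.eval (fun i => v (Sum.inr (some (Sum.inl i)))) F.C -
              ∑ k ∈ Finset.univ.erase j,
                MvPolynomial.eval (fun i => v (Sum.inr (some (Sum.inl i)))) (F.L k) *
                  v (Sum.inr (some (Sum.inr k)))
          else v (Sum.inr o) * (uP (F.L j)).eval (v (Sum.inr (some (Sum.inl 0))))) (fun o => ?_) fun u => ?_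
      · split_ifs
        · refine ((PQ.coord _).pow 2 |>.sub ?_).sub (PQ.sum _ fun k _ => ?_)
          · exact PQ_coef (fun i => Sum.inr (some (Sum.inl i))) F.C
          · exact (PQ_coef (fun i => Sum.inr (some (Sum.inl i))) (F.L k)).mul (PQ.coord _)
        · exact (PQ.coord _).mul (PQ.peval (PQ.coord _) _)
      · constructor
        · rintro ⟨hu, hne⟩
          refine ⟨fun x => x.elim, mem_univ _, u, ?_, fun o => ?_⟩
          · simpa using hne
          · simp only [Sum.elim_inr]
            split_ifs with ho
            · have hu : u none ^ 2 = F.val (fun i => u (some (Sum.inl i))) (fun j => u (some (Sum.inr j))) := hu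
              rw [hval, ← Finset.add_sum_erase _ _ (Finset.mem_univ j)] at hu
              rw [eq_div_iff hne, hu, uP_eval, ho]
              have : (fun i => u (some (Sum.inl i))) = par (u (some (Sum.inl 0))) := par_eq _
              simp only [Fam.l, Fam.c, this]
              ring
            · field_simp
        · rintro ⟨x, -, v, hne, hu⟩
          simp only [Sum.elim_inr] at hne hu
          have e1 : ∀ o, o ≠ some (Sum.inr j) → u o = v o := by
            intro o ho
            have := hu o
            rw [if_neg ho] at this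
            rw [this]
            field_simp
          have e0 : ∀ i, u (some (Sum.inl i)) = v (some (Sum.inl i)) := fun i => e1 _ (by simp)
          have e2 := hu (some (Sum.inr j))
          rw [if_pos rfl, eq_div_iff hne] at e2
          refine ⟨?_, by rw [e0 0]; exact hne⟩
          show u none ^ 2 = F.val (fun i => u (some (Sum.inl i))) (fun j => u (some (Sum.inr j)))
          rw [hval, ← Finset.add_sum_erase _ _ (Finset.mem_univ j)]
          have e3 : ∑ k ∈ Finset.univ.erase j, F.l (fun i => u (some (Sum.inl i))) k * u (some (Sum.inr k)) =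
              ∑ k ∈ Finset.univ.erase j, MvPolynomial.eval (fun i => v (some (Sum.inl i))) (F.L k) *
                v (some (Sum.inr k)) := by
            refine Finset.sum_congr rfl fun k hk => ?_
            rw [e1 (some (Sum.inr k)) (by simpa using (Finset.ne_of_mem_erase hk))]
            simp only [Fam.l, e0]
          rw [e3, e1 none (by simp)]
          have e4 : F.l (fun i => u (some (Sum.inl i))) j = (uP (F.L j)).eval (v (some (Sum.inl 0))) := by
            rw [uP_eval]
            simp only [Fam.l, e0]
            rw [par_eq (fun i => v (some (Sum.inl i)))]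
          have e5 : F.c (fun i => u (some (Sum.inl i))) = MvPolynomial.eval (fun i => v (some (Sum.inl i))) F.C := by
            simp only [Fam.c, e0]
          rw [e4, e5]
          linear_combination -e2
    have heq : F.allPts = {u : Option (Fin 1 ⊕ Fin r) → ℚ | u ∈ F.allPts ∧
        (uP (F.L j)).eval (u (some (Sum.inl 0))) ≠ 0} ∪ ⋃ b ∈ {b : ℚ | (uP (F.L j)).eval b = 0}, F.fib b := by
      apply Subset.antisymm
      · intro u hu
        by_cases h0 : (uP (F.L j)).eval (u (some (Sum.inl 0))) = 0
        · right
          simp only [Set.mem_iUnion]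
          exact ⟨_, h0, hu, rfl⟩
        · left
          exact ⟨hu, h0⟩
      · rintro u (⟨hu, -⟩ | hu)
        · exact hu
        · simp only [Set.mem_iUnion] at hu
          obtain ⟨b, -, hu, -⟩ := hu
          exact hu
    rw [heq]
    exact union_SA h1 (F.fibs_SA (roots_fin hj))
  · push Not at hL
    have hval' : ∀ x y, F.val x y = (uP F.C).eval (x 0) := by
      intro x y
      rw [hval, uP_eval, ← par_eq]
      have : ∀ j, F.l x j = 0 := by
        intro j
        have := uP_eval (F.L j) (x 0)
        rw [hL j, Polynomial.eval_zero, ← par_eq] at this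
        exact this.symm
      simp only [this, zero_mul, Finset.sum_const_zero, zero_add]
      rfl
    have hCd : (uP F.C).natDegree ≤ 4 := (uP_deg _).trans (hF 0).2.2
    refine img_SA (κ := Fin r) (curve_SA hCd) (q := fun _ => 1) (PQ.const 1)
      (p := fun o v => match o with
        | none => v (Sum.inl 1)
        | some (Sum.inl _) => v (Sum.inl 0)
        | some (Sum.inr j) => v (Sum.inr j)) (fun o => ?_) fun u => ?_
    · rcases o with _ | (i | j)
      · exact PQ.coord _
      · exact PQ.coord _
      · exact PQ.coord _
    · constructor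
      · intro hu
        have hu : u none ^ 2 = F.val (fun i => u (some (Sum.inl i))) (fun j => u (some (Sum.inr j))) := hu
        rw [hval'] at hu
        refine ⟨![u (some (Sum.inl 0)), u none], ?_, fun j => u (some (Sum.inr j)), one_ne_zero, fun o => ?_⟩
        · simpa using hu
        · rcases o with _ | (i | j)
          · simp
          · rw [Subsingleton.elim i 0]; simp
          · simp
      · rintro ⟨x, hx, v, -, hu⟩
        have e1 : u none = x 1 := by simpa using hu none
        have e2 : ∀ i, u (some (Sum.inl i)) = x 0 := fun i => by simpa using hu (some (Sum.inl i))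
        show u none ^ 2 = F.val (fun i => u (some (Sum.inl i))) (fun j => u (some (Sum.inr j)))
        rw [hval', e1, e2]
        exact hx

/-- Case III: the quadratic polynomials are constant multiples of squares -/
lemma case3 {F : Fam 1 r} (hF : F.Deg4)
    (h : ∀ a y v, qb (F.q a) (F.l a) y v ^ 2 - 4 * qa (F.q a) v * F.val a y = 0)
    (hA : ∃ a v, qa (F.q a) v ≠ 0) : SA (closure (rl F.allPts)) := by
  classical
  obtain ⟨a1, v, hv⟩ := hA
  set A : Polynomial ℚ := F.al (par 0) 0 v with hAdef
  have hAe : ∀ t, A.eval t = qa (F.q (par t)) v := by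
    intro t
    rw [hAdef, al_eval, upd_par]
  have hAd : A.natDegree ≤ 4 := al_deg hF _ _ _
  have hA0 : A ≠ 0 := by
    intro h0
    apply hv
    rw [par_eq a1, ← hAe, h0, Polynomial.eval_zero]
  have hD : ∀ x y, qb (F.q x) (F.l x) y v ^ 2 = 4 * A.eval (x 0) * F.val x y := by
    intro x y
    have := h x y v
    rw [hAe, ← par_eq x]
    linarith
  -- points with square leading coefficient
  have h1 : SA (closure (rl {u : Option (Fin 1 ⊕ Fin r) → ℚ | u ∈ F.allPts ∧
      ∃ t : ℚ, t ≠ 0 ∧ t ^ 2 = A.eval (u (some (Sum.inl 0)))})) := by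
    refine img_SA (κ := Fin r) (curve_SA hAd) (q := fun w => 2 * w (Sum.inl 1))
      ((PQ.const 2).mul (PQ.coord _))
      (p := fun o w => match o with
        | none => qb (F.q fun _ => w (Sum.inl 0)) (F.l fun _ => w (Sum.inl 0)) (fun j => w (Sum.inr j)) v
        | some (Sum.inl _) => w (Sum.inl 0) * (2 * w (Sum.inl 1))
        | some (Sum.inr j) => w (Sum.inr j) * (2 * w (Sum.inl 1))) (fun o => ?_) fun u => ?_
    · rcases o with _ | (i | j)
      · simp only [qb_lin, Fam.q, Fam.l]
        refine PQ.sum _ fun j _ => (PQ.const _).mul (PQ.add (PQ.sum _ fun k _ => PQ.mul (PQ.add ?_ ?_) (PQ.coord _)) ?_)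
        · exact PQ_coef (fun _ => Sum.inl 0) _
        · exact PQ_coef (fun _ => Sum.inl 0) _
        · exact PQ_coef (fun _ => Sum.inl 0) _
      · exact (PQ.coord _).mul ((PQ.const 2).mul (PQ.coord _))
      · exact (PQ.coord _).mul ((PQ.const 2).mul (PQ.coord _))
    · constructor
      · rintro ⟨hu, t, ht0, ht⟩
        have hu : u none ^ 2 = F.val (fun i => u (some (Sum.inl i))) (fun j => u (some (Sum.inr j))) := hu
        have hDu := hD (fun i => u (some (Sum.inl i))) (fun j => u (some (Sum.inr j)))
        rw [← hu, ← ht] at hDu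
        have h2 : (qb (F.q fun i => u (some (Sum.inl i))) (F.l fun i => u (some (Sum.inl i)))
            (fun j => u (some (Sum.inr j))) v) ^ 2 = (2 * t * u none) ^ 2 := by
          rw [hDu]; ring
        have hxx : (fun i => u (some (Sum.inl i))) = fun _ : Fin 1 => u (some (Sum.inl 0)) := par_eq _
        rw [hxx] at h2
        rcases sq_eq_sq_iff_eq_or_eq_neg.mp h2 with h3 | h3
        · refine ⟨![u (some (Sum.inl 0)), t], ?_, fun j => u (some (Sum.inr j)), ?_, fun o => ?_⟩
          · simpa using ht
          · simpa using ht0
          · rcases o with _ | (i | j)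
            · simp only [Sum.elim_inl, Sum.elim_inr, Matrix.cons_val_zero, Matrix.cons_val_one]
              rw [h3]
              field_simp
            · rw [Subsingleton.elim i 0]
              simp only [Sum.elim_inl, Matrix.cons_val_zero, Matrix.cons_val_one]
              field_simp
            · simp only [Sum.elim_inl, Sum.elim_inr, Matrix.cons_val_one, Matrix.cons_val_zero]
              field_simp
        · refine ⟨![u (some (Sum.inl 0)), -t], ?_, fun j => u (some (Sum.inr j)), ?_, fun o => ?_⟩
          · simpa using ht
          · simpa using ht0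
          · rcases o with _ | (i | j)
            · simp only [Sum.elim_inl, Sum.elim_inr, Matrix.cons_val_zero, Matrix.cons_val_one]
              rw [h3]
              field_simp
            · rw [Subsingleton.elim i 0]
              simp only [Sum.elim_inl, Matrix.cons_val_zero, Matrix.cons_val_one]
              field_simp
            · simp only [Sum.elim_inl, Sum.elim_inr, Matrix.cons_val_one, Matrix.cons_val_zero]
              field_simp
      · rintro ⟨x, hx, w, hne, hu⟩
        simp only [Sum.elim_inl, Sum.elim_inr] at hne hu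
        have ht0 : x 1 ≠ 0 := right_ne_zero_of_mul hne
        have e1 : u none = qb (F.q fun _ => x 0) (F.l fun _ => x 0) w v / (2 * x 1) := hu none
        have e2 : ∀ i, u (some (Sum.inl i)) = x 0 := by
          intro i
          have := hu (some (Sum.inl i))
          simp only at this
          rw [this]
          field_simp
        have e3 : ∀ j, u (some (Sum.inr j)) = w j := by
          intro j
          have := hu (some (Sum.inr j))
          simp only at this
          rw [this]
          field_simp
        have hx : x 1 ^ 2 = A.eval (x 0) := hx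
        refine ⟨?_, x 1, ht0, by rw [e2]; exact hx⟩
        show u none ^ 2 = F.val (fun i => u (some (Sum.inl i))) (fun j => u (some (Sum.inr j)))
        simp only [e1, e2, e3]
        have hDu := hD (fun _ => x 0) w
        rw [← hx] at hDu
        rw [div_pow, hDu]
        field_simp
        ring
  -- points with vanishing last coordinate
  have h2 : SA (closure (rl {u : Option (Fin 1 ⊕ Fin r) → ℚ | u ∈ F.allPts ∧
      A.eval (u (some (Sum.inl 0))) ≠ 0 ∧ u none = 0})) := by
    have h := lin_SA (E := Unit) (r := r)
      (fun _ k => ∑ j, Polynomial.C (v j) * (uP (F.Q j k) + uP (F.Q k j)))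
      (fun _ => -∑ j, Polynomial.C (v j) * uP (F.L j)) (X0 := {b : ℚ | A.eval b = 0}) (roots_fin hA0)
    refine zero_SA h fun u => ?_
    simp only [Set.mem_ofPred_eq, Option.elim_none, Option.elim_some, LinQ, forall_const,
      Polynomial.eval_neg, Polynomial.eval_finsetSum, Polynomial.eval_mul, Polynomial.eval_C,
      Polynomial.eval_add, uP_eval]
    have hxx : (fun i => u (some (Sum.inl i))) = par (u (some (Sum.inl 0))) := par_eq _
    set t := u (some (Sum.inl 0)) with ht
    set y : Fin r → ℚ := fun j => u (some (Sum.inr j)) with hy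
    have hsum : ∑ k, (∑ j, v j * (MvPolynomial.eval (par t) (F.Q j k) + MvPolynomial.eval (par t) (F.Q k j))) * y k +
        ∑ j, v j * MvPolynomial.eval (par t) (F.L j) = qb (F.q (par t)) (F.l (par t)) y v := by
      have e1 : ∑ k, (∑ j, v j * (MvPolynomial.eval (par t) (F.Q j k) + MvPolynomial.eval (par t) (F.Q k j))) * y k =
          ∑ j, v j * ∑ k, (MvPolynomial.eval (par t) (F.Q j k) + MvPolynomial.eval (par t) (F.Q k j)) * y k := by
        simp only [Finset.sum_mul, Finset.mul_sum]
        rw [Finset.sum_comm]
        refine Finset.sum_congr rfl fun j _ => Finset.sum_congr rfl fun k _ => ?_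
        ring
      rw [e1, qb_lin, ← Finset.sum_add_distrib]
      refine Finset.sum_congr rfl fun j _ => ?_
      simp only [Fam.q, Fam.l]
      ring
    have hall : (u ∈ F.allPts ↔ u none ^ 2 = F.val (par t) y) := by
      rw [← hxx]
      exact Iff.rfl
    rw [hall]
    have hDu := hD (par t) y
    constructor
    · rintro ⟨h3, h4, h5⟩
      refine ⟨h5, h4, ?_⟩
      rw [← h3, h5] at hDu
      have h6 : qb (F.q (par t)) (F.l (par t)) y v = 0 := by
        have : qb (F.q (par t)) (F.l (par t)) y v ^ 2 = 0 := by rw [hDu]; ring
        exact pow_eq_zero_iff (two_ne_zero) |>.mp this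
      rw [← hsum] at h6
      exact eq_neg_of_add_eq_zero_left h6
    · rintro ⟨h5, h4, h6⟩
      refine ⟨?_, h4, h5⟩
      have h7 : qb (F.q (par t)) (F.l (par t)) y v = 0 := by
        rw [← hsum]
        exact add_eq_zero_iff_eq_neg.mpr h6
      rw [h7] at hDu
      have h8 : 4 * A.eval t ≠ 0 := mul_ne_zero (by norm_num) h4
      have h9 : 4 * A.eval t * F.val (par t) y = 0 := by
        have : (par t) 0 = t := rfl
        rw [this] at hDu
        rw [← hDu]; norm_num
      have h10 := (mul_eq_zero.mp h9).resolve_left h8
      rw [h5, h10]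
      norm_num
  have heq : F.allPts = ({u : Option (Fin 1 ⊕ Fin r) → ℚ | u ∈ F.allPts ∧
      ∃ t : ℚ, t ≠ 0 ∧ t ^ 2 = A.eval (u (some (Sum.inl 0)))} ∪ {u : Option (Fin 1 ⊕ Fin r) → ℚ | u ∈ F.allPts ∧
      A.eval (u (some (Sum.inl 0))) ≠ 0 ∧ u none = 0}) ∪ ⋃ b ∈ {b : ℚ | A.eval b = 0}, F.fib b := by
    apply Subset.antisymm
    · intro u hu
      by_cases h0 : A.eval (u (some (Sum.inl 0))) = 0
      · right
        simp only [Set.mem_iUnion]
        exact ⟨_, h0, hu, rfl⟩
      · left
        by_cases hw : u none = 0
        · right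
          exact ⟨hu, h0, hw⟩
        · left
          refine ⟨hu, qb (F.q fun i => u (some (Sum.inl i))) (F.l fun i => u (some (Sum.inl i)))
            (fun j => u (some (Sum.inr j))) v / (2 * u none), ?_, ?_⟩
          · intro h3
            have hu' : u none ^ 2 = F.val (fun i => u (some (Sum.inl i))) (fun j => u (some (Sum.inr j))) := hu
            have hDu := hD (fun i => u (some (Sum.inl i))) (fun j => u (some (Sum.inr j)))
            rw [← hu'] at hDu
            have h4 : qb (F.q fun i => u (some (Sum.inl i))) (F.l fun i => u (some (Sum.inl i)))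
                (fun j => u (some (Sum.inr j))) v = 0 := by
              rcases div_eq_zero_iff.mp h3 with h4 | h4
              · exact h4
              · exact absurd h4 (mul_ne_zero two_ne_zero hw)
            rw [h4] at hDu
            have : 4 * A.eval (u (some (Sum.inl 0))) * u none ^ 2 ≠ 0 :=
              mul_ne_zero (mul_ne_zero (by norm_num) h0) (pow_ne_zero 2 hw)
            exact this (by rw [← hDu]; norm_num)
          · have hu' : u none ^ 2 = F.val (fun i => u (some (Sum.inl i))) (fun j => u (some (Sum.inr j))) := hu
            have hDu := hD (fun i => u (some (Sum.inl i))) (fun j => u (some (Sum.inr j)))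
            rw [← hu'] at hDu
            rw [div_pow, hDu]
            field_simp
            ring
    · rintro u ((⟨hu, -⟩ | ⟨hu, -⟩) | hu)
      · exact hu
      · exact hu
      · simp only [Set.mem_iUnion] at hu
        obtain ⟨b, -, hu, -⟩ := hu
        exact hu
  rw [heq]
  exact union_SA (union_SA h1 h2) (F.fibs_SA (roots_fin hA0))

/-- polynomials with vanishing Wronskian are proportional -/
lemma wronsk {A P : Polynomial ℚ} {t1 : ℚ} (hA : A.eval t1 ≠ 0)
    (h : ∀ t, A.eval t * (Polynomial.derivative P).eval t = (Polynomial.derivative A).eval t * P.eval t) :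
    ∀ t, P.eval t * A.eval t1 = A.eval t * P.eval t1 := by
  set R : Polynomial ℚ := P * Polynomial.C (A.eval t1) - A * Polynomial.C (P.eval t1) with hR
  have hR1 : R.eval t1 = 0 := by
    rw [hR]
    simp only [Polynomial.eval_sub, Polynomial.eval_mul, Polynomial.eval_C]
    ring
  have hAR : A * Polynomial.derivative R = Polynomial.derivative A * R := by
    apply Polynomial.funext
    intro t
    have := h t
    simp only [hR, Polynomial.derivative_sub, Polynomial.derivative_mul, Polynomial.derivative_C,
      mul_zero, add_zero, Polynomial.eval_mul, Polynomial.eval_sub, Polynomial.eval_C]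
    linear_combination A.eval t1 * this
  have hR0 : R = 0 := by
    by_contra hne
    have hdR : Polynomial.derivative R ≠ 0 := by
      intro h0
      have := Polynomial.natDegree_eq_zero_of_derivative_eq_zero h0
      rw [Polynomial.eq_C_of_natDegree_eq_zero this] at hR1 hne
      simp only [Polynomial.eval_C] at hR1
      rw [hR1] at hne
      simp at hne
    have hA0 : A ≠ 0 := by
      intro h0
      rw [h0] at hA
      simp at hA
    have h1 : (A * Polynomial.derivative R).rootMultiplicity t1 = R.rootMultiplicity t1 - 1 := by
      rw [Polynomial.rootMultiplicity_mul (mul_ne_zero hA0 hdR),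
        Polynomial.rootMultiplicity_eq_zero (by exact hA), zero_add,
        Polynomial.derivative_rootMultiplicity_of_root hR1]
    have hpos : 0 < R.rootMultiplicity t1 := (Polynomial.rootMultiplicity_pos hne).mpr hR1
    have hdA : Polynomial.derivative A ≠ 0 := by
      intro h0
      rw [h0, zero_mul] at hAR
      rcases mul_eq_zero.mp hAR with h2 | h2
      · exact hA0 h2
      · exact hdR h2
    have h2 : R.rootMultiplicity t1 ≤ (Polynomial.derivative A * R).rootMultiplicity t1 := by
      rw [Polynomial.rootMultiplicity_mul (mul_ne_zero hdA hne)]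
      exact Nat.le_add_left _ _
    rw [← hAR, h1] at h2
    omega
  intro t
  have : R.eval t = 0 := by rw [hR0]; simp
  rw [hR] at this
  simp only [Polynomial.eval_sub, Polynomial.eval_mul, Polynomial.eval_C] at this
  linarith

lemma qf_hom (q : Fin r → Fin r → ℚ) (l : Fin r → ℚ) (c : ℚ) (y : Fin r → ℚ) (κ : ℚ) :
    ∑ j, ∑ k, q j k * (κ * y j) * (κ * y k) + ∑ j, l j * (κ * y j) * κ + c * κ ^ 2 =
      κ ^ 2 * qf q l c y := by
  have e1 : ∀ j k, q j k * (κ * y j) * (κ * y k) = κ ^ 2 * (q j k * y j * y k) := fun j k => by ring
  have e2 : ∀ j, l j * (κ * y j) * κ = κ ^ 2 * (l j * y j) := fun j => by ring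
  simp only [e1, e2, ← Finset.mul_sum, qf]
  ring

/-- Case IV: products -/
lemma case4 {F : Fam 1 r} (hF : F.Deg4)
    (h : ∀ a y v, qa (F.q a) v * (F.d 0).val a y = qa ((F.d 0).q a) v * F.val a y)
    (hA : ∃ a v, qa (F.q a) v ≠ 0) : SA (closure (rl F.allPts)) := by
  classical
  obtain ⟨a1, v, hv⟩ := hA
  set A : Polynomial ℚ := F.al (par 0) 0 v with hAdef
  have hAe : ∀ t, A.eval t = qa (F.q (par t)) v := by
    intro t
    rw [hAdef, al_eval, upd_par]
  have hAd : A.natDegree ≤ 4 := al_deg hF _ _ _
  set t1 : ℚ := a1 0 with ht1
  have hA1 : A.eval t1 ≠ 0 := by rw [hAe, ← par_eq a1]; exact hv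
  set g : Polynomial ℚ := A * Polynomial.C (A.eval t1)⁻¹ with hg
  have hgd : g.natDegree ≤ 4 := natDegree_bd hAd _
  have hg0 : g ≠ 0 := by
    intro h0
    have : g.eval t1 = 1 := by
      rw [hg, Polynomial.eval_mul, Polynomial.eval_C]
      field_simp
    rw [h0] at this
    simp at this
  have hval : ∀ x y, F.val x y = g.eval (x 0) * F.val (par t1) y := by
    intro x y
    have h1 := wronsk (A := A) (P := F.ga (par 0) 0 y) hA1 (by
      intro t
      have h2 := h (par t) y v
      rw [hAdef, al_deriv, ga_deriv, al_eval, ga_eval, al_eval, ga_eval, upd_par]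
      exact h2) (x 0)
    rw [ga_eval, ga_eval, upd_par, upd_par, ← par_eq x] at h1
    rw [hg, Polynomial.eval_mul, Polynomial.eval_C]
    field_simp
    linear_combination h1
  set q := F.q (par t1) with hq
  set l := F.l (par t1) with hl
  set c := F.c (par t1) with hc
  have hh : ∀ y, F.val (par t1) y = qf q l c y := fun y => rfl
  -- the main part
  have h1 : SA (closure (rl {u : Option (Fin 1 ⊕ Fin r) → ℚ | u ∈ F.allPts ∧
      g.eval (u (some (Sum.inl 0))) ≠ 0 ∧ u none ≠ 0})) := by
    refine img_SA (κ := Empty) (chat_SA hgd q l c)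
      (q := fun w => w (Sum.inl (some none)) * g.eval (w (Sum.inl none)))
      ((PQ.coord _).mul (PQ.peval (PQ.coord _) g))
      (p := fun o w => match o with
        | none => g.eval (w (Sum.inl none)) ^ 2
        | some (Sum.inl _) => w (Sum.inl none) * (w (Sum.inl (some none)) * g.eval (w (Sum.inl none)))
        | some (Sum.inr j) => w (Sum.inl (some (some j))) * g.eval (w (Sum.inl none))) (fun o => ?_) fun u => ?_
    · rcases o with _ | (i | j)
      · exact (PQ.peval (PQ.coord _) g).pow 2
      · exact (PQ.coord _).mul ((PQ.coord _).mul (PQ.peval (PQ.coord _) g))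
      · exact (PQ.coord _).mul (PQ.peval (PQ.coord _) g)
    · constructor
      · rintro ⟨hu, hgn, hw⟩
        have hu : u none ^ 2 = F.val (fun i => u (some (Sum.inl i))) (fun j => u (some (Sum.inr j))) := hu
        rw [hval, hh] at hu
        set t := u (some (Sum.inl 0)) with ht
        set y : Fin r → ℚ := fun j => u (some (Sum.inr j)) with hy
        have hhn : qf q l c y ≠ 0 := by
          intro h0
          rw [h0, mul_zero] at hu
          exact hw (pow_eq_zero_iff (two_ne_zero) |>.mp hu)
        refine ⟨fun o => match o with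
          | none => t
          | some none => u none / qf q l c y
          | some (some j) => u none / qf q l c y * y j, ?_, fun x => x.elim, ?_, fun o => ?_⟩
        · simp only [Set.mem_ofPred_eq]
          have h3 : ∑ j, ∑ k, q j k * (u none / qf q l c y * y j) * (u none / qf q l c y * y k) +
              ∑ j, l j * (u none / qf q l c y * y j) * (u none / qf q l c y) +
              c * (u none / qf q l c y) ^ 2 = (u none / qf q l c y) ^ 2 * qf q l c y :=
            qf_hom q l c y _
          rw [h3, div_pow, hu]
          field_simp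
        · simp only [Sum.elim_inl]
          exact mul_ne_zero (div_ne_zero hw hhn) hgn
        · rcases o with _ | (i | j)
          · simp only [Sum.elim_inl]
            have : u none * u none = g.eval t * qf q l c y := by rw [← sq]; exact hu
            field_simp
            linear_combination this
          · rw [Subsingleton.elim i 0]
            simp only [Sum.elim_inl]
            field_simp
            rfl
          · simp only [Sum.elim_inl]
            field_simp
            rfl
      · rintro ⟨w, hw, x, hne, hu⟩
        simp only [Sum.elim_inl] at hne hu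
        have hu0 : w (some none) ≠ 0 := left_ne_zero_of_mul hne
        have hgn : g.eval (w none) ≠ 0 := right_ne_zero_of_mul hne
        have e1 : u none = g.eval (w none) / w (some none) := by
          have := hu none
          simp only at this
          rw [this]
          field_simp
        have e2 : ∀ i, u (some (Sum.inl i)) = w none := by
          intro i
          have := hu (some (Sum.inl i))
          simp only at this
          rw [this]
          field_simp
        have e3 : ∀ j, u (some (Sum.inr j)) = w (some (some j)) / w (some none) := by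
          intro j
          have := hu (some (Sum.inr j))
          simp only at this
          rw [this]
          field_simp
        refine ⟨?_, by rw [e2]; exact hgn, by rw [e1]; exact div_ne_zero hgn hu0⟩
        show u none ^ 2 = F.val (fun i => u (some (Sum.inl i))) (fun j => u (some (Sum.inr j)))
        rw [hval, hh]
        simp only [e1, e2, e3]
        simp only [Set.mem_ofPred_eq] at hw
        have h3 : qf q l c (fun j => w (some (some j)) / w (some none)) * w (some none) ^ 2 = g.eval (w none) := by
          rw [← hw]
          have e4 : ∀ j k, q j k * (w (some (some j)) / w (some none)) * (w (some (some k)) / w (some none)) =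
            (q j k * w (some (some j)) * w (some (some k))) * (1 / w (some none) ^ 2) := fun j k => by
              field_simp
          have e5 : ∀ j, l j * (w (some (some j)) / w (some none)) =
            (l j * w (some (some j)) * w (some none)) * (1 / w (some none) ^ 2) := fun j => by
              field_simp
          simp only [qf, e4, e5, ← Finset.sum_mul]
          field_simp
        rw [div_pow, ← h3]
        field_simp
  -- points with vanishing last coordinate
  have h2 : SA (closure (rl {u : Option (Fin 1 ⊕ Fin r) → ℚ | u ∈ F.allPts ∧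
      g.eval (u (some (Sum.inl 0))) ≠ 0 ∧ u none = 0})) := by
    refine img_SA (κ := Unit) (one_SA (f := fun y : Fin r → ℚ => qf q l c y) (qf_PD q l c id))
      (q := fun w => g.eval (w (Sum.inr ()))) (PQ.peval (PQ.coord _) g)
      (p := fun o w => match o with
        | none => 0
        | some (Sum.inl _) => w (Sum.inr ()) * g.eval (w (Sum.inr ()))
        | some (Sum.inr j) => w (Sum.inl j) * g.eval (w (Sum.inr ()))) (fun o => ?_) fun u => ?_
    · rcases o with _ | (i | j)
      · exact PQ.const 0
      · exact (PQ.coord _).mul (PQ.peval (PQ.coord _) g)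
      · exact (PQ.coord _).mul (PQ.peval (PQ.coord _) g)
    · constructor
      · rintro ⟨hu, hgn, hw⟩
        have hu : u none ^ 2 = F.val (fun i => u (some (Sum.inl i))) (fun j => u (some (Sum.inr j))) := hu
        rw [hval, hh, hw] at hu
        have h0 : qf q l c (fun j => u (some (Sum.inr j))) = 0 := by
          have : g.eval (u (some (Sum.inl 0))) * qf q l c (fun j => u (some (Sum.inr j))) = 0 := by
            rw [← hu]; norm_num
          exact (mul_eq_zero.mp this).resolve_left hgn
        refine ⟨fun j => u (some (Sum.inr j)), h0, fun _ => u (some (Sum.inl 0)), ?_, fun o => ?_⟩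
        · simpa using hgn
        · rcases o with _ | (i | j)
          · simpa using hw
          · rw [Subsingleton.elim i 0]
            simp only [Sum.elim_inr]
            field_simp
          · simp only [Sum.elim_inl, Sum.elim_inr]
            field_simp
      · rintro ⟨y, hy, x, hne, hu⟩
        simp only [Sum.elim_inl, Sum.elim_inr] at hne hu
        have e1 : u none = 0 := by
          have := hu none
          simpa using this
        have e2 : ∀ i, u (some (Sum.inl i)) = x () := by
          intro i
          have := hu (some (Sum.inl i))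
          simp only at this
          rw [this]
          field_simp
        have e3 : ∀ j, u (some (Sum.inr j)) = y j := by
          intro j
          have := hu (some (Sum.inr j))
          simp only at this
          rw [this]
          field_simp
        refine ⟨?_, by rw [e2]; exact hne, e1⟩
        show u none ^ 2 = F.val (fun i => u (some (Sum.inl i))) (fun j => u (some (Sum.inr j)))
        rw [hval, hh]
        simp only [e1, e2, e3]
        have hy : qf q l c y = 0 := hy
        rw [hy]
        norm_num
  have heq : F.allPts = ({u : Option (Fin 1 ⊕ Fin r) → ℚ | u ∈ F.allPts ∧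
      g.eval (u (some (Sum.inl 0))) ≠ 0 ∧ u none ≠ 0} ∪ {u : Option (Fin 1 ⊕ Fin r) → ℚ | u ∈ F.allPts ∧
      g.eval (u (some (Sum.inl 0))) ≠ 0 ∧ u none = 0}) ∪ ⋃ b ∈ {b : ℚ | g.eval b = 0}, F.fib b := by
    apply Subset.antisymm
    · intro u hu
      by_cases h0 : g.eval (u (some (Sum.inl 0))) = 0
      · right
        simp only [Set.mem_iUnion]
        exact ⟨_, h0, hu, rfl⟩
      · left
        by_cases hw : u none = 0
        · right
          exact ⟨hu, h0, hw⟩
        · left
          exact ⟨hu, h0, hw⟩
    · rintro u ((⟨hu, -⟩ | ⟨hu, -⟩) | hu)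
      · exact hu
      · exact hu
      · simp only [Set.mem_iUnion] at hu
        obtain ⟨b, -, hu, -⟩ := hu
        exact hu
  rw [heq]
  exact union_SA (union_SA h1 h2) (F.fibs_SA (roots_fin hg0))

/-- **The unconditional theorem over the line.** -/
theorem line_SA {F : Fam 1 r} (hF : F.Deg4) : SA (closure (rl F.allPts)) := by
  by_cases hA : ∀ a v, qa (F.q a) v = 0
  · exact case2 hF hA
  · push Not at hA
    rcases F.cases4 0 with h | h | h | h
    · exact case1 hF h
    · exact case2 hF h
    · exact case3 hF h hA
    · exact case4 hF h hA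

end Fam

end Pool.Agent.Y718
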