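import Pool.Agent.Y718.Key

/-!
# Primes at which one polynomial is more divisible than another one
-/

set_option autoImplicit false
set_option linter.unusedSectionVars false
set_option linter.unusedSimpArgs false

open Set Filter Topology Polynomial Pool.Agent.TH954

namespace Pool.Agent.Y718

/-- a nonconstant integer polynomial has zeros modulo arbitrarily large primes -/
lemma schur (P : ℤ[X]) (hP : P.natDegree ≠ 0) (M : ℕ) :
    ∃ p : ℕ, p.Prime ∧ M < p ∧ ∃ t : ℤ, (p : ℤ) ∣ P.eval t := by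
  have hfin : ∀ c : ℤ, {t : ℤ | P.eval t = c}.Finite := by
    intro c
    have h0 : P - C c ≠ 0 := by
      intro h
      apply hP
      rw [sub_eq_zero.mp h, natDegree_C]
    refine (Multiset.toFinset (P - C c).roots).finite_toSet.subset ?_
    intro t ht
    simp only [Set.mem_ofPred_eq] at ht
    rw [Finset.mem_coe, Multiset.mem_toFinset, mem_roots h0, IsRoot.def, eval_sub, eval_C, ht, sub_self]
  obtain ⟨m, hm⟩ := (hfin 0).exists_notMem
  set c := P.eval m with hc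
  have hc0 : c ≠ 0 := hm
  set N : ℤ := (M.factorial : ℤ) with hN
  have hN0 : N ≠ 0 := by rw [hN]; exact_mod_cast M.factorial_ne_zero
  have hinj : Function.Injective fun k : ℤ => m + c * N * k := by
    intro a b hab
    simp only [add_right_inj] at hab
    exact mul_left_cancel₀ (mul_ne_zero hc0 hN0) hab
  have hfin2 : {k : ℤ | P.eval (m + c * N * k) = c ∨ P.eval (m + c * N * k) = -c}.Finite :=
    Set.Finite.preimage hinj.injOn ((hfin c).union (hfin (-c)))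
  obtain ⟨k, hk⟩ := hfin2.exists_notMem
  simp only [Set.mem_ofPred_eq, not_or] at hk
  obtain ⟨j, hj⟩ := P.sub_dvd_eval_sub (m + c * N * k) m
  have hval : P.eval (m + c * N * k) = c * (1 + N * k * j) := by
    rw [← hc] at hj
    linear_combination hj
  have hne : (1 + N * k * j).natAbs ≠ 1 := by
    intro h
    rcases Int.natAbs_eq_iff.mp h with h1 | h1
    · apply hk.1; rw [hval, h1]; push_cast; ring
    · apply hk.2; rw [hval, h1]; push_cast; ring
  obtain ⟨p, hp, hpd⟩ := Nat.exists_prime_and_dvd hne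
  have hpd' : (p : ℤ) ∣ 1 + N * k * j := Int.natCast_dvd.mpr hpd
  refine ⟨p, hp, ?_, m + c * N * k, ?_⟩
  · by_contra hcon
    push Not at hcon
    have h1 : (p : ℤ) ∣ N := by
      rw [hN]
      exact_mod_cast (Nat.Prime.dvd_factorial hp).mpr hcon
    have h2 : (p : ℤ) ∣ 1 := by
      have : (1 : ℤ) = (1 + N * k * j) - N * (k * j) := by ring
      rw [this]
      exact dvd_sub hpd' (Dvd.dvd.mul_right h1 _)
    have h3 : p ∣ 1 := by exact_mod_cast h2
    exact hp.one_lt.ne' (Nat.dvd_one.mp h3)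
  · rw [hval]
    exact Dvd.dvd.mul_left hpd' _

section

variable {p : ℕ} [hp : Fact p.Prime]

/-- `p`-integral polynomials -/
def PInt (p : ℕ) [Fact p.Prime] (q : ℚ[X]) : Prop := ∀ k, ‖((q.coeff k : ℚ) : ℚ_[p])‖ ≤ 1

lemma usum {α : Type*} (s : Finset α) (f : α → ℚ_[p]) {r : ℝ} (hr : 0 ≤ r) (h : ∀ a ∈ s, ‖f a‖ ≤ r) :
    ‖∑ a ∈ s, f a‖ ≤ r := by
  classical
  induction s using Finset.induction_on with
  | empty => simpa using hr
  | insert a s ha ih =>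
    rw [Finset.sum_insert ha]
    exact uadd (h a (by simp)) (ih fun b hb => h b (by simp [hb]))

lemma eval_cast (q : ℚ[X]) (x : ℚ) :
    ((q.eval x : ℚ) : ℚ_[p]) = ∑ i ∈ Finset.range (q.natDegree + 1), ((q.coeff i : ℚ) : ℚ_[p]) * (x : ℚ_[p]) ^ i := by
  rw [eval_eq_sum_range]
  push_cast
  rfl

lemma PInt.le_one {q : ℚ[X]} (hq : PInt p q) {x : ℚ} (hx : ‖(x : ℚ_[p])‖ ≤ 1) :
    ‖((q.eval x : ℚ) : ℚ_[p])‖ ≤ 1 := by
  rw [eval_cast]
  refine usum _ _ zero_le_one fun i _ => ?_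
  refine umul (hq i) ?_
  rw [norm_pow]
  exact pow_le_one₀ (norm_nonneg _) hx

lemma pow_sub_le {x y : ℚ_[p]} (hx : ‖x‖ ≤ 1) (hy : ‖y‖ ≤ 1) (i : ℕ) : ‖x ^ i - y ^ i‖ ≤ ‖x - y‖ := by
  induction i with
  | zero => simp
  | succ i ih =>
    have h : x ^ (i + 1) - y ^ (i + 1) = x ^ i * (x - y) + (x ^ i - y ^ i) * y := by ring
    rw [h]
    refine uadd ?_ ?_
    · rw [norm_mul]
      calc _ ≤ 1 * ‖x - y‖ := by
            gcongr
            rw [norm_pow]
            exact pow_le_one₀ (norm_nonneg _) hx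
        _ = _ := one_mul _
    · rw [norm_mul]
      calc _ ≤ ‖x - y‖ * 1 := by gcongr
        _ = _ := mul_one _

lemma PInt.sub_le {q : ℚ[X]} (hq : PInt p q) {x y : ℚ} (hx : ‖(x : ℚ_[p])‖ ≤ 1)
    (hy : ‖(y : ℚ_[p])‖ ≤ 1) :
    ‖((q.eval x - q.eval y : ℚ) : ℚ_[p])‖ ≤ ‖((x - y : ℚ) : ℚ_[p])‖ := by
  rw [Rat.cast_sub, eval_cast, eval_cast, ← Finset.sum_sub_distrib]
  refine usum _ _ (norm_nonneg _) fun i _ => ?_
  rw [← mul_sub, norm_mul, Rat.cast_sub]
  calc _ ≤ 1 * ‖(x : ℚ_[p]) - y‖ := by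
        gcongr
        · exact hq i
        · exact pow_sub_le hx hy i
    _ = _ := one_mul _

end

/-- a polynomial is integral at all but finitely many primes -/
lemma exists_PInt (q : ℚ[X]) : ∃ M : ℕ, ∀ (p : ℕ) [Fact p.Prime], M < p → PInt p q := by
  classical
  obtain ⟨M, hM⟩ := good_fin ((Finset.range (q.natDegree + 1)).image q.coeff)
  refine ⟨M, fun p _ hp k => ?_⟩
  by_cases hk : k < q.natDegree + 1
  · exact (hM p hp _ (Finset.mem_image_of_mem _ (Finset.mem_range.mpr hk))).1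
  · rw [coeff_eq_zero_of_natDegree_lt (by omega)]
    simp

/-- **the number theoretic lemma** -/
theorem prime_ndvd {B T : ℚ[X]} (hB : B ≠ 0) (h : ¬ B ∣ T) (M : ℕ) :
    ∃ (p : ℕ) (_ : Fact p.Prime), M < p ∧ ∃ t0 : ℤ, ∀ t : ℚ, ‖((t - t0 : ℚ) : ℚ_[p])‖ < 1 →
      B.eval t ≠ 0 → ‖((B.eval t : ℚ) : ℚ_[p])‖ < ‖((T.eval t : ℚ) : ℚ_[p])‖ := by
  classical
  obtain ⟨B1, hB1⟩ := EuclideanDomain.gcd_dvd_left B T
  obtain ⟨T1, hT1⟩ := EuclideanDomain.gcd_dvd_right B T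
  set G := EuclideanDomain.gcd B T with hG
  have hG0 : G ≠ 0 := by
    intro h0
    apply hB
    rw [hB1, h0, zero_mul]
  have hcop : IsCoprime B1 T1 := by
    obtain ⟨u, v, huv⟩ : ∃ u v, u * B + v * T = G :=
      ⟨EuclideanDomain.gcdA B T, EuclideanDomain.gcdB B T, by
        rw [hG, EuclideanDomain.gcd_eq_gcd_ab B T]; ring⟩
    refine ⟨u, v, ?_⟩
    apply mul_left_cancel₀ hG0
    calc G * (u * B1 + v * T1) = u * (G * B1) + v * (G * T1) := by ring
      _ = u * B + v * T := by rw [← hB1, ← hT1]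
      _ = G * 1 := by rw [huv, mul_one]
  obtain ⟨U, V, hUV⟩ := hcop
  have hdeg : B1.natDegree ≠ 0 := by
    intro h0
    apply h
    have h1 : B1 = C (B1.coeff 0) := eq_C_of_natDegree_eq_zero h0
    have h2 : B1.coeff 0 ≠ 0 := by
      intro h3
      apply hB
      rw [hB1, h1, h3, C_0, mul_zero]
    refine ⟨C (B1.coeff 0)⁻¹ * T1, ?_⟩
    rw [hB1]
    conv_lhs => rw [hT1]
    rw [h1, coeff_C_zero]
    have : (C (B1.coeff 0) * C (B1.coeff 0)⁻¹ : ℚ[X]) = 1 := by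
      rw [← C_mul, mul_inv_cancel₀ h2, C_1]
    calc G * T1 = G * ((C (B1.coeff 0) * C (B1.coeff 0)⁻¹) * T1) := by rw [this, one_mul]
      _ = _ := by ring
  obtain ⟨b, hbm, hb⟩ := IsLocalization.integerNormalization_spec (nonZeroDivisors ℤ) B1
  set P := IsLocalization.integerNormalization (nonZeroDivisors ℤ) B1 with hP
  have hb0 : b ≠ 0 := nonZeroDivisors.ne_zero hbm
  have hPdeg : P.natDegree ≠ 0 := by
    have h1 : (P.map (algebraMap ℤ ℚ)).natDegree = P.natDegree :=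
      natDegree_map_eq_of_injective (algebraMap ℤ ℚ).injective_int P
    rw [← h1, hb]
    have : b • B1 = C (b : ℚ) * B1 := by
      rw [zsmul_eq_mul]
      simp
    rw [this, natDegree_C_mul (by exact_mod_cast hb0)]
    exact hdeg
  have hPe : ∀ t : ℤ, ((P.eval t : ℤ) : ℚ) = (b : ℚ) * B1.eval (t : ℚ) := by
    intro t
    have h1 : (P.map (algebraMap ℤ ℚ)).eval (t : ℚ) = ((P.eval t : ℤ) : ℚ) := by
      simp
    rw [← h1, hb, zsmul_eq_mul, eval_mul]
    simp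
  obtain ⟨M1, hM1⟩ := exists_PInt B1
  obtain ⟨M2, hM2⟩ := exists_PInt T1
  obtain ⟨M3, hM3⟩ := exists_PInt U
  obtain ⟨M4, hM4⟩ := exists_PInt V
  obtain ⟨M5, hM5⟩ := good_one (b : ℚ)
  obtain ⟨p, hp, hMp, t0, ht0⟩ := schur P hPdeg (M + M1 + M2 + M3 + M4 + M5)
  have : Fact p.Prime := ⟨hp⟩
  refine ⟨p, inferInstance, by omega, t0, fun t ht hBt => ?_⟩
  have i1 := hM1 p (by omega)
  have i2 := hM2 p (by omega)
  have i3 := hM3 p (by omega)
  have i4 := hM4 p (by omega)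
  have hbu := (hM5 p (by omega)).2 (by exact_mod_cast hb0)
  have ht0n : ‖((t0 : ℚ) : ℚ_[p])‖ ≤ 1 := by
    have := Padic.norm_int_le_one (p := p) t0
    simpa using this
  have htn : ‖(t : ℚ_[p])‖ ≤ 1 := by
    have : (t : ℚ_[p]) = ((t - t0 : ℚ) : ℚ_[p]) + ((t0 : ℚ) : ℚ_[p]) := by push_cast; ring
    rw [this]
    exact uadd ht.le ht0n
  have h1 : ‖((B1.eval (t0 : ℚ) : ℚ) : ℚ_[p])‖ < 1 := by
    have e := hPe t0
    have e2 : (((P.eval t0 : ℤ) : ℚ) : ℚ_[p]) = ((b : ℚ) : ℚ_[p]) * ((B1.eval (t0 : ℚ) : ℚ) : ℚ_[p]) := by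
      rw [e]; push_cast; rfl
    have e3 : ‖(((P.eval t0 : ℤ) : ℚ) : ℚ_[p])‖ < 1 := by
      have := (Padic.norm_intCast_lt_one_iff (p := p) (k := P.eval t0)).mpr ht0
      simpa using this
    rw [e2, norm_mul, hbu, one_mul] at e3
    exact e3
  have h2 : ‖((B1.eval t : ℚ) : ℚ_[p])‖ < 1 := by
    have e : ((B1.eval t : ℚ) : ℚ_[p]) = ((B1.eval t - B1.eval (t0 : ℚ) : ℚ) : ℚ_[p]) +
        ((B1.eval (t0 : ℚ) : ℚ) : ℚ_[p]) := by push_cast; ring
    rw [e]
    exact lt_of_le_of_lt (uadd (le_max_left _ _) (le_max_right _ _))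
      (max_lt (lt_of_le_of_lt (i1.sub_le htn ht0n) ht) h1)
  have h3 : ‖((T1.eval t : ℚ) : ℚ_[p])‖ = 1 := by
    have e := congrArg (fun q : ℚ[X] => ((q.eval t : ℚ) : ℚ_[p])) hUV
    simp only [eval_add, eval_mul, eval_one] at e
    push_cast at e
    have e1 : ‖((U.eval t : ℚ) : ℚ_[p]) * ((B1.eval t : ℚ) : ℚ_[p])‖ < 1 := by
      rw [norm_mul]
      calc _ ≤ 1 * ‖((B1.eval t : ℚ) : ℚ_[p])‖ := by gcongr; exact i3.le_one htn
        _ < 1 := by rw [one_mul]; exact h2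
    have e2 : ‖((V.eval t : ℚ) : ℚ_[p]) * ((T1.eval t : ℚ) : ℚ_[p])‖ = 1 := by
      have : ((V.eval t : ℚ) : ℚ_[p]) * ((T1.eval t : ℚ) : ℚ_[p]) = 1 -
          ((U.eval t : ℚ) : ℚ_[p]) * ((B1.eval t : ℚ) : ℚ_[p]) := by linear_combination e
      rw [this, usub_eq, norm_one]
      rw [norm_one]; exact e1
    have e3 := i4.le_one htn
    have e4 := i2.le_one htn
    rw [norm_mul] at e2
    refine le_antisymm e4 ?_
    calc 1 = _ := e2.symm
      _ ≤ 1 * ‖((T1.eval t : ℚ) : ℚ_[p])‖ := by gcongr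
      _ = _ := one_mul _
  have hBe : ((B.eval t : ℚ) : ℚ_[p]) = ((G.eval t : ℚ) : ℚ_[p]) * ((B1.eval t : ℚ) : ℚ_[p]) := by
    rw [hB1]; push_cast [eval_mul]; rfl
  have hTe : ((T.eval t : ℚ) : ℚ_[p]) = ((G.eval t : ℚ) : ℚ_[p]) * ((T1.eval t : ℚ) : ℚ_[p]) := by
    conv_lhs => rw [hT1]
    push_cast [eval_mul]; rfl
  have hGt : ((G.eval t : ℚ) : ℚ_[p]) ≠ 0 := by
    intro h0
    apply hBt
    have : ((B.eval t : ℚ) : ℚ_[p]) = 0 := by rw [hBe, h0, zero_mul]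
    exact_mod_cast this
  rw [hBe, hTe, norm_mul, norm_mul, h3, mul_one]
  calc _ < ‖((G.eval t : ℚ) : ℚ_[p])‖ * 1 := by
        apply mul_lt_mul_of_pos_left h2
        exact norm_pos_iff.mpr hGt
    _ = _ := mul_one _

end Pool.Agent.Y718
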