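import Pool.Agent.Y718.Quartic

/-!
# Quartics with infinitely many square values, second criterion

The double of the class `P - P'` reduces to the identity modulo `p`.
-/

set_option autoImplicit false
set_option linter.unusedSectionVars false

open WeierstrassCurve Pool.Agent.TH954

namespace Pool.Agent.Y718

/-- the cubic covariant at the base point -/
def cB (f0 f1 f2 f3 : ℚ) : ℚ := f1 ^ 3 - 4 * f0 * f1 * f2 + 8 * f0 ^ 2 * f3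

/-- the quartic covariant at the base point -/
def cT (f0 f1 f2 f4 : ℚ) : ℚ := (f1 ^ 2 - 4 * f0 * f2) ^ 2 - 64 * f0 ^ 3 * f4

/-- **Infinitely many square values, second criterion.** -/
theorem inf_quartic2 {p : ℕ} [Fact p.Prime] (h5 : 5 ≤ p) (f1 f2 f3 f4 w0 : ℚ)
    (h1 : ‖(f1 : ℚ_[p])‖ ≤ 1) (h2 : ‖(f2 : ℚ_[p])‖ ≤ 1) (h3 : ‖(f3 : ℚ_[p])‖ ≤ 1)
    (h4 : ‖(f4 : ℚ_[p])‖ ≤ 1) (hw : ‖(w0 : ℚ_[p])‖ = 1)
    (hB0 : cB (w0 ^ 2) f1 f2 f3 ≠ 0)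
    (hBT : ‖((cB (w0 ^ 2) f1 f2 f3 : ℚ) : ℚ_[p])‖ < ‖((cT (w0 ^ 2) f1 f2 f4 : ℚ) : ℚ_[p])‖) :
    {t : ℚ | ∃ w : ℚ, w ^ 2 = qv (w0 ^ 2) f1 f2 f3 f4 t}.Infinite := by
  have hp : p.Prime := Fact.out
  have hn : ∀ n : ℕ, ¬ p ∣ n → ‖(n : ℚ_[p])‖ = 1 := by
    intro n hnd
    have h7 : ¬ ‖((n : ℤ) : ℚ_[p])‖ < 1 := by
      rw [Padic.norm_intCast_lt_one_iff]
      exact_mod_cast hnd
    have h8 := Padic.norm_int_le_one (p := p) (n : ℤ)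
    have : ((n : ℤ) : ℚ_[p]) = (n : ℚ_[p]) := by push_cast; rfl
    rw [this] at h7 h8
    exact le_antisymm h8 (not_lt.mp h7)
  have n2 : ‖(2 : ℚ_[p])‖ = 1 := by
    have := hn 2 (fun h => by have := Nat.le_of_dvd (by norm_num) h; omega)
    exact_mod_cast this
  have n3 : ‖(3 : ℚ_[p])‖ = 1 := by
    have := hn 3 (fun h => by have := Nat.le_of_dvd (by norm_num) h; omega)
    exact_mod_cast this
  have hw0 : w0 ≠ 0 := by
    rintro rfl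
    simp at hw
  set B := cB (w0 ^ 2) f1 f2 f3 with hB
  set T := cT (w0 ^ 2) f1 f2 f4 with hT
  set c : ℚ := f1 * f3 - 4 * w0 ^ 2 * f4 with hc
  set d : ℚ := w0 ^ 2 * f3 ^ 2 + f1 ^ 2 * f4 - 4 * w0 ^ 2 * f2 * f4 with hd
  set A : ℚ := (f1 ^ 2 - 4 * f2 * w0 ^ 2) / (4 * w0 ^ 2) with hA
  set y1 : ℚ := -B / (8 * w0 ^ 3) with hy1
  set R : ℚ := T / (4 * w0 * B) with hR
  set m : ℚ := -(R + f1 / (2 * w0)) with hm
  set X2 : ℚ := m ^ 2 - f2 - 2 * A with hX2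
  set Y2 : ℚ := -(y1 + m * (X2 - A)) with hY2
  have e1 : y1 ^ 2 = A ^ 3 + f2 * A ^ 2 + c * A + d := by
    rw [hy1, hA, hc, hd, hB, cB]
    field_simp
    ring
  have e2 : 2 * m * y1 = 3 * A ^ 2 + 2 * f2 * A + c := by
    have hRB : R * B = T / (4 * w0) := by
      rw [hR]
      field_simp
    have : 2 * m * y1 = (R * B) / (4 * w0 ^ 3) + f1 * B / (8 * w0 ^ 4) := by
      rw [hm, hy1]
      field_simp
      ring
    rw [this, hRB, hA, hc, hB, hT, cB, cT]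
    field_simp
    ring
  have e3 : Y2 ^ 2 = X2 ^ 3 + f2 * X2 ^ 2 + c * X2 + d := by
    have : X2 + 2 * A + f2 - m ^ 2 = 0 := by rw [hX2]; ring
    rw [hY2]
    linear_combination e1 + (X2 - A) * e2 - (X2 - A) ^ 2 * this
  have hwp : ‖(w0 : ℚ_[p])⁻¹‖ = 1 := by rw [norm_inv, hw, inv_one]
  have n4 : ‖((4 : ℚ_[p]))⁻¹‖ = 1 := by
    have : (4 : ℚ_[p]) = 2 * 2 := by norm_num
    rw [norm_inv, this, norm_mul, n2, one_mul, inv_one]
  have ninv2 : ‖((2 : ℚ_[p]))⁻¹‖ = 1 := by rw [norm_inv, n2, inv_one]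
  have hw2 : ‖(w0 : ℚ_[p]) ^ 2‖ ≤ 1 := by
    rw [norm_pow, hw, one_pow]
  have hwi2 : ‖((w0 : ℚ_[p]) ^ 2)⁻¹‖ ≤ 1 := by
    rw [norm_inv, norm_pow, hw, one_pow, inv_one]
  have hcn : ‖(c : ℚ_[p])‖ ≤ 1 := by
    rw [hc]; push_cast
    exact usub (umul h1 h3) (umul (umul u4 hw2) h4)
  have hdn : ‖(d : ℚ_[p])‖ ≤ 1 := by
    rw [hd]; push_cast
    refine usub (uadd (umul hw2 ?_) (umul ?_ h4)) (umul (umul (umul u4 hw2) h2) h4)
    · rw [norm_pow]; exact pow_le_one₀ (norm_nonneg _) h3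
    · rw [norm_pow]; exact pow_le_one₀ (norm_nonneg _) h1
  have hAn : ‖(A : ℚ_[p])‖ ≤ 1 := by
    rw [hA]; push_cast
    have : ((f1 : ℚ_[p]) ^ 2 - 4 * f2 * w0 ^ 2) / (4 * w0 ^ 2) =
        ((f1 : ℚ_[p]) ^ 2 - 4 * f2 * w0 ^ 2) * (4⁻¹ * ((w0 : ℚ_[p]) ^ 2)⁻¹) := by
      rw [div_eq_mul_inv, mul_inv]
    rw [this]
    refine umul (usub ?_ (umul (umul u4 h2) hw2)) (umul n4.le hwi2)
    rw [norm_pow]; exact pow_le_one₀ (norm_nonneg _) h1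
  have hRn : 1 < ‖(R : ℚ_[p])‖ := by
    rw [hR]; push_cast
    have hBp : 0 < ‖(B : ℚ_[p])‖ := norm_pos_iff.mpr (by exact_mod_cast hB0)
    have n4' : ‖(4 : ℚ_[p])‖ = 1 := by
      have : (4 : ℚ_[p]) = 2 * 2 := by norm_num
      rw [this, norm_mul, n2, one_mul]
    rw [norm_div, norm_mul, norm_mul, n4', hw, one_mul, one_mul, one_lt_div hBp]
    exact hBT
  have hmn : ‖(m : ℚ_[p])‖ = ‖(R : ℚ_[p])‖ := by
    rw [hm]; push_cast
    rw [norm_neg]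
    have h8 : ‖(f1 : ℚ_[p]) / (2 * w0)‖ ≤ 1 := by
      rw [div_eq_mul_inv, mul_inv]
      exact umul h1 (umul ninv2.le hwp.le)
    have : (R : ℚ_[p]) + f1 / (2 * w0) = R - (-(f1 / (2 * w0))) := by ring
    rw [this, usub_eq]
    rw [norm_neg]
    exact lt_of_le_of_lt h8 hRn
  apply inf_sq f1 f2 f3 f4 w0 hw0
  have hthird : ‖((3 : ℚ_[p]))⁻¹‖ = 1 := by rw [norm_inv, n3, inv_one]
  have key := inf_short (p := p) (c - f2 ^ 2 / 3) (2 * f2 ^ 3 / 27 - c * f2 / 3 + d)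
    (X2 + f2 / 3) Y2 ?_ ?_ ?_ ?_
  · intro hfin
    apply key
    refine Set.Finite.of_finite_image (f := fun z : ℚ × ℚ => (z.1 - f2 / 3, z.2)) (hfin.subset ?_) ?_
    · rintro _ ⟨⟨x, y⟩, hz, rfl⟩
      simp only [Set.mem_ofPred_eq] at hz ⊢
      rw [hz]
      ring
    · rintro ⟨x, y⟩ - ⟨x', y'⟩ - h
      simp only [Prod.mk.injEq] at h ⊢
      exact ⟨by linarith [h.1], h.2⟩
  · push_cast
    refine usub hcn ?_
    rw [div_eq_mul_inv, mul_comm]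
    refine umul hthird.le ?_
    rw [norm_pow]; exact pow_le_one₀ (norm_nonneg _) h2
  · push_cast
    refine uadd (usub ?_ ?_) hdn
    · have : (2 : ℚ_[p]) * (f2 : ℚ_[p]) ^ 3 / 27 = (2 : ℚ_[p]) * (3⁻¹ ^ 3 * (f2 : ℚ_[p]) ^ 3) := by
        field_simp; norm_num
      rw [this]
      refine umul n2.le (umul ?_ ?_)
      · rw [norm_pow, hthird, one_pow]
      · rw [norm_pow]; exact pow_le_one₀ (norm_nonneg _) h2
    · have : (c : ℚ_[p]) * f2 / 3 = 3⁻¹ * (c * f2) := by field_simp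
      rw [this]
      exact umul hthird.le (umul hcn h2)
  · rw [e3]
    ring
  · have h9 : ((X2 + f2 / 3 : ℚ) : ℚ_[p]) = (m : ℚ_[p]) ^ 2 - (2 * (3⁻¹ * f2) + 2 * A) := by
      rw [hX2]
      push_cast
      ring
    have h10 : ‖(2 : ℚ_[p]) * (3⁻¹ * f2) + 2 * A‖ ≤ 1 :=
      uadd (umul n2.le (umul hthird.le h2)) (umul n2.le hAn)
    have h11 : 1 < ‖(m : ℚ_[p]) ^ 2‖ := by
      rw [norm_pow, hmn]
      exact one_lt_pow₀ hRn (by norm_num)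
    rw [h9, usub_eq]
    · exact h11
    · exact lt_of_le_of_lt h10 h11

end Pool.Agent.Y718
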