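import Pool.Agent.Y718.Gen
import Pool.Agent.Y718.NT
import Pool.Agent.Y718.Quartic2

/-!
# Restrictions to lines, and the cubic and quartic covariants
-/

set_option autoImplicit false
set_option linter.unusedSectionVars false
set_option linter.unusedSimpArgs false

open Set Filter Topology Pool.Agent.H581R2 Pool.Agent.TH729.SQ

namespace Pool.Agent.Y718

variable {n : ℕ}

/-- the restriction of `f` to the line through `z` with direction `v` -/
noncomputable def lp (f : MvPolynomial (Fin n) ℚ) (z v : Fin n → ℚ) : Polynomial ℚ :=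
  MvPolynomial.aeval (fun k => Polynomial.C (z k) + Polynomial.C (v k) * Polynomial.X) f

/-- the cubic covariant at the base point -/
def covB (q : Polynomial ℚ) : ℚ := cB (q.coeff 0) (q.coeff 1) (q.coeff 2) (q.coeff 3)

/-- the quartic covariant at the base point -/
def covT (q : Polynomial ℚ) : ℚ := cT (q.coeff 0) (q.coeff 1) (q.coeff 2) (q.coeff 4)

lemma lp_eval (f : MvPolynomial (Fin n) ℚ) (z v : Fin n → ℚ) (t : ℚ) :
    (lp f z v).eval t = MvPolynomial.eval (z + t • v) f := line_eval z v f t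

lemma lp_zero (f : MvPolynomial (Fin n) ℚ) (z v : Fin n → ℚ) :
    (lp f z v).coeff 0 = MvPolynomial.eval z f := by
  rw [Polynomial.coeff_zero_eq_eval_zero, lp_eval, zero_smul, add_zero]

lemma lp_aeval (f : MvPolynomial (Fin n) ℚ) (z v : Fin n → ℚ) (t : ℝ) :
    Polynomial.aeval t (lp f z v) = (MvPolynomial.aeval (fun k => (z k : ℝ) + t * (v k : ℝ)) f : ℝ) := by
  unfold lp
  induction f using MvPolynomial.induction_on with
  | C c => simp
  | add p q hp hq => simp [hp, hq]
  | mul_X p j hp =>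
    simp [hp]
    left
    ring

lemma lp_smul (f : MvPolynomial (Fin n) ℚ) (z v : Fin n → ℚ) (c : ℚ) :
    lp f z (c • v) = (lp f z v).comp (Polynomial.C c * Polynomial.X) := by
  induction f using MvPolynomial.induction_on with
  | C c => simp [lp]
  | add p q hp hq =>
    simp only [lp, map_add, Polynomial.add_comp] at hp hq ⊢
    rw [hp, hq]
  | mul_X p j hp =>
    simp only [lp, map_mul, Polynomial.mul_comp, MvPolynomial.aeval_X, Polynomial.add_comp,
      Polynomial.C_comp, Polynomial.X_comp] at hp ⊢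
    rw [hp]
    simp only [Pi.smul_apply, smul_eq_mul, map_mul]
    ring

lemma lp_smul_coeff (f : MvPolynomial (Fin n) ℚ) (z v : Fin n → ℚ) (c : ℚ) (k : ℕ) :
    (lp f z (c • v)).coeff k = (lp f z v).coeff k * c ^ k := by
  rw [lp_smul, Polynomial.comp_C_mul_X_coeff]

lemma covB_smul (f : MvPolynomial (Fin n) ℚ) (z v : Fin n → ℚ) (c : ℚ) :
    covB (lp f z (c • v)) = c ^ 3 * covB (lp f z v) := by
  simp only [covB, cB, lp_smul_coeff]
  ring

lemma covT_smul (f : MvPolynomial (Fin n) ℚ) (z v : Fin n → ℚ) (c : ℚ) :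
    covT (lp f z (c • v)) = c ^ 4 * covT (lp f z v) := by
  simp only [covT, cT, lp_smul_coeff]
  ring

/-- the coefficients of the restriction are polynomial functions of the point and the direction -/
lemma PQ_lp_coeff (f : MvPolynomial (Fin n) ℚ) (k : ℕ) :
    PQ (fun y : Fin n ⊕ Fin n → ℚ => (lp f (fun i => y (Sum.inl i)) (fun i => y (Sum.inr i))).coeff k) := by
  induction f using MvPolynomial.induction_on generalizing k with
  | C c =>
    have : (fun y : Fin n ⊕ Fin n → ℚ => (lp (MvPolynomial.C c) (fun i => y (Sum.inl i))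
        (fun i => y (Sum.inr i))).coeff k) = fun _ => if k = 0 then c else 0 := by
      funext y
      simp [lp, Polynomial.coeff_C]
    rw [this]
    exact PQ.const _
  | add p q hp hq =>
    have := (hp k).add (hq k)
    refine cast ?_ this
    congr 1
    funext y
    simp [lp]
  | mul_X p j hp =>
    have h1 : (fun y : Fin n ⊕ Fin n → ℚ => (lp (p * MvPolynomial.X j) (fun i => y (Sum.inl i))
        (fun i => y (Sum.inr i))).coeff k) = fun y =>
        (lp p (fun i => y (Sum.inl i)) (fun i => y (Sum.inr i))).coeff k * y (Sum.inl j) +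
        (if k = 0 then 0 else (lp p (fun i => y (Sum.inl i)) (fun i => y (Sum.inr i))).coeff (k - 1)) *
          y (Sum.inr j) := by
      funext y
      have h2 : lp (p * MvPolynomial.X j) (fun i => y (Sum.inl i)) (fun i => y (Sum.inr i)) =
          lp p (fun i => y (Sum.inl i)) (fun i => y (Sum.inr i)) * Polynomial.C (y (Sum.inl j)) +
          (lp p (fun i => y (Sum.inl i)) (fun i => y (Sum.inr i)) * Polynomial.X) *
            Polynomial.C (y (Sum.inr j)) := by
        simp only [lp, map_mul, MvPolynomial.aeval_X]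
        ring
      rw [h2, Polynomial.coeff_add, Polynomial.coeff_mul_C, Polynomial.coeff_mul_C]
      congr 2
      rcases k with _ | k
      · simp
      · simp
    rw [h1]
    refine ((hp k).mul (PQ.coord _)).add (PQ.mul ?_ (PQ.coord _))
    by_cases h : k = 0
    · simp only [h, if_true]; exact PQ.const 0
    · simp only [if_neg h]; exact hp (k - 1)

/-- composition of polynomial functions -/
lemma PQ.comp {ι κ : Type} {g : (ι → ℚ) → ℚ} (hg : PQ g) {φ : ι → (κ → ℚ) → ℚ} (hφ : ∀ i, PQ (φ i)) :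
    PQ (fun y => g fun i => φ i y) := by
  obtain ⟨p, hp⟩ := hg
  have := PQ.eval hφ p
  refine cast ?_ this
  congr 1
  funext y
  exact (hp _).symm

lemma PQ_covB (f : MvPolynomial (Fin n) ℚ) :
    PQ (fun y : Fin n ⊕ Fin n → ℚ => covB (lp f (fun i => y (Sum.inl i)) (fun i => y (Sum.inr i)))) := by
  have h := PQ_lp_coeff f
  exact (((h 1).pow 3).sub ((((PQ.const 4).mul (h 0)).mul (h 1)).mul (h 2))).add
    (((PQ.const 8).mul ((h 0).pow 2)).mul (h 3))

lemma PQ_covT (f : MvPolynomial (Fin n) ℚ) :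
    PQ (fun y : Fin n ⊕ Fin n → ℚ => covT (lp f (fun i => y (Sum.inl i)) (fun i => y (Sum.inr i)))) := by
  have h := PQ_lp_coeff f
  exact (((((h 1).pow 2).sub (((PQ.const 4).mul (h 0)).mul (h 2))).pow 2).sub
    (((PQ.const 64).mul ((h 0).pow 3)).mul (h 4)))

/-- a polynomial function of the point and the direction, for a fixed direction -/
lemma PQ_fixv {g : (Fin n ⊕ Fin n → ℚ) → ℚ} (hg : PQ g) (v : Fin n → ℚ) :
    PQ (fun z : Fin n → ℚ => g (Sum.elim z v)) := by
  have := hg.comp (φ := fun (i : Fin n ⊕ Fin n) (z : Fin n → ℚ) => Sum.elim z v i) (fun i => by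
    rcases i with i | i
    · exact PQ.coord i
    · exact PQ.const _)
  exact this

lemma PQ_fixz {g : (Fin n ⊕ Fin n → ℚ) → ℚ} (hg : PQ g) (z : Fin n → ℚ) :
    PQ (fun v : Fin n → ℚ => g (Sum.elim z v)) := by
  have := hg.comp (φ := fun (i : Fin n ⊕ Fin n) (v : Fin n → ℚ) => Sum.elim z v i) (fun i => by
    rcases i with i | i
    · exact PQ.const _
    · exact PQ.coord i)
  exact this

lemma PQz_coeff (f : MvPolynomial (Fin n) ℚ) (v : Fin n → ℚ) (k : ℕ) :
    PQ (fun z : Fin n → ℚ => (lp f z v).coeff k) := PQ_fixv (PQ_lp_coeff f k) v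
lemma PQv_coeff (f : MvPolynomial (Fin n) ℚ) (z : Fin n → ℚ) (k : ℕ) :
    PQ (fun v : Fin n → ℚ => (lp f z v).coeff k) := PQ_fixz (PQ_lp_coeff f k) z
lemma PQz_covB (f : MvPolynomial (Fin n) ℚ) (v : Fin n → ℚ) :
    PQ (fun z : Fin n → ℚ => covB (lp f z v)) := PQ_fixv (PQ_covB f) v
lemma PQv_covB (f : MvPolynomial (Fin n) ℚ) (z : Fin n → ℚ) :
    PQ (fun v : Fin n → ℚ => covB (lp f z v)) := PQ_fixz (PQ_covB f) z
lemma PQz_covT (f : MvPolynomial (Fin n) ℚ) (v : Fin n → ℚ) :
    PQ (fun z : Fin n → ℚ => covT (lp f z v)) := PQ_fixv (PQ_covT f) v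
lemma PQv_covT (f : MvPolynomial (Fin n) ℚ) (z : Fin n → ℚ) :
    PQ (fun v : Fin n → ℚ => covT (lp f z v)) := PQ_fixz (PQ_covT f) z

/-- polynomial functions along lines -/
lemma PQ.poly {g : (Fin n → ℚ) → ℚ} (hg : PQ g) (a b : Fin n → ℚ) :
    ∃ P : Polynomial ℚ, ∀ t, P.eval t = g (a + t • b) := by
  obtain ⟨p, hp⟩ := hg
  refine ⟨MvPolynomial.aeval (fun j => Polynomial.C (a j) + Polynomial.C (b j) * Polynomial.X) p,
    fun t => ?_⟩
  rw [line_eval, hp]

/-- the plane through `z` spanned by `v` and `u` is nondegenerate at `z` -/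
def NDP (f : MvPolynomial (Fin n) ℚ) (z v u : Fin n → ℚ) : Prop :=
  ∀ α β γ : ℚ, (∀ s t : ℚ, (α * s + β * t) * covB (lp f z (s • v + t • u)) =
    γ * covT (lp f z (s • v + t • u))) → α = 0 ∧ β = 0 ∧ γ = 0

/-- the polynomial `f` is of degree at most four along all lines with directions in `V` -/
def QuarticAlong (f : MvPolynomial (Fin n) ℚ) (V : Submodule ℚ (Fin n → ℚ)) : Prop :=
  ∀ z, ∀ v ∈ V, (lp f z v).natDegree ≤ 4

/-- polynomials which agree at infinitely many points -/
lemma poly_eq_of_inf {P Q : Polynomial ℚ} {S : Set ℚ} (hS : S.Infinite)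
    (h : ∀ t ∈ S, P.eval t = Q.eval t) : P = Q :=
  Polynomial.eq_of_infinite_eval_eq P Q (hS.mono fun t ht => h t ht)

lemma inf_ne (E : Set ℚ) (hE : E.Finite) : (Eᶜ : Set ℚ).Infinite := hE.infinite_compl

/-- `P(t) = t Q(1/t)` for infinitely many `t` -/
lemma deg_le_one {P Q : Polynomial ℚ} {S : Set ℚ} (hS : S.Infinite)
    (h : ∀ t ∈ S, t ≠ 0 ∧ P.eval t = t * Q.eval t⁻¹) : P.natDegree ≤ 1 := by
  set N := Q.natDegree with hN
  have h1 : Polynomial.X ^ N * P = Polynomial.X * Q.reverse := by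
    apply poly_eq_of_inf hS
    intro t ht
    obtain ⟨h0, h2⟩ := h t ht
    have h4 : Q.reverse.eval t = t ^ N * Q.eval t⁻¹ := by
      let hi : Invertible (t⁻¹) := invertibleOfNonzero (inv_ne_zero h0)
      have h5 := Polynomial.eval₂_reverse_mul_pow (RingHom.id ℚ) t⁻¹ Q
      rw [invOf_eq_inv, inv_inv, Polynomial.eval₂_id, Polynomial.eval₂_id] at h5
      rw [← h5, ← hN, mul_left_comm, ← mul_pow, mul_inv_cancel₀ h0, one_pow, mul_one]
    rw [Polynomial.eval_mul, Polynomial.eval_mul, Polynomial.eval_pow, Polynomial.eval_X, h4, h2]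
    ring
  by_cases hP : P = 0
  · rw [hP]; simp
  have h2 : (Polynomial.X ^ N * P).natDegree = N + P.natDegree := by
    rw [Polynomial.natDegree_mul (pow_ne_zero _ Polynomial.X_ne_zero) hP, Polynomial.natDegree_X_pow]
  have h3 : (Polynomial.X * Q.reverse).natDegree ≤ 1 + N := by
    refine Polynomial.natDegree_mul_le.trans ?_
    rw [Polynomial.natDegree_X]
    exact Nat.add_le_add_left (Polynomial.reverse_natDegree_le Q) 1
  rw [← h1, h2] at h3
  omega

end Pool.Agent.Y718
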