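import Pool.Agent.Y718.LK
import Pool.Agent.Y718.DB

/-!
# Moving along the coordinate directions on `w² = f(z)`
-/

set_option autoImplicit false
set_option linter.unusedSectionVars false
set_option linter.unusedVariables false

open WeierstrassCurve Filter Topology Pool.Agent.Y720.MZ

namespace Pool.Agent.Y718.X

section inv

variable {R : Type*} [CommRing R]

/-- the coefficients of the resolvent of a quartic polynomial -/
def Ab (q : Polynomial R) : R := q.coeff 2
def Bb (q : Polynomial R) : R := q.coeff 1 * q.coeff 3 - 4 * q.coeff 0 * q.coeff 4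
def Cb (q : Polynomial R) : R := q.coeff 1 ^ 2 * q.coeff 4 + q.coeff 0 * q.coeff 3 ^ 2 -
  4 * q.coeff 0 * q.coeff 2 * q.coeff 4
/-- its discriminant -/
def Db (q : Polynomial R) : R := dsc (Ab q) (Bb q) (Cb q)
def XB (q : Polynomial R) : R := q.coeff 1 ^ 2 - 4 * q.coeff 0 * q.coeff 2
def ZB (q : Polynomial R) : R := 4 * q.coeff 0

variable {S : Type*} [CommRing S] (φ : R →+* S) (q : Polynomial R)

lemma map_Ab : Ab (q.map φ) = φ (Ab q) := by simp [Ab]
lemma map_Bb : Bb (q.map φ) = φ (Bb q) := by simp [Bb, map_ofNat]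
lemma map_Cb : Cb (q.map φ) = φ (Cb q) := by simp [Cb, map_ofNat]
lemma map_XB : XB (q.map φ) = φ (XB q) := by simp [XB, map_ofNat]
lemma map_ZB : ZB (q.map φ) = φ (ZB q) := by simp [ZB, map_ofNat]

end inv

section main

variable {K : Type*} [Field K] [DecidableEq K]

/-- the difference of the two points over `0` of `w² = q(t)` has infinite order, for the given
square root `w` of `q(0)` -/
def InfW (q : Polynomial K) (w : K) : Prop :=
  ∀ (h : (cv (Ab q) (Bb q) (Cb q)).toAffine.Nonsingular (xs w (q.coeff 1) (q.coeff 2))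
    (ys w (q.coeff 1) (q.coeff 2) (q.coeff 3))) (n : ℕ), n ≠ 0 →
    n • (.some (xs w (q.coeff 1) (q.coeff 2)) (ys w (q.coeff 1) (q.coeff 2) (q.coeff 3)) h :
      Pt (Ab q) (Bb q) (Cb q)) ≠ 0

/-- the same, with the nonsingularity of the resolvent -/
def Inf (q : Polynomial K) : Prop :=
  Db q ≠ 0 ∧ ∃ w : K, w ≠ 0 ∧ w ^ 2 = q.coeff 0 ∧ InfW q w

lemma bb_eq {q : Polynomial K} {w : K} (hw : w ^ 2 = q.coeff 0) :
    Bb q = rb w (q.coeff 1) (q.coeff 3) (q.coeff 4) := by
  rw [Bb, rb, hw]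

lemma cb_eq {q : Polynomial K} {w : K} (hw : w ^ 2 = q.coeff 0) :
    Cb q = rc w (q.coeff 1) (q.coeff 2) (q.coeff 3) (q.coeff 4) := by
  rw [Cb, rc, hw]

/-- unramified places over `p` -/
structure Pl (v : AbsoluteValue K ℝ) (p : ℕ) : Prop where
  na : IsNonarchimedean v
  p3 : 3 ≤ p
  unit : ∀ k : ℕ, 1 ≤ k → k < p → v (k : K) = 1
  lt : v (p : K) < 1
  un : ∀ u : K, 1 < v u → 1 < v u ^ 2 * v (p : K)
  res : ∃ (F : Type) (_ : Fintype F) (ρ : K → F), ∀ x y, v x ≤ 1 → v y ≤ 1 → ρ x = ρ y →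
    v (x - y) < 1

variable {v : AbsoluteValue K ℝ} {p : ℕ}

lemma Pl.two (hp : Pl v p) : v (2 : K) = 1 := by
  exact_mod_cast hp.unit 2 (by norm_num) (by have := hp.p3; omega)

/-- a bound for the order of the torsion points of curves with good reduction -/
lemma Pl.torsion (hp : Pl v p) : ∃ N : ℕ, ∀ (a b c : K), v a ≤ 1 → v b ≤ 1 → v c ≤ 1 →
    v (dsc a b c) = 1 → ∀ (P : Pt a b c) (n : ℕ), n ≠ 0 → n • P = 0 →
      ∃ M : ℕ, M ≠ 0 ∧ M ≤ N ∧ M • P = 0 := by
  obtain ⟨F, _, ρ, hρ⟩ := hp.res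
  refine ⟨Fintype.card F ^ 2 + 1, fun a b c ha hb hc hd P n hn hnP => ?_⟩
  obtain ⟨M, hM1, hM2, hM⟩ := exists_mult hp.na ha hb hc hp.two hd ρ hρ P
  refine ⟨M, by omega, hM2, ?_⟩
  by_contra h0
  obtain ⟨x, y, h, he⟩ := exists_some h0
  rw [he, fm_some] at hM
  obtain ⟨hy, h1, h2, h3, h4⟩ := val_ts hp.na ha hb hc hM (cv_ns.1 h).1
  have hu : 1 < v (y / x) := by
    have hx0 : x ≠ 0 := by
      intro h0; rw [h0, map_zero] at hM; linarith
    have : v (y / x) = (v (x / y))⁻¹ := by rw [← map_inv₀, inv_div]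
    rw [this]
    exact (one_lt_inv₀ h3).2 h2
  have h5 := hp.un _ hu
  have h6 : v (y / x) ^ 2 = v x := by
    have : v (y / x) = (v (x / y))⁻¹ := by rw [← map_inv₀, inv_div]
    rw [this, inv_pow]
    field_simp
    linarith [h1]
  rw [h6] at h5
  refine infinite_order hp.na ha hb hc hp.p3 hp.unit hp.lt h h5 n hn ?_
  rw [← he, smul_smul, mul_comm, mul_smul, hnP, smul_zero]

variable {n : ℕ}

/-- the degree is at most `d` on all lines in the direction of a coordinate -/
def Dg (f : MvPolynomial (Fin n) K) (i : Fin n) (d : ℕ) : Prop :=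
  ∀ z, (lk f z (Pi.single i 1)).natDegree ≤ d

/-- nondegenerate in the direction of a coordinate -/
def NDx (f : MvPolynomial (Fin n) K) (i : Fin n) (z : Fin n → K) : Prop :=
  Dg f i 2 ∨ Inf (lk f z (Pi.single i 1))

/-- the base points -/
def TX (f : MvPolynomial (Fin n) K) : Set (Fin n → K) :=
  {z | (∃ w : K, w ≠ 0 ∧ w ^ 2 = MvPolynomial.eval z f) ∧ ∀ i, NDx f i z}

/-- good reduction -/
def GP (v : AbsoluteValue K ℝ) (f : MvPolynomial (Fin n) K) (z : Fin n → K) : Prop :=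
  (∀ l, v (z l) ≤ 1) ∧ v (MvPolynomial.eval z f) = 1 ∧
    ∀ i, Dg f i 2 ∨ v (Db (lk f z (Pi.single i 1))) = 1

lemma single_le (i l : Fin n) : v ((Pi.single i 1 : Fin n → K) l) ≤ 1 := by
  by_cases h : l = i
  · subst h; rw [Pi.single_eq_same, map_one]
  · rw [Pi.single_eq_of_ne h, map_zero]; exact zero_le_one

lemma coeff_IC (hv : IsNonarchimedean v) {f : MvPolynomial (Fin n) K}
    (hf : ∀ d, v (f.coeff d) ≤ 1) (i : Fin n) (k : ℕ) :
    IC v (fun z => (lk f z (Pi.single i 1)).coeff k) :=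
  lk_ICP hv hf (single_le i) k

lemma IC_Ab (hv : IsNonarchimedean v) {f : MvPolynomial (Fin n) K}
    (hf : ∀ d, v (f.coeff d) ≤ 1) (i : Fin n) :
    IC v (fun z => Ab (lk f z (Pi.single i 1))) := coeff_IC hv hf i 2

lemma IC_Bb (hv : IsNonarchimedean v) {f : MvPolynomial (Fin n) K}
    (hf : ∀ d, v (f.coeff d) ≤ 1) (i : Fin n) :
    IC v (fun z => Bb (lk f z (Pi.single i 1))) := by
  have c := coeff_IC hv hf i
  have h4 : IC v (fun _ : Fin n → K => (4 : K)) := by
    have := IC.nat (n := n) hv 4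
    exact_mod_cast this
  exact ((c 1).mul hv (c 3)).sub hv ((h4.mul hv (c 0)).mul hv (c 4))

lemma IC_Cb (hv : IsNonarchimedean v) {f : MvPolynomial (Fin n) K}
    (hf : ∀ d, v (f.coeff d) ≤ 1) (i : Fin n) :
    IC v (fun z => Cb (lk f z (Pi.single i 1))) := by
  have c := coeff_IC hv hf i
  have h4 : IC v (fun _ : Fin n → K => (4 : K)) := by
    have := IC.nat (n := n) hv 4
    exact_mod_cast this
  exact ((((c 1).pow hv 2).mul hv (c 4)).add hv ((c 0).mul hv ((c 3).pow hv 2))).sub hv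
    (((h4.mul hv (c 0)).mul hv (c 2)).mul hv (c 4))

lemma IC_Db (hv : IsNonarchimedean v) {f : MvPolynomial (Fin n) K}
    (hf : ∀ d, v (f.coeff d) ≤ 1) (i : Fin n) :
    IC v (fun z => Db (lk f z (Pi.single i 1))) := by
  have a := IC_Ab hv hf i
  have b := IC_Bb hv hf i
  have c := IC_Cb hv hf i
  have h4 : IC v (fun _ : Fin n → K => (4 : K)) := by
    have := IC.nat (n := n) hv 4
    exact_mod_cast this
  have h27 : IC v (fun _ : Fin n → K => (27 : K)) := by
    have := IC.nat (n := n) hv 27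
    exact_mod_cast this
  have h18 : IC v (fun _ : Fin n → K => (18 : K)) := by
    have := IC.nat (n := n) hv 18
    exact_mod_cast this
  exact ((((((a.pow hv 2).mul hv (b.pow hv 2)).sub hv (h4.mul hv (b.pow hv 3))).sub hv
    ((h4.mul hv (a.pow hv 3)).mul hv c)).sub hv (h27.mul hv (c.pow hv 2))).add hv
    (((h18.mul hv a).mul hv b).mul hv c))

lemma IC_eval (hv : IsNonarchimedean v) {f : MvPolynomial (Fin n) K}
    (hf : ∀ d, v (f.coeff d) ≤ 1) : IC v (fun z => MvPolynomial.eval z f) := by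
  have h := lk_ICP hv hf (u := fun _ => 0) (fun i => by rw [map_zero]; exact zero_le_one) 0
  simpa only [lk_zero] using h

lemma unit_of_close (hv : IsNonarchimedean v) {x y : K} (hx : v x = 1) (h : v (y - x) < 1) :
    v y = 1 := by
  have : y = x + (y - x) := by ring
  rw [this, na_eq hv, hx]
  rw [hx]; exact h

/-- good reduction persists under small moves -/
lemma GP.move (hp : Pl v p) {f : MvPolynomial (Fin n) K} (hf : ∀ d, v (f.coeff d) ≤ 1)
    {z : Fin n → K} (hz : GP v f z) (i : Fin n) {r : K} (hr : v r < 1) :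
    GP v f (z + r • Pi.single i 1) := by
  have h1 : ∀ l, v ((z + r • (Pi.single i 1 : Fin n → K)) l - z l) < 1 := by
    intro l
    have : (z + r • (Pi.single i 1 : Fin n → K)) l - z l = (Pi.single i 1 : Fin n → K) l * r := by
      simp only [Pi.add_apply, Pi.smul_apply, smul_eq_mul]
      ring
    rw [this]
    exact na_mul_lt (single_le i l) hr
  have h2 : ∀ l, v ((z + r • (Pi.single i 1 : Fin n → K)) l) ≤ 1 := by
    intro l
    have : (z + r • (Pi.single i 1 : Fin n → K)) l = z l +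
      ((z + r • (Pi.single i 1 : Fin n → K)) l - z l) := by ring
    rw [this]
    exact na_add hp.na (hz.1 l) (h1 l).le
  refine ⟨h2, unit_of_close hp.na hz.2.1 ((IC_eval hp.na hf).2 _ _ h2 hz.1 h1), fun j => ?_⟩
  rcases hz.2.2 j with h | h
  · exact Or.inl h
  · exact Or.inr (unit_of_close hp.na h ((IC_Db hp.na hf j).2 _ _ h2 hz.1 h1))

/-- **Nondegeneracy persists, with finitely many exceptions.** -/
theorem persist [CharZero K] (hp : Pl v p) {f : MvPolynomial (Fin n) K}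
    (hf : ∀ d, v (f.coeff d) ≤ 1)
    {z : Fin n → K} (hz : GP v f z) (hT : z ∈ TX f) (i : Fin n) :
    ∃ E : Set K, E.Finite ∧ ∀ r : K, r ∉ E → v r < 1 →
      (∃ w : K, w ≠ 0 ∧ w ^ 2 = MvPolynomial.eval (z + r • Pi.single i 1) f) →
      z + r • Pi.single i 1 ∈ TX f := by
  classical
  obtain ⟨N, hN⟩ := hp.torsion
  -- one direction
  have key : ∀ j : Fin n, ∃ E : Set K, E.Finite ∧ ∀ r : K, r ∉ E → v r < 1 →
      (∃ w : K, w ≠ 0 ∧ w ^ 2 = MvPolynomial.eval (z + r • Pi.single i 1) f) →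
      NDx f j (z + r • Pi.single i 1) := by
    intro j
    by_cases hj : Dg f j 2
    · exact ⟨∅, Set.finite_empty, fun r _ _ _ => Or.inl hj⟩
    obtain ⟨hD0, w, hw0, hw, hinf⟩ := (hT.2 j).resolve_left hj
    have hDz := (hz.2.2 j).resolve_left hj
    set Q : Polynomial (Polynomial K) := lkk f z (Pi.single i 1) (Pi.single j 1) with hQ
    have hQr : ∀ r : K, Q.map (Polynomial.evalRingHom r) =
        lk f (z + r • Pi.single i 1) (Pi.single j 1) := fun r => lkk_map _ _ _ _ _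
    set G : Polynomial K := Gd (Ab Q) (Bb Q) (Cb Q) (XB Q) (ZB Q) N with hG
    have hGr : ∀ r : K, G.eval r = Gd (Ab (lk f (z + r • Pi.single i 1) (Pi.single j 1)))
        (Bb (lk f (z + r • Pi.single i 1) (Pi.single j 1)))
        (Cb (lk f (z + r • Pi.single i 1) (Pi.single j 1)))
        (XB (lk f (z + r • Pi.single i 1) (Pi.single j 1)))
        (ZB (lk f (z + r • Pi.single i 1) (Pi.single j 1))) N := by
      intro r
      rw [← hQr r, map_Ab, map_Bb, map_Cb, map_XB, map_ZB, map_Gd]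
      rfl
    -- the abscissa
    have hxZ : ∀ (q : Polynomial K) (w : K), w ≠ 0 → w ^ 2 = q.coeff 0 →
        xs w (q.coeff 1) (q.coeff 2) * ZB q = XB q ∧ ZB q ≠ 0 := by
      intro q w hw0 hw
      unfold xs ZB XB
      rw [← hw]
      refine ⟨by field_simp, mul_ne_zero (by norm_num) (pow_ne_zero 2 hw0)⟩
    have hG0 : G ≠ 0 := by
      intro h0
      have h1 := hGr 0
      rw [zero_smul, add_zero, h0, Polynomial.eval_zero] at h1
      have hns := ns_of_dsc (x := xs w ((lk f z (Pi.single j 1)).coeff 1)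
          ((lk f z (Pi.single j 1)).coeff 2)) (y := ys w ((lk f z (Pi.single j 1)).coeff 1)
          ((lk f z (Pi.single j 1)).coeff 2) ((lk f z (Pi.single j 1)).coeff 3)) hD0 (by
        rw [bb_eq hw, cb_eq hw]
        exact s_eqn hw0)
      exact Gd_ne hns (hxZ _ w hw0 hw).1 (hxZ _ w hw0 hw).2 (hinf hns) N h1.symm
    refine ⟨{r | G.eval r = 0}, ?_, ?_⟩
    · refine (Polynomial.finite_setOfPred_isRoot hG0).subset ?_
      intro r hr
      exact hr
    · intro r hr hvr hex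
      obtain ⟨w', hw0', hw'⟩ := hex
      right
      have hgp := hz.move hp hf i hvr
      set z' := z + r • (Pi.single i 1 : Fin n → K) with hz'
      set q := lk f z' (Pi.single j 1) with hq
      have hw0c : w' ^ 2 = q.coeff 0 := by rw [hq, lk_zero, hw']
      have hDq := (hgp.2.2 j).resolve_left hj
      have hDq0 : Db q ≠ 0 := by
        intro h0
        rw [← hq, h0, map_zero] at hDq
        exact zero_ne_one hDq
      refine ⟨hDq0, w', hw0', hw0c, fun hns m hm hm0 => ?_⟩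
      obtain ⟨M, hM0, hMN, hM⟩ := hN _ _ _ ((IC_Ab hp.na hf j).1 _ hgp.1)
        ((IC_Bb hp.na hf j).1 _ hgp.1) ((IC_Cb hp.na hf j).1 _ hgp.1) hDq _ m hm hm0
      apply hr
      rw [Set.mem_ofPred_eq, hGr]
      exact Gd_zero hns (hxZ q w' hw0' hw0c).1 (hxZ q w' hw0' hw0c).2 hM0 hMN hM
  choose E hE1 hE2 using key
  refine ⟨⋃ j, E j, Set.finite_iUnion hE1, fun r hr hvr hex => ⟨hex, fun j => ?_⟩⟩
  exact hE2 j r (fun h => hr (Set.mem_iUnion.2 ⟨j, h⟩)) hvr hex

/-- the value along a line -/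
lemma line_Qr (σ : K →+* ℝ) {f : MvPolynomial (Fin n) K} {i : Fin n} (h4 : Dg f i 4)
    (z : Fin n → K) {w : K} (hw : w ^ 2 = MvPolynomial.eval z f) (t : ℝ) :
    Qr (σ w) (σ ((lk f z (Pi.single i 1)).coeff 1)) (σ ((lk f z (Pi.single i 1)).coeff 2))
      (σ ((lk f z (Pi.single i 1)).coeff 3)) (σ ((lk f z (Pi.single i 1)).coeff 4)) t =
      MvPolynomial.eval₂ σ (fun k => σ (z k) + t * σ ((Pi.single i 1 : Fin n → K) k)) f := by
  rw [← lk_eval₂]
  have hd := h4 z
  rw [Polynomial.eval₂_eq_sum_range' _ (Nat.lt_succ_of_le hd)]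
  simp only [Finset.sum_range_succ, Finset.sum_range_zero, zero_add, lk_zero, ← hw, map_pow]
  unfold Qr
  ring

lemma line_four {f : MvPolynomial (Fin n) K} {i : Fin n} (h4 : Dg f i 4)
    (z : Fin n → K) {w : K} (hw : w ^ 2 = MvPolynomial.eval z f) (t : K) :
    w ^ 2 + (lk f z (Pi.single i 1)).coeff 1 * t + (lk f z (Pi.single i 1)).coeff 2 * t ^ 2 +
      (lk f z (Pi.single i 1)).coeff 3 * t ^ 3 + (lk f z (Pi.single i 1)).coeff 4 * t ^ 4 =
      MvPolynomial.eval (z + t • Pi.single i 1) f := by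
  rw [← lk_eval]
  have hd := h4 z
  rw [Polynomial.eval_eq_sum_range' (Nat.lt_succ_of_le hd)]
  simp only [Finset.sum_range_succ, Finset.sum_range_zero, zero_add, lk_zero, ← hw]
  ring

/-- **One move.** -/
theorem move_one [CharZero K] (σ : K →+* ℝ) (hp : Pl v p) (hwa : WA σ v)
    {f : MvPolynomial (Fin n) K}
    (hf : ∀ d, v (f.coeff d) ≤ 1) (h4 : ∀ i, Dg f i 4)
    {z : Fin n → K} (hz : GP v f z) (hT : z ∈ TX f) (i : Fin n) {t : ℝ}
    (hseg : ∀ s : ℝ, 0 ≤ s → s ≤ 1 → 0 < MvPolynomial.eval₂ σ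
      (fun k => σ (z k) + s * t * σ ((Pi.single i 1 : Fin n → K) k)) f) {ε : ℝ} (hε : 0 < ε) :
    ∃ r : K, |σ r - t| < ε ∧ GP v f (z + r • Pi.single i 1) ∧ z + r • Pi.single i 1 ∈ TX f := by
  classical
  by_cases ht : t = 0
  · subst ht
    refine ⟨0, by simpa using hε, ?_, ?_⟩
    · rw [zero_smul, add_zero]; exact hz
    · rw [zero_smul, add_zero]; exact hT
  obtain ⟨E, hE, hE'⟩ := persist hp hf hz hT i
  obtain ⟨w, hw0, hw⟩ := hT.1
  have hvw : v w = 1 := by
    have h1 := hz.2.1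
    rw [← hw, map_pow] at h1
    exact (pow_eq_one_iff_of_nonneg (v.nonneg _) two_ne_zero).1 h1
  -- a target outside the exceptional set
  obtain ⟨s, hs0, hs1, hst, hsE⟩ : ∃ s : ℝ, 0 ≤ s ∧ s ≤ 1 ∧ |s * t - t| < ε / 2 ∧
      s * t ∉ σ '' E := by
    by_contra hcon
    push Not at hcon
    set δ : ℝ := min (1 / 2) (ε / (4 * (|t| + 1))) with hδ
    have htp : 0 < |t| := abs_pos.2 ht
    have hδ0 : 0 < δ := lt_min (by norm_num) (by positivity)
    have hδ2 : δ * |t| < ε / 2 := by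
      have h5 : δ ≤ ε / (4 * (|t| + 1)) := min_le_right _ _
      calc δ * |t| ≤ ε / (4 * (|t| + 1)) * |t| := by gcongr
        _ = ε / 4 * (|t| / (|t| + 1)) := by field_simp
        _ ≤ ε / 4 * 1 := by
            gcongr
            rw [div_le_one (by positivity)]
            linarith
        _ < ε / 2 := by linarith
    have hinf : (Set.Icc (1 - δ) 1).Infinite := Set.Icc_infinite (by linarith)
    have hinj : Set.InjOn (fun s : ℝ => s * t) (Set.Icc (1 - δ) 1) := by
      intro a _ b _ hab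
      exact mul_right_cancel₀ ht hab
    refine (hinf.image hinj) ((hE.image σ).subset ?_)
    rintro _ ⟨s, hs, rfl⟩
    have hδ1 : δ ≤ 1 / 2 := min_le_left _ _
    refine hcon s (by linarith [hs.1]) hs.2 ?_
    have : s * t - t = -((1 - s) * t) := by ring
    rw [this, abs_neg, abs_mul, abs_of_nonneg (by linarith [hs.2])]
    refine lt_of_le_of_lt ?_ hδ2
    gcongr
    linarith [hs.1]
  -- a distance to the exceptional set
  obtain ⟨δ, hδ, hδE⟩ : ∃ δ : ℝ, 0 < δ ∧ ∀ r ∈ E, δ ≤ |σ r - s * t| := by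
    have hcl : IsClosed (σ '' E) := (hE.image σ).isClosed
    obtain ⟨δ, hδ, hδ'⟩ := Metric.isOpen_iff.1 hcl.isOpen_compl _ hsE
    refine ⟨δ, hδ, fun r hr => ?_⟩
    by_contra hc
    push Not at hc
    exact hδ' (Metric.mem_ball.2 (by rw [Real.dist_eq]; exact hc)) ⟨r, hr, rfl⟩
  have hseg' : ∀ s' : ℝ, 0 ≤ s' → s' ≤ 1 → 0 < Qr (σ w) (σ ((lk f z (Pi.single i 1)).coeff 1))
      (σ ((lk f z (Pi.single i 1)).coeff 2)) (σ ((lk f z (Pi.single i 1)).coeff 3))
      (σ ((lk f z (Pi.single i 1)).coeff 4)) (s' * (s * t)) := by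
    intro s' h0 h1
    rw [line_Qr σ (h4 i) z hw, ← mul_assoc]
    exact hseg (s' * s) (by positivity) (mul_le_one₀ h1 hs0 hs1)
  have c := fun k => (coeff_IC hp.na hf i k).1 z hz.1
  obtain ⟨r, Y, hvr, hr, hY, hYQ⟩ : ∃ r Y : K, v r < 1 ∧ |σ r - s * t| < min (ε / 2) δ ∧ Y ≠ 0 ∧
      Y ^ 2 = w ^ 2 + (lk f z (Pi.single i 1)).coeff 1 * r + (lk f z (Pi.single i 1)).coeff 2 * r ^ 2 +
      (lk f z (Pi.single i 1)).coeff 3 * r ^ 3 + (lk f z (Pi.single i 1)).coeff 4 * r ^ 4 := by
    by_cases hi : Dg f i 2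
    · have hd := hi z
      have h3 : (lk f z (Pi.single i 1)).coeff 3 = 0 :=
        Polynomial.coeff_eq_zero_of_natDegree_lt (by omega)
      have h4' : (lk f z (Pi.single i 1)).coeff 4 = 0 :=
        Polynomial.coeff_eq_zero_of_natDegree_lt (by omega)
      have hQ := hseg' 1 zero_le_one le_rfl
      rw [h3, h4', one_mul] at hQ
      unfold Qr at hQ
      rw [map_zero, zero_mul, zero_mul, add_zero, add_zero] at hQ
      obtain ⟨r, Y, a1, a2, a3, a4⟩ := cd σ hp.na hwa hp.two hvw (c 1) (c 2) hQ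
        (lt_min (half_pos hε) hδ)
      refine ⟨r, Y, a1, a2, a3, ?_⟩
      rw [h3, h4', a4]
      ring
    · obtain ⟨hD0, w1, hw10, hw1, hinf⟩ := (hT.2 i).resolve_left hi
      have hDz := (hz.2.2 i).resolve_left hi
      have hw1' : w1 ^ 2 = MvPolynomial.eval z f := by rw [hw1, lk_zero]
      have hvw1 : v w1 = 1 := by
        have h1 := hz.2.1
        rw [← hw1', map_pow] at h1
        exact (pow_eq_one_iff_of_nonneg (v.nonneg _) two_ne_zero).1 h1
      obtain ⟨F, _, ρ, hρ⟩ := hp.res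
      have hseg1 : ∀ s' : ℝ, 0 ≤ s' → s' ≤ 1 → 0 < Qr (σ w1)
          (σ ((lk f z (Pi.single i 1)).coeff 1))
          (σ ((lk f z (Pi.single i 1)).coeff 2)) (σ ((lk f z (Pi.single i 1)).coeff 3))
          (σ ((lk f z (Pi.single i 1)).coeff 4)) (s' * (s * t)) := by
        intro s' h0 h1
        rw [line_Qr σ (h4 i) z hw1', ← mul_assoc]
        exact hseg (s' * s) (by positivity) (mul_le_one₀ h1 hs0 hs1)
      obtain ⟨r, Y, a1, a2, a3, a4⟩ := qd σ hp.na hp.two hvw1 (c 1) (c 2) (c 3) (c 4)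
        (by rw [← bb_eq hw1, ← cb_eq hw1]; exact hDz) ρ hρ
        (by rw [← bb_eq hw1, ← cb_eq hw1]; exact hinf) hseg1 (lt_min (half_pos hε) hδ)
      refine ⟨r, Y, a1, a2, a3, ?_⟩
      rw [a4, hw1', ← hw]
  rw [line_four (h4 i) z hw] at hYQ
  refine ⟨r, ?_, hz.move hp hf i hvr, hE' r ?_ hvr ⟨Y, hY, hYQ⟩⟩
  · have h1 := abs_sub_le (σ r) (s * t) t
    have h2 := hr.trans_le (min_le_left _ _)
    linarith
  · intro hrE
    have h1 := hδE r hrE
    have h2 := hr.trans_le (min_le_right _ _)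
    linarith

/-- **All moves.** Inside a box on which `f` is positive, all points are limits. -/
theorem move_all [CharZero K] (σ : K →+* ℝ) (hp : Pl v p) (hwa : WA σ v)
    {f : MvPolynomial (Fin n) K}
    (hf : ∀ d, v (f.coeff d) ≤ 1) (h4 : ∀ i, Dg f i 4) {x : Fin n → ℝ} {δ : ℝ}
    (hbox : ∀ y : Fin n → ℝ, (∀ j, |y j - x j| < δ) → 0 < MvPolynomial.eval₂ σ y f)
    {z : Fin n → K} (hz : GP v f z) (hT : z ∈ TX f) (hzx : ∀ j, |σ (z j) - x j| < δ)
    {y : Fin n → ℝ} (hy : ∀ j, |y j - x j| < δ) {ε : ℝ} (hε : 0 < ε) (s : Finset (Fin n)) :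
    ∃ z' : Fin n → K, GP v f z' ∧ z' ∈ TX f ∧ (∀ j, |σ (z' j) - x j| < δ) ∧
      ∀ j ∈ s, |σ (z' j) - y j| < ε := by
  classical
  induction s using Finset.induction_on with
  | empty => exact ⟨z, hz, hT, hzx, by simp⟩
  | insert a s ha ih =>
    obtain ⟨z1, hz1, hT1, hx1, hy1⟩ := ih
    have hm : 0 < min ε (δ - |y a - x a|) := lt_min hε (by linarith [hy a])
    obtain ⟨r, hr, hgp, hTX⟩ := move_one σ hp hwa hf h4 hz1 hT1 a (t := y a - σ (z1 a)) (by
      intro s' h0 h1
      apply hbox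
      intro j
      by_cases hj : j = a
      · subst hj
        rw [Pi.single_eq_same, map_one, mul_one]
        have h5 := hx1 j
        have h6 := hy j
        have h7 : max |σ (z1 j) - x j| |y j - x j| < δ := max_lt h5 h6
        refine lt_of_le_of_lt ?_ h7
        have e : σ (z1 j) + s' * (y j - σ (z1 j)) - x j = (1 - s') * (σ (z1 j) - x j) +
          s' * (y j - x j) := by ring
        rw [e]
        refine (abs_add_le _ _).trans ?_
        rw [abs_mul, abs_mul, abs_of_nonneg h0, abs_of_nonneg (by linarith : 0 ≤ 1 - s')]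
        have l1 := le_max_left |σ (z1 j) - x j| |y j - x j|
        have l2 := le_max_right |σ (z1 j) - x j| |y j - x j|
        have l3 := mul_le_mul_of_nonneg_left l1 (by linarith : 0 ≤ 1 - s')
        have l4 := mul_le_mul_of_nonneg_left l2 h0
        linarith
      · rw [Pi.single_eq_of_ne hj, map_zero, mul_zero, add_zero]
        exact hx1 j) hm
    refine ⟨_, hgp, hTX, ?_, ?_⟩
    · intro j
      by_cases hj : j = a
      · subst hj
        simp only [Pi.add_apply, Pi.smul_apply, Pi.single_eq_same, smul_eq_mul, mul_one, map_add]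
        have h5 := hr.trans_le (min_le_right _ _)
        have h6 := abs_add_le (σ (z1 j) + σ r - y j) (y j - x j)
        have e1 : σ (z1 j) + σ r - y j + (y j - x j) = σ (z1 j) + σ r - x j := by ring
        have e2 : σ (z1 j) + σ r - y j = σ r - (y j - σ (z1 j)) := by ring
        rw [e1, e2] at h6
        linarith
      · simp only [Pi.add_apply, Pi.smul_apply, Pi.single_eq_of_ne hj, smul_eq_mul, mul_zero,
          add_zero]
        exact hx1 j
    · intro j hj
      by_cases hja : j = a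
      · subst hja
        simp only [Pi.add_apply, Pi.smul_apply, Pi.single_eq_same, smul_eq_mul, mul_one, map_add]
        have h5 := hr.trans_le (min_le_left _ _)
        have e2 : σ (z1 j) + σ r - y j = σ r - (y j - σ (z1 j)) := by ring
        rw [e2]
        exact h5
      · simp only [Pi.add_apply, Pi.smul_apply, Pi.single_eq_of_ne hja, smul_eq_mul, mul_zero,
          add_zero]
        exact hy1 j (Finset.mem_of_mem_insert_of_ne hj hja)

end main

end Pool.Agent.Y718.X
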