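import Pool.Agent.Y718.LineP

/-!
# Nondegenerate planes of directions
-/

set_option autoImplicit false
set_option linter.unusedSectionVars false
set_option linter.unusedSimpArgs false

open Set Filter Topology Pool.Agent.H581R2 Pool.Agent.TH729.SQ Pool.Agent.TH954

namespace Pool.Agent.Y718

variable {n : ℕ}

/-- three points at which a vector function with values in a 3-dimensional space is independent -/
lemma det_three {S : Type} (φ : S → Fin 3 → ℚ)
    (h : ∀ a : Fin 3 → ℚ, (∀ s, ∑ i, a i * φ s i = 0) → a = 0) :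
    ∃ s : Fin 3 → S, (Matrix.of fun i j => φ (s i) j).det ≠ 0 := by
  classical
  have hspan : Submodule.span ℚ (Set.range φ) = ⊤ := by
    by_contra hne
    obtain ⟨g, hg0, hg⟩ := Submodule.exists_le_ker_of_lt_top _ (lt_top_iff_ne_top.mpr hne)
    apply hg0
    have h1 := h (fun i => g (Pi.single i 1)) ?_
    · ext i
      have := congrFun h1 i
      simpa using this
    · intro s
      have h2 : g (φ s) = 0 := LinearMap.mem_ker.mp (hg (Submodule.subset_span ⟨s, rfl⟩))
      rw [← h2]
      have h3 : φ s = ∑ i, φ s i • (Pi.single i 1 : Fin 3 → ℚ) := by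
        funext j
        simp [Finset.sum_apply, Pi.single_apply]
      conv_rhs => rw [h3, map_sum]
      refine Finset.sum_congr rfl fun i _ => ?_
      rw [map_smul, smul_eq_mul, mul_comm]
  obtain ⟨b, hb, hbs, hbi⟩ := exists_linearIndependent ℚ (Set.range φ)
  have hbt : Submodule.span ℚ b = ⊤ := by rw [hbs, hspan]
  have hbs' : ⊤ ≤ Submodule.span ℚ (Set.range (Subtype.val : b → Fin 3 → ℚ)) := by
    rw [Subtype.range_coe, hbt]
  let B := Module.Basis.mk hbi hbs'
  have hfin : Finite b := Module.Finite.finite_basis B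
  have : Fintype b := Fintype.ofFinite b
  have hcard : Fintype.card b = 3 := by
    have h1 := Module.finrank_eq_card_basis B
    rw [Module.finrank_fin_fun] at h1
    exact h1.symm
  let e : Fin 3 ≃ b := (Fintype.equivFinOfCardEq hcard).symm
  have hch : ∀ i : Fin 3, ∃ s : S, φ s = (e i : Fin 3 → ℚ) := fun i => hb (e i).2
  choose s hs using hch
  refine ⟨s, ?_⟩
  have hli : LinearIndependent ℚ (fun i : Fin 3 => (e i : Fin 3 → ℚ)) := hbi.comp e e.injective
  have h2 : (Matrix.of fun i j => φ (s i) j) = Matrix.of (fun i : Fin 3 => (e i : Fin 3 → ℚ)) := by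
    ext i j
    simp [hs]
  rw [h2]
  have h3 := (Matrix.linearIndependent_rows_iff_isUnit (A := Matrix.of (fun i : Fin 3 => (e i : Fin 3 → ℚ)))).mp hli
  exact ((Matrix.isUnit_iff_isUnit_det _).mp h3).ne_zero

/-- the vector function of a plane -/
noncomputable def plv (f : MvPolynomial (Fin n) ℚ) (v u : Fin n → ℚ) (z : Fin n → ℚ) (st : ℚ × ℚ) :
    Fin 3 → ℚ :=
  ![st.1 * covB (lp f z (st.1 • v + st.2 • u)), st.2 * covB (lp f z (st.1 • v + st.2 • u)),
    -covT (lp f z (st.1 • v + st.2 • u))]

lemma NDP_iff {f : MvPolynomial (Fin n) ℚ} {z v u : Fin n → ℚ} :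
    NDP f z v u ↔ ∀ a : Fin 3 → ℚ, (∀ st, ∑ i, a i * plv f v u z st i = 0) → a = 0 := by
  constructor
  · intro h a ha
    obtain ⟨h0, h1, h2⟩ := h (a 0) (a 1) (a 2) fun s t => by
      have := ha (s, t)
      simp only [plv, Fin.sum_univ_three, Matrix.cons_val_zero, Matrix.cons_val_one,
        Matrix.cons_val_two, Matrix.head_cons, Matrix.tail_cons, Matrix.cons_val] at this
      linear_combination this
    funext i
    fin_cases i
    · exact h0
    · exact h1
    · exact h2
  · intro h α β γ hc
    have := h ![α, β, γ] fun st => by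
      obtain ⟨s, t⟩ := st
      simp only [plv, Fin.sum_univ_three, Matrix.cons_val_zero, Matrix.cons_val_one,
        Matrix.cons_val_two, Matrix.head_cons, Matrix.tail_cons, Matrix.cons_val]
      linear_combination hc s t
    exact ⟨congrFun this 0, congrFun this 1, congrFun this 2⟩

lemma NDP_of_det {f : MvPolynomial (Fin n) ℚ} {z v u : Fin n → ℚ} {s : Fin 3 → ℚ × ℚ}
    (h : (Matrix.of fun i j => plv f v u z (s i) j).det ≠ 0) : NDP f z v u := by
  rw [NDP_iff]
  intro a ha
  have h1 : (Matrix.of fun i j => plv f v u z (s i) j).mulVec a = 0 := by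
    funext i
    rw [Matrix.mulVec, dotProduct]
    have := ha (s i)
    simp only [Matrix.of_apply, Pi.zero_apply]
    rw [← this]
    exact Finset.sum_congr rfl fun j _ => mul_comm _ _
  by_contra hne
  exact h (Matrix.exists_mulVec_eq_zero_iff.mp ⟨a, hne, h1⟩)

/-- nondegeneracy is kept at all but finitely many points of each rational line -/
lemma NDP_line {f : MvPolynomial (Fin n) ℚ} {z v u : Fin n → ℚ} (h : NDP f z v u) (w : Fin n → ℚ) :
    {τ : ℚ | ¬ NDP f (z + τ • w) v u}.Finite := by
  obtain ⟨s, hs⟩ := det_three _ (NDP_iff.mp h)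
  have hP : ∀ i j, PQ (fun z : Fin n → ℚ => plv f v u z (s i) j) := by
    intro i j
    fin_cases j
    · exact (PQ.const _).mul (PQz_covB f _)
    · exact (PQ.const _).mul (PQz_covB f _)
    · have := (PQ.const 0).sub (PQz_covT f ((s i).1 • v + (s i).2 • u))
      refine cast ?_ this
      congr 1
      funext z
      simp [plv]
  have hD : PQ (fun z : Fin n → ℚ => (Matrix.of fun i j => plv f v u z (s i) j).det) := by
    have : (fun z : Fin n → ℚ => (Matrix.of fun i j => plv f v u z (s i) j).det) = fun z =>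
        plv f v u z (s 0) 0 * plv f v u z (s 1) 1 * plv f v u z (s 2) 2 -
        plv f v u z (s 0) 0 * plv f v u z (s 1) 2 * plv f v u z (s 2) 1 -
        plv f v u z (s 0) 1 * plv f v u z (s 1) 0 * plv f v u z (s 2) 2 +
        plv f v u z (s 0) 1 * plv f v u z (s 1) 2 * plv f v u z (s 2) 0 +
        plv f v u z (s 0) 2 * plv f v u z (s 1) 0 * plv f v u z (s 2) 1 -
        plv f v u z (s 0) 2 * plv f v u z (s 1) 1 * plv f v u z (s 2) 0 := by
      funext z
      rw [Matrix.det_fin_three]
      rfl
    rw [this]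
    exact ((((((hP 0 0).mul (hP 1 1)).mul (hP 2 2)).sub (((hP 0 0).mul (hP 1 2)).mul (hP 2 1))).sub
      (((hP 0 1).mul (hP 1 0)).mul (hP 2 2))).add (((hP 0 1).mul (hP 1 2)).mul (hP 2 0))).add
      (((hP 0 2).mul (hP 1 0)).mul (hP 2 1)) |>.sub (((hP 0 2).mul (hP 1 1)).mul (hP 2 0))
  refine (PQ_line hD hs w).subset ?_
  intro τ hτ
  simp only [Set.mem_ofPred_eq] at hτ ⊢
  by_contra hne
  exact hτ (NDP_of_det hne)

end Pool.Agent.Y718
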