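import Pool.Agent.Y718.RD
import Pool.Agent.Y718.FG

/-!
# Square values of a quartic polynomial, dense in the reals and close to `0` for another place
-/

set_option autoImplicit false
set_option linter.unusedSectionVars false
set_option linter.unusedVariables false

open WeierstrassCurve Filter Topology Pool.Agent.Y720.MZ

namespace Pool.Agent.Y718.X

section real

/-- the real quartic -/
def Qr (W q₁ q₂ q₃ q₄ t : ℝ) : ℝ := W ^ 2 + q₁ * t + q₂ * t ^ 2 + q₃ * t ^ 3 + q₄ * t ^ 4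

lemma Qr_cont (W q₁ q₂ q₃ q₄ : ℝ) : Continuous (Qr W q₁ q₂ q₃ q₄) := by unfold Qr; fun_prop

/-- the abscissa -/
noncomputable def Xr (W q₁ q₂ q₃ q₄ t : ℝ) : ℝ :=
  (2 * W * (Real.sqrt (Qr W q₁ q₂ q₃ q₄ t) + W) + q₁ * t) / t ^ 2

/-- the ordinate -/
noncomputable def Yr (W q₁ q₂ q₃ q₄ t : ℝ) : ℝ :=
  ((4 * W ^ 2 * (Xr W q₁ q₂ q₃ q₄ t + q₂) - q₁ ^ 2) / t + q₁ * Xr W q₁ q₂ q₃ q₄ t +
    2 * W ^ 2 * q₃) / (2 * W)

variable {W q₁ q₂ q₃ q₄ : ℝ}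

lemma inv_curve {t : ℝ} (hW : W ≠ 0) (ht : t ≠ 0) (hQ : 0 ≤ Qr W q₁ q₂ q₃ q₄ t) :
    Yr W q₁ q₂ q₃ q₄ t ^ 2 = gg q₂ (rb W q₁ q₃ q₄) (rc W q₁ q₂ q₃ q₄) (Xr W q₁ q₂ q₃ q₄ t) := by
  have hs := Real.sq_sqrt hQ
  unfold Yr Xr gg rb rc
  generalize Real.sqrt (Qr W q₁ q₂ q₃ q₄ t) = s at hs
  unfold Qr at hs
  have e : q₂ = (s ^ 2 - W ^ 2 - q₁ * t - q₃ * t ^ 3 - q₄ * t ^ 4) / t ^ 2 := by
    field_simp
    linear_combination -hs
  rw [e]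
  field_simp
  ring

lemma Xr_cont {t : ℝ} (ht : t ≠ 0) : ContinuousAt (Xr W q₁ q₂ q₃ q₄) t := by
  unfold Xr
  have h1 : Continuous (fun t => 2 * W * (Real.sqrt (Qr W q₁ q₂ q₃ q₄ t) + W) + q₁ * t) := by
    have := Real.continuous_sqrt.comp (Qr_cont W q₁ q₂ q₃ q₄)
    exact (continuous_const.mul (this.add continuous_const)).add (continuous_const.mul continuous_id)
  exact h1.continuousAt.div (by fun_prop) (pow_ne_zero 2 ht)

/-- along a segment starting at the base point, the abscissa tends to infinity -/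
lemma Xr_lim (hW : 0 < W) {t : ℝ} (ht : t ≠ 0) :
    Tendsto (fun s : ℝ => Xr W q₁ q₂ q₃ q₄ (s * t)) (𝓝[>] 0) atTop := by
  have h1 : Tendsto (fun s : ℝ => 2 * W * (Real.sqrt (Qr W q₁ q₂ q₃ q₄ (s * t)) + W) +
      q₁ * (s * t)) (𝓝[>] 0) (𝓝 (2 * W * (Real.sqrt (Qr W q₁ q₂ q₃ q₄ (0 * t)) + W) +
        q₁ * (0 * t))) := by
    have hc : Continuous (fun s : ℝ => 2 * W * (Real.sqrt (Qr W q₁ q₂ q₃ q₄ (s * t)) + W) +
      q₁ * (s * t)) := by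
      have := Real.continuous_sqrt.comp ((Qr_cont W q₁ q₂ q₃ q₄).comp
        (continuous_id.mul (continuous_const (y := t))))
      exact (continuous_const.mul (this.add continuous_const)).add
        (continuous_const.mul (continuous_id.mul continuous_const))
    exact (hc.tendsto 0).mono_left nhdsWithin_le_nhds
  have h0 : 0 < 2 * W * (Real.sqrt (Qr W q₁ q₂ q₃ q₄ (0 * t)) + W) + q₁ * (0 * t) := by
    have := Real.sqrt_nonneg (Qr W q₁ q₂ q₃ q₄ (0 * t))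
    rw [zero_mul, mul_zero, add_zero]
    rw [zero_mul] at this
    positivity
  have h2 : Tendsto (fun s : ℝ => ((s * t) ^ 2)⁻¹) (𝓝[>] 0) atTop := by
    apply Tendsto.comp tendsto_inv_nhdsGT_zero
    refine tendsto_nhdsWithin_of_tendsto_nhds_of_eventually_within _ ?_ ?_
    · have : Tendsto (fun s : ℝ => (s * t) ^ 2) (𝓝[>] 0) (𝓝 ((0 * t) ^ 2)) :=
        ((continuous_id.mul continuous_const).pow 2).continuousAt.tendsto.mono_left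
          nhdsWithin_le_nhds
      simpa using this
    · filter_upwards [self_mem_nhdsWithin] with s hs
      have : 0 < s := hs
      have h3 : s * t ≠ 0 := mul_ne_zero this.ne' ht
      exact Set.mem_Ioi.2 (by positivity)
  have h3 := h1.pos_mul_atTop h0 h2
  refine h3.congr fun s => ?_
  unfold Xr
  rw [div_eq_mul_inv]

/-- the resolvent cubic is positive to the right of the abscissa -/
lemma Xr_right (hW : 0 < W) {t : ℝ} (ht : t ≠ 0)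
    (hseg : ∀ s : ℝ, 0 ≤ s → s ≤ 1 → 0 < Qr W q₁ q₂ q₃ q₄ (s * t))
    (hD : dsc q₂ (rb W q₁ q₃ q₄) (rc W q₁ q₂ q₃ q₄) ≠ 0) (x : ℝ)
    (hx : Xr W q₁ q₂ q₃ q₄ t < x) :
    0 < gg q₂ (rb W q₁ q₃ q₄) (rc W q₁ q₂ q₃ q₄) x := by
  set g := gg q₂ (rb W q₁ q₃ q₄) (rc W q₁ q₂ q₃ q₄) with hg
  have hnn : ∀ x, Xr W q₁ q₂ q₃ q₄ t < x → 0 ≤ g x := by
    intro x hx
    obtain ⟨s0, hs0, hs0'⟩ : ∃ s : ℝ, x < Xr W q₁ q₂ q₃ q₄ (s * t) ∧ 0 < s ∧ s < 1 := by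
      have h1 := (Xr_lim (q₁ := q₁) (q₂ := q₂) (q₃ := q₃) (q₄ := q₄) hW ht).eventually_gt_atTop x
      have h2 : ∀ᶠ s : ℝ in 𝓝[>] 0, 0 < s := self_mem_nhdsWithin
      have h3 : ∀ᶠ s : ℝ in 𝓝[>] 0, s < 1 :=
        nhdsWithin_le_nhds (Iio_mem_nhds zero_lt_one)
      obtain ⟨s, h4, h5, h6⟩ := (h1.and (h2.and h3)).exists
      exact ⟨s, h4, h5, h6⟩
    have hcont : ContinuousOn (fun s => Xr W q₁ q₂ q₃ q₄ (s * t)) (Set.Icc s0 1) := by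
      intro s hs
      have hs1 : 0 < s := hs0'.1.trans_le hs.1
      refine ContinuousAt.continuousWithinAt ?_
      exact ContinuousAt.comp (g := Xr W q₁ q₂ q₃ q₄) (Xr_cont (mul_ne_zero hs1.ne' ht))
        (continuous_id.mul continuous_const).continuousAt
    obtain ⟨s, hs, hsx⟩ := intermediate_value_Icc' hs0'.2.le hcont
      (show x ∈ Set.Icc (Xr W q₁ q₂ q₃ q₄ (1 * t)) (Xr W q₁ q₂ q₃ q₄ (s0 * t)) from
        ⟨by rw [one_mul]; exact hx.le, hs0.le⟩)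
    simp only at hsx
    have hs1 : 0 < s := hs0'.1.trans_le hs.1
    rw [← hsx, hg, ← inv_curve hW.ne' (mul_ne_zero hs1.ne' ht) (hseg s hs1.le hs.2).le]
    exact sq_nonneg _
  rcases (hnn x hx).lt_or_eq with h | h
  · exact h
  · exfalso
    have hmin : IsLocalMin g x := by
      filter_upwards [Ioi_mem_nhds hx] with z hz
      rw [← h]
      exact hnn z hz
    have hder : HasDerivAt g (3 * x ^ 2 + 2 * q₂ * x + rb W q₁ q₃ q₄) x := by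
      have a1 := hasDerivAt_pow 3 x
      have a2 := (hasDerivAt_pow 2 x).const_mul q₂
      have a3 := (hasDerivAt_id x).const_mul (rb W q₁ q₃ q₄)
      have h1 := ((a1.add a2).add a3).add_const (rc W q₁ q₂ q₃ q₄)
      have h2 : HasDerivAt g _ x := h1
      refine h2.congr_deriv ?_
      norm_num
      ring
    have h0 := hmin.hasDerivAt_eq_zero hder
    apply hD
    rw [dsc_bezout _ _ _ x, h0, mul_zero, add_zero]
    have : x ^ 3 + q₂ * x ^ 2 + rb W q₁ q₃ q₄ * x + rc W q₁ q₂ q₃ q₄ = 0 := h.symm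
    rw [this, mul_zero]

end real

section dens

variable {K : Type*} [Field K] [DecidableEq K] {v : AbsoluteValue K ℝ}

lemma v_t (hv : IsNonarchimedean v) {w q₁ q₂ q₃ q₄ x y : K} (h2 : v (2 : K) = 1)
    (hw : v w = 1) (h1' : v q₁ ≤ 1) (h2' : v q₂ ≤ 1) (h3' : v q₃ ≤ 1) (h4' : v q₄ ≤ 1)
    (hx : 1 < v x) (h : y ^ 2 = x ^ 3 + q₂ * x ^ 2 + rb w q₁ q₃ q₄ * x + rc w q₁ q₂ q₃ q₄) :
    v ((4 * w ^ 2 * (x + q₂) - q₁ ^ 2) / (2 * w * y - q₁ * x - 2 * w ^ 2 * q₃)) < 1 := by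
  have n (k : ℕ) : v (k : K) ≤ 1 := na_nat hv k
  have n4 : v (4 : K) = 1 := by
    have : (4 : K) = 2 * 2 := by norm_num
    rw [this, map_mul, h2, one_mul]
  have hb : v (rb w q₁ q₃ q₄) ≤ 1 := by
    unfold rb
    refine na_sub hv (na_mul_le h1' h3') (na_mul_le (na_mul_le n4.le (na_pow_le hw.le 2)) h4')
  have hc : v (rc w q₁ q₂ q₃ q₄) ≤ 1 := by
    unfold rc
    refine na_sub hv (na_add hv (na_mul_le (na_pow_le h1' 2) h4')
      (na_mul_le (na_pow_le hw.le 2) (na_pow_le h3' 2)))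
      (na_mul_le (na_mul_le (na_mul_le n4.le (na_pow_le hw.le 2)) h2') h4')
  obtain ⟨hy, k1, k2, k3, k4⟩ := val_ts hv h2' hb hc hx h
  have hvx : 0 < v x := one_pos.trans hx
  have hvy : v x < v y := by
    rw [map_div₀, div_lt_one (v.pos hy)] at k2
    exact k2
  have hnum : v (4 * w ^ 2 * (x + q₂) - q₁ ^ 2) = v x := by
    have e : 4 * w ^ 2 * (x + q₂) - q₁ ^ 2 = 4 * w ^ 2 * x + (4 * w ^ 2 * q₂ - q₁ ^ 2) := by ring
    have e1 : v (4 * w ^ 2 * x) = v x := by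
      rw [map_mul, map_mul, map_pow, n4, hw, one_pow, one_mul, one_mul]
    rw [e, na_eq hv, e1]
    rw [e1]
    refine lt_of_le_of_lt ?_ hx
    exact na_sub hv (na_mul_le (na_mul_le n4.le (na_pow_le hw.le 2)) h2') (na_pow_le h1' 2)
  have hden : v (2 * w * y - q₁ * x - 2 * w ^ 2 * q₃) = v y := by
    have e : 2 * w * y - q₁ * x - 2 * w ^ 2 * q₃ = 2 * w * y + (-(q₁ * x) - 2 * w ^ 2 * q₃) := by
      ring
    have e1 : v (2 * w * y) = v y := by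
      rw [map_mul, map_mul, h2, hw, one_mul, one_mul]
    rw [e, na_eq hv, e1]
    rw [e1]
    refine lt_of_le_of_lt ?_ hvy
    refine na_sub hv ?_ ?_
    · rw [v.map_neg, map_mul]
      exact mul_le_of_le_one_left hvx.le h1'
    · exact (na_mul_le (na_mul_le h2.le (na_pow_le hw.le 2)) h3').trans hx.le
  rw [map_div₀, hnum, hden, ← map_div₀]
  exact k2

/-- **Density, away from one parameter.** -/
theorem qd_main (σ : K →+* ℝ) (hv : IsNonarchimedean v) {w q₁ q₂ q₃ q₄ : K}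
    (h2 : v (2 : K) = 1) (hw : v w = 1) (h1' : v q₁ ≤ 1) (h2' : v q₂ ≤ 1) (h3' : v q₃ ≤ 1)
    (h4' : v q₄ ≤ 1) (hd : v (dsc q₂ (rb w q₁ q₃ q₄) (rc w q₁ q₂ q₃ q₄)) = 1)
    {F : Type} [Fintype F] (ρ : K → F)
    (hρ : ∀ x y, v x ≤ 1 → v y ≤ 1 → ρ x = ρ y → v (x - y) < 1)
    (hS : ∀ h, ∀ n : ℕ, n ≠ 0 → n • (.some (xs w q₁ q₂) (ys w q₁ q₂ q₃) h :
      Pt q₂ (rb w q₁ q₃ q₄) (rc w q₁ q₂ q₃ q₄)) ≠ 0) (hpos : 0 < σ w) {t : ℝ} (ht : t ≠ 0)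
    (hseg : ∀ s : ℝ, 0 ≤ s → s ≤ 1 → 0 < Qr (σ w) (σ q₁) (σ q₂) (σ q₃) (σ q₄) (s * t))
    (hN : 4 * σ w ^ 2 * (Xr (σ w) (σ q₁) (σ q₂) (σ q₃) (σ q₄) t + σ q₂) - σ q₁ ^ 2 ≠ 0)
    {ε : ℝ} (hε : 0 < ε) : ∃ r Y : K, v r < 1 ∧ |σ r - t| < ε ∧ Y ≠ 0 ∧
      Y ^ 2 = w ^ 2 + q₁ * r + q₂ * r ^ 2 + q₃ * r ^ 3 + q₄ * r ^ 4 := by
  have hch : CharZero K := σ.charZero
  have n4 : v (4 : K) ≤ 1 := by exact_mod_cast na_nat hv 4
  have hw0 : w ≠ 0 := by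
    intro h0; rw [h0, map_zero] at hw; exact zero_ne_one hw
  have hb : v (rb w q₁ q₃ q₄) ≤ 1 := by
    unfold rb
    refine na_sub hv (na_mul_le h1' h3') (na_mul_le (na_mul_le n4 (na_pow_le hw.le 2)) h4')
  have hc : v (rc w q₁ q₂ q₃ q₄) ≤ 1 := by
    unfold rc
    refine na_sub hv (na_add hv (na_mul_le (na_pow_le h1' 2) h4')
      (na_mul_le (na_pow_le hw.le 2) (na_pow_le h3' 2)))
      (na_mul_le (na_mul_le (na_mul_le n4 (na_pow_le hw.le 2)) h2') h4')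
  have hD : dsc q₂ (rb w q₁ q₃ q₄) (rc w q₁ q₂ q₃ q₄) ≠ 0 := by
    intro h0; rw [h0, map_zero] at hd; exact zero_ne_one hd
  have hns := ns_of_dsc hD (s_eqn (q₁ := q₁) (q₂ := q₂) (q₃ := q₃) (q₄ := q₄) hw0)
  set D : Pt q₂ (rb w q₁ q₃ q₄) (rc w q₁ q₂ q₃ q₄) := .some (xs w q₁ q₂) (ys w q₁ q₂ q₃) hns
    with hDdef
  obtain ⟨M, hM1, -, hMf⟩ := exists_mult hv h2' hb hc h2 hd ρ hρ D
  have hMD : ∀ n : ℕ, n ≠ 0 → n • (M • D) ≠ 0 := by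
    intro n hn
    rw [smul_smul]
    exact hS hns (n * M) (mul_ne_zero hn (by omega))
  -- the real curve
  have e1 : σ (rb w q₁ q₃ q₄) = rb (σ w) (σ q₁) (σ q₃) (σ q₄) := by simp [rb, map_ofNat]
  have e2 : σ (rc w q₁ q₂ q₃ q₄) = rc (σ w) (σ q₁) (σ q₂) (σ q₃) (σ q₄) := by simp [rc, map_ofNat]
  have hDr : dsc (σ q₂) (rb (σ w) (σ q₁) (σ q₃) (σ q₄)) (rc (σ w) (σ q₁) (σ q₂) (σ q₃) (σ q₄)) ≠ 0 := by
    rw [← e1, ← e2, ← map_dsc]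
    exact (map_ne_zero σ).2 hD
  have hQ : 0 < Qr (σ w) (σ q₁) (σ q₂) (σ q₃) (σ q₄) t := by
    have := hseg 1 zero_le_one le_rfl
    rwa [one_mul] at this
  set X := Xr (σ w) (σ q₁) (σ q₂) (σ q₃) (σ q₄) t with hX
  set Y := Yr (σ w) (σ q₁) (σ q₂) (σ q₃) (σ q₄) t with hY
  have hnear : Near σ (M • D) X Y := by
    apply near_all hD hMD
    · intro x hx
      rw [e1, e2]
      exact Xr_right hpos ht hseg hDr x hx
    · rw [e1, e2]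
      exact inv_curve hpos.ne' ht hQ.le
  obtain ⟨n, x, y, h, hn, hx, hy⟩ := near_seq hnear
  have hfm : ∀ k, 1 < v (x k) := by
    intro k
    have := fm_zsmul hv h2' hb hc h2 hMf (n k)
    rw [hn k] at this
    exact fm_some.1 this
  have heq : ∀ k, y k ^ 2 = x k ^ 3 + q₂ * x k ^ 2 + rb w q₁ q₃ q₄ * x k + rc w q₁ q₂ q₃ q₄ :=
    fun k => (cv_ns.1 (h k)).1
  have hYd : 2 * σ w * Y - σ q₁ * X - 2 * σ w ^ 2 * σ q₃ =
      (4 * σ w ^ 2 * (X + σ q₂) - σ q₁ ^ 2) / t := by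
    rw [hY, Yr, ← hX]
    have := hpos.ne'
    field_simp
    ring
  have hd0 : 2 * σ w * Y - σ q₁ * X - 2 * σ w ^ 2 * σ q₃ ≠ 0 := by
    rw [hYd]
    exact div_ne_zero hN ht
  have lnum : Tendsto (fun k => 4 * σ w ^ 2 * (σ (x k) + σ q₂) - σ q₁ ^ 2) atTop
      (𝓝 (4 * σ w ^ 2 * (X + σ q₂) - σ q₁ ^ 2)) :=
    ((hx.add_const _).const_mul _).sub_const _
  have lden : Tendsto (fun k => 2 * σ w * σ (y k) - σ q₁ * σ (x k) - 2 * σ w ^ 2 * σ q₃) atTop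
      (𝓝 (2 * σ w * Y - σ q₁ * X - 2 * σ w ^ 2 * σ q₃)) :=
    ((hy.const_mul _).sub (hx.const_mul _)).sub_const _
  have lt' : Tendsto (fun k => (4 * σ w ^ 2 * (σ (x k) + σ q₂) - σ q₁ ^ 2) /
      (2 * σ w * σ (y k) - σ q₁ * σ (x k) - 2 * σ w ^ 2 * σ q₃)) atTop (𝓝 t) := by
    have := lnum.div lden hd0
    have e : (4 * σ w ^ 2 * (X + σ q₂) - σ q₁ ^ 2) /
        (2 * σ w * Y - σ q₁ * X - 2 * σ w ^ 2 * σ q₃) = t := by
      rw [hYd]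
      field_simp
    rw [e] at this
    exact this
  set r : ℕ → K := fun k => (4 * w ^ 2 * (x k + q₂) - q₁ ^ 2) /
    (2 * w * y k - q₁ * x k - 2 * w ^ 2 * q₃) with hr
  have lr : Tendsto (fun k => σ (r k)) atTop (𝓝 t) := by
    refine lt'.congr fun k => ?_
    simp [hr, map_ofNat]
  have lY : Tendsto (fun k => σ (-w + r k * (r k * x k - q₁) / (2 * w))) atTop
      (𝓝 (-σ w + t * (t * X - σ q₁) / (2 * σ w))) := by
    have : Tendsto (fun k => -σ w + σ (r k) * (σ (r k) * σ (x k) - σ q₁) / (2 * σ w)) atTop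
      (𝓝 (-σ w + t * (t * X - σ q₁) / (2 * σ w))) :=
      ((lr.mul ((lr.mul hx).sub_const _)).div_const _).const_add _
    refine this.congr fun k => ?_
    simp [map_ofNat]
  have hYlim : -σ w + t * (t * X - σ q₁) / (2 * σ w) =
      Real.sqrt (Qr (σ w) (σ q₁) (σ q₂) (σ q₃) (σ q₄) t) := by
    rw [hX, Xr]
    have := hpos.ne'
    field_simp
    ring
  rw [hYlim] at lY
  have hd1 : ∀ᶠ k in atTop, 2 * w * y k - q₁ * x k - 2 * w ^ 2 * q₃ ≠ 0 := by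
    filter_upwards [lden.eventually_ne hd0] with k hk h0
    apply hk
    have := congrArg σ h0
    simpa only [map_sub, map_mul, map_pow, map_ofNat, map_zero] using this
  have hε' := (Metric.tendsto_nhds.1 lr) ε hε
  obtain ⟨k, k1, k2, k3⟩ := (hd1.and (hε'.and (lY.eventually_ne (Real.sqrt_pos.2 hQ).ne'))).exists
  refine ⟨r k, -w + r k * (r k * x k - q₁) / (2 * w), ?_, ?_, ?_, ?_⟩
  · exact v_t hv h2 hw h1' h2' h3' h4' (hfm k) (heq k)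
  · rwa [Real.dist_eq] at k2
  · intro h0
    rw [h0, map_zero] at k3
    exact k3 rfl
  · exact to_quartic hw0 (heq k) k1 rfl

/-- **Density.** -/
theorem qd_pos (σ : K →+* ℝ) (hv : IsNonarchimedean v) {w q₁ q₂ q₃ q₄ : K}
    (h2 : v (2 : K) = 1) (hw : v w = 1) (h1' : v q₁ ≤ 1) (h2' : v q₂ ≤ 1) (h3' : v q₃ ≤ 1)
    (h4' : v q₄ ≤ 1) (hd : v (dsc q₂ (rb w q₁ q₃ q₄) (rc w q₁ q₂ q₃ q₄)) = 1)
    {F : Type} [Fintype F] (ρ : K → F)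
    (hρ : ∀ x y, v x ≤ 1 → v y ≤ 1 → ρ x = ρ y → v (x - y) < 1)
    (hS : ∀ h, ∀ n : ℕ, n ≠ 0 → n • (.some (xs w q₁ q₂) (ys w q₁ q₂ q₃) h :
      Pt q₂ (rb w q₁ q₃ q₄) (rc w q₁ q₂ q₃ q₄)) ≠ 0) (hpos : 0 < σ w) {t : ℝ}
    (hseg : ∀ s : ℝ, 0 ≤ s → s ≤ 1 → 0 < Qr (σ w) (σ q₁) (σ q₂) (σ q₃) (σ q₄) (s * t))
    {ε : ℝ} (hε : 0 < ε) : ∃ r Y : K, v r < 1 ∧ |σ r - t| < ε ∧ Y ≠ 0 ∧
      Y ^ 2 = w ^ 2 + q₁ * r + q₂ * r ^ 2 + q₃ * r ^ 3 + q₄ * r ^ 4 := by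
  have hch : CharZero K := σ.charZero
  have hw0 : w ≠ 0 := by
    intro h0; rw [h0, map_zero] at hw; exact zero_ne_one hw
  by_cases ht : t = 0
  · subst ht
    exact ⟨0, w, by rw [map_zero]; exact one_pos, by simpa using hε, hw0, by ring⟩
  have hD : dsc q₂ (rb w q₁ q₃ q₄) (rc w q₁ q₂ q₃ q₄) ≠ 0 := by
    intro h0; rw [h0, map_zero] at hd; exact zero_ne_one hd
  have hns := ns_of_dsc hD (s_eqn (q₁ := q₁) (q₂ := q₂) (q₃ := q₃) (q₄ := q₄) hw0)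
  have hys : ys w q₁ q₂ q₃ ≠ 0 := by
    intro h0
    apply hS hns 2 two_ne_zero
    rw [two_smul]
    exact dbl_zero hns (by rw [h0, mul_zero])
  -- at most one exceptional parameter
  have hexc : ∀ t : ℝ, t ≠ 0 → 0 ≤ Qr (σ w) (σ q₁) (σ q₂) (σ q₃) (σ q₄) t →
      4 * σ w ^ 2 * (Xr (σ w) (σ q₁) (σ q₂) (σ q₃) (σ q₄) t + σ q₂) - σ q₁ ^ 2 = 0 →
      (σ (xs w q₁ q₂) ^ 2 - 4 * σ w ^ 2 * σ q₄) * t = 4 * σ w * σ (ys w q₁ q₂ q₃) := by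
    intro t ht hQ h0
    have hs := Real.sq_sqrt hQ
    have hX : Xr (σ w) (σ q₁) (σ q₂) (σ q₃) (σ q₄) t = σ (xs w q₁ q₂) := by
      have e : σ (xs w q₁ q₂) = σ q₁ ^ 2 / (4 * σ w ^ 2) - σ q₂ := by simp [xs, map_ofNat]
      rw [e]
      have := hpos.ne'
      field_simp
      linear_combination h0
    have hy : 2 * σ w * σ (ys w q₁ q₂ q₃) = σ q₁ * σ (xs w q₁ q₂) + 2 * σ w ^ 2 * σ q₃ := by
      have := hpos.ne'
      have e : σ (ys w q₁ q₂ q₃) = (σ q₁ * σ (xs w q₁ q₂) + 2 * σ w ^ 2 * σ q₃) / (2 * σ w) := by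
        simp [ys, map_ofNat]
      rw [e]
      field_simp
    have hx4 : 4 * σ w ^ 2 * (σ (xs w q₁ q₂) + σ q₂) = σ q₁ ^ 2 := by
      have e : σ (xs w q₁ q₂) = σ q₁ ^ 2 / (4 * σ w ^ 2) - σ q₂ := by simp [xs, map_ofNat]
      rw [e]
      have := hpos.ne'
      field_simp
      ring
    rw [Xr, div_eq_iff (pow_ne_zero 2 ht)] at hX
    generalize Real.sqrt (Qr (σ w) (σ q₁) (σ q₂) (σ q₃) (σ q₄) t) = s at hs hX
    unfold Qr at hs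
    have h3 : t ^ 3 ≠ 0 := pow_ne_zero 3 ht
    apply mul_left_cancel₀ h3
    generalize σ (xs w q₁ q₂) = A at hX hy hx4
    generalize σ (ys w q₁ q₂ q₃) = B at hy
    have hX' : 2 * σ w * s = A * t ^ 2 - σ q₁ * t - 2 * σ w ^ 2 := by linear_combination hX
    linear_combination (-(2 * σ w * s) - (A * t ^ 2 - σ q₁ * t - 2 * σ w ^ 2)) * hX' +
      4 * σ w ^ 2 * hs + t ^ 2 * hx4 - 2 * t ^ 3 * hy
  -- choose a good parameter
  obtain ⟨s, hs0, hs1, hst, hsN⟩ : ∃ s : ℝ, 0 < s ∧ s ≤ 1 ∧ |s * t - t| < ε / 2 ∧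
      4 * σ w ^ 2 * (Xr (σ w) (σ q₁) (σ q₂) (σ q₃) (σ q₄) (s * t) + σ q₂) - σ q₁ ^ 2 ≠ 0 := by
    set δ : ℝ := min (1 / 2) (ε / (4 * (|t| + 1))) with hδ
    have htp : 0 < |t| := abs_pos.2 ht
    have hδ0 : 0 < δ := lt_min (by norm_num) (by positivity)
    have hδ1 : δ ≤ 1 / 2 := min_le_left _ _
    have hδ2 : δ * |t| < ε / 2 := by
      have h5 : δ ≤ ε / (4 * (|t| + 1)) := min_le_right _ _
      calc δ * |t| ≤ ε / (4 * (|t| + 1)) * |t| := by gcongr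
        _ = ε / 4 * (|t| / (|t| + 1)) := by field_simp
        _ ≤ ε / 4 * 1 := by
            gcongr
            rw [div_le_one (by positivity)]
            linarith
        _ < ε / 2 := by linarith
    by_contra hcon
    push Not at hcon
    have hstep : ∀ μ : ℝ, 0 ≤ μ → μ ≤ δ → (σ (xs w q₁ q₂) ^ 2 - 4 * σ w ^ 2 * σ q₄) *
        ((1 - μ) * t) = 4 * σ w * σ (ys w q₁ q₂ q₃) := by
      intro μ hμ0 hμ
      have h1 : |(1 - μ) * t - t| < ε / 2 := by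
        have : (1 - μ) * t - t = -(μ * t) := by ring
        rw [this, abs_neg, abs_mul, abs_of_nonneg hμ0]
        exact (mul_le_mul_of_nonneg_right hμ htp.le).trans_lt hδ2
      have h2 := hcon (1 - μ) (by linarith) (by linarith) h1
      exact hexc _ (mul_ne_zero (by linarith) ht) (hseg _ (by linarith) (by linarith)).le h2
    have h5 := hstep 0 le_rfl hδ0.le
    have h6 := hstep δ hδ0.le le_rfl
    have h7 : (σ (xs w q₁ q₂) ^ 2 - 4 * σ w ^ 2 * σ q₄) * (δ * t) = 0 := by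
      linear_combination h5 - h6
    rcases mul_eq_zero.1 h7 with h8 | h8
    · rw [h8, zero_mul] at h5
      have : 4 * σ w * σ (ys w q₁ q₂ q₃) ≠ 0 :=
        mul_ne_zero (mul_ne_zero (by norm_num) hpos.ne') ((map_ne_zero σ).2 hys)
      exact this h5.symm
    · exact (mul_ne_zero hδ0.ne' ht) h8
  obtain ⟨r, Y, hr, hrt, hY, hYQ⟩ := qd_main σ hv h2 hw h1' h2' h3' h4' hd ρ hρ hS hpos
    (mul_ne_zero hs0.ne' ht) (fun s' h0 h1 => by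
      rw [← mul_assoc]
      exact hseg (s' * s) (by positivity) (mul_le_one₀ h1 hs0.le hs1)) hsN (half_pos hε)
  refine ⟨r, Y, hr, ?_, hY, hYQ⟩
  have := abs_sub_le (σ r) (s * t) t
  linarith

/-- **Density.** -/
theorem qd (σ : K →+* ℝ) (hv : IsNonarchimedean v) {w q₁ q₂ q₃ q₄ : K}
    (h2 : v (2 : K) = 1) (hw : v w = 1) (h1' : v q₁ ≤ 1) (h2' : v q₂ ≤ 1) (h3' : v q₃ ≤ 1)
    (h4' : v q₄ ≤ 1) (hd : v (dsc q₂ (rb w q₁ q₃ q₄) (rc w q₁ q₂ q₃ q₄)) = 1)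
    {F : Type} [Fintype F] (ρ : K → F)
    (hρ : ∀ x y, v x ≤ 1 → v y ≤ 1 → ρ x = ρ y → v (x - y) < 1)
    (hS : ∀ h, ∀ n : ℕ, n ≠ 0 → n • (.some (xs w q₁ q₂) (ys w q₁ q₂ q₃) h :
      Pt q₂ (rb w q₁ q₃ q₄) (rc w q₁ q₂ q₃ q₄)) ≠ 0) {t : ℝ}
    (hseg : ∀ s : ℝ, 0 ≤ s → s ≤ 1 → 0 < Qr (σ w) (σ q₁) (σ q₂) (σ q₃) (σ q₄) (s * t))
    {ε : ℝ} (hε : 0 < ε) : ∃ r Y : K, v r < 1 ∧ |σ r - t| < ε ∧ Y ≠ 0 ∧
      Y ^ 2 = w ^ 2 + q₁ * r + q₂ * r ^ 2 + q₃ * r ^ 3 + q₄ * r ^ 4 := by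
  have hch : CharZero K := σ.charZero
  have hw0 : w ≠ 0 := by
    intro h0; rw [h0, map_zero] at hw; exact zero_ne_one hw
  rcases lt_or_gt_of_ne ((map_ne_zero σ).2 hw0) with hneg | hpos
  · have e1 : rb (-w) q₁ q₃ q₄ = rb w q₁ q₃ q₄ := by unfold rb; ring
    have e2 : rc (-w) q₁ q₂ q₃ q₄ = rc w q₁ q₂ q₃ q₄ := by unfold rc; ring
    have e3 : xs (-w) q₁ q₂ = xs w q₁ q₂ := by unfold xs; ring
    have e4 : ys (-w) q₁ q₂ q₃ = -ys w q₁ q₂ q₃ := by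
      unfold ys
      rw [e3]
      field_simp
    have hS' : ∀ h, ∀ n : ℕ, n ≠ 0 → n • (.some (xs (-w) q₁ q₂) (ys (-w) q₁ q₂ q₃) h :
        Pt q₂ (rb (-w) q₁ q₃ q₄) (rc (-w) q₁ q₂ q₃ q₄)) ≠ 0 := by
      rw [e1, e2, e3, e4]
      intro h n hn h0
      have hn' : (cv q₂ (rb w q₁ q₃ q₄) (rc w q₁ q₂ q₃ q₄)).toAffine.Nonsingular (xs w q₁ q₂)
          (ys w q₁ q₂ q₃) := by
        obtain ⟨h', -⟩ := neg_mk h
        rwa [neg_neg] at h'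
      obtain ⟨h'', he⟩ := neg_mk hn'
      apply hS hn' n hn
      have h6 : n • -(.some (xs w q₁ q₂) (ys w q₁ q₂ q₃) hn' :
        Pt q₂ (rb w q₁ q₃ q₄) (rc w q₁ q₂ q₃ q₄)) = 0 := by rw [he]; exact h0
      rwa [smul_neg, neg_eq_zero] at h6
    have hσ : σ (-w) = -σ w := map_neg σ w
    obtain ⟨r, Y, hr, hrt, hY, hYQ⟩ := qd_pos σ hv (w := -w) h2 (by rw [v.map_neg]; exact hw)
      h1' h2' h3' h4' (by rw [e1, e2]; exact hd) ρ hρ hS' (by rw [hσ]; linarith)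
      (fun s h0 h1 => by
        have := hseg s h0 h1
        unfold Qr at this ⊢
        rw [hσ, neg_sq]
        exact this) hε
    exact ⟨r, Y, hr, hrt, hY, by rw [hYQ]; ring⟩
  · exact qd_pos σ hv h2 hw h1' h2' h3' h4' hd ρ hρ hS hpos hseg hε

end dens

end Pool.Agent.Y718.X
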