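import Pool.Agent.Y718.Img
import Pool.Agent.Y718.KeyP

/-!
# Quadrics, curves of genus one, intersections of two quadrics, linear systems
-/

set_option autoImplicit false
set_option linter.unusedSectionVars false
set_option linter.unusedSimpArgs false

open Set Filter Topology Pool.Agent.H581R2 Pool.Agent.TH729.SQ

namespace Pool.Agent.Y718

/-- polynomial functions of bounded total degree -/
def PD {ι : Type} (d : ℕ) (f : (ι → ℚ) → ℚ) : Prop :=
  ∃ p : MvPolynomial ι ℚ, p.totalDegree ≤ d ∧ ∀ v, f v = MvPolynomial.eval v p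

namespace PD

variable {ι κ : Type}

lemma const (d : ℕ) (c : ℚ) : PD d (fun _ : ι → ℚ => c) := ⟨MvPolynomial.C c, by simp, fun v => by simp⟩
lemma coord (i : ι) : PD 1 (fun v : ι → ℚ => v i) :=
  ⟨MvPolynomial.X i, by simp, fun v => by simp⟩
lemma mono {d d' : ℕ} (h : d ≤ d') {f : (ι → ℚ) → ℚ} (hf : PD d f) : PD d' f := by
  obtain ⟨p, hp, hp'⟩ := hf
  exact ⟨p, hp.trans h, hp'⟩
lemma add {d : ℕ} {f g : (ι → ℚ) → ℚ} (hf : PD d f) (hg : PD d g) : PD d (fun v => f v + g v) := by
  obtain ⟨p, hp, hp'⟩ := hf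
  obtain ⟨q, hq, hq'⟩ := hg
  exact ⟨p + q, (MvPolynomial.totalDegree_add p q).trans (max_le hp hq), fun v => by simp [hp', hq']⟩
lemma mul {d e : ℕ} {f g : (ι → ℚ) → ℚ} (hf : PD d f) (hg : PD e g) :
    PD (d + e) (fun v => f v * g v) := by
  obtain ⟨p, hp, hp'⟩ := hf
  obtain ⟨q, hq, hq'⟩ := hg
  exact ⟨p * q, (MvPolynomial.totalDegree_mul p q).trans (add_le_add hp hq), fun v => by simp [hp', hq']⟩
lemma cmul {d : ℕ} {f : (ι → ℚ) → ℚ} (c : ℚ) (hf : PD d f) : PD d (fun v => c * f v) := by
  have := (PD.const (ι := ι) 0 c).mul hf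
  rwa [zero_add] at this
lemma sub {d : ℕ} {f g : (ι → ℚ) → ℚ} (hf : PD d f) (hg : PD d g) : PD d (fun v => f v - g v) := by
  have h := hf.add (hg.cmul (-1))
  have : (fun v => f v - g v) = fun v => f v + -1 * g v := by funext v; ring
  rw [this]
  exact h
lemma sum {d : ℕ} {α : Type*} (s : Finset α) {f : α → (ι → ℚ) → ℚ} (hf : ∀ a ∈ s, PD d (f a)) :
    PD d (fun v => ∑ a ∈ s, f a v) := by
  classical
  induction s using Finset.induction_on with
  | empty => simpa using PD.const (ι := ι) d 0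
  | insert a s ha ih =>
    have : (fun v => ∑ b ∈ insert a s, f b v) = fun v => f a v + ∑ b ∈ s, f b v := by
      funext v; rw [Finset.sum_insert ha]
    rw [this]
    exact (hf a (by simp)).add (ih fun b hb => hf b (by simp [hb]))
lemma sq {f : (ι → ℚ) → ℚ} (hf : PD 1 f) : PD 2 (fun v => f v ^ 2) := by
  have h := hf.mul hf
  have : (fun v => f v ^ 2) = fun v => f v * f v := by funext v; ring
  rw [this]
  exact h

end PD

/-- a quadratic polynomial is of degree two -/
lemma qf_PD {ι : Type} {r : ℕ} (q : Fin r → Fin r → ℚ) (l : Fin r → ℚ) (c : ℚ) (e : Fin r → ι) :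
    PD 2 (fun v : ι → ℚ => qf q l c (fun j => v (e j))) := by
  unfold qf
  refine PD.add (PD.add ?_ ?_) (PD.const _ _)
  · refine PD.sum _ fun j _ => PD.sum _ fun k _ => ?_
    exact ((PD.coord (e j)).cmul (q j k)).mul (PD.coord (e k))
  · refine PD.sum _ fun j _ => ?_
    exact ((PD.coord (e j)).cmul (l j)).mono (by norm_num)

lemma one_SA {ι : Type} [Finite ι] {f : (ι → ℚ) → ℚ} (hf : PD 2 f) :
    SA (closure (rl {v : ι → ℚ | f v = 0})) := by
  obtain ⟨p, hp, hp'⟩ := hf
  obtain ⟨n, ⟨e⟩⟩ := Finite.exists_equiv_fin ι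
  refine reindex_SA e.symm (poly_SA (MvPolynomial.rename e p) ?_) fun y => ?_
  · exact (MvPolynomial.totalDegree_rename_le e p).trans (hp.trans (by norm_num))
  · simp only [Set.mem_ofPred_eq, hp', MvPolynomial.eval_rename]
    have : ((fun i => y (e.symm i)) ∘ e) = y := by funext i; simp
    rw [this]

lemma two_SA {ι : Type} [Finite ι] {f g : (ι → ℚ) → ℚ} (hf : PD 2 f) (hg : PD 2 g) :
    SA (closure (rl {v : ι → ℚ | f v = 0 ∧ g v = 0})) := by
  obtain ⟨p, hp, hp'⟩ := hf
  obtain ⟨q, hq, hq'⟩ := hg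
  obtain ⟨n, ⟨e⟩⟩ := Finite.exists_equiv_fin ι
  have h1 := Pool.Agent.TH729.CC.affine_SA2 (Rat.castHom ℝ) (fun r => by
    simpa using (isAlgebraic_algebraMap (R := ℚ) (A := ℝ) r)) (MvPolynomial.rename e p)
    (MvPolynomial.rename e q) ((MvPolynomial.totalDegree_rename_le e p).trans hp)
    ((MvPolynomial.totalDegree_rename_le e q).trans hq)
  have h2 : rl {x : Fin n → ℚ | MvPolynomial.eval x (MvPolynomial.rename e p) = 0 ∧
      MvPolynomial.eval x (MvPolynomial.rename e q) = 0} =
      {x : Fin n → ℝ | ∃ r : Fin n → ℚ, (MvPolynomial.eval r (MvPolynomial.rename e p) = 0 ∧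
      MvPolynomial.eval r (MvPolynomial.rename e q) = 0) ∧ x = fun i => (Rat.castHom ℝ) (r i)} := by
    ext x
    constructor
    · rintro ⟨r, hr, rfl⟩; exact ⟨r, hr, rfl⟩
    · rintro ⟨r, hr, rfl⟩; exact ⟨r, hr, rfl⟩
  rw [← h2] at h1
  refine reindex_SA e.symm h1 fun y => ?_
  simp only [Set.mem_ofPred_eq, hp', hq', MvPolynomial.eval_rename]
  have : ((fun i => y (e.symm i)) ∘ e) = y := by funext i; simp
  rw [this]

/-- the quartic in the two coordinates `x`, `x²` -/
def q4 (P : Polynomial ℚ) (x X2 : ℚ) : ℚ :=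
  P.coeff 4 * X2 ^ 2 + P.coeff 3 * (x * X2) + P.coeff 2 * X2 + P.coeff 1 * x + P.coeff 0

lemma q4_eval {P : Polynomial ℚ} (hP : P.natDegree ≤ 4) (x : ℚ) : q4 P x (x ^ 2) = P.eval x := by
  rw [eval_four hP, q4]
  ring

lemma q4_PD {ι : Type} (P : Polynomial ℚ) (i j : ι) : PD 2 (fun v : ι → ℚ => q4 P (v i) (v j)) := by
  unfold q4
  refine PD.add (PD.add (PD.add (PD.add ?_ ?_) ?_) ?_) (PD.const _ _)
  · exact ((PD.coord j).sq).cmul _
  · exact ((PD.coord i).mul (PD.coord j)).cmul _
  · exact ((PD.coord j).cmul _).mono (by norm_num)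
  · exact ((PD.coord i).cmul _).mono (by norm_num)

/-- the curves `t² = P(x)` -/
lemma curve_SA {P : Polynomial ℚ} (hP : P.natDegree ≤ 4) :
    SA (closure (rl {v : Fin 2 → ℚ | v 1 ^ 2 = P.eval (v 0)})) := by
  have h := two_SA (ι := Fin 3) (f := fun v => v 1 - v 0 ^ 2)
    (g := fun v => v 2 ^ 2 - q4 P (v 0) (v 1))
    (((PD.coord 1).mono (by norm_num)).sub ((PD.coord 0).sq)) (((PD.coord 2).sq).sub (q4_PD P 0 1))
  refine img_SA (κ := Empty) h (q := fun _ => 1) (PQ.const 1)
    (p := fun k v => if k = 0 then v (Sum.inl 0) else v (Sum.inl 2)) (fun k => ?_) fun y => ?_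
  · split_ifs
    · exact PQ.coord _
    · exact PQ.coord _
  · constructor
    · intro hy
      refine ⟨![y 0, y 0 ^ 2, y 1], ⟨?_, ?_⟩, fun x => x.elim, one_ne_zero, fun k => ?_⟩
      · simp
      · simp only [Matrix.cons_val_zero, Matrix.cons_val_one, Matrix.cons_val, q4_eval hP]
        have hy' : y 1 ^ 2 = P.eval (y 0) := hy
        rw [hy', sub_self]
      · fin_cases k <;> simp
    · rintro ⟨x, ⟨h1, h2⟩, u, -, hy⟩
      have e0 := hy 0
      have e1 := hy 1
      simp only [if_true, Sum.elim_inl, div_one, Fin.one_eq_zero_iff, Nat.succ_ne_self, if_false] at e0 e1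
      have h1' : x 1 = x 0 ^ 2 := by linarith
      rw [h1', q4_eval hP] at h2
      simp only [Set.mem_ofPred_eq]
      rw [e0, e1]
      linarith

/-- intersections of the form `H(u) = P(x)` -/
lemma chat_SA {r : ℕ} {P : Polynomial ℚ} (hP : P.natDegree ≤ 4) (q : Fin r → Fin r → ℚ)
    (l : Fin r → ℚ) (c : ℚ) :
    SA (closure (rl {v : Option (Option (Fin r)) → ℚ | ∑ j, ∑ k, q j k * v (some (some j)) * v (some (some k)) +
      ∑ j, l j * v (some (some j)) * v (some none) + c * v (some none) ^ 2 = P.eval (v none)})) := by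
  have hH : PD 2 (fun v : Option (Option (Option (Fin r))) → ℚ => (∑ j, ∑ k, q j k *
      v (some (some (some j))) * v (some (some (some k))) +
      ∑ j, l j * v (some (some (some j))) * v (some (some none)) + c * v (some (some none)) ^ 2) -
      q4 P (v none) (v (some none))) := by
    refine PD.sub (PD.add (PD.add ?_ ?_) ?_) (q4_PD P _ _)
    · refine PD.sum _ fun j _ => PD.sum _ fun k _ => ?_
      exact ((PD.coord (some (some (some j)))).cmul (q j k)).mul (PD.coord (some (some (some k))))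
    · refine PD.sum _ fun j _ => ?_
      exact ((PD.coord (some (some (some j)))).cmul (l j)).mul (PD.coord (some (some none)))
    · exact (PD.coord (some (some none))).sq.cmul c
  have h := two_SA (ι := Option (Option (Option (Fin r)))) (f := fun v => v (some none) - v none ^ 2)
    (((PD.coord (some none)).mono (by norm_num)).sub ((PD.coord none).sq)) hH
  let e : Option (Option (Fin r)) → Option (Option (Option (Fin r))) := fun o => o.elim none
    fun o' => some (some o')
  refine img_SA (κ := Empty) h (q := fun _ => 1) (PQ.const 1)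
    (p := fun k v => v (Sum.inl (e k))) (fun k => PQ.coord _) fun y => ?_
  constructor
  · intro hy
    refine ⟨fun o => match o with
      | none => y none
      | some none => y none ^ 2
      | some (some o') => y (some o'), ⟨?_, ?_⟩, fun x => x.elim, one_ne_zero, fun k => ?_⟩
    · simp
    · simp only [q4_eval hP]
      have hy' := hy
      simp only [Set.mem_ofPred_eq] at hy'
      rw [hy', sub_self]
    · rcases k with _ | k <;> simp [e]
  · rintro ⟨x, ⟨h1, h2⟩, u, -, hy⟩
    have e0 : ∀ k, y k = x (e k) := by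
      intro k
      have := hy k
      simpa using this
    have h1' : x (some none) = x none ^ 2 := by
      have : x (some none) - x none ^ 2 = 0 := h1
      linarith
    simp only [h1', q4_eval hP] at h2
    simp only [Set.mem_ofPred_eq, e0]
    simp only [e, Option.elim_some, Option.elim_none]
    linarith

end Pool.Agent.Y718
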