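import Pool.Agent.Y718.QuartB
import Pool.Agent.TH729.SQ.Comp

/-!
# Connected components of closures
-/

set_option autoImplicit false
set_option linter.unusedSectionVars false
set_option linter.unusedSimpArgs false

open Set Filter Topology Pool.Agent.H581R2 Pool.Agent.TH729.SQ

namespace Pool.Agent.Y718

/-- the union of two sets with finitely many components -/
lemma union_comp {α : Type} [TopologicalSpace α] {A B : Set α} (hA : Finite (ConnectedComponents A))
    (hB : Finite (ConnectedComponents B)) : Finite (ConnectedComponents ↥(A ∪ B)) := by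
  have hcA : Continuous (Set.inclusion (subset_union_left (s := A) (t := B))) := continuous_inclusion _
  have hcB : Continuous (Set.inclusion (subset_union_right (s := A) (t := B))) := continuous_inclusion _
  refine Finite.of_surjective (Sum.elim hcA.connectedComponentsMap hcB.connectedComponentsMap) ?_
  intro c
  obtain ⟨⟨x, hx⟩, rfl⟩ := ConnectedComponents.surjective_coe c
  rcases hx with h | h
  · exact ⟨Sum.inl (ConnectedComponents.mk (⟨x, h⟩ : A)), rfl⟩
  · exact ⟨Sum.inr (ConnectedComponents.mk (⟨x, h⟩ : B)), rfl⟩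

/-- images under continuous maps -/
lemma image_comp {α β : Type} [TopologicalSpace α] [TopologicalSpace β] {A : Set α}
    (hA : Finite (ConnectedComponents A)) {f : α → β} (hf : Continuous f) :
    Finite (ConnectedComponents ↥(f '' A)) := by
  have hc : Continuous (fun x : A => (⟨f x, ⟨x, x.2, rfl⟩⟩ : f '' A)) := by fun_prop
  refine Finite.of_surjective hc.connectedComponentsMap ?_
  intro c
  obtain ⟨⟨_, ⟨x, hx, rfl⟩⟩, rfl⟩ := ConnectedComponents.surjective_coe c
  exact ⟨ConnectedComponents.mk (⟨x, hx⟩ : A), rfl⟩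

/-- all rational points of a double cover, from the points off and on the branch divisor -/
theorem full_comp {n : ℕ} (f : MvPolynomial (Fin n) ℚ)
    (h : Finite (ConnectedComponents ↥(closure (rl (X0 f)))))
    (hb : Finite (ConnectedComponents ↥(closure (rl {z : Fin n → ℚ | MvPolynomial.eval z f = 0})))) :
    Finite (ConnectedComponents ↥(closure (rl {u : Fin (n + 1) → ℚ | u 0 ^ 2 =
      MvPolynomial.eval (fun k => u k.succ) f}))) := by
  have h1 : {u : Fin (n + 1) → ℚ | u 0 ^ 2 = MvPolynomial.eval (fun k => u k.succ) f} =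
      X0 f ∪ {u | u 0 = 0 ∧ MvPolynomial.eval (fun k => u k.succ) f = 0} := by
    ext u
    simp only [Set.mem_ofPred_eq, Set.mem_union, X0]
    constructor
    · intro hu
      by_cases h0 : u 0 = 0
      · right
        refine ⟨h0, ?_⟩
        rw [← hu, h0]; ring
      · exact Or.inl ⟨h0, hu⟩
    · rintro (⟨-, h2⟩ | ⟨h2, h3⟩)
      · exact h2
      · rw [h2, h3]; ring
  have hcons : Continuous fun z : Fin n → ℝ => (Fin.cons 0 z : Fin (n + 1) → ℝ) := by
    refine continuous_pi fun i => ?_
    refine Fin.cases ?_ (fun j => ?_) i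
    · simpa using continuous_const
    · simpa using continuous_apply j
  have htail : Continuous fun u : Fin (n + 1) → ℝ => (fun k : Fin n => u k.succ) := by fun_prop
  have h2 : closure (rl {u : Fin (n + 1) → ℚ | u 0 = 0 ∧ MvPolynomial.eval (fun k => u k.succ) f = 0}) =
      (fun z : Fin n → ℝ => (Fin.cons 0 z : Fin (n + 1) → ℝ)) ''
        closure (rl {z : Fin n → ℚ | MvPolynomial.eval z f = 0}) := by
    have hcl : IsClosed ((fun z : Fin n → ℝ => (Fin.cons 0 z : Fin (n + 1) → ℝ)) ''
        closure (rl {z : Fin n → ℚ | MvPolynomial.eval z f = 0})) := by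
      have : (fun z : Fin n → ℝ => (Fin.cons 0 z : Fin (n + 1) → ℝ)) ''
          closure (rl {z : Fin n → ℚ | MvPolynomial.eval z f = 0}) =
          {u | u 0 = 0 ∧ (fun k : Fin n => u k.succ) ∈
            closure (rl {z : Fin n → ℚ | MvPolynomial.eval z f = 0})} := by
        ext u
        constructor
        · rintro ⟨z, hz, rfl⟩
          exact ⟨rfl, by simpa using hz⟩
        · rintro ⟨h0, hz⟩
          refine ⟨_, hz, ?_⟩
          funext i
          refine Fin.cases ?_ (fun j => ?_) i
          · simp [h0]
          · simp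
      rw [this]
      exact (isClosed_eq (continuous_apply 0) continuous_const).inter (isClosed_closure.preimage htail)
    apply Subset.antisymm
    · refine closure_minimal ?_ hcl
      rintro _ ⟨u, ⟨h0, hu⟩, rfl⟩
      refine ⟨fun k => (u k.succ : ℝ), subset_closure ⟨_, hu, rfl⟩, ?_⟩
      funext i
      refine Fin.cases ?_ (fun j => ?_) i
      · simp [h0]
      · simp
    · refine (image_closure_subset_closure_image hcons).trans (closure_mono ?_)
      rintro _ ⟨_, ⟨z, hz, rfl⟩, rfl⟩
      refine ⟨Fin.cons 0 z, ⟨rfl, by simpa using hz⟩, ?_⟩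
      funext i
      refine Fin.cases ?_ (fun j => ?_) i
      · simp
      · simp
  rw [h1, rl_union, closure_union, h2]
  exact union_comp h (image_comp hb hcons)

/-- the open subvariety `w ≠ 0`, as a closed subvariety -/
theorem open_SA {n : ℕ} {f : MvPolynomial (Fin n) ℚ} (h : SA (closure (rl (X0 f))))
    {D : Set (Fin (n + 2) → ℚ)} (hD : ∀ u, u ∈ D ↔ u 0 * u 1 = 1 ∧
      u 1 ^ 2 = MvPolynomial.eval (fun k : Fin n => u k.succ.succ) f) : SA (closure (rl D)) := by
  refine img_SA (κ := Empty) h (q := fun v => v (Sum.inl 0)) (PQ.coord _)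
    (p := fun k v => (Fin.cons 1 (fun i => v (Sum.inl 0) * v (Sum.inl i)) : Fin (n + 2) → ℚ) k)
    (fun k => ?_) fun y => ?_
  · refine Fin.cases ?_ (fun i => ?_) k
    · simp only [Fin.cons_zero]; exact PQ.const 1
    · simp only [Fin.cons_succ]; exact (PQ.coord _).mul (PQ.coord _)
  · rw [hD]
    constructor
    · rintro ⟨h1, h2⟩
      have hy1 : y 1 ≠ 0 := by
        intro h0
        rw [h0, mul_zero] at h1
        exact zero_ne_one h1
      refine ⟨fun k => y k.succ, ⟨hy1, h2⟩, fun x => x.elim, hy1, fun k => ?_⟩
      refine Fin.cases ?_ (fun i => ?_) k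
      · simp only [Fin.cons_zero, Sum.elim_inl]
        exact eq_div_of_mul_eq hy1 h1
      · simp only [Fin.cons_succ, Sum.elim_inl]
        exact (mul_div_cancel_left₀ _ hy1).symm
    · rintro ⟨x, ⟨hx0, hx⟩, u, -, hy⟩
      have e0 : y 0 = 1 / x 0 := by
        rw [hy 0]; simp
      have e1 : ∀ i : Fin (n + 1), y i.succ = x i := by
        intro i
        rw [hy i.succ]
        simp only [Fin.cons_succ, Sum.elim_inl]
        exact mul_div_cancel_left₀ _ hx0
      have e10 : y 1 = x 0 := e1 0
      refine ⟨?_, ?_⟩
      · rw [e0, e10]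
        field_simp
      · rw [e10, hx]
        congr 2
        funext k
        exact (e1 k.succ).symm

end Pool.Agent.Y718
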