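import Pool.Agent.Y720.MZ.Quar

/-!
# Real density of the multiples of a point of infinite order on an elliptic curve

The multiples of a point of infinite order are dense in the unbounded component.
-/

set_option autoImplicit false
set_option linter.unusedSectionVars false
set_option linter.unusedVariables false

open WeierstrassCurve Filter Topology Pool.Agent.Y720.MZ

namespace Pool.Agent.Y718.X

/-- the cubic polynomial -/
def gg (a b c x : ℝ) : ℝ := x ^ 3 + a * x ^ 2 + b * x + c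

lemma gg_cont (a b c : ℝ) : Continuous (gg a b c) := by unfold gg; fun_prop

section asym

variable {a b c : ℝ}

lemma lim_inv : Tendsto (fun X : ℝ => X⁻¹) atTop (𝓝 0) := tendsto_inv_atTop_zero

lemma lim_g : Tendsto (fun X : ℝ => gg a b c X / X ^ 3) atTop (𝓝 1) := by
  have h : Tendsto (fun X : ℝ => 1 + a * X⁻¹ + b * X⁻¹ ^ 2 + c * X⁻¹ ^ 3) atTop
      (𝓝 (1 + a * 0 + b * 0 ^ 2 + c * 0 ^ 3)) :=
    ((tendsto_const_nhds.add (lim_inv.const_mul a)).add ((lim_inv.pow 2).const_mul b)).add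
      ((lim_inv.pow 3).const_mul c)
  have e : (1 : ℝ) + a * 0 + b * 0 ^ 2 + c * 0 ^ 3 = 1 := by ring
  rw [e] at h
  refine h.congr' ?_
  filter_upwards [eventually_gt_atTop 0] with X hX
  unfold gg
  field_simp

lemma ev_gpos : ∀ᶠ X : ℝ in atTop, 0 < gg a b c X := by
  filter_upwards [(lim_g (a := a) (b := b) (c := c)).eventually_const_lt (zero_lt_one),
    eventually_gt_atTop 0] with X h1 h2
  exact (div_pos_iff_of_pos_right (by positivity)).1 h1

lemma lim_Y2 : Tendsto (fun X : ℝ => Real.sqrt (gg a b c X) / X ^ 2) atTop (𝓝 0) := by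
  have h : Tendsto (fun X : ℝ => Real.sqrt (gg a b c X / X ^ 3 * X⁻¹)) atTop
      (𝓝 (Real.sqrt (1 * 0))) :=
    (Real.continuous_sqrt.tendsto _).comp (lim_g.mul lim_inv)
  rw [mul_zero, Real.sqrt_zero] at h
  refine h.congr' ?_
  filter_upwards [eventually_gt_atTop 0, ev_gpos (a := a) (b := b) (c := c)] with X hX hg
  have e : gg a b c X / X ^ 3 * X⁻¹ = gg a b c X / (X ^ 2) ^ 2 := by
    field_simp
  rw [e, Real.sqrt_div hg.le, Real.sqrt_sq (by positivity)]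

lemma lim_XY : Tendsto (fun X : ℝ => X / Real.sqrt (gg a b c X)) atTop (𝓝 0) := by
  have h : Tendsto (fun X : ℝ => Real.sqrt (X⁻¹ / (gg a b c X / X ^ 3))) atTop
      (𝓝 (Real.sqrt (0 / 1))) :=
    (Real.continuous_sqrt.tendsto _).comp (lim_inv.div lim_g one_ne_zero)
  rw [zero_div, Real.sqrt_zero] at h
  refine h.congr' ?_
  filter_upwards [eventually_gt_atTop 0, ev_gpos (a := a) (b := b) (c := c)] with X hX hg
  have e : X⁻¹ / (gg a b c X / X ^ 3) = X ^ 2 / gg a b c X := by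
    field_simp
  rw [e, Real.sqrt_div (by positivity), Real.sqrt_sq hX.le]

lemma lim_iY : Tendsto (fun X : ℝ => (Real.sqrt (gg a b c X))⁻¹) atTop (𝓝 0) := by
  have h := (lim_inv).mul (lim_XY (a := a) (b := b) (c := c))
  rw [mul_zero] at h
  refine h.congr' ?_
  filter_upwards [eventually_gt_atTop 0] with X hX
  field_simp

/-- the third point of the line through `(ξ, η)` and the point `(X, √g(X))` -/
noncomputable def x3 (a b c ξ η X : ℝ) : ℝ :=
  ((η - Real.sqrt (gg a b c X)) / (ξ - X)) ^ 2 - a - ξ - X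

noncomputable def y3 (a b c ξ η X : ℝ) : ℝ :=
  -((η - Real.sqrt (gg a b c X)) / (ξ - X) * (x3 a b c ξ η X - ξ) + η)

lemma x3_sub {ξ η X : ℝ} (hη : η ^ 2 = gg a b c ξ) (hg : 0 ≤ gg a b c X) (hX : X ≠ ξ) :
    x3 a b c ξ η X - ξ = (-2 * Real.sqrt (gg a b c X) * η + (3 * ξ ^ 2 + 2 * a * ξ + b) * X +
      (c + η ^ 2 - a * ξ ^ 2 - 2 * ξ ^ 3)) / (X - ξ) ^ 2 := by
  have hs := Real.sq_sqrt hg
  unfold x3
  have h1 : X - ξ ≠ 0 := sub_ne_zero.2 hX
  have h2 : ξ - X ≠ 0 := sub_ne_zero.2 hX.symm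
  rw [div_pow, eq_div_iff (pow_ne_zero 2 h1)]
  have e : ((η - Real.sqrt (gg a b c X)) ^ 2 / (ξ - X) ^ 2) * (X - ξ) ^ 2 =
      (η - Real.sqrt (gg a b c X)) ^ 2 := by
    have : (X - ξ) ^ 2 = (ξ - X) ^ 2 := by ring
    rw [this, div_mul_cancel₀ _ (pow_ne_zero 2 h2)]
  unfold gg at hs ⊢
  unfold gg at e
  linear_combination e + hs

lemma lim_x3 {ξ η : ℝ} (hη : η ^ 2 = gg a b c ξ) :
    Tendsto (fun X => x3 a b c ξ η X) atTop (𝓝 ξ) := by
  have h1 : Tendsto (fun X : ℝ => (-2 * η * (Real.sqrt (gg a b c X) / X ^ 2) +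
      (3 * ξ ^ 2 + 2 * a * ξ + b) * X⁻¹ + (c + η ^ 2 - a * ξ ^ 2 - 2 * ξ ^ 3) * X⁻¹ ^ 2) /
      (1 - ξ * X⁻¹) ^ 2 + ξ) atTop (𝓝 ((-2 * η * 0 + (3 * ξ ^ 2 + 2 * a * ξ + b) * 0 +
        (c + η ^ 2 - a * ξ ^ 2 - 2 * ξ ^ 3) * 0 ^ 2) / (1 - ξ * 0) ^ 2 + ξ)) := by
    refine Tendsto.add_const _ (Tendsto.div (((lim_Y2.const_mul _).add (lim_inv.const_mul _)).add
      ((lim_inv.pow 2).const_mul _)) ((tendsto_const_nhds.sub (lim_inv.const_mul ξ)).pow 2) ?_)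
    norm_num
  have e : (-2 * η * 0 + (3 * ξ ^ 2 + 2 * a * ξ + b) * 0 +
        (c + η ^ 2 - a * ξ ^ 2 - 2 * ξ ^ 3) * 0 ^ 2) / (1 - ξ * 0) ^ 2 + ξ = ξ := by norm_num
  rw [e] at h1
  refine h1.congr' ?_
  filter_upwards [eventually_gt_atTop 0, eventually_gt_atTop ξ,
    ev_gpos (a := a) (b := b) (c := c)] with X hX hX2 hg
  have h3 := x3_sub hη hg.le hX2.ne'
  have h4 : x3 a b c ξ η X = (x3 a b c ξ η X - ξ) + ξ := by ring
  rw [h4, h3]
  congr 1
  have h5 : X - ξ ≠ 0 := by linarith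
  have h6 : 1 - ξ * X⁻¹ = (X - ξ) / X := by field_simp
  rw [h6]
  field_simp

lemma x3_lt {ξ η : ℝ} (hη : η ^ 2 = gg a b c ξ) (hη0 : 0 < η) :
    ∀ᶠ X in atTop, x3 a b c ξ η X < ξ := by
  have h1 : Tendsto (fun X : ℝ => -2 * η + (3 * ξ ^ 2 + 2 * a * ξ + b) *
      (X / Real.sqrt (gg a b c X)) + (c + η ^ 2 - a * ξ ^ 2 - 2 * ξ ^ 3) *
      (Real.sqrt (gg a b c X))⁻¹) atTop (𝓝 (-2 * η + (3 * ξ ^ 2 + 2 * a * ξ + b) * 0 +
        (c + η ^ 2 - a * ξ ^ 2 - 2 * ξ ^ 3) * 0)) :=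
    (tendsto_const_nhds.add (lim_XY.const_mul _)).add (lim_iY.const_mul _)
  have e : -2 * η + (3 * ξ ^ 2 + 2 * a * ξ + b) * 0 +
        (c + η ^ 2 - a * ξ ^ 2 - 2 * ξ ^ 3) * 0 < 0 := by linarith
  filter_upwards [h1.eventually_lt_const e, eventually_gt_atTop ξ,
    ev_gpos (a := a) (b := b) (c := c)] with X hX hX2 hg
  have h3 := x3_sub hη hg.le hX2.ne'
  have hs : 0 < Real.sqrt (gg a b c X) := Real.sqrt_pos.2 hg
  have h5 : 0 < (X - ξ) ^ 2 := by
    have : 0 < X - ξ := by linarith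
    positivity
  have h6 : x3 a b c ξ η X - ξ < 0 := by
    rw [h3]
    apply div_neg_of_neg_of_pos _ h5
    have : -2 * Real.sqrt (gg a b c X) * η + (3 * ξ ^ 2 + 2 * a * ξ + b) * X +
      (c + η ^ 2 - a * ξ ^ 2 - 2 * ξ ^ 3) = Real.sqrt (gg a b c X) * (-2 * η +
        (3 * ξ ^ 2 + 2 * a * ξ + b) * (X / Real.sqrt (gg a b c X)) +
        (c + η ^ 2 - a * ξ ^ 2 - 2 * ξ ^ 3) * (Real.sqrt (gg a b c X))⁻¹) := by
      field_simp
    rw [this]
    exact mul_neg_of_pos_of_neg hs hX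
  linarith

lemma lim_y3 {ξ η : ℝ} (hη : η ^ 2 = gg a b c ξ) :
    Tendsto (fun X => y3 a b c ξ η X) atTop (𝓝 η) := by
  set G := 3 * ξ ^ 2 + 2 * a * ξ + b
  set C := c + η ^ 2 - a * ξ ^ 2 - 2 * ξ ^ 3
  have h1 : Tendsto (fun X : ℝ => -((-2 * η * (gg a b c X / X ^ 3) +
      G * (Real.sqrt (gg a b c X) / X ^ 2) + (C + 2 * η ^ 2) * (Real.sqrt (gg a b c X) / X ^ 2 * X⁻¹)
      - η * G * X⁻¹ ^ 2 - η * C * X⁻¹ ^ 3) /
      (1 - ξ * X⁻¹) ^ 3 + η)) atTop (𝓝 (-((-2 * η * 1 + G * 0 + (C + 2 * η ^ 2) * (0 * 0)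
      - η * G * 0 ^ 2 - η * C * 0 ^ 3) / (1 - ξ * 0) ^ 3 + η))) := by
    refine Tendsto.neg (Tendsto.add_const _ (Tendsto.div (((((lim_g.const_mul _).add
      (lim_Y2.const_mul _)).add ((lim_Y2.mul lim_inv).const_mul _)).sub
      ((lim_inv.pow 2).const_mul _)).sub ((lim_inv.pow 3).const_mul _))
      ((tendsto_const_nhds.sub (lim_inv.const_mul ξ)).pow 3) ?_))
    norm_num
  have e : -((-2 * η * 1 + G * 0 + (C + 2 * η ^ 2) * (0 * 0)
      - η * G * 0 ^ 2 - η * C * 0 ^ 3) / (1 - ξ * 0) ^ 3 + η) = η := by norm_num; ring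
  rw [e] at h1
  refine h1.congr' ?_
  filter_upwards [eventually_gt_atTop 0, eventually_gt_atTop ξ,
    ev_gpos (a := a) (b := b) (c := c)] with X hX hX2 hg
  have h3 := x3_sub hη hg.le hX2.ne'
  have hs := Real.sq_sqrt hg.le
  unfold y3
  rw [h3]
  have h5 : X - ξ ≠ 0 := by linarith
  have h5' : ξ - X ≠ 0 := by intro h; apply h5; linarith
  have h6 : 1 - ξ * X⁻¹ = (X - ξ) / X := by field_simp
  rw [h6]
  congr 2
  generalize Real.sqrt (gg a b c X) = s at hs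
  rw [← hs]
  have h7 : (η - s) / (ξ - X) = (s - η) / (X - ξ) := by
    rw [div_eq_div_iff h5' h5]; ring
  rw [h7]
  field_simp
  ring

end asym

section near

variable {K : Type*} [Field K] [DecidableEq K]

/-- a limit of multiples of a point -/
def Near (σ : K →+* ℝ) {a b c : K} (P : Pt a b c) (ξ η : ℝ) : Prop :=
  ∀ ε : ℝ, 0 < ε → ∃ n : ℤ, ∃ x y h, n • P = .some x y h ∧ |σ x - ξ| < ε ∧ |σ y - η| < ε

variable {σ : K →+* ℝ} {a b c : K} {P : Pt a b c}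

lemma near_of {n : ℤ} {x y : K} {h : (cv a b c).toAffine.Nonsingular x y}
    (hn : n • P = .some x y h) : Near σ P (σ x) (σ y) := by
  intro ε hε
  exact ⟨n, x, y, h, hn, by simpa using hε, by simpa using hε⟩

lemma near_neg {ξ η : ℝ} (h : Near σ P ξ η) : Near σ P ξ (-η) := by
  intro ε hε
  obtain ⟨n, x, y, h', hn, h1, h2⟩ := h ε hε
  obtain ⟨h'', he⟩ := neg_mk h'
  refine ⟨-n, x, -y, h'', by rw [neg_smul, hn, he], h1, ?_⟩
  rw [map_neg, ← abs_neg]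
  have : -(-σ y - -η) = σ y - η := by ring
  rw [this]
  exact h2

lemma near_closed {ξ η : ℝ} (h : ∀ ε : ℝ, 0 < ε → ∃ ξ' η', Near σ P ξ' η' ∧ |ξ' - ξ| < ε ∧
    |η' - η| < ε) : Near σ P ξ η := by
  intro ε hε
  obtain ⟨ξ', η', hN, h1, h2⟩ := h (ε / 2) (half_pos hε)
  obtain ⟨n, x, y, h', hn, h3, h4⟩ := hN (ε / 2) (half_pos hε)
  refine ⟨n, x, y, h', hn, ?_, ?_⟩
  · have := abs_sub_le (σ x) ξ' ξ
    linarith
  · have := abs_sub_le (σ y) η' η
    linarith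

lemma near_seq {ξ η : ℝ} (h : Near σ P ξ η) : ∃ (n : ℕ → ℤ) (x y : ℕ → K) (h : ∀ k, (cv a b c).toAffine.Nonsingular (x k) (y k)),
    (∀ k, n k • P = .some (x k) (y k) (h k)) ∧ Tendsto (fun k => σ (x k)) atTop (𝓝 ξ) ∧
      Tendsto (fun k => σ (y k)) atTop (𝓝 η) := by
  have h1 : ∀ k : ℕ, ∃ n : ℤ, ∃ x y h, n • P = .some x y h ∧ |σ x - ξ| < 1 / ((k : ℝ) + 1) ∧
      |σ y - η| < 1 / ((k : ℝ) + 1) := fun k => h _ (by positivity)
  choose n x y h' hn h2 h3 using h1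
  refine ⟨n, x, y, h', hn, ?_, ?_⟩
  · rw [tendsto_iff_dist_tendsto_zero]
    exact squeeze_zero (fun _ => dist_nonneg) (fun k => (h2 k).le) tendsto_one_div_add_atTop_nhds_zero_nat
  · rw [tendsto_iff_dist_tendsto_zero]
    exact squeeze_zero (fun _ => dist_nonneg) (fun k => (h3 k).le) tendsto_one_div_add_atTop_nhds_zero_nat

lemma near_of_seq {ξ η : ℝ} {n : ℕ → ℤ} {x y : ℕ → K}
    {h : ∀ k, (cv a b c).toAffine.Nonsingular (x k) (y k)}
    (hn : ∀ᶠ k in atTop, n k • P = .some (x k) (y k) (h k))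
    (hx : Tendsto (fun k => σ (x k)) atTop (𝓝 ξ))
    (hy : Tendsto (fun k => σ (y k)) atTop (𝓝 η)) : Near σ P ξ η := by
  intro ε hε
  have h1 := (Metric.tendsto_nhds.1 hx) ε hε
  have h2 := (Metric.tendsto_nhds.1 hy) ε hε
  obtain ⟨k, k1, k2, k3⟩ := (hn.and (h1.and h2)).exists
  exact ⟨n k, x k, y k, h k, k1, k2, k3⟩

lemma near_curve {ξ η : ℝ} (h : Near σ P ξ η) : η ^ 2 = gg (σ a) (σ b) (σ c) ξ := by
  obtain ⟨n, x, y, h', hn, hx, hy⟩ := near_seq h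
  have h1 := hy.pow 2
  have h2 := ((gg_cont (σ a) (σ b) (σ c)).tendsto ξ).comp hx
  refine tendsto_nhds_unique h1 (h2.congr fun k => ?_)
  have := congrArg σ (cv_ns.1 (h' k)).1
  simp only [map_pow, map_add, map_mul] at this
  simp only [Function.comp, gg]
  rw [this]

lemma near_add {ξ η : ℝ} (hN : Near σ P ξ η) {m : ℤ} {X Y : K}
    {hm : (cv a b c).toAffine.Nonsingular X Y} (hmP : m • P = .some X Y hm) (hX : σ X ≠ ξ) :
    Near σ P (((η - σ Y) / (ξ - σ X)) ^ 2 - σ a - ξ - σ X)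
      (-((η - σ Y) / (ξ - σ X) * ((((η - σ Y) / (ξ - σ X)) ^ 2 - σ a - ξ - σ X) - ξ) + η)) := by
  obtain ⟨n, x, y, h', hn, hx, hy⟩ := near_seq hN
  have hd : ξ - σ X ≠ 0 := sub_ne_zero.2 hX.symm
  have hl : Tendsto (fun k => (σ (y k) - σ Y) / (σ (x k) - σ X)) atTop
      (𝓝 ((η - σ Y) / (ξ - σ X))) := (hy.sub_const _).div (hx.sub_const _) hd
  have hx3 := (((hl.pow 2).sub_const (σ a)).sub hx).sub_const (σ X)
  have hy3 := ((hl.mul (hx3.sub hx)).add hy).neg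
  have hne : ∀ᶠ k in atTop, x k ≠ X := by
    filter_upwards [hx.eventually_ne hX.symm] with k hk he
    exact hk (by rw [he])
  intro ε hε
  have h1 := (Metric.tendsto_nhds.1 hx3) ε hε
  have h2 := (Metric.tendsto_nhds.1 hy3) ε hε
  obtain ⟨k, k1, k2, k3⟩ := (hne.and (h1.and h2)).exists
  obtain ⟨h'', he⟩ := add_mk (h' k) hm k1 (ℓ := (y k - Y) / (x k - X))
    (div_mul_cancel₀ _ (sub_ne_zero.2 k1))
  refine ⟨n k + m, _, _, h'', by rw [add_smul, hn, hmP, he], ?_, ?_⟩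
  · rw [Real.dist_eq] at k2
    simpa only [map_sub, map_pow, map_div₀] using k2
  · rw [Real.dist_eq] at k3
    simpa only [map_neg, map_add, map_mul, map_sub, map_pow, map_div₀] using k3

/-- large multiples -/
lemma near_large (hD : dsc a b c ≠ 0) (hP : ∀ n : ℕ, n ≠ 0 → n • P ≠ 0) (R : ℝ) :
    ∃ (m : ℤ) (X Y : K) (hm : (cv a b c).toAffine.Nonsingular X Y), m • P = .some X Y hm ∧
      R < σ X ∧ σ Y = Real.sqrt (gg (σ a) (σ b) (σ c) (σ X)) := by
  -- the cubic is negative far to the left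
  have hneg : ∃ R0 : ℝ, ∀ x : ℝ, x < -R0 → gg (σ a) (σ b) (σ c) x < 0 := by
    obtain ⟨R0, hR0⟩ := (ev_gpos (a := -σ a) (b := σ b) (c := -σ c)).exists_forall_of_atTop
    refine ⟨R0, fun x hx => ?_⟩
    have := hR0 (-x) (by linarith)
    unfold gg at this ⊢
    linarith
  obtain ⟨R0, hR0⟩ := hneg
  obtain ⟨n, hn, x, y, h, hnP, hR⟩ := accum σ hD hP (max R (max R0 0))
  have heq := congrArg σ (cv_ns.1 h).1
  simp only [map_pow, map_add, map_mul] at heq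
  have hxR : max R (max R0 0) < σ x := by
    rw [Real.norm_eq_abs, lt_abs] at hR
    rcases hR with hR | hR
    · exact hR
    · exfalso
      have h1 : R0 ≤ max R (max R0 0) := (le_max_left _ _).trans (le_max_right _ _)
      have h2 := hR0 (σ x) (by linarith)
      unfold gg at h2
      nlinarith [sq_nonneg (σ y)]
  have hR1 : R < σ x := lt_of_le_of_lt (le_max_left _ _) hxR
  have hg : (σ y) ^ 2 = gg (σ a) (σ b) (σ c) (σ x) := heq
  rcases le_total 0 (σ y) with hy | hy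
  · refine ⟨n, x, y, h, by rw [natCast_zsmul]; exact hnP, hR1, ?_⟩
    rw [← hg, Real.sqrt_sq hy]
  · obtain ⟨h', he⟩ := neg_mk h
    refine ⟨-n, x, -y, h', by rw [neg_smul, natCast_zsmul, hnP, he], hR1, ?_⟩
    rw [← hg, map_neg, Real.sqrt_sq_eq_abs, abs_of_nonpos hy]

/-- the multiples are dense in the part of the unbounded component above the axis -/
theorem near_upper (hD : dsc a b c ≠ 0) (hP : ∀ n : ℕ, n ≠ 0 → n • P ≠ 0) {u : ℝ}
    (hu : ∀ x, u ≤ x → 0 < gg (σ a) (σ b) (σ c) x) :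
    Near σ P u (Real.sqrt (gg (σ a) (σ b) (σ c) u)) := by
  by_contra hcon
  set A : Set ℝ := {ξ | u ≤ ξ ∧ Near σ P ξ (Real.sqrt (gg (σ a) (σ b) (σ c) ξ))} with hA
  have hne : A.Nonempty := by
    obtain ⟨m, X, Y, hm, hmP, hX, hY⟩ := near_large (σ := σ) hD hP u
    exact ⟨σ X, hX.le, hY ▸ near_of hmP⟩
  have hbd : BddBelow A := ⟨u, fun x hx => hx.1⟩
  set β := sInf A with hβ
  have huβ : u ≤ β := le_csInf hne fun x hx => hx.1
  have hβS : Near σ P β (Real.sqrt (gg (σ a) (σ b) (σ c) β)) := by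
    apply near_closed
    intro ε hε
    have hc : ContinuousAt (fun x => Real.sqrt (gg (σ a) (σ b) (σ c) x)) β :=
      (Real.continuous_sqrt.comp (gg_cont _ _ _)).continuousAt
    obtain ⟨δ, hδ, hδ'⟩ := Metric.continuousAt_iff.1 hc ε hε
    obtain ⟨ξ, hξ, hξβ⟩ := exists_lt_of_csInf_lt hne (show sInf A < β + min δ ε by
      have := lt_min hδ hε
      linarith)
    have h1 : β ≤ ξ := csInf_le hbd hξ
    have h2 : |ξ - β| < min δ ε := by rw [abs_of_nonneg (by linarith)]; linarith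
    refine ⟨ξ, _, hξ.2, h2.trans_le (min_le_right _ _), ?_⟩
    have := hδ' (x := ξ) (by rw [Real.dist_eq]; exact h2.trans_le (min_le_left _ _))
    rwa [Real.dist_eq] at this
  have huβ' : u < β := by
    rcases huβ.lt_or_eq with h | h
    · exact h
    · rw [h] at hcon; exact absurd hβS hcon
  have hgβ := hu β huβ
  set η := Real.sqrt (gg (σ a) (σ b) (σ c) β) with hη
  have hη0 : 0 < η := Real.sqrt_pos.2 hgβ
  have hη2 : η ^ 2 = gg (σ a) (σ b) (σ c) β := Real.sq_sqrt hgβ.le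
  have hev : ∀ᶠ X in atTop, u < x3 (σ a) (σ b) (σ c) β η X ∧ x3 (σ a) (σ b) (σ c) β η X < β ∧
      0 < y3 (σ a) (σ b) (σ c) β η X ∧ β < X := by
    filter_upwards [(lim_x3 hη2).eventually_const_lt huβ', x3_lt hη2 hη0,
      (lim_y3 hη2).eventually_const_lt hη0, eventually_gt_atTop β] with X h1 h2 h3 h4
    exact ⟨h1, h2, h3, h4⟩
  obtain ⟨R, hR⟩ := hev.exists_forall_of_atTop
  obtain ⟨m, X, Y, hm, hmP, hX, hY⟩ := near_large (σ := σ) hD hP R
  obtain ⟨k1, k2, k3, k4⟩ := hR (σ X) hX.le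
  have hN := near_add hβS hmP (by linarith)
  rw [hY] at hN
  have hN' : Near σ P (x3 (σ a) (σ b) (σ c) β η (σ X)) (y3 (σ a) (σ b) (σ c) β η (σ X)) := hN
  have hcurve := near_curve hN'
  have hmem : x3 (σ a) (σ b) (σ c) β η (σ X) ∈ A := by
    refine ⟨k1.le, ?_⟩
    rw [← hcurve, Real.sqrt_sq k3.le]
    exact hN'
  have := csInf_le hbd hmem
  linarith

/-- **Density of the multiples of a point of infinite order in the unbounded component.** -/
theorem near_all (hD : dsc a b c ≠ 0) (hP : ∀ n : ℕ, n ≠ 0 → n • P ≠ 0) {ξ η : ℝ}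
    (hξ : ∀ x, ξ < x → 0 < gg (σ a) (σ b) (σ c) x) (hη : η ^ 2 = gg (σ a) (σ b) (σ c) ξ) :
    Near σ P ξ η := by
  have h1 : Near σ P ξ (Real.sqrt (gg (σ a) (σ b) (σ c) ξ)) := by
    apply near_closed
    intro ε hε
    have hc : ContinuousAt (fun x => Real.sqrt (gg (σ a) (σ b) (σ c) x)) ξ :=
      (Real.continuous_sqrt.comp (gg_cont _ _ _)).continuousAt
    obtain ⟨δ, hδ, hδ'⟩ := Metric.continuousAt_iff.1 hc ε hε
    have hm := lt_min hδ hε
    have h2 : |(ξ + min δ ε / 2) - ξ| < min δ ε := by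
      rw [abs_of_nonneg (by linarith)]; linarith
    refine ⟨ξ + min δ ε / 2, _, near_upper hD hP (fun x hx => hξ x (by linarith)),
      h2.trans_le (min_le_right _ _), ?_⟩
    have := hδ' (x := ξ + min δ ε / 2) (by rw [Real.dist_eq]; exact h2.trans_le (min_le_left _ _))
    rwa [Real.dist_eq] at this
  rw [← hη, Real.sqrt_sq_eq_abs] at h1
  rcases le_total 0 η with h | h
  · rwa [abs_of_nonneg h] at h1
  · rw [abs_of_nonpos h] at h1
    have := near_neg h1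
    rwa [neg_neg] at this

end near

end Pool.Agent.Y718.X
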