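import Pool.Agent.Y718.Exc2

/-!
# Rational points without nondegenerate planes are exceptional
-/

set_option autoImplicit false
set_option linter.unusedSectionVars false
set_option linter.unusedSimpArgs false

open Set Filter Topology Pool.Agent.H581R2 Pool.Agent.TH729.SQ

namespace Pool.Agent.Y718

open SF

variable {n : ℕ}

/-- a cubic and a quartic function, proportional up to linear factors on all planes -/
theorem degenerate {B T : (Fin n → ℚ) → ℚ} (hBs : ∀ (c : ℚ) v, B (c • v) = c ^ 3 * B v)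
    (hTs : ∀ (c : ℚ) v, T (c • v) = c ^ 4 * T v)
    (hBp : ∀ a b : Fin n → ℚ, ∃ P : Polynomial ℚ, ∀ t, P.eval t = B (a + t • b))
    (h : ∀ v u, ∃ α β γ : ℚ, ¬ (α = 0 ∧ β = 0 ∧ γ = 0) ∧
      ∀ s t : ℚ, (α * s + β * t) * B (s • v + t • u) = γ * T (s • v + t • u)) :
    (∀ v, B v = 0) ∨ ∃ ℓ : (Fin n → ℚ) →ₗ[ℚ] ℚ, ∀ v, T v = ℓ v * B v := by
  by_cases hB : ∀ v, B v = 0
  · exact Or.inl hB
  right
  push Not at hB
  obtain ⟨x, hx⟩ := hB
  -- finiteness of zeros
  have hfin : ∀ u, {s : ℚ | B (u + s • x) = 0}.Finite := by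
    intro u
    obtain ⟨P, hP⟩ := hBp x u
    have hP0 : P ≠ 0 := by
      rintro rfl
      have := hP 0
      rw [Polynomial.eval_zero, zero_smul, add_zero] at this
      exact hx this.symm
    have hr : {t : ℚ | P.eval t = 0}.Finite := by
      refine (P.roots.toFinset.finite_toSet).subset ?_
      intro t ht
      simp only [Finset.mem_coe, Multiset.mem_toFinset]
      exact (Polynomial.mem_roots hP0).mpr ht
    refine ((Set.finite_singleton (0 : ℚ)).union (hr.image (fun t => t⁻¹))).subset ?_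
    intro s hs
    by_cases h0 : s = 0
    · exact Or.inl h0
    · right
      refine ⟨s⁻¹, ?_, inv_inv s⟩
      simp only [Set.mem_ofPred_eq] at hs ⊢
      have e : u + s • x = s • (x + s⁻¹ • u) := by
        rw [smul_add, smul_smul, mul_inv_cancel₀ h0, one_smul, add_comm]
      rw [e, hBs] at hs
      rw [hP]
      exact (mul_eq_zero.mp hs).resolve_left (pow_ne_zero _ h0)
  -- the slopes
  have hρ : ∀ u, ∃ ρ : ℚ, ∀ s t : ℚ, T (s • x + t • u) = (T x / B x * s + ρ * t) * B (s • x + t • u) := by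
    intro u
    obtain ⟨α, β, γ, hne, hr⟩ := h x u
    have h1 := hr 1 0
    rw [one_smul, zero_smul, add_zero, mul_one, mul_zero, add_zero] at h1
    have hγ : γ ≠ 0 := by
      rintro rfl
      have hα : α = 0 := by
        rw [zero_mul] at h1
        exact (mul_eq_zero.mp h1).resolve_right hx
      have hβ : β ≠ 0 := fun hb => hne ⟨hα, hb, rfl⟩
      obtain ⟨P, hP⟩ := hBp x u
      have hP0 : P = 0 := by
        apply Polynomial.eq_zero_of_infinite_isRoot
        refine Set.Infinite.mono ?_ (Set.Finite.infinite_compl (Set.finite_singleton (0 : ℚ)))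
        intro t ht
        have ht0 : t ≠ 0 := ht
        show P.eval t = 0
        rw [hP]
        have h2 := hr 1 t
        rw [one_smul, hα, zero_mul, zero_mul, zero_add] at h2
        exact (mul_eq_zero.mp h2).resolve_left (mul_ne_zero hβ ht0)
      have := hP 0
      rw [hP0, Polynomial.eval_zero, zero_smul, add_zero] at this
      exact hx this.symm
    refine ⟨β / γ, fun s t => ?_⟩
    have h3 : T x / B x = α / γ := by
      rw [div_eq_div_iff hx hγ]
      linear_combination -h1
    rw [h3]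
    have h4 := hr s t
    field_simp
    linear_combination -h4
  choose ρ hρ using hρ
  set a := T x / B x with ha
  have hρ' : ∀ u (s : ℚ), T (u + s • x) = (a * s + ρ u) * B (u + s • x) := by
    intro u s
    have := hρ u s 1
    rw [one_smul, mul_one, add_comm] at this
    exact this
  have hadd : ∀ u u', ρ (u + u') = ρ u + ρ u' := by
    intro u u'
    obtain ⟨s, hs⟩ := (hfin u).infinite_compl.nonempty
    have hs : B (u + s • x) ≠ 0 := hs
    have hf2 : {s' : ℚ | B ((u + u' + s • x) + s' • x) = 0}.Finite := hfin _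
    obtain ⟨s', hs'⟩ := ((hfin u').union hf2).infinite_compl.nonempty
    have hs1 : B (u' + s' • x) ≠ 0 := fun h0 => hs' (Or.inl h0)
    have hs2 : B ((u + u' + s • x) + s' • x) ≠ 0 := fun h0 => hs' (Or.inr h0)
    obtain ⟨α, β, γ, hne, hr⟩ := h (u + s • x) (u' + s' • x)
    have r1 := hr 1 0
    have r2 := hr 0 1
    have r3 := hr 1 1
    simp only [one_smul, zero_smul, add_zero, zero_add, mul_one, mul_zero] at r1 r2 r3
    have hγ : γ ≠ 0 := by
      rintro rfl
      rw [zero_mul] at r1 r2
      exact hne ⟨(mul_eq_zero.mp r1).resolve_right hs, (mul_eq_zero.mp r2).resolve_right hs1, rfl⟩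
    have e3 : u + s • x + (u' + s' • x) = (u + u') + (s + s') • x := by
      rw [add_smul]; abel
    have e4 : (u + u' + s • x) + s' • x = (u + u') + (s + s') • x := by
      rw [add_smul]; abel
    rw [e4] at hs2
    rw [e3, hρ'] at r3
    rw [hρ'] at r1 r2
    have q1 : α = γ * (a * s + ρ u) := mul_right_cancel₀ hs (by linear_combination r1)
    have q2 : β = γ * (a * s' + ρ u') := mul_right_cancel₀ hs1 (by linear_combination r2)
    have q3 : α + β = γ * (a * (s + s') + ρ (u + u')) := mul_right_cancel₀ hs2 (by linear_combination r3)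
    have q4 : γ * ρ (u + u') = γ * (ρ u + ρ u') := by linear_combination q1 + q2 - q3
    exact mul_left_cancel₀ hγ q4
  have hsm : ∀ (c : ℚ) u, ρ (c • u) = c * ρ u := by
    intro c u
    by_cases hc : c = 0
    · subst hc
      rw [zero_smul, zero_mul]
      have h1 := hρ' 0 1
      rw [zero_add, one_smul, mul_one] at h1
      have h2 : T x = a * B x := by rw [ha]; field_simp
      have h3 : ρ 0 * B x = 0 := by linear_combination h2 - h1
      exact (mul_eq_zero.mp h3).resolve_right hx
    · obtain ⟨s, hs⟩ := (hfin u).infinite_compl.nonempty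
      have hs : B (u + s • x) ≠ 0 := hs
      have h1 := hρ' (c • u) (c * s)
      have e : c • u + (c * s) • x = c • (u + s • x) := by rw [smul_add, smul_smul]
      rw [e, hTs, hBs, hρ'] at h1
      have h2 : (c ^ 3 * (ρ (c • u) - c * ρ u)) * B (u + s • x) = 0 := by linear_combination -h1
      have h3 := (mul_eq_zero.mp h2).resolve_right hs
      have h4 := (mul_eq_zero.mp h3).resolve_left (pow_ne_zero _ hc)
      exact sub_eq_zero.mp h4
  refine ⟨{ toFun := ρ, map_add' := hadd, map_smul' := hsm }, fun v => ?_⟩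
  have := hρ' v 0
  rw [zero_smul, add_zero, mul_zero, zero_add] at this
  exact this

/-- the dehomogenization -/
noncomputable def deh (F : MvPolynomial (Fin (n + 1)) ℚ) (p : Fin (n + 1)) : MvPolynomial (Fin n) ℚ :=
  MvPolynomial.aeval (Fin.insertNth (α := fun _ => MvPolynomial (Fin n) ℚ) p 1 MvPolynomial.X) F

lemma deh_eval (F : MvPolynomial (Fin (n + 1)) ℚ) (p : Fin (n + 1)) (z : Fin n → ℚ) :
    MvPolynomial.eval z (deh F p) = MvPolynomial.eval (ic p 1 z) F := by
  unfold deh
  induction F using MvPolynomial.induction_on with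
  | C c => simp
  | add p q hp hq => simp only [map_add, hp, hq]
  | mul_X q i hq =>
    simp only [map_mul, hq, MvPolynomial.aeval_X, MvPolynomial.eval_X]
    congr 1
    rcases Fin.eq_self_or_eq_succAbove p i with h | ⟨j, rfl⟩
    · rw [h, ic_same, Fin.insertNth_apply_same, map_one]
    · rw [ic_above, Fin.insertNth_apply_succAbove, MvPolynomial.eval_X]

lemma deh_lp (F : MvPolynomial (Fin (n + 1)) ℚ) (p : Fin (n + 1)) (z v : Fin n → ℚ) :
    lp (deh F p) z v = lg F (ic p 1 z) (ic p 0 v) := by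
  apply Polynomial.funext
  intro t
  rw [lp_eval, lg_eval, deh_eval, ic_add]

lemma deh_degree {F : MvPolynomial (Fin (n + 1)) ℚ} (hF : F.IsHomogeneous 4) (p : Fin (n + 1))
    (i : Fin n) : (deh F p).degreeOf i ≤ 4 := by
  classical
  refine (MvPolynomial.degreeOf_le_totalDegree _ _).trans ?_
  unfold deh
  rw [MvPolynomial.aeval_def, MvPolynomial.eval₂_eq]
  refine (MvPolynomial.totalDegree_finsetSum _ _).trans ?_
  refine Finset.sup_le fun d hd => ?_
  refine (MvPolynomial.totalDegree_mul _ _).trans ?_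
  have h0 : (algebraMap ℚ (MvPolynomial (Fin n) ℚ) (MvPolynomial.coeff d F)).totalDegree = 0 := by
    rw [MvPolynomial.algebraMap_eq, MvPolynomial.totalDegree_C]
  rw [h0, zero_add]
  refine (MvPolynomial.totalDegree_finsetProd _ _).trans ?_
  have h1 : ∑ i ∈ d.support, d i = 4 := by
    have := hF (MvPolynomial.mem_support_iff.mp hd)
    simpa [Finsupp.weight_apply, Finsupp.sum] using this
  rw [← h1]
  refine Finset.sum_le_sum fun j _ => ?_
  refine (MvPolynomial.totalDegree_pow _ _).trans ?_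
  have : (Fin.insertNth (α := fun _ => MvPolynomial (Fin n) ℚ) p 1 MvPolynomial.X j).totalDegree ≤ 1 := by
    rcases Fin.eq_self_or_eq_succAbove p j with h | ⟨k, rfl⟩
    · rw [h, Fin.insertNth_apply_same, MvPolynomial.totalDegree_one]; omega
    · rw [Fin.insertNth_apply_succAbove, MvPolynomial.totalDegree_X]
  calc d j * _ ≤ d j * 1 := Nat.mul_le_mul_left _ this
    _ = d j := mul_one _

lemma deh_quartic {F : MvPolynomial (Fin (n + 1)) ℚ} (hF : F.IsHomogeneous 4) (p : Fin (n + 1)) :
    QuarticAlong (deh F p) ⊤ := by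
  intro z v _
  rw [deh_lp]
  exact lg_deg hF _ _

lemma covB_gB (q : Polynomial ℚ) : covB q = gB q := rfl
lemma covT_gT (q : Polynomial ℚ) : covT q = gT q := rfl

/-- rational points are enough -/
lemma PK_ext_rat {ι : Type} {g : (ι → ℝ) → ℝ} (hg : PK g)
    (h : ∀ U : ι → ℚ, g (fun i => (U i : ℝ)) = 0) (U : ι → ℝ) : g U = 0 := by
  obtain ⟨p, hp⟩ := hg
  have h0 : p = 0 := by
    refine MvPolynomial.funext_set (fun _ => Set.range ((↑) : ℚ → ℝ)) (fun _ =>
      Set.infinite_range_of_injective Rat.cast_injective) fun x hx => ?_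
    choose y hy using fun i => hx i (Set.mem_univ i)
    have : x = fun i => (y i : ℝ) := funext fun i => (hy i).symm
    rw [this, ← hp, h, map_zero]
  rw [hp, h0, map_zero]

section casts

variable {σ : Type*} (F : MvPolynomial σ ℚ) (Z U : σ → ℚ)

lemma lgr (k : ℕ) : (lg (MvPolynomial.map (algebraMap ℚ ℝ) F) (fun i => (Z i : ℝ)) (fun i => (U i : ℝ))).coeff k =
    (((lg F Z U).coeff k : ℚ) : ℝ) := by
  have := lg_map (algebraMap ℚ ℝ) F Z U
  have h2 := congrArg (fun q => Polynomial.coeff q k) this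
  simp only [Polynomial.coeff_map] at h2
  exact h2

lemma gBr : gB (lg (MvPolynomial.map (algebraMap ℚ ℝ) F) (fun i => (Z i : ℝ)) (fun i => (U i : ℝ))) =
    ((gB (lg F Z U) : ℚ) : ℝ) := by
  simp only [gB, lgr]
  push_cast
  ring

lemma gTr : gT (lg (MvPolynomial.map (algebraMap ℚ ℝ) F) (fun i => (Z i : ℝ)) (fun i => (U i : ℝ))) =
    ((gT (lg F Z U) : ℚ) : ℝ) := by
  simp only [gT, lgr]
  push_cast
  ring

end casts

lemma cast_icr (p : Fin (n + 1)) (z : Fin n → ℚ) :
    (fun i => ((ic p 1 z i : ℚ) : ℝ)) = ic p 1 (fun j => (z j : ℝ)) := by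
  have := ic_map (algebraMap ℚ ℝ) p 1 z
  simpa using this

/-- **rational points without nondegenerate planes are exceptional** -/
theorem exceptional {F : MvPolynomial (Fin (n + 1)) ℚ} (hF : F.IsHomogeneous 4) (p : Fin (n + 1))
    {z : Fin n → ℚ} (he : MvPolynomial.eval (ic p 1 z) F ≠ 0)
    (h : ∀ v u, ¬ NDP (deh F p) z v u) :
    (fun i => (z i : ℝ)) ∈ Ex0 F p ∨ ∃ l : Fin (n + 1) → ℝ, Sum.elim (fun i => (z i : ℝ)) l ∈ Ex1 F p := by
  have heR : MvPolynomial.eval (ic p 1 (fun i => (z i : ℝ))) (FR F) ≠ 0 := by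
    rw [← cast_icr, ← c0_eq (FR F) _ (fun i => ((ic p 1 z i : ℚ) : ℝ)), FR, lgr, c0_eq]
    exact_mod_cast he
  have hdeg := degenerate (B := fun v => gB (lg F (ic p 1 z) (ic p 0 v)))
    (T := fun v => gT (lg F (ic p 1 z) (ic p 0 v))) (fun c v => by
      show gB _ = _
      rw [← deh_lp, ← deh_lp]; exact covB_smul _ _ _ _) (fun c v => by
      show gT _ = _
      rw [← deh_lp, ← deh_lp]; exact covT_smul _ _ _ _) (fun a b => by
      obtain ⟨P, hP⟩ := (PQv_covB (deh F p) z).poly a b
      exact ⟨P, fun t => by rw [hP, deh_lp]; rfl⟩) (fun v u => by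
      have h1 := h v u
      rw [NDP] at h1
      push Not at h1
      obtain ⟨α, β, γ, h2, h3⟩ := h1
      refine ⟨α, β, γ, ?_, fun s t => ?_⟩
      · rintro ⟨q1, q2, q3⟩
        exact h3 q1 q2 q3
      · have := h2 s t
        rw [deh_lp] at this
        exact this)
  have hsplit : ∀ U : Fin (n + 1) → ℚ, U = ic p 0 (fun j => U (p.succAbove j) - U p * z j) + U p • ic p 1 z :=
    ic_split p z
  rcases hdeg with h0 | ⟨ℓ, hℓ⟩
  · left
    refine ⟨heR, fun U => ?_⟩
    refine PK_ext_rat (PKu_gB (FR F) (ic p 1 fun i => (z i : ℝ))) (fun U => ?_) U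
    rw [← cast_icr]
    show gB (lg (MvPolynomial.map (algebraMap ℚ ℝ) F) _ _) = 0
    rw [gBr, hsplit U, gB_shift hF]
    have := h0 (fun j => U (p.succAbove j) - U p * z j)
    rw [this]; simp
  · by_cases h0 : ∀ v, gB (lg F (ic p 1 z) (ic p 0 v)) = 0
    · left
      refine ⟨heR, fun U => ?_⟩
      refine PK_ext_rat (PKu_gB (FR F) (ic p 1 fun i => (z i : ℝ))) (fun U => ?_) U
      rw [← cast_icr]
      show gB (lg (MvPolynomial.map (algebraMap ℚ ℝ) F) _ _) = 0
      rw [gBr, hsplit U, gB_shift hF, h0]; simp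
    right
    push Not at h0
    obtain ⟨v0, hv0⟩ := h0
    -- the linear functional
    let L : (Fin (n + 1) → ℚ) →ₗ[ℚ] ℚ :=
      ℓ.comp (LinearMap.pi fun j => LinearMap.proj (p.succAbove j) - z j • LinearMap.proj p) -
        (8 * MvPolynomial.eval (ic p 1 z) F) • LinearMap.proj p
    have hL : ∀ U, L U = ℓ (fun j => U (p.succAbove j) - U p * z j) - 8 * MvPolynomial.eval (ic p 1 z) F * U p := by
      intro U
      simp only [L, LinearMap.sub_apply, LinearMap.comp_apply, LinearMap.smul_apply, LinearMap.proj_apply,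
        smul_eq_mul]
      congr 2
      funext j
      simp [mul_comm]
    have hLT : ∀ U, gT (lg F (ic p 1 z) U) = L U * gB (lg F (ic p 1 z) U) := by
      intro U
      have e1 := gT_shift hF (ic p 1 z) (ic p 0 (fun j => U (p.succAbove j) - U p * z j)) (U p)
      have e2 := gB_shift hF (ic p 1 z) (ic p 0 (fun j => U (p.succAbove j) - U p * z j)) (U p)
      rw [← hsplit U] at e1 e2
      rw [e1, e2, hL]
      have := hℓ (fun j => U (p.succAbove j) - U p * z j)
      rw [this, c0_eq]
      ring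
    have hLs : ∀ U : Fin (n + 1) → ℚ, L U = ∑ i, L (Pi.single i 1) * U i := by
      intro U
      have e : U = ∑ i, U i • (Pi.single i 1 : Fin (n + 1) → ℚ) := by
        funext j; simp [Finset.sum_apply, Pi.single_apply]
      conv_lhs => rw [e, map_sum]
      refine Finset.sum_congr rfl fun i _ => ?_
      rw [map_smul, smul_eq_mul, mul_comm]
    refine ⟨fun i => ((L (Pi.single i 1) : ℚ) : ℝ), ?_, ⟨fun i => ((ic p 0 v0 i : ℚ) : ℝ), ?_⟩, ?_⟩
    · exact heR
    · simp only [Sum.elim_inl]
      rw [← cast_icr]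
      show gB (lg (MvPolynomial.map (algebraMap ℚ ℝ) F) _ _) ≠ 0
      rw [gBr]
      exact_mod_cast hv0
    · intro U
      simp only [Sum.elim_inl, Sum.elim_inr]
      have := PK_ext_rat (g := fun U => gT (lg (FR F) (ic p 1 fun i => (z i : ℝ)) U) -
        (∑ i, ((L (Pi.single i 1) : ℚ) : ℝ) * U i) * gB (lg (FR F) (ic p 1 fun i => (z i : ℝ)) U))
        ((PKu_gT _ _).sub ((PK_lin _).mul (PKu_gB _ _))) (fun U => by
          rw [← cast_icr]
          show gT (lg (MvPolynomial.map (algebraMap ℚ ℝ) F) _ _) - _ *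
            gB (lg (MvPolynomial.map (algebraMap ℚ ℝ) F) _ _) = 0
          rw [gTr, gBr, hLT, hLs]
          push_cast
          ring) U
      exact sub_eq_zero.mp this

end Pool.Agent.Y718
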