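import Pool.Agent.TH729.CC.Hom

/-!
# Real density of square values of quartics, from infinitude
-/

set_option autoImplicit false
set_option linter.unusedSectionVars false
set_option linter.unusedSimpArgs false

open Set Filter Topology Pool.Agent.TH729.CC

namespace Pool.Agent.Y718

/-- the rational numbers inside the reals -/
noncomputable abbrev QR : Subfield ℝ := (Rat.castHom ℝ).fieldRange

lemma mem_QR (q : ℚ) : (q : ℝ) ∈ QR := ⟨q, rfl⟩

lemma of_QR {x : ℝ} (h : x ∈ QR) : ∃ q : ℚ, (q : ℝ) = x := h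

/-- coordinates -/
noncomputable abbrev cx : E 3 →ₗ[ℝ] ℝ := LinearMap.proj 0
noncomputable abbrev cs : E 3 →ₗ[ℝ] ℝ := LinearMap.proj 1
noncomputable abbrev cz : E 3 →ₗ[ℝ] ℝ := LinearMap.proj 2

/-- the cubic form of a quartic with a rational point -/
noncomputable def F3 (f1 f2 f3 f4 w0 : ℚ) : Tri 3 :=
  (((((Tri.prod cx cx cx).smul f4).add ((Tri.prod cx cx cz).smul f3)).add
    ((Tri.prod cx cz cz).smul f2)).add ((Tri.prod cz cz cz).smul f1)).add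
    (((Tri.prod cx cs cs).smul (-1)).add ((Tri.prod cs cz cz).smul (-2 * w0)))

lemma F3_apply (f1 f2 f3 f4 w0 : ℚ) (v : E 3) :
    (F3 f1 f2 f3 f4 w0).f v v v = f4 * v 0 ^ 3 + f3 * v 0 ^ 2 * v 2 + f2 * v 0 * v 2 ^ 2 +
      f1 * v 2 ^ 3 - v 0 * v 1 ^ 2 - 2 * w0 * v 1 * v 2 ^ 2 := by
  simp only [F3, Tri.add, Tri.smul, Tri.prod, LinearMap.smul_apply, LinearMap.add_apply, pr3_apply,
    smul_eq_mul, LinearMap.proj_apply]
  ring

lemma F3_pol (f1 f2 f3 f4 w0 : ℚ) (v e : E 3) :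
    (F3 f1 f2 f3 f4 w0).f v v e = (1 / 3) * (
      (3 * f4 * v 0 ^ 2 + 2 * f3 * v 0 * v 2 + f2 * v 2 ^ 2 - v 1 ^ 2) * e 0 +
      (-2 * v 0 * v 1 - 2 * w0 * v 2 ^ 2) * e 1 +
      (f3 * v 0 ^ 2 + 2 * f2 * v 0 * v 2 + 3 * f1 * v 2 ^ 2 - 4 * w0 * v 1 * v 2) * e 2) := by
  simp only [F3, Tri.add, Tri.smul, Tri.prod, LinearMap.smul_apply, LinearMap.add_apply, pr3_apply,
    smul_eq_mul, LinearMap.proj_apply]
  ring

lemma F3_rat (f1 f2 f3 f4 w0 : ℚ) : Rat3 (F3 f1 f2 f3 f4 w0) QR := by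
  have hpr : ∀ i : Fin 3, RL QR (LinearMap.proj i : E 3 →ₗ[ℝ] ℝ) := fun i v hv => hv i
  intro a b c ha hb hc
  have hm : ∀ {p q r : E 3 →ₗ[ℝ] ℝ} (t : ℝ), RL QR p → RL QR q → RL QR r → t ∈ QR →
      ((Tri.prod p q r).smul t).f a b c ∈ QR := by
    intro p q r t hp hq hr ht
    exact Subfield.mul_mem _ ht (Tri.prod_rat hp hq hr a b c ha hb hc)
  simp only [F3, Tri.add, LinearMap.add_apply]
  refine Subfield.add_mem _ (Subfield.add_mem _ (Subfield.add_mem _ (Subfield.add_mem _ ?_ ?_) ?_) ?_)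
    (Subfield.add_mem _ ?_ ?_)
  · exact hm _ (hpr 0) (hpr 0) (hpr 0) (mem_QR _)
  · exact hm _ (hpr 0) (hpr 0) (hpr 2) (mem_QR _)
  · exact hm _ (hpr 0) (hpr 2) (hpr 2) (mem_QR _)
  · exact hm _ (hpr 2) (hpr 2) (hpr 2) (mem_QR _)
  · exact hm _ (hpr 0) (hpr 1) (hpr 1) ⟨-1, by simp⟩
  · exact hm _ (hpr 1) (hpr 2) (hpr 2) ⟨-2 * w0, by simp⟩

/-- nondegenerate quartics `w₀² + f₁ t + f₂ t² + f₃ t³ + f₄ t⁴` -/
structure NDg (f1 f2 f3 f4 w0 : ℚ) : Prop where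
  w : w0 ≠ 0
  deg : f3 ≠ 0 ∨ f4 ≠ 0
  sq : ∀ α β : ℚ, ¬ (f1 = 2 * w0 * β ∧ f2 = β ^ 2 + 2 * w0 * α ∧ f3 = 2 * α * β ∧ f4 = α ^ 2)
  dbl : ∀ x : ℚ, ¬ (w0 ^ 2 + f1 * x + f2 * x ^ 2 + f3 * x ^ 3 + f4 * x ^ 4 = 0 ∧
    f1 + 2 * f2 * x + 3 * f3 * x ^ 2 + 4 * f4 * x ^ 3 = 0)

/-- a quartic with infinitely many roots vanishes -/
lemma poly4 {c0 c1 c2 c3 c4 : ℚ} {T : Set ℚ} (hT : T.Infinite)
    (h : ∀ t ∈ T, c0 + c1 * t + c2 * t ^ 2 + c3 * t ^ 3 + c4 * t ^ 4 = 0) :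
    c0 = 0 ∧ c1 = 0 ∧ c2 = 0 ∧ c3 = 0 ∧ c4 = 0 := by
  open Polynomial in
  let P : ℚ[X] := C c0 + C c1 * X + C c2 * X ^ 2 + C c3 * X ^ 3 + C c4 * X ^ 4
  have hP : P = 0 := by
    apply Polynomial.eq_zero_of_infinite_isRoot
    refine hT.mono fun t ht => ?_
    simp only [Set.mem_ofPred_eq, Polynomial.IsRoot.def, P, Polynomial.eval_add, Polynomial.eval_mul,
      Polynomial.eval_C, Polynomial.eval_X, Polynomial.eval_pow]
    exact h t ht
  have hc : ∀ n, P.coeff n = 0 := by intro n; rw [hP]; simp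
  have h0 := hc 0
  have h1 := hc 1
  have h2 := hc 2
  have h3 := hc 3
  have h4 := hc 4
  simp [P, Polynomial.coeff_X, Polynomial.coeff_C] at h0 h1 h2 h3 h4
  exact ⟨h0, h1, h2, h3, h4⟩

lemma sq_of_inf {f1 f2 f3 f4 w0 : ℚ} {α β : ℚ} {T : Set ℚ} (hT : T.Infinite)
    (h : ∀ t ∈ T, w0 ^ 2 + f1 * t + f2 * t ^ 2 + f3 * t ^ 3 + f4 * t ^ 4 =
      (w0 + t * (α * t + β)) ^ 2) :
    f1 = 2 * w0 * β ∧ f2 = β ^ 2 + 2 * w0 * α ∧ f3 = 2 * α * β ∧ f4 = α ^ 2 := by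
  obtain ⟨-, h1, h2, h3, h4⟩ := poly4 (c0 := 0) (c1 := f1 - 2 * w0 * β)
    (c2 := f2 - (β ^ 2 + 2 * w0 * α)) (c3 := f3 - 2 * α * β) (c4 := f4 - α ^ 2) hT
    (fun t ht => by linear_combination h t ht)
  exact ⟨by linarith, by linarith, by linarith, by linarith⟩

lemma F3_NH {f1 f2 f3 f4 w0 : ℚ} (hn : NDg f1 f2 f3 f4 w0) : NH (F3 f1 f2 f3 f4 w0) QR := by
  intro a ha
  by_contra hcon
  push Not at hcon
  obtain ⟨a0, ha0⟩ := of_QR (a 0).2
  obtain ⟨a1, ha1⟩ := of_QR (a 1).2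
  obtain ⟨a2, ha2⟩ := of_QR (a 2).2
  have hcon' : ∀ x s z : ℚ, a0 * x + a1 * s + a2 * z = 0 →
      f4 * x ^ 3 + f3 * x ^ 2 * z + f2 * x * z ^ 2 +
      f1 * z ^ 3 - x * s ^ 2 - 2 * w0 * s * z ^ 2 = 0 := by
    intro x s z hv
    have h1 := hcon ![(x : ℝ), (s : ℝ), (z : ℝ)] ?_ ?_
    · rw [F3_apply] at h1
      simp at h1
      exact_mod_cast h1
    · intro i
      fin_cases i <;> simp
    · rw [Fin.sum_univ_three, ← ha0, ← ha1, ← ha2]
      simp
      exact_mod_cast hv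
  by_cases h1 : a1 = 0
  · have e0 := hcon' a2 0 (-a0) (by rw [h1]; ring)
    have e1 := hcon' a2 1 (-a0) (by rw [h1]; ring)
    have e2 := hcon' a2 (-1) (-a0) (by rw [h1]; ring)
    have h2 : w0 * a0 ^ 2 = 0 := by linear_combination (e2 - e1) / 4
    have h3 : a0 = 0 := by
      rcases mul_eq_zero.mp h2 with h | h
      · exact absurd h hn.w
      · exact pow_eq_zero_iff (by norm_num) |>.mp h
    have h4 : a2 = 0 := by
      rw [h3] at e0 e1
      linear_combination e0 - e1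
    apply ha
    funext i
    apply Subtype.ext
    fin_cases i
    · simp only [Fin.zero_eta]
      rw [← ha0, h3]; simp
    · simp only [Fin.mk_one]
      rw [← ha1, h1]; simp
    · simp only [Fin.reduceFinMk]
      rw [← ha2, h4]; simp
  · refine hn.sq (-a0 / a1) (-a2 / a1) (sq_of_inf (T := Set.univ) Set.infinite_univ ?_)
    intro t _
    have h2 := hcon' t ((-a0 / a1) * t + (-a2 / a1)) 1 (by field_simp; ring)
    linear_combination t * h2

lemma F3_NSg {f1 f2 f3 f4 w0 : ℚ} (hn : NDg f1 f2 f3 f4 w0) : NSg (F3 f1 f2 f3 f4 w0) QR := by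
  intro P hP hP0
  by_contra hcon
  push Not at hcon
  obtain ⟨x, hx⟩ := of_QR (hP 0)
  obtain ⟨s, hs⟩ := of_QR (hP 1)
  obtain ⟨z, hz⟩ := of_QR (hP 2)
  have e0 := hcon ![1, 0, 0]
  have e1 := hcon ![0, 1, 0]
  have e2 := hcon ![0, 0, 1]
  rw [F3_pol, ← hx, ← hs, ← hz] at e0 e1 e2
  simp only [Matrix.cons_val_zero, Matrix.cons_val_one, Matrix.cons_val, mul_one, mul_zero,
    add_zero, zero_add] at e0 e1 e2
  have g0 : 3 * f4 * x ^ 2 + 2 * f3 * x * z + f2 * z ^ 2 - s ^ 2 = 0 := by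
    have : ((3 * f4 * x ^ 2 + 2 * f3 * x * z + f2 * z ^ 2 - s ^ 2 : ℚ) : ℝ) = 0 := by
      push_cast; linarith
    exact_mod_cast this
  have g1 : x * s + w0 * z ^ 2 = 0 := by
    have : ((x * s + w0 * z ^ 2 : ℚ) : ℝ) = 0 := by
      push_cast; linarith
    exact_mod_cast this
  have g2 : f3 * x ^ 2 + 2 * f2 * x * z + 3 * f1 * z ^ 2 - 4 * w0 * s * z = 0 := by
    have : ((f3 * x ^ 2 + 2 * f2 * x * z + 3 * f1 * z ^ 2 - 4 * w0 * s * z : ℚ) : ℝ) = 0 := by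
      push_cast; linarith
    exact_mod_cast this
  by_cases hz0 : z = 0
  · rw [hz0] at g0 g1 g2
    have h1 : x * s = 0 := by linear_combination g1
    have hP0' : x = 0 → s = 0 → False := by
      intro h2 h3
      apply hP0
      funext i
      fin_cases i
      · simp only [Fin.zero_eta, Pi.zero_apply]; rw [← hx, h2]; simp
      · simp only [Fin.mk_one, Pi.zero_apply]; rw [← hs, h3]; simp
      · simp only [Fin.reduceFinMk, Pi.zero_apply]; rw [← hz, hz0]; simp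
    rcases mul_eq_zero.mp h1 with h2 | h2
    · rw [h2] at g0
      have h3 : s ^ 2 = 0 := by linear_combination -g0
      exact hP0' h2 (pow_eq_zero_iff (by norm_num) |>.mp h3)
    · by_cases hx0 : x = 0
      · exact hP0' hx0 h2
      · rw [h2] at g0 g2
        have hx2 : x ^ 2 ≠ 0 := pow_ne_zero _ hx0
        have h3 : f3 = 0 := by
          have : f3 * x ^ 2 = 0 := by linear_combination g2
          exact (mul_eq_zero.mp this).resolve_right hx2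
        have h4 : f4 = 0 := by
          have : f4 * x ^ 2 = 0 := by linear_combination g0 / 3
          exact (mul_eq_zero.mp this).resolve_right hx2
        rcases hn.deg with h | h
        · exact h h3
        · exact h h4
  · -- normalize
    have hx0 : x ≠ 0 := by
      intro h
      rw [h] at g1
      have : w0 * z ^ 2 = 0 := by linear_combination g1
      rcases mul_eq_zero.mp this with h | h
      · exact hn.w h
      · exact hz0 (pow_eq_zero_iff (by norm_num) |>.mp h)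
    have hz4 : z ^ 4 ≠ 0 := pow_ne_zero _ hz0
    have hz3 : z ^ 3 ≠ 0 := pow_ne_zero _ hz0
    have hC : 3 * (f4 * x ^ 3 + f3 * x ^ 2 * z + f2 * x * z ^ 2 +
      f1 * z ^ 3 - x * s ^ 2 - 2 * w0 * s * z ^ 2) = 0 := by
      linear_combination x * g0 - 2 * s * g1 + z * g2
    apply hn.dbl (x / z)
    constructor
    · have : (w0 ^ 2 + f1 * (x / z) + f2 * (x / z) ^ 2 + f3 * (x / z) ^ 3 + f4 * (x / z) ^ 4) * z ^ 4 = 0 := by
        field_simp
        linear_combination (x / 3) * hC + (x * s + w0 * z ^ 2) * g1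
      exact (mul_eq_zero.mp this).resolve_right hz4
    · have : (f1 + 2 * f2 * (x / z) + 3 * f3 * (x / z) ^ 2 + 4 * f4 * (x / z) ^ 3) * z ^ 3 = 0 := by
        field_simp
        linear_combination (1 / 3) * hC + x * g0 + 2 * s * g1
      exact (mul_eq_zero.mp this).resolve_right hz3

/-- the value -/
def sv (f1 f2 f3 f4 w0 : ℚ) : Set ℚ :=
  {t : ℚ | ∃ w : ℚ, w ^ 2 = w0 ^ 2 + f1 * t + f2 * t ^ 2 + f3 * t ^ 3 + f4 * t ^ 4}

lemma F3_zero {f1 f2 f3 f4 w0 t w : ℝ} (ht : t ≠ 0)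
    (h : w ^ 2 = w0 ^ 2 + f1 * t + f2 * t ^ 2 + f3 * t ^ 3 + f4 * t ^ 4) :
    f4 * t ^ 3 + f3 * t ^ 2 + f2 * t + f1 - t * ((w - w0) / t) ^ 2 - 2 * w0 * ((w - w0) / t) = 0 := by
  field_simp
  linear_combination -h

theorem F3_not_cov {f1 f2 f3 f4 w0 : ℚ} (hn : NDg f1 f2 f3 f4 w0)
    (hinf : (sv f1 f2 f3 f4 w0).Infinite) : ¬ Cov (F3 f1 f2 f3 f4 w0) QR := by
  rintro ⟨L, hL, hL0, hLc⟩
  have hinf' : (sv f1 f2 f3 f4 w0 \ {0}).Infinite := hinf.sdiff (Set.finite_singleton 0)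
  -- choose a line for each parameter
  have hch : ∀ t ∈ sv f1 f2 f3 f4 w0 \ {0}, ∃ a ∈ L, ∃ s : ℚ,
      (w0 + t * s) ^ 2 = w0 ^ 2 + f1 * t + f2 * t ^ 2 + f3 * t ^ 3 + f4 * t ^ 4 ∧
      (a 0 : ℝ) * t + (a 1 : ℝ) * s + (a 2 : ℝ) = 0 := by
    rintro t ⟨⟨w, hw⟩, ht0⟩
    have ht : t ≠ 0 := ht0
    have htR : (t : ℝ) ≠ 0 := by exact_mod_cast ht
    obtain ⟨a, haL, ha⟩ := hLc ![(t : ℝ), (((w - w0) / t : ℚ) : ℝ), 1] (by
      refine ⟨?_, ?_⟩
      · intro i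
        fin_cases i
        · simp
        · exact mem_QR _
        · exact ⟨1, by simp⟩
      · rw [F3_apply]
        simp only [Matrix.cons_val_zero, Matrix.cons_val_one, Matrix.cons_val, mul_one, one_pow]
        push_cast
        have hwR : (w : ℝ) ^ 2 = (w0 : ℝ) ^ 2 + f1 * t + f2 * t ^ 2 + f3 * t ^ 3 + f4 * t ^ 4 := by
          exact_mod_cast hw
        have := F3_zero htR hwR
        linear_combination this)
    refine ⟨a, haL, (w - w0) / t, ?_, ?_⟩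
    · rw [← hw]
      field_simp
      ring
    · rw [Fin.sum_univ_three] at ha
      simpa using ha
  have hch' : ∀ t : ℚ, ∃ a : Fin 3 → QR, t ∈ sv f1 f2 f3 f4 w0 \ {0} → a ∈ L ∧ ∃ s : ℚ,
      (w0 + t * s) ^ 2 = w0 ^ 2 + f1 * t + f2 * t ^ 2 + f3 * t ^ 3 + f4 * t ^ 4 ∧
      (a 0 : ℝ) * t + (a 1 : ℝ) * s + (a 2 : ℝ) = 0 := by
    intro t
    by_cases ht : t ∈ sv f1 f2 f3 f4 w0 \ {0}
    · obtain ⟨a, ha, h⟩ := hch t ht
      exact ⟨a, fun _ => ⟨ha, h⟩⟩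
    · exact ⟨0, fun h => absurd h ht⟩
  choose a ha using hch'
  obtain ⟨l, hl, hlinf⟩ : ∃ l ∈ L, (((sv f1 f2 f3 f4 w0 \ {0}) ∩ a ⁻¹' {l})).Infinite := by
    by_contra hcon
    push Not at hcon
    apply hinf'
    refine (Set.Finite.biUnion hL (fun l hl => hcon l hl)).subset ?_
    intro t ht
    simp only [Set.mem_iUnion]
    exact ⟨a t, (ha t ht).1, ht, rfl⟩
  obtain ⟨a0, ha0⟩ := of_QR (l 0).2
  obtain ⟨a1, ha1⟩ := of_QR (l 1).2
  obtain ⟨a2, ha2⟩ := of_QR (l 2).2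
  have hT : ∀ t ∈ ((sv f1 f2 f3 f4 w0 \ {0}) ∩ a ⁻¹' {l}), ∃ s : ℚ,
      (w0 + t * s) ^ 2 = w0 ^ 2 + f1 * t + f2 * t ^ 2 + f3 * t ^ 3 + f4 * t ^ 4 ∧
      a0 * t + a1 * s + a2 = 0 := by
    rintro t ⟨ht, hat⟩
    obtain ⟨-, s, h1, h2⟩ := ha t ht
    have hat' : a t = l := hat
    rw [hat', ← ha0, ← ha1, ← ha2] at h2
    exact ⟨s, h1, by exact_mod_cast h2⟩
  by_cases h1 : a1 = 0
  · obtain ⟨h2, h0, -⟩ := poly4 (c0 := a2) (c1 := a0) (c2 := 0) (c3 := 0) (c4 := 0) hlinf (by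
      intro t ht
      obtain ⟨s, -, h3⟩ := hT t ht
      rw [h1] at h3
      linear_combination h3)
    apply hL0 l hl
    funext i
    apply Subtype.ext
    fin_cases i
    · simp only [Fin.zero_eta]
      rw [← ha0, h0]; simp
    · simp only [Fin.mk_one]
      rw [← ha1, h1]; simp
    · simp only [Fin.reduceFinMk]
      rw [← ha2, h2]; simp
  · refine hn.sq (-a0 / a1) (-a2 / a1) (sq_of_inf hlinf ?_)
    intro t ht
    obtain ⟨s, h2, h3⟩ := hT t ht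
    have : s = (-a0 / a1) * t + (-a2 / a1) := by
      field_simp
      linear_combination h3
    rw [← h2, this]

/-- there is an interior point -/
theorem F3_int {f1 f2 f3 f4 w0 : ℚ} (hn : NDg f1 f2 f3 f4 w0)
    (hinf : (sv f1 f2 f3 f4 w0).Infinite) : ∃ R, Int' (F3 f1 f2 f3 f4 w0) QR R := by
  by_contra hcon
  push Not at hcon
  exact F3_not_cov hn hinf (thmB ⟨F3_rat f1 f2 f3 f4 w0, hcon⟩ (F3_NH hn) (F3_NSg hn))

/-- **Local density.** Near a limit of parameters with square value, away from the base point and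
from the roots, all parameters are limits of parameters with square values. -/
theorem sv_open {f1 f2 f3 f4 w0 : ℚ} (hn : NDg f1 f2 f3 f4 w0)
    (hinf : (sv f1 f2 f3 f4 w0).Infinite) {x : ℝ} (hx : x ∈ closure ((fun t : ℚ => (t : ℝ)) '' sv f1 f2 f3 f4 w0))
    (hx0 : x ≠ 0) (hxp : 0 < (w0 : ℝ) ^ 2 + f1 * x + f2 * x ^ 2 + f3 * x ^ 3 + f4 * x ^ 4) :
    closure ((fun t : ℚ => (t : ℝ)) '' sv f1 f2 f3 f4 w0) ∈ 𝓝 x := by
  set S : Set ℝ := (fun t : ℚ => (t : ℝ)) '' sv f1 f2 f3 f4 w0 with hS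
  set Q : ℝ → ℝ := fun x => (w0 : ℝ) ^ 2 + f1 * x + f2 * x ^ 2 + f3 * x ^ 3 + f4 * x ^ 4 with hQ
  have hQc : Continuous Q := by fun_prop
  set P : ℝ → E 3 := fun x => ![x, (Real.sqrt (Q x) - w0) / x, 1] with hP
  have hPc : ContinuousAt P x := by
    rw [continuousAt_pi]
    intro i
    fin_cases i
    · exact continuousAt_id
    · simp only [hP, Fin.mk_one, Matrix.cons_val_one, Matrix.cons_val_zero]
      exact ((Real.continuous_sqrt.comp hQc).sub continuous_const).continuousAt.div continuousAt_id hx0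
    · simp only [hP, Fin.reduceFinMk, Matrix.cons_val]
      exact continuousAt_const
  -- the point above `x` is in the closure
  have hPW : P x ∈ W (F3 f1 f2 f3 f4 w0) QR := by
    obtain ⟨u, hu, hu'⟩ := mem_closure_iff_seq_limit.1 hx
    refine W.of_seq (u := fun n => P (u n)) ?_ (hPc.tendsto.comp hu')
    filter_upwards [hu'.eventually_ne hx0] with n hn0
    obtain ⟨t, ⟨w, hw⟩, ht⟩ := hu n
    simp only at ht
    have hwR : (w : ℝ) ^ 2 = Q t := by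
      simp only [hQ]
      exact_mod_cast hw
    have hsq : Real.sqrt (Q (u n)) = |(w : ℝ)| := by
      rw [← ht, ← hwR, Real.sqrt_sq_eq_abs]
    refine ⟨?_, ?_⟩
    · intro i
      fin_cases i
      · simp only [hP, Fin.zero_eta, Matrix.cons_val_zero]
        rw [← ht]; exact mem_QR _
      · simp only [hP, Fin.mk_one, Matrix.cons_val_one, Matrix.cons_val_zero]
        rw [hsq, ← ht]
        exact ⟨(|w| - w0) / t, by simp⟩
      · exact ⟨1, by simp [hP]⟩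
    · rw [F3_apply]
      simp only [hP, Matrix.cons_val_zero, Matrix.cons_val_one, Matrix.cons_val, mul_one, one_pow]
      have h1 : Real.sqrt (Q (u n)) ^ 2 = (w0 : ℝ) ^ 2 + f1 * u n + f2 * u n ^ 2 + f3 * u n ^ 3 +
          f4 * u n ^ 4 := by
        rw [hsq, sq_abs, hwR, ht]
      have := F3_zero hn0 h1
      linear_combination this
  have hsm : (F3 f1 f2 f3 f4 w0).f (P x) (P x) ![0, 1, 0] ≠ 0 := by
    rw [F3_pol]
    simp only [hP, Matrix.cons_val_zero, Matrix.cons_val_one, Matrix.cons_val, mul_one, one_pow,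
      mul_zero, add_zero, zero_add]
    have h1 : -2 * x * ((Real.sqrt (Q x) - w0) / x) - 2 * w0 = -2 * Real.sqrt (Q x) := by
      field_simp
      ring
    rw [h1]
    have := Real.sqrt_pos.mpr hxp
    have h2 : 0 < Real.sqrt (Q x) := this
    intro h3
    linarith
  obtain ⟨R, hR⟩ := F3_int hn hinf
  have hInt := int_all (F3_rat f1 f2 f3 f4 w0) (F3_NH hn) hR hPW hsm
  have h1 : ∀ᶠ y in 𝓝 x, (F3 f1 f2 f3 f4 w0).f (P y) (P y) (P y) = 0 →
      P y ∈ W (F3 f1 f2 f3 f4 w0) QR := hPc.tendsto.eventually hInt.2.2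
  have h2 : ∀ᶠ y in 𝓝 x, 0 < Q y := hQc.continuousAt.eventually (lt_mem_nhds hxp)
  have h3 : ∀ᶠ y in 𝓝 x, y ≠ 0 := continuousAt_id.eventually_ne hx0
  filter_upwards [h1, h2, h3] with y hy1 hy2 hy3
  have hz : (F3 f1 f2 f3 f4 w0).f (P y) (P y) (P y) = 0 := by
    rw [F3_apply]
    simp only [hP, Matrix.cons_val_zero, Matrix.cons_val_one, Matrix.cons_val, mul_one, one_pow]
    have h1 : Real.sqrt (Q y) ^ 2 = (w0 : ℝ) ^ 2 + f1 * y + f2 * y ^ 2 + f3 * y ^ 3 +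
        f4 * y ^ 4 := Real.sq_sqrt hy2.le
    have := F3_zero hy3 h1
    linear_combination this
  obtain ⟨u, hu, hu'⟩ := W.seq (hy1 hz)
  have g0 : Tendsto (fun n => u n 0) atTop (𝓝 y) := by
    have := (tendsto_pi_nhds.1 hu') 0
    simpa [hP] using this
  have g2 : Tendsto (fun n => u n 2) atTop (𝓝 1) := by
    have := (tendsto_pi_nhds.1 hu') 2
    simpa [hP] using this
  have g : Tendsto (fun n => u n 0 / u n 2) atTop (𝓝 y) := by
    have := g0.div g2 one_ne_zero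
    rw [div_one] at this
    exact this
  refine mem_closure_of_tendsto g ?_
  filter_upwards [g2.eventually_ne one_ne_zero] with n hn2
  obtain ⟨a, ha⟩ := of_QR ((hu n).1 0)
  obtain ⟨b, hb⟩ := of_QR ((hu n).1 1)
  obtain ⟨c, hc⟩ := of_QR ((hu n).1 2)
  have hz := (hu n).2
  rw [F3_apply, ← ha, ← hb, ← hc] at hz
  rw [← hc] at hn2
  have hc0 : c ≠ 0 := by exact_mod_cast hn2
  have hzq : f4 * a ^ 3 + f3 * a ^ 2 * c + f2 * a * c ^ 2 +
      f1 * c ^ 3 - a * b ^ 2 - 2 * w0 * b * c ^ 2 = 0 := by exact_mod_cast hz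
  refine ⟨a / c, ⟨w0 + (a / c) * (b / c), ?_⟩, ?_⟩
  · field_simp
    linear_combination -a * hzq
  · simp only
    rw [← ha, ← hc]
    push_cast
    rfl

end Pool.Agent.Y718
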