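import Pool.Agent.Y718.GY
import Pool.Agent.Y718.GoodDir

/-!
# Directions with points of infinite order, through the points of a quartic double cover
-/

set_option autoImplicit false
set_option linter.unusedSectionVars false
set_option linter.unusedVariables false
set_option linter.unusedSimpArgs false

open WeierstrassCurve Set Filter Topology Pool.Agent.Y720.MZ Pool.Agent.H581R2
  Pool.Agent.TH729.SQ

namespace Pool.Agent.Y718.X

open Pool.Agent.Y718

/-- the conditions at a prime imply that the difference has infinite order -/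
theorem pg_inf {p : ℕ} [hpp : Fact p.Prime] (h5 : 5 ≤ p) {q : Polynomial ℚ} {w : ℚ}
    (h : PG p q w) (h0 : q.coeff 0 = w ^ 2) (hD : Db q ≠ 0) : Inf q := by
  have hp := pl_padic p (by omega : 3 ≤ p)
  have e : ∀ x : ℚ, vp p x = ‖(x : ℚ_[p])‖ := vp_eq p
  have c1 : vp p (q.coeff 1) ≤ 1 := by rw [e]; exact h.c1
  have c2 : vp p (q.coeff 2) ≤ 1 := by rw [e]; exact h.c2
  have c3 : vp p (q.coeff 3) ≤ 1 := by rw [e]; exact h.c3
  have c4 : vp p (q.coeff 4) ≤ 1 := by rw [e]; exact h.c4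
  have cw : vp p w = 1 := by rw [e]; exact h.w
  have c0 : vp p (q.coeff 0) ≤ 1 := by rw [h0, map_pow, cw, one_pow]
  have hw0 : w ≠ 0 := by
    rintro rfl
    rw [map_zero] at cw
    exact zero_ne_one cw
  have hBT : vp p (covB q) < vp p (covT q) := by rw [e, e]; exact h.BT
  have h2 : vp p 2 = 1 := hp.two
  have h4 := le1_four (K := ℚ) hp.na
  have v8 : vp p 8 = 1 := by
    have : (8 : ℚ) = 2 * 2 * 2 := by norm_num
    rw [this, map_mul, map_mul, h2]; norm_num
  have v16 : vp p 16 = 1 := by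
    have : (16 : ℚ) = 2 * 8 := by norm_num
    rw [this, map_mul, h2, v8, one_mul]
  have v4 : vp p 4 = 1 := by
    have : (4 : ℚ) = 2 * 2 := by norm_num
    rw [this, map_mul, h2, one_mul]
  have ha : vp p (Ab q) ≤ 1 := c2
  have hb : vp p (Bb q) ≤ 1 := le1_sub hp.na (le1_mul c1 c3) (le1_mul (le1_mul h4 c0) c4)
  have hc : vp p (Cb q) ≤ 1 := by
    refine le1_sub hp.na (na_add hp.na (le1_mul ?_ c4) (le1_mul c0 ?_))
      (le1_mul (le1_mul (le1_mul h4 c0) c2) c4)
    · rw [pow_two]; exact le1_mul c1 c1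
    · rw [pow_two]; exact le1_mul c3 c3
  set x := xs w (q.coeff 1) (q.coeff 2) with hx
  set y := ys w (q.coeff 1) (q.coeff 2) (q.coeff 3) with hy
  have vx : vp p x ≤ 1 := by
    rw [hx, xs]
    refine le1_sub hp.na ?_ c2
    rw [map_div₀, map_mul, map_pow, map_pow, cw, v4, one_pow, one_mul, div_one]
    exact pow_le_one₀ ((vp p).nonneg _) c1
  have hyB : 8 * w ^ 3 * y = covB q := by
    rw [hy, ys, xs, covB, cB, h0]
    field_simp
    ring
  have vy : vp p y = vp p (covB q) := by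
    rw [← hyB, map_mul, map_mul, map_pow, cw, v8, one_pow, one_mul, one_mul]
  have hy0 : y ≠ 0 := by
    intro h0'
    apply h.B0
    rw [← hyB, h0', mul_zero]
  have hy2 : 2 * y ≠ 0 := mul_ne_zero two_ne_zero hy0
  -- the derivative
  have hC : 3 * x ^ 2 + 2 * Ab q * x + Bb q = covT q / (16 * w ^ 4) + q.coeff 1 * y / w := by
    rw [hy, ys, hx, xs, covT, cT, Ab, Bb, h0]
    field_simp
    ring
  have v1 : vp p (covT q / (16 * w ^ 4)) = vp p (covT q) := by
    rw [map_div₀, map_mul, map_pow, cw, v16, one_pow, one_mul, div_one]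
  have v2 : vp p (q.coeff 1 * y / w) ≤ vp p (covB q) := by
    rw [map_div₀, map_mul, cw, div_one, vy]
    calc vp p (q.coeff 1) * vp p (covB q) ≤ 1 * vp p (covB q) := by gcongr
      _ = _ := one_mul _
  have vC : vp p (3 * x ^ 2 + 2 * Ab q * x + Bb q) = vp p (covT q) := by
    rw [hC, na_eq hp.na, v1]
    rw [v1]
    exact v2.trans_lt hBT
  set ℓ := (3 * x ^ 2 + 2 * Ab q * x + Bb q) / (2 * y) with hℓ
  have vℓ : 1 < vp p ℓ := by
    rw [hℓ, map_div₀, map_mul, vC, h2, one_mul, vy]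
    have : 0 < vp p (covB q) := (vp p).pos h.B0
    rwa [one_lt_div this]
  refine ⟨hD, w, hw0, h0.symm, fun hns m hm hm0 => ?_⟩
  obtain ⟨h'', hd⟩ := dbl_mk hns hy2 (ℓ := ℓ) (div_mul_cancel₀ _ hy2)
  have hun := hp.un _ vℓ
  have vsum : vp p (ℓ ^ 2 - Ab q - xs w (q.coeff 1) (q.coeff 2) -
      xs w (q.coeff 1) (q.coeff 2)) = vp p ℓ ^ 2 := by
    rw [← hx]
    have e1 : ℓ ^ 2 - Ab q - x - x = ℓ ^ 2 + -(Ab q + 2 * x) := by ring
    rw [e1, na_eq hp.na, map_pow]
    rw [map_pow, (vp p).map_neg]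
    have h3 : vp p (Ab q + 2 * x) ≤ 1 :=
      na_add hp.na ha (by rw [map_mul, h2, one_mul]; exact vx)
    exact h3.trans_lt (one_lt_pow₀ vℓ two_ne_zero)
  refine infinite_order hp.na ha hb hc hp.p3 hp.unit hp.lt h'' ?_ m hm ?_
  · rw [vsum]
    exact hun
  · rw [← hd, smul_add, hm0, add_zero]

end Pool.Agent.Y718.X
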