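import Pool.Agent.Y718.SA1

/-!
# Bases of good directions
-/

set_option autoImplicit false
set_option linter.unusedSectionVars false
set_option linter.unusedVariables false
set_option linter.unusedSimpArgs false

open WeierstrassCurve Set Filter Topology Pool.Agent.Y720.MZ Pool.Agent.H581R2
  Pool.Agent.TH729.SQ Pool.Agent.TH954

namespace Pool.Agent.Y718.X

open Pool.Agent.Y718

variable {n : ℕ}

lemma lk_lp (f : MvPolynomial (Fin n) ℚ) (z u : Fin n → ℚ) : lk f z u = lp f z u := rfl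

/-- the discriminant on a line of directions -/
lemma Db_poly (f : MvPolynomial (Fin n) ℚ) (z a b : Fin n → ℚ) :
    ∃ P : Polynomial ℚ, ∀ t, P.eval t = Db (lk f z (a + t • b)) := by
  have hk : ∀ k, ∃ P : Polynomial ℚ, ∀ t, P.eval t = (lp f z (a + t • b)).coeff k := fun k =>
    (PQv_coeff f z k).poly a b
  choose P hP using hk
  refine ⟨dsc (P 2) (P 1 * P 3 - 4 * P 0 * P 4) (P 1 ^ 2 * P 4 + P 0 * P 3 ^ 2 -
    4 * P 0 * P 2 * P 4), fun t => ?_⟩
  rw [lk_lp, Db, Ab, Bb, Cb, ← hP, ← hP, ← hP, ← hP, ← hP, ← Polynomial.coe_evalRingHom]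
  simp only [dsc, map_sub, map_add, map_mul, map_pow, map_ofNat]

lemma Db_fin (f : MvPolynomial (Fin n) ℚ) (z a b : Fin n → ℚ) {t₀ : ℚ}
    (h : Db (lk f z (a + t₀ • b)) ≠ 0) : {t : ℚ | Db (lk f z (a + t • b)) = 0}.Finite := by
  obtain ⟨P, hP⟩ := Db_poly f z a b
  have hP0 : P ≠ 0 := by
    rintro rfl
    apply h
    rw [← hP, Polynomial.eval_zero]
  refine (Polynomial.finite_setOfPred_isRoot hP0).subset fun t ht => ?_
  have ht' : Db (lk f z (a + t • b)) = 0 := ht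
  rw [← hP] at ht'
  exact ht'

/-- finite sets of rational numbers keep a distance from `0` -/
lemma fin_gap {E : Set ℚ} (hE : E.Finite) (h0 : (0 : ℚ) ∉ E) :
    ∃ δ : ℝ, 0 < δ ∧ ∀ t ∈ E, δ ≤ |(t : ℝ)| := by
  have hcl : IsClosed ((fun t : ℚ => (t : ℝ)) '' E) := (hE.image _).isClosed
  have h0' : (0 : ℝ) ∉ (fun t : ℚ => (t : ℝ)) '' E := by
    rintro ⟨t, ht, h⟩
    have h' : (t : ℝ) = 0 := h
    have : t = 0 := by exact_mod_cast h'
    exact h0 (this ▸ ht)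
  obtain ⟨δ, hδ, hδ'⟩ := Metric.isOpen_iff.1 hcl.isOpen_compl _ h0'
  refine ⟨δ, hδ, fun t ht => ?_⟩
  by_contra hc
  push Not at hc
  exact hδ' (Metric.mem_ball.2 (by rw [Real.dist_eq, sub_zero]; exact hc)) ⟨t, ht, rfl⟩

/-- directions with nonzero discriminant are dense -/
lemma Db_near {f : MvPolynomial (Fin n) ℚ} {z u0 : Fin n → ℚ} (h : Db (lk f z u0) ≠ 0)
    (vs : Fin n → ℚ) {η : ℝ} (hη : 0 < η) :
    ∃ v' : Fin n → ℚ, (∀ k, |(v' k : ℝ) - vs k| < η) ∧ Db (lk f z v') ≠ 0 := by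
  have hfin := Db_fin f z vs (u0 - vs) (t₀ := 1) (by
    have : vs + (1 : ℚ) • (u0 - vs) = u0 := by rw [one_smul]; abel
    rw [this]; exact h)
  obtain ⟨δ, hδ, hgap⟩ := fin_gap (hfin.subset (Set.sdiff_subset (t := {(0 : ℚ)}))) (by simp)
  set D : ℝ := 1 + ∑ k, |((u0 k : ℝ) - vs k)| with hD
  have hD0 : 0 < D := by
    have : 0 ≤ ∑ k, |((u0 k : ℝ) - vs k)| := Finset.sum_nonneg fun _ _ => abs_nonneg _
    linarith
  obtain ⟨t, ht0, ht1⟩ := exists_rat_btwn (show (0 : ℝ) < min (η / D) δ from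
    lt_min (by positivity) hδ)
  have ht0' : t ≠ 0 := by
    rintro rfl
    simp at ht0
  refine ⟨vs + t • (u0 - vs), fun k => ?_, ?_⟩
  · have e2 : (((vs + t • (u0 - vs)) k : ℚ) : ℝ) - vs k = t * ((u0 k : ℝ) - vs k) := by
      simp
    rw [e2, abs_mul, abs_of_pos ht0]
    have h3 : |((u0 k : ℝ) - vs k)| < D := by
      have : |((u0 k : ℝ) - vs k)| ≤ ∑ k, |((u0 k : ℝ) - vs k)| :=
        Finset.single_le_sum (f := fun k => |((u0 k : ℝ) - vs k)|) (fun _ _ => abs_nonneg _)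
          (Finset.mem_univ k)
      linarith
    have h4 := ht1.trans_le (min_le_left _ _)
    calc (t : ℝ) * |((u0 k : ℝ) - vs k)| ≤ (t : ℝ) * D := by gcongr
      _ < η / D * D := by gcongr
      _ = η := by field_simp
  · intro h0
    have h1 := hgap t ⟨h0, ht0'⟩
    rw [abs_of_pos ht0] at h1
    exact absurd (ht1.trans_le (min_le_right _ _)) (not_lt.2 h1)

/-- **Directions with points of infinite order are dense.** -/
theorem dir_near {f : MvPolynomial (Fin n) ℚ} {z v u u0 : Fin n → ℚ} (h : NDP f z v u)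
    (hu0 : Db (lk f z u0) ≠ 0) {w0 : ℚ}
    (hw0 : w0 ≠ 0) (hw : w0 ^ 2 = MvPolynomial.eval z f) (vs0 : Fin n → ℚ) {η : ℝ} (hη : 0 < η) :
    ∃ v' : Fin n → ℚ, (∀ k, |(v' k : ℝ) - vs0 k| < η) ∧ Inf (lk f z v') := by
  obtain ⟨vs, hvs1, hvs2⟩ := Db_near hu0 vs0 (half_pos hη)
  obtain ⟨p, hp, h5, a, b, hPG⟩ := good_dir h hw0
  set v0 := a • v + b • u with hv0
  have hk : ∀ k, ∃ P : Polynomial ℚ, ∀ t, P.eval t = (lp f z (vs + t • (v0 - vs))).coeff k :=
    fun k => (PQv_coeff f z k).poly vs (v0 - vs)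
  choose P hP using hk
  obtain ⟨PB, hPB⟩ := (PQv_covB f z).poly vs (v0 - vs)
  obtain ⟨PT, hPT⟩ := (PQv_covT f z).poly vs (v0 - vs)
  have e1 : vs + (1 : ℚ) • (v0 - vs) = v0 := by rw [one_smul]; abel
  have hB1 : PB.eval 1 = covB (lp f z v0) := by rw [hPB, e1]
  have hT1 : PT.eval 1 = covT (lp f z v0) := by rw [hPT, e1]
  have hBpos : 0 < ‖((PB.eval 1 : ℚ) : ℚ_[p])‖ := by
    rw [hB1]
    exact norm_pos_iff.mpr (by exact_mod_cast hPG.B0)
  have hTpos : 0 < ‖((PT.eval 1 : ℚ) : ℚ_[p])‖ := by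
    rw [hT1]
    rw [hB1] at hBpos
    exact hBpos.trans hPG.BT
  obtain ⟨δ1, hδ1, k1⟩ := padic_cont (p := p) (P 1) one_pos
  obtain ⟨δ2, hδ2, k2⟩ := padic_cont (p := p) (P 2) one_pos
  obtain ⟨δ3, hδ3, k3⟩ := padic_cont (p := p) (P 3) one_pos
  obtain ⟨δ4, hδ4, k4⟩ := padic_cont (p := p) (P 4) one_pos
  obtain ⟨δ5, hδ5, k5⟩ := padic_cont (p := p) PB hBpos
  obtain ⟨δ6, hδ6, k6⟩ := padic_cont (p := p) PT hTpos
  have hfin := Db_fin f z vs (v0 - vs) (t₀ := 0) (by rw [zero_smul, add_zero]; exact hvs2)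
  obtain ⟨δ7, hδ7, hgap⟩ := fin_gap hfin (by
    simp only [Set.mem_ofPred_eq, zero_smul, add_zero]
    exact hvs2)
  set D : ℝ := 1 + ∑ k, |((v0 k : ℝ) - vs k)| with hD
  have hD0 : 0 < D := by
    have : 0 ≤ ∑ k, |((v0 k : ℝ) - vs k)| := Finset.sum_nonneg fun _ _ => abs_nonneg _
    linarith
  obtain ⟨t, ht1, ht2⟩ := real_padic (p := p) (η := min (η / 2 / D) δ7)
    (δ := min (min (min δ1 δ2) (min δ3 δ4)) (min δ5 δ6)) (lt_min (by positivity) hδ7)
    (lt_min (lt_min (lt_min hδ1 hδ2) (lt_min hδ3 hδ4)) (lt_min hδ5 hδ6))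
  have m1 := k1 t (ht2.trans_le ((min_le_left _ _).trans ((min_le_left _ _).trans (min_le_left _ _))))
  have m2 := k2 t (ht2.trans_le ((min_le_left _ _).trans ((min_le_left _ _).trans (min_le_right _ _))))
  have m3 := k3 t (ht2.trans_le ((min_le_left _ _).trans ((min_le_right _ _).trans (min_le_left _ _))))
  have m4 := k4 t (ht2.trans_le ((min_le_left _ _).trans ((min_le_right _ _).trans (min_le_right _ _))))
  have m5 := k5 t (ht2.trans_le ((min_le_right _ _).trans (min_le_left _ _)))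
  have m6 := k6 t (ht2.trans_le ((min_le_right _ _).trans (min_le_right _ _)))
  have hle : ∀ (q : Polynomial ℚ), ‖((q.eval t - q.eval 1 : ℚ) : ℚ_[p])‖ < 1 →
      ‖((q.eval 1 : ℚ) : ℚ_[p])‖ ≤ 1 → ‖((q.eval t : ℚ) : ℚ_[p])‖ ≤ 1 := by
    intro q h1 h2
    have : ((q.eval t : ℚ) : ℚ_[p]) = ((q.eval t - q.eval 1 : ℚ) : ℚ_[p]) + ((q.eval 1 : ℚ) : ℚ_[p]) := by
      push_cast; ring
    rw [this]
    exact uadd h1.le h2
  have heq : ∀ (q : Polynomial ℚ), ‖((q.eval t - q.eval 1 : ℚ) : ℚ_[p])‖ < ‖((q.eval 1 : ℚ) : ℚ_[p])‖ →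
      ‖((q.eval t : ℚ) : ℚ_[p])‖ = ‖((q.eval 1 : ℚ) : ℚ_[p])‖ := by
    intro q h1
    have : ((q.eval t : ℚ) : ℚ_[p]) = ((q.eval 1 : ℚ) : ℚ_[p]) + ((q.eval t - q.eval 1 : ℚ) : ℚ_[p]) := by
      push_cast; ring
    rw [this, uadd_eq h1]
  refine ⟨vs + t • (v0 - vs), ?_, ?_⟩
  · intro k
    have e2 : (((vs + t • (v0 - vs)) k : ℚ) : ℝ) - vs k = t * ((v0 k : ℝ) - vs k) := by
      simp
    have e3 : |(((vs + t • (v0 - vs)) k : ℚ) : ℝ) - vs k| < η / 2 := by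
      rw [e2, abs_mul]
      have h3 : |((v0 k : ℝ) - vs k)| < D := by
        have : |((v0 k : ℝ) - vs k)| ≤ ∑ k, |((v0 k : ℝ) - vs k)| :=
          Finset.single_le_sum (f := fun k => |((v0 k : ℝ) - vs k)|) (fun _ _ => abs_nonneg _) (Finset.mem_univ k)
        linarith
      have h4 := ht1.trans_le (min_le_left _ _)
      calc |(t : ℝ)| * |((v0 k : ℝ) - vs k)| ≤ |(t : ℝ)| * D := by gcongr
        _ < η / 2 / D * D := by gcongr
        _ = η / 2 := by field_simp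
    have := abs_sub_le (((vs + t • (v0 - vs)) k : ℚ) : ℝ) (vs k) (vs0 k)
    have := hvs1 k
    linarith
  · refine pg_inf (p := p) h5 (w := w0) ⟨?_, ?_, ?_, ?_, hPG.w, ?_, ?_⟩ ?_ ?_
    · rw [lk_lp, ← hP]; exact hle _ m1 (by rw [hP, e1]; exact hPG.c1)
    · rw [lk_lp, ← hP]; exact hle _ m2 (by rw [hP, e1]; exact hPG.c2)
    · rw [lk_lp, ← hP]; exact hle _ m3 (by rw [hP, e1]; exact hPG.c3)
    · rw [lk_lp, ← hP]; exact hle _ m4 (by rw [hP, e1]; exact hPG.c4)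
    · rw [lk_lp, ← hPB]
      intro h0
      have h1 := heq _ m5
      rw [h0] at h1
      simp only [Rat.cast_zero, norm_zero] at h1
      linarith
    · rw [lk_lp, ← hPB, ← hPT, heq _ m5, heq _ m6, hB1, hT1]
      exact hPG.BT
    · rw [lk_zero, hw]
    · intro h0
      have h1 := hgap t h0
      exact absurd (ht1.trans_le (min_le_right _ _)) (not_lt.2 h1)

/-- **A basis of directions with points of infinite order.** -/
theorem dir_basis {f : MvPolynomial (Fin n) ℚ} {z v u u0 : Fin n → ℚ} (h : NDP f z v u)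
    (hu0 : Db (lk f z u0) ≠ 0) {w0 : ℚ}
    (hw0 : w0 ≠ 0) (hw : w0 ^ 2 = MvPolynomial.eval z f) :
    ∃ b : Fin n → Fin n → ℚ, LinearIndependent ℚ b ∧ ∀ k, Inf (lk f z (b k)) := by
  classical
  have hc : Continuous fun M : Fin n → Fin n → ℝ => (Matrix.of M).det :=
    Continuous.matrix_det (by fun_prop)
  have h1 : (Matrix.of fun i j : Fin n => if i = j then (1 : ℝ) else 0).det ≠ 0 := by
    have : (Matrix.of fun i j : Fin n => if i = j then (1 : ℝ) else 0) = 1 := by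
      ext i j
      simp [Matrix.one_apply]
    rw [this, Matrix.det_one]
    exact one_ne_zero
  obtain ⟨η, hη, hball⟩ := Metric.isOpen_iff.1 (isOpen_ne_fun hc continuous_const)
    (fun i j : Fin n => if i = j then (1 : ℝ) else 0) h1
  choose b hb1 hb2 using fun k : Fin n =>
    dir_near h hu0 hw0 hw (fun j => if k = j then (1 : ℚ) else 0) hη
  refine ⟨b, ?_, hb2⟩
  have h2 : (Matrix.of fun i j => ((b i j : ℚ) : ℝ)).det ≠ 0 := by
    refine hball (Metric.mem_ball.2 ?_)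
    rw [dist_pi_lt_iff hη]
    intro i
    rw [dist_pi_lt_iff hη]
    intro j
    rw [Real.dist_eq]
    have := hb1 i j
    convert this using 2
    split_ifs <;> simp
  have h3 : (Matrix.of b).det ≠ 0 := by
    intro h0
    apply h2
    have e : (Matrix.of fun i j => ((b i j : ℚ) : ℝ)) = (algebraMap ℚ ℝ).mapMatrix (Matrix.of b) := by
      ext i j
      simp
    rw [e, ← RingHom.map_det, h0, map_zero]
  have h4 := (Matrix.linearIndependent_rows_iff_isUnit (A := Matrix.of b)).2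
    ((Matrix.isUnit_iff_isUnit_det _).2 (isUnit_iff_ne_zero.2 h3))
  exact h4

end Pool.Agent.Y718.X
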