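import Pool.Agent.Y718.SA2
import Pool.Agent.Y718.SA3
import Pool.Agent.Y720.WA.Wap3

/-!
# Weak approximation near a point, from a basis of directions
-/

set_option autoImplicit false
set_option linter.unusedSectionVars false
set_option linter.unusedVariables false
set_option linter.unusedSimpArgs false

open WeierstrassCurve Set Filter Topology Pool.Agent.Y720.MZ

namespace Pool.Agent.Y718.X

open Pool.Agent.Y718

variable {n : ℕ}

lemma some_neg' {K : Type*} [Field K] [DecidableEq K] {a b c x y : K}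
    (hS : ∀ (h : (cv a b c).toAffine.Nonsingular x y) (m : ℕ), m ≠ 0 →
      m • (Affine.Point.some x y h : Pt a b c) ≠ 0)
    (h : (cv a b c).toAffine.Nonsingular x (-y)) (m : ℕ) (hm : m ≠ 0) :
      m • (Affine.Point.some x (-y) h : Pt a b c) ≠ 0 := by
  obtain ⟨h', e⟩ := neg_mk h
  intro h0
  rw [neg_neg] at h'
  have e' : -(Affine.Point.some x (-y) h : Pt a b c) = .some x y h' := by
    rw [e]
    congr 1
    rw [neg_neg]
  apply hS h' m hm
  rw [← e', smul_neg, h0, neg_zero]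

/-- moves in a direction of infinite order -/
lemma mv_inf {ι : Type} [Finite ι] [Nonempty ι] {p : ι → ℕ} [∀ i, Fact (p i).Prime]
    (hinj : Function.Injective p) (σ : ∀ i, ℚ →+* ℚ_[p i]) (τ : ℚ →+* ℝ)
    {f : MvPolynomial (Fin n) ℚ} {e z : Fin n → ℚ} (hd : ∀ y, (lk f y e).natDegree ≤ 4)
    (hI : Inf (lk f z e)) {w : ℚ} (hw : w ≠ 0) (hw2 : w ^ 2 = MvPolynomial.eval z f) :
    Mv (Pool.Agent.Y720.MZ.sv σ τ) f e z w := by
  obtain ⟨hD, w0, hw0, hw0', hI⟩ := hI
  have hwc : w ^ 2 = (lk f z e).coeff 0 := by rw [lk_zero, hw2]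
  set q := lk f z e with hq
  refine mv_quartic hd (waq_all hinj σ τ (θ₀ := (w, cq f z e)) hw ?_ ?_)
  · have e1 : tA (w, cq f z e) = Ab q := rfl
    have e2 : tB (w, cq f z e) = Bb q := (bb_eq hwc).symm
    have e3 : tC (w, cq f z e) = Cb q := (cb_eq hwc).symm
    rw [e1, e2, e3]
    exact hD
  · have key : ∀ (h : (cv (Ab q) (Bb q) (Cb q)).toAffine.Nonsingular (xs w (q.coeff 1) (q.coeff 2))
        (ys w (q.coeff 1) (q.coeff 2) (q.coeff 3))) (m : ℕ), m ≠ 0 →
        m • (Affine.Point.some _ _ h : Pt (Ab q) (Bb q) (Cb q)) ≠ 0 := by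
      rcases sq_eq_sq_iff_eq_or_eq_neg.mp (hwc.trans hw0'.symm) with h1 | h1
      · rw [h1]; exact hI
      · have e1 : xs w (q.coeff 1) (q.coeff 2) = xs w0 (q.coeff 1) (q.coeff 2) := by
          rw [xs, xs, h1, neg_sq]
        have e2 : ys w (q.coeff 1) (q.coeff 2) (q.coeff 3) =
            -ys w0 (q.coeff 1) (q.coeff 2) (q.coeff 3) := by
          rw [ys, ys, e1, h1, neg_sq, mul_neg, div_neg]
        rw [e1, e2]
        exact fun h m hm => some_neg' hI h m hm
    have e2 : Bb q = tB (w, cq f z e) := bb_eq hwc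
    have e3 : Cb q = tC (w, cq f z e) := cb_eq hwc
    rw [e2, e3] at key
    exact key

section lin

variable {V : Type} {L : V → Type} [∀ v, NontriviallyNormedField (L v)] (s : ∀ v, ℚ →+* L v)

lemma lin_bound [Finite V] (b : Fin n → Fin n → ℚ) {η : ℝ} (hη : 0 < η) :
    ∃ δ : ℝ, 0 < δ ∧ ∀ (v : V) (x : Fin n → L v), (∀ a, ‖x a‖ < δ) → ∀ i,
      ‖∑ j, x j * s v (b j i)‖ < η := by
  have := Fintype.ofFinite V
  have hT : ∀ v i, ∑ j, ‖s v (b j i)‖ ≤ ∑ v, ∑ i, ∑ j, ‖s v (b j i)‖ := by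
    intro v i
    have h1 : ∑ j, ‖s v (b j i)‖ ≤ ∑ i, ∑ j, ‖s v (b j i)‖ :=
      Finset.single_le_sum (f := fun i => ∑ j, ‖s v (b j i)‖)
        (fun _ _ => Finset.sum_nonneg fun _ _ => norm_nonneg _) (Finset.mem_univ i)
    have h2 : ∑ i, ∑ j, ‖s v (b j i)‖ ≤ ∑ v, ∑ i, ∑ j, ‖s v (b j i)‖ :=
      Finset.single_le_sum (f := fun v => ∑ i, ∑ j, ‖s v (b j i)‖)
        (fun _ _ => Finset.sum_nonneg fun _ _ => Finset.sum_nonneg fun _ _ => norm_nonneg _)
        (Finset.mem_univ v)
    exact h1.trans h2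
  set C : ℝ := 1 + ∑ v, ∑ i, ∑ j, ‖s v (b j i)‖ with hC
  have hC1 : 1 ≤ C := by
    have : 0 ≤ ∑ v, ∑ i, ∑ j, ‖s v (b j i)‖ := Finset.sum_nonneg fun _ _ =>
      Finset.sum_nonneg fun _ _ => Finset.sum_nonneg fun _ _ => norm_nonneg _
    linarith
  have hC0 : 0 < C := by linarith
  refine ⟨η / C, div_pos hη hC0, fun v x hx i => ?_⟩
  calc ‖∑ j, x j * s v (b j i)‖ ≤ ∑ j, ‖x j * s v (b j i)‖ := norm_sum_le _ _
    _ ≤ ∑ j, η / C * ‖s v (b j i)‖ := Finset.sum_le_sum fun j _ => by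
        rw [norm_mul]
        exact mul_le_mul_of_nonneg_right (hx j).le (norm_nonneg _)
    _ = η / C * ∑ j, ‖s v (b j i)‖ := by rw [Finset.mul_sum]
    _ ≤ η / C * (C - 1) := by
        refine mul_le_mul_of_nonneg_left ?_ (div_pos hη hC0).le
        rw [hC, add_sub_cancel_left]
        exact hT v i
    _ < η / C * C := by
        refine mul_lt_mul_of_pos_left (by linarith) (div_pos hη hC0)
    _ = η := by field_simp

variable {s}

lemma cf_map {L' : Type*} [Field L'] (σ : ℚ →+* L') (b : Fin n → Fin n → ℚ)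
    (f : MvPolynomial (Fin n) ℚ) (x : Fin n → L') :
    MvPolynomial.eval x (MvPolynomial.map σ (cf b f)) =
      MvPolynomial.eval (fun i => ∑ j, x j * σ (b j i)) (MvPolynomial.map σ f) := by
  unfold cf
  induction f using MvPolynomial.induction_on with
  | C c => simp
  | add p q hp hq => simp only [map_add, hp, hq]
  | mul_X p j hp =>
    simp only [map_mul, hp, MvPolynomial.aeval_X, map_sum, MvPolynomial.map_C, MvPolynomial.map_X,
      MvPolynomial.eval_C, MvPolynomial.eval_X]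
    congr 1
    exact Finset.sum_congr rfl fun k _ => mul_comm _ _

/-- **change of coordinates** -/
theorem int_cf [Finite V] {b : Fin n → Fin n → ℚ} (hb : LinearIndependent ℚ b)
    {f : MvPolynomial (Fin n) ℚ} {x0 : Fin n → ℚ} {w : ℚ} (h : Pool.Agent.Y720.MZ.Int s (cf b f) x0 w) :
    Pool.Agent.Y720.MZ.Int s f (lc b x0) w := by
  have hU : IsUnit (Matrix.of b) := by
    rw [← Matrix.linearIndependent_rows_iff_isUnit]
    exact hb
  obtain ⟨u, hu⟩ := hU
  set b' : Fin n → Fin n → ℚ := fun i j => (Units.val u⁻¹ : Matrix (Fin n) (Fin n) ℚ) i j with hb'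
  have hbb : ∀ i k, ∑ j, b i j * b' j k = if i = k then 1 else 0 := by
    intro i k
    have h1 : (Matrix.of b) * (Units.val u⁻¹ : Matrix (Fin n) (Fin n) ℚ) = 1 := by
      rw [← hu]; exact u.mul_inv
    have h2 := congrFun (congrFun h1 i) k
    rw [Matrix.mul_apply, Matrix.one_apply] at h2
    exact h2
  have hbb' : ∀ i k, ∑ j, b' i j * b j k = if i = k then 1 else 0 := by
    intro i k
    have h1 : (Units.val u⁻¹ : Matrix (Fin n) (Fin n) ℚ) * (Matrix.of b) = 1 := by
      rw [← hu]; exact u.inv_mul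
    have h2 := congrFun (congrFun h1 i) k
    rw [Matrix.mul_apply, Matrix.one_apply] at h2
    exact h2
  have inv1 : ∀ (v : V) (x : Fin n → L v) (i : Fin n),
      ∑ j, (∑ k, x k * s v (b' k j)) * s v (b j i) = x i := by
    intro v x i
    simp only [Finset.sum_mul]
    rw [Finset.sum_comm]
    have : ∀ k, ∑ j, x k * s v (b' k j) * s v (b j i) = x k * (if k = i then 1 else 0) := by
      intro k
      have h1 := congrArg (s v) (hbb' k i)
      rw [map_sum] at h1
      simp only [mul_assoc, ← Finset.mul_sum]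
      congr 1
      simp only [map_mul] at h1
      rw [h1]
      split_ifs <;> simp
    rw [Finset.sum_congr rfl fun k _ => this k]
    simp
  have inv2 : ∀ j, ∑ k, lc b x0 k * b' k j = x0 j := by
    intro j
    simp only [lc_apply, Finset.sum_mul]
    rw [Finset.sum_comm]
    have : ∀ k, ∑ i, x0 k * b k i * b' i j = x0 k * (if k = j then 1 else 0) := by
      intro k
      simp only [mul_assoc, ← Finset.mul_sum, hbb]
    rw [Finset.sum_congr rfl fun k _ => this k]
    simp
  obtain ⟨ε, hε, hh⟩ := h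
  obtain ⟨δ, hδ, hd⟩ := lin_bound s b' hε
  refine ⟨min ε δ, lt_min hε hδ, fun x y hxy hn η hη => ?_⟩
  obtain ⟨δ', hδ', hd'⟩ := lin_bound s b hη
  obtain ⟨z', w', h1, h2⟩ := hh (fun v j => ∑ k, x v k * s v (b' k j)) y (fun v => by
      have h1 := hxy v
      unfold onX at h1 ⊢
      rw [h1, cf_map]
      congr 2
      funext i
      exact (inv1 v (x v) i).symm) (fun v => ⟨fun j => by
        have h1 := hd v (fun k => s v (lc b x0 k) - x v k) (fun k =>
          ((hn v).1 k).trans_le (min_le_right _ _)) j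
        have h2 : ∑ k, (s v (lc b x0 k) - x v k) * s v (b' k j) =
            s v (x0 j) - ∑ k, x v k * s v (b' k j) := by
          simp only [sub_mul, Finset.sum_sub_distrib]
          rw [← inv2 j]
          simp only [map_sum, map_mul]
        rw [h2] at h1
        exact h1, ((hn v).2).trans_le (min_le_left _ _)⟩) (min η δ') (lt_min hη hδ')
  refine ⟨lc b z', w', ?_, fun v => ⟨fun i => ?_, ((h2 v).2).trans_le (min_le_left _ _)⟩⟩
  · unfold onX at h1 ⊢
    rw [h1, cf_eval]
  · have h3 := hd' v (fun j => s v (z' j) - ∑ k, x v k * s v (b' k j)) (fun j =>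
      ((h2 v).1 j).trans_le (min_le_right _ _)) i
    have h4 : ∑ j, (s v (z' j) - ∑ k, x v k * s v (b' k j)) * s v (b j i) =
        s v (lc b z' i) - x v i := by
      simp only [sub_mul, Finset.sum_sub_distrib]
      rw [inv1, lc_apply]
      simp only [map_sum, map_mul]
    rw [h4] at h3
    exact h3

end lin

/-- **Weak approximation near a point, from a basis of directions.** -/
theorem int_dirs {ι : Type} [Finite ι] [Nonempty ι] {p : ι → ℕ} [∀ i, Fact (p i).Prime]
    (hinj : Function.Injective p) (σ : ∀ i, ℚ →+* ℚ_[p i]) (τ : ℚ →+* ℝ)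
    {f : MvPolynomial (Fin n) ℚ} {z : Fin n → ℚ} {b : Fin n → Fin n → ℚ}
    (hb : LinearIndependent ℚ b)
    (hI : ∀ k, (∀ y, (lk f y (b k)).natDegree ≤ 2) ∨
      ((∀ y, (lk f y (b k)).natDegree ≤ 4) ∧ Inf (lk f z (b k))))
    {w : ℚ} (hw : w ≠ 0) (hw2 : w ^ 2 = MvPolynomial.eval z f) : Pool.Agent.Y720.MZ.Int (Pool.Agent.Y720.MZ.sv σ τ) f z w := by
  obtain ⟨b', h1, h2, h3⟩ := exists_inv hb
  set x0 : Fin n → ℚ := lc b' z with hx0
  have hx0z : lc b x0 = z := h1 z
  have hw3 : w ^ 2 = MvPolynomial.eval x0 (cf b f) := by rw [cf_eval, hx0z, hw2]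
  rw [← hx0z]
  refine int_cf hb (int_of_mv hw3 hw fun k => ?_)
  rcases hI k with h | ⟨hd, h⟩
  · refine mv_conic (dn_all hinj σ τ) (fun y => ?_) hw
    have h4 := h (lc b y)
    rw [← lk_cf] at h4
    exact h4
  · refine mv_inf hinj σ τ (fun y => ?_) ?_ hw hw3
    · rw [lk_cf]; exact hd _
    · rw [lk_cf, hx0z]; exact h

end Pool.Agent.Y718.X
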