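import Pool.Agent.Y718.SA4

/-!
# Weak approximation near a point of a double cover of projective space branched along a smooth quartic
-/

set_option autoImplicit false
set_option linter.unusedSectionVars false
set_option linter.unusedVariables false
set_option linter.unusedSimpArgs false

open WeierstrassCurve Set Filter Topology Pool.Agent.Y720.MZ

namespace Pool.Agent.Y718.X

open Pool.Agent.Y718 Pool.Agent.Y718.SF

variable {n : ℕ}

lemma deh_map {L' : Type*} [Field L'] (σ : ℚ →+* L') (F : MvPolynomial (Fin (n + 1)) ℚ)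
    (p : Fin (n + 1)) (z : Fin n → L') :
    MvPolynomial.eval z (MvPolynomial.map σ (deh F p)) =
      MvPolynomial.eval (ic p 1 z) (MvPolynomial.map σ F) := by
  unfold deh
  induction F using MvPolynomial.induction_on with
  | C c => simp
  | add p q hp hq => simp only [map_add, hp, hq]
  | mul_X q i hq =>
    simp only [map_mul, hq, MvPolynomial.aeval_X, MvPolynomial.map_X, MvPolynomial.eval_X]
    congr 1
    rcases Fin.eq_self_or_eq_succAbove p i with h | ⟨j, rfl⟩
    · rw [h, ic_same, Fin.insertNth_apply_same, map_one, map_one]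
    · rw [ic_above, Fin.insertNth_apply_succAbove, MvPolynomial.map_X, MvPolynomial.eval_X]

/-- from a chart to the cone -/
theorem int_cone {V : Type} [Finite V] {L : V → Type} [∀ v, NontriviallyNormedField (L v)]
    {s : ∀ v, ℚ →+* L v} (hden : Dn s) {F : MvPolynomial (Fin (n + 1)) ℚ} (hF : F.IsHomogeneous 4)
    (p : Fin (n + 1)) {Z : Fin (n + 1) → ℚ} {w : ℚ} (hZ : Z p ≠ 0)
    (h : Pool.Agent.Y720.MZ.Int s (deh F p) (fun j => Z (p.succAbove j) / Z p) (w / Z p ^ 2)) :
    Pool.Agent.Y720.MZ.Int s F Z w := by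
  obtain ⟨ε, hε, hh⟩ := h
  have h1 : ∀ v, ∃ δ : ℝ, 0 < δ ∧ ∀ (x : Fin (n + 1) → L v) (y : L v),
      (∀ a, ‖s v (Z a) - x a‖ < δ) → ‖s v w - y‖ < δ → x p ≠ 0 ∧
      (∀ j, ‖s v (Z (p.succAbove j) / Z p) - x (p.succAbove j) / x p‖ < ε) ∧
      ‖s v (w / Z p ^ 2) - y / x p ^ 2‖ < ε := by
    intro v
    have hZv : s v (Z p) ≠ 0 := (map_ne_zero (s v)).2 hZ
    have c1 : ContinuousAt (fun e : (Fin (n + 1) → L v) × L v => e.1 p)
        (fun a => s v (Z a), s v w) := by fun_prop
    have c2 : ∀ j, ContinuousAt (fun e : (Fin (n + 1) → L v) × L v =>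
        e.1 (p.succAbove j) / e.1 p) (fun a => s v (Z a), s v w) := fun j =>
      ContinuousAt.div (by fun_prop) (by fun_prop) hZv
    have c3 : ContinuousAt (fun e : (Fin (n + 1) → L v) × L v => e.2 / e.1 p ^ 2)
        (fun a => s v (Z a), s v w) :=
      ContinuousAt.div (by fun_prop) (by fun_prop) (pow_ne_zero _ hZv)
    have e2 := Filter.eventually_all.2 fun j => (c2 j).eventually (Metric.ball_mem_nhds _ hε)
    have e3 := c3.eventually (Metric.ball_mem_nhds _ hε)
    obtain ⟨δ, hδ, hb⟩ := Metric.eventually_nhds_iff_ball.1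
      ((c1.eventually_ne hZv).and (e2.and e3))
    refine ⟨δ, hδ, fun x y hx hy => ?_⟩
    have hm : (x, y) ∈ Metric.ball ((fun a => s v (Z a)), s v w) δ := by
      rw [Metric.mem_ball, Prod.dist_eq]
      refine max_lt ((dist_pi_lt_iff hδ).2 fun a => ?_) ?_
      · rw [dist_comm, dist_eq_norm]; exact hx a
      · rw [dist_comm, dist_eq_norm]; exact hy
    obtain ⟨k1, k2, k3⟩ := hb _ hm
    refine ⟨k1, fun j => ?_, ?_⟩
    · have h := k2 j
      rw [dist_comm, dist_eq_norm] at h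
      rw [map_div₀]
      exact h
    · rw [dist_comm, dist_eq_norm] at k3
      rw [map_div₀, map_pow]
      exact k3
  choose δ hδ hδ' using h1
  obtain ⟨δ₀, hδ₀, hm⟩ := fin_min hδ
  refine ⟨δ₀, hδ₀, fun x y hxy hn η hη => ?_⟩
  have k := fun v => hδ' v (x v) (y v) (fun a => ((hn v).1 a).trans_le (hm v))
    (((hn v).2).trans_le (hm v))
  -- the target
  have h2 : ∀ v, ∃ δ' : ℝ, 0 < δ' ∧ ∀ (l : L v) (z : Fin n → L v) (u : L v),
      ‖l - x v p‖ < δ' → (∀ j, ‖z j - x v (p.succAbove j) / x v p‖ < δ') →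
      ‖u - y v / x v p ^ 2‖ < δ' →
      (∀ j, ‖l * z j - x v (p.succAbove j)‖ < η) ∧ ‖l ^ 2 * u - y v‖ < η := by
    intro v
    have c2 : ∀ j, ContinuousAt (fun e : L v × (Fin n → L v) × L v => e.1 * e.2.1 j)
        (x v p, fun j => x v (p.succAbove j) / x v p, y v / x v p ^ 2) := fun j => by fun_prop
    have c3 : ContinuousAt (fun e : L v × (Fin n → L v) × L v => e.1 ^ 2 * e.2.2)
        (x v p, fun j => x v (p.succAbove j) / x v p, y v / x v p ^ 2) := by fun_prop
    have e2 := Filter.eventually_all.2 fun j => (c2 j).eventually (Metric.ball_mem_nhds _ hη)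
    have e3 := c3.eventually (Metric.ball_mem_nhds _ hη)
    obtain ⟨δ, hδ, hb⟩ := Metric.eventually_nhds_iff_ball.1 (e2.and e3)
    refine ⟨δ, hδ, fun l z u hl hz hu => ?_⟩
    have hm : (l, z, u) ∈ Metric.ball (x v p, (fun j => x v (p.succAbove j) / x v p),
        y v / x v p ^ 2) δ := by
      rw [Metric.mem_ball, Prod.dist_eq, Prod.dist_eq]
      refine max_lt ?_ (max_lt ((dist_pi_lt_iff hδ).2 fun a => ?_) ?_)
      · rw [dist_eq_norm]; exact hl
      · rw [dist_eq_norm]; exact hz a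
      · rw [dist_eq_norm]; exact hu
    obtain ⟨k1, k2⟩ := hb _ hm
    have hx0 := (k v).1
    refine ⟨fun j => ?_, ?_⟩
    · have h := k1 j
      simp only [mul_div_cancel₀ _ hx0] at h
      rw [dist_eq_norm] at h
      exact h
    · simp only [mul_div_cancel₀ _ (pow_ne_zero 2 hx0)] at k2
      rw [dist_eq_norm] at k2
      exact k2
  choose δ' hδ'0 hδ'1 using h2
  obtain ⟨δ₁, hδ₁, hm'⟩ := fin_min hδ'0
  obtain ⟨l, hl⟩ := hden (fun v => x v p) (min η δ₁) (lt_min hη hδ₁)
  obtain ⟨z', w', g1, g2⟩ := hh (fun v j => x v (p.succAbove j) / x v p)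
    (fun v => y v / x v p ^ 2) (fun v => by
      have hx0 := (k v).1
      have h3 := hxy v
      unfold onX at h3 ⊢
      have hch : CharZero (L v) := charZero_of_injective_ringHom (s v).injective
      rw [deh_map]
      have e2 : x v = x v p • ic p 1 (fun j => x v (p.succAbove j) / x v p) := by
        apply ic_ext p
        · simp [ic_same]
        · intro j
          simp only [Pi.smul_apply, ic_above, smul_eq_mul]
          rw [mul_div_cancel₀ _ hx0]
      rw [e2, hom_smul (hF.map _)] at h3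
      rw [div_pow, h3]
      field_simp) (fun v => ⟨fun j => (k v).2.1 j, (k v).2.2⟩) δ₁ hδ₁
  refine ⟨l • ic p 1 z', l ^ 2 * w', ?_, fun v => ⟨fun a => ?_, ?_⟩⟩
  · unfold onX at g1 ⊢
    rw [hom_smul hF, mul_pow, g1, deh_eval]
    ring
  · rcases Fin.eq_self_or_eq_succAbove p a with h | ⟨j, rfl⟩
    · rw [h, Pi.smul_apply, ic_same, smul_eq_mul, mul_one]
      exact (hl v).trans_le (min_le_left _ _)
    · rw [Pi.smul_apply, ic_above, smul_eq_mul, map_mul]
      exact (hδ'1 v (s v l) (fun j => s v (z' j)) (s v w')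
        ((hl v).trans_le ((min_le_right _ _).trans (hm' v)))
        (fun j => ((g2 v).1 j).trans_le (hm' v)) (((g2 v).2).trans_le (hm' v))).1 j
  · rw [map_mul, map_pow]
    exact (hδ'1 v (s v l) (fun j => s v (z' j)) (s v w')
        ((hl v).trans_le ((min_le_right _ _).trans (hm' v)))
        (fun j => ((g2 v).1 j).trans_le (hm' v)) (((g2 v).2).trans_le (hm' v))).2

/-- **Smooth quartics.** -/
theorem smooth_int {F : MvPolynomial (Fin (n + 1)) ℚ} (hF : F.IsHomogeneous 4)
    (hsm : Smooth (FC F)) (hn : 2 ≤ n) :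
    ∃ T : Set (Fin (n + 1) → ℚ), T.Finite ∧ ∀ (Z : Fin (n + 1) → ℚ) (w : ℚ), w ≠ 0 →
      w ^ 2 = MvPolynomial.eval Z F → (∀ t ∈ T, ∀ c : ℚ, Z ≠ c • t) →
      ∀ {ι : Type} [Finite ι] [Nonempty ι] {p : ι → ℕ} [∀ i, Fact (p i).Prime]
        (_ : Function.Injective p) (σ : ∀ i, ℚ →+* ℚ_[p i]) (τ : ℚ →+* ℝ),
        Pool.Agent.Y720.MZ.Int (Pool.Agent.Y720.MZ.sv σ τ) F Z w := by
  refine ⟨⋃ p : Fin (n + 1), (fun z => ic p 1 z) '' Exc F p,
    Set.finite_iUnion fun p => (Exc_finite hF hsm hn p).image _, ?_⟩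
  intro Z w hw hwZ hT ι _ _ q _ hinj σ τ
  have hZ : ∃ p, Z p ≠ 0 := by
    by_contra hc
    push Not at hc
    have h0 : Z = (0 : ℚ) • Z := by
      funext i
      simp [hc i]
    rw [h0, hom_smul hF] at hwZ
    apply hw
    have : w ^ 2 = 0 := by rw [hwZ]; ring
    exact pow_eq_zero_iff (two_ne_zero) |>.mp this
  obtain ⟨p, hp⟩ := hZ
  set z : Fin n → ℚ := fun j => Z (p.succAbove j) / Z p with hz
  have hZz : Z = Z p • ic p 1 z := by
    apply ic_ext p
    · simp [ic_same]
    · intro j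
      simp only [Pi.smul_apply, ic_above, smul_eq_mul, hz]
      rw [mul_div_cancel₀ _ hp]
  have hzE : z ∉ Exc F p := fun h => hT _ (Set.mem_iUnion.2 ⟨p, z, h, rfl⟩) _ hZz
  have hw2 : (w / Z p ^ 2) ^ 2 = MvPolynomial.eval z (deh F p) := by
    rw [deh_eval]
    rw [hZz, hom_smul hF] at hwZ
    rw [div_pow, hwZ]
    field_simp
  have hw0 : w / Z p ^ 2 ≠ 0 := div_ne_zero hw (pow_ne_zero _ hp)
  have he : MvPolynomial.eval (ic p 1 z) F ≠ 0 := by
    rw [← deh_eval, ← hw2]
    exact pow_ne_zero _ hw0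
  have hN : ∃ v u, NDP (deh F p) z v u := by
    by_contra hc
    push Not at hc
    exact hzE (exceptional hF p he hc)
  obtain ⟨v, u, hN⟩ := hN
  obtain ⟨u0, hu0⟩ := exists_dir hF hsm (by omega) p he
  obtain ⟨b, hb, hb'⟩ := dir_basis hN hu0 hw0 hw2
  refine int_cone (dn_all hinj σ τ) hF p hp (int_dirs hinj σ τ hb (fun k => Or.inr ⟨fun y => ?_, hb' k⟩)
    hw0 hw2)
  rw [lk_lp, deh_lp]
  exact lg_deg hF _ _

end Pool.Agent.Y718.X
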