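import Pool.Agent.Y718.FormsD

/-!
# Singular points of quartic forms from degenerate restrictions
-/

set_option autoImplicit false
set_option linter.unusedSectionVars false
set_option linter.unusedSimpArgs false

open MvPolynomial

namespace Pool.Agent.Y718.SF

variable {m : ℕ}

/-- the form has no singular point -/
def Smooth (F : MvPolynomial (Fin m) ℂ) : Prop :=
  ∀ y : Fin m → ℂ, (∀ i, eval y (pderiv i F) = 0) → y = 0

lemma c0_eq {K : Type*} [Field K] [CharZero K] {σ : Type*} (F : MvPolynomial σ K) (Z U : σ → K) :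
    (lg F Z U).coeff 0 = eval Z F := by
  rw [Polynomial.coeff_zero_eq_eval_zero, lg_eval, zero_smul, add_zero]

lemma sing {F : MvPolynomial (Fin m) ℂ} (hF : F.IsHomogeneous 4) (hsm : Smooth F)
    {Z y : Fin m → ℂ} (he : eval Z F ≠ 0) (hQ : gQ (lg F Z y) = 0)
    (hT : ∀ V, HasDerivAt (fun t : ℂ => gT (lg F Z (y + t • V))) 0 0) : y = 0 := by
  apply hsm y
  intro i
  set V : Fin m → ℂ := Pi.single i 1 with hV
  rw [← dd_single i F, ← hV]
  have h1 := (eval_deriv F y V).const_mul (64 * eval Z F ^ 3)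
  have h2 : (fun t : ℂ => 64 * eval Z F ^ 3 * eval (y + t • V) F) =
      fun t : ℂ => gQ (lg F Z (y + t • V)) ^ 2 - gT (lg F Z (y + t • V)) :=
    funext fun t => basic hF Z (y + t • V)
  rw [h2] at h1
  have h3 := ((gQ_diff F Z y V).hasDerivAt.pow 2).sub (hT V)
  have h4 := h1.unique h3
  rw [zero_smul, add_zero, hQ] at h4
  have h5 : (64 * eval Z F ^ 3) * eval y (dd V F) = 0 := by
    rw [h4]; simp
  rcases mul_eq_zero.mp h5 with h6 | h6
  · exfalso
    rcases mul_eq_zero.mp h6 with h7 | h7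
    · norm_num at h7
    · exact he (pow_eq_zero_iff (by norm_num) |>.mp h7)
  · exact h6

lemma exists_root_Q {F : MvPolynomial (Fin m) ℂ} (hF : F.IsHomogeneous 4) {Z : Fin m → ℂ}
    (he : eval Z F ≠ 0) (U : Fin m → ℂ) : ∃ l : ℂ, gQ (lg F Z (U + l • Z)) = 0 := by
  set e := eval Z F with hee
  obtain ⟨s, hs⟩ := IsAlgClosed.exists_pow_nat_eq
    ((4 * e * (lg F Z U).coeff 1) ^ 2 - 4 * (8 * e ^ 2) * gQ (lg F Z U)) (n := 2) (by norm_num)
  refine ⟨(-(4 * e * (lg F Z U).coeff 1) + s) / (2 * (8 * e ^ 2)), ?_⟩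
  rw [gQ_shift hF, c0_eq, ← hee]
  field_simp
  linear_combination hs

lemma gT_hom_deriv (F : MvPolynomial (Fin m) ℂ) (Z V : Fin m → ℂ) :
    HasDerivAt (fun t : ℂ => gT (lg F Z (t • V))) 0 0 := by
  have : (fun t : ℂ => gT (lg F Z (t • V))) = fun t => t ^ 4 * gT (lg F Z V) :=
    funext fun t => gT_smul F Z V t
  rw [this]
  have h := (hasDerivAt_pow 4 (0 : ℂ)).mul_const (gT (lg F Z V))
  refine h.congr_deriv ?_
  norm_num

/-- the first degenerate case -/
theorem case_one {F : MvPolynomial (Fin m) ℂ} (hF : F.IsHomogeneous 4) (hsm : Smooth F)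
    {Z H : Fin m → ℂ} (he : eval Z F ≠ 0) (hB : ∀ U, gB (lg F Z U) = 0)
    (hpz : ∀ U, pz F Z U H = 0) (hH : ∀ l : ℂ, H + l • Z ≠ 0) : False := by
  have hpd : ∀ U, pd F Z U H = 0 := by
    intro U
    have h1 := gB_deriv F Z U H 0
    rw [zero_smul, add_zero] at h1
    have h2 : (fun t : ℂ => gB (lg F Z (U + t • H))) = fun _ => 0 := funext fun t => hB _
    rw [h2] at h1
    exact h1.unique (hasDerivAt_const _ _)
  have hpt : ∀ U, pt F Z U H = 0 := by
    intro U
    rw [rel3, hB, hpz, hpd]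
    ring
  have hTH : ∀ U, gT (lg F Z (U + H)) = gT (lg F Z U) := by
    intro U
    have h1 : ∀ a : ℂ, HasDerivAt (fun t : ℂ => gT (lg F Z (U + t • H))) 0 a := by
      intro a
      have := gT_deriv F Z U H a
      rwa [hpt] at this
    have h2 := is_const_of_deriv_eq_zero (f := fun t : ℂ => gT (lg F Z (U + t • H)))
      (fun a => (h1 a).differentiableAt) (fun a => (h1 a).deriv) 1 0
    simpa using h2
  have hTZ : ∀ U (l : ℂ), gT (lg F Z (U + l • Z)) = gT (lg F Z U) := by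
    intro U l
    rw [gT_shift hF, hB]
    ring
  obtain ⟨l, hl⟩ := exists_root_Q hF he H
  refine hH l (sing hF hsm he hl ?_)
  intro V
  have : (fun t : ℂ => gT (lg F Z (H + l • Z + t • V))) = fun t : ℂ => gT (lg F Z (t • V)) := by
    funext t
    have e : H + l • Z + t • V = (t • V + H) + l • Z := by abel
    rw [e, hTZ, hTH]
  rw [this]
  exact gT_hom_deriv F Z V

/-- products with vanishing factors -/
lemma prod_deriv {F : MvPolynomial (Fin m) ℂ} {Z y : Fin m → ℂ} {ℓ : (Fin m → ℂ) →ₗ[ℂ] ℂ}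
    (hT : ∀ U, gT (lg F Z U) = ℓ U * gB (lg F Z U)) (V : Fin m → ℂ) :
    HasDerivAt (fun t : ℂ => gT (lg F Z (y + t • V))) (ℓ V * gB (lg F Z y) + ℓ y * pd F Z y V) 0 := by
  have h1 := gB_deriv F Z y V 0
  rw [zero_smul, add_zero] at h1
  have h2 : HasDerivAt (fun t : ℂ => ℓ (y + t • V)) (ℓ V) 0 := by
    have : (fun t : ℂ => ℓ (y + t • V)) = fun t => ℓ y + t * ℓ V := by
      funext t; rw [map_add, map_smul, smul_eq_mul]
    rw [this]
    simpa using ((hasDerivAt_id (0 : ℂ)).mul_const (ℓ V)).const_add (ℓ y)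
  have h3 : (fun t : ℂ => gT (lg F Z (y + t • V))) = fun t => ℓ (y + t • V) * gB (lg F Z (y + t • V)) :=
    funext fun t => hT _
  rw [h3]
  refine (h2.mul h1).congr_deriv ?_
  simp

/-- the linear factor at the base point -/
lemma ell_Z {F : MvPolynomial (Fin m) ℂ} (hF : F.IsHomogeneous 4) {Z : Fin m → ℂ}
    {ℓ : (Fin m → ℂ) →ₗ[ℂ] ℂ} (hT : ∀ U, gT (lg F Z U) = ℓ U * gB (lg F Z U))
    (hB : ∃ U, gB (lg F Z U) ≠ 0) : ℓ Z = -8 * eval Z F := by
  obtain ⟨U, hU⟩ := hB
  have h1 := gT_shift hF Z U 1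
  rw [hT, hT, gB_shift hF, map_add, map_smul, smul_eq_mul, c0_eq] at h1
  have h2 : (ℓ Z - -8 * eval Z F) * gB (lg F Z U) = 0 := by linear_combination h1
  rcases mul_eq_zero.mp h2 with h3 | h3
  · exact sub_eq_zero.mp h3
  · exact absurd h3 hU

/-- a point where the cubic covariant vanishes to the second order -/
lemma dsing {F : MvPolynomial (Fin m) ℂ} (hF : F.IsHomogeneous 4) (hsm : Smooth F)
    {Z : Fin m → ℂ} (he : eval Z F ≠ 0) {ℓ : (Fin m → ℂ) →ₗ[ℂ] ℂ}
    (hT : ∀ U, gT (lg F Z U) = ℓ U * gB (lg F Z U)) {U0 : Fin m → ℂ}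
    (h0 : gB (lg F Z U0) = 0) (hpd : ∀ V, pd F Z U0 V = 0) (hU0 : ∀ l : ℂ, U0 + l • Z ≠ 0) : False := by
  obtain ⟨l, hl⟩ := exists_root_Q hF he U0
  refine hU0 l (sing hF hsm he hl ?_)
  intro V
  refine (prod_deriv hT V).congr_deriv ?_
  have h1 : gB (lg F Z (U0 + l • Z)) = 0 := by rw [gB_shift hF, h0]
  have h2 : pd F Z (U0 + l • Z) V = 0 := by
    have h3 := gB_deriv F Z (U0 + l • Z) V 0
    rw [zero_smul, add_zero] at h3
    have h4 : (fun t : ℂ => gB (lg F Z (U0 + l • Z + t • V))) = fun t => gB (lg F Z (U0 + t • V)) := by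
      funext t
      have e : U0 + l • Z + t • V = (U0 + t • V) + l • Z := by abel
      rw [e, gB_shift hF]
    rw [h4] at h3
    have h5 := gB_deriv F Z U0 V 0
    rw [zero_smul, add_zero, hpd] at h5
    exact h3.unique h5
  rw [h1, h2]
  ring

/-- at least four variables: the quartic covariant is not a multiple of the cubic one -/
theorem no_linear_four {F : MvPolynomial (Fin m) ℂ} (hF : F.IsHomogeneous 4) (hsm : Smooth F)
    (hm : 4 ≤ m) {Z : Fin m → ℂ} (he : eval Z F ≠ 0) (ℓ : (Fin m → ℂ) →ₗ[ℂ] ℂ)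
    (hT : ∀ U, gT (lg F Z U) = ℓ U * gB (lg F Z U)) : False := by
  have hPB : PK (fun U : Fin m → ℂ => gB (lg F Z U)) := by
    have h := PKu_coeff F Z
    exact (((h 1).pow 3).sub ((((PK.const 4).mul (h 0)).mul (h 1)).mul (h 2))).add
      (((PK.const 8).mul ((h 0).pow 2)).mul (h 3))
  have hPQ : PK (fun U : Fin m → ℂ => gQ (lg F Z U)) := by
    have h := PKu_coeff F Z
    exact (((PK.const 4).mul (h 0)).mul (h 2)).sub ((h 1).pow 2)
  have hPl : PK (fun U : Fin m → ℂ => ℓ U) := by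
    have : (fun U : Fin m → ℂ => ℓ U) = fun U => ∑ i, U i * ℓ (Pi.single i 1) := by
      funext U
      have e : U = ∑ i, U i • (Pi.single i 1 : Fin m → ℂ) := by
        funext j; simp [Finset.sum_apply, Pi.single_apply]
      conv_lhs => rw [e, map_sum]
      simp
    rw [this]
    exact PK.sum _ fun i _ => (PK.coord i).mul (PK.const _)
  obtain ⟨pB, hpB'⟩ := hPB
  obtain ⟨pQ, hpQ'⟩ := hPQ
  obtain ⟨pl, hpl'⟩ := hPl
  have hpB : ∀ v, gB (lg F Z v) = eval v pB := hpB'
  have hpQ : ∀ v, gQ (lg F Z v) = eval v pQ := hpQ'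
  have hpl : ∀ v, ℓ v = eval v pl := hpl'
  have hz : ∀ k, k ≠ 0 → (lg F Z (0 : Fin m → ℂ)).coeff k = 0 := by
    intro k hk
    have := smul_coeff F Z (0 : Fin m → ℂ) 0 k
    rw [zero_smul, zero_pow hk, mul_zero] at this
    exact this
  obtain ⟨y, hy, hS⟩ := exists_common_zero ({pB, pQ, pl} : Set (MvPolynomial (Fin m) ℂ))
    (by simp) (by
      have h1 := Set.ncard_insert_le pB ({pQ, pl} : Set (MvPolynomial (Fin m) ℂ))
      have h2 := Set.ncard_insert_le pQ ({pl} : Set (MvPolynomial (Fin m) ℂ))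
      rw [Set.ncard_singleton] at h2
      omega) (by
      intro P hP
      simp only [Set.mem_insert_iff, Set.mem_singleton_iff] at hP
      rcases hP with rfl | rfl | rfl
      · rw [← hpB, gB, hz 1 (by norm_num), hz 3 (by norm_num)]; ring
      · rw [← hpQ, gQ, hz 1 (by norm_num), hz 2 (by norm_num)]; ring
      · rw [← hpl, map_zero])
  have hyB : gB (lg F Z y) = 0 := by rw [hpB]; exact hS pB (by simp)
  have hyQ : gQ (lg F Z y) = 0 := by rw [hpQ]; exact hS pQ (by simp)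
  have hyl : ℓ y = 0 := by rw [hpl]; exact hS pl (by simp)
  refine hy (sing hF hsm he hyQ ?_)
  intro V
  refine (prod_deriv hT V).congr_deriv ?_
  rw [hyB, hyl]
  ring

end Pool.Agent.Y718.SF
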