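import Pool.Agent.Y718.Sing

/-!
# Plane quartic curves: the second degenerate case
-/

set_option autoImplicit false
set_option linter.unusedSectionVars false
set_option linter.unusedSimpArgs false

open MvPolynomial

namespace Pool.Agent.Y718.SF

lemma span3 {Z H U0 : Fin 3 → ℂ} (hZ : Z ≠ 0) (hH : ∀ l : ℂ, H + l • Z ≠ 0)
    (hU : ∀ a b : ℂ, U0 ≠ a • Z + b • H) (V : Fin 3 → ℂ) :
    ∃ a b c : ℂ, V = a • Z + b • H + c • U0 := by
  have hli : LinearIndependent ℂ ![Z, H, U0] := by
    rw [Fintype.linearIndependent_iff]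
    intro g hg
    simp only [Fin.sum_univ_three, Matrix.cons_val_zero, Matrix.cons_val_one, Matrix.cons_val_two,
      Matrix.head_cons, Matrix.tail_cons, Matrix.cons_val] at hg
    have h2 : g 2 = 0 := by
      by_contra h
      apply hU (-(g 0) / g 2) (-(g 1) / g 2)
      have : g 2 • U0 = (-(g 0)) • Z + (-(g 1)) • H := by
        have e : g 2 • U0 = (g 0 • Z + g 1 • H + g 2 • U0) + ((-(g 0)) • Z + (-(g 1)) • H) := by
          module
        rw [e, hg, zero_add]
      have h3 : U0 = (g 2)⁻¹ • (g 2 • U0) := by rw [smul_smul, inv_mul_cancel₀ h, one_smul]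
      rw [h3, this, smul_add, smul_smul, smul_smul]
      congr 2 <;> · rw [div_eq_mul_inv, mul_comm]
    rw [h2, zero_smul, add_zero] at hg
    have h1 : g 1 = 0 := by
      by_contra h
      apply hH (g 0 / g 1)
      have : H + (g 0 / g 1) • Z = (g 1)⁻¹ • (g 0 • Z + g 1 • H) := by
        rw [smul_add, smul_smul, smul_smul, inv_mul_cancel₀ h, one_smul, div_eq_mul_inv,
          mul_comm (g 0), add_comm]
      rw [this, hg, smul_zero]
    rw [h1, zero_smul, add_zero] at hg
    have h0 : g 0 = 0 := (smul_eq_zero.mp hg).resolve_right hZ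
    intro i
    fin_cases i
    · exact h0
    · exact h1
    · exact h2
  let b := basisOfLinearIndependentOfCardEqFinrank hli (by simp)
  have hb := b.sum_repr V
  refine ⟨b.repr V 0, b.repr V 1, b.repr V 2, ?_⟩
  rw [Fin.sum_univ_three] at hb
  have hbc : ∀ i, b i = ![Z, H, U0] i := fun i => by
    simp only [b, coe_basisOfLinearIndependentOfCardEqFinrank]
  rw [hbc, hbc, hbc] at hb
  simpa using hb.symm

lemma exists_out (Z H : Fin 3 → ℂ) : ∃ W : Fin 3 → ℂ, ∀ a b : ℂ, W ≠ a • Z + b • H := by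
  by_contra hcon
  push Not at hcon
  have htop : Submodule.span ℂ (Set.range ![Z, H]) = ⊤ := by
    rw [Submodule.eq_top_iff']
    intro W
    obtain ⟨a, b, h⟩ := hcon W
    rw [h]
    refine Submodule.add_mem _ (Submodule.smul_mem _ _ (Submodule.subset_span ⟨0, rfl⟩))
      (Submodule.smul_mem _ _ (Submodule.subset_span ⟨1, rfl⟩))
  have h1 := finrank_range_le_card (R := ℂ) (b := ![Z, H])
  rw [Set.finrank, htop, finrank_top, Module.finrank_fin_fun] at h1
  simp at h1

/-- polynomial functions along lines -/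
lemma PK.poly {K : Type*} [Field K] {σ : Type*} {g : (σ → K) → K} (hg : PK g) (a b : σ → K) :
    ∃ P : Polynomial K, ∀ t, P.eval t = g (a + t • b) := by
  obtain ⟨p, hp⟩ := hg
  refine ⟨lg p a b, fun t => ?_⟩
  rw [lg_eval, hp]

lemma PKu_gB {K : Type*} [Field K] [CharZero K] {σ : Type*} (F : MvPolynomial σ K) (Z : σ → K) :
    PK (fun U : σ → K => gB (lg F Z U)) := by
  have h := PKu_coeff F Z
  exact (((h 1).pow 3).sub ((((PK.const 4).mul (h 0)).mul (h 1)).mul (h 2))).add
    (((PK.const 8).mul ((h 0).pow 2)).mul (h 3))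

lemma coeff4_dd {m : ℕ} {F : MvPolynomial (Fin m) ℂ} (hF : F.IsHomogeneous 4) (Z U V : Fin m → ℂ) :
    (lg (dd V F) Z U).coeff 4 = 0 := by
  have h1 := deriv_Z F Z U V 0 4
  rw [zero_smul, add_zero] at h1
  have h2 : (fun t : ℂ => (lg F (Z + t • V) U).coeff 4) = fun _ => eval U F :=
    funext fun t => coeff_four hF _ _
  rw [h2] at h1
  exact h1.unique (hasDerivAt_const _ _)

/-- the second degenerate case -/
theorem case_two {F : MvPolynomial (Fin 3) ℂ} (hF : F.IsHomogeneous 4) (hsm : Smooth F)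
    {Z H : Fin 3 → ℂ} (he : eval Z F ≠ 0) (ℓ : (Fin 3 → ℂ) →ₗ[ℂ] ℂ)
    (hT : ∀ U, gT (lg F Z U) = ℓ U * gB (lg F Z U)) (hB : ∃ U, gB (lg F Z U) ≠ 0)
    (hH : ∀ l : ℂ, H + l • Z ≠ 0)
    (htan : ∀ U, gB (lg F Z U) = 0 → zt F Z U H = ℓ U * pz F Z U H) : False := by
  have hZ0 : Z ≠ 0 := by
    rintro rfl
    have h1 := hom_smul hF 0 (0 : Fin 3 → ℂ)
    rw [zero_smul] at h1
    apply he
    rw [h1]; ring
  have hlZ := ell_Z hF hT hB
  -- directional derivatives in the direction of the base point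
  have hpdZ : ∀ U, pd F Z U Z = 0 := by
    intro U
    have h1 := gB_deriv F Z U Z 0
    rw [zero_smul, add_zero] at h1
    have h2 : (fun t : ℂ => gB (lg F Z (U + t • Z))) = fun _ => gB (lg F Z U) :=
      funext fun t => gB_shift hF _ _ _
    rw [h2] at h1
    exact h1.unique (hasDerivAt_const _ _)
  have hpdU : ∀ U, gB (lg F Z U) = 0 → pd F Z U U = 0 := by
    intro U hU
    have h1 := gB_deriv F Z U U 0
    rw [zero_smul, add_zero] at h1
    have h2 : (fun t : ℂ => gB (lg F Z (U + t • U))) = fun _ => 0 := by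
      funext t
      have e : U + t • U = (1 + t) • U := by rw [add_smul, one_smul]
      rw [e, gB_smul, hU, mul_zero]
    rw [h2] at h1
    exact h1.unique (hasDerivAt_const _ _)
  -- the derivative in the direction `H` at the zeros
  have hpdH : ∀ U0, gB (lg F Z U0) = 0 → (∀ l : ℂ, U0 + l • Z ≠ 0) → pd F Z U0 H = 0 := by
    intro U0 h0 hU0
    have h3 := rel3 F Z U0 H
    have h4 := rel4 F Z U0 H (coeff4_dd hF Z U0 H)
    rw [h0] at h3
    rw [hT, h0, htan U0 h0, c0_eq] at h4
    rw [c0_eq F Z U0] at h3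
    have h5 : pt F Z U0 H = ℓ U0 * pd F Z U0 H := by
      have h6 := gT_deriv F Z U0 H 0
      rw [zero_smul, add_zero] at h6
      have h7 := h6.unique (prod_deriv hT H)
      rw [h7, h0]; ring
    rw [h5] at h3
    have h8 : pd F Z U0 H * (8 * gQ (lg F Z U0) + 4 * (lg F Z U0).coeff 1 * ℓ U0 + ℓ U0 ^ 2) = 0 := by
      linear_combination (-8) * h4 + ℓ U0 * h3
    rcases mul_eq_zero.mp h8 with h9 | h9
    · exact h9
    · exfalso
      have hQ : gQ (lg F Z (U0 + (ℓ U0 / (8 * eval Z F)) • Z)) = 0 := by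
        rw [gQ_shift hF, c0_eq]
        field_simp
        linear_combination h9
      have hl : ℓ (U0 + (ℓ U0 / (8 * eval Z F)) • Z) = 0 := by
        rw [map_add, map_smul, hlZ, smul_eq_mul]
        field_simp
        ring
      refine hU0 _ (sing hF hsm he hQ fun V => ?_)
      refine (prod_deriv hT V).congr_deriv ?_
      rw [hl, gB_shift hF, h0]
      ring
  -- no zeros outside the plane
  have hnz : ∀ U0, (∀ a b : ℂ, U0 ≠ a • Z + b • H) → gB (lg F Z U0) ≠ 0 := by
    intro U0 hU0 h0
    have hout : ∀ l : ℂ, U0 + l • Z ≠ 0 := by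
      intro l hl
      apply hU0 (-l) 0
      rw [zero_smul, add_zero, neg_smul]
      exact eq_neg_of_add_eq_zero_left hl
    refine dsing hF hsm he hT h0 ?_ hout
    intro V
    obtain ⟨a, b, c, hV⟩ := span3 hZ0 hH hU0 V
    have h1 := pd_lin F Z U0 (a • Z + b • H) 1 c U0
    rw [one_smul, pd_lin, hpdZ, hpdH U0 h0 hout, hpdU U0 h0] at h1
    rw [hV, h1]
    ring
  obtain ⟨W, hW⟩ := exists_out Z H
  -- the cubic form is constant along `W + t H`
  have hconst : ∀ t : ℂ, gB (lg F Z (W + t • H)) = gB (lg F Z W) := by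
    obtain ⟨P, hP⟩ := (PKu_gB F Z).poly W H
    have hroot : ∀ t, P.eval t ≠ 0 := by
      intro t ht
      rw [hP] at ht
      refine hnz (W + t • H) ?_ ht
      intro a b hab
      apply hW a (b - t)
      have : W = (W + t • H) - t • H := by abel
      rw [this, hab]
      module
    have hdeg : P.degree = 0 := by
      by_contra hne
      obtain ⟨t, ht⟩ := IsAlgClosed.exists_root P hne
      exact hroot t ht
    rw [Polynomial.eq_C_of_degree_eq_zero hdeg] at hP
    intro t
    have h1 := hP t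
    have h2 := hP 0
    rw [Polynomial.eval_C] at h1 h2
    rw [zero_smul, add_zero] at h2
    rw [← h1, ← h2]
  have hcube : ∀ s : ℂ, gB (lg F Z (H + s • W)) = s ^ 3 * gB (lg F Z W) := by
    obtain ⟨P, hP⟩ := (PKu_gB F Z).poly H W
    have hPe : P = Polynomial.C (gB (lg F Z W)) * Polynomial.X ^ 3 := by
      apply Polynomial.eq_of_infinite_eval_eq
      refine Set.Infinite.mono ?_ (Set.Finite.infinite_compl (Set.finite_singleton (0 : ℂ)))
      intro s hs
      have hs0 : s ≠ 0 := hs
      simp only [Set.mem_ofPred_eq]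
      rw [hP]
      have e : H + s • W = s • (W + s⁻¹ • H) := by
        rw [smul_add, smul_smul, mul_inv_cancel₀ hs0, one_smul, add_comm]
      rw [e, gB_smul, hconst]
      simp
      ring
    intro s
    have := hP s
    rw [hPe] at this
    rw [← this]
    simp
    ring
  have hH0 : gB (lg F Z H) = 0 := by
    have := hcube 0
    rw [zero_smul, add_zero] at this
    rw [this]; ring
  have hpdW : pd F Z H W = 0 := by
    have h1 := gB_deriv F Z H W 0
    rw [zero_smul, add_zero] at h1
    have h2 : (fun t : ℂ => gB (lg F Z (H + t • W))) = fun t => t ^ 3 * gB (lg F Z W) :=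
      funext fun t => hcube t
    rw [h2] at h1
    have h3 := (hasDerivAt_pow 3 (0 : ℂ)).mul_const (gB (lg F Z W))
    rw [h1.unique h3]
    norm_num
  refine dsing hF hsm he hT hH0 ?_ hH
  intro V
  obtain ⟨a, b, c, hV⟩ := span3 hZ0 hH hW V
  have h1 := pd_lin F Z H (a • Z + b • H) 1 c W
  rw [one_smul, pd_lin, hpdZ, hpdU H hH0, hpdW] at h1
  rw [hV, h1]
  ring

end Pool.Agent.Y718.SF
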