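import Pool.Agent.TH729.BQ.R6
import Pool.Agent.Y718.FinE
import Pool.Agent.Y718.Quart
import Pool.Agent.Y718.Gen2
import Pool.Agent.Y718.GX

/-!
# Sets of values with algebraic suprema
-/

set_option autoImplicit false

open MvPolynomial Pool.Agent.TH729.SQ Pool.Agent.H581R2

namespace Pool.Agent.Y718.SupL

/-- cylinders -/
lemma cyl_rl {τ τ' : Type} [Finite τ] [Finite τ'] {D : Set (τ → ℚ)} (hD : SA (closure (rl D)))
    {e : τ → τ'} (he : Function.Injective e) :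
    SA (closure (rl {y : τ' → ℚ | (fun i => y (e i)) ∈ D})) := by
  rw [Pool.Agent.TH729.BQ.rl_eq] at hD ⊢
  exact Pool.Agent.TH729.BQ.cyl_SA (Rat.castHom ℝ) hD he

/-- values of one rational function -/
theorem vals {ι κ : Type} [Finite ι] [Finite κ] {n : Type} [Finite n] {S : ι → Set (n → ℚ)}
    (hS : ∀ j, SA (closure (rl (S j)))) (p q : MvPolynomial ((ι × n) ⊕ κ) ℚ) {D : Set ℚ}
    (hD : D = {t | ∃ (x : ι → n → ℚ) (u : κ → ℚ), (∀ j, x j ∈ S j) ∧
          eval (Sum.elim (fun r => x r.1 r.2) u) q ≠ 0 ∧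
          t = eval (Sum.elim (fun r => x r.1 r.2) u) p /
            eval (Sum.elim (fun r => x r.1 r.2) u) q}) :
    (frontier (closure (((↑) : ℚ → ℝ) '' D))).Finite ∧
      (∀ x ∈ frontier (closure (((↑) : ℚ → ℝ) '' D)), IsAlgebraic ℚ x) ∧
      (D.Nonempty → BddAbove (((↑) : ℚ → ℝ) '' D) →
        IsAlgebraic ℚ (sSup (((↑) : ℚ → ℝ) '' D))) :=
  Pool.Agent.TH729.BQ.vals_line (fun j => by rw [← Pool.Agent.TH729.BQ.rl_eq]; exact hS j) p q hD

/-- the values of one coordinate -/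
theorem coord {n : Type} [Finite n] {S : Set (n → ℚ)} (hS : SA (closure (rl S))) (i : n)
    {Y : Set ℚ} (hY : ∀ x : ℚ, x ∈ Y ↔ ∃ y ∈ S, y i = x) (hne : Y.Nonempty)
    (hb : BddAbove (((↑) : ℚ → ℝ) '' Y)) : ¬ Transcendental ℚ (sSup (((↑) : ℚ → ℝ) '' Y)) := by
  have h2 := (vals (ι := Unit) (κ := Empty) (S := fun _ => S) (fun _ => hS)
    (X (Sum.inl ((), i))) 1 (D := Y) ?_).2.2 hne hb
  · exact fun h => h h2
  · ext t
    rw [hY]
    constructor
    · rintro ⟨y, hy1, hy2⟩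
      exact ⟨fun _ => y, fun s => s.elim, fun _ => hy1, by simp, by simp [hy2]⟩
    · rintro ⟨x, u, hx, -, ht⟩
      exact ⟨x (), hx (), by simp [ht]⟩

end Pool.Agent.Y718.SupL
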