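import Pool.Agent.TH954.NA

/-!
# The kernel of reduction is torsion free

For a short integral Weierstrass equation over `ℚ_p`, a point with non-integral `x`-coordinate has
infinite order.
-/

set_option autoImplicit false
set_option linter.unusedSectionVars false

open WeierstrassCurve Pool.Agent.TH954

namespace Pool.Agent.Y718

section

variable {F : Type} [Field F] {W : WeierstrassCurve F} [DecidableEq F]

/-- the chord relations for a sum, with the `y`-coordinate -/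
lemma chordAdd (hW : Short W) (h2 : (2 : F) ≠ 0) {x1 y1 x2 y2 X Y : F}
    {n1 : W.toAffine.Nonsingular x1 y1}
    {n2 : W.toAffine.Nonsingular x2 y2} {n3 : W.toAffine.Nonsingular X Y}
    (h : Affine.Point.some x1 y1 n1 + Affine.Point.some x2 y2 n2 = Affine.Point.some X Y n3) :
    ∃ l ν : F, y1 = l * x1 + ν ∧ y2 = l * x2 + ν ∧ -Y = l * X + ν ∧
      x1 + x2 + X = l ^ 2 ∧ x1 * x2 + x1 * X + x2 * X = W.a₄ - 2 * l * ν ∧
      x1 * x2 * X = ν ^ 2 - W.a₆ := by
  have e1 := hW.eqn n1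
  have e2 := hW.eqn n2
  have key : ∃ l : F, l * (x1 - x2) = y1 - y2 ∧ l * (y1 + y2) = x1 ^ 2 + x1 * x2 + x2 ^ 2 + W.a₄ ∧
      X = l ^ 2 - x1 - x2 ∧ Y = -(l * (X - x1) + y1) := by
    by_cases hx : x1 = x2
    · subst hx
      obtain ⟨hy, hy0, hX⟩ := hW.add_eq h
      subst hy
      have h2y : 2 * y1 ≠ 0 := mul_ne_zero h2 hy0
      have hy' : y1 ≠ W.toAffine.negY x1 y1 := by
        rw [hW.negY]
        intro hh
        apply h2y
        linear_combination hh
      rw [Affine.Point.add_self_of_Y_ne hy', Affine.Point.some.injEq] at h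
      obtain ⟨hX', hY'⟩ := h
      rw [Affine.slope_of_Y_ne rfl hy'] at hX' hY'
      rw [Affine.addY, hW.negY, Affine.negAddY, hX'] at hY'
      have e3' : y1 - W.toAffine.negY x1 y1 = 2 * y1 := by rw [hW.negY]; ring
      rw [e3', hW.h1, hW.h2] at hY'
      refine ⟨(3 * x1 ^ 2 + W.a₄) / (2 * y1), ?_, ?_, ?_, ?_⟩
      · ring
      · have : y1 + y1 = 2 * y1 := by ring
        rw [this, div_mul_cancel₀ _ h2y]
        ring
      · rw [hX]
        ring
      · rw [← hY']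
        ring
    · have hD : x1 - x2 ≠ 0 := sub_ne_zero.mpr hx
      have hX := hW.add_ne h hx
      rw [Affine.Point.add_of_X_ne hx, Affine.Point.some.injEq] at h
      obtain ⟨hX', hY'⟩ := h
      rw [Affine.slope_of_X_ne hx] at hX' hY'
      rw [Affine.addY, hW.negY, Affine.negAddY, hX'] at hY'
      refine ⟨(y1 - y2) / (x1 - x2), div_mul_cancel₀ _ hD, ?_, hX, hY'.symm⟩
      field_simp
      linear_combination e1 - e2
  obtain ⟨l, h1, h3, h4, h5⟩ := key
  have k1 : X + x1 + x2 = l ^ 2 := by rw [h4]; ring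
  have k2 : x1 * x2 + x1 * X + x2 * X = W.a₄ - 2 * l * (y1 - l * x1) := by
    linear_combination (x1 + x2) * k1 + h3 - l * h1
  refine ⟨l, y1 - l * x1, by ring, by linear_combination h1, by rw [h5]; ring,
    by linear_combination k1, k2, ?_⟩
  linear_combination x1 * k2 - x1 ^ 2 * k1 - e1

end

section

variable {L : Type} [NormedField L] [IsUltrametricDist L] [DecidableEq L] {W : WeierstrassCurve L}

/-- the local parameter -/
noncomputable def zp : W.toAffine.Point → L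
  | .zero => 0
  | .some x y _ => x / y

omit [IsUltrametricDist L] [DecidableEq L] in
lemma zp_zero : zp (0 : W.toAffine.Point) = 0 := rfl

lemma zp_neg (hW : Short W) (T : W.toAffine.Point) : zp (-T) = -zp T := by
  match T with
  | .zero =>
    have : -(Affine.Point.zero : W.toAffine.Point) = Affine.Point.zero := neg_zero
    rw [this]
    simp [zp]
  | .some x y h =>
    rw [hW.neg_some]
    simp only [zp]
    rw [div_neg]

/-- near the origin the local parameter is additive up to third order -/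
lemma zp_add (hW : SI W) (h2 : (2 : L) ≠ 0) {R : ℝ} (hR : 1 < R) {T1 T2 : W.toAffine.Point}
    (hT1 : Big R T1) (hT2 : Big R T2) : ‖zp (T1 + T2) - zp T1 - zp T2‖ ^ 2 * R ^ 3 ≤ 1 := by
  match T1, T2 with
  | .zero, T2 =>
    have : (Affine.Point.zero : W.toAffine.Point) + T2 = T2 := zero_add T2
    rw [this]
    simp [zp]
  | .some x1 y1 n1, .zero =>
    have : Affine.Point.some x1 y1 n1 + (Affine.Point.zero : W.toAffine.Point) =
      Affine.Point.some x1 y1 n1 := add_zero _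
    rw [this]
    simp [zp]
  | .some x1 y1 n1, .some x2 y2 n2 =>
    have hB3 := hW.big_add h2 hR hT1 hT2
    generalize hT3 : Affine.Point.some x1 y1 n1 + Affine.Point.some x2 y2 n2 = T3 at hB3
    match T3 with
    | .zero =>
      have h0 : Affine.Point.some x2 y2 n2 = -Affine.Point.some x1 y1 n1 := by
        have : Affine.Point.some x1 y1 n1 + Affine.Point.some x2 y2 n2 = 0 := hT3
        exact (neg_eq_of_add_eq_zero_right this).symm
      rw [h0, zp_neg hW.toShort]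
      simp [zp]
    | .some X Y n3 =>
      obtain ⟨l, ν, a1, a2, a3, b1, b2, b3⟩ := chordAdd hW.toShort h2 hT3
      have r1 := big_some.mp hT1
      have r2 := big_some.mp hT2
      have r3 := big_some.mp hB3
      have g1 : 1 < ‖x1‖ := hR.trans_le r1
      have g2 : 1 < ‖x2‖ := hR.trans_le r2
      have g3 : 1 < ‖X‖ := hR.trans_le r3
      have y1n := hW.norm_y_eq n1 g1
      have y2n := hW.norm_y_eq n2 g2
      have y3n := hW.norm_y_eq n3 g3
      have y1p := hW.norm_y_pos n1 g1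
      have y2p := hW.norm_y_pos n2 g2
      have y3p := hW.norm_y_pos n3 g3
      have y10 : y1 ≠ 0 := norm_pos_iff.mp y1p
      have y20 : y2 ≠ 0 := norm_pos_iff.mp y2p
      have y30 : Y ≠ 0 := norm_pos_iff.mp y3p
      -- the size of ν
      have hxxx : ‖x1 * x2 * X‖ = ‖x1‖ * ‖x2‖ * ‖X‖ := by rw [norm_mul, norm_mul]
      have hgt : R * R * R ≤ ‖x1‖ * ‖x2‖ * ‖X‖ := by gcongr
      have hR3 : 1 < R * R * R := by nlinarith
      have hν : ‖ν‖ ^ 2 = ‖x1‖ * ‖x2‖ * ‖X‖ := by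
        rw [← norm_pow, ← hxxx]
        have : ν ^ 2 = x1 * x2 * X + W.a₆ := by rw [b3]; ring
        rw [this, uadd_eq]
        rw [hxxx]
        exact hW.hb.trans_lt (by linarith)
      have hl : ‖l‖ ^ 2 * R ^ 2 ≤ ‖ν‖ ^ 2 := by
        have hl' : ‖l‖ ^ 2 ≤ max (max ‖x1‖ ‖x2‖) ‖X‖ := by
          rw [← norm_pow, ← b1]
          exact (IsUltrametricDist.norm_add_le_max _ _).trans
            (max_le_max_right _ (IsUltrametricDist.norm_add_le_max _ _))
        rw [hν]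
        refine (mul_le_mul_of_nonneg_right hl' (by positivity)).trans ?_
        rcases max_choice (max ‖x1‖ ‖x2‖) ‖X‖ with hm | hm
        · rw [hm]
          rcases max_choice ‖x1‖ ‖x2‖ with hm' | hm'
          · rw [hm']
            calc ‖x1‖ * R ^ 2 = ‖x1‖ * R * R := by ring
              _ ≤ ‖x1‖ * ‖x2‖ * ‖X‖ := by gcongr
          · rw [hm']
            calc ‖x2‖ * R ^ 2 = R * ‖x2‖ * R := by ring
              _ ≤ ‖x1‖ * ‖x2‖ * ‖X‖ := by gcongr
        · rw [hm]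
          calc ‖X‖ * R ^ 2 = R * R * ‖X‖ := by ring
            _ ≤ ‖x1‖ * ‖x2‖ * ‖X‖ := by gcongr
      have hν3 : R ^ 3 ≤ ‖ν‖ ^ 2 := by rw [hν]; calc R ^ 3 = R * R * R := by ring
            _ ≤ _ := hgt
      have hνp : 0 < ‖ν‖ := by
        by_contra hc
        have : ‖ν‖ = 0 := le_antisymm (not_lt.mp hc) (norm_nonneg _)
        rw [this] at hν3
        have : 0 < R ^ 3 := by positivity
        linarith
      have hl1 : ‖l‖ * R ≤ ‖ν‖ := by
        have : (‖l‖ * R) ^ 2 ≤ ‖ν‖ ^ 2 := by rw [mul_pow]; exact hl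
        exact le_of_sq_le_sq this (norm_nonneg _)
      have hlν : ‖l‖ ≤ ‖ν‖ := by nlinarith [norm_nonneg l]
      -- the product of the y
      have hyyy : (‖y1‖ * ‖y2‖ * ‖Y‖) ^ 2 = (‖ν‖ ^ 3) ^ 2 := by
        calc (‖y1‖ * ‖y2‖ * ‖Y‖) ^ 2 = ‖y1‖ ^ 2 * ‖y2‖ ^ 2 * ‖Y‖ ^ 2 := by ring
          _ = (‖x1‖ * ‖x2‖ * ‖X‖) ^ 3 := by rw [y1n, y2n, y3n]; ring
          _ = (‖ν‖ ^ 3) ^ 2 := by rw [← hν]; ring
      have hyyy' : ‖y1‖ * ‖y2‖ * ‖Y‖ = ‖ν‖ ^ 3 :=
        (pow_left_inj₀ (by positivity) (by positivity) (by norm_num)).mp hyyy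
      have hsum : zp (Affine.Point.some X Y n3) - zp (Affine.Point.some x1 y1 n1) -
          zp (Affine.Point.some x2 y2 n2) =
          (2 * W.a₄ * l * ν - 3 * W.a₆ * l ^ 2) / (y1 * y2 * Y) := by
        simp only [zp]
        have a3' : Y = -(l * X + ν) := by rw [← a3]; ring
        field_simp
        rw [a1, a2, a3']
        have c1 : x1 + x2 + X = l ^ 2 := b1
        linear_combination (3 * l ^ 2) * b3 + (2 * l * ν) * b2 + ν ^ 2 * b1
      rw [hsum, norm_div, norm_mul (y1 * y2), norm_mul y1, hyyy', div_pow, div_mul_eq_mul_div,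
        div_le_one (by positivity)]
      have hnum : ‖2 * W.a₄ * l * ν - 3 * W.a₆ * l ^ 2‖ ≤ ‖ν‖ ^ 2 := by
        refine usub ?_ ?_
        · have : 2 * W.a₄ * l * ν = (2 * W.a₄) * (l * ν) := by ring
          rw [this]
          refine umul (umul u2 hW.ha) ?_
          rw [norm_mul, sq]
          gcongr
        · rw [norm_mul]
          have h3 : ‖3 * W.a₆‖ ≤ 1 := umul u3 hW.hb
          calc ‖3 * W.a₆‖ * ‖l ^ 2‖ ≤ 1 * ‖l ^ 2‖ := by gcongr
            _ = ‖l‖ ^ 2 := by rw [one_mul, norm_pow]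
            _ ≤ ‖ν‖ ^ 2 := by gcongr
      calc ‖2 * W.a₄ * l * ν - 3 * W.a₆ * l ^ 2‖ ^ 2 * R ^ 3 ≤ (‖ν‖ ^ 2) ^ 2 * ‖ν‖ ^ 2 := by gcongr
        _ = (‖ν‖ ^ 3) ^ 2 := by ring

lemma zp_nsmul (hW : SI W) (h2 : (2 : L) ≠ 0) {R : ℝ} (hR : 1 < R) {T : W.toAffine.Point}
    (hT : Big R T) (n : ℕ) : ‖zp (n • T) - n * zp T‖ ^ 2 * R ^ 3 ≤ 1 := by
  have hR3 : 0 < R ^ 3 := by positivity
  have key : ∀ u : L, ‖u‖ ^ 2 * R ^ 3 ≤ 1 ↔ ‖u‖ ≤ Real.sqrt (1 / R ^ 3) := by
    intro u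
    rw [Real.le_sqrt (norm_nonneg _) , le_div_iff₀ hR3]
    positivity
  induction n with
  | zero => rw [zero_smul, zp_zero]; simp
  | succ n ih =>
    have h1 := zp_add hW h2 hR (hW.big_nsmul h2 hR hT n) hT
    rw [key] at h1 ih ⊢
    have : zp ((n + 1) • T) - ((n + 1 : ℕ) : L) * zp T =
        (zp (n • T + T) - zp (n • T) - zp T) + (zp (n • T) - n * zp T) := by
      rw [succ_nsmul]
      push_cast
      ring
    rw [this]
    exact uadd h1 ih

end

section

variable {p : ℕ} [hp : Fact p.Prime] [DecidableEq ℚ_[p]] {W : WeierstrassCurve ℚ_[p]}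

/-- a point with non-integral abscissa has infinite order -/
theorem no_torsion (hW : SI W) {x y : ℚ_[p]} (h : W.toAffine.Nonsingular x y) (hx : 1 < ‖x‖)
    {n : ℕ} (hn : n ≠ 0) : n • (Affine.Point.some x y h) ≠ 0 := by
  have h2 : (2 : ℚ_[p]) ≠ 0 := two_ne_zero
  intro h0
  set T := Affine.Point.some x y h with hT
  have hfin : IsOfFinAddOrder T := isOfFinAddOrder_iff_nsmul_eq_zero.mpr ⟨n, Nat.pos_of_ne_zero hn, h0⟩
  have hm0 : 0 < addOrderOf T := hfin.addOrderOf_pos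
  have hm1 : addOrderOf T ≠ 1 := by
    intro h1
    rw [AddMonoid.addOrderOf_eq_one_iff] at h1
    exact Affine.Point.some_ne_zero h h1
  obtain ⟨ℓ, hℓ, k, hk⟩ := Nat.exists_prime_and_dvd hm1
  have hk0 : k ≠ 0 := by rintro rfl; omega
  have hkT : k • T ≠ 0 := by
    intro hh
    have := addOrderOf_dvd_iff_nsmul_eq_zero.mpr hh
    have h3 := Nat.le_of_dvd (Nat.pos_of_ne_zero hk0) this
    rw [hk] at h3
    have := hℓ.two_le
    nlinarith [Nat.pos_of_ne_zero hk0]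
  have hℓT : ℓ • (k • T) = 0 := by
    rw [smul_smul, ← hk, addOrderOf_nsmul_eq_zero]
  have hBT : Big ‖x‖ T := big_some.mpr le_rfl
  have hB := hW.big_nsmul h2 hx hBT k
  generalize hT' : k • T = T' at hkT hℓT hB
  match T' with
  | .zero => exact hkT rfl
  | .some x' y' h' =>
    have hx' : 1 < ‖x'‖ := hx.trans_le (big_some.mp hB)
    have hz := hW.norm_z h' hx'
    have hadd := zp_nsmul hW h2 hx' (big_some.mpr le_rfl : Big ‖x'‖ (Affine.Point.some x' y' h')) ℓ
    rw [hℓT, zp_zero, zero_sub, norm_neg, norm_mul] at hadd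
    have hzz : zp (Affine.Point.some x' y' h') = x' / y' := rfl
    rw [hzz] at hadd
    have h3 : (‖(ℓ : ℚ_[p])‖ * ‖x'‖) ^ 2 ≤ 1 := by
      calc (‖(ℓ : ℚ_[p])‖ * ‖x'‖) ^ 2 = ‖(ℓ : ℚ_[p])‖ ^ 2 * ‖x'‖ ^ 2 * (‖x' / y'‖ ^ 2 * ‖x'‖) := by
            rw [hz]; ring
        _ = (‖(ℓ : ℚ_[p])‖ * ‖x' / y'‖) ^ 2 * ‖x'‖ ^ 3 := by ring
        _ ≤ 1 := hadd
    have h4 : ‖(ℓ : ℚ_[p])‖ * ‖x'‖ ≤ 1 := by
      nlinarith [mul_nonneg (norm_nonneg (ℓ : ℚ_[p])) (norm_nonneg x')]
    -- the norm of z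
    have hz0 : ‖x' / y'‖ < 1 := by
      by_contra hc
      rw [not_lt] at hc
      have : 1 ≤ ‖x' / y'‖ ^ 2 := one_le_pow₀ hc
      nlinarith
    have hz1 : ‖x' / y'‖ ≤ (p : ℝ)⁻¹ := by
      have := (Padic.norm_le_pow_iff_norm_lt_pow_add_one (x' / y') (-1)).mpr (by simpa using hz0)
      simpa using this
    have hp0 : (0 : ℝ) < p := by exact_mod_cast hp.out.pos
    have hp1 : (1 : ℝ) < p := by exact_mod_cast hp.out.one_lt
    have hx2 : (p : ℝ) ^ 2 ≤ ‖x'‖ := by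
      have h5 : ‖x' / y'‖ ^ 2 ≤ ((p : ℝ)⁻¹) ^ 2 := by gcongr
      have h6 : 1 ≤ ((p : ℝ)⁻¹) ^ 2 * ‖x'‖ := by
        rw [← hz]
        gcongr
      have : (p : ℝ) ^ 2 * (((p : ℝ)⁻¹) ^ 2 * ‖x'‖) = ‖x'‖ := by
        field_simp
      rw [← this]
      nlinarith [sq_nonneg (p : ℝ)]
    have hℓp : (p : ℝ)⁻¹ ≤ ‖(ℓ : ℚ_[p])‖ := by
      by_cases hpl : ℓ = p
      · rw [hpl, Padic.norm_p]
      · have : ‖(ℓ : ℚ_[p])‖ = 1 := by
          have hnd : ¬ p ∣ ℓ := by
            intro hd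
            exact hpl ((Nat.prime_dvd_prime_iff_eq hp.out hℓ).mp hd).symm
          have h7 : ¬ ‖((ℓ : ℤ) : ℚ_[p])‖ < 1 := by
            rw [Padic.norm_intCast_lt_one_iff]
            exact_mod_cast hnd
          have h8 := Padic.norm_int_le_one (p := p) (ℓ : ℤ)
          have : ((ℓ : ℤ) : ℚ_[p]) = (ℓ : ℚ_[p]) := by push_cast; rfl
          rw [this] at h7 h8
          exact le_antisymm h8 (not_lt.mp h7)
        rw [this]
        exact inv_le_one_of_one_le₀ hp1.le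
    have : (p : ℝ)⁻¹ * (p : ℝ) ^ 2 ≤ 1 := le_trans (by gcongr) h4
    have h9 : (p : ℝ)⁻¹ * (p : ℝ) ^ 2 = p := by field_simp
    rw [h9] at this
    linarith

end

end Pool.Agent.Y718
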