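import Mathlib

/-!
# Common zeros of fewer forms than variables
-/

set_option autoImplicit false

open MvPolynomial

namespace Pool.Agent.Y718

/-- the ideal of the origin -/
noncomputable def orig (K : Type) [Field K] (m : ℕ) : Ideal (MvPolynomial (Fin m) K) :=
  RingHom.ker (eval (0 : Fin m → K))

lemma mem_orig {K : Type} [Field K] {m : ℕ} {P : MvPolynomial (Fin m) K} :
    P ∈ orig K m ↔ eval 0 P = 0 := RingHom.mem_ker

lemma orig_max (K : Type) [Field K] (m : ℕ) : (orig K m).IsMaximal :=
  RingHom.ker_isMaximal_of_surjective _ fun c => ⟨C c, by simp⟩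

lemma fse_rename {K : Type} [Field K] {m : ℕ} (Q : MvPolynomial (Fin m) K) :
    Polynomial.C Q = finSuccEquiv K m (rename Fin.succ Q) := by
  induction Q using MvPolynomial.induction_on with
  | C a => simp [finSuccEquiv_apply]
  | add p q hp hq => rw [map_add, map_add, map_add, hp, hq]
  | mul_X p i hp => rw [map_mul, map_mul, map_mul, hp, rename_X, finSuccEquiv_X_succ]

lemma height_orig (K : Type) [Field K] (m : ℕ) : (orig K m).height = m := by
  induction m with
  | zero =>
    have h : (orig K 0) = ⊥ := by
      rw [eq_bot_iff]
      intro P hP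
      rw [mem_orig] at hP
      have h1 := eq_C_of_isEmpty P
      rw [h1, eval_C] at hP
      rw [h1, hP, C_0]
      exact Ideal.zero_mem _
    rw [h]
    have : IsDomain (MvPolynomial (Fin 0) K) := inferInstance
    simp
  | succ m ih =>
    have hmx := orig_max K (m + 1)
    have hmm := orig_max K m
    let e : MvPolynomial (Fin (m + 1)) K ≃+* Polynomial (MvPolynomial (Fin m) K) :=
      (finSuccEquiv K m).toRingEquiv
    set P : Ideal (Polynomial (MvPolynomial (Fin m) K)) := (orig K (m + 1)).map e with hP
    have hPmax : P.IsMaximal := Ideal.map_isMaximal_of_equiv e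
    have hlies : P.LiesOver (orig K m) := by
      constructor
      have hle : orig K m ≤ P.under (MvPolynomial (Fin m) K) := by
        intro Q hQ
        rw [mem_orig] at hQ
        rw [Ideal.mem_comap]
        have h1 : (algebraMap (MvPolynomial (Fin m) K) (Polynomial (MvPolynomial (Fin m) K))) Q =
            e (rename Fin.succ Q) := by
          exact fse_rename Q
        rw [h1]
        apply Ideal.mem_map_of_mem
        rw [mem_orig, eval_rename]
        exact hQ
      exact hmm.eq_of_le Ideal.IsPrime.ne_top' hle
    have h1 := Polynomial.height_eq_height_add_one (orig K m) P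
    have h2 : P.height = (orig K (m + 1)).height := e.height_map _
    rw [← h2, h1, ih]
    push_cast
    rfl

/-- **Common zeros.** Fewer polynomials without constant terms than variables, over an algebraically
closed field, have a common zero different from the origin. -/
theorem exists_common_zero {K : Type} [Field K] [IsAlgClosed K] {m : ℕ}
    (S : Set (MvPolynomial (Fin m) K)) (hfin : S.Finite) (hS : S.ncard < m)
    (h0 : ∀ P ∈ S, eval 0 P = 0) : ∃ x : Fin m → K, x ≠ 0 ∧ ∀ P ∈ S, eval x P = 0 := by
  by_contra hcon
  push Not at hcon
  have hZ : zeroLocus K (Ideal.span S) = {0} := by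
    ext x
    rw [zeroLocus_span, Set.mem_singleton_iff]
    constructor
    · intro hx
      by_contra hne
      obtain ⟨P, hP, hPx⟩ := hcon x hne
      exact hPx (by have := hx P hP; simpa using this)
    · rintro rfl P hP
      simpa using h0 P hP
  have hrad : (Ideal.span S).radical = orig K m := by
    rw [← vanishingIdeal_zeroLocus_eq_radical (K := K), hZ]
    ext P
    rw [mem_vanishingIdeal_singleton_iff, mem_orig]
    simp
  have hmin : orig K m ∈ (Ideal.span S).minimalPrimes := by
    refine ⟨⟨(orig_max K m).isPrime, ?_⟩, ?_⟩
    · rw [← hrad]; exact Ideal.le_radical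
    · rintro J ⟨hJ, hJS⟩ -
      rw [← hrad]
      exact hJ.radical_le_iff.mpr hJS
  have h1 := Ideal.height_le_card_of_mem_minimalPrimes_span hfin hmin
  rw [height_orig] at h1
  have h2 : m ≤ S.ncard := by exact_mod_cast h1
  omega

end Pool.Agent.Y718
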